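import Mathlib

open IntermediateField

namespace Pool.Agent.Lib.MP_2f3286_ag

/-- roots of unity of an overfield of an algebraically closed field -/
theorem root_of_unity_mem (kb M : Type*) [Field kb] [IsAlgClosed kb] [Field M] [Algebra kb M]
    {ξ : M} {n : ℕ} (hn : 0 < n) (h : ξ ^ n = 1) : ∃ c : kb, algebraMap kb M c = ξ := by
  have hint : IsIntegral kb ξ := by
    refine ⟨Polynomial.X ^ n - 1, Polynomial.monic_X_pow_sub_C 1 hn.ne', ?_⟩
    simp [h]
  have hirr := minpoly.irreducible hint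
  have hdeg := IsAlgClosed.degree_eq_one_of_irreducible kb hirr
  exact minpoly.mem_range_of_degree_eq_one kb ξ hdeg

/-- Continuous version of Hilbert 90 -/
theorem hilbert90 (k kb : Type*) [Field k] [Field kb] [Algebra k kb] [IsGalois k kb]
    (c : Gal(kb/k) → kbˣ) (hc : ∀ σ τ : Gal(kb/k), (c (σ * τ) : kb) = c σ * σ (c τ))
    (hopen : {σ : Gal(kb/k) | c σ = 1} ∈ nhds 1) :
    ∃ z : kbˣ, ∀ σ : Gal(kb/k), (c σ : kb) * z = σ z := by
  obtain ⟨L, hLfin, hLnor, hL⟩ := (krullTopology_mem_nhds_one_iff_of_normal k kb _).mp hopen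
  have hLgal : IsGalois k L := ⟨⟩
  have hone : ∀ τ ∈ L.fixingSubgroup, c τ = 1 := fun τ hτ => hL hτ
  have hright : ∀ σ : Gal(kb/k), ∀ τ ∈ L.fixingSubgroup, c (σ * τ) = c σ := by
    intro σ τ hτ
    ext
    rw [hc, hone τ hτ]; simp
  have hnormal : L.fixingSubgroup.Normal := inferInstance
  have hleft : ∀ σ : Gal(kb/k), ∀ τ ∈ L.fixingSubgroup, τ (c σ : kb) = c σ := by
    intro σ τ hτ
    have h1 : (c (τ * σ) : kb) = τ (c σ) := by rw [hc, hone τ hτ]; simp
    have h2 : τ * σ = σ * (σ⁻¹ * τ * σ) := by group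
    have h3 : σ⁻¹ * τ * σ ∈ L.fixingSubgroup := by
      have := hnormal.conj_mem τ hτ σ⁻¹
      simpa using this
    rw [← h1, h2, hright σ _ h3]
  have hmem : ∀ σ, (c σ : kb) ∈ L := by
    intro σ
    have : (c σ : kb) ∈ IntermediateField.fixedField L.fixingSubgroup := by
      rw [IntermediateField.mem_fixedField_iff]
      intro τ hτ; exact hleft σ τ hτ
    rwa [InfiniteGalois.fixedField_fixingSubgroup] at this
  -- descend
  have hsurj := AlgEquiv.restrictNormalHom_surjective (F := k) (K₁ := L) (E := kb)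
  choose lift hlift using hsurj
  let f : Gal(L/k) → Lˣ := fun g => Units.mk0 ⟨(c (lift g) : kb), hmem _⟩ (by
    intro h; exact (c (lift g)).ne_zero (congrArg Subtype.val h))
  have hfval : ∀ σ : Gal(kb/k), ((f (AlgEquiv.restrictNormalHom L σ) : L) : kb) = c σ := by
    intro σ
    have h1 : σ⁻¹ * lift (AlgEquiv.restrictNormalHom L σ) ∈ L.fixingSubgroup := by
      rw [← IntermediateField.restrictNormalHom_ker, MonoidHom.mem_ker, map_mul, map_inv, hlift]
      simp
    have h2 : lift (AlgEquiv.restrictNormalHom L σ) = σ * (σ⁻¹ * lift (AlgEquiv.restrictNormalHom L σ)) := by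
      group
    change (c (lift (AlgEquiv.restrictNormalHom L σ)) : kb) = c σ
    rw [h2, hright σ _ h1]
  have hfc : groupCohomology.IsMulCocycle₁ f := by
    intro g h
    obtain ⟨σ, rfl⟩ := AlgEquiv.restrictNormalHom_surjective (F := k) (K₁ := L) kb g
    obtain ⟨τ, rfl⟩ := AlgEquiv.restrictNormalHom_surjective (F := k) (K₁ := L) kb h
    ext
    rw [← map_mul, hfval, Units.val_mul, MulMemClass.coe_mul, hfval, hc, AlgEquiv.smul_units_def]
    simp only [Units.coe_map, MonoidHom.coe_coe]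
    rw [mul_comm]
    congr 1
    rw [← hfval τ]
    have := AlgEquiv.restrictNormal_commutes σ L (f (AlgEquiv.restrictNormalHom L τ) : L)
    exact this.symm
  obtain ⟨z, hz⟩ := groupCohomology.isMulCoboundary₁_of_isMulCocycle₁_of_aut_to_units f hfc
  refine ⟨Units.map (algebraMap L kb).toMonoidHom z, fun σ => ?_⟩
  have h1 := hz (AlgEquiv.restrictNormalHom L σ)
  rw [div_eq_iff_eq_mul] at h1
  have h2 := congrArg (fun u : Lˣ => ((u : L) : kb)) h1
  simp only [Units.val_mul, MulMemClass.coe_mul, hfval] at h2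
  rw [AlgEquiv.smul_units_def] at h2
  simp only [Units.coe_map, MonoidHom.coe_coe] at h2
  have h3 := AlgEquiv.restrictNormal_commutes σ L (z : L)
  simp only [Units.coe_map]
  change (c σ : kb) * (algebraMap L kb z) = σ (algebraMap L kb z)
  rw [← h3]
  exact h2.symm

end Pool.Agent.Lib.MP_2f3286_ag
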