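import Mathlib

open Polynomial

namespace Pool.Agent.Lib.MP_2f3286_ag

theorem exists_relation {k K : Type*} [Field k] [Field K] [Algebra k K]
    (htr : Algebra.trdeg k K = 1) (a b : K) :
    ∃ F : MvPolynomial (Fin 2) k, F ≠ 0 ∧ MvPolynomial.aeval ![a, b] F = 0 := by
  by_contra hcon
  push Not at hcon
  have hind : AlgebraicIndependent k ![a, b] := by
    rw [algebraicIndependent_iff]
    intro p hp
    by_contra hp0
    exact hcon p hp0 hp
  have h1 := hind.lift_cardinalMk_le_trdeg
  rw [htr] at h1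
  simp at h1

theorem exists_poly_of_zero {k K : Type*} [Field k] [Field K] [Algebra k K]
    (htr : Algebra.trdeg k K = 1) (R : Subalgebra k K) (h : R) (hh : h ≠ 0) (f : R) :
    ∃ Q : k[X], Q ≠ 0 ∧ ∀ (L : Type*) [Field L] [Algebra k L] (x : R →ₐ[k] L), x h = 0 →
      aeval (x f) Q = 0 := by
  have hcoe : ∀ Q : k[X], ((aeval f Q : R) : K) = aeval (f : K) Q :=
    fun Q => (aeval_algHom_apply R.val f Q).symm
  by_cases halg : IsAlgebraic k (f : K)
  · obtain ⟨Q, hQ0, hQ⟩ := halg
    refine ⟨Q, hQ0, fun L _ _ x _ => ?_⟩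
    have h1 : aeval f Q = 0 := by
      apply Subtype.ext
      rw [hcoe]
      exact hQ
    rw [aeval_algHom_apply, h1, map_zero]
  · have htrans : Transcendental k (f : K) := halg
    have hind : AlgebraicIndependent k ![(f : K)] := algebraicIndependent_iff_transcendental.mpr htrans
    have hbasis : IsTranscendenceBasis k ![(f : K)] :=
      hind.isTranscendenceBasis_of_lift_trdeg_le_of_finite (by rw [htr]; simp)
    have hKalg := hbasis.isAlgebraic
    have hh' : (h : K) ≠ 0 := fun h0 => hh (Subtype.ext h0)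
    obtain ⟨q, hq0, hq⟩ := (hKalg.isAlgebraic (h : K)).exists_nonzero_coeff_and_aeval_eq_zero
      (mem_nonZeroDivisors_of_ne_zero hh')
    have hrange : Set.range ![(f : K)] = {(f : K)} := by simp
    have hle : Algebra.adjoin k (Set.range ![(f : K)]) ≤ R := by
      rw [hrange, Algebra.adjoin_le_iff, Set.singleton_subset_iff]
      exact f.2
    -- the constant coefficient
    obtain ⟨Q, hQ⟩ : ∃ Q : k[X], aeval (f : K) Q = ((q.coeff 0 : Algebra.adjoin k (Set.range ![(f : K)])) : K) := by
      have hmem : ((q.coeff 0 : Algebra.adjoin k (Set.range ![(f : K)])) : K) ∈ Algebra.adjoin k {(f : K)} := by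
        rw [← hrange]; exact (q.coeff 0).2
      rw [Algebra.adjoin_singleton_eq_range_aeval] at hmem
      obtain ⟨Q, hQ⟩ := hmem
      exact ⟨Q, hQ⟩
    refine ⟨Q, ?_, fun L _ _ x hx => ?_⟩
    · rintro rfl
      rw [map_zero] at hQ
      exact hq0 (Subtype.ext hQ.symm)
    · -- push the relation to R
      let φ : Algebra.adjoin k (Set.range ![(f : K)]) →ₐ[k] R := Subalgebra.inclusion hle
      have h1 : ((q.map φ.toRingHom).eval h) = 0 := by
        apply Subtype.ext
        rw [eval_map]
        have := Polynomial.hom_eval₂ q φ.toRingHom (R.val.toRingHom) h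
        change R.val.toRingHom (eval₂ φ.toRingHom h q) = 0
        rw [this, ← hq, aeval_def]
        rfl
      have h2 := congrArg x h1
      rw [map_zero, eval_map] at h2
      have h3 := Polynomial.hom_eval₂ q φ.toRingHom (x.toRingHom) h
      have h4 : eval₂ (x.toRingHom.comp φ.toRingHom) (x h) q = 0 := by
        rw [← h2]; exact h3.symm
      rw [hx, eval₂_at_zero] at h4
      have h5 : φ (q.coeff 0) = aeval f Q := by
        apply Subtype.ext
        rw [hcoe, hQ]
        rfl
      have h6 : x (φ (q.coeff 0)) = 0 := h4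
      rw [h5] at h6
      rw [aeval_algHom_apply, h6]

/-- An `m`-th root of a rational class is rational. -/
theorem exists_root {k : Type*} [Field k] {e : ℕ → kˣ}
    (hcompat : ∀ n m, 1 ≤ n → 1 ≤ m → ∃ y : kˣ, e (n * m) = e n * y ^ n) {m : ℕ} (hm : 1 ≤ m)
    {γ : kˣ} (h : ∀ n, 1 ≤ n → ∃ z : kˣ, e n ^ m = γ * z ^ n) :
    ∃ a : kˣ, ∀ n, 1 ≤ n → ∃ z : kˣ, e n = a * z ^ n := by
  classical
  have hfin : {b : kˣ | b ^ m = γ}.Finite := by
    have h1 : {u : k | u ^ m = (γ : k)}.Finite := by
      have h5 : {u : k | u ^ m = (γ : k)} ⊆ ((X ^ m - C (γ : k)).roots.toFinset : Set k) := by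
        intro u hu
        simp only [Finset.mem_coe, Multiset.mem_toFinset]
        rw [mem_roots (X_pow_sub_C_ne_zero (by omega) _)]
        simp only [IsRoot.def, eval_sub, eval_pow, eval_X, eval_C, sub_eq_zero]
        exact hu
      exact (Finset.finite_toSet _).subset h5
    refine (h1.preimage (f := fun b : kˣ => (b : k)) (Units.val_injective.injOn)).subset ?_
    intro b hb
    have := congrArg Units.val hb
    simpa using this
  have hstep : ∀ M : ℕ, ∃ b : {b : kˣ // b ^ m = γ}, ∃ z : kˣ, e M.factorial = b.1 * z ^ M.factorial := by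
    intro M
    have hM := Nat.factorial_pos M
    obtain ⟨z, hz⟩ := h (M.factorial * m) (Nat.mul_pos hM hm)
    obtain ⟨y, hy⟩ := hcompat M.factorial m hM hm
    refine ⟨⟨e (M.factorial * m) * (z ^ M.factorial)⁻¹, ?_⟩, z * y⁻¹, ?_⟩
    · rw [mul_pow, hz, inv_pow, ← pow_mul]; simp
    · change e M.factorial = e (M.factorial * m) * (z ^ M.factorial)⁻¹ * (z * y⁻¹) ^ M.factorial
      rw [hy, mul_pow, inv_pow]
      have : e M.factorial * y ^ M.factorial * (z ^ M.factorial)⁻¹ * (z ^ M.factorial * (y ^ M.factorial)⁻¹) = 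
        e M.factorial * (y ^ M.factorial * (y ^ M.factorial)⁻¹) * ((z ^ M.factorial)⁻¹ * z ^ M.factorial) := by
        simp only [mul_comm, mul_left_comm, mul_assoc]
      rw [this]; simp
  choose b z hz using hstep
  have : Finite {b : kˣ // b ^ m = γ} := hfin
  obtain ⟨a, hinf⟩ := Finite.exists_infinite_fiber b
  have hinf' := Set.infinite_coe_iff.mp hinf
  refine ⟨a.1, fun n hn => ?_⟩
  obtain ⟨M, hM, hlt⟩ := hinf'.exists_gt n
  rw [Set.mem_preimage, Set.mem_singleton_iff] at hM
  obtain ⟨r, hr⟩ := Nat.dvd_factorial hn hlt.le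
  have hr0 : 1 ≤ r := by
    rcases Nat.eq_zero_or_pos r with rfl | h
    · have := Nat.factorial_pos M
      omega
    · exact h
  obtain ⟨y, hy⟩ := hcompat n r hn hr0
  refine ⟨z M ^ r * y⁻¹, ?_⟩
  have h1 := hz M
  rw [hM, hr, hy, mul_comm n r, pow_mul] at h1
  rw [mul_pow, inv_pow, ← mul_assoc, ← h1]
  simp

end Pool.Agent.Lib.MP_2f3286_ag
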