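import Mathlib

namespace Pool.Agent.Lib.MP_2f3286_ag

/-- Abstract form of a ring of `S`-integers together with the normalised absolute values
at the places of `S ∪ ∞`. -/
structure Places (k : Type*) [Field k] (W : Type*) [Fintype W] where
  O : Subring k
  nv : W → k →*₀ ℝ
  nonneg : ∀ w x, 0 ≤ nv w x
  add_le : ∀ w x y, nv w (x + y) ≤ 4 * max (nv w x) (nv w y)
  one_le : ∀ x ∈ O, x ≠ 0 → 1 ≤ ∏ w, nv w x
  finite : ∀ C : ℝ, {x | x ∈ O ∧ ∀ w, nv w x ≤ C}.Finite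
  big : ∀ C : ℝ, ∃ x ∈ O, x ≠ 0 ∧ C < ∏ w, nv w x

namespace Places

variable {k : Type*} [Field k] {W : Type*} [Fintype W] (P : Places k W)

/-- units of `O` as a subgroup of `kˣ` -/
def Γ : Subgroup kˣ := P.O.toSubmonoid.units

theorem mem_Γ {x : kˣ} : x ∈ P.Γ ↔ (x : k) ∈ P.O ∧ ((x⁻¹ : kˣ) : k) ∈ P.O := by
  unfold Γ
  rw [Submonoid.mem_units_iff]
  rfl

theorem pos (w : W) {x : k} (hx : x ≠ 0) : 0 < P.nv w x := by
  refine lt_of_le_of_ne (P.nonneg w x) (Ne.symm ?_)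
  exact (map_ne_zero (P.nv w)).mpr hx

theorem nv_neg_one (w : W) : P.nv w (-1) = 1 := by
  have h : P.nv w (-1) ^ 2 = 1 := by rw [← map_pow]; simp
  have h0 := P.nonneg w (-1)
  nlinarith [sq_nonneg (P.nv w (-1) - 1)]

theorem nv_neg (w : W) (x : k) : P.nv w (-x) = P.nv w x := by
  rw [← neg_one_mul, map_mul, nv_neg_one, one_mul]

theorem sub_le (w : W) (x y : k) : P.nv w (x - y) ≤ 4 * max (P.nv w x) (P.nv w y) := by
  rw [sub_eq_add_neg, ← P.nv_neg w y]
  exact P.add_le w _ _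

theorem prod_unit {x : kˣ} (hx : x ∈ P.Γ) : ∏ w, P.nv w x = 1 := by
  rw [mem_Γ] at hx
  have h1 := P.one_le _ hx.1 x.ne_zero
  have h2 := P.one_le _ hx.2 (x⁻¹).ne_zero
  have h3 : (∏ w, P.nv w x) * ∏ w, P.nv w ((x⁻¹ : kˣ) : k) = 1 := by
    rw [← Finset.prod_mul_distrib]
    refine Finset.prod_eq_one fun w _ => ?_
    rw [← map_mul]; simp
  have h4 : 0 < ∏ w, P.nv w x := lt_of_lt_of_le one_pos h1
  nlinarith

/-- the torsion part -/
def K0 : Subgroup kˣ where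
  carrier := {x | x ∈ P.Γ ∧ ∀ w, P.nv w x = 1}
  mul_mem' := by
    rintro a b ⟨ha, ha'⟩ ⟨hb, hb'⟩
    exact ⟨mul_mem ha hb, fun w => by rw [Units.val_mul, map_mul, ha', hb', one_mul]⟩
  one_mem' := ⟨one_mem _, fun w => by simp⟩
  inv_mem' := by
    rintro a ⟨ha, ha'⟩
    exact ⟨inv_mem ha, fun w => by rw [Units.val_inv_eq_inv_val, map_inv₀, ha', inv_one]⟩

theorem mem_K0 {x : kˣ} : x ∈ P.K0 ↔ x ∈ P.Γ ∧ ∀ w, P.nv w x = 1 := Iff.rfl

/-- Structure of the unit group when there are at most two places. -/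
theorem structure_units (hW : Fintype.card W ≤ 2) :
    (∀ x ∈ P.Γ, ∀ w, P.nv w x = 1) ∨
    ∃ w₁ w₂ : W, w₁ ≠ w₂ ∧ (∀ w, w = w₁ ∨ w = w₂) ∧ ∃ ε ∈ P.Γ, 1 < P.nv w₁ ε ∧
      ∀ x ∈ P.Γ, ∃ ζ ∈ P.K0, ∃ j : ℤ, x = ζ * ε ^ j := by
  classical
  by_cases htriv : ∀ x ∈ P.Γ, ∀ w, P.nv w x = 1
  · exact Or.inl htriv
  right
  push Not at htriv
  obtain ⟨x₀, hx₀, w₁, hw₁⟩ := htriv
  -- there is a second place
  obtain ⟨w₂, hw₂⟩ : ∃ w₂ : W, w₂ ≠ w₁ := by
    by_contra hcon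
    push Not at hcon
    have : ∏ w, P.nv w x₀ = P.nv w₁ x₀ := by
      rw [Finset.prod_eq_single w₁]
      · intro b _ hb; exact absurd (hcon b) hb
      · intro h; exact absurd (Finset.mem_univ _) h
    rw [P.prod_unit hx₀] at this
    exact hw₁ this.symm
  have hall : ∀ w, w = w₁ ∨ w = w₂ := by
    intro w
    by_contra hcon
    push Not at hcon
    have : ({w₁, w₂, w} : Finset W).card ≤ 2 := (Finset.card_le_univ _).trans hW
    rw [Finset.card_eq_three.mpr ⟨w₁, w₂, w, hw₂.symm, hcon.1.symm, hcon.2.symm, rfl⟩] at this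
    omega
  have hprod : ∀ x : k, ∏ w, P.nv w x = P.nv w₁ x * P.nv w₂ x := by
    intro x
    have : (Finset.univ : Finset W) = {w₁, w₂} := by
      ext w; simpa using hall w
    rw [this, Finset.prod_pair hw₂.symm]
  have hmul : ∀ x ∈ P.Γ, P.nv w₁ x * P.nv w₂ x = 1 := fun x hx => by
    rw [← hprod, P.prod_unit hx]
  -- the value group
  let H : AddSubgroup ℝ :=
    { carrier := {r | ∃ x ∈ P.Γ, Real.log (P.nv w₁ (x : k)) = r}
      add_mem' := by
        rintro a b ⟨x, hx, rfl⟩ ⟨y, hy, rfl⟩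
        refine ⟨x * y, mul_mem hx hy, ?_⟩
        rw [Units.val_mul, map_mul, Real.log_mul (P.pos w₁ x.ne_zero).ne' (P.pos w₁ y.ne_zero).ne']
      zero_mem' := ⟨1, one_mem _, by simp⟩
      neg_mem' := by
        rintro a ⟨x, hx, rfl⟩
        refine ⟨x⁻¹, inv_mem hx, ?_⟩
        rw [Units.val_inv_eq_inv_val, map_inv₀, Real.log_inv] }
  have hfin : {r : ℝ | r ∈ H ∧ 0 < r ∧ r ≤ 1}.Finite := by
    have := P.finite (Real.exp 1)
    refine (this.image fun x => Real.log (P.nv w₁ x)).subset ?_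
    rintro r ⟨⟨x, hx, rfl⟩, h0, h1⟩
    refine ⟨x, ⟨((P.mem_Γ).mp hx).1, fun w => ?_⟩, rfl⟩
    have hp := P.pos w₁ x.ne_zero
    rcases hall w with rfl | rfl
    · exact (Real.log_le_iff_le_exp hp).mp h1
    · have h2 : 1 < P.nv w₁ x := (Real.log_pos_iff hp.le).mp h0
      have h3 := hmul x hx
      have h4 : P.nv w x < 1 := by
        by_contra hge
        push Not at hge
        nlinarith
      have : (1 : ℝ) ≤ Real.exp 1 := Real.one_le_exp zero_le_one
      linarith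
  obtain ⟨a, ha0, ha⟩ : ∃ a : ℝ, 0 < a ∧ Disjoint (H : Set ℝ) (Set.Ioo 0 a) := by
    let F := insert (1 : ℝ) hfin.toFinset
    have hF : F.Nonempty := Finset.insert_nonempty _ _
    refine ⟨F.min' hF, ?_, ?_⟩
    · rw [Finset.lt_min'_iff]
      intro y hy
      simp only [F, Finset.mem_insert, Set.Finite.mem_toFinset] at hy
      rcases hy with rfl | hy
      · exact one_pos
      · exact hy.2.1
    · rw [Set.disjoint_left]
      rintro r hr ⟨h0, h1⟩
      have h1' : r < 1 := lt_of_lt_of_le h1 (Finset.min'_le _ _ (by simp [F]))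
      have : r ∈ F := by
        simp only [F, Finset.mem_insert, Set.Finite.mem_toFinset]
        exact Or.inr ⟨hr, h0, h1'.le⟩
      exact absurd h1 (not_lt.mpr (Finset.min'_le _ _ this))
  obtain ⟨b, hb⟩ := AddSubgroup.cyclic_of_isolated_zero ha0 ha
  have hbH : b ∈ H := by rw [hb]; exact AddSubgroup.mem_closure_singleton_self b
  have hb0 : b ≠ 0 := by
    rintro rfl
    have h1 : Real.log (P.nv w₁ x₀) ∈ H := ⟨x₀, hx₀, rfl⟩
    rw [hb, AddSubgroup.mem_closure_singleton] at h1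
    obtain ⟨n, hn⟩ := h1
    rw [smul_zero] at hn
    exact hw₁ (Real.eq_one_of_pos_of_log_eq_zero (P.pos w₁ x₀.ne_zero) hn.symm)
  obtain ⟨ε, hε, hεpos, hεgen⟩ : ∃ ε ∈ P.Γ, 0 < Real.log (P.nv w₁ (ε : k)) ∧
      ∀ r ∈ H, ∃ j : ℤ, r = j * Real.log (P.nv w₁ (ε : k)) := by
    obtain ⟨ε₀, hε₀, hlog⟩ := hbH
    rcases lt_or_gt_of_ne hb0 with hneg | hpos
    · refine ⟨ε₀⁻¹, inv_mem hε₀, ?_, fun r hr => ?_⟩
      · rw [Units.val_inv_eq_inv_val, map_inv₀, Real.log_inv, hlog]; linarith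
      · rw [hb, AddSubgroup.mem_closure_singleton] at hr
        obtain ⟨n, hn⟩ := hr
        refine ⟨-n, ?_⟩
        rw [Units.val_inv_eq_inv_val, map_inv₀, Real.log_inv, hlog, ← hn]
        simp
    · refine ⟨ε₀, hε₀, by rw [hlog]; exact hpos, fun r hr => ?_⟩
      rw [hb, AddSubgroup.mem_closure_singleton] at hr
      obtain ⟨n, hn⟩ := hr
      exact ⟨n, by rw [hlog, ← hn]; simp⟩
  have hρ : 1 < P.nv w₁ (ε : k) := (Real.log_pos_iff (P.nonneg _ _)).mp hεpos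
  refine ⟨w₁, w₂, hw₂.symm, hall, ε, hε, hρ, fun x hx => ?_⟩
  obtain ⟨j, hj⟩ := hεgen _ ⟨x, hx, rfl⟩
  have hzmem : x * (ε ^ j)⁻¹ ∈ P.Γ := mul_mem hx (inv_mem (zpow_mem hε j))
  have hz1 : P.nv w₁ ((x * (ε ^ j)⁻¹ : kˣ) : k) = 1 := by
    apply Real.eq_one_of_pos_of_log_eq_zero (P.pos w₁ (Units.ne_zero _))
    rw [Units.val_mul, map_mul, Real.log_mul (P.pos w₁ x.ne_zero).ne'
      (P.pos w₁ (Units.ne_zero _)).ne', Units.val_inv_eq_inv_val, map_inv₀, Real.log_inv,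
      Units.val_zpow_eq_zpow_val, map_zpow₀, Real.log_zpow, hj]
    ring
  refine ⟨x * (ε ^ j)⁻¹, ⟨hzmem, fun w => ?_⟩, j, by simp⟩
  rcases hall w with rfl | rfl
  · exact hz1
  · have := hmul _ hzmem
    rwa [hz1, one_mul] at this

theorem nv_w2 {w₁ w₂ : W} (h : w₁ ≠ w₂) (hall : ∀ w, w = w₁ ∨ w = w₂) {x : kˣ} (hx : x ∈ P.Γ) :
    P.nv w₁ x * P.nv w₂ x = 1 := by
  classical
  have h1 := P.prod_unit hx
  have : (Finset.univ : Finset W) = {w₁, w₂} := by
    ext w; simpa using hall w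
  rwa [this, Finset.prod_pair h] at h1

theorem one_le' {w₁ w₂ : W} (h : w₁ ≠ w₂) (hall : ∀ w, w = w₁ ∨ w = w₂) {x : k} (hx : x ∈ P.O)
    (hx0 : x ≠ 0) : 1 ≤ P.nv w₁ x * P.nv w₂ x := by
  classical
  have h1 := P.one_le x hx hx0
  have : (Finset.univ : Finset W) = {w₁, w₂} := by
    ext w; simpa using hall w
  rwa [this, Finset.prod_pair h] at h1

/-- A unit of infinite order is large at some place. -/
theorem exists_gt_one {ε : kˣ} (hε : ε ∈ P.Γ) (hinf : ¬ IsOfFinOrder ε) :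
    ∃ w, 1 < P.nv w (ε : k) := by
  by_contra hcon
  push Not at hcon
  apply hinf
  have hfin := P.finite 1
  have hmaps : Set.MapsTo (fun n : ℕ => ((ε ^ n : kˣ) : k)) Set.univ
      {x | x ∈ P.O ∧ ∀ w, P.nv w x ≤ 1} := by
    intro n _
    refine ⟨((P.mem_Γ).mp (pow_mem hε n)).1, fun w => ?_⟩
    simp only [Units.val_pow_eq_pow_val, map_pow]
    exact pow_le_one₀ (P.nonneg _ _) (hcon w)
  obtain ⟨a, -, b, -, hab, heq⟩ := Set.Infinite.exists_ne_map_eq_of_mapsTo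
    (Set.infinite_univ) hmaps hfin
  have heq' : ε ^ a = ε ^ b := Units.ext heq
  by_contra hnot
  exact hab (injective_pow_iff_not_isOfFinOrder.mpr hnot heq')

theorem exists_pos_le {α : Type*} [Finite α] (f : α → ℝ) (hf : ∀ a, 0 < f a) :
    ∃ δ : ℝ, 0 < δ ∧ ∀ a, δ ≤ f a := by
  cases isEmpty_or_nonempty α
  · exact ⟨1, one_pos, fun a => isEmptyElim a⟩
  · obtain ⟨a, ha⟩ := Finite.exists_min f
    exact ⟨f a, hf a, ha⟩

/-- At the places where `ε` has absolute value one, `ε^N - 1` is not small for suitable `N`. -/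
theorem exists_good {ε : kˣ} (hinf : ¬ IsOfFinOrder ε) {N₀ : ℕ} (hN₀ : 0 < N₀) :
    ∃ δ : ℝ, 0 < δ ∧ δ ≤ 1 ∧ ∀ X : ℕ, ∃ m : ℕ, X < m ∧ ∀ w, P.nv w (ε : k) = 1 →
      δ ≤ P.nv w ((ε : k) ^ (N₀ * m) - 1) := by
  classical
  set r := Fintype.card W with hr
  have hne : ∀ q : ℕ, 0 < q → (ε : k) ^ (N₀ * q) - 1 ≠ 0 := by
    intro q hq h
    apply hinf
    rw [isOfFinOrder_iff_pow_eq_one]
    refine ⟨N₀ * q, by positivity, ?_⟩
    ext
    simpa using sub_eq_zero.mp h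
  obtain ⟨δ₀, hδ₀, hδ₀'⟩ := exists_pos_le
    (fun p : W × Fin r => P.nv p.1 ((ε : k) ^ (N₀ * (p.2.1 + 1)) - 1) / 4)
    (fun p => div_pos (P.pos _ (hne _ (Nat.succ_pos _))) (by norm_num))
  refine ⟨min δ₀ 1, lt_min hδ₀ one_pos, min_le_right _ _, fun X => ?_⟩
  by_contra hcon
  push Not at hcon
  have hbad : ∀ i : Fin (r + 1), ∃ w, P.nv w (ε : k) = 1 ∧
      P.nv w ((ε : k) ^ (N₀ * (X + 1 + i.1)) - 1) < δ₀ := by
    intro i
    obtain ⟨w, hw, hw'⟩ := hcon (X + 1 + i.1) (by omega)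
    exact ⟨w, hw, hw'.trans_le (min_le_left _ _)⟩
  choose f hf hf' using hbad
  have hninj : ¬ Function.Injective f := by
    intro h
    have := Fintype.card_le_of_injective f h
    simp at this
    omega
  rw [Function.not_injective_iff] at hninj
  obtain ⟨i, j, hij, hne'⟩ := hninj
  wlog hlt : i < j generalizing i j
  · exact this j i hij.symm hne'.symm (lt_of_le_of_ne (not_lt.mp hlt) hne'.symm)
  -- the difference
  obtain ⟨q, hq⟩ : ∃ q : ℕ, j.1 = i.1 + (q + 1) := ⟨j.1 - i.1 - 1, by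
    have : i.1 < j.1 := hlt
    omega⟩
  have hqr : q < r := by have := j.2; omega
  have h1 := hδ₀' (f j, ⟨q, hqr⟩)
  simp only at h1
  have h2 : P.nv (f j) ((ε : k) ^ (N₀ * (q + 1)) - 1) < 4 * δ₀ := by
    have e : (ε : k) ^ (N₀ * (X + 1 + j.1)) - 1 - ((ε : k) ^ (N₀ * (X + 1 + i.1)) - 1) =
        (ε : k) ^ (N₀ * (X + 1 + i.1)) * ((ε : k) ^ (N₀ * (q + 1)) - 1) := by
      rw [hq]; ring
    have h3 : P.nv (f j) ((ε : k) ^ (N₀ * (X + 1 + i.1))) = 1 := by
      rw [map_pow, hf j, one_pow]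
    have h4 : P.nv (f j) ((ε : k) ^ (N₀ * (q + 1)) - 1) =
        P.nv (f j) ((ε : k) ^ (N₀ * (X + 1 + j.1)) - 1 - ((ε : k) ^ (N₀ * (X + 1 + i.1)) - 1)) := by
      rw [e, map_mul, h3, one_mul]
    rw [h4]
    refine (P.sub_le _ _ _).trans_lt ?_
    have h5 := hf' j
    have h6 := hf' i
    rw [hij] at h6
    have := max_lt h5 h6
    linarith
  linarith

/-- The combinatorial heart: `a` residues modulo `N` fit, after a common shift, into an
interval of length `a N / (a + 1)`. -/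
theorem gap {ι : Type*} (A : Finset ι) (N : ℕ) (hN : A.card ^ 2 < N) (r : ι → ℤ) :
    ∃ (s : ℤ) (m : ι → ℕ) (a : ι → ℤ), ∀ α ∈ A, (m α : ℤ) = r α + s + N * a α ∧
      (A.card + 1) * m α ≤ A.card * N := by
  classical
  set c := A.card with hc
  have hN0 : 0 < N := by
    rcases Nat.eq_zero_or_pos N with h | h
    · rw [h] at hN; exact absurd hN (Nat.not_lt_zero _)
    · exact h
  have hNZ : (0 : ℤ) < N := by exact_mod_cast hN0
  set w := (N + c) / (c + 1) with hw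
  have hw1 : w * (c + 1) ≤ N + c := Nat.div_mul_le_self _ _
  have hw2 : N + c < (w + 1) * (c + 1) := by
    have := Nat.lt_div_mul_add (a := N + c) (b := c + 1) (by omega)
    rw [← hw] at this
    linarith
  have hcw : c * w < N := by nlinarith
  have hwN : N ≤ w * (c + 1) := by nlinarith
  -- find a free window
  obtain ⟨x, hx⟩ : ∃ x : ℤ, ∀ α ∈ A, ∀ i : ℕ, i < w → (r α - (x + i)) % N ≠ 0 := by
    by_contra hcon
    push Not at hcon
    have hcon' : ∀ x : Fin N, ∃ p : ι × ℕ, p ∈ A ×ˢ Finset.range w ∧ (r p.1 - ((x : ℤ) + p.2)) % N = 0 := by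
      intro x
      obtain ⟨α, hα, i, hi, h⟩ := hcon x
      exact ⟨(α, i), by simp [hα, hi], h⟩
    choose g hg hg' using hcon'
    have hginj : Function.Injective g := by
      intro x x' hxx
      have h1 := hg' x
      have h2 := hg' x'
      rw [← hxx] at h2
      have h3 : ((x : ℤ) - x') % N = 0 := by
        have h4 := Int.dvd_of_emod_eq_zero h1
        have h5 := Int.dvd_of_emod_eq_zero h2
        have h6 := dvd_sub h5 h4
        apply Int.emod_eq_zero_of_dvd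
        have e : ((x : ℤ) - x') = r (g x).1 - ((x' : ℤ) + (g x).2) - (r (g x).1 - ((x : ℤ) + (g x).2)) := by
          ring
        rw [e]
        exact h6
      have h7 := Int.dvd_of_emod_eq_zero h3
      have h8 : (x : ℤ) - x' = 0 := by
        apply Int.eq_zero_of_abs_lt_dvd h7
        rw [abs_lt]
        have := x.2
        have := x'.2
        constructor <;> omega
      ext
      omega
    have hcard := Finset.card_le_card_of_injOn g (s := Finset.univ) (t := A ×ˢ Finset.range w)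
      (fun x _ => hg x) (hginj.injOn)
    rw [Finset.card_univ, Fintype.card_fin, Finset.card_product, Finset.card_range, ← hc] at hcard
    omega
  refine ⟨-(x + w), fun α => ((r α - (x + w)) % N).toNat, fun α => -((r α - (x + w)) / N),
    fun α hα => ?_⟩
  have h0 : 0 ≤ (r α - (x + w)) % N := Int.emod_nonneg _ hNZ.ne'
  have h1 : (r α - (x + w)) % N < N := Int.emod_lt_of_pos _ hNZ
  have h2 := Int.mul_ediv_add_emod (r α - (x + w)) N
  have h3 : (((r α - (x + w)) % N).toNat : ℤ) = (r α - (x + w)) % N := Int.toNat_of_nonneg h0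
  refine ⟨?_, ?_⟩
  · rw [h3]; linarith
  · -- the residue avoids the last `w` values
    have h4 : (r α - (x + w)) % N < N - w := by
      by_contra hge
      push Not at hge
      set u := (r α - (x + w)) % N with hu
      -- i = w + u - N
      have hi0 : 0 ≤ w + u - N := by linarith
      have hiw : w + u - N < w := by linarith
      have h5 := hx α hα (w + u - N).toNat (by
        have : ((w + u - N).toNat : ℤ) < w := by rw [Int.toNat_of_nonneg hi0]; exact hiw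
        exact_mod_cast this)
      apply h5
      rw [Int.toNat_of_nonneg hi0]
      apply Int.emod_eq_zero_of_dvd
      refine ⟨(r α - (x + w)) / N + 1, ?_⟩
      linarith
    have h6 : ((r α - (x + w)) % N).toNat + w < N := by
      have : (((r α - (x + w)) % N).toNat : ℤ) + w < N := by rw [h3]; linarith
      exact_mod_cast this
    set u' := ((r α - (x + w)) % N).toNat with hu'
    nlinarith

theorem sum_le {ι : Type*} (w : W) (A : Finset ι) (x : ι → k) {B : ℝ} (hB : 0 ≤ B)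
    (h : ∀ α ∈ A, P.nv w (x α) ≤ B) : P.nv w (∑ α ∈ A, x α) ≤ 4 ^ A.card * B := by
  classical
  induction A using Finset.induction_on with
  | empty => simpa using hB
  | insert a A ha ih =>
    rw [Finset.sum_insert ha, Finset.card_insert_of_notMem ha]
    have h1 := h a (Finset.mem_insert_self a A)
    have h2 := ih (fun α hα => h α (Finset.mem_insert_of_mem hα))
    have h3 : (1 : ℝ) ≤ 4 ^ A.card := one_le_pow₀ (by norm_num)
    have h4 : B ≤ 4 ^ A.card * B := by nlinarith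
    have h5 := max_le (h1.trans h4) h2
    calc _ ≤ _ := P.add_le w _ _
      _ ≤ 4 * (4 ^ A.card * B) := by linarith
      _ = _ := by ring

/-- The size estimate: a short combination divisible by `ε^N - 1` vanishes. -/
theorem short_vanish {ι : Type*} (A : Finset ι) {ε : kˣ} (hε : ε ∈ P.Γ)
    (hinf : ¬ IsOfFinOrder ε) {C : ℝ} (hC : 1 ≤ C) {N₀ : ℕ} (hN₀ : 0 < N₀) :
    ∃ N : ℕ, 0 < N ∧ N₀ ∣ N ∧ A.card ^ 2 < N ∧ (ε : k) ^ N - 1 ≠ 0 ∧
      ∀ c : ι → k, (∀ α ∈ A, ∀ w, P.nv w (c α) ≤ C) → ∀ m : ι → ℕ,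
        (∀ α ∈ A, (A.card + 1) * m α ≤ A.card * N) →
        (∑ α ∈ A, c α * (ε : k) ^ m α) / ((ε : k) ^ N - 1) ∈ P.O →
        ∑ α ∈ A, c α * (ε : k) ^ m α = 0 := by
  classical
  obtain ⟨δ, hδ0, hδ1, hgood⟩ := P.exists_good hinf hN₀
  set r := Fintype.card W with hr
  set a := A.card with ha
  set H := ∏ w, max 1 (P.nv w (ε : k)) with hH
  have hH1 : 1 < H := by
    obtain ⟨w₁, hw₁⟩ := P.exists_gt_one hε hinf
    rw [hH, ← Finset.mul_prod_erase Finset.univ _ (Finset.mem_univ w₁)]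
    have h1 : 1 ≤ ∏ w ∈ Finset.univ.erase w₁, max 1 (P.nv w (ε : k)) :=
      Finset.prod_induction _ (fun r : ℝ => 1 ≤ r) (fun a b ha hb => by nlinarith) le_rfl
        (fun w _ => le_max_left _ _)
    have h2 : 1 < max 1 (P.nv w₁ (ε : k)) := lt_max_of_lt_right hw₁
    nlinarith
  have hev : ∀ᶠ n : ℕ in Filter.atTop, (∀ w, 1 < P.nv w (ε : k) → 4 < P.nv w (ε : k) ^ n) ∧
      (∀ w, P.nv w (ε : k) < 1 → P.nv w (ε : k) ^ n < 1 / 4) ∧
      ((4 ^ a * C) ^ r) ^ (a + 1) < ((δ / 4) ^ r) ^ (a + 1) * H ^ n ∧ a ^ 2 < n := by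
    refine Filter.Eventually.and ?_ (Filter.Eventually.and ?_ (Filter.Eventually.and ?_ ?_))
    · rw [Filter.eventually_all]
      intro w
      by_cases hw : 1 < P.nv w (ε : k)
      · filter_upwards [(tendsto_pow_atTop_atTop_of_one_lt hw).eventually_gt_atTop 4] with n hn _
        exact hn
      · exact Filter.Eventually.of_forall fun n h => absurd h hw
    · rw [Filter.eventually_all]
      intro w
      by_cases hw : P.nv w (ε : k) < 1
      · have := (tendsto_pow_atTop_nhds_zero_of_lt_one (P.nonneg w _) hw).eventually_lt_const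
          (show (0 : ℝ) < 1 / 4 by norm_num)
        filter_upwards [this] with n hn _
        exact hn
      · exact Filter.Eventually.of_forall fun n h => absurd h hw
    · have h1 := (tendsto_pow_atTop_atTop_of_one_lt hH1).const_mul_atTop
        (show (0 : ℝ) < ((δ / 4) ^ r) ^ (a + 1) by positivity)
      exact h1.eventually_gt_atTop _
    · exact Filter.eventually_gt_atTop _
  obtain ⟨X, hX⟩ := Filter.eventually_atTop.mp hev
  obtain ⟨m₀, hm₀, hneutral⟩ := hgood X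
  set N := N₀ * m₀ with hN
  have hXN : X ≤ N := by
    rw [hN]
    nlinarith
  obtain ⟨hbig, hsmall, hHN, haN⟩ := hX N hXN
  have hNpos : 0 < N := by
    rw [hN]; exact Nat.mul_pos hN₀ (by omega)
  have hη : (ε : k) ^ N - 1 ≠ 0 := by
    intro h
    apply hinf
    rw [isOfFinOrder_iff_pow_eq_one]
    refine ⟨N, hNpos, ?_⟩
    ext
    simpa using sub_eq_zero.mp h
  refine ⟨N, hNpos, ⟨m₀, hN⟩, haN, hη, fun c hc m hm hdiv => ?_⟩
  by_contra hz
  set z := ∑ α ∈ A, c α * (ε : k) ^ m α with hzdef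
  -- lower bounds
  have hlow : ∀ w, δ / 4 * (max 1 (P.nv w (ε : k))) ^ N ≤ P.nv w ((ε : k) ^ N - 1) := by
    intro w
    rcases lt_trichotomy (P.nv w (ε : k)) 1 with h | h | h
    · have h1 := hsmall w h
      rw [max_eq_left h.le, one_pow, mul_one]
      have h2 : P.nv w (1 : k) ≤ 4 * max (P.nv w ((ε : k) ^ N)) (P.nv w ((ε : k) ^ N - 1)) := by
        have : (1 : k) = (ε : k) ^ N - ((ε : k) ^ N - 1) := by ring
        conv_lhs => rw [this]
        exact P.sub_le w _ _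
      rw [map_one, map_pow] at h2
      have h3 : 1 / 4 ≤ P.nv w ((ε : k) ^ N - 1) := by
        by_contra hcon
        push Not at hcon
        have := max_lt h1 hcon
        linarith
      linarith
    · rw [h, max_self, one_pow, mul_one]
      have := hneutral w h
      linarith
    · have h1 := hbig w h
      rw [max_eq_right h.le]
      have h2 : P.nv w ((ε : k) ^ N) ≤ 4 * max (P.nv w ((ε : k) ^ N - 1)) (P.nv w 1) := by
        have : (ε : k) ^ N = ((ε : k) ^ N - 1) + 1 := by ring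
        conv_lhs => rw [this]
        exact P.add_le w _ _
      rw [map_pow, map_one] at h2
      have h3 : P.nv w (ε : k) ^ N / 4 ≤ P.nv w ((ε : k) ^ N - 1) := by
        rcases le_total (P.nv w ((ε : k) ^ N - 1)) 1 with h4 | h4
        · rw [max_eq_right h4] at h2; linarith
        · rw [max_eq_left h4] at h2; linarith
      have h5 : 0 < P.nv w (ε : k) ^ N := by linarith
      nlinarith
  -- upper bounds
  set θ : ℝ := a / (a + 1) with hθ
  have hup : ∀ w, P.nv w z ≤ 4 ^ a * C * ((max 1 (P.nv w (ε : k))) ^ N) ^ θ := by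
    intro w
    set μ := max 1 (P.nv w (ε : k)) with hμ
    have hμ1 : 1 ≤ μ := le_max_left _ _
    have hμ0 : 0 < μ := by linarith
    have h1 : P.nv w z ≤ 4 ^ a * (C * (μ ^ N) ^ θ) := by
      refine P.sum_le w A _ (by positivity) fun α hα => ?_
      rw [map_mul, map_pow]
      refine mul_le_mul (hc α hα w) ?_ (pow_nonneg (P.nonneg _ _) _) (by linarith)
      calc P.nv w (ε : k) ^ m α ≤ μ ^ m α := pow_le_pow_left₀ (P.nonneg _ _) (le_max_right _ _) _
        _ ≤ (μ ^ N) ^ θ := by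
          rw [← Real.rpow_natCast, ← Real.rpow_natCast, ← Real.rpow_mul hμ0.le]
          apply Real.rpow_le_rpow_of_exponent_le hμ1
          have h2 := hm α hα
          have h3 : ((a : ℝ) + 1) * m α ≤ a * N := by exact_mod_cast h2
          rw [hθ, ← mul_div_assoc, le_div_iff₀ (by positivity)]
          linarith
    linarith
  have hq := P.one_le _ hdiv (div_ne_zero hz hη)
  have h1 : (∏ w, P.nv w (z / ((ε : k) ^ N - 1))) * (∏ w, P.nv w ((ε : k) ^ N - 1)) =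
      ∏ w, P.nv w z := by
    rw [← Finset.prod_mul_distrib]
    refine Finset.prod_congr rfl fun w _ => ?_
    rw [← map_mul, div_mul_cancel₀ _ hη]
  have h2 : ∏ w, (δ / 4 * (max 1 (P.nv w (ε : k))) ^ N) ≤ ∏ w, P.nv w ((ε : k) ^ N - 1) :=
    Finset.prod_le_prod (fun w _ => by positivity) (fun w _ => hlow w)
  have h3 : ∏ w, P.nv w z ≤ ∏ w, (4 ^ a * C * ((max 1 (P.nv w (ε : k))) ^ N) ^ θ) :=
    Finset.prod_le_prod (fun w _ => P.nonneg _ _) (fun w _ => hup w)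
  have h4 : ∏ w, (δ / 4 * (max 1 (P.nv w (ε : k))) ^ N) = (δ / 4) ^ r * H ^ N := by
    rw [Finset.prod_mul_distrib, Finset.prod_const, Finset.prod_pow, Finset.card_univ]
  have h5 : ∏ w, (4 ^ a * C * ((max 1 (P.nv w (ε : k))) ^ N) ^ θ) =
      (4 ^ a * C) ^ r * (H ^ N) ^ θ := by
    rw [Finset.prod_mul_distrib, Finset.prod_const, Finset.card_univ,
      Real.finsetProd_rpow _ _ (fun w _ => by positivity), Finset.prod_pow]
  rw [h4] at h2
  rw [h5] at h3
  have hprodpos : 0 ≤ ∏ w, P.nv w ((ε : k) ^ N - 1) := Finset.prod_nonneg fun w _ => P.nonneg _ _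
  have h6 : (δ / 4) ^ r * H ^ N ≤ (4 ^ a * C) ^ r * (H ^ N) ^ θ := by
    calc _ ≤ _ := h2
      _ ≤ (∏ w, P.nv w (z / ((ε : k) ^ N - 1))) * (∏ w, P.nv w ((ε : k) ^ N - 1)) :=
        le_mul_of_one_le_left hprodpos hq
      _ = _ := h1
      _ ≤ _ := h3
  have hY : (0 : ℝ) < H ^ N := by positivity
  have h7 := pow_le_pow_left₀ (by positivity) h6 (a + 1)
  have h8 : ((H ^ N) ^ θ) ^ (a + 1) = (H ^ N) ^ a := by
    rw [← Real.rpow_natCast, ← Real.rpow_mul hY.le, ← Real.rpow_natCast (H ^ N) a]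
    congr 1
    rw [hθ]; push_cast
    field_simp
  rw [mul_pow, mul_pow ((4 ^ a * C) ^ r), h8, pow_succ (H ^ N) a] at h7
  have h9 : 0 < (H ^ N) ^ a := by positivity
  have h10 : ((δ / 4) ^ r) ^ (a + 1) * H ^ N ≤ ((4 ^ a * C) ^ r) ^ (a + 1) := by
    have : (((δ / 4) ^ r) ^ (a + 1) * H ^ N) * (H ^ N) ^ a ≤
        ((4 ^ a * C) ^ r) ^ (a + 1) * (H ^ N) ^ a := by linarith
    exact le_of_mul_le_mul_right this h9
  linarith

/-- `(ε^(N a) - 1) / (ε^N - 1)` is integral. -/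
theorem geom {ε : kˣ} (hε : ε ∈ P.Γ) {N : ℕ} (hη : (ε : k) ^ N - 1 ≠ 0) (a : ℤ) :
    (((ε ^ ((N : ℤ) * a) : kˣ) : k) - 1) / ((ε : k) ^ N - 1) ∈ P.O := by
  have hnat : ∀ a : ℕ, (((ε ^ ((N : ℤ) * a) : kˣ) : k) - 1) / ((ε : k) ^ N - 1) ∈ P.O := by
    intro a
    have h1 : ((ε ^ ((N : ℤ) * a) : kˣ) : k) = ((ε : k) ^ N) ^ a := by
      rw [zpow_mul, zpow_natCast, zpow_natCast]; simp
    rw [h1, ← mul_geom_sum, mul_div_cancel_left₀ _ hη]
    exact sum_mem fun i _ => pow_mem (pow_mem ((P.mem_Γ).mp hε).1 _) _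
  rcases Int.eq_nat_or_neg a with ⟨n, rfl | rfl⟩
  · exact hnat n
  · have h2 : ((ε ^ ((N : ℤ) * (-(n : ℤ))) : kˣ) : k) ∈ P.O :=
      ((P.mem_Γ).mp (zpow_mem hε _)).1
    have h3 : (((ε ^ ((N : ℤ) * (-(n : ℤ))) : kˣ) : k) - 1) =
        -(((ε ^ ((N : ℤ) * (-(n : ℤ))) : kˣ) : k) * (((ε ^ ((N : ℤ) * n) : kˣ) : k) - 1)) := by
      have : ((ε ^ ((N : ℤ) * (-(n : ℤ))) : kˣ) : k) * ((ε ^ ((N : ℤ) * n) : kˣ) : k) = 1 := by
        rw [← Units.val_mul, ← zpow_add]; simp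
      rw [mul_sub, this]; ring
    rw [h3, neg_div, mul_div_assoc]
    exact neg_mem (mul_mem h2 (hnat n))

/-- In a vanishing sum two of the exponents are close. -/
theorem close_pair {ι : Type*} (A : Finset ι) (hA : A.Nonempty) {ε : kˣ} (w : W)
    (hw : 1 < P.nv w (ε : k)) (c : ι → k) (hc : ∀ α ∈ A, c α ≠ 0) :
    ∃ B : ℕ, ∀ ζ : ι → k, (∀ α ∈ A, P.nv w (ζ α) = 1) → ∀ m : ι → ℕ,
      ∑ α ∈ A, c α * ζ α * (ε : k) ^ m α = 0 →
      ∃ α ∈ A, ∃ α' ∈ A, α ≠ α' ∧ m α ≤ m α' + B ∧ m α' ≤ m α + B := by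
  classical
  obtain ⟨δ, hδ, hδ'⟩ := exists_pos_le (fun α : A => P.nv w (c α)) (fun α => P.pos w (hc α α.2))
  obtain ⟨C, hC0, hC⟩ : ∃ C : ℝ, 0 ≤ C ∧ ∀ α ∈ A, P.nv w (c α) ≤ C := by
    refine ⟨∑ α ∈ A, P.nv w (c α), Finset.sum_nonneg fun _ _ => P.nonneg _ _, fun α hα => ?_⟩
    exact Finset.single_le_sum (f := fun α => P.nv w (c α)) (fun _ _ => P.nonneg _ _) hα
  set ρ := P.nv w (ε : k) with hρ
  have hρ0 : 0 < ρ := by linarith
  obtain ⟨B, hB⟩ : ∃ B : ℕ, 4 ^ A.card * C < δ * ρ ^ B := by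
    have h1 := (tendsto_pow_atTop_atTop_of_one_lt hw).const_mul_atTop hδ
    exact (h1.eventually_gt_atTop _).exists
  refine ⟨B, fun ζ hζ m hsum => ?_⟩
  by_contra hcon
  push Not at hcon
  obtain ⟨α₀, hα₀, hmax⟩ := Finset.exists_max_image A m hA
  have hsmall : ∀ α ∈ A.erase α₀, m α + B < m α₀ := by
    intro α hα
    rw [Finset.mem_erase] at hα
    by_contra hnot
    push Not at hnot
    have h1 := hcon α₀ hα₀ α hα.2 hα.1.symm hnot
    have h2 := hmax α hα.2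
    omega
  rw [← Finset.add_sum_erase A _ hα₀] at hsum
  have h3 : c α₀ * ζ α₀ * (ε : k) ^ m α₀ = -∑ α ∈ A.erase α₀, c α * ζ α * (ε : k) ^ m α :=
    eq_neg_of_add_eq_zero_left hsum
  have h4 := congrArg (P.nv w) h3
  rw [P.nv_neg, map_mul, map_mul, hζ α₀ hα₀, mul_one, map_pow, ← hρ] at h4
  have h5 : P.nv w (∑ α ∈ A.erase α₀, c α * ζ α * (ε : k) ^ m α) ≤
      4 ^ (A.erase α₀).card * (C * (ρ ^ m α₀ / ρ ^ B)) := by
    refine P.sum_le w _ _ (by positivity) fun α hα => ?_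
    have hα' := Finset.mem_of_mem_erase hα
    rw [map_mul, map_mul, hζ α hα', mul_one, map_pow, ← hρ]
    refine mul_le_mul (hC α hα') ?_ (by positivity) hC0
    rw [le_div_iff₀ (by positivity), ← pow_add]
    exact pow_le_pow_right₀ hw.le (hsmall α hα).le
  have h6 : (4 : ℝ) ^ (A.erase α₀).card ≤ 4 ^ A.card :=
    pow_le_pow_right₀ (by norm_num) (Finset.card_le_card (Finset.erase_subset _ _))
  have h7 : δ * ρ ^ m α₀ ≤ 4 ^ A.card * (C * (ρ ^ m α₀ / ρ ^ B)) := by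
    calc δ * ρ ^ m α₀ ≤ P.nv w (c α₀) * ρ ^ m α₀ :=
          mul_le_mul_of_nonneg_right (hδ' ⟨α₀, hα₀⟩) (by positivity)
      _ ≤ _ := by rw [h4]; exact h5
      _ ≤ _ := mul_le_mul_of_nonneg_right h6 (by positivity)
  have h8 : 4 ^ A.card * (C * (ρ ^ m α₀ / ρ ^ B)) * ρ ^ B = 4 ^ A.card * C * ρ ^ m α₀ := by
    field_simp
  have h9 : 0 < ρ ^ B := by positivity
  have h10 : 0 < ρ ^ m α₀ := by positivity
  nlinarith

/-- Relations modulo `ε^N - 1` force two exponents to be close modulo `N`. -/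
theorem main_rel {ι : Type*} (A : Finset ι) (hA : A.Nonempty) {ε : kˣ} (hε : ε ∈ P.Γ) (c : ι → k)
    (hcO : ∀ α ∈ A, c α ∈ P.O) (hc0 : ∀ α ∈ A, c α ≠ 0) :
    ∃ B : ℕ, ∀ N₀ : ℕ, 0 < N₀ → ∃ N : ℕ, 0 < N ∧ N₀ ∣ N ∧ ∃ η : k, η ≠ 0 ∧
      ∀ ζ : ι → kˣ, (∀ α ∈ A, ζ α ∈ P.K0) → ∀ j : ι → ℤ,
        (∑ α ∈ A, c α * ζ α * ((ε ^ j α : kˣ) : k)) / η ∈ P.O →
        ∃ α ∈ A, ∃ α' ∈ A, α ≠ α' ∧ ∃ b : ℤ, |b| ≤ B ∧ ∃ q : ℤ,
          ε ^ j α = ε ^ j α' * ε ^ b * (ε ^ q) ^ N := by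
  classical
  -- a bound for the coefficients
  obtain ⟨C, hC1, hC⟩ : ∃ C : ℝ, 1 ≤ C ∧ ∀ α ∈ A, ∀ w, P.nv w (c α) ≤ C := by
    refine ⟨1 + ∑ α ∈ A, ∑ w, P.nv w (c α), ?_, fun α hα w => ?_⟩
    · have : 0 ≤ ∑ α ∈ A, ∑ w, P.nv w (c α) :=
        Finset.sum_nonneg fun _ _ => Finset.sum_nonneg fun _ _ => P.nonneg _ _
      linarith
    · have h1 : P.nv w (c α) ≤ ∑ w, P.nv w (c α) :=
        Finset.single_le_sum (f := fun w => P.nv w (c α)) (fun _ _ => P.nonneg _ _)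
          (Finset.mem_univ w)
      have h2 : ∑ w, P.nv w (c α) ≤ ∑ α ∈ A, ∑ w, P.nv w (c α) :=
        Finset.single_le_sum (f := fun α => ∑ w, P.nv w (c α))
          (fun _ _ => Finset.sum_nonneg fun _ _ => P.nonneg _ _) hα
      linarith
  have hint : ∀ x ∈ P.Γ, (x : k) ∈ P.O := fun x hx => ((P.mem_Γ).mp hx).1
  by_cases hfin : IsOfFinOrder ε
  · refine ⟨orderOf ε, fun N₀ hN₀ => ⟨N₀, hN₀, dvd_rfl, ?_⟩⟩
    obtain ⟨η, -, hη0, hη⟩ := P.big ((4 ^ A.card * C) ^ Fintype.card W)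
    refine ⟨η, hη0, fun ζ hζ j hdiv => ?_⟩
    have hε1 : ∀ w, ∀ j : ℤ, P.nv w ((ε ^ j : kˣ) : k) = 1 := by
      intro w j
      have h1 : P.nv w (ε : k) = 1 := by
        have h2 : P.nv w (ε : k) ^ orderOf ε = 1 := by
          rw [← map_pow, ← Units.val_pow_eq_pow_val, pow_orderOf_eq_one, Units.val_one, map_one]
        exact (pow_eq_one_iff_of_nonneg (P.nonneg _ _) hfin.orderOf_pos.ne').mp h2
      rw [Units.val_zpow_eq_zpow_val, map_zpow₀, h1, one_zpow]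
    have hz : ∑ α ∈ A, c α * ζ α * ((ε ^ j α : kˣ) : k) = 0 := by
      by_contra hz0
      have h1 := P.one_le _ hdiv (div_ne_zero hz0 hη0)
      have h2 : (∏ w, P.nv w ((∑ α ∈ A, c α * ζ α * ((ε ^ j α : kˣ) : k)) / η)) *
          (∏ w, P.nv w η) = ∏ w, P.nv w (∑ α ∈ A, c α * ζ α * ((ε ^ j α : kˣ) : k)) := by
        rw [← Finset.prod_mul_distrib]
        refine Finset.prod_congr rfl fun w _ => ?_
        rw [← map_mul, div_mul_cancel₀ _ hη0]
      have h3 : ∏ w, P.nv w (∑ α ∈ A, c α * ζ α * ((ε ^ j α : kˣ) : k)) ≤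
          (4 ^ A.card * C) ^ Fintype.card W := by
        have := Finset.prod_le_prod (s := Finset.univ)
          (f := fun w => P.nv w (∑ α ∈ A, c α * ζ α * ((ε ^ j α : kˣ) : k)))
          (g := fun _ => (4 ^ A.card * C : ℝ)) (fun w _ => P.nonneg w _) (fun w _ => by
            refine P.sum_le w A _ (by linarith) fun α hα => ?_
            rw [map_mul, map_mul, (hζ α hα).2 w, hε1 w, mul_one, mul_one]
            exact hC α hα w)
        simpa using this
      have h4 : (0 : ℝ) < (4 ^ A.card * C) ^ Fintype.card W := by positivity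
      nlinarith
    obtain ⟨α, hα⟩ := hA
    by_cases hsing : ∃ α' ∈ A, α' ≠ α
    · obtain ⟨α', hα', hne⟩ := hsing
      have ho : 0 < (orderOf ε : ℤ) := by exact_mod_cast hfin.orderOf_pos
      refine ⟨α', hα', α, hα, hne, (j α' - j α) % orderOf ε, ?_, 0, ?_⟩
      · rw [abs_of_nonneg (Int.emod_nonneg _ ho.ne')]
        exact (Int.emod_lt_of_pos _ ho).le
      · rw [zpow_mod_orderOf, zpow_zero, one_pow, mul_one, ← zpow_add]
        congr 1; ring
    · exfalso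
      push Not at hsing
      have hAs : A = {α} := by
        ext β; constructor
        · intro hβ; rw [Finset.mem_singleton]; exact hsing β hβ
        · intro hβ; rw [Finset.mem_singleton] at hβ; rw [hβ]; exact hα
      rw [hAs, Finset.sum_singleton] at hz
      exact mul_ne_zero (mul_ne_zero (hc0 α hα) (Units.ne_zero _)) (Units.ne_zero _) hz
  · -- infinite order
    obtain ⟨w₁, hw₁⟩ := P.exists_gt_one hε hfin
    obtain ⟨B, hB⟩ := P.close_pair A hA w₁ hw₁ c hc0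
    refine ⟨B, fun N₀ hN₀ => ?_⟩
    obtain ⟨N, hN0, hN₀N, hAN, hη, hvan⟩ := P.short_vanish A hε hfin hC1 hN₀
    refine ⟨N, hN0, hN₀N, (ε : k) ^ N - 1, hη, fun ζ hζ j hdiv => ?_⟩
    obtain ⟨s, m, a, hma⟩ := gap A N hAN j
    have hpow : ∀ α ∈ A, (ε : k) ^ m α = ((ε ^ s : kˣ) : k) * ((ε ^ j α : kˣ) : k) *
        ((ε ^ ((N : ℤ) * a α) : kˣ) : k) := by
      intro α hα
      rw [← Units.val_mul, ← Units.val_mul, ← zpow_add, ← zpow_add,
        ← Units.val_pow_eq_pow_val, ← zpow_natCast]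
      congr 2; rw [(hma α hα).1]; ring
    have hz : ∑ α ∈ A, (c α * ζ α) * (ε : k) ^ m α = 0 := by
      refine hvan (fun α => c α * ζ α) (fun α hα w => ?_) m (fun α hα => (hma α hα).2) ?_
      · rw [map_mul, (hζ α hα).2 w, mul_one]; exact hC α hα w
      · have e : ∑ α ∈ A, (c α * ζ α) * (ε : k) ^ m α = ((ε ^ s : kˣ) : k) *
            (∑ α ∈ A, c α * ζ α * ((ε ^ j α : kˣ) : k) +
              ∑ α ∈ A, c α * ζ α * ((ε ^ j α : kˣ) : k) * (((ε ^ ((N : ℤ) * a α) : kˣ) : k) - 1)) := by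
          rw [← Finset.sum_add_distrib, Finset.mul_sum]
          refine Finset.sum_congr rfl fun α hα => ?_
          rw [hpow α hα]; ring
        rw [e, mul_div_assoc, add_div]
        refine mul_mem (hint _ (zpow_mem hε _)) (add_mem hdiv ?_)
        rw [Finset.sum_div]
        refine sum_mem fun α hα => ?_
        rw [mul_div_assoc]
        exact mul_mem (mul_mem (mul_mem (hcO α hα) (hint _ (hζ α hα).1)) (hint _ (zpow_mem hε _)))
          (P.geom hε hη _)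
    obtain ⟨α, hα, α', hα', hne, h1, h2⟩ := hB (fun α => (ζ α : k)) (fun α hα => (hζ α hα).2 w₁) m hz
    refine ⟨α, hα, α', hα', hne, (m α : ℤ) - m α', ?_, a α' - a α, ?_⟩
    · rw [abs_le]; constructor <;> omega
    · rw [← zpow_natCast (ε ^ _) N, ← zpow_mul, ← zpow_add, ← zpow_add]
      congr 1
      rw [(hma α hα).1, (hma α' hα').1]; ring

end Places

end Pool.Agent.Lib.MP_2f3286_ag
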