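import Mathlib
import Pool.Agent.Lib.MP_2f3286_ag.Places

open IsDedekindDomain NumberField WithZero

namespace Pool.Agent.Lib.MP_2f3286_ag

variable {k : Type*} [Field k] [NumberField k]

open NumberField.HeightOneSpectrum

/-- `S`-integers -/
def SInt (S : Finset (HeightOneSpectrum (𝓞 k))) : Subring k where
  carrier := {x | ∀ v ∉ S, v.valuation k x ≤ 1}
  mul_mem' := by
    intro a b ha hb v hv
    rw [map_mul]; exact mul_le_one' (ha v hv) (hb v hv)
  one_mem' := by intro v _; simp
  add_mem' := by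
    intro a b ha hb v hv
    exact ((v.valuation k).map_add _ _).trans (max_le (ha v hv) (hb v hv))
  zero_mem' := by intro v _; simp
  neg_mem' := by
    intro a ha v hv
    rw [Valuation.map_neg]; exact ha v hv

theorem mem_SInt {S : Finset (HeightOneSpectrum (𝓞 k))} {x : k} :
    x ∈ SInt S ↔ ∀ v ∉ S, v.valuation k x ≤ 1 := Iff.rfl

theorem adicAbv_le_one_iff (v : HeightOneSpectrum (𝓞 k)) (x : k) :
    adicAbv k v x ≤ 1 ↔ v.valuation k x ≤ 1 := by
  rw [adicAbv_def]
  constructor
  · intro h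
    by_contra hcon
    push Not at hcon
    have := WithZeroMulInt.toNNReal_strictMono (one_lt_absNorm_nnreal v) hcon
    rw [map_one] at this
    have h2 : ((WithZeroMulInt.toNNReal (absNorm_ne_zero v) (v.valuation k x) : NNReal) : ℝ) ≤ 1 := h
    have h3 : (1 : NNReal) < WithZeroMulInt.toNNReal (absNorm_ne_zero v) (v.valuation k x) := this
    have h4 : (1 : ℝ) < ((WithZeroMulInt.toNNReal (absNorm_ne_zero v) (v.valuation k x) : NNReal) : ℝ) := by
      exact_mod_cast h3
    linarith
  · intro h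
    have := (WithZeroMulInt.toNNReal_strictMono (one_lt_absNorm_nnreal v)).monotone h
    rw [map_one] at this
    exact_mod_cast this

/-- the normalised absolute values -/
noncomputable def nvS (S : Finset (HeightOneSpectrum (𝓞 k))) : 
    InfinitePlace k ⊕ {v // v ∈ S} → k →*₀ ℝ
  | Sum.inl w => 
    { toFun := fun x => w x ^ w.mult
      map_zero' := by simp [InfinitePlace.mult_ne_zero]
      map_one' := by simp
      map_mul' := by intro x y; rw [map_mul, mul_pow] }
  | Sum.inr v => 
    { toFun := fun x => adicAbv k v.1 x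
      map_zero' := by simp
      map_one' := by simp
      map_mul' := by intro x y; rw [map_mul] }

@[simp] theorem nvS_inl (S : Finset (HeightOneSpectrum (𝓞 k))) (w : InfinitePlace k) (x : k) :
    nvS S (Sum.inl w) x = w x ^ w.mult := rfl

@[simp] theorem nvS_inr (S : Finset (HeightOneSpectrum (𝓞 k))) (v : {v // v ∈ S}) (x : k) :
    nvS S (Sum.inr v) x = adicAbv k v.1 x := rfl

theorem nvS_nonneg (S : Finset (HeightOneSpectrum (𝓞 k))) (w) (x : k) : 0 ≤ nvS S w x := by
  rcases w with w | v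
  · simp only [nvS_inl]; positivity
  · simp only [nvS_inr]; exact (adicAbv k v.1).nonneg _

theorem nvS_add_le (S : Finset (HeightOneSpectrum (𝓞 k))) (w) (x y : k) : 
    nvS S w (x + y) ≤ 4 * max (nvS S w x) (nvS S w y) := by
  rcases w with w | v
  · simp only [nvS_inl]
    have h1 : w (x + y) ≤ 2 * max (w x) (w y) := by
      have : w (x + y) ≤ w x + w y := w.1.add_le x y
      have h2 := le_max_left (w x) (w y)
      have h3 := le_max_right (w x) (w y)
      linarith
    have h0 : 0 ≤ w (x + y) := apply_nonneg w _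
    have hx : 0 ≤ w x := apply_nonneg w _
    have hy : 0 ≤ w y := apply_nonneg w _
    have hmax : (max (w x) (w y)) ^ w.mult = max (w x ^ w.mult) (w y ^ w.mult) := by
      rcases le_total (w x) (w y) with h | h
      · rw [max_eq_right h, max_eq_right (pow_le_pow_left₀ hx h _)]
      · rw [max_eq_left h, max_eq_left (pow_le_pow_left₀ hy h _)]
    have hm : (2 : ℝ) ^ w.mult ≤ 4 := by
      have : w.mult ≤ 2 := by
        unfold InfinitePlace.mult; split_ifs <;> norm_num
      calc (2 : ℝ) ^ w.mult ≤ 2 ^ 2 := pow_le_pow_right₀ (by norm_num) this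
        _ = 4 := by norm_num
    calc w (x + y) ^ w.mult ≤ (2 * max (w x) (w y)) ^ w.mult := pow_le_pow_left₀ h0 h1 _
      _ = 2 ^ w.mult * max (w x ^ w.mult) (w y ^ w.mult) := by rw [mul_pow, hmax]
      _ ≤ 4 * max (w x ^ w.mult) (w y ^ w.mult) := by
        refine mul_le_mul_of_nonneg_right hm ?_
        exact le_max_of_le_left (by positivity)
  · simp only [nvS_inr]
    have h1 := adicAbv_add_le_max k v.1 x y
    have h2 : 0 ≤ adicAbv k v.1 x := (adicAbv k v.1).nonneg _
    have h3 : 0 ≤ max (adicAbv k v.1 x) (adicAbv k v.1 y) := le_max_of_le_left h2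
    calc _ ≤ _ := h1
      _ ≤ _ := by linarith

theorem prod_nvS (S : Finset (HeightOneSpectrum (𝓞 k))) (x : k) :
    ∏ w, nvS S w x = (∏ w : InfinitePlace k, w x ^ w.mult) * ∏ v ∈ S, adicAbv k v x := by
  rw [Fintype.prod_sum_type]
  simp only [nvS_inl, nvS_inr]
  congr 1
  exact Finset.prod_coe_sort S (fun v => adicAbv k v x)

theorem nvS_one_le (S : Finset (HeightOneSpectrum (𝓞 k))) (x : k) (hx : x ∈ SInt S) (hx0 : x ≠ 0) :
    1 ≤ ∏ w, nvS S w x := by
  classical
  rw [prod_nvS]
  have h := prod_abs_eq_one hx0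
  have hfin : (fun w : FinitePlace k => w x).HasFiniteMulSupport := FinitePlace.hasFiniteMulSupport hx0
  have h2 : ∏ᶠ w : FinitePlace k, w x = ∏ᶠ v : HeightOneSpectrum (𝓞 k), adicAbv k v x := by
    rw [← finprod_comp_equiv FinitePlace.equivHeightOneSpectrum.symm]
    refine finprod_congr fun v => ?_
    rw [FinitePlace.equivHeightOneSpectrum_symm_apply, FinitePlace.norm_embedding]
  have hfin2 : (Function.mulSupport fun v : HeightOneSpectrum (𝓞 k) => adicAbv k v x).Finite := by
    have : (Function.mulSupport fun v : HeightOneSpectrum (𝓞 k) => adicAbv k v x) = 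
        (fun v => FinitePlace.equivHeightOneSpectrum.symm v) ⁻¹' 
          (Function.mulSupport fun w : FinitePlace k => w x) := by
      ext v
      simp only [Function.mem_mulSupport, Set.mem_preimage]
      rw [FinitePlace.equivHeightOneSpectrum_symm_apply, FinitePlace.norm_embedding]
    rw [this]
    exact Set.Finite.preimage (FinitePlace.equivHeightOneSpectrum.symm.injective.injOn) hfin
  rw [h2, finprod_eq_prod_of_mulSupport_subset (s := S ∪ hfin2.toFinset) _ (by
    intro v hv; simp only [Finset.coe_union, Set.Finite.coe_toFinset]; exact Or.inr hv)] at h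
  rw [← Finset.prod_sdiff (Finset.subset_union_left : S ⊆ S ∪ hfin2.toFinset)] at h
  have hle : ∏ v ∈ (S ∪ hfin2.toFinset) \ S, adicAbv k v x ≤ 1 := by
    refine Finset.prod_le_one (fun v _ => (adicAbv k v).nonneg _) fun v hv => ?_
    rw [Finset.mem_sdiff] at hv
    exact (adicAbv_le_one_iff v x).mpr (hx v hv.2)
  have hpos : 0 < (∏ w : InfinitePlace k, w x ^ w.mult) * ∏ v ∈ S, adicAbv k v x := by
    refine mul_pos (Finset.prod_pos fun w _ => ?_) (Finset.prod_pos fun v _ => ?_)
    · exact pow_pos ((InfinitePlace.pos_iff).mpr hx0) _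
    · exact (adicAbv k v).pos hx0
  have h3 : ((∏ w : InfinitePlace k, w x ^ w.mult) * ∏ v ∈ S, adicAbv k v x) * 
      ∏ v ∈ (S ∪ hfin2.toFinset) \ S, adicAbv k v x = 1 := by
    rw [← h]; ring
  nlinarith

/-- a positive integer contained in all primes of `S` -/
theorem exists_nat_mem (S : Finset (HeightOneSpectrum (𝓞 k))) :
    ∃ A : ℕ, 0 < A ∧ ∀ v ∈ S, (A : 𝓞 k) ∈ v.asIdeal := by
  classical
  refine ⟨∏ v ∈ S, Ideal.absNorm v.asIdeal, Finset.prod_pos fun v _ => ?_, fun v hv => ?_⟩
  · have := one_lt_absNorm v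
    omega
  · rw [← Finset.mul_prod_erase S _ hv, Nat.cast_mul]
    exact Ideal.mul_mem_right _ _ (Ideal.absNorm_mem _)

theorem adicAbv_lt_one_of_mem (v : HeightOneSpectrum (𝓞 k)) {a : 𝓞 k} (ha : a ∈ v.asIdeal) :
    adicAbv k v (a : k) < 1 := 
  (v.adicAbv_coe_lt_one_iff (one_lt_absNorm_nnreal v) a).mpr ha

theorem adicAbv_eq_one_of_notMem (v : HeightOneSpectrum (𝓞 k)) {a : 𝓞 k} (ha : a ∉ v.asIdeal) :
    adicAbv k v (a : k) = 1 := 
  (v.adicAbv_coe_eq_one_iff (one_lt_absNorm_nnreal v) a).mpr ha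

theorem nvS_finite (S : Finset (HeightOneSpectrum (𝓞 k))) (C : ℝ) :
    {x | x ∈ SInt S ∧ ∀ w, nvS S w x ≤ C}.Finite := by
  obtain ⟨A, hA, hAS⟩ := exists_nat_mem S
  -- a power of `A` kills the denominators
  obtain ⟨j, hj⟩ : ∃ j : ℕ, ∀ v ∈ S, adicAbv k v (A : k) ^ j * max C 1 ≤ 1 := by
    have h1 : ∀ v ∈ S, ∃ j : ℕ, adicAbv k v (A : k) ^ j ≤ (max C 1)⁻¹ := by
      intro v hv
      have hlt : adicAbv k v (A : k) < 1 := by
        have := adicAbv_lt_one_of_mem v (hAS v hv)
        simpa using this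
      obtain ⟨n, hn⟩ := exists_pow_lt_of_lt_one (inv_pos.mpr (lt_max_of_lt_right one_pos : 0 < max C 1)) hlt
      exact ⟨n, hn.le⟩
    choose! f hf using h1
    refine ⟨S.sup f, fun v hv => ?_⟩
    have hlt : adicAbv k v (A : k) ≤ 1 := adicAbv_natCast_le_one k v A
    have h2 : adicAbv k v (A : k) ^ (S.sup f) ≤ adicAbv k v (A : k) ^ (f v) :=
      pow_le_pow_of_le_one ((adicAbv k v).nonneg _) hlt (Finset.le_sup hv)
    have h3 := (h2.trans (hf v hv))
    have h4 : 0 < max C 1 := lt_max_of_lt_right one_pos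
    calc _ ≤ (max C 1)⁻¹ * max C 1 := mul_le_mul_of_nonneg_right h3 h4.le
      _ = 1 := inv_mul_cancel₀ h4.ne'
  have hA0 : (A : k) ≠ 0 := by exact_mod_cast hA.ne'
  have hD0 : (A : k) ^ j ≠ 0 := pow_ne_zero _ hA0
  have hfin := Embeddings.finite_of_norm_le k ℂ ((A : ℝ) ^ j * max C 1)
  refine (hfin.preimage (f := fun x => (A : k) ^ j * x) 
    (mul_right_injective₀ hD0).injOn).subset ?_
  rintro x ⟨hx, hxC⟩
  refine ⟨?_, fun φ => ?_⟩
  · -- integrality
    have : (A : k) ^ j * x ∈ (algebraMap (𝓞 k) k).range := by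
      refine HeightOneSpectrum.mem_integers_of_valuation_le_one k _ fun v => ?_
      by_cases hv : v ∈ S
      · rw [← adicAbv_le_one_iff, map_mul, map_pow]
        have h1 := hxC (Sum.inr ⟨v, hv⟩)
        simp only [nvS_inr] at h1
        refine (mul_le_mul_of_nonneg_left (h1.trans (le_max_left C 1)) ?_).trans (hj v hv)
        exact pow_nonneg ((adicAbv k v).nonneg _) _
      · rw [map_mul, map_pow]
        refine mul_le_one' (pow_le_one' ?_ _) (hx v hv)
        rw [← adicAbv_le_one_iff]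
        exact adicAbv_natCast_le_one k v A
    obtain ⟨y, hy⟩ := this
    change IsIntegral ℤ ((A : k) ^ j * x)
    rw [← hy]
    exact y.2
  · rw [map_mul, map_pow, map_natCast, norm_mul, norm_pow, Complex.norm_natCast]
    refine mul_le_mul_of_nonneg_left ?_ (by positivity)
    have h1 := hxC (Sum.inl (InfinitePlace.mk φ))
    simp only [nvS_inl] at h1
    rw [InfinitePlace.apply] at h1
    by_contra hcon
    push Not at hcon
    have h2 : 1 < ‖φ x‖ := (le_max_right C 1).trans_lt hcon
    have h3 : ‖φ x‖ ≤ ‖φ x‖ ^ (InfinitePlace.mk φ).mult := 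
      le_self_pow₀ h2.le InfinitePlace.mult_ne_zero
    have h4 := (le_max_left C 1).trans_lt hcon
    linarith

theorem nvS_big (S : Finset (HeightOneSpectrum (𝓞 k))) (C : ℝ) :
    ∃ x ∈ SInt S, x ≠ 0 ∧ C < ∏ w, nvS S w x := by
  classical
  obtain ⟨A, hA, hAS⟩ := exists_nat_mem S
  obtain ⟨n, hn⟩ := exists_nat_gt (max C 1)
  have hC : C < n := (le_max_left _ _).trans_lt hn
  have hn1 : (1 : ℝ) < n := (le_max_right _ _).trans_lt hn
  set x : ℕ := A * n + 1 with hx
  refine ⟨(x : k), ?_, ?_, ?_⟩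
  · intro v _
    rw [← adicAbv_le_one_iff]
    exact adicAbv_natCast_le_one k v x
  · rw [hx]; exact_mod_cast (Nat.succ_ne_zero (A * n))
  · rw [prod_nvS]
    have h1 : ∏ v ∈ S, adicAbv k v (x : k) = 1 := by
      refine Finset.prod_eq_one fun v hv => ?_
      have hmem : ((x : ℕ) : 𝓞 k) ∉ v.asIdeal := by
        intro h
        have h2 : ((A : 𝓞 k) * n) ∈ v.asIdeal := Ideal.mul_mem_right _ _ (hAS v hv)
        have h3 : (1 : 𝓞 k) ∈ v.asIdeal := by
          have : (1 : 𝓞 k) = ((x : ℕ) : 𝓞 k) - (A : 𝓞 k) * n := by rw [hx]; push_cast; ring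
          rw [this]; exact sub_mem h h2
        exact v.isPrime.ne_top ((Ideal.eq_top_iff_one _).mpr h3)
      have := adicAbv_eq_one_of_notMem v hmem
      simpa using this
    rw [h1, mul_one]
    have hx1 : (n : ℝ) ≤ x := by
      rw [hx]; push_cast
      have : (1 : ℝ) ≤ A := by exact_mod_cast hA
      nlinarith
    have hx2 : (1 : ℝ) ≤ x := by linarith
    obtain ⟨w₀⟩ : Nonempty (InfinitePlace k) := inferInstance
    have h5 : ∀ w : InfinitePlace k, (x : ℝ) ≤ w (x : k) ^ w.mult := by
      intro w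
      rw [InfinitePlace.map_natCast]
      exact le_self_pow₀ hx2 InfinitePlace.mult_ne_zero
    have h6 : (x : ℝ) ≤ ∏ w : InfinitePlace k, w (x : k) ^ w.mult := by
      rw [← Finset.mul_prod_erase Finset.univ _ (Finset.mem_univ w₀)]
      have h7 : 1 ≤ ∏ w ∈ Finset.univ.erase w₀, (w (x : k) ^ w.mult : ℝ) :=
        Finset.prod_induction _ (fun r : ℝ => 1 ≤ r) (fun a b ha hb => by nlinarith) le_rfl
          (fun w _ => hx2.trans (h5 w))
      have h8 := h5 w₀
      nlinarith
    linarith

/-- The places package of a number field. -/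
noncomputable def placesOf (S : Finset (HeightOneSpectrum (𝓞 k))) : 
    Places k (InfinitePlace k ⊕ {v // v ∈ S}) where
  O := SInt S
  nv := nvS S
  nonneg := nvS_nonneg S
  add_le := nvS_add_le S
  one_le := nvS_one_le S
  finite := nvS_finite S
  big := nvS_big S

end Pool.Agent.Lib.MP_2f3286_ag
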