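import Mathlib
import Pool.Agent.Lib.MP_2f3286_ag.SInt

open IsDedekindDomain NumberField WithZero

namespace Pool.Agent.Lib.MP_2f3286_ag

variable {k : Type*} [Field k] [NumberField k]

theorem exists_pi (v : HeightOneSpectrum (𝓞 k)) : ∃ π : k, 
    v.valuation k π = exp (-(classNumber k : ℤ)) ∧ 
    ∀ v' : HeightOneSpectrum (𝓞 k), v' ≠ v → v'.valuation k π = 1 := by
  classical
  set h := classNumber k with hh
  have hne : v.asIdeal ∈ nonZeroDivisors (Ideal (𝓞 k)) := mem_nonZeroDivisors_of_ne_zero v.ne_bot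
  have hpr : (v.asIdeal ^ h).IsPrincipal := by
    have h1 : (ClassGroup.mk0 ⟨v.asIdeal, hne⟩) ^ h = 1 := by
      rw [hh, classNumber]; exact pow_card_eq_one
    rw [← map_pow, ClassGroup.mk0_eq_one_iff] at h1
    simpa using h1
  obtain ⟨π, hπ⟩ := hpr
  rw [Ideal.submodule_span_eq] at hπ
  have hπ0 : π ≠ 0 := by
    rintro rfl
    rw [Ideal.span_singleton_zero] at hπ
    exact pow_ne_zero h v.ne_bot hπ
  refine ⟨(π : k), ?_, fun v' hv' => ?_⟩
  · change v.valuation k (algebraMap (𝓞 k) k π) = _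
    rw [HeightOneSpectrum.valuation_of_algebraMap]
    have h1 : v.intValuation π ≤ exp (-(h : ℤ)) := by
      rw [HeightOneSpectrum.intValuation_le_pow_iff_mem, hπ]
      exact Ideal.mem_span_singleton_self π
    have h2 : ¬ v.intValuation π ≤ exp (-((h + 1 : ℕ) : ℤ)) := by
      rw [HeightOneSpectrum.intValuation_le_pow_iff_mem]
      intro hmem
      have hle : v.asIdeal ^ h ≤ v.asIdeal ^ (h + 1) := by
        rw [hπ]; exact (Ideal.span_singleton_le_iff_mem _).mpr hmem
      have h3 : v.asIdeal ^ (h + 1) ∣ v.asIdeal ^ h := Ideal.dvd_iff_le.mpr hle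
      have h4 := (pow_dvd_pow_iff (a := v.asIdeal) v.ne_bot 
        (by rw [Ideal.isUnit_iff]; exact v.isPrime.ne_top)).mp h3
      omega
    have h0 : v.intValuation π ≠ 0 := HeightOneSpectrum.intValuation_ne_zero v π hπ0
    rw [← exp_log h0] at h1 h2 ⊢
    rw [exp_le_exp] at h1 h2
    congr 1
    push_cast at h2
    omega
  · change v'.valuation k (algebraMap (𝓞 k) k π) = _
    rw [HeightOneSpectrum.valuation_eq_one_iff_notMem]
    intro hmem
    have hle : v.asIdeal ^ h ≤ v'.asIdeal := by
      rw [hπ]; exact (Ideal.span_singleton_le_iff_mem _).mpr hmem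
    have h5 := v'.isPrime.le_of_pow_le hle
    have h6 := v.isMaximal.eq_of_le v'.isPrime.ne_top h5
    exact hv' (HeightOneSpectrum.ext h6.symm)

theorem val_eq_one_of_adicAbv (v : HeightOneSpectrum (𝓞 k)) {a : k} 
    (h : HeightOneSpectrum.adicAbv k v a = 1) : v.valuation k a = 1 := by
  have h1 := (adicAbv_le_one_iff v a).mp h.le
  have h2 := (adicAbv_le_one_iff v a⁻¹).mp (by rw [map_inv₀, h, inv_one])
  rw [map_inv₀] at h2
  have ha : v.valuation k a ≠ 0 := by
    intro h0
    rw [Valuation.zero_iff] at h0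
    rw [h0, map_zero] at h
    exact zero_ne_one h
  refine le_antisymm h1 ?_
  exact (inv_le_one₀ (zero_lt_iff.mpr ha)).mp h2

theorem finite_val_ne_one {a : k} (ha : a ≠ 0) : 
    {v : HeightOneSpectrum (𝓞 k) | v.valuation k a ≠ 1}.Finite := by
  have hfin : (fun w : FinitePlace k => w a).HasFiniteMulSupport := 
    FinitePlace.hasFiniteMulSupport ha
  have h2 : ((fun v => FinitePlace.equivHeightOneSpectrum.symm v) ⁻¹' 
          (Function.mulSupport fun w : FinitePlace k => w a)).Finite :=
    Set.Finite.preimage (FinitePlace.equivHeightOneSpectrum.symm.injective.injOn) hfin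
  refine h2.subset fun v hv => ?_
  simp only [Set.mem_preimage, Function.mem_mulSupport]
  rw [FinitePlace.equivHeightOneSpectrum_symm_apply, FinitePlace.norm_embedding]
  intro h
  exact hv (val_eq_one_of_adicAbv v h)

/-- Kill the class group: an element whose valuations outside `S` are divisible by `n * h` is an
`S`-unit times an `n`-th power. -/
theorem exists_sunit (S : Finset (HeightOneSpectrum (𝓞 k))) (n : ℕ) (hn : 0 < n) (a : kˣ)
    (ha : ∀ v ∉ S, ∃ g, g ^ (n * classNumber k) = v.valuation k (a : k)) :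
    ∃ e ∈ (placesOf S).Γ, ∃ α : kˣ, a = e * α ^ n := by
  classical
  have hh : 0 < classNumber k := classNumber_pos k
  choose π hπ hπ' using exists_pi (k := k)
  have hπ0 : ∀ v, π v ≠ 0 := by
    intro v h0
    have := hπ v
    rw [h0, map_zero] at this
    exact exp_ne_zero this.symm
  have hfin := finite_val_ne_one a.ne_zero
  set T := hfin.toFinset \ S with hT
  choose! g hg using ha
  have hg0 : ∀ v ∉ S, g v ≠ 0 := by
    intro v hv h0
    have := hg v hv
    rw [h0, zero_pow (by positivity)] at this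
    exact a.ne_zero ((Valuation.zero_iff _).mp this.symm)
  have hg1 : ∀ v ∉ S, v ∉ T → g v = 1 := by
    intro v hv hvT
    have h1 : v.valuation k (a : k) = 1 := by
      by_contra hne
      exact hvT (by rw [hT, Finset.mem_sdiff, Set.Finite.mem_toFinset]; exact ⟨hne, hv⟩)
    have h2 := hg v hv
    rw [h1] at h2
    exact (pow_eq_one_iff_of_nonneg zero_le (by positivity)).mp h2
  -- the exponent at `v`
  let α : kˣ := ∏ v ∈ T, (Units.mk0 (π v) (hπ0 v)) ^ (-(log (g v)))
  have hval : ∀ v ∉ S, v.valuation k ((a * (α ^ n)⁻¹ : kˣ) : k) = 1 := by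
    intro v hv
    have h1 : v.valuation k (α : k) = g v ^ (classNumber k) := by
      simp only [α, Units.coe_prod, Units.val_zpow_eq_zpow_val, Units.val_mk0, map_prod, map_zpow₀]
      by_cases hvT : v ∈ T
      · rw [Finset.prod_eq_single v]
        · rw [hπ, ← exp_zsmul]
          conv_rhs => rw [← exp_log (hg0 v hv), ← exp_nsmul]
          congr 1
          simp only [smul_eq_mul, nsmul_eq_mul]
          ring
        · intro b _ hb
          rw [hπ' b v hb.symm, one_zpow]
        · intro h; exact absurd hvT h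
      · rw [hg1 v hv hvT, one_pow]
        refine Finset.prod_eq_one fun b hb => ?_
        have : v ≠ b := by rintro rfl; exact hvT hb
        rw [hπ' b v this, one_zpow]
    rw [Units.val_mul, map_mul, Units.val_inv_eq_inv_val, map_inv₀, Units.val_pow_eq_pow_val,
      map_pow, h1, ← pow_mul, mul_comm (classNumber k) n, hg v hv]
    exact mul_inv_cancel₀ (by rw [Valuation.ne_zero_iff]; exact a.ne_zero)
  refine ⟨a * (α ^ n)⁻¹, ?_, α, by simp⟩
  rw [Places.mem_Γ]
  refine ⟨fun v hv => (hval v hv).le, fun v hv => ?_⟩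
  rw [Units.val_inv_eq_inv_val, map_inv₀, hval v hv, inv_one]

theorem val_of_mem_Γ {S : Finset (HeightOneSpectrum (𝓞 k))} {e : kˣ} (he : e ∈ (placesOf S).Γ) 
    {v : HeightOneSpectrum (𝓞 k)} (hv : v ∉ S) : v.valuation k (e : k) = 1 := by
  rw [Places.mem_Γ] at he
  have h1 := he.1 v hv
  have h2 := he.2 v hv
  rw [Units.val_inv_eq_inv_val, map_inv₀] at h2
  refine le_antisymm h1 ((inv_le_one₀ (zero_lt_iff.mpr ?_)).mp h2)
  rw [Valuation.ne_zero_iff]; exact e.ne_zero

theorem mem_Γ_of_val {S : Finset (HeightOneSpectrum (𝓞 k))} {e : kˣ} 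
    (h : ∀ v ∉ S, v.valuation k (e : k) = 1) : e ∈ (placesOf S).Γ := by
  rw [Places.mem_Γ]
  refine ⟨fun v hv => (h v hv).le, fun v hv => ?_⟩
  rw [Units.val_inv_eq_inv_val, map_inv₀, h v hv, inv_one]

end Pool.Agent.Lib.MP_2f3286_ag
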