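import Mathlib

open IsDedekindDomain NumberField WithZero

namespace Pool.Agent.Lib.MP_2f3286_ag

variable {k : Type*} [Field k] [NumberField k]

theorem val_alg (v : HeightOneSpectrum (𝓞 k)) (x : k) :
    Valued.v (algebraMap k (v.adicCompletion k) x) = v.valuation k x :=
  HeightOneSpectrum.valuedAdicCompletion_eq_valuation' v x

/-- density of `k` in the completion -/
theorem exists_approx (v : HeightOneSpectrum (𝓞 k)) (y : v.adicCompletion k) (m : ℕ) :
    ∃ x : k, Valued.v (y - algebraMap k (v.adicCompletion k) x) ≤ exp (-(m : ℤ)) := by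
  have hd := HeightOneSpectrum.denseRange_algebraMap (K := k) (R := 𝓞 k) (v := v)
  obtain ⟨γ, hγ⟩ := HeightOneSpectrum.valuedAdicCompletion_surjective k v (exp (-(m : ℤ)))
  have hγ0 : γ ≠ 0 := by
    intro h
    rw [h, map_zero] at hγ
    exact exp_ne_zero hγ.symm
  have h1 : IsOpen {z : v.adicCompletion k | Valued.v.restrict z ≤ Valued.v.restrict γ} := 
    Valued.isOpen_closedBall (R := v.adicCompletion k) (r := Valued.v.restrict γ) (by simpa using hγ0)
  have hopen : IsOpen {z : v.adicCompletion k | Valued.v.restrict (y - z) ≤ Valued.v.restrict γ} := by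
    exact h1.preimage (continuous_const.sub continuous_id)
  obtain ⟨z, hz, x, rfl⟩ := hd.inter_open_nonempty _ hopen ⟨y, by simp⟩
  refine ⟨x, ?_⟩
  rw [← hγ]
  exact (Valuation.restrict_le_iff _).mp hz

/-- `y ≡ z` of units implies `y^n ≡ z^n`. -/
theorem val_pow_sub_pow_le {R : Type*} [CommRing R] {Γ₀ : Type*} [LinearOrderedCommGroupWithZero Γ₀]
    (w : Valuation R Γ₀) {y z : R} (hy : w y ≤ 1) (hz : w z ≤ 1) (n : ℕ) :
    w (y ^ n - z ^ n) ≤ w (y - z) := by
  obtain ⟨c, hc⟩ : ∃ c, w c ≤ 1 ∧ y ^ n - z ^ n = (y - z) * c := by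
    induction n with
    | zero => exact ⟨0, by simp, by simp⟩
    | succ n ih =>
      obtain ⟨c, hc, h⟩ := ih
      refine ⟨y ^ n + z * c, ?_, ?_⟩
      · refine (w.map_add _ _).trans (max_le ?_ ?_)
        · rw [map_pow]; exact pow_le_one' hy n
        · rw [map_mul]; exact mul_le_one' hz hc
      · have : y ^ n = z ^ n + (y - z) * c := by rw [← h]; ring
        calc y ^ (n + 1) - z ^ (n + 1) = (y - z) * y ^ n + z * (y ^ n - z ^ n) := by ring
          _ = _ := by rw [h]; ring
  rw [hc.2, map_mul]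
  exact mul_le_of_le_one_right' hc.1

/-- The unit group of the completion has finite exponent modulo `𝔭^m`. -/
theorem exists_exponent (v : HeightOneSpectrum (𝓞 k)) (m : ℕ) :
    ∃ E : ℕ, 0 < E ∧ ∀ y : v.adicCompletion k, Valued.v y = 1 →
      Valued.v (y ^ E - 1) ≤ exp (-(m : ℤ)) := by
  by_cases hm : m = 0
  · subst hm
    refine ⟨1, one_pos, fun y hy => ?_⟩
    simp only [pow_one, Nat.cast_zero, neg_zero, exp_zero]
    exact (Valued.v.map_sub _ _).trans (by simp [hy])
  have hfin : Finite (𝓞 k ⧸ v.asIdeal ^ m) := 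
    Ideal.finiteQuotientOfFreeOfNeBot _ (pow_ne_zero _ v.ne_bot)
  have : Fintype (𝓞 k ⧸ v.asIdeal ^ m)ˣ := Fintype.ofFinite _
  refine ⟨Fintype.card (𝓞 k ⧸ v.asIdeal ^ m)ˣ, Fintype.card_pos, fun y hy => ?_⟩
  obtain ⟨x, hx⟩ := exists_approx v y m
  have hlt : exp (-(m : ℤ)) < (1 : WithZero (Multiplicative ℤ)) := by
    rw [← exp_zero]
    exact exp_lt_exp.mpr (by omega)
  have hx1 : v.valuation k x = 1 := by
    rw [← val_alg]
    have : algebraMap k (v.adicCompletion k) x = y - (y - algebraMap k (v.adicCompletion k) x) := by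
      simp 
    rw [this, Valuation.map_sub_eq_of_lt_left, hy]
    rw [hy]; exact lt_of_le_of_lt hx hlt
  obtain ⟨a, ha⟩ := HeightOneSpectrum.exists_valuation_sub_lt_of_integer v hx1.le 
    (Units.mk0 (exp (-(m : ℤ))) exp_ne_zero)
  simp only [Units.val_mk0] at ha
  have ha1 : v.valuation k (algebraMap (𝓞 k) k a) = 1 := by
    have : algebraMap (𝓞 k) k a = x + (algebraMap (𝓞 k) k a - x) := by ring
    rw [this, Valuation.map_add_eq_of_lt_left, hx1]
    rw [hx1]; exact ha.trans hlt
  have hya : Valued.v (y - algebraMap k (v.adicCompletion k) (algebraMap (𝓞 k) k a)) ≤ 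
      exp (-(m : ℤ)) := by
    have : y - algebraMap k (v.adicCompletion k) (algebraMap (𝓞 k) k a) = 
      (y - algebraMap k (v.adicCompletion k) x) - algebraMap k (v.adicCompletion k) 
        (algebraMap (𝓞 k) k a - x) := by rw [map_sub]; ring
    rw [this]
    refine (Valued.v.map_sub _ _).trans (max_le hx ?_)
    rw [val_alg]; exact ha.le
  -- a is a unit mod 𝔭^m
  have hau : IsUnit (Ideal.Quotient.mk (v.asIdeal ^ m) a) := by
    have hmem : a ∉ v.asIdeal := by
      rw [HeightOneSpectrum.valuation_of_algebraMap] at ha1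
      intro h
      have := (v.intValuation_lt_one_iff_mem a).mpr h
      exact absurd ha1 this.ne
    have hmax := v.isMaximal
    have hcop : IsCoprime (Ideal.span {a}) (v.asIdeal ^ m) := by
      apply IsCoprime.pow_right
      rw [Ideal.isCoprime_iff_sup_eq]
      rw [sup_comm]
      by_contra hne
      have hle : v.asIdeal ⊔ Ideal.span {a} = v.asIdeal := by
        exact (hmax.eq_of_le hne le_sup_left).symm
      apply hmem
      rw [← hle]
      exact Ideal.mem_sup_right (Ideal.mem_span_singleton_self a)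
    rw [Ideal.isCoprime_iff_exists] at hcop
    obtain ⟨i, hi, j, hj, hij⟩ := hcop
    obtain ⟨b, rfl⟩ := Ideal.mem_span_singleton'.mp hi
    refine IsUnit.of_mul_eq_one (Ideal.Quotient.mk _ b) ?_
    rw [← map_mul, mul_comm, ← sub_eq_zero, ← map_one (Ideal.Quotient.mk _), ← map_sub,
      Ideal.Quotient.eq_zero_iff_mem]
    have : b * a - 1 = - j := by rw [← hij]; ring
    rw [this]; exact neg_mem hj
  have hpow : a ^ Fintype.card (𝓞 k ⧸ v.asIdeal ^ m)ˣ - 1 ∈ v.asIdeal ^ m := by
    rw [← Ideal.Quotient.eq_zero_iff_mem, map_sub, map_pow, map_one, sub_eq_zero]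
    have := pow_card_eq_one (x := hau.unit)
    have h2 := congrArg (fun u : (𝓞 k ⧸ v.asIdeal ^ m)ˣ => (u : 𝓞 k ⧸ v.asIdeal ^ m)) this
    simp only [Units.val_pow_eq_pow_val, IsUnit.unit_spec, Units.val_one] at h2
    exact h2
  have hpow2 : v.valuation k ((algebraMap (𝓞 k) k a) ^ Fintype.card (𝓞 k ⧸ v.asIdeal ^ m)ˣ - 1) ≤ 
      exp (-(m : ℤ)) := by
    have := (v.intValuation_le_pow_iff_mem _ m).mpr hpow
    rw [← HeightOneSpectrum.valuation_of_algebraMap (K := k)] at this
    simpa using this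
  set E := Fintype.card (𝓞 k ⧸ v.asIdeal ^ m)ˣ with hE
  have : y ^ E - 1 = (y ^ E - (algebraMap k (v.adicCompletion k) (algebraMap (𝓞 k) k a)) ^ E) + 
      algebraMap k (v.adicCompletion k) ((algebraMap (𝓞 k) k a) ^ E - 1) := by
    rw [map_sub, map_pow, map_one]; ring
  rw [this]
  refine (Valued.v.map_add _ _).trans (max_le ?_ ?_)
  · refine (val_pow_sub_pow_le _ hy.le ?_ E).trans hya
    rw [val_alg]; exact ha1.le
  · rw [val_alg]; exact hpow2

/-- an element of `ℤᵐ⁰` which is nonzero and an `n`-th power for all `n ≥ 1` is `1`. -/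
theorem eq_one_of_pow {g : WithZero (Multiplicative ℤ)} (hg : g ≠ 0)
    (h : ∀ n : ℕ, 1 ≤ n → ∃ z, z ^ n = g) : g = 1 := by
  have hlog : log g = 0 := by
    by_contra hne
    obtain ⟨z, hz⟩ := h ((log g).natAbs + 1) (by omega)
    have hz0 : z ≠ 0 := by
      rintro rfl
      rw [zero_pow (by omega)] at hz
      exact hg hz.symm
    have h1 : ((log g).natAbs + 1 : ℕ) * log z = log g := by
      conv_rhs => rw [← hz, log_pow]
      simp
    have h2 : (((log g).natAbs + 1 : ℕ) : ℤ) ∣ log g := ⟨_, h1.symm⟩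
    have h3 := Int.natAbs_dvd_natAbs.mpr h2
    have h4 := Nat.le_of_dvd (by omega) h3
    rw [Int.natAbs_natCast] at h4
    omega
  have := exp_log hg
  rw [hlog, exp_zero] at this
  exact this.symm

theorem exists_exp_neg_lt {g : WithZero (Multiplicative ℤ)} (hg : g ≠ 0) :
    ∃ m : ℕ, exp (-(m : ℤ)) < g := by
  refine ⟨(log g).natAbs + 1, ?_⟩
  rw [← exp_log hg, exp_lt_exp]
  simp only [log_exp]
  omega

/-- The completion has no infinitely divisible units other than `1`. -/
theorem eq_one_of_divisible (v : HeightOneSpectrum (𝓞 k)) {y : v.adicCompletion k} (hy : y ≠ 0)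
    (h : ∀ n : ℕ, 1 ≤ n → ∃ z : v.adicCompletion k, z ^ n = y) : y = 1 := by
  have hv : Valued.v y = 1 := by
    refine eq_one_of_pow ((Valuation.ne_zero_iff _).mpr hy) fun n hn => ?_
    obtain ⟨z, hz⟩ := h n hn
    exact ⟨Valued.v z, by rw [← map_pow, hz]⟩
  by_contra hne
  have h0 : Valued.v (y - 1) ≠ 0 := (Valuation.ne_zero_iff _).mpr (sub_ne_zero.mpr hne)
  obtain ⟨m, hm⟩ := exists_exp_neg_lt h0
  obtain ⟨E, hE, hE'⟩ := exists_exponent v m
  obtain ⟨z, hz⟩ := h E hE
  have hz1 : Valued.v z = 1 := by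
    have : Valued.v z ^ E = 1 := by rw [← map_pow, hz, hv]
    exact (pow_eq_one_iff_of_nonneg (zero_le) (by omega)).mp this
  have := hE' z hz1
  rw [hz] at this
  exact absurd hm (not_lt.mpr this)

end Pool.Agent.Lib.MP_2f3286_ag
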