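import Mathlib
import Pool.Agent.Lib.MP_2f3286_ag.Cls
import Pool.Agent.Lib.MP_2f3286_ag.Local

open IsDedekindDomain NumberField WithZero

namespace Pool.Agent.Lib.MP_2f3286_ag

variable {k : Type*} [Field k] [NumberField k]

theorem exists_notMem (S : Finset (HeightOneSpectrum (𝓞 k))) : ∃ v, v ∉ S := by
  obtain ⟨A, hA, hAS⟩ := exists_nat_mem S
  have hnu : ¬ IsUnit ((A + 1 : ℕ) : 𝓞 k) := by
    intro h
    have h1 := h.map (Algebra.norm ℤ)
    have h2 : Algebra.norm ℤ ((A + 1 : ℕ) : 𝓞 k) = ((A + 1 : ℕ) : ℤ) ^ Module.finrank ℤ (𝓞 k) := by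
      have := Algebra.norm_algebraMap (R := ℤ) (S := 𝓞 k) ((A + 1 : ℕ) : ℤ)
      simpa using this
    rw [h2, RingOfIntegers.rank] at h1
    have h3 : IsUnit (((A + 1 : ℕ) : ℤ)) := isUnit_pow_iff (Module.finrank_pos (R := ℚ) (M := k)).ne' |>.mp h1
    rw [Int.isUnit_iff] at h3
    omega
  obtain ⟨M, hM, hle⟩ := Ideal.exists_le_maximal (Ideal.span {((A + 1 : ℕ) : 𝓞 k)})
    (by rwa [Ne, Ideal.span_singleton_eq_top])
  have hmem : ((A + 1 : ℕ) : 𝓞 k) ∈ M := hle (Ideal.mem_span_singleton_self _)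
  have hbot : M ≠ ⊥ := by
    rintro rfl
    rw [Ideal.mem_bot] at hmem
    exact (Nat.cast_ne_zero.mpr (Nat.succ_ne_zero A)) hmem
  refine ⟨⟨M, hM.isPrime, hbot⟩, fun hS => ?_⟩
  have h4 := hAS _ hS
  have h5 : (1 : 𝓞 k) ∈ M := by
    have : (1 : 𝓞 k) = ((A + 1 : ℕ) : 𝓞 k) - (A : 𝓞 k) := by push_cast; ring
    rw [this]; exact sub_mem hmem h4
  exact hM.ne_top ((Ideal.eq_top_iff_one _).mpr h5)

/-- a uniform exponent -/
theorem exists_uniform_exponent {η : k} (hη : η ≠ 0) :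
    ∃ E : ℕ, 0 < E ∧ ∀ v : HeightOneSpectrum (𝓞 k), ∀ y : v.adicCompletion k, Valued.v y = 1 →
      Valued.v (y ^ E - 1) ≤ v.valuation k η := by
  classical
  have hfin := finite_val_ne_one hη
  have h1 : ∀ v : HeightOneSpectrum (𝓞 k), ∃ E : ℕ, 0 < E ∧ ∀ y : v.adicCompletion k, 
      Valued.v y = 1 → Valued.v (y ^ E - 1) ≤ v.valuation k η := by
    intro v
    obtain ⟨m, hm⟩ := exists_exp_neg_lt (g := v.valuation k η) (by rwa [Valuation.ne_zero_iff])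
    obtain ⟨E, hE, hE'⟩ := exists_exponent v m
    exact ⟨E, hE, fun y hy => (hE' y hy).trans hm.le⟩
  choose F hF hF' using h1
  refine ⟨∏ v ∈ hfin.toFinset, F v, Finset.prod_pos fun v _ => hF v, fun v y hy => ?_⟩
  by_cases hv : v.valuation k η = 1
  · rw [hv]
    refine (Valued.v.map_sub _ _).trans (max_le ?_ ?_)
    · rw [map_pow, hy, one_pow]
    · rw [map_one]
  · have hmem : v ∈ hfin.toFinset := by rw [Set.Finite.mem_toFinset]; exact hv
    rw [← Finset.prod_erase_mul _ _ hmem, pow_mul]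
    exact hF' v _ (by rw [map_pow, hy, one_pow])

theorem val_of_finOrder {ζ : kˣ} (h : IsOfFinOrder ζ) (v : HeightOneSpectrum (𝓞 k)) :
    v.valuation k (ζ : k) = 1 := by
  have h1 : v.valuation k (ζ : k) ^ orderOf ζ = 1 := by
    rw [← map_pow, ← Units.val_pow_eq_pow_val, pow_orderOf_eq_one, Units.val_one, map_one]
  exact (pow_eq_one_iff_of_nonneg zero_le h.orderOf_pos.ne').mp h1

theorem mem_K0_of_finOrder (S : Finset (HeightOneSpectrum (𝓞 k))) {ζ : kˣ} (h : IsOfFinOrder ζ) :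
    ζ ∈ (placesOf S).K0 := by
  refine ⟨mem_Γ_of_val fun v _ => val_of_finOrder h v, fun w => ?_⟩
  have h1 : (placesOf S).nv w (ζ : k) ^ orderOf ζ = 1 := by
    rw [← map_pow, ← Units.val_pow_eq_pow_val, pow_orderOf_eq_one, Units.val_one, map_one]
  exact (pow_eq_one_iff_of_nonneg ((placesOf S).nonneg _ _) h.orderOf_pos.ne').mp h1

theorem K0_finite (S : Finset (HeightOneSpectrum (𝓞 k))) :
    {ζ : kˣ | ζ ∈ (placesOf S).K0}.Finite := by
  have h := (placesOf S).finite 1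
  refine (h.preimage (f := fun ζ : kˣ => (ζ : k)) (Units.val_injective.injOn)).subset ?_
  intro ζ hζ
  exact ⟨(((placesOf S).mem_Γ).mp hζ.1).1, fun w => (hζ.2 w).le⟩

omit [NumberField k] in
theorem compat_dvd {E : ℕ → kˣ} (h : ∀ n m, 1 ≤ n → 1 ≤ m → ∃ y : kˣ, E (n * m) = E n * y ^ n)
    {n N : ℕ} (hN : 1 ≤ N) (hd : n ∣ N) : ∃ y : kˣ, E N = E n * y ^ n := by
  obtain ⟨m, rfl⟩ := hd
  exact h n m (Nat.pos_of_mul_pos_right hN) (Nat.pos_of_mul_pos_left hN)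

/-- **Key lemma.** In a linear relation between profinite units whose Kummer classes lie in the
closure of a rank one group, two of the terms have a rational ratio. -/
theorem key_lemma {ι : Type*} (A : Finset ι) (hA : A.Nonempty) (c : ι → kˣ) (ε : kˣ)
    (E : ι → ℕ → kˣ)
    (hcompat : ∀ α ∈ A, ∀ n m, 1 ≤ n → 1 ≤ m → ∃ y : kˣ, E α (n * m) = E α n * y ^ n)
    (hR : ∀ α ∈ A, ∀ n, 1 ≤ n → ∃ ζ : kˣ, IsOfFinOrder ζ ∧ ∃ j : ℤ, ∃ y : kˣ,
      E α n = ζ * ε ^ j * y ^ n)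
    (T : Finset (HeightOneSpectrum (𝓞 k)))
    (y : ∀ v : HeightOneSpectrum (𝓞 k), ι → v.adicCompletion k)
    (hy : ∀ v ∉ T, ∀ α ∈ A, Valued.v (y v α) = 1)
    (hloc : ∀ v ∉ T, ∀ α ∈ A, ∀ n, 1 ≤ n → ∃ z : v.adicCompletion k,
      algebraMap k (v.adicCompletion k) (E α n) * z ^ n = y v α)
    (hsum : ∀ v ∉ T, ∑ α ∈ A, algebraMap k (v.adicCompletion k) (c α) * y v α = 0) :
    ∃ α ∈ A, ∃ α' ∈ A, α ≠ α' ∧ ∃ γ : kˣ, ∀ n, 1 ≤ n → ∃ z : kˣ, E α n = γ * E α' n * z ^ n := by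
  classical
  set T' : Finset (HeightOneSpectrum (𝓞 k)) := T ∪ (finite_val_ne_one ε.ne_zero).toFinset ∪
    A.biUnion (fun α => (finite_val_ne_one (c α).ne_zero).toFinset) with hT'
  have hvT : ∀ v ∉ T', v ∉ T ∧ v.valuation k (ε : k) = 1 ∧
      ∀ α ∈ A, v.valuation k (c α : k) = 1 := by
    intro v hv
    simp only [hT', Finset.mem_union, Finset.mem_biUnion, Set.Finite.mem_toFinset,
      Set.mem_ofPred_eq, not_or, not_exists, not_and, not_not] at hv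
    exact ⟨hv.1.1, hv.1.2, hv.2⟩
  set P := placesOf T' with hP
  have hεΓ : ε ∈ P.Γ := mem_Γ_of_val fun v hv => (hvT v hv).2.1
  obtain ⟨B, hB⟩ := P.main_rel A hA hεΓ (fun α => (c α : k))
    (fun α hα v hv => ((hvT v hv).2.2 α hα).le) (fun α _ => (c α).ne_zero)
  -- the finite set of possible ratios
  let G : Set kˣ := (fun p : kˣ × ℤ => p.1 * ε ^ p.2) ''
    ({ζ : kˣ | ζ ∈ P.K0} ×ˢ (Set.Icc (-(B : ℤ)) B))
  have hG : G.Finite := ((K0_finite T').prod (Set.finite_Icc _ _)).image _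
  have key : ∀ N₀ : ℕ, 0 < N₀ → ∃ α ∈ A, ∃ α' ∈ A, α ≠ α' ∧ ∃ γ ∈ G, ∃ z : kˣ,
      E α N₀ = γ * E α' N₀ * z ^ N₀ := by
    intro N₀ hN₀
    obtain ⟨N, hN, hNN₀, η, hη, hrel⟩ := hB N₀ hN₀
    obtain ⟨e, he, he'⟩ := exists_uniform_exponent hη
    have hNe : 1 ≤ N * e := Nat.mul_pos hN he
    have hR' := fun α (hα : α ∈ A) => hR α hα (N * e) hNe
    choose! ζ hζ j u hu using hR'
    obtain ⟨α, hα, α', hα', hne, b, hb, q, hq⟩ := hrel ζ
      (fun α hα => mem_K0_of_finOrder _ (hζ α hα)) j (by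
        intro v hv
        obtain ⟨hvT1, hvε, hvc⟩ := hvT v hv
        rw [map_div₀]
        have hη' : 0 < v.valuation k η := zero_lt_iff.mpr (by rwa [Valuation.ne_zero_iff])
        rw [div_le_one₀ hη', ← val_alg]
        have e1 : algebraMap k (v.adicCompletion k)
            (∑ α ∈ A, (c α : k) * ζ α * ((ε ^ j α : kˣ) : k)) =
            ∑ α ∈ A, algebraMap k (v.adicCompletion k) (c α) *
              (algebraMap k (v.adicCompletion k) ((ζ α * ε ^ j α : kˣ) : k) - y v α) := by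
          have : ∑ α ∈ A, algebraMap k (v.adicCompletion k) (c α) *
              (algebraMap k (v.adicCompletion k) ((ζ α * ε ^ j α : kˣ) : k) - y v α) =
              ∑ α ∈ A, algebraMap k (v.adicCompletion k) (c α) *
                algebraMap k (v.adicCompletion k) ((ζ α * ε ^ j α : kˣ) : k) -
              ∑ α ∈ A, algebraMap k (v.adicCompletion k) (c α) * y v α := by
            rw [← Finset.sum_sub_distrib]
            refine Finset.sum_congr rfl fun α _ => ?_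
            ring
          rw [this, hsum v hvT1, sub_zero, map_sum]
          refine Finset.sum_congr rfl fun α _ => ?_
          rw [← map_mul, Units.val_mul, mul_assoc]
        rw [e1]
        refine Valuation.map_sum_le _ fun α hα => ?_
        rw [map_mul, val_alg, hvc α hα, one_mul]
        -- closeness
        obtain ⟨z, hz⟩ := hloc v hvT1 α hα (N * e) hNe
        set a := algebraMap k (v.adicCompletion k) ((ζ α * ε ^ j α : kˣ) : k) with ha
        set w := algebraMap k (v.adicCompletion k) (u α : k) * z with hw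
        have hyw : y v α = a * w ^ (N * e) := by
          rw [← hz, hu α hα, ha, hw, Units.val_mul, map_mul, Units.val_pow_eq_pow_val, map_pow,
            mul_pow]
          ring
        have ha1 : Valued.v a = 1 := by
          rw [ha, val_alg, Units.val_mul, map_mul, val_of_finOrder (hζ α hα),
            Units.val_zpow_eq_zpow_val, map_zpow₀, hvε, one_zpow, one_mul]
        have hw1 : Valued.v (w ^ N) = 1 := by
          have h1 := hy v hvT1 α hα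
          rw [hyw, map_mul, ha1, one_mul, pow_mul, map_pow] at h1
          exact (pow_eq_one_iff_of_nonneg zero_le he.ne').mp h1
        have h2 : a - y v α = -(a * ((w ^ N) ^ e - 1)) := by
          rw [hyw, pow_mul]; ring
        rw [h2, Valuation.map_neg, map_mul, ha1, one_mul]
        exact he' v _ hw1)
    refine ⟨α, hα, α', hα', hne, ζ α * (ζ α')⁻¹ * ε ^ b, ?_, ?_⟩
    · refine ⟨(ζ α * (ζ α')⁻¹, b), ⟨?_, ?_⟩, rfl⟩
      · exact mul_mem (mem_K0_of_finOrder _ (hζ α hα)) (inv_mem (mem_K0_of_finOrder _ (hζ α' hα')))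
      · rw [Set.mem_Icc, ← abs_le]; exact hb
    · -- combine
      obtain ⟨r, hr⟩ := hNN₀
      have hd : N₀ ∣ N * e := Dvd.dvd.mul_right ⟨r, hr⟩ e
      obtain ⟨x₁, hx₁⟩ := compat_dvd (hcompat α hα) hNe hd
      obtain ⟨x₂, hx₂⟩ := compat_dvd (hcompat α' hα') hNe hd
      have h3 : E α (N * e) = (ζ α * (ζ α')⁻¹ * ε ^ b) * E α' (N * e) *
          ((ε ^ q) ^ r * (u α * (u α')⁻¹) ^ (r * e)) ^ N₀ := by
        rw [hu α hα, hu α' hα', hq]
        have h4 : ((ε ^ q) ^ r * (u α * (u α')⁻¹) ^ (r * e)) ^ N₀ =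
            (ε ^ q) ^ N * (u α) ^ (N * e) * ((u α') ^ (N * e))⁻¹ := by
          rw [mul_pow, ← pow_mul, ← pow_mul, mul_comm r N₀, ← hr,
            show r * e * N₀ = N * e by rw [hr]; ring, mul_pow, inv_pow, mul_assoc]
        rw [h4]
        have h5 : ζ α * (ζ α')⁻¹ * ε ^ b * (ζ α' * ε ^ j α' * u α' ^ (N * e)) *
            ((ε ^ q) ^ N * u α ^ (N * e) * (u α' ^ (N * e))⁻¹) =
            ζ α * (ε ^ j α' * ε ^ b * (ε ^ q) ^ N) * u α ^ (N * e) *
            ((ζ α')⁻¹ * ζ α') * (u α' ^ (N * e) * (u α' ^ (N * e))⁻¹) := by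
          simp only [mul_comm, mul_left_comm, mul_assoc]
        rw [h5]
        simp
      rw [hx₁, hx₂] at h3
      refine ⟨x₂ * ((ε ^ q) ^ r * (u α * (u α')⁻¹) ^ (r * e)) * x₁⁻¹, ?_⟩
      obtain ⟨w, hw⟩ : ∃ w, w = ((ε ^ q) ^ r * (u α * (u α')⁻¹) ^ (r * e)) := ⟨_, rfl⟩
      rw [← hw] at h3 ⊢
      have h6 : E α N₀ = (ζ α * (ζ α')⁻¹ * ε ^ b * (E α' N₀ * x₂ ^ N₀) * w ^ N₀) *
          (x₁ ^ N₀)⁻¹ := by
        rw [← h3]; simp
      rw [h6, mul_pow, mul_pow, inv_pow]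
      simp only [mul_assoc]
  -- pigeonhole
  have hch : ∀ M : ℕ, ∃ t : {p : ι × ι × kˣ // p.1 ∈ A ∧ p.2.1 ∈ A ∧ p.2.2 ∈ G}, t.1.1 ≠ t.1.2.1 ∧
      ∃ z : kˣ, E t.1.1 M.factorial = t.1.2.2 * E t.1.2.1 M.factorial * z ^ M.factorial := by
    intro M
    obtain ⟨α, hα, α', hα', hne, γ, hγ, z, hz⟩ := key M.factorial (Nat.factorial_pos M)
    exact ⟨⟨(α, α', γ), hα, hα', hγ⟩, hne, z, hz⟩
  choose f hf hf' using hch
  have hfinite : Finite {p : ι × ι × kˣ // p.1 ∈ A ∧ p.2.1 ∈ A ∧ p.2.2 ∈ G} := by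
    have h1 : ({p : ι × ι × kˣ | p.1 ∈ A ∧ p.2.1 ∈ A ∧ p.2.2 ∈ G}) =
        ((A : Set ι) ×ˢ ((A : Set ι) ×ˢ G)) := by
      ext ⟨a, b, c⟩; simp [Set.mem_prod]
    have h2 : ({p : ι × ι × kˣ | p.1 ∈ A ∧ p.2.1 ∈ A ∧ p.2.2 ∈ G}).Finite := by
      rw [h1]; exact (A.finite_toSet).prod ((A.finite_toSet).prod hG)
    exact h2
  obtain ⟨⟨⟨α, α', γ⟩, hα, hα', hγ⟩, hinf⟩ := Finite.exists_infinite_fiber f
  have hinf' := Set.infinite_coe_iff.mp hinf
  have hmem : ∀ M, M ∈ f ⁻¹' {⟨(α, α', γ), hα, hα', hγ⟩} → α ≠ α' ∧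
      ∃ z : kˣ, E α M.factorial = γ * E α' M.factorial * z ^ M.factorial := by
    intro M hM
    have h1 := hf M
    have h2 := hf' M
    rw [Set.mem_preimage, Set.mem_singleton_iff] at hM
    rw [hM] at h1 h2
    exact ⟨h1, h2⟩
  obtain ⟨M₀, hM₀⟩ := hinf'.nonempty
  refine ⟨α, hα, α', hα', (hmem M₀ hM₀).1, γ, fun n hn => ?_⟩
  obtain ⟨M, hM, hlt⟩ := hinf'.exists_gt n
  obtain ⟨z, hz⟩ := (hmem M hM).2
  have hd : n ∣ M.factorial := Nat.dvd_factorial hn hlt.le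
  obtain ⟨x₁, hx₁⟩ := compat_dvd (hcompat α hα) (Nat.factorial_pos M) hd
  obtain ⟨x₂, hx₂⟩ := compat_dvd (hcompat α' hα') (Nat.factorial_pos M) hd
  obtain ⟨r, hr⟩ := hd
  refine ⟨x₂ * z ^ r * x₁⁻¹, ?_⟩
  have h6 : E α n = (γ * (E α' n * x₂ ^ n) * z ^ M.factorial) * (x₁ ^ n)⁻¹ := by
    rw [← hx₂, ← hz, hx₁]; simp
  rw [h6, mul_pow, mul_pow, inv_pow, ← pow_mul, mul_comm r n, ← hr]
  simp only [mul_assoc]

end Pool.Agent.Lib.MP_2f3286_ag
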