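import Mathlib
import Pool.Agent.Lib.MP_2f3286_ag.Key
import Pool.Agent.Lib.MP_2f3286_ag.Alg

open IsDedekindDomain NumberField WithZero

namespace Pool.Agent.Lib.MP_2f3286_ag

/-- the class of `x` modulo `n`-th powers is that of a root of unity times a power of `ε` -/
def InCl {k : Type*} [Field k] (ε : kˣ) (n : ℕ) (x : kˣ) : Prop :=
  ∃ ζ : kˣ, IsOfFinOrder ζ ∧ ∃ j : ℤ, ∃ y : kˣ, x = ζ * ε ^ j * y ^ n

theorem InCl.mul {k : Type*} [Field k] {ε : kˣ} {n : ℕ} {x x' : kˣ} (h : InCl ε n x)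
    (h' : InCl ε n x') : InCl ε n (x * x') := by
  obtain ⟨ζ, hζ, j, y, rfl⟩ := h
  obtain ⟨ζ', hζ', j', y', rfl⟩ := h'
  refine ⟨ζ * ζ', hζ.mul hζ', j + j', y * y', ?_⟩
  rw [zpow_add, mul_pow]
  simp only [mul_left_comm, mul_assoc]

theorem InCl.pow {k : Type*} [Field k] {ε : kˣ} {n : ℕ} {x : kˣ} (h : InCl ε n x) (a : ℕ) :
    InCl ε n (x ^ a) := by
  obtain ⟨ζ, hζ, j, y, rfl⟩ := h
  refine ⟨ζ ^ a, hζ.pow, j * a, y ^ a, ?_⟩
  rw [mul_pow, mul_pow, zpow_mul, zpow_natCast, ← pow_mul, ← pow_mul, mul_comm n a]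

variable {k : Type*} [Field k] [NumberField k]

/-- equality in a completion from equality of Kummer classes -/
theorem eq_of_classes (v : HeightOneSpectrum (𝓞 k)) {E E' : ℕ → kˣ} {γ : kˣ}
    {y y' : v.adicCompletion k} (hy : y ≠ 0) (hy' : y' ≠ 0)
    (h : ∀ n, 1 ≤ n → ∃ z : v.adicCompletion k, algebraMap k (v.adicCompletion k) (E n) * z ^ n = y)
    (h' : ∀ n, 1 ≤ n → ∃ z : v.adicCompletion k,
      algebraMap k (v.adicCompletion k) (E' n) * z ^ n = y')
    (hE : ∀ n, 1 ≤ n → ∃ z : kˣ, E n = γ * E' n * z ^ n) :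
    y = algebraMap k (v.adicCompletion k) γ * y' := by
  set A := algebraMap k (v.adicCompletion k) with hA
  have hA0 : ∀ x : kˣ, A (x : k) ≠ 0 := fun x => by rw [map_ne_zero]; exact x.ne_zero
  have h1 := eq_one_of_divisible v (y := y / (A γ * y')) (div_ne_zero hy (mul_ne_zero (hA0 _) hy'))
    (fun n hn => by
      obtain ⟨z, hz⟩ := h n hn
      obtain ⟨z', hz'⟩ := h' n hn
      obtain ⟨u, hu⟩ := hE n hn
      refine ⟨A u * z / z', ?_⟩
      have hz'0 : z' ≠ 0 := by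
        rintro rfl
        rw [zero_pow (by omega), mul_zero] at hz'
        exact hy' hz'.symm
      rw [← hz, ← hz', hu, Units.val_mul, Units.val_mul, Units.val_pow_eq_pow_val, map_mul,
        map_mul, map_pow, div_pow, mul_pow]
      have h2 := hA0 γ
      have h3 := hA0 (E' n)
      field_simp)
  rwa [div_eq_one_iff_eq (mul_ne_zero (hA0 _) hy')] at h1

theorem units_core {K : Type*} [Field K] [Algebra k K] (htr : Algebra.trdeg k K = 1)
    (R : Subalgebra k K) {I : Type*} (f : I → Rˣ) (i₀ i₁ : I)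
    (hind : ∀ p q : ℤ, (∃ c : k, ((f i₀ ^ p * f i₁ ^ q : Rˣ) : R) = algebraMap k R c) →
      p = 0 ∧ q = 0)
    (e : I → ℕ → kˣ)
    (hcompat : ∀ i, ∀ n m, 1 ≤ n → 1 ≤ m → ∃ y : kˣ, e i (n * m) = e i n * y ^ n)
    (ε : kˣ) (hR : ∀ i n, 1 ≤ n → InCl ε n (e i n))
    (S : Finset (HeightOneSpectrum (𝓞 k)))
    (y : ∀ v : HeightOneSpectrum (𝓞 k), I → v.adicCompletion k)
    (hy : ∀ v ∉ S, ∀ i, Valued.v (y v i) = 1)
    (hloc : ∀ v ∉ S, ∀ i n, 1 ≤ n → ∃ z : v.adicCompletion k,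
      algebraMap k (v.adicCompletion k) (e i n) * z ^ n = y v i)
    (S' : Finset (HeightOneSpectrum (𝓞 k)))
    (hpt : ∀ v ∉ S', ∃ x : R →ₐ[k] v.adicCompletion k, ∀ i, x (f i) = y v i) :
    ∃ a : I → kˣ, (∀ v ∉ S, ∀ i, y v i = algebraMap k (v.adicCompletion k) (a i)) ∧
      (∀ i n, 1 ≤ n → ∃ z : kˣ, e i n = a i * z ^ n) ∧
      ∀ F : MvPolynomial I k, MvPolynomial.aeval (fun i => ((f i : Rˣ) : R)) F = 0 →
        MvPolynomial.aeval (fun i => ((a i : kˣ) : k)) F = 0 := by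
  classical
  have hy0 : ∀ v ∉ S, ∀ i, y v i ≠ 0 := by
    intro v hv i h
    have := hy v hv i
    rw [h, map_zero] at this
    exact zero_ne_one this
  set S'' := S ∪ S' with hS''
  have hS1 : ∀ v ∉ S'', v ∉ S := fun v hv h => hv (Finset.mem_union_left _ h)
  have hS2 : ∀ v ∉ S'', v ∉ S' := fun v hv h => hv (Finset.mem_union_right _ h)
  -- Step A : the relation between the two independent units
  obtain ⟨F, hF0, hF⟩ := exists_relation htr ((f i₀ : Rˣ) : R) ((f i₁ : Rˣ) : R)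
  have hFR : MvPolynomial.aeval ![((f i₀ : Rˣ) : R), ((f i₁ : Rˣ) : R)] F = 0 := by
    apply Subtype.ext
    have h1 := MvPolynomial.comp_aeval_apply ![((f i₀ : Rˣ) : R), ((f i₁ : Rˣ) : R)] R.val F
    have h2 : (fun i => R.val (![((f i₀ : Rˣ) : R), ((f i₁ : Rˣ) : R)] i)) =
        ![(((f i₀ : Rˣ) : R) : K), (((f i₁ : Rˣ) : R) : K)] := by
      ext i; fin_cases i <;> rfl
    rw [h2] at h1
    exact h1.trans hF
  have hind' : ∀ α α' : Fin 2 →₀ ℕ, ∀ γ : kˣ,
      ((f i₀ : Rˣ) : R) ^ α 0 * ((f i₁ : Rˣ) : R) ^ α 1 =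
        algebraMap k R γ * (((f i₀ : Rˣ) : R) ^ α' 0 * ((f i₁ : Rˣ) : R) ^ α' 1) → α = α' := by
    intro α α' γ h
    have h1 : ((f i₀ ^ ((α 0 : ℤ) - α' 0) * f i₁ ^ ((α 1 : ℤ) - α' 1) : Rˣ) : R) =
        algebraMap k R γ := by
      have h2 : f i₀ ^ ((α 0 : ℤ) - α' 0) * f i₁ ^ ((α 1 : ℤ) - α' 1) =
          (f i₀ ^ α 0 * f i₁ ^ α 1) * (f i₀ ^ α' 0 * f i₁ ^ α' 1)⁻¹ := by
        rw [zpow_sub, zpow_sub, zpow_natCast, zpow_natCast, zpow_natCast, zpow_natCast, mul_inv]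
        simp only [mul_left_comm, mul_assoc]
      rw [h2, Units.val_mul, Units.mul_inv_eq_iff_eq_mul]
      simpa using h
    obtain ⟨hp, hq⟩ := hind _ _ ⟨_, h1⟩
    ext i
    fin_cases i
    · simp only [Fin.zero_eta]; omega
    · simp only [Fin.mk_one]; omega
  have hAne : F.support.Nonempty := by rwa [MvPolynomial.support_nonempty]
  let c : (Fin 2 →₀ ℕ) → kˣ := fun α => if h : F.coeff α = 0 then 1 else Units.mk0 _ h
  have hc : ∀ α ∈ F.support, (c α : k) = F.coeff α := by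
    intro α hα
    rw [MvPolynomial.mem_support_iff] at hα
    simp only [c, dif_neg hα, Units.val_mk0]
  obtain ⟨α, hα, α', hα', hne, γ, hγ⟩ := key_lemma F.support hAne c ε
    (fun α n => e i₀ n ^ α 0 * e i₁ n ^ α 1)
    (fun α _ n m hn hm => by
      obtain ⟨u, hu⟩ := hcompat i₀ n m hn hm
      obtain ⟨u', hu'⟩ := hcompat i₁ n m hn hm
      refine ⟨u ^ α 0 * u' ^ α 1, ?_⟩
      change e i₀ (n * m) ^ α 0 * e i₁ (n * m) ^ α 1 = _
      rw [hu, hu', mul_pow, mul_pow, mul_pow, ← pow_mul, ← pow_mul, ← pow_mul, ← pow_mul,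
        mul_comm n (α 0), mul_comm n (α 1)]
      simp only [mul_left_comm, mul_assoc])
    (fun α _ n hn => ((hR i₀ n hn).pow _).mul ((hR i₁ n hn).pow _)) S''
    (fun v α => y v i₀ ^ α 0 * y v i₁ ^ α 1)
    (fun v hv α _ => by
      rw [map_mul, map_pow, map_pow, hy v (hS1 v hv), hy v (hS1 v hv), one_pow, one_pow, one_mul])
    (fun v hv α _ n hn => by
      obtain ⟨z, hz⟩ := hloc v (hS1 v hv) i₀ n hn
      obtain ⟨z', hz'⟩ := hloc v (hS1 v hv) i₁ n hn
      refine ⟨z ^ α 0 * z' ^ α 1, ?_⟩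
      simp only [← hz, ← hz', Units.val_mul, Units.val_pow_eq_pow_val, map_mul, map_pow, mul_pow,
        ← pow_mul, mul_comm n]
      ring)
    (fun v hv => by
      obtain ⟨x, hx⟩ := hpt v (hS2 v hv)
      have h1 := MvPolynomial.comp_aeval_apply ![((f i₀ : Rˣ) : R), ((f i₁ : Rˣ) : R)] x F
      rw [hFR, map_zero, MvPolynomial.aeval_def, MvPolynomial.eval₂_eq'] at h1
      rw [h1]
      refine Finset.sum_congr rfl fun α hα => ?_
      rw [hc α hα, Fin.prod_univ_two]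
      simp [hx])
  -- Step B : a nonzero function vanishing at all the local points
  set h : R := ((f i₀ : Rˣ) : R) ^ α 0 * ((f i₁ : Rˣ) : R) ^ α 1 -
    algebraMap k R γ * (((f i₀ : Rˣ) : R) ^ α' 0 * ((f i₁ : Rˣ) : R) ^ α' 1) with hh
  have hh0 : h ≠ 0 := by
    intro h0
    exact hne (hind' α α' γ (sub_eq_zero.mp h0))
  have hxh : ∀ v ∉ S'', ∀ x : R →ₐ[k] v.adicCompletion k, (∀ i, x (f i) = y v i) → x h = 0 := by
    intro v hv x hx
    have hvS := hS1 v hv
    have h1 : y v i₀ ^ α 0 * y v i₁ ^ α 1 = algebraMap k (v.adicCompletion k) γ *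
        (y v i₀ ^ α' 0 * y v i₁ ^ α' 1) := by
      refine eq_of_classes v (E := fun n => e i₀ n ^ α 0 * e i₁ n ^ α 1)
        (E' := fun n => e i₀ n ^ α' 0 * e i₁ n ^ α' 1)
        (mul_ne_zero (pow_ne_zero _ (hy0 v hvS _)) (pow_ne_zero _ (hy0 v hvS _)))
        (mul_ne_zero (pow_ne_zero _ (hy0 v hvS _)) (pow_ne_zero _ (hy0 v hvS _)))
        (fun n hn => ?_) (fun n hn => ?_) hγ
      · obtain ⟨z, hz⟩ := hloc v hvS i₀ n hn
        obtain ⟨z', hz'⟩ := hloc v hvS i₁ n hn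
        refine ⟨z ^ α 0 * z' ^ α 1, ?_⟩
        simp only [← hz, ← hz', Units.val_mul, Units.val_pow_eq_pow_val, map_mul, map_pow, mul_pow,
          ← pow_mul, mul_comm n]
        ring
      · obtain ⟨z, hz⟩ := hloc v hvS i₀ n hn
        obtain ⟨z', hz'⟩ := hloc v hvS i₁ n hn
        refine ⟨z ^ α' 0 * z' ^ α' 1, ?_⟩
        simp only [← hz, ← hz', Units.val_mul, Units.val_pow_eq_pow_val, map_mul, map_pow, mul_pow,
          ← pow_mul, mul_comm n]
        ring
    rw [hh, map_sub, map_mul, map_mul, map_mul, map_pow, map_pow, map_pow, map_pow, AlgHom.commutes,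
      hx, hx, h1, sub_self]
  -- Step C : every unit takes a rational value
  have hrat : ∀ i, ∃ a : kˣ, ∀ n, 1 ≤ n → ∃ z : kˣ, e i n = a * z ^ n := by
    intro i
    obtain ⟨Q, hQ0, hQ⟩ := exists_poly_of_zero htr R h hh0 ((f i : Rˣ) : R)
    have hQne : Q.support.Nonempty := by rwa [Polynomial.support_nonempty]
    let cQ : ℕ → kˣ := fun a => if h : Q.coeff a = 0 then 1 else Units.mk0 _ h
    have hcQ : ∀ a ∈ Q.support, (cQ a : k) = Q.coeff a := by
      intro a ha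
      rw [Polynomial.mem_support_iff] at ha
      simp only [cQ, dif_neg ha, Units.val_mk0]
    obtain ⟨a, ha, a', ha', hne', γ', hγ'⟩ := key_lemma Q.support hQne cQ ε
      (fun a n => e i n ^ a)
      (fun a _ n m hn hm => by
        obtain ⟨u, hu⟩ := hcompat i n m hn hm
        refine ⟨u ^ a, ?_⟩
        change e i (n * m) ^ a = _
        rw [hu, mul_pow, ← pow_mul, ← pow_mul, mul_comm n a])
      (fun a _ n hn => (hR i n hn).pow _) S''
      (fun v a => y v i ^ a)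
      (fun v hv a _ => by rw [map_pow, hy v (hS1 v hv), one_pow])
      (fun v hv a _ n hn => by
        obtain ⟨z, hz⟩ := hloc v (hS1 v hv) i n hn
        refine ⟨z ^ a, ?_⟩
        simp only [← hz, Units.val_pow_eq_pow_val, map_pow, mul_pow, ← pow_mul, mul_comm n])
      (fun v hv => by
        obtain ⟨x, hx⟩ := hpt v (hS2 v hv)
        have h1 := hQ (v.adicCompletion k) x (hxh v hv x hx)
        rw [hx, Polynomial.aeval_def, Polynomial.eval₂_eq_sum, Polynomial.sum_def] at h1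
        rw [← h1]
        refine Finset.sum_congr rfl fun a ha => ?_
        rw [hcQ a ha])
    obtain ⟨m, hm, γ'', hγ''⟩ : ∃ m : ℕ, 1 ≤ m ∧ ∃ γ'' : kˣ, ∀ n, 1 ≤ n →
        ∃ z : kˣ, e i n ^ m = γ'' * z ^ n := by
      rcases lt_or_gt_of_ne hne' with hlt | hgt
      · refine ⟨a' - a, by omega, γ'⁻¹, fun n hn => ?_⟩
        obtain ⟨z, hz⟩ := hγ' n hn
        refine ⟨z⁻¹, ?_⟩
        have h2 : e i n ^ a' = e i n ^ (a' - a) * e i n ^ a := by
          rw [← pow_add]; congr 1; omega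
        change e i n ^ a = γ' * e i n ^ a' * z ^ n at hz
        rw [h2] at hz
        have h3 : e i n ^ (a' - a) * (γ' * z ^ n) = 1 := by
          apply mul_right_cancel (b := e i n ^ a)
          rw [one_mul]
          conv_rhs => rw [hz]
          simp only [mul_comm, mul_left_comm, mul_assoc]
        rw [inv_pow, ← mul_inv]
        exact eq_inv_of_mul_eq_one_left h3
      · refine ⟨a - a', by omega, γ', fun n hn => ?_⟩
        obtain ⟨z, hz⟩ := hγ' n hn
        refine ⟨z, ?_⟩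
        have h2 : e i n ^ a = e i n ^ (a - a') * e i n ^ a' := by
          rw [← pow_add]; congr 1; omega
        change e i n ^ a = γ' * e i n ^ a' * z ^ n at hz
        rw [h2] at hz
        apply mul_right_cancel (b := e i n ^ a')
        rw [hz]
        simp only [mul_comm, mul_left_comm, mul_assoc]
    exact exists_root (hcompat i) hm hγ''
  choose a ha using hrat
  have hya : ∀ v ∉ S, ∀ i, y v i = algebraMap k (v.adicCompletion k) (a i) := by
    intro v hv i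
    have h1 := eq_of_classes v (E := e i) (E' := fun _ => 1) (γ := a i) (y' := 1) (hy0 v hv i)
      one_ne_zero (hloc v hv i) (fun n _ => ⟨1, by simp⟩) (fun n hn => by
        obtain ⟨z, hz⟩ := ha i n hn
        exact ⟨z, by rw [mul_one]; exact hz⟩)
    rwa [mul_one] at h1
  refine ⟨a, hya, ha, fun G hG => ?_⟩
  obtain ⟨v, hv⟩ := exists_notMem S''
  obtain ⟨x, hx⟩ := hpt v (hS2 v hv)
  apply (algebraMap k (v.adicCompletion k)).injective
  have h1 := MvPolynomial.comp_aeval_apply (fun i => ((f i : Rˣ) : R)) x G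
  rw [hG, map_zero] at h1
  have h2 := MvPolynomial.comp_aeval_apply (fun i => ((a i : kˣ) : k))
    (Algebra.ofId k (v.adicCompletion k)) G
  have h3 : (fun i => x ((f i : Rˣ) : R)) =
      fun i => (Algebra.ofId k (v.adicCompletion k)) ((a i : kˣ) : k) := by
    funext i
    rw [hx, hya v (hS1 v hv) i]
    rfl
  rw [map_zero, h1, h3, ← h2]
  rfl

end Pool.Agent.Lib.MP_2f3286_ag
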