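import Mathlib
import Pool.Agent.Lib.MP_2f3286_ag.Units
import Pool.Agent.Lib.MP_2f3286_ag.Kummer

open IsDedekindDomain NumberField IntermediateField

namespace Pool.Agent.Lib.MP_2f3286_ag

section general

variable {k K M kb : Type*} [Field k] [Field kb] [Algebra k kb] [IsGalois k kb]
  [Field K] [Field M] [Algebra K M] [Algebra kb M]

theorem exists_kummer [IsAlgClosed kb] (s : Gal(kb/k) →* Gal(M/K)) (hs : Continuous s)
    (hsec : ∀ σ a, s σ (algebraMap kb M a) = algebraMap kb M (σ a)) {T : M} {n : ℕ} (hn : 1 ≤ n)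
    {g : K} (hg : g ≠ 0) (hT : T ^ n = algebraMap K M g) :
    ∃ (c : Gal(kb/k) → kbˣ) (z : kbˣ) (a : kˣ), (∀ σ, s σ T = algebraMap kb M (c σ) * T) ∧
      (∀ σ, (c σ : kb) * z = σ z) ∧ (z : kb) ^ n = algebraMap k kb a := by
  have hT0 : T ≠ 0 := by
    rintro rfl
    rw [zero_pow (by omega)] at hT
    exact hg ((map_eq_zero _).mp hT.symm)
  have h1 : ∀ σ, ∃ c : kbˣ, s σ T = algebraMap kb M c * T ∧ c ^ n = 1 := by
    intro σ
    have h2 : (s σ T / T) ^ n = 1 := by
      rw [div_pow, ← map_pow, hT, AlgEquiv.commutes, div_self]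
      rw [map_ne_zero]; exact hg
    obtain ⟨c, hc⟩ := root_of_unity_mem kb M hn h2
    have hc1 : c ^ n = 1 := by
      apply (algebraMap kb M).injective
      rw [map_pow, hc, h2, map_one]
    have hc0 : c ≠ 0 := by
      rintro rfl
      rw [zero_pow (by omega)] at hc1
      exact zero_ne_one hc1
    refine ⟨Units.mk0 c hc0, ?_, ?_⟩
    · rw [Units.val_mk0, hc, div_mul_cancel₀ _ hT0]
    · ext; simpa using hc1
  choose c hc hc' using h1
  have hcoc : ∀ σ τ : Gal(kb/k), (c (σ * τ) : kb) = c σ * σ (c τ) := by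
    intro σ τ
    apply (algebraMap kb M).injective
    apply mul_right_cancel₀ hT0
    rw [← hc, map_mul (s : Gal(kb/k) →* Gal(M/K)), AlgEquiv.mul_apply, hc τ, map_mul (s σ), hsec,
      hc σ, map_mul]
    ring
  have hopen : {σ : Gal(kb/k) | c σ = 1} ∈ nhds 1 := by
    have hint : IsIntegral K T := by
      refine ⟨Polynomial.X ^ n - Polynomial.C g, Polynomial.monic_X_pow_sub_C g (by omega), ?_⟩
      simp [hT]
    have hfin : FiniteDimensional K K⟮T⟯ := adjoin.finiteDimensional hint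
    have ho := IntermediateField.fixingSubgroup_isOpen (K⟮T⟯ : IntermediateField K M)
    have hmem : ((K⟮T⟯ : IntermediateField K M).fixingSubgroup : Set Gal(M/K)) ∈ nhds (s 1) := by
      rw [map_one]
      exact ho.mem_nhds (one_mem _)
    refine Filter.mem_of_superset (hs.continuousAt hmem) ?_
    intro σ hσ
    have h3 : s σ T = T := by
      have h4 : s σ ∈ (K⟮T⟯ : IntermediateField K M).fixingSubgroup := hσ
      rw [IntermediateField.mem_fixingSubgroup_iff] at h4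
      exact h4 T (IntermediateField.mem_adjoin_simple_self _ _)
    show c σ = 1
    ext
    apply (algebraMap kb M).injective
    apply mul_right_cancel₀ hT0
    rw [← hc, h3, Units.val_one, map_one, one_mul]
  obtain ⟨z, hz⟩ := hilbert90 k kb c hcoc hopen
  have hzn : (z : kb) ^ n ∈ (⊥ : IntermediateField k kb) := by
    rw [InfiniteGalois.mem_bot_iff_fixed]
    intro σ
    rw [map_pow, ← hz, mul_pow, ← Units.val_pow_eq_pow_val, hc', Units.val_one, one_mul]
  obtain ⟨a, ha⟩ := IntermediateField.mem_bot.mp hzn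
  have ha0 : a ≠ 0 := by
    rintro rfl
    rw [map_zero] at ha
    exact pow_ne_zero n z.ne_zero ha.symm
  exact ⟨c, z, Units.mk0 a ha0, hc, hz, ha.symm⟩

/-- elements fixed by Galois -/
theorem mem_of_fixed {F Fb : Type*} [Field F] [Field Fb] [Algebra F Fb] [IsGalois F Fb] {y : Fb}
    (h : ∀ τ : Gal(Fb/F), τ y = y) : ∃ w : F, algebraMap F Fb w = y := by
  have : y ∈ (⊥ : IntermediateField F Fb) := by
    rw [InfiniteGalois.mem_bot_iff_fixed]; exact h
  exact IntermediateField.mem_bot.mp this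

/-- restriction of automorphisms along an embedding -/
theorem exists_restrict {F Fb : Type*} [Field F] [Field Fb] [Algebra k F] [Algebra F Fb]
    [Algebra k Fb] [IsScalarTower k F Fb] (ι : kb →ₐ[k] Fb) (τ : Gal(Fb/F)) :
    ∃ σ : Gal(kb/k), ∀ a, ι (σ a) = τ (ι a) := by
  let _ : Algebra kb Fb := ι.toRingHom.toAlgebra
  have : IsScalarTower k kb Fb := IsScalarTower.of_algebraMap_eq fun x => (ι.commutes x).symm
  let τ' : Gal(Fb/k) := τ.restrictScalars k
  refine ⟨τ'.restrictNormal kb, fun a => ?_⟩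
  exact AlgEquiv.restrictNormal_commutes τ' kb a

end general

/-- compatible systems of roots in finite sets exist -/
theorem exists_compatible {K : Type*} [Field K] (X : ℕ → Set K)
    (hne : ∀ n, 1 ≤ n → (X n).Nonempty) (hfin : ∀ n, 1 ≤ n → (X n).Finite)
    (hX : ∀ n m, 1 ≤ n → 1 ≤ m → ∀ u ∈ X (n * m), u ^ m ∈ X n) :
    ∃ u : ℕ → K, (∀ n, 1 ≤ n → u n ∈ X n) ∧ ∀ n m, 1 ≤ n → 1 ≤ m → u (n * m) ^ m = u n := by
  classical
  have hw : ∀ N : ℕ, ∃ w, w ∈ X N.factorial := fun N => hne _ (Nat.factorial_pos N)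
  choose w hw using hw
  let U : Ultrafilter ℕ := Filter.hyperfilter ℕ
  have hU : ∀ n, ∀ᶠ N in (U : Filter ℕ), n ≤ N := by
    intro n
    have h1 : (U : Filter ℕ) ≤ Filter.cofinite := Filter.hyperfilter_le_cofinite
    rw [Nat.cofinite_eq_atTop] at h1
    exact h1 (Filter.eventually_ge_atTop n)
  have key : ∀ n, 1 ≤ n → ∃ a, a ∈ X n ∧ ∀ᶠ N in (U : Filter ℕ), (w N) ^ (N.factorial / n) = a := by
    intro n hn
    have h2 : ∀ᶠ N in (U : Filter ℕ), ∃ a ∈ X n, (w N) ^ (N.factorial / n) = a := by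
      filter_upwards [hU n] with N hN
      obtain ⟨m, hm⟩ := Nat.dvd_factorial hn hN
      have hm0 : 1 ≤ m := by
        rcases Nat.eq_zero_or_pos m with rfl | h
        · have := Nat.factorial_pos N
          omega
        · exact h
      refine ⟨_, ?_, rfl⟩
      have h3 := hw N
      rw [hm] at h3 ⊢
      rw [Nat.mul_div_cancel_left _ hn]
      exact hX n m hn hm0 _ h3
    rw [Ultrafilter.eventually_exists_mem_iff (hfin n hn)] at h2
    exact h2
  choose! u hu hu' using key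
  refine ⟨u, hu, fun n m hn hm => ?_⟩
  have hnm : 1 ≤ n * m := Nat.mul_pos hn hm
  have h4 := ((hu' (n * m) hnm).and (hu' n hn)).and (hU (n * m))
  obtain ⟨N, ⟨hN1, hN2⟩, hN3⟩ := h4.exists
  rw [← hN1, ← hN2, ← pow_mul]
  congr 1
  obtain ⟨q, hq⟩ := Nat.dvd_factorial hnm hN3
  rw [hq, Nat.mul_div_cancel_left _ hnm, mul_assoc, Nat.mul_div_cancel_left _ hn, mul_comm]

variable {k : Type*} [Field k] [NumberField k]

/-- With at most two places in `S ∪ ∞`, all classes integral outside `S` lie in the closure of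
a group of rank one. -/
theorem exists_eps (S : Finset (HeightOneSpectrum (𝓞 k)))
    (hS : Fintype.card (InfinitePlace k) + S.card ≤ 2) :
    ∃ ε : kˣ, ∀ e : ℕ → kˣ, (∀ n m, 1 ≤ n → 1 ≤ m → ∃ y : kˣ, e (n * m) = e n * y ^ n) →
      ∀ y : ∀ v : HeightOneSpectrum (𝓞 k), v.adicCompletion k, (∀ v ∉ S, Valued.v (y v) = 1) →
      (∀ v ∉ S, ∀ n, 1 ≤ n → ∃ z : v.adicCompletion k,
        algebraMap k (v.adicCompletion k) (e n) * z ^ n = y v) →
      ∀ n, 1 ≤ n → InCl ε n (e n) := by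
  classical
  have hW : Fintype.card (InfinitePlace k ⊕ {v // v ∈ S}) ≤ 2 := by
    rw [Fintype.card_sum, Fintype.card_coe]; exact hS
  -- torsion
  have htors : ∀ ζ ∈ (placesOf S).K0, IsOfFinOrder ζ := by
    intro ζ hζ
    by_contra hinf
    have h1 : Set.MapsTo (fun n : ℕ => ζ ^ n) Set.univ {ζ : kˣ | ζ ∈ (placesOf S).K0} :=
      fun n _ => pow_mem hζ n
    obtain ⟨a, -, b, -, hab, heq⟩ := Set.Infinite.exists_ne_map_eq_of_mapsTo
      Set.infinite_univ h1 (K0_finite S)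
    exact hab (injective_pow_iff_not_isOfFinOrder.mpr hinf heq)
  obtain ⟨ε, hε⟩ : ∃ ε : kˣ, ∀ x ∈ (placesOf S).Γ, ∃ ζ : kˣ, IsOfFinOrder ζ ∧ ∃ j : ℤ,
      x = ζ * ε ^ j := by
    rcases (placesOf S).structure_units hW with h | ⟨w₁, w₂, -, -, ε, -, -, hgen⟩
    · exact ⟨1, fun x hx => ⟨x, htors x ⟨hx, h x hx⟩, 0, by simp⟩⟩
    · refine ⟨ε, fun x hx => ?_⟩
      obtain ⟨ζ, hζ, j, hj⟩ := hgen x hx
      exact ⟨ζ, htors ζ hζ, j, hj⟩
  refine ⟨ε, fun e hcompat y hy hloc n hn => ?_⟩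
  have hh : 0 < classNumber k := classNumber_pos k
  obtain ⟨x, hx, α, hα⟩ := exists_sunit S n hn (e (n * classNumber k)) (by
    intro v hv
    obtain ⟨z, hz⟩ := hloc v hv (n * classNumber k) (Nat.mul_pos hn hh)
    refine ⟨(Valued.v z)⁻¹, ?_⟩
    have h1 := congrArg Valued.v hz
    rw [hy v hv, map_mul, map_pow, val_alg] at h1
    rw [inv_pow]
    exact (eq_inv_of_mul_eq_one_left h1).symm)
  obtain ⟨u, hu⟩ := hcompat n (classNumber k) hn hh
  obtain ⟨ζ, hζ, j, hj⟩ := hε x hx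
  refine ⟨ζ, hζ, j, α * u⁻¹, ?_⟩
  have h2 : e n = e (n * classNumber k) * (u ^ n)⁻¹ := by rw [hu]; simp
  rw [h2, hα, hj, mul_pow, inv_pow, mul_assoc]

end Pool.Agent.Lib.MP_2f3286_ag
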