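import Mathlib
import Pool.Agent.Lib.MP_2f3286_ag.Local

open NumberField IsDedekindDomain Filter Topology WithZero

namespace Pool.Agent.Lib.MP_2f3286_ag

theorem exists_completion_hom {k L : Type*} [Field k] [NumberField k] [Field L] [NumberField L]
    [Algebra k L] (v : HeightOneSpectrum (𝓞 k)) (w : HeightOneSpectrum (𝓞 L))
    [w.asIdeal.LiesOver v.asIdeal] :
    ∃ j : v.adicCompletion k →+* w.adicCompletion L, ∀ a : k,
      j (algebraMap k (v.adicCompletion k) a) = algebraMap L (w.adicCompletion L) (algebraMap k L a) := by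
  have hu := HeightOneSpectrum.uniformContinuous_algebraMap_liesOver k L v w
  let f : (v.valuation k).Completion →+* (w.valuation L).Completion :=
    UniformSpace.Completion.mapRingHom (algebraMap (WithVal (v.valuation k)) (WithVal (w.valuation L)))
      hu.continuous
  refine ⟨((HeightOneSpectrum.adicCompletion.equiv L w).symm.toRingHom.comp f).comp
    (HeightOneSpectrum.adicCompletion.equiv k v).toRingHom, fun a => ?_⟩
  rw [HeightOneSpectrum.algebraMap_adicCompletion, HeightOneSpectrum.algebraMap_adicCompletion]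
  apply HeightOneSpectrum.adicCompletion.ext
  simp only [Function.comp_apply, Algebra.algebraMap_self, RingHom.id_apply]
  change f ((WithVal.equiv (v.valuation k)).symm a : WithVal (v.valuation k)) =
    ((WithVal.equiv (w.valuation L)).symm (algebraMap k L a) : WithVal (w.valuation L))
  exact UniformSpace.Completion.mapRingHom_coe hu.continuous _

theorem exists_residue_root {F : Type*} [Field F] [NumberField F] (w : HeightOneSpectrum (𝓞 F))
    {N : ℕ} (hN : 0 < N) (x : 𝓞 F) (hx : x ∉ w.asIdeal) (z : w.adicCompletion F)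
    (hz : z ^ N = algebraMap F (w.adicCompletion F) (x : F)) : ∃ r : 𝓞 F, r ^ N - x ∈ w.asIdeal := by
  have hx1 : w.valuation F (x : F) = 1 := (HeightOneSpectrum.valuation_eq_one_iff_notMem w).mpr hx
  have hz1 : Valued.v z = 1 := by
    have h1 := congrArg Valued.v hz
    rw [map_pow, val_alg, hx1] at h1
    exact (pow_eq_one_iff_of_nonneg zero_le hN.ne').mp h1
  obtain ⟨y, hy⟩ := exists_approx w z 1
  have hlt : exp (-((1 : ℕ) : ℤ)) < (1 : WithZero (Multiplicative ℤ)) := by
    rw [← exp_zero]
    exact exp_lt_exp.mpr (by norm_num)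
  have hy1 : w.valuation F y = 1 := by
    rw [← val_alg]
    have : algebraMap F (w.adicCompletion F) y = z - (z - algebraMap F (w.adicCompletion F) y) := by
      simp
    rw [this, Valuation.map_sub_eq_of_lt_left, hz1]
    rw [hz1]; exact lt_of_le_of_lt hy hlt
  obtain ⟨a, ha⟩ := HeightOneSpectrum.exists_valuation_sub_lt_of_integer w hy1.le 1
  simp only [Units.val_one] at ha
  have hza : Valued.v (z - algebraMap F (w.adicCompletion F) (algebraMap (𝓞 F) F a)) < 1 := by
    have : z - algebraMap F (w.adicCompletion F) (algebraMap (𝓞 F) F a) =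
      (z - algebraMap F (w.adicCompletion F) y) - algebraMap F (w.adicCompletion F)
        (algebraMap (𝓞 F) F a - y) := by rw [map_sub]; ring
    rw [this]
    refine lt_of_le_of_lt (Valued.v.map_sub _ _) (max_lt (lt_of_le_of_lt hy hlt) ?_)
    rw [val_alg]; exact ha
  refine ⟨a, ?_⟩
  rw [← HeightOneSpectrum.valuation_lt_one_iff_mem (K := F), ← val_alg]
  have h2 : algebraMap F (w.adicCompletion F) (algebraMap (𝓞 F) F (a ^ N - x)) =
      (algebraMap F (w.adicCompletion F) (algebraMap (𝓞 F) F a)) ^ N - z ^ N := by
    rw [hz, map_sub, map_pow, map_sub, map_pow]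
  rw [h2]
  refine lt_of_le_of_lt (val_pow_sub_pow_le Valued.v ?_ hz1.le N) ?_
  · rw [val_alg]
    exact HeightOneSpectrum.valuation_le_one w a
  · rw [Valuation.map_sub_swap]; exact hza

end Pool.Agent.Lib.MP_2f3286_ag
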