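import Mathlib

open NumberField IsDedekindDomain Filter Topology Ideal nonZeroDivisors

namespace Pool.Agent.Lib.MP_2f3286_ag

variable (F : Type*) [Field F] [NumberField F]

/-- number of ideals of norm `n` -/
noncomputable def nid (n : ℕ) : ℝ := (Nat.card {I : Ideal (𝓞 F) // absNorm I = n} : ℝ)

theorem nid_nonneg (n : ℕ) : 0 ≤ nid F n := Nat.cast_nonneg _

theorem tendsto_nid : Tendsto (fun n : ℕ => (∑ k ∈ Finset.Icc 1 n, nid F k) / (n : ℝ)) atTop
    (𝓝 (dedekindZeta_residue F)) := by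
  refine ((Ideal.tendsto_norm_le_div_atTop₀ F).comp tendsto_natCast_atTop_atTop).congr fun n ↦ ?_
  simp only [Function.comp_apply, Nat.cast_le, nid, ← Nat.cast_sum]
  congr
  rw [← add_left_inj 1, ← card_norm_le_eq_card_norm_le_add_one,
    show Finset.Icc 1 n = Finset.Ioc 0 n from Finset.Icc_succ_left_eq_Ioc _ _,
    show 1 = Nat.card {I : Ideal (𝓞 F) // absNorm I = 0} by simp [Ideal.absNorm_eq_zero_iff],
    Finset.sum_Ioc_add_eq_sum_Icc (n.zero_le),
    ← Finset.card_preimage_eq_sum_card_image_eq (fun k _ ↦ finite_setOfPred_absNorm_eq k)]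
  simp [Set.coe_eq_subtype]

theorem term_eq (s : ℝ) (n : ℕ) : LSeries.term (fun n => ((nid F n : ℝ) : ℂ)) s n =
    (((if n = 0 then 0 else nid F n * (n : ℝ) ^ (-s)) : ℝ) : ℂ) := by
  rw [LSeries.term_def]
  split_ifs with h
  · simp
  · rw [Complex.ofReal_mul, Complex.ofReal_cpow (Nat.cast_nonneg n)]
    rw [Complex.ofReal_natCast, Complex.ofReal_neg, Complex.cpow_neg, div_eq_mul_inv]

theorem summable_nid {s : ℝ} (hs : 1 < s) :
    Summable fun n : ℕ => if n = 0 then 0 else nid F n * (n : ℝ) ^ (-s) := by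
  have h : LSeriesSummable (fun n => ((nid F n : ℝ) : ℂ)) s := by
    refine LSeriesSummable_of_sum_norm_bigO_and_nonneg (r := 1) ?_ (nid_nonneg F) zero_le_one
      (by simpa using hs)
    exact Asymptotics.isBigO_atTop_natCast_rpow_of_tendsto_div_rpow (a := dedekindZeta_residue F)
      (by simpa using tendsto_nid F)
  unfold LSeriesSummable at h
  rw [← Complex.summable_ofReal]
  refine h.congr fun n => ?_
  rw [term_eq]

theorem tendsto_sum_nid : Tendsto (fun s : ℝ => (s - 1) *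
    ∑' n : ℕ, if n = 0 then 0 else nid F n * (n : ℝ) ^ (-s)) (𝓝[>] 1) (𝓝 (dedekindZeta_residue F)) := by
  have h := LSeries_tendsto_sub_mul_nhds_one_of_tendsto_sum_div_and_nonneg (nid F) (tendsto_nid F)
    (nid_nonneg F)
  rw [← Filter.tendsto_ofReal_iff (f := fun s : ℝ => (s - 1) *
    ∑' n : ℕ, if n = 0 then 0 else nid F n * (n : ℝ) ^ (-s))]
  refine h.congr fun s => ?_
  rw [LSeries]
  simp only [term_eq]
  rw [← Complex.ofReal_tsum]
  push_cast
  rfl

/-- nonzero ideals -/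
abbrev NI := {I : Ideal (𝓞 F) // I ≠ ⊥}

theorem card_fiber {n : ℕ} (hn : n ≠ 0) :
    Nat.card {I : NI F // absNorm I.1 = n} = Nat.card {I : Ideal (𝓞 F) // absNorm I = n} := by
  refine Nat.card_congr ⟨fun I => ⟨I.1.1, I.2⟩, fun I => ⟨⟨I.1, ?_⟩, I.2⟩, fun I => rfl, fun I => rfl⟩
  intro h
  apply hn
  rw [← I.2, h, absNorm_bot]

instance (n : ℕ) : Finite {I : NI F // absNorm I.1 = n} := by
  have h := finite_setOfPred_absNorm_eq (S := 𝓞 F) n
  exact (h.preimage (f := fun I : NI F => I.1) Subtype.val_injective.injOn).to_subtype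

theorem fiber_sum (s : ℝ) (n : ℕ) :
    ∑' I : {I : NI F // absNorm I.1 = n}, (absNorm I.1.1 : ℝ) ^ (-s) =
      if n = 0 then 0 else nid F n * (n : ℝ) ^ (-s) := by
  have h1 : ∀ I : {I : NI F // absNorm I.1 = n}, (absNorm I.1.1 : ℝ) ^ (-s) = (n : ℝ) ^ (-s) := by
    intro I; rw [I.2]
  simp only [h1]
  rw [tsum_const]
  split_ifs with h
  · subst h
    have : IsEmpty {I : NI F // absNorm I.1 = 0} := by
      refine ⟨fun I => I.1.2 ?_⟩
      exact absNorm_eq_zero_iff.mp I.2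
    simp
  · rw [card_fiber F h, nid, nsmul_eq_mul]

theorem summable_ideal {s : ℝ} (hs : 1 < s) :
    Summable fun I : NI F => (absNorm I.1 : ℝ) ^ (-s) := by
  rw [← (Equiv.sigmaFiberEquiv (fun I : NI F => absNorm I.1)).summable_iff]
  rw [summable_sigma_of_nonneg]
  · refine ⟨fun n => Summable.of_finite, ?_⟩
    refine (summable_nid F hs).congr fun n => ?_
    exact (fiber_sum F s n).symm
  · intro x; exact Real.rpow_nonneg (Nat.cast_nonneg _) _

theorem tsum_ideal {s : ℝ} (hs : 1 < s) :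
    ∑' I : NI F, (absNorm I.1 : ℝ) ^ (-s) = ∑' n : ℕ, if n = 0 then 0 else nid F n * (n : ℝ) ^ (-s) := by
  rw [← (Equiv.sigmaFiberEquiv (fun I : NI F => absNorm I.1)).tsum_eq]
  have h := ((Equiv.sigmaFiberEquiv (fun I : NI F => absNorm I.1)).summable_iff (f := fun I : NI F => (absNorm I.1 : ℝ) ^ (-s))).mpr
    (summable_ideal F hs)
  refine (Summable.tsum_sigma h).trans ?_
  refine tsum_congr fun n => ?_
  exact fiber_sum F s n

theorem tendsto_zeta : Tendsto (fun s : ℝ => (s - 1) * ∑' I : NI F, (absNorm I.1 : ℝ) ^ (-s))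
    (𝓝[>] 1) (𝓝 (dedekindZeta_residue F)) := by
  refine (tendsto_sum_nid F).congr' ?_
  filter_upwards [self_mem_nhdsWithin] with s hs
  rw [tsum_ideal F hs]



/-- norm of a prime to the power `-s` -/
noncomputable def xw (s : ℝ) (w : HeightOneSpectrum (𝓞 F)) : ℝ := (absNorm w.asIdeal : ℝ) ^ (-s)

theorem xw_nonneg (s : ℝ) (w : HeightOneSpectrum (𝓞 F)) : 0 ≤ xw F s w :=
  Real.rpow_nonneg (Nat.cast_nonneg _) _

theorem absNorm_pos (w : HeightOneSpectrum (𝓞 F)) : 0 < absNorm w.asIdeal := by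
  rw [Nat.pos_iff_ne_zero]
  intro h
  exact w.ne_bot (absNorm_eq_zero_iff.mp h)

theorem xw_le_one {s : ℝ} (hs : 0 ≤ s) (w : HeightOneSpectrum (𝓞 F)) : xw F s w ≤ 1 := by
  refine Real.rpow_le_one_of_one_le_of_nonpos ?_ (by linarith)
  exact_mod_cast absNorm_pos F w

theorem summable_xw {s : ℝ} (hs : 1 < s) : Summable (xw F s) := by
  have h := summable_ideal F hs
  let i : HeightOneSpectrum (𝓞 F) → NI F := fun w => ⟨w.asIdeal, w.ne_bot⟩
  have hinj : Function.Injective i := by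
    intro w w' h
    exact HeightOneSpectrum.ext (congrArg Subtype.val h)
  have h2 := h.comp_injective hinj
  have h3 : ((fun I : NI F => (absNorm I.1 : ℝ) ^ (-s)) ∘ i) = xw F s := rfl
  rwa [h3] at h2

/-- squarefree ideals from finite sets of primes -/
noncomputable def prodIdeal (A : Finset (HeightOneSpectrum (𝓞 F))) : NI F :=
  ⟨∏ w ∈ A, w.asIdeal, by
    rw [← Submodule.zero_eq_bot, Finset.prod_ne_zero_iff]
    intro w _; exact w.ne_bot⟩

theorem prodIdeal_injective : Function.Injective (prodIdeal F) := by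
  classical
  have key : ∀ (A : Finset (HeightOneSpectrum (𝓞 F))) (w : HeightOneSpectrum (𝓞 F)),
      w ∈ A ↔ w.asIdeal ∣ ∏ u ∈ A, u.asIdeal := by
    intro A w
    refine ⟨fun h => Finset.dvd_prod_of_mem _ h, fun h => ?_⟩
    obtain ⟨u, hu, hd⟩ := (w.prime.dvd_finsetProd_iff _).mp h
    have h1 : u.asIdeal ≤ w.asIdeal := Ideal.dvd_iff_le.mp hd
    have h2 := u.isMaximal.eq_of_le w.isPrime.ne_top h1
    have : u = w := HeightOneSpectrum.ext h2
    rwa [← this]
  intro A B h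
  have h' : ∏ u ∈ A, u.asIdeal = ∏ u ∈ B, u.asIdeal := congrArg Subtype.val h
  ext w
  rw [key, key, h']

theorem norm_prodIdeal (s : ℝ) (A : Finset (HeightOneSpectrum (𝓞 F))) :
    (absNorm (prodIdeal F A).1 : ℝ) ^ (-s) = ∏ w ∈ A, xw F s w := by
  simp only [prodIdeal, map_prod, Nat.cast_prod, xw]
  rw [← Real.finsetProd_rpow]
  intro i _; exact Nat.cast_nonneg _

theorem prod_le_zeta {s : ℝ} (hs : 1 < s) (Q : Finset (HeightOneSpectrum (𝓞 F))) :
    ∏ w ∈ Q, (1 + xw F s w) ≤ ∑' I : NI F, (absNorm I.1 : ℝ) ^ (-s) := by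
  classical
  rw [Finset.prod_one_add]
  have h1 : ∑ A ∈ Q.powerset, ∏ w ∈ A, xw F s w =
      ∑ I ∈ Q.powerset.image (prodIdeal F), (absNorm I.1 : ℝ) ^ (-s) := by
    rw [Finset.sum_image (fun a _ b _ h => prodIdeal_injective F h)]
    exact Finset.sum_congr rfl fun A _ => (norm_prodIdeal F s A).symm
  rw [h1]
  exact (summable_ideal F hs).sum_le_tsum _ fun I _ => Real.rpow_nonneg (Nat.cast_nonneg _) _

/-- every nonzero ideal is a squarefree ideal times a square -/
theorem exists_squarefree (I : Ideal (𝓞 F)) (hI : I ≠ ⊥) :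
    ∃ (A : Finset (HeightOneSpectrum (𝓞 F))) (J : NI F), I = (∏ w ∈ A, w.asIdeal) * J.1 ^ 2 := by
  classical
  revert hI
  refine UniqueFactorizationMonoid.induction_on_prime I ?_ ?_ ?_
  · intro h; exact absurd Submodule.zero_eq_bot h
  · intro x hx _
    refine ⟨∅, ⟨⊤, top_ne_bot⟩, ?_⟩
    rw [Ideal.isUnit_iff.mp hx, Finset.prod_empty, one_mul]
    change (⊤ : Ideal (𝓞 F)) = ⊤ ^ 2
    rw [← Ideal.one_eq_top, one_pow]
  · intro a p ha hp ih _
    obtain ⟨A, J, h⟩ := ih ha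
    have hpb : p ≠ ⊥ := hp.ne_zero
    let w : HeightOneSpectrum (𝓞 F) := ⟨p, Ideal.isPrime_of_prime hp, hpb⟩
    by_cases hw : w ∈ A
    · refine ⟨A.erase w, ⟨p * J.1, mul_ne_zero hpb J.2⟩, ?_⟩
      rw [h, ← Finset.mul_prod_erase A _ hw]
      change p * (p * _ * _) = _
      ring
    · refine ⟨insert w A, J, ?_⟩
      rw [Finset.prod_insert hw, h, mul_assoc]

theorem zeta_le {s : ℝ} (hs : 1 < s) :
    ∑' I : NI F, (absNorm I.1 : ℝ) ^ (-s) ≤
      Real.exp (∑' w, xw F s w) * ∑' I : NI F, (absNorm I.1 : ℝ) ^ (-(2 : ℝ)) := by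
  classical
  have h2s : 1 < 2 * s := by linarith
  choose A J hAJ using fun I : NI F => exists_squarefree F I.1 I.2
  have hsumA : Summable (fun A : Finset (HeightOneSpectrum (𝓞 F)) => ∏ w ∈ A, xw F s w) :=
    summable_finsetProd_of_summable_nonneg (xw_nonneg F s) (summable_xw F hs)
  have hsumJ := summable_ideal F h2s
  have hprod : Summable fun p : Finset (HeightOneSpectrum (𝓞 F)) × NI F =>
      (∏ w ∈ p.1, xw F s w) * (absNorm p.2.1 : ℝ) ^ (-(2 * s)) :=
    hsumA.mul_of_nonneg hsumJ (fun A => Finset.prod_nonneg fun w _ => xw_nonneg F s w)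
      (fun I => Real.rpow_nonneg (Nat.cast_nonneg _) _)
  have hinj : Function.Injective (fun I : NI F => (A I, J I)) := by
    intro I I' h
    have h1 : A I = A I' := congrArg Prod.fst h
    have h2 : J I = J I' := congrArg Prod.snd h
    apply Subtype.ext
    rw [hAJ I, hAJ I', h1, h2]
  have hval : ∀ I : NI F, (absNorm I.1 : ℝ) ^ (-s) =
      (∏ w ∈ A I, xw F s w) * (absNorm (J I).1 : ℝ) ^ (-(2 * s)) := by
    intro I
    conv_lhs => rw [hAJ I]
    rw [map_mul, Nat.cast_mul, Real.mul_rpow (Nat.cast_nonneg _) (Nat.cast_nonneg _)]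
    congr 1
    · exact norm_prodIdeal F s (A I)
    · rw [map_pow, Nat.cast_pow, ← Real.rpow_natCast, ← Real.rpow_mul (Nat.cast_nonneg _)]
      congr 1
      push_cast; ring
  calc ∑' I : NI F, (absNorm I.1 : ℝ) ^ (-s)
      = ∑' I : NI F, (∏ w ∈ A I, xw F s w) * (absNorm (J I).1 : ℝ) ^ (-(2 * s)) := tsum_congr hval
    _ ≤ ∑' p : Finset (HeightOneSpectrum (𝓞 F)) × NI F,
          (∏ w ∈ p.1, xw F s w) * (absNorm p.2.1 : ℝ) ^ (-(2 * s)) := by
        refine Summable.tsum_le_tsum_of_inj (fun I : NI F => (A I, J I)) hinj ?_ (fun I => le_rfl) 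
          ((summable_ideal F hs).congr hval) hprod
        intro p _
        exact mul_nonneg (Finset.prod_nonneg fun w _ => xw_nonneg F s w)
          (Real.rpow_nonneg (Nat.cast_nonneg _) _)
    _ = (∑' A : Finset (HeightOneSpectrum (𝓞 F)), ∏ w ∈ A, xw F s w) *
          ∑' I : NI F, (absNorm I.1 : ℝ) ^ (-(2 * s)) := (hsumA.tsum_mul_tsum hsumJ hprod).symm
    _ ≤ _ := by
        refine mul_le_mul ?_ ?_ (tsum_nonneg fun I => Real.rpow_nonneg (Nat.cast_nonneg _) _)
          (Real.exp_nonneg _)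
        · rw [← tprod_one_add hsumA]
          refine Multipliable.tprod_le_of_prod_le (multipliable_one_add_of_summable_prod hsumA) fun Q => ?_
          refine (Real.prod_one_add_le_exp_sum Q (xw_nonneg F s)).trans ?_
          exact Real.exp_le_exp.mpr ((summable_xw F hs).sum_le_tsum Q fun w _ => xw_nonneg F s w)
        · refine Summable.tsum_le_tsum (fun I => ?_) hsumJ (summable_ideal F one_lt_two)
          refine Real.rpow_le_rpow_of_exponent_le ?_ (by linarith)
          have : absNorm I.1 ≠ 0 := fun h => I.2 (absNorm_eq_zero_iff.mp h)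
          exact_mod_cast Nat.one_le_iff_ne_zero.mpr this

theorem primeSum_le {s : ℝ} (hs : 1 < s) :
    ∑' w, xw F s w ≤ Real.log (∑' I : NI F, (absNorm I.1 : ℝ) ^ (-s)) + ∑' w, xw F 2 w := by
  have hx2 : ∀ w, xw F s w ^ 2 ≤ xw F 2 w := by
    intro w
    rw [xw, xw, ← Real.rpow_natCast, ← Real.rpow_mul (Nat.cast_nonneg _)]
    refine Real.rpow_le_rpow_of_exponent_le ?_ (by push_cast; linarith)
    exact_mod_cast absNorm_pos F w
  refine Real.tsum_le_of_sum_le (xw_nonneg F s) fun Q => ?_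
  have h1 := prod_le_zeta F hs Q
  have hpos : 0 < ∏ w ∈ Q, (1 + xw F s w) := Finset.prod_pos fun w _ => by
    have := xw_nonneg F s w; linarith
  have h2 := Real.log_le_log hpos h1
  rw [Real.log_prod (fun w _ => by have := xw_nonneg F s w; linarith)] at h2
  have h3 : ∀ w ∈ Q, xw F s w ≤ Real.log (1 + xw F s w) + xw F 2 w := by
    intro w _
    have h0 := xw_nonneg F s w
    have h4 := Real.one_sub_inv_le_log_of_pos (x := 1 + xw F s w) (by linarith)
    have h5 : xw F s w - xw F s w ^ 2 ≤ 1 - (1 + xw F s w)⁻¹ := by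
      rw [le_sub_iff_add_le, ← le_sub_iff_add_le', inv_le_iff_one_le_mul₀ (by linarith)]
      nlinarith [pow_nonneg h0 3]
    linarith [hx2 w]
  calc ∑ w ∈ Q, xw F s w ≤ ∑ w ∈ Q, (Real.log (1 + xw F s w) + xw F 2 w) := Finset.sum_le_sum h3
    _ = ∑ w ∈ Q, Real.log (1 + xw F s w) + ∑ w ∈ Q, xw F 2 w := Finset.sum_add_distrib
    _ ≤ _ := add_le_add h2 ((summable_xw F one_lt_two).sum_le_tsum Q fun w _ => xw_nonneg F 2 w)

/-- the prime ideal sum is `log (1/(s-1)) + O(1)`. -/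
theorem primeSum_asymp : ∃ C : ℝ, ∀ᶠ s : ℝ in 𝓝[>] 1,
    |∑' w, xw F s w - Real.log (1 / (s - 1))| ≤ C := by
  set κ := dedekindZeta_residue F with hκ
  have hκ0 : 0 < κ := dedekindZeta_residue_pos F
  set C2 := ∑' I : NI F, (absNorm I.1 : ℝ) ^ (-(2 : ℝ)) with hC2
  set C1 := ∑' w, xw F 2 w with hC1
  have hC2pos : 0 < C2 := by
    have h1 : (absNorm (⟨⊤, top_ne_bot⟩ : NI F).1 : ℝ) ^ (-(2 : ℝ)) ≤ C2 :=
      (summable_ideal F one_lt_two).le_tsum (⟨⊤, top_ne_bot⟩ : NI F)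
        (fun I _ => Real.rpow_nonneg (Nat.cast_nonneg _) _)
    simp only [absNorm_top, Nat.cast_one, Real.one_rpow] at h1
    linarith
  refine ⟨|Real.log (κ / 2)| + |Real.log (2 * κ)| + |Real.log C2| + C1, ?_⟩
  have h1 : ∀ᶠ s : ℝ in 𝓝[>] 1, κ / 2 < (s - 1) * ∑' I : NI F, (absNorm I.1 : ℝ) ^ (-s) :=
    (tendsto_zeta F).eventually_const_lt (by linarith)
  have h2 : ∀ᶠ s : ℝ in 𝓝[>] 1, (s - 1) * ∑' I : NI F, (absNorm I.1 : ℝ) ^ (-s) < 2 * κ :=
    (tendsto_zeta F).eventually_lt_const (by linarith)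
  filter_upwards [h1, h2, self_mem_nhdsWithin] with s hs1 hs2 hs
  have hs' : 0 < s - 1 := sub_pos.mpr hs
  set Z := ∑' I : NI F, (absNorm I.1 : ℝ) ^ (-s) with hZ
  have hZ0 : 0 < Z := by
    by_contra hcon
    have : (s - 1) * Z ≤ 0 := mul_nonpos_of_nonneg_of_nonpos hs'.le (not_lt.mp hcon)
    linarith
  have hlog : Real.log ((s - 1) * Z) = Real.log Z - Real.log (1 / (s - 1)) := by
    rw [Real.log_mul hs'.ne' hZ0.ne', Real.log_div one_ne_zero hs'.ne', Real.log_one]; ring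
  have h3 := Real.log_lt_log (by linarith) hs1
  have h4 := Real.log_lt_log (by linarith) hs2
  rw [hlog] at h3 h4
  have h5 := primeSum_le F hs
  have h6 := Real.log_le_log hZ0 (zeta_le F hs)
  rw [Real.log_mul (Real.exp_ne_zero _) hC2pos.ne', Real.log_exp] at h6
  have e1 := neg_abs_le (Real.log (κ / 2))
  have e2 := le_abs_self (Real.log (2 * κ))
  have e3 := le_abs_self (Real.log C2)
  have e4 : 0 ≤ C1 := tsum_nonneg fun w => xw_nonneg F 2 w
  have e5 := abs_nonneg (Real.log (κ / 2))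
  have e6 := abs_nonneg (Real.log (2 * κ))
  have e7 := abs_nonneg (Real.log C2)
  rw [abs_le]
  constructor <;> linarith

end Pool.Agent.Lib.MP_2f3286_ag
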