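import Mathlib
import Pool.Agent.Lib.MP_2f3286_ag.Zeta

open NumberField IsDedekindDomain Filter Topology Ideal Polynomial
open scoped Pointwise

namespace Pool.Agent.Lib.MP_2f3286_ag

section split

variable {F E : Type*} [Field F] [NumberField F] [Field E] [NumberField E] [Algebra F E]
  [IsGalois F E]

theorem absNorm_eq_of_stab (w : HeightOneSpectrum (𝓞 F)) (P : Ideal (𝓞 E)) [P.IsPrime]
    [P.LiesOver w.asIdeal] (hst : ∀ g : Gal(E/F), g • P = P → g = 1) :
    absNorm P = absNorm w.asIdeal := by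
  have hmax := w.isMaximal
  have hprime := w.isPrime
  have h1 := card_stabilizer_eq_card_inertia_mul_finrank (G := Gal(E/F)) w.asIdeal P
  have h2 : Nat.card (MulAction.stabilizer Gal(E/F) P) = 1 := by
    rw [Nat.card_eq_one_iff_unique]
    refine ⟨⟨fun a b => ?_⟩, ⟨1⟩⟩
    have ha := hst a.1 a.2
    have hb := hst b.1 b.2
    exact Subtype.ext (ha.trans hb.symm)
  rw [h2] at h1
  have h3 : P.inertiaDeg (𝓞 F) = 1 := (Nat.eq_one_of_mul_eq_one_left h1.symm)
  have h4 := absNorm_eq_pow_inertiaDeg'_of_liesOver P w.asIdeal w.isPrime w.ne_bot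
  have hPmax : P.IsMaximal := by
    have hne : P ≠ ⊥ := by
      rintro rfl
      have h5 : w.asIdeal = ⊥ := by
        rw [Ideal.over_def (⊥ : Ideal (𝓞 E)) w.asIdeal]
        exact Ideal.comap_bot_of_injective _ (FaithfulSMul.algebraMap_injective (𝓞 F) (𝓞 E))
      exact w.ne_bot h5
    exact Ideal.IsPrime.isMaximal inferInstance hne
  rw [h4, inertiaDeg'_eq_inertiaDeg, h3, pow_one]

theorem sum_le_of_split (Ω : Set (HeightOneSpectrum (𝓞 F)))
    (hΩ : ∀ w ∈ Ω, ∃ P : HeightOneSpectrum (𝓞 E), P.asIdeal.LiesOver w.asIdeal ∧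
      ∀ g : Gal(E/F), g • P.asIdeal = P.asIdeal → g = 1)
    {s : ℝ} (hs : 1 < s) :
    (Nat.card Gal(E/F) : ℝ) * ∑' w : Ω, xw F s w ≤ ∑' P, xw E s P := by
  classical
  choose P hPl hP using fun w : Ω => hΩ w w.2
  have hprime : ∀ (g : Gal(E/F)) (w : Ω), (g • (P w).asIdeal).IsPrime := by
    intro g w
    have := (P w).isPrime
    infer_instance
  let e : Gal(E/F) × Ω → HeightOneSpectrum (𝓞 E) := fun p =>
    ⟨p.1 • (P p.2).asIdeal, hprime _ _, by
      intro h
      apply (P p.2).ne_bot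
      have h1 := congrArg (fun I => p.1⁻¹ • I) h
      simpa using h1⟩
  have hlies : ∀ (g : Gal(E/F)) (w : Ω), (g • (P w).asIdeal).LiesOver w.1.asIdeal := by
    intro g w
    have := hPl w
    infer_instance
  have hval : ∀ p : Gal(E/F) × Ω, xw E s (e p) = xw F s p.2 := by
    intro p
    have h1 := hprime p.1 p.2
    have h2 := hlies p.1 p.2
    have h3 := absNorm_eq_of_stab (E := E) p.2.1 (p.1 • (P p.2).asIdeal) (by
      intro g hg
      have h4 : (p.1⁻¹ * g * p.1) • (P p.2).asIdeal = (P p.2).asIdeal := by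
        rw [mul_smul, mul_smul, hg, inv_smul_smul]
      have h5 := hP p.2 _ h4
      have h6 : g = p.1 * (p.1⁻¹ * g * p.1) * p.1⁻¹ := by group
      rw [h6, h5]; group)
    simp only [xw, e, h3]
  have hinj : Function.Injective e := by
    rintro ⟨g, w⟩ ⟨g', w'⟩ h
    have h1 : g • (P w).asIdeal = g' • (P w').asIdeal := congrArg HeightOneSpectrum.asIdeal h
    have h2 : w = w' := by
      apply Subtype.ext
      apply HeightOneSpectrum.ext
      rw [(hlies g w).over, (hlies g' w').over, h1]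
    subst h2
    have h3 : (g'⁻¹ * g) • (P w).asIdeal = (P w).asIdeal := by
      rw [mul_smul, h1, inv_smul_smul]
    have h4 := hP w _ h3
    rw [inv_mul_eq_one] at h4
    rw [h4]
  have hsumF := summable_xw F hs
  have hsumE := summable_xw E hs
  have h7 : Summable fun p : Gal(E/F) × Ω => xw F s p.2 := by
    refine (hsumE.comp_injective hinj).congr fun p => ?_
    exact hval p
  have h8 : ∑' p : Gal(E/F) × Ω, xw F s p.2 = (Nat.card Gal(E/F) : ℝ) * ∑' w : Ω, xw F s w := by
    rw [h7.tsum_prod' (fun g => (hsumF.comp_injective Subtype.val_injective))]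
    change ∑' _ : Gal(E/F), ∑' w : Ω, xw F s w = _
    rw [tsum_const, nsmul_eq_mul]
  rw [← h8]
  calc ∑' p : Gal(E/F) × Ω, xw F s p.2 = ∑' p : Gal(E/F) × Ω, xw E s (e p) :=
        tsum_congr fun p => (hval p).symm
    _ ≤ ∑' Q, xw E s Q := by
        refine Summable.tsum_le_tsum_of_inj e hinj (fun c _ => xw_nonneg E s c) (fun p => le_rfl)
          (hsumE.comp_injective hinj) hsumE

end split

theorem tendsto_log : Tendsto (fun s : ℝ => Real.log (1 / (s - 1))) (𝓝[>] 1) atTop := by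
  have h1 : Tendsto (fun s : ℝ => s - 1) (𝓝[>] 1) (𝓝[>] 0) := by
    refine tendsto_nhdsWithin_iff.mpr ⟨?_, ?_⟩
    · have : Tendsto (fun s : ℝ => s - 1) (𝓝 1) (𝓝 (1 - 1)) := tendsto_id.sub_const 1
      rw [sub_self] at this
      exact this.mono_left nhdsWithin_le_nhds
    · filter_upwards [self_mem_nhdsWithin] with s hs
      exact sub_pos.mpr (Set.mem_Ioi.mp hs)
  have h2 : Tendsto (fun s : ℝ => (s - 1)⁻¹) (𝓝[>] 1) atTop := tendsto_inv_nhdsGT_zero.comp h1
  have h3 := Real.tendsto_log_atTop.comp h2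
  refine h3.congr fun s => ?_
  simp [one_div]

theorem density_main (F : Type*) [Field F] [NumberField F] {J : Type*} [Fintype J] (d : J → ℕ)
    (hd : ∀ j, 0 < d j) (Ω : J → Set (HeightOneSpectrum (𝓞 F)))
    (hΩ : ∀ j, ∃ C : ℝ, ∀ᶠ s : ℝ in 𝓝[>] 1,
      (d j : ℝ) * ∑' w : Ω j, xw F s w ≤ Real.log (1 / (s - 1)) + C)
    (T : Finset (HeightOneSpectrum (𝓞 F))) (hT : ∀ w ∉ T, ∃ j, w ∈ Ω j) :
    1 ≤ ∑ j, (1 / (d j : ℝ)) := by
  classical
  by_contra hcon
  push Not at hcon
  choose C hC using hΩ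
  obtain ⟨C0, hC0⟩ := primeSum_asymp F
  set δ := 1 - ∑ j, (1 / (d j : ℝ)) with hδ
  have hδ0 : 0 < δ := by linarith
  have hev := (tendsto_log.eventually_gt_atTop ((T.card + ∑ j, (1 / (d j : ℝ)) * C j + C0) / δ))
  have hall : ∀ᶠ s : ℝ in 𝓝[>] 1, ∀ j, (d j : ℝ) * ∑' w : Ω j, xw F s w ≤
      Real.log (1 / (s - 1)) + C j := eventually_all.mpr hC
  obtain ⟨s, hs1, hs2, hs3, hs⟩ := (hev.and (hall.and (hC0.and self_mem_nhdsWithin))).exists
  have hs' : (1 : ℝ) < s := hs
  have hsum := summable_xw F hs'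
  have hb : ∑' w, xw F s w ≤ T.card + ∑ j, ∑' w : Ω j, xw F s w := by
    have h1 : ∀ w, xw F s w ≤ Set.indicator (T : Set (HeightOneSpectrum (𝓞 F))) (fun _ => (1 : ℝ)) w +
        ∑ j, Set.indicator (Ω j) (xw F s) w := by
      intro w
      have hnn : ∀ j, 0 ≤ Set.indicator (Ω j) (xw F s) w := fun j =>
        Set.indicator_nonneg (fun _ _ => xw_nonneg F s _) w
      by_cases hw : w ∈ T
      · rw [Set.indicator_of_mem (by exact_mod_cast hw)]
        have := xw_le_one F (by linarith : (0 : ℝ) ≤ s) w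
        have h2 : 0 ≤ ∑ j, Set.indicator (Ω j) (xw F s) w := Finset.sum_nonneg fun j _ => hnn j
        linarith
      · obtain ⟨j, hj⟩ := hT w hw
        rw [Set.indicator_of_notMem (by exact_mod_cast hw), zero_add]
        have h2 := Finset.single_le_sum (f := fun j => Set.indicator (Ω j) (xw F s) w)
          (fun j _ => hnn j) (Finset.mem_univ j)
        simp only [Set.indicator_of_mem hj] at h2
        exact h2
    have h2 : Summable (Set.indicator (T : Set (HeightOneSpectrum (𝓞 F))) (fun _ => (1 : ℝ))) :=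
      summable_of_hasFiniteSupport (T.finite_toSet.subset (by
        intro w hw
        by_contra hn
        exact hw (Set.indicator_of_notMem hn _)))
    have h3 : ∀ j ∈ Finset.univ, Summable (Set.indicator (Ω j) (xw F s)) := fun j _ => hsum.indicator _
    have h4 := Summable.tsum_le_tsum h1 hsum (h2.add (summable_sum h3))
    rw [Summable.tsum_add h2 (summable_sum h3), Summable.tsum_finsetSum h3] at h4
    have h5 : ∑' w, Set.indicator (T : Set (HeightOneSpectrum (𝓞 F))) (fun _ => (1 : ℝ)) w = T.card := by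
      rw [← tsum_subtype]
      rw [tsum_const]
      simp
    rw [h5] at h4
    refine h4.trans (le_of_eq ?_)
    congr 1
    exact Finset.sum_congr rfl fun j _ => (tsum_subtype (Ω j) (xw F s)).symm
  have h6 : ∀ j, ∑' w : Ω j, xw F s w ≤ (1 / (d j : ℝ)) * (Real.log (1 / (s - 1)) + C j) := by
    intro j
    have h7 : (0 : ℝ) < d j := by exact_mod_cast hd j
    rw [one_div, ← div_eq_inv_mul, le_div_iff₀ h7, mul_comm]
    exact hs2 j
  have h8 : ∑' w, xw F s w ≤ T.card + ∑ j, (1 / (d j : ℝ)) * (Real.log (1 / (s - 1)) + C j) :=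
    hb.trans (by gcongr with j _; exact h6 j)
  have h9 := (abs_le.mp hs3).1
  simp only [mul_add, Finset.sum_add_distrib, ← Finset.sum_mul] at h8
  rw [div_lt_iff₀ hδ0] at hs1
  have h10 : Real.log (1 / (s - 1)) * δ = Real.log (1 / (s - 1)) -
      (∑ j, (1 / (d j : ℝ))) * Real.log (1 / (s - 1)) := by rw [hδ]; ring
  linarith

end Pool.Agent.Lib.MP_2f3286_ag
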