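import Mathlib
import Pool.Agent.Lib.MP_2f3286_ag.Split
import Pool.Agent.Lib.MP_2f3286_ag.Cls

open NumberField IsDedekindDomain Filter Topology Ideal Polynomial
open scoped Pointwise

namespace Pool.Agent.Lib.MP_2f3286_ag

/-- a root of unity congruent to `1` modulo a prime not dividing `N` is `1` -/
theorem eq_one_of_mem {A : Type*} [CommRing A] [IsDomain A] {N : ℕ} {ξ : A} (hξ : ξ ^ N = 1)
    (p : Ideal A) (hN : (N : A) ∉ p) (h : ξ - 1 ∈ p) : ξ = 1 := by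
  by_contra hne
  apply hN
  have h1 : (∑ i ∈ Finset.range N, ξ ^ i) = 0 := by
    have := geom_sum_mul ξ N
    rw [hξ, sub_self] at this
    exact (mul_eq_zero.mp this).resolve_right (sub_ne_zero.mpr hne)
  have h2 : (N : A) = - ∑ i ∈ Finset.range N, (ξ ^ i - 1) := by
    rw [Finset.sum_sub_distrib, h1]; simp
  rw [h2]
  refine neg_mem (Ideal.sum_mem _ fun i _ => ?_)
  obtain ⟨c, hc⟩ := sub_dvd_pow_sub_pow ξ 1 i
  rw [one_pow] at hc
  rw [hc]
  exact Ideal.mul_mem_right _ _ h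

theorem stab_trivial {F E : Type*} [Field F] [NumberField F] [Field E] [NumberField E]
    [Algebra F E] {N : ℕ} (hN : 0 < N) {ζ : F} (hζ : IsPrimitiveRoot ζ N) (x : 𝓞 F) {α : E}
    (hα : α ^ N = algebraMap F E x) (hgen : ∀ g : Gal(E/F), g α = α → g = 1)
    (w : HeightOneSpectrum (𝓞 F)) (P : HeightOneSpectrum (𝓞 E)) [P.asIdeal.LiesOver w.asIdeal]
    (hxw : x ∉ w.asIdeal) (hNw : (N : 𝓞 F) ∉ w.asIdeal) (r : 𝓞 F) (hr : r ^ N - x ∈ w.asIdeal)
    (g : Gal(E/F)) (hg : g • P.asIdeal = P.asIdeal) : g = 1 := by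
  have hPprime := P.isPrime
  have : NeZero N := ⟨hN.ne'⟩
  have hsm : ∀ z : 𝓞 E, ((g • z : 𝓞 E) : E) = g (z : E) := fun z => rfl
  have halg : ∀ y : 𝓞 F, ((algebraMap (𝓞 F) (𝓞 E) y : 𝓞 E) : E) = algebraMap F E y := fun y => rfl
  have hsa : ∀ y : 𝓞 F, g • (algebraMap (𝓞 F) (𝓞 E) y) = algebraMap (𝓞 F) (𝓞 E) y := by
    intro y
    apply RingOfIntegers.ext
    rw [hsm, halg, AlgEquiv.commutes]
  have hζi : ζ ^ N = 1 := hζ.pow_eq_one
  have hmem : ∀ y : 𝓞 F, algebraMap (𝓞 F) (𝓞 E) y ∈ P.asIdeal ↔ y ∈ w.asIdeal := by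
    intro y
    rw [Ideal.mem_of_liesOver P.asIdeal w.asIdeal]
  -- integral versions
  obtain ⟨ζ', hζ'⟩ : ∃ ζ' : 𝓞 F, (ζ' : F) = ζ := by
    refine ⟨⟨ζ, ?_⟩, rfl⟩
    exact ⟨X ^ N - 1, monic_X_pow_sub_C 1 hN.ne', by simp [hζi]⟩
  obtain ⟨α', hα'⟩ : ∃ α' : 𝓞 E, (α' : E) = α := by
    refine ⟨⟨α, ?_⟩, rfl⟩
    have h1 : IsIntegral ℤ (α ^ N) := by
      rw [hα]
      have h2 : algebraMap F E (x : F) = algebraMap (𝓞 E) E (algebraMap (𝓞 F) (𝓞 E) x) := rfl
      rw [h2]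
      exact RingOfIntegers.isIntegral_coe _
    exact h1.of_pow hN
  have hpow : α' ^ N = algebraMap (𝓞 F) (𝓞 E) x := by
    apply RingOfIntegers.ext
    rw [halg, ← hα, ← hα']
    rfl
  have hζp : IsPrimitiveRoot ζ' N := by
    apply IsPrimitiveRoot.of_map_of_injective (f := algebraMap (𝓞 F) F) _ RingOfIntegers.coe_injective
    change IsPrimitiveRoot (ζ' : F) N
    rw [hζ']; exact hζ
  have hζE : IsPrimitiveRoot (algebraMap (𝓞 F) (𝓞 E) ζ') N :=
    hζp.map_of_injective (FaithfulSMul.algebraMap_injective (𝓞 F) (𝓞 E))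
  -- a factor
  obtain ⟨j, hj⟩ : ∃ ξ : 𝓞 F, ξ ^ N = 1 ∧ α' - algebraMap (𝓞 F) (𝓞 E) (ξ * r) ∈ P.asIdeal := by
    have h1 : α' ^ N - (algebraMap (𝓞 F) (𝓞 E) r) ^ N ∈ P.asIdeal := by
      rw [hpow, ← map_pow, ← map_sub, hmem]
      rw [← neg_sub]; exact neg_mem hr
    rw [hζE.pow_sub_pow_eq_prod_sub_mul _ _ hN] at h1
    obtain ⟨ξ, hξ, hmem'⟩ := (Ideal.IsPrime.prod_mem_iff).mp h1
    rw [mem_nthRootsFinset hN] at hξ
    obtain ⟨i, -, hi⟩ := hζE.eq_pow_of_pow_eq_one hξ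
    refine ⟨ζ' ^ i, ?_, ?_⟩
    · rw [← pow_mul, mul_comm, pow_mul, hζp.pow_eq_one, one_pow]
    · rw [map_mul, map_pow, hi]; exact hmem'
  have hgα : g • α' - α' ∈ P.asIdeal := by
    have h1 : g • (α' - algebraMap (𝓞 F) (𝓞 E) (j * r)) ∈ P.asIdeal := by
      rw [← hg]
      exact Ideal.smul_mem_pointwise_smul g _ _ hj.2
    rw [smul_sub, hsa] at h1
    have h2 := sub_mem h1 hj.2
    have h3 : g • α' - algebraMap (𝓞 F) (𝓞 E) (j * r) - (α' - algebraMap (𝓞 F) (𝓞 E) (j * r)) =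
      g • α' - α' := by ring
    rwa [h3] at h2
  -- g α' = ξ α'
  have hα0 : α' ∉ P.asIdeal := by
    intro h
    have h1 : α' ^ N ∈ P.asIdeal := Ideal.pow_mem_of_mem _ h N hN
    rw [hpow, hmem] at h1
    exact hxw h1
  have hα0' : α' ≠ 0 := by rintro rfl; exact hα0 (zero_mem _)
  have hgN : (g • α') ^ N = α' ^ N := by
    rw [← smul_pow', hpow, hsa]
  obtain ⟨ξ, hξ, hgξ⟩ : ∃ ξ : 𝓞 F, ξ ^ N = 1 ∧ g • α' = algebraMap (𝓞 F) (𝓞 E) ξ * α' := by
    have h1 : (g • α') ^ N - α' ^ N = 0 := sub_eq_zero.mpr hgN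
    rw [hζE.pow_sub_pow_eq_prod_sub_mul _ _ hN, Finset.prod_eq_zero_iff] at h1
    obtain ⟨ξ, hξ, h2⟩ := h1
    rw [mem_nthRootsFinset hN] at hξ
    obtain ⟨i, -, hi⟩ := hζE.eq_pow_of_pow_eq_one hξ
    refine ⟨ζ' ^ i, ?_, ?_⟩
    · rw [← pow_mul, mul_comm, pow_mul, hζp.pow_eq_one, one_pow]
    · rw [map_pow, hi]; exact sub_eq_zero.mp h2
  have h1 : ξ - 1 ∈ w.asIdeal := by
    rw [hgξ] at hgα
    have h2 : algebraMap (𝓞 F) (𝓞 E) ξ * α' - α' = algebraMap (𝓞 F) (𝓞 E) (ξ - 1) * α' := by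
      rw [map_sub, map_one]; ring
    rw [h2] at hgα
    rcases hPprime.mem_or_mem hgα with h | h
    · rwa [hmem] at h
    · exact absurd h hα0
  have h2 := eq_one_of_mem hξ w.asIdeal hNw h1
  apply hgen
  rw [h2, map_one, one_mul] at hgξ
  rw [← hα', ← hsm, hgξ]


theorem exists_prime_over {F E : Type*} [Field F] [NumberField F] [Field E] [NumberField E]
    [Algebra F E] (w : HeightOneSpectrum (𝓞 F)) :
    ∃ P : HeightOneSpectrum (𝓞 E), P.asIdeal.LiesOver w.asIdeal := by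
  have hmax := w.isMaximal
  obtain ⟨P, hP, hPw⟩ := Ideal.exists_maximal_ideal_liesOver_of_isIntegral (S := 𝓞 E) w.asIdeal
  exact ⟨⟨P, hP.isPrime, Ideal.ne_bot_of_liesOver_of_ne_bot w.ne_bot P⟩, hPw⟩

theorem kummer_split {F : Type*} [Field F] [NumberField F] {N : ℕ} (hN : 0 < N) {ζ : F}
    (hζ : IsPrimitiveRoot ζ N) (x : 𝓞 F) (hx : x ≠ 0) :
    ∃ d : ℕ, 0 < d ∧ (∃ y : F, y ^ N = (x : F) ^ d) ∧ ∃ C : ℝ, ∀ᶠ s : ℝ in 𝓝[>] 1,
      (d : ℝ) * ∑' w : {w : HeightOneSpectrum (𝓞 F) | x ∉ w.asIdeal ∧ (N : 𝓞 F) ∉ w.asIdeal ∧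
        ∃ r : 𝓞 F, r ^ N - x ∈ w.asIdeal}, xw F s w ≤ Real.log (1 / (s - 1)) + C := by
  classical
  have : NeZero N := ⟨hN.ne'⟩
  let f : F[X] := X ^ N - C (x : F)
  let E := f.SplittingField
  have : NumberField E := NumberField.of_module_finite F E
  have hnorm : Normal F E := Normal.of_isSplittingField f
  have hgal : IsGalois F E := ⟨⟩
  have hx0 : (x : F) ≠ 0 := by
    intro h; exact hx (RingOfIntegers.ext h)
  have hdeg : f.degree = N := degree_X_pow_sub_C hN _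
  have hsplit := SplittingField.splits f
  obtain ⟨α, hα⟩ : ∃ α : E, α ^ N = algebraMap F E x := by
    obtain ⟨α, hα⟩ := hsplit.exists_eval_eq_zero (by
      rw [degree_map, hdeg]
      exact_mod_cast hN.ne')
    refine ⟨α, ?_⟩
    rw [eval_map, ← aeval_def] at hα
    simpa [f, sub_eq_zero] using hα
  have hα0 : α ≠ 0 := by
    rintro rfl
    rw [zero_pow hN.ne'] at hα
    exact hx0 ((map_eq_zero _).mp hα.symm)
  have hζE : IsPrimitiveRoot (algebraMap F E ζ) N := hζ.map_of_injective (algebraMap F E).injective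
  have hroot : ∀ β : E, β ^ N = algebraMap F E x → ∃ ξ : F, ξ ^ N = 1 ∧ β = algebraMap F E ξ * α := by
    intro β hβ
    have h1 : (β / α) ^ N = 1 := by
      rw [div_pow, hβ, hα, div_self]
      rw [_root_.map_ne_zero]; exact hx0
    obtain ⟨i, -, hi⟩ := hζE.eq_pow_of_pow_eq_one h1
    refine ⟨ζ ^ i, ?_, ?_⟩
    · rw [← pow_mul, mul_comm, pow_mul, hζ.pow_eq_one, one_pow]
    · rw [map_pow, hi, div_mul_cancel₀ _ hα0]
  have hgen : ∀ g : Gal(E/F), g α = α → g = 1 := by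
    intro g hg
    have hadj := IsSplittingField.adjoin_rootSet E f
    have h1 : (g : E →ₐ[F] E) = (AlgEquiv.refl : Gal(E/F)) := by
      refine AlgHom.ext_of_adjoin_eq_top hadj ?_
      intro β hβ
      have h2 := (mem_rootSet.mp hβ).2
      have h3 : β ^ N = algebraMap F E x := by simpa [f, sub_eq_zero] using h2
      obtain ⟨ξ, -, rfl⟩ := hroot β h3
      change g _ = _
      rw [map_mul, AlgEquiv.commutes, hg]
      rfl
    ext z
    exact DFunLike.congr_fun h1 z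
  refine ⟨Nat.card Gal(E/F), Nat.card_pos, ?_, ?_⟩
  · have h1 : ∀ g : Gal(E/F), ∃ ξ : F, ξ ^ N = 1 ∧ g α = algebraMap F E ξ * α := by
      intro g
      apply hroot
      rw [← map_pow, hα, AlgEquiv.commutes]
    choose ξ hξ hgξ using h1
    have h2 := Algebra.norm_eq_prod_automorphisms F α
    have h3 : ∏ g : Gal(E/F), g α = algebraMap F E (∏ g, ξ g) * α ^ Nat.card Gal(E/F) := by
      rw [Finset.prod_congr rfl (fun g _ => hgξ g), Finset.prod_mul_distrib, Finset.prod_const,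
        map_prod, Finset.card_univ, Nat.card_eq_fintype_card]
    have h4 : ∏ g, ξ g ≠ 0 := by
      rw [Finset.prod_ne_zero_iff]
      intro g _ h
      have := hξ g
      rw [h, zero_pow hN.ne'] at this
      exact zero_ne_one this
    refine ⟨Algebra.norm F α / ∏ g, ξ g, ?_⟩
    apply (algebraMap F E).injective
    rw [map_pow, map_div₀, h2, h3, mul_div_cancel_left₀, ← pow_mul, mul_comm, pow_mul, hα, map_pow]
    rw [_root_.map_ne_zero]; exact h4
  · obtain ⟨C, hC⟩ := primeSum_asymp E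
    refine ⟨C, ?_⟩
    filter_upwards [hC, self_mem_nhdsWithin] with s hs1 hs
    refine (sum_le_of_split (E := E) _ ?_ hs).trans ?_
    · rintro w ⟨hxw, hNw, r, hr⟩
      obtain ⟨P, hP⟩ := exists_prime_over (E := E) w
      exact ⟨P, hP, fun g hg => stab_trivial hN hζ x hα hgen w P hxw hNw r hr g hg⟩
    · have := (abs_le.mp hs1).2
      linarith

/-- Kummer theoretic local-global principle with several classes. -/
theorem exists_small_order {F : Type*} [Field F] [NumberField F] {N : ℕ} (hN : 0 < N) {ζ : F}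
    (hζ : IsPrimitiveRoot ζ N) {J : Type*} [Fintype J] (x : J → 𝓞 F) (hx : ∀ j, x j ≠ 0)
    (T : Finset (HeightOneSpectrum (𝓞 F)))
    (h : ∀ w ∉ T, ∃ j, ∃ r : 𝓞 F, r ^ N - x j ∈ w.asIdeal) :
    ∃ j, ∃ d, 1 ≤ d ∧ d ≤ Fintype.card J ∧ ∃ y : F, y ^ N = (x j : F) ^ d := by
  classical
  choose d hd hy C hC using fun j => kummer_split hN hζ (x j) (hx j)
  have hfin : ∀ a : 𝓞 F, a ≠ 0 → {w : HeightOneSpectrum (𝓞 F) | a ∈ w.asIdeal}.Finite := by
    intro a ha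
    have ha0 : (a : F) ≠ 0 := by
      intro h; exact ha (RingOfIntegers.ext h)
    refine (finite_val_ne_one (k := F) (a := (a : F)) ha0).subset ?_
    intro w hw
    simp only [Set.mem_ofPred_eq] at hw ⊢
    intro h1
    exact (HeightOneSpectrum.valuation_eq_one_iff_notMem (K := F) w).mp h1 hw
  have hN0 : (N : 𝓞 F) ≠ 0 := by exact_mod_cast hN.ne'
  let T' : Finset (HeightOneSpectrum (𝓞 F)) := T ∪ (hfin _ hN0).toFinset ∪
    Finset.univ.biUnion fun j => (hfin _ (hx j)).toFinset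
  have hmain := density_main F d hd _ (fun j => ⟨C j, hC j⟩) T' (by
    intro w hw
    simp only [T', Finset.mem_union, Set.Finite.mem_toFinset, Set.mem_ofPred_eq, Finset.mem_biUnion,
      Finset.mem_univ, true_and, not_or, not_exists] at hw
    obtain ⟨⟨h1, h2⟩, h3⟩ := hw
    obtain ⟨j, r, hr⟩ := h w h1
    exact ⟨j, h3 j, h2, r, hr⟩)
  obtain ⟨j, hj⟩ : ∃ j, d j ≤ Fintype.card J := by
    by_contra hcon
    push Not at hcon
    rcases isEmpty_or_nonempty J with hJ | hJ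
    · simp at hmain
      linarith
    have h1 : ∑ j, (1 / (d j : ℝ)) < ∑ _j : J, (1 / (Fintype.card J : ℝ)) := by
      refine Finset.sum_lt_sum_of_nonempty Finset.univ_nonempty fun j _ => ?_
      apply one_div_lt_one_div_of_lt
      · exact_mod_cast Fintype.card_pos
      · exact_mod_cast hcon j
    rw [Finset.sum_const, Finset.card_univ, nsmul_eq_mul, mul_one_div_cancel] at h1
    · linarith
    · exact_mod_cast Fintype.card_ne_zero
  exact ⟨j, d j, hd j, hj, hy j⟩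

end Pool.Agent.Lib.MP_2f3286_ag
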