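import Mathlib

open NumberField Polynomial

namespace Pool.Agent.Lib.MP_2f3286_ag

/-- Sah's argument in a cyclotomic extension. -/
theorem sah_step {L F : Type*} [Field L] [Field F] [Algebra L F] [IsGalois L F]
    [FiniteDimensional L F] {N : ℕ} (hN : 0 < N)
    [IsCyclotomicExtension {N} L F] {ζ : F} (hζ : IsPrimitiveRoot ζ N) {x : L} (hx : x ≠ 0) {y : F}
    (hy : y ^ N = algebraMap L F x) {c : ℕ} (σ : Gal(F/L)) (hσ : σ ζ = ζ ^ c) :
    ∃ l : L, x ^ c = x * l ^ N := by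
  have : NeZero N := ⟨hN.ne'⟩
  have hy0 : y ≠ 0 := by
    rintro rfl
    rw [zero_pow hN.ne'] at hy
    exact hx ((map_eq_zero _).mp hy.symm)
  have hη : ∀ τ : Gal(F/L), ∃ i : ℕ, τ y = ζ ^ i * y := by
    intro τ
    have h1 : (τ y / y) ^ N = 1 := by
      rw [div_pow, ← map_pow, hy, AlgEquiv.commutes, div_self]
      rw [_root_.map_ne_zero]; exact hx
    obtain ⟨i, -, hi⟩ := hζ.eq_pow_of_pow_eq_one h1
    exact ⟨i, by rw [hi, div_mul_cancel₀ _ hy0]⟩
  have hcomm : ∀ τ : Gal(F/L), τ * σ = σ * τ := by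
    intro τ
    apply hζ.autToPow_injective (K := L)
    rw [map_mul, map_mul, mul_comm]
  have hfix : ∀ τ : Gal(F/L), τ (y ^ c / σ y) = y ^ c / σ y := by
    intro τ
    obtain ⟨i, hi⟩ := hη τ
    have h2 : τ (σ y) = ζ ^ (c * i) * σ y := by
      have h3 := DFunLike.congr_fun (hcomm τ) y
      rw [AlgEquiv.mul_apply, AlgEquiv.mul_apply] at h3
      rw [h3, hi, map_mul, map_pow, hσ, ← pow_mul]
    have h4 : ζ ^ (c * i) ≠ 0 := pow_ne_zero _ (hζ.ne_zero hN.ne')
    rw [map_div₀, map_pow, hi, h2, mul_pow, ← pow_mul, mul_comm i c, mul_div_mul_left _ _ h4]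
  obtain ⟨l, hl⟩ : ∃ l : L, algebraMap L F l = y ^ c / σ y := by
    have h5 : y ^ c / σ y ∈ (⊥ : IntermediateField L F) := by
      rw [IsGalois.mem_bot_iff_fixed]; exact hfix
    exact IntermediateField.mem_bot.mp h5
  refine ⟨l, ?_⟩
  apply (algebraMap L F).injective
  have h6 : σ y ≠ 0 := by rw [_root_.map_ne_zero]; exact hy0
  have h7 : (σ y) ^ N = algebraMap L F x := by rw [← map_pow, hy, AlgEquiv.commutes]
  rw [map_mul, map_pow, map_pow, hl, div_pow, h7, ← hy]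
  have h8 : y ^ N ≠ 0 := pow_ne_zero _ hy0
  field_simp
  rw [← pow_mul, ← pow_mul, mul_comm]

/-- the cyclotomic character has index at most `[L : ℚ]` -/
theorem exists_aut (L : Type*) [Field L] [NumberField L] {N : ℕ} (hN : 0 < N) {ζ : CyclotomicField N L}
    (hζ : IsPrimitiveRoot ζ N) {u : ℕ} (hu : u.Coprime N) :
    ∃ σ : Gal(CyclotomicField N L/L), σ ζ = ζ ^ (u ^ (Module.finrank ℚ L).factorial) := by
  have : NeZero N := ⟨hN.ne'⟩
  have hgal : IsGalois L (CyclotomicField N L) := IsCyclotomicExtension.isGalois {N} L _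
  set D := Module.finrank ℚ L with hD
  have hinj := hζ.autToPow_injective (K := L)
  set H := (hζ.autToPow L).range with hH
  have hcard : Nat.card H = Module.finrank L (CyclotomicField N L) := by
    rw [hH, ← Nat.card_congr (MonoidHom.ofInjective hinj).toEquiv, IsGalois.card_aut_eq_finrank]
  have hφ : N.totient ≤ D * Module.finrank L (CyclotomicField N L) := by
    rw [hD, Module.finrank_mul_finrank]
    have h1 := minpoly.natDegree_le (A := ℚ) ζ
    rw [← cyclotomic_eq_minpoly_rat hζ hN, natDegree_cyclotomic] at h1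
    exact h1
  have hidx : H.index ≤ D := by
    have h2 := H.index_mul_card
    rw [Nat.card_eq_fintype_card (α := (ZMod N)ˣ), ZMod.card_units_eq_totient, hcard] at h2
    rw [← h2] at hφ
    exact Nat.le_of_mul_le_mul_right hφ Module.finrank_pos
  have hidx0 : 0 < H.index := Nat.pos_of_ne_zero H.index_ne_zero_of_finite
  obtain ⟨q, hq⟩ := Nat.dvd_factorial hidx0 hidx
  have hmem : (ZMod.unitOfCoprime u hu) ^ D.factorial ∈ H := by
    rw [hq, pow_mul]
    exact pow_mem (H.pow_index_mem _) q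
  obtain ⟨σ, hσ⟩ := hmem
  refine ⟨σ, ?_⟩
  rw [← hζ.autToPow_spec L σ, hσ, Units.val_pow_eq_pow_val, ZMod.coe_unitOfCoprime, ← Nat.cast_pow]
  rw [ZMod.val_natCast]
  conv_rhs => rw [← Nat.div_add_mod (u ^ D.factorial) N, pow_add, pow_mul, hζ.pow_eq_one, one_pow,
    one_mul]

/-- exponent killing the kernel -/
noncomputable def sahExp (L : Type*) [Field L] [NumberField L] : ℕ :=
  (3 ^ (Module.finrank ℚ L).factorial - 1) * (2 ^ (Module.finrank ℚ L).factorial - 1)

theorem sahExp_pos (L : Type*) [Field L] [NumberField L] : 0 < sahExp L := by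
  have h := Nat.factorial_pos (Module.finrank ℚ L)
  apply Nat.mul_pos
  · have : 3 ^ 1 ≤ 3 ^ (Module.finrank ℚ L).factorial := Nat.pow_le_pow_right (by norm_num) h
    omega
  · have : 2 ^ 1 ≤ 2 ^ (Module.finrank ℚ L).factorial := Nat.pow_le_pow_right (by norm_num) h
    omega

theorem modEq_sub_one {a b n : ℕ} (ha : 1 ≤ a) (hb : 1 ≤ b) (h : a ≡ b [MOD n]) :
    a - 1 ≡ b - 1 [MOD n] := by
  apply Nat.ModEq.add_right_cancel' 1
  rwa [Nat.sub_add_cancel ha, Nat.sub_add_cancel hb]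

theorem sah (L : Type*) [Field L] [NumberField L] {N : ℕ} (hN : 0 < N) (x : Lˣ)
    (y : CyclotomicField N L) (hy : y ^ N = algebraMap L _ (x : L)) :
    ∃ l : Lˣ, x ^ sahExp L = l ^ N := by
  have : NeZero N := ⟨hN.ne'⟩
  have hgal : IsGalois L (CyclotomicField N L) := IsCyclotomicExtension.isGalois {N} L _
  have hζ := IsCyclotomicExtension.zeta_spec N L (CyclotomicField N L)
  set ζ := IsCyclotomicExtension.zeta N L (CyclotomicField N L)
  obtain ⟨a, n, hn, rfl⟩ := Nat.exists_eq_two_pow_mul_odd hN.ne'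
  have hco : (2 ^ a).Coprime n := Nat.Coprime.pow_left _ (Nat.coprime_two_left.mpr hn)
  set e := (Module.finrank ℚ L).factorial with he
  obtain ⟨u, hu0, hu1, hu2⟩ : ∃ u : ℕ, 1 ≤ u ∧ u ≡ 3 [MOD 2 ^ a] ∧ u ≡ 2 [MOD n] := by
    obtain ⟨u, hu1, hu2⟩ := Nat.chineseRemainder hco 3 2
    refine ⟨u + 2 ^ a * n, by omega, ?_, ?_⟩
    · rw [Nat.ModEq, Nat.add_mul_mod_self_left]; exact hu1
    · rw [Nat.ModEq, Nat.add_mul_mod_self_right]; exact hu2
  have hu : u.Coprime (2 ^ a * n) := by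
    apply Nat.Coprime.mul_right
    · have := hu1.gcd_eq
      rw [Nat.Coprime, this]
      exact Nat.Coprime.pow_right _ (by norm_num)
    · have := hu2.gcd_eq
      rw [Nat.Coprime, this]
      exact Nat.coprime_two_left.mpr hn
  obtain ⟨σ, hσ⟩ := exists_aut L hN hζ hu
  obtain ⟨l, hl⟩ := sah_step hN hζ x.ne_zero hy σ hσ
  have hl0 : l ≠ 0 := by
    rintro rfl
    rw [zero_pow hN.ne', mul_zero] at hl
    exact pow_ne_zero _ x.ne_zero hl
  have hue : 1 ≤ u ^ e := Nat.one_le_pow _ _ hu0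
  have h3e : 1 ≤ 3 ^ e := Nat.one_le_pow _ _ (by norm_num)
  have h2e : 1 ≤ 2 ^ e := Nat.one_le_pow _ _ (by norm_num)
  have hl' : x ^ (u ^ e - 1) = (Units.mk0 l hl0) ^ (2 ^ a * n) := by
    apply mul_left_cancel (a := x)
    rw [← pow_succ', Nat.sub_add_cancel hue]
    ext
    simpa using hl
  obtain ⟨A, hA1, hA2⟩ := Nat.chineseRemainder hco (2 ^ e - 1) (3 ^ e - 1)
  have hmod : sahExp L ≡ A * (u ^ e - 1) [MOD 2 ^ a * n] := by
    rw [← Nat.modEq_and_modEq_iff_modEq_mul hco]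
    constructor
    · have h1 := hA1.mul (modEq_sub_one hue h3e (hu1.pow e))
      rw [mul_comm (2 ^ e - 1)] at h1
      exact h1.symm
    · have h1 := hA2.mul (modEq_sub_one hue h2e (hu2.pow e))
      exact h1.symm
  obtain ⟨t, ht⟩ := (Nat.modEq_iff_dvd.mp hmod.symm)
  refine ⟨(Units.mk0 l hl0) ^ A * x ^ t, ?_⟩
  have h5 : (sahExp L : ℤ) = ((A * (u ^ e - 1) : ℕ) : ℤ) + ((2 ^ a * n : ℕ) : ℤ) * t := by
    rw [← ht]; ring
  rw [← zpow_natCast x (sahExp L), h5, zpow_add, zpow_natCast, mul_comm A, pow_mul, hl', zpow_mul,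
    mul_pow, ← pow_mul, ← pow_mul, mul_comm A]
  congr 1
  rw [← zpow_natCast (x ^ t), ← zpow_mul, zpow_natCast, ← zpow_natCast, ← zpow_mul, mul_comm t]

end Pool.Agent.Lib.MP_2f3286_ag
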