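import Mathlib
import Pool.Agent.Lib.MP_2f3286_ag.Sah
import Pool.Agent.Lib.MP_2f3286_ag.KSplit
import Pool.Agent.Lib.MP_2f3286_ag.Compl
import Pool.Agent.Lib.MP_2f3286_ag.Alg

open NumberField IsDedekindDomain

namespace Pool.Agent.Lib.MP_2f3286_ag

theorem finite_mem {F : Type*} [Field F] [NumberField F] {a : 𝓞 F} (ha : a ≠ 0) :
    {w : HeightOneSpectrum (𝓞 F) | a ∈ w.asIdeal}.Finite := by
  have ha0 : (a : F) ≠ 0 := by
    intro h; exact ha (RingOfIntegers.ext h)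
  refine (finite_val_ne_one (k := F) (a := (a : F)) ha0).subset ?_
  intro w hw
  simp only [Set.mem_ofPred_eq] at hw ⊢
  intro h1
  exact (HeightOneSpectrum.valuation_eq_one_iff_notMem (K := F) w).mp h1 hw

/-- the place below -/
theorem exists_below {L F : Type*} [Field L] [NumberField L] [Field F] [NumberField F] [Algebra L F]
    (W : HeightOneSpectrum (𝓞 F)) : ∃ w : HeightOneSpectrum (𝓞 L), W.asIdeal.LiesOver w.asIdeal := by
  have hp := W.isPrime
  refine ⟨⟨W.asIdeal.under (𝓞 L), inferInstance, ?_⟩, inferInstance⟩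
  intro h
  exact W.ne_bot (Ideal.eq_bot_of_comap_eq_bot h)

theorem finite_above {L F : Type*} [Field L] [NumberField L] [Field F] [NumberField F] [Algebra L F]
    (T : Finset (HeightOneSpectrum (𝓞 L))) :
    {W : HeightOneSpectrum (𝓞 F) | ∃ w ∈ T, W.asIdeal.LiesOver w.asIdeal}.Finite := by
  classical
  have h1 : ∀ w : HeightOneSpectrum (𝓞 L), ∃ a : 𝓞 L, a ≠ 0 ∧ a ∈ w.asIdeal := by
    intro w
    obtain ⟨a, ha, ha0⟩ := Submodule.exists_mem_ne_zero_of_ne_bot w.ne_bot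
    exact ⟨a, ha0, ha⟩
  choose a ha0 ha using h1
  have hinj := FaithfulSMul.algebraMap_injective (𝓞 L) (𝓞 F)
  refine (Set.Finite.biUnion T.finite_toSet (t := fun w => {W : HeightOneSpectrum (𝓞 F) |
    algebraMap (𝓞 L) (𝓞 F) (a w) ∈ W.asIdeal}) fun w _ => finite_mem ?_).subset ?_
  · rw [map_ne_zero_iff _ hinj]; exact ha0 w
  · rintro W ⟨w, hw, hl⟩
    simp only [Set.mem_iUnion, Set.mem_ofPred_eq]
    refine ⟨w, hw, ?_⟩
    rw [← Ideal.mem_of_liesOver W.asIdeal w.asIdeal]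
    exact ha w

theorem exists_small_order_L (L : Type*) [Field L] [NumberField L] {N : ℕ} (hN : 0 < N) {J : Type*}
    [Fintype J] (x : J → Lˣ) (T : Finset (HeightOneSpectrum (𝓞 L)))
    (h : ∀ w ∉ T, ∃ j, ∃ z : w.adicCompletion L, z ^ N = algebraMap L (w.adicCompletion L) (x j : L)) :
    ∃ j, ∃ l : Lˣ, x j ^ ((Fintype.card J).factorial * sahExp L) = l ^ N := by
  classical
  have : NeZero N := ⟨hN.ne'⟩
  let F := CyclotomicField N L
  have hζ := IsCyclotomicExtension.zeta_spec N L F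
  -- make the elements integral
  have hint : ∀ j, ∃ (a b : 𝓞 L), a ≠ 0 ∧ b ≠ 0 ∧ (b : L) = (a : L) ^ N * (x j : L) := by
    intro j
    obtain ⟨b, a, ha, hab⟩ := IsFractionRing.div_surjective (A := 𝓞 L) (x j : L)
    have ha0 : a ≠ 0 := nonZeroDivisors.ne_zero ha
    have ha0' : (a : L) ≠ 0 := fun h => ha0 (RingOfIntegers.ext h)
    have hb0' : (b : L) ≠ 0 := by
      intro h
      apply (x j).ne_zero
      rw [← hab]
      change (b : L) / (a : L) = 0
      rw [h, zero_div]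
    have hb0 : b ≠ 0 := by
      rintro rfl; exact hb0' rfl
    refine ⟨a, a ^ (N - 1) * b, ha0, mul_ne_zero (pow_ne_zero _ ha0) hb0, ?_⟩
    rw [← hab]
    change (a : L) ^ (N - 1) * (b : L) = (a : L) ^ N * ((b : L) / (a : L))
    obtain ⟨m, rfl⟩ : ∃ m, N = m + 1 := ⟨N - 1, by omega⟩
    rw [Nat.add_sub_cancel, pow_succ]
    field_simp
  choose a b ha hb hab using hint
  have hinj := FaithfulSMul.algebraMap_injective (𝓞 L) (𝓞 F)
  let b' : J → 𝓞 F := fun j => algebraMap (𝓞 L) (𝓞 F) (b j)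
  have hb' : ∀ j, b' j ≠ 0 := fun j => by
    rw [ne_eq, map_eq_zero_iff _ hinj]; exact hb j
  have hb'c : ∀ j, (b' j : F) = algebraMap L F (b j : L) := fun j => rfl
  let T' : Finset (HeightOneSpectrum (𝓞 F)) := (finite_above (F := F) T).toFinset ∪
    Finset.univ.biUnion fun j => (finite_mem (hb' j)).toFinset
  obtain ⟨j, d, hd1, hd2, y, hy⟩ := exists_small_order hN hζ b' hb' T' (by
    intro W hW
    simp only [T', Finset.mem_union, Set.Finite.mem_toFinset, Set.mem_ofPred_eq, Finset.mem_biUnion,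
      Finset.mem_univ, true_and, not_or, not_exists, not_and] at hW
    obtain ⟨h1, h2⟩ := hW
    obtain ⟨w, hw⟩ := exists_below (L := L) W
    obtain ⟨j, z, hz⟩ := h w (fun hwT => h1 w hwT hw)
    obtain ⟨φ, hφ⟩ := exists_completion_hom w W
    refine ⟨j, exists_residue_root W hN (b' j) (h2 j) (φ (algebraMap L _ (a j : L) * z)) ?_⟩
    rw [← map_pow, mul_pow, hz, ← map_pow, ← map_mul, ← hab, hφ, hb'c])
  refine ⟨j, ?_⟩
  have hx : ∃ y' : F, y' ^ N = algebraMap L F ((x j ^ d : Lˣ) : L) := by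
    have ha0 : algebraMap L F (a j : L) ≠ 0 := by
      rw [map_ne_zero]
      intro h0; exact ha j (RingOfIntegers.ext h0)
    refine ⟨y / algebraMap L F (a j : L) ^ d, ?_⟩
    rw [div_pow, hy, hb'c, hab, map_mul, map_pow, mul_pow, ← pow_mul, ← pow_mul, mul_comm d N,
      mul_div_cancel_left₀ _ (pow_ne_zero _ ha0), Units.val_pow_eq_pow_val, map_pow]
  obtain ⟨y', hy'⟩ := hx
  obtain ⟨l, hl⟩ := sah L hN (x j ^ d) y' hy'
  obtain ⟨q, hq⟩ := Nat.dvd_factorial (by omega : 0 < d) hd2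
  refine ⟨l ^ q, ?_⟩
  rw [hq, mul_assoc, mul_comm q, ← mul_assoc, pow_mul, pow_mul, hl, ← pow_mul, ← pow_mul, mul_comm]

/-- The finite subscheme theorem for the multiplicative group. -/
theorem finite_subscheme (L : Type*) [Field L] [NumberField L] (g : ℕ → Lˣ)
    (hcompat : ∀ n m, 1 ≤ n → 1 ≤ m → ∃ y : Lˣ, g (n * m) = g n * y ^ n) {J : Type*} [Fintype J]
    (β : J → Lˣ) (T : Finset (HeightOneSpectrum (𝓞 L)))
    (h : ∀ w ∉ T, ∃ j, ∀ n, 1 ≤ n → ∃ z : w.adicCompletion L,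
      algebraMap L (w.adicCompletion L) (g n : L) * z ^ n = algebraMap L (w.adicCompletion L) (β j : L)) :
    ∃ γ : Lˣ, ∀ n, 1 ≤ n → ∃ z : Lˣ, g n = γ * z ^ n := by
  classical
  set c := (Fintype.card J).factorial * sahExp L with hc
  have hc0 : 1 ≤ c := Nat.mul_pos (Nat.factorial_pos _) (sahExp_pos L)
  have hstep : ∀ M : ℕ, ∃ j, ∃ l : Lˣ, (β j * (g M.factorial)⁻¹) ^ c = l ^ M.factorial := by
    intro M
    have hM := Nat.factorial_pos M
    refine exists_small_order_L L hM (fun j => β j * (g M.factorial)⁻¹) T fun w hw => ?_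
    obtain ⟨j, hj⟩ := h w hw
    obtain ⟨z, hz⟩ := hj _ hM
    refine ⟨j, z, ?_⟩
    have h0 : algebraMap L (w.adicCompletion L) (g M.factorial : L) ≠ 0 := by
      rw [map_ne_zero]; exact (g M.factorial).ne_zero
    rw [Units.val_mul, map_mul, ← hz, Units.val_inv_eq_inv_val, map_inv₀]
    field_simp
  choose j l hl using hstep
  obtain ⟨j₀, hinf⟩ := Finite.exists_infinite_fiber j
  have hinf' := Set.infinite_coe_iff.mp hinf
  refine exists_root hcompat hc0 (γ := β j₀ ^ c) fun n hn => ?_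
  obtain ⟨M, hM, hlt⟩ := hinf'.exists_gt n
  rw [Set.mem_preimage, Set.mem_singleton_iff] at hM
  obtain ⟨r, hr⟩ := Nat.dvd_factorial hn hlt.le
  have hr0 : 1 ≤ r := by
    rcases Nat.eq_zero_or_pos r with rfl | h
    · have := Nat.factorial_pos M
      omega
    · exact h
  obtain ⟨y, hy⟩ := hcompat n r hn hr0
  have h1 := hl M
  rw [hM, hr, hy] at h1
  refine ⟨((y ^ c) * (l M) ^ r)⁻¹, ?_⟩
  have h2 : (l M) ^ (n * r) = (l M ^ r) ^ n := by rw [mul_comm, pow_mul]
  rw [h2, mul_pow, inv_pow, mul_pow, mul_inv] at h1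
  have h3 : (y ^ n) ^ c = (y ^ c) ^ n := by rw [← pow_mul, ← pow_mul, mul_comm]
  rw [h3, ← mul_inv, mul_inv_eq_iff_eq_mul] at h1
  rw [inv_pow, mul_pow, ← div_eq_mul_inv, eq_div_iff_mul_eq', h1]
  simp only [mul_comm, mul_left_comm]

end Pool.Agent.Lib.MP_2f3286_ag
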