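import Mathlib
import Pool.Agent.Lib.MP_2f3286_ag.Section
import Pool.Agent.Lib.MP_2f3286_ag.LG

open IsDedekindDomain NumberField IntermediateField

namespace Pool.Agent.Lib.MP_2f3286_ag

section general

variable {k K M kb : Type*} [Field k] [Field kb] [Algebra k kb] [IsGalois k kb]
  [Field K] [Field M] [Algebra K M] [Algebra kb M]

/-- two embeddings of a normal extension differ by an automorphism -/
theorem exists_aut_of_embeddings {Ω : Type*} [Field Ω] (ι ι' : kb →+* Ω)
    (h : ∀ a : k, ι (algebraMap k kb a) = ι' (algebraMap k kb a)) :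
    ∃ ρ : Gal(kb/k), ∀ x, ι (ρ x) = ι' x := by
  let _ : Algebra kb Ω := ι.toAlgebra
  let _ : Algebra k Ω := (ι.comp (algebraMap k kb)).toAlgebra
  have : IsScalarTower k kb Ω := IsScalarTower.of_algebraMap_eq fun x => rfl
  let φ : kb →ₐ[k] Ω := { ι' with commutes' := fun a => (h a).symm }
  refine ⟨φ.restrictNormal' kb, fun x => ?_⟩
  exact AlgHom.restrictNormal_commutes φ kb x

theorem exists_restrict' {Ω : Type*} [Field Ω] (ι : kb →+* Ω) (τ : Ω →+* Ω)
    (h : ∀ a : k, τ (ι (algebraMap k kb a)) = ι (algebraMap k kb a)) :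
    ∃ σ : Gal(kb/k), ∀ x, ι (σ x) = τ (ι x) :=
  exists_aut_of_embeddings ι (τ.comp ι) fun a => (h a).symm

theorem exists_kummer_L [IsAlgClosed kb] (s : Gal(kb/k) →* Gal(M/K)) (hs : Continuous s)
    (hsec : ∀ σ a, s σ (algebraMap kb M a) = algebraMap kb M (σ a)) (L : IntermediateField k kb)
    [FiniteDimensional k L] {T : M} (hT0 : T ≠ 0) (hTalg : IsIntegral K T) {n : ℕ} (hn : 1 ≤ n)
    (hfix : ∀ σ ∈ L.fixingSubgroup, s σ (T ^ n) = T ^ n) :
    ∃ (z : kbˣ) (a : Lˣ), (z : kb) ^ n = algebraMap L kb a ∧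
      ∀ σ ∈ L.fixingSubgroup, ∀ ζ : kb, s σ T = algebraMap kb M ζ * T → σ z = ζ * z := by
  have hTn : T ^ n ≠ 0 := pow_ne_zero n hT0
  let r : Gal(kb/L) → Gal(kb/k) := fun τ => τ.restrictScalars k
  have hr : ∀ τ, r τ ∈ L.fixingSubgroup := fun τ x => τ.commutes x
  have h1 : ∀ τ : Gal(kb/L), ∃ c : kbˣ, s (r τ) T = algebraMap kb M c * T ∧ c ^ n = 1 := by
    intro τ
    have h2 : (s (r τ) T / T) ^ n = 1 := by
      rw [div_pow, ← map_pow, hfix _ (hr τ), div_self hTn]
    obtain ⟨c, hc⟩ := root_of_unity_mem kb M hn h2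
    have hc1 : c ^ n = 1 := by
      apply (algebraMap kb M).injective
      rw [map_pow, hc, h2, map_one]
    have hc0 : c ≠ 0 := by
      rintro rfl
      rw [zero_pow (by omega)] at hc1
      exact zero_ne_one hc1
    refine ⟨Units.mk0 c hc0, ?_, ?_⟩
    · rw [Units.val_mk0, hc, div_mul_cancel₀ _ hT0]
    · ext; simpa using hc1
  choose c hc hc' using h1
  have hcoc : ∀ σ τ : Gal(kb/L), (c (σ * τ) : kb) = c σ * σ (c τ) := by
    intro σ τ
    apply (algebraMap kb M).injective
    apply mul_right_cancel₀ hT0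
    have h3 : r (σ * τ) = r σ * r τ := rfl
    have h4 : ∀ x : kb, r σ x = σ x := fun x => rfl
    rw [← hc, h3, map_mul (s : Gal(kb/k) →* Gal(M/K)), AlgEquiv.mul_apply, hc τ, map_mul (s (r σ)),
      hsec, hc σ, map_mul, h4]
    ring
  have hopen : {σ : Gal(kb/L) | c σ = 1} ∈ nhds 1 := by
    have hfin : FiniteDimensional K K⟮T⟯ := adjoin.finiteDimensional hTalg
    have ho := IntermediateField.fixingSubgroup_isOpen (K⟮T⟯ : IntermediateField K M)
    have hmem : ((K⟮T⟯ : IntermediateField K M).fixingSubgroup : Set Gal(M/K)) ∈ nhds (s 1) := by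
      rw [map_one]
      exact ho.mem_nhds (one_mem _)
    have h5 := hs.continuousAt hmem
    obtain ⟨E, hE, hEU⟩ := (krullTopology_mem_nhds_one_iff k kb _).mp h5
    have hEL : FiniteDimensional k (E ⊔ L : IntermediateField k kb) := inferInstance
    let E' : IntermediateField L kb := IntermediateField.extendScalars (le_sup_right : L ≤ E ⊔ L)
    have hE'0 : FiniteDimensional k E' := hEL
    have hE' : FiniteDimensional L E' := Module.Finite.of_restrictScalars_finite k L E'
    rw [krullTopology_mem_nhds_one_iff]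
    refine ⟨E', hE', fun τ hτ => ?_⟩
    have h6 : r τ ∈ E.fixingSubgroup := by
      intro x
      exact hτ ⟨x.1, (le_sup_left : E ≤ E ⊔ L) x.2⟩
    have h7 : s (r τ) ∈ (K⟮T⟯ : IntermediateField K M).fixingSubgroup := hEU h6
    have h3 : s (r τ) T = T := by
      rw [IntermediateField.mem_fixingSubgroup_iff] at h7
      exact h7 T (IntermediateField.mem_adjoin_simple_self _ _)
    change c τ = 1
    ext
    apply (algebraMap kb M).injective
    apply mul_right_cancel₀ hT0
    rw [← hc, h3, Units.val_one, map_one, one_mul]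
  obtain ⟨z, hz⟩ := hilbert90 L kb c hcoc hopen
  have hzn : (z : kb) ^ n ∈ (⊥ : IntermediateField L kb) := by
    rw [InfiniteGalois.mem_bot_iff_fixed]
    intro σ
    rw [map_pow, ← hz, mul_pow, ← Units.val_pow_eq_pow_val, hc', Units.val_one, one_mul]
  obtain ⟨a, ha⟩ := IntermediateField.mem_bot.mp hzn
  have ha0 : a ≠ 0 := by
    rintro rfl
    rw [map_zero] at ha
    exact pow_ne_zero n z.ne_zero ha.symm
  refine ⟨z, Units.mk0 a ha0, ha.symm, fun σ hσ ζ hζ => ?_⟩
  let τ : Gal(kb/L) := IntermediateField.fixingSubgroupEquiv L ⟨σ, hσ⟩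
  have h8 : r τ = σ := by ext x; rfl
  have h9 := hc τ
  rw [h8, hζ] at h9
  have h10 : ζ = c τ := (algebraMap kb M).injective (mul_right_cancel₀ hT0 h9)
  rw [h10, hz τ]
  rfl

/-- elements fixed by the fixing subgroup lie in `L` -/
theorem mem_of_fixed_L (L : IntermediateField k kb) {y : kb}
    (h : ∀ σ ∈ L.fixingSubgroup, σ y = y) : y ∈ L := by
  rw [← InfiniteGalois.fixedField_fixingSubgroup L, IntermediateField.mem_fixedField_iff]
  exact h

/-- `Respects s F ι φ`: the homomorphism `φ` is compatible with the section `s` over `F`. -/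
def Resp {C : Type*} [SetLike C M] [SubringClass C M] {B : C} (s : Gal(kb/k) →* Gal(M/K))
    (F : Type*) {Fb : Type*} [Field F] [Field Fb] [Algebra F Fb] (ι : kb →+* Fb) (φ : B →+* Fb) :
    Prop :=
  (∀ (a : kb) (b : B), (b : M) = algebraMap kb M a → φ b = ι a) ∧
  ∀ (σ : Gal(kb/k)) (τ : Gal(Fb/F)), (∀ a, ι (σ a) = τ (ι a)) →
    ∀ b b' : B, (b' : M) = s σ b → φ b' = τ (φ b)

/-- quotients of roots descend to the local field -/
theorem quot_mem {C : Type*} [SetLike C M] [SubringClass C M] {B : C} (s : Gal(kb/k) →* Gal(M/K))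
    (hBk : ∀ a : kb, algebraMap kb M a ∈ B)
    {F Fb : Type*} [Field F] [Field Fb] [Algebra F Fb] [IsGalois F Fb] {ι : kb →+* Fb}
    {φ : B →+* Fb} (h : Resp s F ι φ) (L : IntermediateField k kb)
    (hL : ∀ x : L, ∃ y : F, algebraMap F Fb y = ι x) (T : B) (hT : ∀ σ ∈ L.fixingSubgroup,
      ∃ ζ : kb, s σ T = algebraMap kb M ζ * T) (z : kbˣ)
    (hz : ∀ σ ∈ L.fixingSubgroup, ∀ ζ : kb, s σ T = algebraMap kb M ζ * T → σ z = ζ * z) :
    ∃ w : F, algebraMap F Fb w = φ T / ι z := by
  apply mem_of_fixed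
  intro τ
  have hk : ∀ a : k, τ (ι (algebraMap k kb a)) = ι (algebraMap k kb a) := by
    intro a
    obtain ⟨y, hy⟩ := hL (algebraMap k L a)
    have h1 : ((algebraMap k L a : L) : kb) = algebraMap k kb a := rfl
    rw [h1] at hy
    rw [← hy, AlgEquiv.commutes]
  obtain ⟨σ, hσ⟩ := exists_restrict' (k := k) ι (τ : Fb →+* Fb) hk
  have hσL : σ ∈ L.fixingSubgroup := by
    intro x
    apply ι.injective
    obtain ⟨y, hy⟩ := hL x
    change ι (σ (x : kb)) = ι (x : kb)
    rw [hσ, ← hy]
    exact τ.commutes y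
  obtain ⟨ζ, hζ⟩ := hT σ hσL
  have h2 := hz σ hσL ζ hζ
  have h3 : φ (⟨algebraMap kb M ζ, hBk ζ⟩ * T) = τ (φ T) := by
    refine h.2 σ τ (fun a => hσ a) T _ ?_
    rw [hζ]; rfl
  rw [map_mul, h.1 ζ ⟨algebraMap kb M ζ, hBk ζ⟩ rfl] at h3
  have hζ0 : ζ ≠ 0 := by
    rintro rfl
    rw [zero_mul] at h2
    exact (z.ne_zero) ((map_eq_zero _).mp h2)
  rw [map_div₀, ← h3]
  have h4 : τ (ι z) = ι ζ * ι z := by rw [← map_mul, ← h2, hσ]; rfl
  rw [h4, mul_div_mul_left]
  rw [map_ne_zero]; exact hζ0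

end general


theorem smul_mem_of_normal {k kb : Type*} [Field k] [Field kb] [Algebra k kb]
    (L : IntermediateField k kb) [Normal k L] (σ : Gal(kb/k)) (x : L) : σ (x : kb) ∈ L := by
  have h := AlgEquiv.restrictNormal_commutes σ L x
  change ((σ.restrictNormal L x : L) : kb) = σ (x : kb) at h
  rw [← h]
  exact (σ.restrictNormal L x).2

theorem exists_pair_L {k K M kb : Type*} [Field k] [NumberField k] [Field kb] [Algebra k kb]
    [IsGalois k kb] [Field K] [Field M] [Algebra K M] [Algebra kb M]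
    {C : Type*} [SetLike C M] [SubringClass C M] {B : C} (s : Gal(kb/k) →* Gal(M/K))
    (L : IntermediateField k kb) [NumberField L] [Normal k L]
    (v : HeightOneSpectrum (𝓞 k)) (w : HeightOneSpectrum (𝓞 L)) [w.asIdeal.LiesOver v.asIdeal]
    (ι : kb →ₐ[k] AlgebraicClosure (v.adicCompletion k))
    (φ : B →+* AlgebraicClosure (v.adicCompletion k))
    (h : Resp s (v.adicCompletion k) (ι : kb →+* AlgebraicClosure (v.adicCompletion k)) φ) :
    ∃ j : AlgebraicClosure (v.adicCompletion k) →+* AlgebraicClosure (w.adicCompletion L),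
      Resp s (w.adicCompletion L) (j.comp (ι : kb →+* AlgebraicClosure (v.adicCompletion k)))
        (j.comp φ) ∧
      (∀ x : L, ∃ y : w.adicCompletion L, algebraMap _ (AlgebraicClosure (w.adicCompletion L)) y =
        j (ι x)) ∧
      ∃ ρ : Gal(kb/k), ∀ x : L, j (ι (ρ x)) =
        algebraMap _ (AlgebraicClosure (w.adicCompletion L)) (algebraMap L (w.adicCompletion L) x) := by
  obtain ⟨j₀, hj₀⟩ := exists_completion_hom v w
  have : CharZero (v.adicCompletion k) := charZero_of_injective_algebraMap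
    (algebraMap k (v.adicCompletion k)).injective
  let _ : Algebra (v.adicCompletion k) (w.adicCompletion L) := j₀.toAlgebra
  let j : AlgebraicClosure (v.adicCompletion k) →ₐ[v.adicCompletion k]
    AlgebraicClosure (w.adicCompletion L) := IsAlgClosed.lift
  have hj : ∀ a : v.adicCompletion k, j (algebraMap _ _ a) =
      algebraMap _ (AlgebraicClosure (w.adicCompletion L)) (j₀ a) := by
    intro a
    rw [AlgHom.commutes]
    rfl
  have : Algebra.IsAlgebraic L kb := inferInstance
  have : FaithfulSMul L (AlgebraicClosure (w.adicCompletion L)) := by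
    rw [faithfulSMul_iff_algebraMap_injective]
    exact (algebraMap L (AlgebraicClosure (w.adicCompletion L))).injective
  have : Module.IsTorsionFree L (AlgebraicClosure (w.adicCompletion L)) := inferInstance
  let ι'' : kb →ₐ[L] AlgebraicClosure (w.adicCompletion L) := IsAlgClosed.lift
  have hι'' : ∀ x : L, ι'' x = algebraMap _ (AlgebraicClosure (w.adicCompletion L))
      (algebraMap L (w.adicCompletion L) x) := by
    intro x
    exact ι''.commutes x
  have hk : ∀ a : k, j (ι (algebraMap k kb a)) = algebraMap _ (AlgebraicClosure (w.adicCompletion L))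
      (algebraMap L (w.adicCompletion L) (algebraMap k L a)) := by
    intro a
    rw [ι.commutes]
    rw [IsScalarTower.algebraMap_apply k (v.adicCompletion k) (AlgebraicClosure (v.adicCompletion k)),
      hj, hj₀]
  obtain ⟨ρ, hρ⟩ := exists_aut_of_embeddings (k := k)
    ((j : _ →+* AlgebraicClosure (w.adicCompletion L)).comp
      (ι : kb →+* AlgebraicClosure (v.adicCompletion k))) (ι'' : kb →+* _) (by
      intro a
      change j (ι (algebraMap k kb a)) = ι'' (algebraMap k kb a)
      rw [hk]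
      exact (hι'' (algebraMap k L a)).symm)
  have hρ' : ∀ x : kb, j (ι (ρ x)) = ι'' x := hρ
  refine ⟨j, ⟨?_, ?_⟩, ?_, ρ, fun x => ?_⟩
  · intro a b hab
    change j (φ b) = j (ι a)
    rw [h.1 a b hab]
    rfl
  · intro σ τ hστ b b' hb
    obtain ⟨τ', hτ'⟩ := exists_restrict' (k := v.adicCompletion k)
      (j : AlgebraicClosure (v.adicCompletion k) →+* AlgebraicClosure (w.adicCompletion L))
      (τ : AlgebraicClosure (w.adicCompletion L) →+* AlgebraicClosure (w.adicCompletion L)) (by
      intro a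
      change τ (j (algebraMap _ _ a)) = j (algebraMap _ _ a)
      rw [hj, AlgEquiv.commutes])
    have h1 : ∀ a, ι (σ a) = τ' (ι a) := by
      intro a
      apply (j : AlgebraicClosure (v.adicCompletion k) →+*
        AlgebraicClosure (w.adicCompletion L)).injective
      exact (hστ a).trans (hτ' (ι a)).symm
    have h2 := h.2 σ τ' h1 b b' hb
    change j (φ b') = τ (j (φ b))
    rw [h2]
    exact hτ' (φ b)
  · intro x
    have h1 : ρ⁻¹ (x : kb) ∈ L := smul_mem_of_normal L ρ⁻¹ x
    refine ⟨algebraMap L (w.adicCompletion L) ⟨_, h1⟩, ?_⟩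
    rw [← hι'']
    change ι'' (ρ⁻¹ (x : kb)) = j (ι (x : kb))
    rw [← hρ']
    congr 2
    change (ρ * ρ⁻¹) (x : kb) = x
    rw [mul_inv_cancel]; rfl
  · change j (ι (ρ x)) = _
    rw [hρ', hι'']

end Pool.Agent.Lib.MP_2f3286_ag
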