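import Mathlib
import Pool.Agent.Lib.MP_2f3286_ag.Pair

open IsDedekindDomain NumberField IntermediateField Polynomial

namespace Pool.Agent.Lib.MP_2f3286_ag

section general

variable {k K M kb : Type*} [Field k] [Field kb] [Algebra k kb] [IsGalois k kb]
  [Field K] [Field M] [Algebra K M] [Algebra kb M]
  {C : Type*} [SetLike C M] [SubringClass C M] {B : C}

theorem Resp.translate {s : Gal(kb/k) →* Gal(M/K)}
    (hsec : ∀ σ a, s σ (algebraMap kb M a) = algebraMap kb M (σ a))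
    (hBs : ∀ σ, ∀ b ∈ B, s σ b ∈ B) {F Fb : Type*} [Field F]
    [Field Fb] [Algebra F Fb] {ι : kb →+* Fb} {φ : B →+* Fb} (h : Resp s F ι φ) (ρ : Gal(kb/k)) :
    Resp s F (ι.comp (ρ : kb →+* kb)) (φ.comp ((s ρ : M →+* M).restrict B B (hBs ρ))) := by
  constructor
  · intro a b hab
    refine h.1 (ρ a) _ ?_
    change s ρ (b : M) = _
    rw [hab, hsec]
  · intro σ τ hστ b b' hb
    have h1 : ∀ a, ι ((ρ * σ * ρ⁻¹) a) = τ (ι a) := by
      intro a
      have h2 := hστ (ρ⁻¹ a)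
      have h3 : ρ (ρ⁻¹ a) = a := by
        change (ρ * ρ⁻¹) a = a
        rw [mul_inv_cancel]; rfl
      change ι (ρ (σ (ρ⁻¹ a))) = τ (ι (ρ (ρ⁻¹ a))) at h2
      rw [h3] at h2
      exact h2
    refine h.2 _ τ h1 _ _ ?_
    change s ρ (b' : M) = s (ρ * σ * ρ⁻¹) (s ρ (b : M))
    rw [hb, ← AlgEquiv.mul_apply, ← AlgEquiv.mul_apply, ← map_mul, ← map_mul]
    congr 2
    group

/-- The values `y n` of the compatible roots `T n`. -/
def IsVal (s : Gal(kb/k) →* Gal(M/K)) (L : IntermediateField k kb) (T : ℕ → M) (y : ℕ → kb) : Prop :=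
  (∀ n, 1 ≤ n → y n ^ n = y 1) ∧ y 1 ≠ 0 ∧
  (∀ σ ∈ L.fixingSubgroup, ∀ n, 1 ≤ n → ∃ ζ : kb, s σ (T n) = algebraMap kb M ζ * T n) ∧
  (∀ σ ∈ L.fixingSubgroup, ∀ n, 1 ≤ n → ∀ ζ : kb, s σ (T n) = algebraMap kb M ζ * T n →
    σ (y n) = ζ * y n)

theorem IsVal.eq {s : Gal(kb/k) →* Gal(M/K)} {L : IntermediateField k kb} {T : ℕ → M} {y : ℕ → kb}
    (hv : IsVal s L T y) (hBk : ∀ a : kb, algebraMap kb M a ∈ B)
    (T' : ℕ → B) (hT' : ∀ n, (T' n : M) = T n) (hTn : ∀ n, 1 ≤ n → T' n ^ n = T' 1)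
    {F Fb : Type*} [Field F] [Field Fb] [Algebra F Fb] [IsGalois F Fb] {ι : kb →+* Fb}
    {φ : B →+* Fb} (h : Resp s F ι φ)
    (hL : ∀ x : L, ∃ y : F, algebraMap F Fb y = ι x) (hφ : φ (T' 1) ≠ 0)
    (hdiv : ∀ z : F, z ≠ 0 → (∀ n : ℕ, 1 ≤ n → ∃ z' : F, z' ^ n = z) → z = 1) :
    φ (T' 1) = ι (y 1) := by
  obtain ⟨h1, h2, h3, h4⟩ := hv
  have hy0 : ∀ n, 1 ≤ n → y n ≠ 0 := by
    intro n hn h0
    have := h1 n hn
    rw [h0, zero_pow (by omega)] at this
    exact h2 this.symm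
  have hq : ∀ n, 1 ≤ n → ∃ w : F, algebraMap F Fb w = φ (T' n) / ι (y n) := by
    intro n hn
    exact quot_mem s hBk h L hL (T' n) (by rw [hT']; exact fun σ hσ => h3 σ hσ n hn)
      (Units.mk0 (y n) (hy0 n hn)) (by rw [hT']; exact fun σ hσ => h4 σ hσ n hn)
  obtain ⟨w, hw⟩ := hq 1 le_rfl
  have hιy : ι (y 1) ≠ 0 := by rw [_root_.map_ne_zero]; exact h2
  have hw1 : w = 1 := by
    apply hdiv
    · rintro rfl
      rw [map_zero] at hw
      exact (div_ne_zero hφ hιy) hw.symm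
    · intro n hn
      obtain ⟨u, hu⟩ := hq n hn
      refine ⟨u, (algebraMap F Fb).injective ?_⟩
      rw [map_pow, hu, hw, div_pow, ← map_pow, ← map_pow, hTn n hn, h1 n hn]
  rw [hw1, map_one] at hw
  rw [eq_comm, div_eq_one_iff_eq hιy] at hw
  exact hw

theorem nhds_fix (x : kb) : {σ : Gal(kb/k) | σ x = x} ∈ nhds (1 : Gal(kb/k)) := by
  have hfin : FiniteDimensional k k⟮x⟯ := adjoin.finiteDimensional (Algebra.IsIntegral.isIntegral x)
  have ho := IntermediateField.fixingSubgroup_isOpen (k⟮x⟯ : IntermediateField k kb)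
  refine Filter.mem_of_superset (ho.mem_nhds (one_mem _)) ?_
  intro σ hσ
  have h4 : σ ∈ (k⟮x⟯ : IntermediateField k kb).fixingSubgroup := hσ
  rw [IntermediateField.mem_fixingSubgroup_iff] at h4
  exact h4 x (IntermediateField.mem_adjoin_simple_self _ _)

theorem nhds_s (s : Gal(kb/k) →* Gal(M/K)) (hs : Continuous s) {T : M} (hT : IsIntegral K T) :
    {σ : Gal(kb/k) | s σ T = T} ∈ nhds (1 : Gal(kb/k)) := by
  have hfin : FiniteDimensional K K⟮T⟯ := adjoin.finiteDimensional hT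
  have ho := IntermediateField.fixingSubgroup_isOpen (K⟮T⟯ : IntermediateField K M)
  have hmem : ((K⟮T⟯ : IntermediateField K M).fixingSubgroup : Set Gal(M/K)) ∈ nhds (s 1) := by
    rw [map_one]
    exact ho.mem_nhds (one_mem _)
  refine Filter.mem_of_superset (hs.continuousAt hmem) ?_
  intro σ hσ
  have h4 : s σ ∈ (K⟮T⟯ : IntermediateField K M).fixingSubgroup := hσ
  rw [IntermediateField.mem_fixingSubgroup_iff] at h4
  exact h4 T (IntermediateField.mem_adjoin_simple_self _ _)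

theorem exists_level (s : Gal(kb/k) →* Gal(M/K)) (hs : Continuous s) {b : M} (hb : IsIntegral K b)
    (A : Finset kb) : ∃ L : IntermediateField k kb, FiniteDimensional k L ∧ Normal k L ∧
      (∀ σ ∈ L.fixingSubgroup, s σ b = b) ∧ ∀ x ∈ A, x ∈ L := by
  have h1 : {σ : Gal(kb/k) | s σ b = b} ∩ ⋂ x ∈ A, {σ : Gal(kb/k) | σ x = x} ∈
      nhds (1 : Gal(kb/k)) := by
    refine Filter.inter_mem (nhds_s s hs hb) ?_
    rw [Filter.biInter_finset_mem]
    exact fun x _ => nhds_fix x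
  obtain ⟨L, hL, hLn, hLU⟩ := (krullTopology_mem_nhds_one_iff_of_normal k kb _).mp h1
  refine ⟨L, hL, hLn, fun σ hσ => (hLU hσ).1, fun x hx => ?_⟩
  apply mem_of_fixed_L
  intro σ hσ
  have h2 := (hLU hσ).2
  simp only [Set.mem_iInter] at h2
  exact h2 x hx

end general


theorem exists_val {k K M kb : Type*} [Field k] [NumberField k] [Field kb] [Algebra k kb]
    [IsGalois k kb] [IsAlgClosed kb] [Field K] [Field M] [Algebra K M] [Algebra kb M]
    {C : Type*} [SetLike C M] [SubringClass C M] {B : C}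
    (s : Gal(kb/k) →* Gal(M/K)) (hs : Continuous s)
    (hsec : ∀ σ a, s σ (algebraMap kb M a) = algebraMap kb M (σ a))
    (hBk : ∀ a : kb, algebraMap kb M a ∈ B)
    (L : IntermediateField k kb) [NumberField L] [FiniteDimensional k L]
    (T' : ℕ → B) (hT0 : (T' 1 : M) ≠ 0) (hTint : ∀ n, 1 ≤ n → IsIntegral K (T' n : M))
    (hTn : ∀ n, 1 ≤ n → T' n ^ n = T' 1)
    (hTc : ∀ n m, 1 ≤ n → 1 ≤ m → T' (n * m) ^ m = T' n)
    (hfix : ∀ σ ∈ L.fixingSubgroup, s σ (T' 1 : M) = T' 1)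
    {J : Type*} [Fintype J] (β : J → Lˣ) (Tw : Finset (HeightOneSpectrum (𝓞 L)))
    (hloc : ∀ w ∉ Tw, ∃ (ι : kb →+* AlgebraicClosure (w.adicCompletion L))
      (φ : B →+* AlgebraicClosure (w.adicCompletion L)), Resp s (w.adicCompletion L) ι φ ∧
      (∀ x : L, ι x = algebraMap _ (AlgebraicClosure (w.adicCompletion L))
        (algebraMap L (w.adicCompletion L) x)) ∧ ∃ j, φ (T' 1) = ι (β j : L)) :
    ∃ y : ℕ → kb, IsVal s L (fun n => (T' n : M)) y := by
  classical
  have hTM : ∀ n, 1 ≤ n → (T' n : M) ^ n = T' 1 := by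
    intro n hn
    have := congrArg (fun b : B => (b : M)) (hTn n hn)
    simpa using this
  have hTcM : ∀ n m, 1 ≤ n → 1 ≤ m → (T' (n * m) : M) ^ m = T' n := by
    intro n m hn hm
    have := congrArg (fun b : B => (b : M)) (hTc n m hn hm)
    simpa using this
  have hT0n : ∀ n, 1 ≤ n → (T' n : M) ≠ 0 := by
    intro n hn h
    have := hTM n hn
    rw [h, zero_pow (by omega)] at this
    exact hT0 this.symm
  have hex : ∀ σ ∈ L.fixingSubgroup, ∀ n, 1 ≤ n →
      ∃ ζ : kb, s σ (T' n : M) = algebraMap kb M ζ * T' n := by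
    intro σ hσ n hn
    have h2 : (s σ (T' n : M) / T' n) ^ n = 1 := by
      rw [div_pow, ← map_pow, hTM n hn, hfix σ hσ, div_self hT0]
    obtain ⟨c, hc⟩ := root_of_unity_mem kb M hn h2
    exact ⟨c, by rw [hc, div_mul_cancel₀ _ (hT0n n hn)]⟩
  have hker : ∀ n, 1 ≤ n → ∃ (z : kbˣ) (a : Lˣ), (z : kb) ^ n = algebraMap L kb a ∧
      ∀ σ ∈ L.fixingSubgroup, ∀ ζ : kb, s σ (T' n : M) = algebraMap kb M ζ * T' n →
        σ z = ζ * z := by
    intro n hn
    exact exists_kummer_L s hs hsec L (hT0n n hn) (hTint n hn) hn (by rw [hTM n hn]; exact hfix)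
  choose! z g hzg hz using hker
  have hcompat : ∀ n m, 1 ≤ n → 1 ≤ m → ∃ y : Lˣ, g (n * m) = g n * y ^ n := by
    intro n m hn hm
    have hnm : 1 ≤ n * m := Nat.mul_pos hn hm
    have hmem : (z (n * m) : kb) ^ m / z n ∈ L := by
      apply mem_of_fixed_L
      intro σ hσ
      obtain ⟨ζ, hζ⟩ := hex σ hσ (n * m) hnm
      have h1 := hz (n * m) hnm σ hσ ζ hζ
      have h2 : s σ (T' n : M) = algebraMap kb M (ζ ^ m) * T' n := by
        rw [← hTcM n m hn hm, map_pow, hζ, mul_pow, map_pow]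
      have h3 := hz n hn σ hσ _ h2
      have hζ0 : ζ ≠ 0 := by
        rintro rfl
        rw [zero_mul] at h1
        exact (z (n * m)).ne_zero ((map_eq_zero _).mp h1)
      rw [map_div₀, map_pow, h1, h3, mul_pow, mul_div_mul_left _ _ (pow_ne_zero m hζ0)]
    have hne : (z (n * m) : kb) ^ m / z n ≠ 0 :=
      div_ne_zero (pow_ne_zero _ (z _).ne_zero) (z n).ne_zero
    refine ⟨Units.mk0 ⟨_, hmem⟩ (fun h => hne (congrArg Subtype.val h)), ?_⟩
    apply Units.ext
    apply (algebraMap L kb).injective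
    have h5 : algebraMap L kb (⟨(z (n * m) : kb) ^ m / z n, hmem⟩ : L) =
      (z (n * m) : kb) ^ m / z n := rfl
    rw [Units.val_mul, Units.val_pow_eq_pow_val, Units.val_mk0, map_mul, map_pow, h5, ← hzg n hn,
      ← hzg _ hnm, div_pow, mul_div_cancel₀ _ (pow_ne_zero n (z n).ne_zero), ← pow_mul, mul_comm m n]
  obtain ⟨γ, hγ⟩ := finite_subscheme L g hcompat β Tw (by
    intro w hw
    obtain ⟨ι, φ, hR, hstd, j, hj⟩ := hloc w hw
    refine ⟨j, fun n hn => ?_⟩
    have : CharZero (w.adicCompletion L) := charZero_of_injective_algebraMap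
      (algebraMap L (w.adicCompletion L)).injective
    obtain ⟨u, hu⟩ := quot_mem s hBk hR L (fun x => ⟨_, (hstd x).symm⟩) (T' n)
      (fun σ hσ => hex σ hσ n hn) (z n) (hz n hn)
    refine ⟨u, ?_⟩
    apply (algebraMap (w.adicCompletion L) (AlgebraicClosure (w.adicCompletion L))).injective
    have h6 : ι ((z n : kb) ^ n) = algebraMap _ (AlgebraicClosure (w.adicCompletion L))
        (algebraMap L (w.adicCompletion L) (g n)) := by
      rw [hzg n hn]; exact hstd (g n)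
    have h7 : ι (z n) ≠ 0 := by rw [_root_.map_ne_zero]; exact (z n).ne_zero
    rw [map_mul, map_pow, hu, div_pow, ← map_pow, hTn n hn, hj, hstd, ← h6, map_pow,
      mul_div_cancel₀ _ (pow_ne_zero n h7)])
  choose! l hl using hγ
  obtain ⟨y, hy, hyc⟩ := exists_compatible
    (fun n => {u : kb | u ^ n = algebraMap L kb γ ∧ ∀ σ ∈ L.fixingSubgroup, ∀ ζ : kb,
      s σ (T' n : M) = algebraMap kb M ζ * T' n → σ u = ζ * u}) (by
      intro n hn
      have hl0 : algebraMap L kb (l n) ≠ 0 := by rw [_root_.map_ne_zero]; exact (l n).ne_zero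
      refine ⟨z n / algebraMap L kb (l n), ?_, ?_⟩
      · rw [div_pow, hzg n hn, hl n hn, ← map_pow, ← Units.val_pow_eq_pow_val, Units.val_mul,
          map_mul, mul_div_cancel_right₀]
        rw [_root_.map_ne_zero]
        exact (l n ^ n).ne_zero
      · intro σ hσ ζ hζ
        have h8 : σ (algebraMap L kb (l n)) = algebraMap L kb (l n) := hσ (l n : L)
        rw [map_div₀, h8, hz n hn σ hσ ζ hζ, mul_div_assoc]) (by
      intro n hn
      have h5 : {u : kb | u ^ n = algebraMap L kb γ} ⊆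
          ((X ^ n - Polynomial.C (algebraMap L kb γ)).roots.toFinset : Set _) := by
        intro u hu
        simp only [Finset.mem_coe, Multiset.mem_toFinset]
        rw [Polynomial.mem_roots (Polynomial.X_pow_sub_C_ne_zero (by omega) _)]
        simp only [Polynomial.IsRoot.def, Polynomial.eval_sub, Polynomial.eval_pow,
          Polynomial.eval_X, Polynomial.eval_C, sub_eq_zero]
        exact hu
      exact ((Finset.finite_toSet _).subset h5).subset fun u hu => hu.1) (by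
      intro n m hn hm u hu
      obtain ⟨hu1, hu2⟩ := hu
      refine ⟨by rw [← pow_mul, mul_comm m n, hu1], fun σ hσ ζ hζ => ?_⟩
      obtain ⟨ζ', hζ'⟩ := hex σ hσ (n * m) (Nat.mul_pos hn hm)
      have h2 : s σ (T' n : M) = algebraMap kb M (ζ' ^ m) * T' n := by
        rw [← hTcM n m hn hm, map_pow, hζ', mul_pow, map_pow]
      have h9 : ζ = ζ' ^ m := by
        apply (algebraMap kb M).injective
        apply mul_right_cancel₀ (hT0n n hn)
        rw [← hζ, h2]
      rw [map_pow, hu2 σ hσ ζ' hζ', mul_pow, h9])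
  have hy1 : y 1 = algebraMap L kb γ := by
    have := (hy 1 le_rfl).1
    rwa [pow_one] at this
  refine ⟨y, fun n hn => ?_, ?_, hex, fun σ hσ n hn ζ hζ => (hy n hn).2 σ hσ ζ hζ⟩
  · rw [(hy n hn).1, hy1]
  · rw [hy1, _root_.map_ne_zero]; exact γ.ne_zero

end Pool.Agent.Lib.MP_2f3286_ag
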