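import Mathlib
import Pool.Agent.Lib.MP_2f3286_ag.Val
import Pool.Agent.Lib.MP_2f3286_ag.RankOne

open IsDedekindDomain NumberField Polynomial

namespace Pool.Agent.Lib.MP_2f3286_ag

theorem exists_poly_mul {k M : Type*} [Field k] [Field M] [Algebra k M]
    (htr : Algebra.trdeg k M = 1) (B : Subalgebra k M) (h : B) (hh : h ≠ 0) (f : B) :
    ∃ Q : k[X], Q ≠ 0 ∧ ∃ r : B, aeval f Q = h * r := by
  have hcoe : ∀ Q : k[X], ((aeval f Q : B) : M) = aeval (f : M) Q :=
    fun Q => (aeval_algHom_apply B.val f Q).symm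
  by_cases halg : IsAlgebraic k (f : M)
  · obtain ⟨Q, hQ0, hQ⟩ := halg
    refine ⟨Q, hQ0, 0, ?_⟩
    apply Subtype.ext
    rw [hcoe, mul_zero]
    exact hQ
  · have htrans : Transcendental k (f : M) := halg
    have hind : AlgebraicIndependent k ![(f : M)] := algebraicIndependent_iff_transcendental.mpr htrans
    have hbasis : IsTranscendenceBasis k ![(f : M)] :=
      hind.isTranscendenceBasis_of_lift_trdeg_le_of_finite (by rw [htr]; simp)
    have hKalg := hbasis.isAlgebraic
    have hh' : (h : M) ≠ 0 := fun h0 => hh (Subtype.ext h0)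
    obtain ⟨q, hq0, hq⟩ := (hKalg.isAlgebraic (h : M)).exists_nonzero_coeff_and_aeval_eq_zero
      (mem_nonZeroDivisors_of_ne_zero hh')
    have hrange : Set.range ![(f : M)] = {(f : M)} := by simp
    have hle : Algebra.adjoin k (Set.range ![(f : M)]) ≤ B := by
      rw [hrange, Algebra.adjoin_le_iff, Set.singleton_subset_iff]
      exact f.2
    obtain ⟨Q, hQ⟩ : ∃ Q : k[X], aeval (f : M) Q =
        ((q.coeff 0 : Algebra.adjoin k (Set.range ![(f : M)])) : M) := by
      have hmem : ((q.coeff 0 : Algebra.adjoin k (Set.range ![(f : M)])) : M) ∈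
          Algebra.adjoin k {(f : M)} := by
        rw [← hrange]; exact (q.coeff 0).2
      rw [Algebra.adjoin_singleton_eq_range_aeval] at hmem
      obtain ⟨Q, hQ⟩ := hmem
      exact ⟨Q, hQ⟩
    let φ : Algebra.adjoin k (Set.range ![(f : M)]) →+* B := (Subalgebra.inclusion hle : _ →ₐ[k] B)
    refine ⟨Q, ?_, -(q.divX.eval₂ φ h), ?_⟩
    · rintro rfl
      rw [map_zero] at hQ
      exact hq0 (Subtype.ext hQ.symm)
    · have h1 : q.eval₂ φ h = 0 := by
        apply Subtype.ext
        have h2 := Polynomial.hom_eval₂ q φ (B.val.toRingHom) h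
        change B.val.toRingHom (eval₂ φ h q) = 0
        rw [h2, ← hq, aeval_def]
        rfl
      have h3 : q.eval₂ φ h = (q.divX.eval₂ φ h) * h + φ (q.coeff 0) := by
        conv_lhs => rw [← divX_mul_X_add q]
        rw [eval₂_add, eval₂_mul, eval₂_X, eval₂_C]
      have h4 : φ (q.coeff 0) = aeval f Q := by
        apply Subtype.ext
        rw [hcoe, hQ]
        rfl
      rw [h1, h4] at h3
      have h5 : aeval f Q = -((q.divX.eval₂ φ h) * h) := by
        rw [eq_neg_iff_add_eq_zero, add_comm]; exact h3.symm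
      rw [h5]; ring

/-- roots in an overfield of an algebraically closed field -/
theorem root_mem {kb Ω : Type*} [Field kb] [IsAlgClosed kb] [Field Ω] (ι : kb →+* Ω) {p : kb[X]}
    (hp : p ≠ 0) {x : Ω} (hx : p.eval₂ ι x = 0) : ∃ β : kb, p.IsRoot β ∧ ι β = x := by
  let _ : Algebra kb Ω := ι.toAlgebra
  have halg : IsAlgebraic kb x := ⟨p, hp, hx⟩
  have hint : IsIntegral kb x := halg.isIntegral
  have hirr := minpoly.irreducible hint
  have hdeg := IsAlgClosed.degree_eq_one_of_irreducible kb hirr
  obtain ⟨β, hβ⟩ := minpoly.mem_range_of_degree_eq_one kb x hdeg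
  refine ⟨β, ?_, hβ⟩
  have hβ' : ι β = x := hβ
  rw [← hβ', eval₂_at_apply] at hx
  exact (map_eq_zero _).mp hx

theorem exists_roots_compatible {M : Type*} [Field M] {b : M}
    (h : ∀ n : ℕ, 1 ≤ n → ∃ c : M, c ^ n = b) :
    ∃ T : ℕ → M, T 1 = b ∧ (∀ n, 1 ≤ n → T n ^ n = b) ∧
      ∀ n m, 1 ≤ n → 1 ≤ m → T (n * m) ^ m = T n := by
  classical
  obtain ⟨T, hT, hTc⟩ := exists_compatible (fun n => {u : M | u ^ n = b})
    (fun n hn => h n hn) (by
      intro n hn
      have h5 : {u : M | u ^ n = b} ⊆ ((X ^ n - Polynomial.C b).roots.toFinset : Set _) := by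
        intro u hu
        simp only [Finset.mem_coe, Multiset.mem_toFinset]
        rw [Polynomial.mem_roots (Polynomial.X_pow_sub_C_ne_zero (by omega) _)]
        simp only [Polynomial.IsRoot.def, Polynomial.eval_sub, Polynomial.eval_pow,
          Polynomial.eval_X, Polynomial.eval_C, sub_eq_zero]
        exact hu
      exact (Finset.finite_toSet _).subset h5) (by
      intro n m hn hm u hu
      change (u ^ m) ^ n = b
      rw [← pow_mul, mul_comm m n]; exact hu)
  exact ⟨T, by simpa using hT 1 le_rfl, hT, hTc⟩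

/-- a homomorphism with values in a subfield descends -/
theorem exists_descent {R F Fb : Type*} [CommRing R] [Field F] [Field Fb] [Algebra F Fb]
    (Φ : R →+* Fb) (h : ∀ r, ∃ y : F, algebraMap F Fb y = Φ r) :
    ∃ x : R →+* F, ∀ r, algebraMap F Fb (x r) = Φ r := by
  choose x hx using h
  have hinj := (algebraMap F Fb).injective
  refine ⟨{ toFun := x
            map_one' := hinj (by rw [hx, map_one, map_one])
            map_mul' := fun a b => hinj (by rw [hx, map_mul, map_mul, hx, hx])
            map_zero' := hinj (by rw [hx, map_zero, map_zero])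
            map_add' := fun a b => hinj (by rw [hx, map_add, map_add, hx, hx]) }, hx⟩

theorem trdeg_top {k K M : Type*} [Field k] [Field K] [Field M] [Algebra k K] [Algebra k M]
    [Algebra K M] [IsScalarTower k K M] [Algebra.IsAlgebraic K M] (h : Algebra.trdeg k K = 1) :
    Algebra.trdeg k M = 1 := by
  have h1 := lift_trdeg_add_eq k K M
  rw [h, trdeg_eq_zero (R := K) (A := M)] at h1
  simp only [Cardinal.lift_one, Cardinal.lift_zero, add_zero] at h1
  exact Cardinal.lift_eq_one.mp h1.symm

end Pool.Agent.Lib.MP_2f3286_ag
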