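import Mathlib
import Pool.Agent.Lib.MP_2f3286_ag.Local

open IsDedekindDomain NumberField WithZero Polynomial

namespace Pool.Agent.Lib.MP_2f3286_ag

variable {k : Type*} [Field k] [NumberField k]

/-- finiteness of the integers of the completion modulo `𝔭^m` -/
theorem exists_classes_cyclo (v : HeightOneSpectrum (𝓞 k)) (m : ℕ) :
    ∃ cl : v.adicCompletion k → 𝓞 k ⧸ v.asIdeal ^ m, ∀ y y', Valued.v y ≤ 1 → Valued.v y' ≤ 1 →
      cl y = cl y' → Valued.v (y - y') ≤ exp (-(m : ℤ)) := by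
  classical
  have hle : exp (-(m : ℤ)) ≤ (1 : WithZero (Multiplicative ℤ)) := by
    rw [← exp_zero]
    exact exp_le_exp.mpr (by omega)
  have h1 : ∀ y : v.adicCompletion k, Valued.v y ≤ 1 → ∃ a : 𝓞 k,
      Valued.v (y - algebraMap k (v.adicCompletion k) (algebraMap (𝓞 k) k a)) ≤ exp (-(m : ℤ)) := by
    intro y hy
    obtain ⟨x, hx⟩ := exists_approx v y m
    have hx1 : v.valuation k x ≤ 1 := by
      rw [← val_alg]
      have : algebraMap k (v.adicCompletion k) x = y - (y - algebraMap k (v.adicCompletion k) x) := by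
        simp
      rw [this]
      exact (Valued.v.map_sub _ _).trans (max_le hy (hx.trans hle))
    obtain ⟨a, ha⟩ := HeightOneSpectrum.exists_valuation_sub_lt_of_integer v hx1
      (Units.mk0 (exp (-(m : ℤ))) exp_ne_zero)
    simp only [Units.val_mk0] at ha
    refine ⟨a, ?_⟩
    have : y - algebraMap k (v.adicCompletion k) (algebraMap (𝓞 k) k a) =
      (y - algebraMap k (v.adicCompletion k) x) - algebraMap k (v.adicCompletion k)
        (algebraMap (𝓞 k) k a - x) := by rw [map_sub]; ring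
    rw [this]
    refine (Valued.v.map_sub _ _).trans (max_le hx ?_)
    rw [val_alg]; exact ha.le
  choose! a ha using h1
  refine ⟨fun y => Ideal.Quotient.mk _ (a y), fun y y' hy hy' h => ?_⟩
  have h2 : a y - a y' ∈ v.asIdeal ^ m := by
    rw [← Ideal.Quotient.eq_zero_iff_mem, map_sub, sub_eq_zero]; exact h
  have h3 : Valued.v (algebraMap k (v.adicCompletion k) (algebraMap (𝓞 k) k (a y)) -
      algebraMap k (v.adicCompletion k) (algebraMap (𝓞 k) k (a y'))) ≤ exp (-(m : ℤ)) := by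
    rw [← map_sub, ← map_sub, val_alg, HeightOneSpectrum.valuation_of_algebraMap]
    exact (v.intValuation_le_pow_iff_mem _ m).mpr h2
  have h4 : y - y' = (y - algebraMap k (v.adicCompletion k) (algebraMap (𝓞 k) k (a y))) -
      (y' - algebraMap k (v.adicCompletion k) (algebraMap (𝓞 k) k (a y'))) +
      (algebraMap k (v.adicCompletion k) (algebraMap (𝓞 k) k (a y)) -
      algebraMap k (v.adicCompletion k) (algebraMap (𝓞 k) k (a y'))) := by ring
  rw [h4]
  exact (Valued.v.map_add _ _).trans (max_le ((Valued.v.map_sub _ _).trans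
    (max_le (ha y hy) (ha y' hy'))) h3)

/-- `1 - ξ` divides `ℓ` if `ξ ≠ 1` is an `ℓ`-power root of unity -/
theorem exists_mul_eq {O Ω : Type*} [CommRing O] [Field Ω] [Algebra O Ω] {ℓ : ℕ} (hℓ : 0 < ℓ)
    {t : ℕ} {ξ : Ω} (hξ : ξ ^ (ℓ ^ t) = 1) (hξ1 : ξ ≠ 1) :
    ∃ g : Ω, IsIntegral O g ∧ (1 - ξ) * g = ℓ := by
  induction t generalizing ξ with
  | zero => rw [pow_zero, pow_one] at hξ; exact absurd hξ hξ1
  | succ t ih =>
    have hξi : IsIntegral O ξ := by
      refine IsIntegral.of_pow (pow_pos hℓ (t + 1)) ?_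
      rw [hξ]; exact isIntegral_one
    by_cases h1 : ξ ^ ℓ = 1
    · refine ⟨∑ i ∈ Finset.range ℓ, ∑ j ∈ Finset.range i, ξ ^ j, ?_, ?_⟩
      · exact IsIntegral.sum _ fun i _ => IsIntegral.sum _ fun j _ => hξi.pow j
      · rw [Finset.mul_sum]
        have h2 : ∀ i ∈ Finset.range ℓ, (1 - ξ) * ∑ j ∈ Finset.range i, ξ ^ j = 1 - ξ ^ i := by
          intro i _
          rw [mul_comm, geom_sum_mul_neg]
        rw [Finset.sum_congr rfl h2, Finset.sum_sub_distrib]
        have h3 : ∑ i ∈ Finset.range ℓ, ξ ^ i = 0 := by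
          have := geom_sum_mul ξ ℓ
          rw [h1, sub_self] at this
          exact (mul_eq_zero.mp this).resolve_right (sub_ne_zero.mpr hξ1)
        rw [h3]; simp
    · obtain ⟨g, hg, hg'⟩ := ih (ξ := ξ ^ ℓ) (by rw [← pow_mul, ← pow_succ', hξ]) h1
      refine ⟨(∑ j ∈ Finset.range ℓ, ξ ^ j) * g, (IsIntegral.sum _ fun j _ => hξi.pow j).mul hg, ?_⟩
      rw [← mul_assoc, mul_comm (1 - ξ), geom_sum_mul_neg, hg']

/-- The `ℓ`-adic cyclotomic character of a completion of a number field is of infinite order. -/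
theorem exists_cyclo (v : HeightOneSpectrum (𝓞 k)) (ℓ : ℕ) [Fact ℓ.Prime] (w : ℕ) (hw : 1 ≤ w) :
    ∃ (t : ℕ) (τ : Gal(AlgebraicClosure (v.adicCompletion k)/v.adicCompletion k))
      (ζ : AlgebraicClosure (v.adicCompletion k)), ζ ^ (ℓ ^ t) = 1 ∧ (τ ^ w) ζ ≠ ζ := by
  classical
  by_contra hcon
  push Not at hcon
  set F := v.adicCompletion k with hF
  set Ω := AlgebraicClosure F with hΩ
  have hℓ : 0 < ℓ := (Fact.out : ℓ.Prime).pos
  have hcharF : CharZero F := charZero_of_injective_algebraMap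
    (algebraMap k (v.adicCompletion k)).injective
  have hcharΩ : CharZero Ω := charZero_of_injective_algebraMap (algebraMap F Ω).injective
  have hen : ∀ i, HasEnoughRootsOfUnity Ω (ℓ ^ i) := by
    intro i
    have h1 : NeZero (ℓ ^ i) := ⟨pow_ne_zero _ hℓ.ne'⟩
    have h2 : NeZero ((ℓ ^ i : ℕ) : Ω) := ⟨Nat.cast_ne_zero.mpr (pow_ne_zero _ hℓ.ne')⟩
    infer_instance
  let χ := cyclotomicCharacter Ω ℓ
  have hχ : ∀ τ : Gal(Ω/F), (χ (τ : Ω ≃+* Ω) : ℤ_[ℓ]) ^ w = 1 := by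
    intro τ
    have h0 : χ (((τ ^ w : Gal(Ω/F)) : Ω ≃+* Ω)) = χ (τ : Ω ≃+* Ω) ^ w := by
      rw [← map_pow]
      congr 1
      exact map_pow (MulSemiringAction.toRingAut Gal(Ω/F) Ω) τ w
    rw [← Units.val_pow_eq_pow_val, ← h0]
    rw [← PadicInt.ext_of_toZModPow]
    intro t
    rw [map_one]
    obtain ⟨ζ, hζ⟩ := (hen t).prim
    have h1 := cyclotomicCharacter.spec ℓ (n := t) ((τ ^ w : Gal(Ω/F)) : Ω ≃+* Ω) ζ hζ.pow_eq_one
    have h2 : (((τ ^ w : Gal(Ω/F)) : Ω ≃+* Ω)) ζ = ζ := hcon t τ ζ hζ.pow_eq_one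
    rw [h2] at h1
    have h3 : NeZero (ℓ ^ t) := ⟨pow_ne_zero _ hℓ.ne'⟩
    by_cases ht : ℓ ^ t = 1
    · have h4 : Subsingleton (ZMod (ℓ ^ t)) := by
        rw [ht]; infer_instance
      exact Subsingleton.elim _ _
    have h4 : 1 < ℓ ^ t := lt_of_le_of_ne (pow_pos hℓ t) (Ne.symm ht)
    have h5 : ζ ^ 1 = ζ ^ (ZMod.val (PadicInt.toZModPow t ((χ (((τ ^ w : Gal(Ω/F)) : Ω ≃+* Ω))) : ℤ_[ℓ]))) := by
      rw [pow_one]; exact h1
    have h6 := hζ.pow_inj h4 (ZMod.val_lt _) h5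
    have h7 : Fact (1 < ℓ ^ t) := ⟨h4⟩
    apply ZMod.val_injective
    rw [← h6, ZMod.val_one]
  -- the degree of a root of unity is at most `w`
  have halg : ∀ x : Ω, IsAlgebraic F x := fun x => Algebra.IsAlgebraic.isAlgebraic x
  have hsep : ∀ x : Ω, (minpoly F x).Separable := fun x =>
    (minpoly.irreducible (halg x).isIntegral).separable
  have hdeg : ∀ t (ζ : Ω), ζ ^ (ℓ ^ t) = 1 → (minpoly F ζ).natDegree ≤ w := by
    intro t ζ hζ
    have h1 := card_rootSet_eq_natDegree (hsep ζ) (IsAlgClosed.splits ((minpoly F ζ).map (algebraMap F Ω)))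
    rw [← h1, ← Set.toFinset_card]
    let Z : Finset ℤ_[ℓ] := (nthRoots w (1 : ℤ_[ℓ])).toFinset
    have hZ : Z.card ≤ w := (Multiset.toFinset_card_le _).trans (card_nthRoots w 1)
    refine le_trans (le_trans (Finset.card_le_card (t := Z.image
      (fun x => ζ ^ (ZMod.val (PadicInt.toZModPow t x)))) ?_) Finset.card_image_le) hZ
    intro r hr
    rw [Set.mem_toFinset, mem_rootSet] at hr
    obtain ⟨τ, hτ⟩ := minpoly.exists_algEquiv_of_root' (halg ζ) hr.2
    rw [Finset.mem_image]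
    refine ⟨(χ (τ : Ω ≃+* Ω) : ℤ_[ℓ]), ?_, ?_⟩
    · rw [Multiset.mem_toFinset, mem_nthRoots (by omega)]
      exact hχ τ
    · rw [← hτ]
      exact (cyclotomicCharacter.spec ℓ (n := t) (τ : Ω ≃+* Ω) ζ hζ).symm
  -- the integers
  let O := v.adicCompletionIntegers k
  have hO : ∀ x : F, Valued.v x ≤ 1 → IsIntegral O (algebraMap F Ω x) := by
    intro x hx
    have h1 : algebraMap F Ω x = algebraMap O Ω ⟨x, hx⟩ := rfl
    rw [h1]; exact isIntegral_algebraMap
  have hO' : ∀ x : F, IsIntegral O (algebraMap F Ω x) → Valued.v x ≤ 1 := by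
    intro x hx
    have h1 : IsIntegral O x := (isIntegral_algebraMap_iff (algebraMap F Ω).injective).mp hx
    obtain ⟨y, hy⟩ := IsIntegrallyClosed.algebraMap_eq_of_integral h1
    rw [← hy]
    exact y.2
  have hζO : ∀ t (ζ : Ω), ζ ^ (ℓ ^ t) = 1 → IsIntegral O ζ := by
    intro t ζ hζ
    refine IsIntegral.of_pow (pow_pos hℓ t) ?_
    rw [hζ]; exact isIntegral_one
  have hcoef : ∀ t (ζ : Ω), ζ ^ (ℓ ^ t) = 1 → ∀ i, Valued.v ((minpoly F ζ).coeff i) ≤ 1 := by
    intro t ζ hζ i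
    rw [minpoly.isIntegrallyClosed_eq_field_fractions' F (hζO t ζ hζ), coeff_map]
    exact ((minpoly O ζ).coeff i).2
  -- choice of `m` and `y₀`
  have hℓF : ((ℓ : F) ^ w) ≠ 0 := pow_ne_zero _ (Nat.cast_ne_zero.mpr hℓ.ne')
  obtain ⟨m, hm⟩ := exists_exp_neg_lt (g := Valued.v ((ℓ : F) ^ w)) ((Valuation.ne_zero_iff _).mpr hℓF)
  obtain ⟨y₀, hy₀⟩ := HeightOneSpectrum.valuedAdicCompletion_surjective k v (exp (-(m : ℤ)))
  have hy₀0 : y₀ ≠ 0 := by
    intro h
    rw [h, map_zero] at hy₀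
    exact exp_ne_zero hy₀.symm
  obtain ⟨cl, hcl⟩ := exists_classes_cyclo v m
  have hfin : Finite (𝓞 k ⧸ v.asIdeal ^ m) := 
    Ideal.finiteQuotientOfFreeOfNeBot _ (pow_ne_zero _ v.ne_bot)
  choose ζ hζ using fun t => (hen t).prim
  let C : ℕ → (Fin (w + 1) → 𝓞 k ⧸ v.asIdeal ^ m) := fun t i => cl ((minpoly F (ζ t)).coeff i)
  obtain ⟨t, t', hne, hC⟩ := Finite.exists_ne_map_eq_of_infinite C
  have hpow := (hζ t).pow_eq_one
  have hpow' := (hζ t').pow_eq_one
  set p := minpoly F (ζ t) with hp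
  have hp'0 : aeval (ζ t') (minpoly F (ζ t')) = 0 := minpoly.aeval _ _
  have hpd : p.natDegree < w + 1 := Nat.lt_succ_of_le (hdeg t _ hpow)
  have hpd' : (minpoly F (ζ t')).natDegree < w + 1 := Nat.lt_succ_of_le (hdeg t' _ hpow')
  obtain ⟨e, he, hpe⟩ : ∃ e : Ω, IsIntegral O e ∧ aeval (ζ t') p = algebraMap F Ω y₀ * e := by
    refine ⟨∑ i ∈ Finset.range (w + 1), algebraMap F Ω
      ((p.coeff i - (minpoly F (ζ t')).coeff i) / y₀) * ζ t' ^ i, ?_, ?_⟩
    · refine IsIntegral.sum _ fun i hi => (hO _ ?_).mul ((hζO t' _ hpow').pow i)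
      have h1 : cl (p.coeff i) = cl ((minpoly F (ζ t')).coeff i) :=
        congrFun hC ⟨i, Finset.mem_range.mp hi⟩
      have h2 := hcl _ _ (hcoef t _ hpow i) (hcoef t' _ hpow' i) h1
      rw [map_div₀, hy₀]
      exact div_le_one_of_le₀ h2 zero_le
    · have h1 : aeval (ζ t') p = aeval (ζ t') p - aeval (ζ t') (minpoly F (ζ t')) := by
        rw [hp'0, sub_zero]
      rw [h1, aeval_eq_sum_range' hpd, aeval_eq_sum_range' hpd', ← Finset.sum_sub_distrib,
        Finset.mul_sum]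
      refine Finset.sum_congr rfl fun i _ => ?_
      rw [Algebra.smul_def, Algebra.smul_def, ← sub_mul, ← map_sub, ← mul_assoc, ← map_mul,
        mul_div_cancel₀ _ hy₀0]
  have hx0 : ζ t' ≠ 0 := (hζ t').ne_zero (pow_ne_zero _ hℓ.ne')
  have hfac : ∀ r ∈ p.aroots Ω, ∃ g : Ω, IsIntegral O g ∧ (ζ t' - r) * g = ℓ := by
    intro r hr
    have hr1 := (mem_aroots.mp hr).2
    obtain ⟨τ, hτ⟩ := minpoly.exists_algEquiv_of_root' (halg (ζ t)) hr1
    have hrp : IsPrimitiveRoot r (ℓ ^ t) := by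
      rw [← hτ]
      exact (hζ t).map_of_injective τ.injective
    have hξ : (r / ζ t') ^ (ℓ ^ (t + t')) = 1 := by
      rw [div_pow, pow_add, pow_mul, hrp.pow_eq_one, one_pow, mul_comm, pow_mul, hpow', one_pow,
        div_one]
    have hξ1 : r / ζ t' ≠ 1 := by
      intro h
      rw [div_eq_one_iff_eq hx0] at h
      rw [h] at hrp
      have h2 := hrp.unique (hζ t')
      exact hne (Nat.pow_right_injective (Fact.out : ℓ.Prime).two_le h2)
    obtain ⟨g, hg, hg'⟩ := exists_mul_eq (O := O) hℓ hξ hξ1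
    refine ⟨(ζ t')⁻¹ * g, IsIntegral.mul ?_ hg, ?_⟩
    · refine IsIntegral.of_pow (pow_pos hℓ t') ?_
      rw [inv_pow, hpow', inv_one]; exact isIntegral_one
    · rw [← hg', ← mul_assoc, ← div_eq_mul_inv, sub_div, div_self hx0]
  obtain ⟨G, hG, hprod⟩ : ∃ G : Ω, IsIntegral O G ∧ aeval (ζ t') p * G = (ℓ : Ω) ^ p.natDegree := by
    have hmonic : p.Monic := minpoly.monic (halg _).isIntegral
    have hs : (p.map (algebraMap F Ω)).Splits := IsAlgClosed.splits _
    rw [hs.aeval_eq_prod_aroots_of_monic hmonic, 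
      show p.natDegree = (p.aroots Ω).card by
        rw [← hs.natDegree_eq_card_roots, natDegree_map]]
    have hgen : ∀ s : Multiset Ω, (∀ r ∈ s, ∃ g : Ω, IsIntegral O g ∧ (ζ t' - r) * g = ℓ) →
        ∃ G : Ω, IsIntegral O G ∧ (s.map (fun r => ζ t' - r)).prod * G = (ℓ : Ω) ^ s.card := by
      intro s
      induction s using Multiset.induction with
      | empty => intro _; exact ⟨1, isIntegral_one, by simp⟩
      | cons r s ih =>
        intro h
        obtain ⟨G, hG, hG'⟩ := ih (fun r hr => h r (Multiset.mem_cons_of_mem hr))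
        obtain ⟨g, hg, hg'⟩ := h r (Multiset.mem_cons_self r s)
        refine ⟨g * G, hg.mul hG, ?_⟩
        rw [Multiset.map_cons, Multiset.prod_cons, Multiset.card_cons, pow_succ, ← hG', ← hg']
        ring
    exact hgen _ hfac
  have hfinal : Valued.v ((ℓ : F) ^ w / y₀) ≤ 1 := by
    apply hO'
    have h1 : algebraMap F Ω ((ℓ : F) ^ w / y₀) = e * G * (ℓ : Ω) ^ (w - p.natDegree) := by
      have hy₀Ω : algebraMap F Ω y₀ ≠ 0 := by rw [_root_.map_ne_zero]; exact hy₀0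
      rw [map_div₀, map_pow, map_natCast, div_eq_iff hy₀Ω]
      have h2 : (ℓ : Ω) ^ w = (ℓ : Ω) ^ p.natDegree * (ℓ : Ω) ^ (w - p.natDegree) := by
        rw [← pow_add]; congr 1; omega
      rw [h2, ← hprod, hpe]; ring
    rw [h1]
    refine (he.mul hG).mul (IsIntegral.pow ?_ _)
    have h3 : (ℓ : Ω) = algebraMap O Ω (ℓ : O) := by rw [map_natCast]
    rw [h3]; exact isIntegral_algebraMap
  rw [map_div₀, hy₀] at hfinal
  have h4 : Valued.v ((ℓ : F) ^ w) ≤ exp (-(m : ℤ)) := by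
    rwa [div_le_one₀ (by exact zero_lt_iff.mpr exp_ne_zero)] at hfinal
  exact absurd hm (not_lt.mpr h4)

end Pool.Agent.Lib.MP_2f3286_ag
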