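import Mathlib
import Pool.Agent.Lib.MP_2f3286_ag.Pair

open IsDedekindDomain NumberField IntermediateField

namespace Pool.Agent.Lib.MP_2f3286_ag

theorem exists_j {k kb : Type*} [Field k] [NumberField k] [Field kb] [Algebra k kb]
    [IsGalois k kb] (L : IntermediateField k kb) [NumberField L] 
    (v : HeightOneSpectrum (𝓞 k)) (w : HeightOneSpectrum (𝓞 L)) [w.asIdeal.LiesOver v.asIdeal]
    (ι : kb →ₐ[k] AlgebraicClosure (v.adicCompletion k)) :
    ∃ (j : AlgebraicClosure (v.adicCompletion k) →+* AlgebraicClosure (w.adicCompletion L))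
      (ρ : Gal(kb/k)),
      (∀ x : L, j (ι (ρ x)) =
        algebraMap _ (AlgebraicClosure (w.adicCompletion L)) (algebraMap L (w.adicCompletion L) x)) ∧
      ∀ τ : Gal(AlgebraicClosure (w.adicCompletion L)/w.adicCompletion L),
        ∃ τ' : Gal(AlgebraicClosure (v.adicCompletion k)/v.adicCompletion k),
          ∀ x, j (τ' x) = τ (j x) := by
  obtain ⟨j₀, hj₀⟩ := exists_completion_hom v w
  have : CharZero (v.adicCompletion k) := charZero_of_injective_algebraMap
    (algebraMap k (v.adicCompletion k)).injective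
  let _ : Algebra (v.adicCompletion k) (w.adicCompletion L) := j₀.toAlgebra
  let j : AlgebraicClosure (v.adicCompletion k) →ₐ[v.adicCompletion k]
    AlgebraicClosure (w.adicCompletion L) := IsAlgClosed.lift
  have hj : ∀ a : v.adicCompletion k, j (algebraMap _ _ a) =
      algebraMap _ (AlgebraicClosure (w.adicCompletion L)) (j₀ a) := by
    intro a
    rw [AlgHom.commutes]
    rfl
  have : Algebra.IsAlgebraic L kb := inferInstance
  have : FaithfulSMul L (AlgebraicClosure (w.adicCompletion L)) := by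
    rw [faithfulSMul_iff_algebraMap_injective]
    exact (algebraMap L (AlgebraicClosure (w.adicCompletion L))).injective
  have : Module.IsTorsionFree L (AlgebraicClosure (w.adicCompletion L)) := inferInstance
  let ι'' : kb →ₐ[L] AlgebraicClosure (w.adicCompletion L) := IsAlgClosed.lift
  have hι'' : ∀ x : L, ι'' x = algebraMap _ (AlgebraicClosure (w.adicCompletion L))
      (algebraMap L (w.adicCompletion L) x) := by
    intro x
    exact ι''.commutes x
  have hk : ∀ a : k, j (ι (algebraMap k kb a)) = algebraMap _ (AlgebraicClosure (w.adicCompletion L))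
      (algebraMap L (w.adicCompletion L) (algebraMap k L a)) := by
    intro a
    rw [ι.commutes]
    rw [IsScalarTower.algebraMap_apply k (v.adicCompletion k) (AlgebraicClosure (v.adicCompletion k)),
      hj, hj₀]
  obtain ⟨ρ, hρ⟩ := exists_aut_of_embeddings (k := k)
    ((j : _ →+* AlgebraicClosure (w.adicCompletion L)).comp
      (ι : kb →+* AlgebraicClosure (v.adicCompletion k))) (ι'' : kb →+* _) (by
      intro a
      change j (ι (algebraMap k kb a)) = ι'' (algebraMap k kb a)
      rw [hk]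
      exact (hι'' (algebraMap k L a)).symm)
  have hρ' : ∀ x : kb, j (ι (ρ x)) = ι'' x := hρ
  refine ⟨j, ρ, fun x => ?_, fun τ => ?_⟩
  · change j (ι (ρ x)) = _
    rw [hρ', hι'']
  · obtain ⟨τ', hτ'⟩ := exists_restrict' (k := v.adicCompletion k)
      (j : AlgebraicClosure (v.adicCompletion k) →+* AlgebraicClosure (w.adicCompletion L))
      (τ : AlgebraicClosure (w.adicCompletion L) →+* AlgebraicClosure (w.adicCompletion L)) (by
      intro a
      change τ (j (algebraMap _ _ a)) = j (algebraMap _ _ a)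
      rw [hj, AlgEquiv.commutes])
    exact ⟨τ', hτ'⟩

/-- `σ` fixes the `n`-th roots of unity. -/
def FixMu {k kb : Type*} [Field k] [Field kb] [Algebra k kb] (n : ℕ) (σ : Gal(kb/k)) : Prop :=
  ∀ ζ : kb, ζ ^ n = 1 → σ ζ = ζ

/-- A character of order `n` of an open subgroup `H` fixing the `n`-th roots of unity that is
trivial on the decomposition groups of almost all places is trivial. -/
theorem density_char {k kb : Type*} [Field k] [NumberField k] [Field kb] [Algebra k kb]
    [IsGalois k kb] [IsAlgClosed kb] {n : ℕ} (hn : 1 ≤ n) (S : Finset (HeightOneSpectrum (𝓞 k)))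
    (H : Subgroup Gal(kb/k)) (hH : IsOpen (H : Set Gal(kb/k))) (hμ : ∀ σ ∈ H, FixMu n σ)
    (χ : Gal(kb/k) → kbˣ)
    (hmul : ∀ σ τ, σ ∈ H → τ ∈ H → χ (σ * τ) = χ σ * χ τ)
    (hpow : ∀ σ, σ ∈ H → χ σ ^ n = 1)
    (hopen : {σ | χ σ = 1} ∈ nhds (1 : Gal(kb/k)))
    (hloc : ∀ v ∉ S, ∀ ι : kb →ₐ[k] AlgebraicClosure (v.adicCompletion k), ∀ σ, σ ∈ H →
      (∃ τ : Gal(AlgebraicClosure (v.adicCompletion k)/v.adicCompletion k),
        ∀ x, ι (σ x) = τ (ι x)) → χ σ = 1) :
    ∀ σ, σ ∈ H → χ σ = 1 := by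
  classical
  have hchar : CharZero kb := charZero_of_injective_algebraMap (algebraMap k kb).injective
  have hne : NeZero n := ⟨by omega⟩
  have hne' : NeZero (n : kb) := ⟨Nat.cast_ne_zero.mpr (by omega)⟩
  obtain ⟨ζ, hζ⟩ := HasEnoughRootsOfUnity.exists_primitiveRoot kb n
  let L : IntermediateField k kb := IntermediateField.fixedField H
  have hfixL : L.fixingSubgroup = H :=
    InfiniteGalois.fixingSubgroup_fixedField ⟨H, H.isClosed_of_isOpen hH⟩
  have hLfin : FiniteDimensional k L := by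
    rw [← InfiniteGalois.isOpen_iff_finite, hfixL]
    exact hH
  have hLnf : NumberField L := NumberField.of_module_finite k L
  have hζL : ζ ∈ L := by
    rw [IntermediateField.mem_fixedField_iff]
    exact fun σ hσ => hμ σ hσ ζ hζ.pow_eq_one
  have hroot : ∀ ξ : kb, ξ ^ n = 1 → ∃ i, ξ = ζ ^ i := by
    intro ξ hξ
    obtain ⟨i, -, hi⟩ := hζ.eq_pow_of_pow_eq_one hξ
    exact ⟨i, hi.symm⟩
  have hrootL : ∀ ξ : kb, ξ ^ n = 1 → ξ ∈ L := by
    intro ξ hξ
    obtain ⟨i, rfl⟩ := hroot ξ hξ
    exact pow_mem hζL i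
  have hfix : ∀ σ : Gal(kb/k), σ ∈ H ↔ σ ∈ L.fixingSubgroup := by
    intro σ; rw [hfixL]
  let r : Gal(kb/L) → Gal(kb/k) := fun τ => τ.restrictScalars k
  have hr : ∀ τ, r τ ∈ L.fixingSubgroup := fun τ x => τ.commutes x
  have hr' : ∀ τ, r τ ∈ H := fun τ => (hfix _).mpr (hr τ)
  let c : Gal(kb/L) → kbˣ := fun τ => χ (r τ)
  have hcn : ∀ τ, c τ ^ n = 1 := fun τ => hpow _ (hr' τ)
  have hcoc : ∀ σ τ : Gal(kb/L), (c (σ * τ) : kb) = c σ * σ (c τ) := by
    intro σ τ
    have h3 : r (σ * τ) = r σ * r τ := rfl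
    have h4 : σ (c τ : kb) = c τ := by
      refine hμ _ (hr' σ) (c τ : kb) ?_
      rw [← Units.val_pow_eq_pow_val, hcn, Units.val_one]
    rw [h4]
    change ((χ (r (σ * τ)) : kbˣ) : kb) = _
    rw [h3, hmul _ _ (hr' σ) (hr' τ)]
    rfl
  have hopen' : {σ : Gal(kb/L) | c σ = 1} ∈ nhds 1 := by
    obtain ⟨E, hE, hEU⟩ := (krullTopology_mem_nhds_one_iff k kb _).mp hopen
    have hEL : FiniteDimensional k (E ⊔ L : IntermediateField k kb) := inferInstance
    let E' : IntermediateField L kb := IntermediateField.extendScalars (le_sup_right : L ≤ E ⊔ L)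
    have hE'0 : FiniteDimensional k E' := hEL
    have hE' : FiniteDimensional L E' := Module.Finite.of_restrictScalars_finite k L E'
    rw [krullTopology_mem_nhds_one_iff]
    refine ⟨E', hE', fun τ hτ => ?_⟩
    have h6 : r τ ∈ E.fixingSubgroup := by
      intro x
      exact hτ ⟨x.1, (le_sup_left : E ≤ E ⊔ L) x.2⟩
    exact hEU h6
  obtain ⟨z, hz⟩ := hilbert90 L kb c hcoc hopen'
  have hzσ : ∀ σ, σ ∈ H → σ (z : kb) = χ σ * z := by
    intro σ hσ
    let τ : Gal(kb/L) := IntermediateField.fixingSubgroupEquiv L ⟨σ, (hfix σ).mp hσ⟩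
    have h8 : r τ = σ := by ext x; rfl
    have h9 := hz τ
    change ((χ (r τ) : kbˣ) : kb) * z = τ z at h9
    rw [h8] at h9
    rw [h9]
    rfl
  have hzn : (z : kb) ^ n ∈ L := by
    apply mem_of_fixed_L
    intro σ hσ
    have hσ' := (hfix σ).mpr hσ
    rw [map_pow, hzσ σ hσ', mul_pow, ← Units.val_pow_eq_pow_val, hpow σ hσ', Units.val_one, one_mul]
  set b : L := ⟨(z : kb) ^ n, hzn⟩ with hb
  have hb0 : b ≠ 0 := by
    intro h
    have h1 : (z : kb) ^ n = 0 := congrArg Subtype.val h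
    exact pow_ne_zero n z.ne_zero h1
  have hζL' : IsPrimitiveRoot (⟨ζ, hζL⟩ : L) n := by
    apply IsPrimitiveRoot.of_map_of_injective (f := algebraMap L kb) _ (algebraMap L kb).injective
    exact hζ
  -- local solvability
  have hlocal : ∀ v ∉ S, ∀ w : HeightOneSpectrum (𝓞 L), w.asIdeal.LiesOver v.asIdeal →
      ∃ y : w.adicCompletion L, y ^ n = algebraMap L (w.adicCompletion L) b := by
    intro v hv w hw
    have : FaithfulSMul k (AlgebraicClosure (v.adicCompletion k)) := by
      rw [faithfulSMul_iff_algebraMap_injective]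
      exact (algebraMap k (AlgebraicClosure (v.adicCompletion k))).injective
    have : Module.IsTorsionFree k (AlgebraicClosure (v.adicCompletion k)) := inferInstance
    let ι₀ : kb →ₐ[k] AlgebraicClosure (v.adicCompletion k) := IsAlgClosed.lift
    obtain ⟨j, ρ, hj1, hj2⟩ := exists_j L v w ι₀
    let ι : kb →ₐ[k] AlgebraicClosure (v.adicCompletion k) := ι₀.comp (ρ : kb →ₐ[k] kb)
    have hι : ∀ x, ι x = ι₀ (ρ x) := fun x => rfl
    have : CharZero L := inferInstance
    have : CharZero (w.adicCompletion L) := charZero_of_injective_algebraMap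
      (algebraMap L (w.adicCompletion L)).injective
    obtain ⟨y, hy⟩ := mem_of_fixed (F := w.adicCompletion L)
      (Fb := AlgebraicClosure (w.adicCompletion L)) (y := j (ι z)) (by
        intro τ
        obtain ⟨τ', hτ'⟩ := hj2 τ
        obtain ⟨σ, hσ⟩ := exists_restrict ι τ'
        have hσL : σ ∈ L.fixingSubgroup := by
          intro x
          apply ((j.comp (ι : kb →+* AlgebraicClosure (v.adicCompletion k)))).injective
          change j (ι (σ (x : kb))) = j (ι (x : kb))
          rw [hσ, hτ', hι, hj1, AlgEquiv.commutes]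
        have h1 := hloc v hv ι σ ((hfix σ).mpr hσL) ⟨τ', hσ⟩
        have h2 := hzσ σ ((hfix σ).mpr hσL)
        rw [h1, Units.val_one, one_mul] at h2
        rw [← hτ', ← hσ, h2])
    refine ⟨y, ?_⟩
    apply (algebraMap (w.adicCompletion L) (AlgebraicClosure (w.adicCompletion L))).injective
    rw [map_pow, hy, ← map_pow, ← map_pow]
    have h3 : ((b : L) : kb) = (z : kb) ^ n := rfl
    rw [← h3, hι, hj1]
  -- make `b` integral
  obtain ⟨a, b', ha, hb', hab⟩ : ∃ (a b' : 𝓞 L), a ≠ 0 ∧ b' ≠ 0 ∧ (b' : L) = (a : L) ^ n * b := by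
    obtain ⟨p, q, hq, hpq⟩ := IsFractionRing.div_surjective (A := 𝓞 L) b
    have hq0 : q ≠ 0 := nonZeroDivisors.ne_zero hq
    have hq0' : (q : L) ≠ 0 := fun h => hq0 (RingOfIntegers.ext h)
    have hp0' : (p : L) ≠ 0 := by
      intro h
      apply hb0
      rw [← hpq]
      change (p : L) / (q : L) = 0
      rw [h, zero_div]
    have hp0 : p ≠ 0 := by
      rintro rfl; exact hp0' rfl
    refine ⟨q, q ^ (n - 1) * p, hq0, mul_ne_zero (pow_ne_zero _ hq0) hp0, ?_⟩
    rw [← hpq]
    change (q : L) ^ (n - 1) * (p : L) = (q : L) ^ n * ((p : L) / (q : L))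
    obtain ⟨m, rfl⟩ : ∃ m, n = m + 1 := ⟨n - 1, by omega⟩
    rw [Nat.add_sub_cancel, pow_succ]
    field_simp
  let T : Finset (HeightOneSpectrum (𝓞 L)) := (finite_above (F := L) S).toFinset ∪
    (finite_mem hb').toFinset
  obtain ⟨-, d, hd1, hd2, y, hy⟩ := exists_small_order (J := Unit) (by omega : 0 < n) hζL'
    (fun _ => b') (fun _ => hb') T (by
    intro w hw
    simp only [T, Finset.mem_union, Set.Finite.mem_toFinset, Set.mem_ofPred_eq, 
      not_or, not_exists, not_and] at hw
    obtain ⟨h1, h2⟩ := hw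
    obtain ⟨v, hv⟩ := exists_below (L := k) w
    obtain ⟨z', hz'⟩ := hlocal v (fun hvS => h1 v hvS hv) w hv
    refine ⟨(), exists_residue_root w (by omega) b' h2 (algebraMap L _ (a : L) * z') ?_⟩
    rw [mul_pow, hz', ← map_pow, ← map_mul, ← hab])
  have hd : d = 1 := by
    rw [Fintype.card_unit] at hd2
    omega
  rw [hd, pow_one] at hy
  -- so `z` is in `L`
  intro σ hσ
  have ha0 : (a : L) ≠ 0 := fun h => ha (RingOfIntegers.ext h)
  have h1 : (z : kb) ^ n = ((y / (a : L) : L) : kb) ^ n := by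
    have h2 : (y / (a : L)) ^ n = b := by
      rw [div_pow, hy, hab, mul_div_cancel_left₀ _ (pow_ne_zero _ ha0)]
    have h3 := congrArg (fun t : L => (t : kb)) h2
    simp only [IntermediateField.coe_pow] at h3
    rw [h3]
  have hy0 : ((y / (a : L) : L) : kb) ≠ 0 := by
    intro h
    rw [h, zero_pow (by omega)] at h1
    exact pow_ne_zero n z.ne_zero h1
  have h4 : ((z : kb) / ((y / (a : L) : L) : kb)) ^ n = 1 := by
    rw [div_pow, h1, div_self (pow_ne_zero n hy0)]
  have h5 : (z : kb) ∈ L := by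
    have h6 := mul_mem (hrootL _ h4) (y / (a : L)).2
    rwa [div_mul_cancel₀ _ hy0] at h6
  have h7 : σ (z : kb) = z := (hfix σ).mp hσ ⟨z, h5⟩
  have h8 := hzσ σ hσ
  rw [h7] at h8
  ext
  rw [Units.val_one]
  exact mul_right_cancel₀ z.ne_zero (h8.symm.trans (one_mul _).symm)

end Pool.Agent.Lib.MP_2f3286_ag
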