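import Mathlib
import Pool.Agent.Lib.MP_2f3286_ag.Dens
import Pool.Agent.Lib.MP_2f3286_ag.Cyclo
import Pool.Agent.Lib.MP_2f3286_ag.Aux2

/-!
# Locally trivial cocycles in torsion-free modules of Tate type are trivial
-/

open IsDedekindDomain NumberField IntermediateField

namespace Pool.Agent.Lib.MP_2f3286_ag

section group

variable {A : Type*} [CommGroup A]

/-- coprime powers -/
theorem exists_pow_of_coprime {x : A} {a b : ℕ} (hab : a.Coprime b) (ha : ∃ y, y ^ a = x)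
    (hb : ∃ y, y ^ b = x) : ∃ y, y ^ (a * b) = x := by
  obtain ⟨y, hy⟩ := ha
  obtain ⟨z, hz⟩ := hb
  have h1 : (Nat.gcd a b : ℤ) = a * Nat.gcdA a b + b * Nat.gcdB a b := Nat.gcd_eq_gcd_ab a b
  rw [hab.gcd_eq_one, Nat.cast_one] at h1
  refine ⟨z ^ (Nat.gcdA a b) * y ^ (Nat.gcdB a b), ?_⟩
  have h2 : x = x ^ ((a : ℤ) * Nat.gcdA a b + b * Nat.gcdB a b) := by rw [← h1, zpow_one]
  conv_rhs => rw [h2]
  rw [mul_pow, zpow_add, zpow_mul, zpow_mul]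
  congr 1
  · rw [← hz]
    rw [← zpow_natCast, ← zpow_natCast z b, ← zpow_mul, ← zpow_mul, ← zpow_mul]
    congr 1; push_cast; ring
  · rw [← hy]
    rw [← zpow_natCast, ← zpow_natCast y a, ← zpow_mul, ← zpow_mul, ← zpow_mul]
    congr 1; push_cast; ring

theorem exists_pow_all {x : A} (h : ∀ ℓ : ℕ, ℓ.Prime → ∀ u : ℕ, ∃ y, y ^ (ℓ ^ u) = x) :
    ∀ n : ℕ, 1 ≤ n → ∃ y, y ^ n = x := by
  intro n
  induction n using Nat.recOnPosPrimePosCoprime with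
  | prime_pow p n hp hn => intro _; exact h p hp n
  | zero => intro h0; omega
  | one => intro _; exact ⟨x, pow_one x⟩
  | coprime a b ha hb hab iha ihb =>
    intro _
    exact exists_pow_of_coprime hab (iha (by omega)) (ihb (by omega))

/-- The torsion-free cancellation of exponents. -/
theorem exists_pow_of_zpow (htf : ∀ (x : A) (n : ℕ), 1 ≤ n → x ^ n = 1 → x = 1) {x : A} {ℓ : ℕ}
    (hℓ : ℓ.Prime) {t : ℕ} (h : ∀ N, t ≤ N → ∃ e : ℤ, ¬ ((ℓ ^ t : ℕ) : ℤ) ∣ e ∧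
      ∃ y : A, y ^ (ℓ ^ N) = x ^ e) (u : ℕ) : ∃ y, y ^ (ℓ ^ u) = x := by
  obtain ⟨e, he, y, hy⟩ := h (u + t) (by omega)
  have he0 : e ≠ 0 := by rintro rfl; exact he (dvd_zero _)
  have hℓ0 : 0 < ℓ := hℓ.pos
  obtain ⟨a, m, hm, rfl⟩ : ∃ (a : ℕ) (m : ℤ), ¬ (ℓ : ℤ) ∣ m ∧ e = (ℓ : ℤ) ^ a * m := by
    have hfin : FiniteMultiplicity (ℓ : ℤ) e := by
      rw [Int.finiteMultiplicity_iff]
      refine ⟨?_, he0⟩
      rw [Int.natAbs_natCast]
      exact hℓ.one_lt.ne'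
    obtain ⟨m, hm1, hm2⟩ := hfin.exists_eq_pow_mul_and_not_dvd
    exact ⟨_, m, hm2, hm1⟩
  have hat : a < t := by
    by_contra hcon
    push Not at hcon
    apply he
    push_cast
    exact (pow_dvd_pow _ hcon).mul_right _
  -- cancel `ℓ ^ a`
  have h1 : (x ^ m * (y ^ (ℓ ^ (u + t - a)))⁻¹) ^ (ℓ ^ a) = 1 := by
    rw [mul_pow, inv_pow, ← pow_mul, ← pow_add, show u + t - a + a = u + t by omega, hy,
      ← zpow_natCast, ← zpow_mul]
    rw [show m * ((ℓ ^ a : ℕ) : ℤ) = (ℓ : ℤ) ^ a * m by push_cast; ring, mul_inv_cancel]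
  have h2 := htf _ _ (Nat.one_le_pow _ _ hℓ0) h1
  have h3 : x ^ m = y ^ (ℓ ^ (u + t - a)) := by
    rw [← mul_inv_eq_one]; exact h2
  have hcop : IsCoprime m ((ℓ ^ u : ℕ) : ℤ) := by
    push_cast
    apply IsCoprime.pow_right
    rw [isCoprime_comm]
    exact (Nat.prime_iff_prime_int.mp hℓ).coprime_iff_not_dvd.mpr hm
  obtain ⟨p, q, hpq⟩ := hcop
  refine ⟨(y ^ (ℓ ^ (t - a))) ^ p * x ^ q, ?_⟩
  have h4 : x = x ^ (p * m + q * ((ℓ ^ u : ℕ) : ℤ)) := by rw [hpq, zpow_one]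
  conv_rhs => rw [h4]
  rw [zpow_add, mul_comm p m, zpow_mul, h3, mul_pow]
  congr 1
  · rw [← zpow_natCast, ← zpow_natCast y, ← zpow_natCast y, ← zpow_mul, ← zpow_mul, ← zpow_mul]
    congr 1
    rw [show u + t - a = u + (t - a) by omega]
    push_cast; ring
  · rw [zpow_mul, zpow_natCast]

end group

/-- fixing the `n`-th roots of unity is an open condition -/
theorem exists_fixMu (k : Type*) {kb : Type*} [Field k] [Field kb] [Algebra k kb] [CharZero kb]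
    [IsGalois k kb] [IsAlgClosed kb] {n : ℕ} (hn : 1 ≤ n) :
    ∃ L : IntermediateField k kb, FiniteDimensional k L ∧
      ∀ σ : Gal(kb/k), FixMu n σ ↔ σ ∈ L.fixingSubgroup := by
  have hne : NeZero n := ⟨by omega⟩
  have hne' : NeZero (n : kb) := ⟨Nat.cast_ne_zero.mpr (by omega)⟩
  obtain ⟨ζ, hζ⟩ := HasEnoughRootsOfUnity.exists_primitiveRoot kb n
  have hζi : IsIntegral k ζ := Algebra.IsIntegral.isIntegral ζ
  have hζL : ζ ∈ k⟮ζ⟯ := mem_adjoin_simple_self k ζ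
  refine ⟨k⟮ζ⟯, adjoin.finiteDimensional hζi, fun σ => ⟨fun h => ?_, fun h ξ hξ => ?_⟩⟩
  · have h1 : σ ζ = ζ := h ζ hζ.pow_eq_one
    rw [IntermediateField.mem_fixingSubgroup_iff]
    intro x hx
    have h2 : k⟮ζ⟯ ≤ IntermediateField.fixedField (Subgroup.zpowers σ) := by
      rw [adjoin_simple_le_iff, IntermediateField.mem_fixedField_iff]
      rintro g hg
      obtain ⟨m, rfl⟩ := Subgroup.mem_zpowers_iff.mp hg
      have h3 : σ ∈ MulAction.stabilizer Gal(kb/k) ζ := h1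
      exact (MulAction.stabilizer Gal(kb/k) ζ).zpow_mem h3 m
    exact (IntermediateField.mem_fixedField_iff _ _).mp (h2 hx) σ (Subgroup.mem_zpowers σ)
  · obtain ⟨i, -, rfl⟩ := hζ.eq_pow_of_pow_eq_one hξ
    exact h ⟨ζ ^ i, pow_mem hζL i⟩

/-- A cocycle with values in a torsion-free module, of Tate type of non-zero weight over an open
normal subgroup `H₀`, that is locally trivial at all places outside `S` is trivial, as soon as it is
normalised at one place. -/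
theorem ab_step {k kb : Type*} [Field k] [NumberField k] [Field kb] [Algebra k kb]
    [IsGalois k kb] [IsAlgClosed kb] (S : Finset (HeightOneSpectrum (𝓞 k)))
    (ι : ∀ v : {v : HeightOneSpectrum (𝓞 k) // v ∉ S},
      kb →ₐ[k] AlgebraicClosure (v.1.adicCompletion k))
    (H₀ : Subgroup Gal(kb/k)) [H₀.Normal] (hH₀ : IsOpen (H₀ : Set Gal(kb/k)))
    {A : Type*} [CommGroup A] (ρ : Gal(kb/k) →* Monoid.End A) (c : Gal(kb/k) → A)
    (hc : ∀ σ τ, c (σ * τ) = c σ * ρ σ (c τ))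
    (htf : ∀ (x : A) (n : ℕ), 1 ≤ n → x ^ n = 1 → x = 1)
    (w : ℕ) (hw : 1 ≤ w)
    (hTate : ∀ (n : ℕ), 1 ≤ n → ∀ σ ∈ H₀, ∀ j : ℕ, (∀ ζ : kb, ζ ^ n = 1 → σ ζ = ζ ^ j) →
      ∀ x : A, ∃ y, ρ σ x = x ^ (j ^ w) * y ^ n)
    (hsep : ∀ (n : ℕ), 1 ≤ n → ∀ x : A, (¬ ∃ y, y ^ n = x) → ∃ U : Subgroup A, U.FiniteIndex ∧
      (∀ y, y ^ n ∈ U) ∧ x ∉ U ∧ {σ | c σ ∈ U} ∈ nhds (1 : Gal(kb/k)))
    (hdiv : ∀ x : A, (∀ n : ℕ, 1 ≤ n → ∃ y, y ^ n = x) → x = 1)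
    (b : {v : HeightOneSpectrum (𝓞 k) // v ∉ S} → A)
    (hb : ∀ v (σ : Gal(kb/k))
      (τ : Gal(AlgebraicClosure (v.1.adicCompletion k)/v.1.adicCompletion k)),
      (∀ x, ι v (σ x) = τ (ι v x)) → c σ * ρ σ (b v) = b v)
    (v₀ : {v : HeightOneSpectrum (𝓞 k) // v ∉ S}) (hv₀ : b v₀ = 1) :
    (∀ v, b v = 1) ∧ ∀ σ, c σ = 1 := by
  classical
  have hchar : CharZero kb := charZero_of_injective_algebraMap (algebraMap k kb).injective
  have hρ1 : ∀ x : A, ρ 1 x = x := by intro x; rw [map_one]; rfl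
  have hρmul : ∀ σ τ (x : A), ρ (σ * τ) x = ρ σ (ρ τ x) := by intro σ τ x; rw [map_mul]; rfl
  have hnorm : H₀.Normal := inferInstance
  -- the index of `H₀`
  have hHfin : H₀.FiniteIndex := by
    have : Finite (Gal(kb/k) ⧸ H₀) := H₀.quotient_finite_of_isOpen hH₀
    exact Subgroup.finiteIndex_of_finite_quotient
  obtain ⟨m, hm, hmH⟩ : ∃ m : ℕ, 1 ≤ m ∧ ∀ σ : Gal(kb/k), σ ^ m ∈ H₀ :=
    ⟨H₀.index, Nat.one_le_iff_ne_zero.mpr hHfin.index_ne_zero, fun σ => H₀.pow_index_mem σ⟩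
  -- existence of the exponent `j`
  have hj : ∀ n : ℕ, 1 ≤ n → ∀ σ : Gal(kb/k), ∃ j : ℕ, ∀ ζ : kb, ζ ^ n = 1 → σ ζ = ζ ^ j := by
    intro n hn σ
    have hne : NeZero n := ⟨by omega⟩
    have hne' : NeZero (n : kb) := ⟨Nat.cast_ne_zero.mpr (by omega)⟩
    obtain ⟨ζ, hζ⟩ := HasEnoughRootsOfUnity.exists_primitiveRoot kb n
    have h1 : (σ ζ) ^ n = 1 := by rw [← map_pow, hζ.pow_eq_one, map_one]
    obtain ⟨j, -, hj⟩ := hζ.eq_pow_of_pow_eq_one h1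
    refine ⟨j, fun ξ hξ => ?_⟩
    obtain ⟨i, -, hi⟩ := hζ.eq_pow_of_pow_eq_one hξ
    rw [← hi, map_pow, ← hj, ← pow_mul, ← pow_mul, mul_comm]
  -- elements fixing the roots of unity act trivially modulo `n`
  have hTate1 : ∀ (n : ℕ), 1 ≤ n → ∀ σ ∈ H₀, FixMu n σ → ∀ x : A, ∃ y, ρ σ x = x * y ^ n := by
    intro n hn σ hσ₀ hσ x
    obtain ⟨y, hy⟩ := hTate n hn σ hσ₀ 1 (fun ζ hζ => by rw [pow_one]; exact hσ ζ hζ) x
    exact ⟨y, by rw [hy, one_pow, pow_one]⟩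
  -- step 1
  have step1 : ∀ n : ℕ, 1 ≤ n → ∀ σ ∈ H₀, FixMu n σ → ∃ y, y ^ n = c σ := by
    intro n hn σ₀ hσ₀' hσ₀
    by_contra hcon
    obtain ⟨U, hUfin, hUn, hUx, hUopen⟩ := hsep n hn (c σ₀) hcon
    have hQfin : Finite (A ⧸ U) := U.finite_quotient_of_finiteIndex
    have hq : (QuotientGroup.mk (c σ₀) : A ⧸ U) ≠ 1 := by
      rw [Ne, QuotientGroup.eq_one_iff]; exact hUx
    have hexp : Monoid.exponent (A ⧸ U) ≠ 0 := Monoid.exponent_ne_zero_of_finite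
    have hne : NeZero (Monoid.exponent (A ⧸ U)) := ⟨hexp⟩
    have hne' : NeZero ((Monoid.exponent (A ⧸ U) : ℕ) : kb) := ⟨Nat.cast_ne_zero.mpr hexp⟩
    obtain ⟨l, hl⟩ := CommGroup.exists_apply_ne_one_of_hasEnoughRootsOfUnity (A ⧸ U) kb hq
    let χ : Gal(kb/k) → kbˣ := fun σ => l (QuotientGroup.mk (c σ))
    have hχU : ∀ x ∈ U, l (QuotientGroup.mk x) = 1 := by
      intro x hx
      rw [(QuotientGroup.eq_one_iff x).mpr hx, map_one]
    apply hl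
    obtain ⟨L, hLfin, hL⟩ := exists_fixMu k (kb := kb) hn
    refine density_char hn S (H₀ ⊓ L.fixingSubgroup)
      (hH₀.inter (IntermediateField.fixingSubgroup_isOpen L)) (fun σ hσ => (hL σ).mpr hσ.2)
      χ ?_ ?_ ?_ ?_ σ₀ ⟨hσ₀', (hL σ₀).mp hσ₀⟩
    · intro σ τ hσ hτ
      obtain ⟨y, hy⟩ := hTate1 n hn σ hσ.1 ((hL σ).mpr hσ.2) (c τ)
      change l (QuotientGroup.mk (c (σ * τ))) = _
      rw [hc, hy, ← mul_assoc, QuotientGroup.mk_mul, map_mul, hχU _ (hUn y), mul_one,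
        QuotientGroup.mk_mul, map_mul]
    · intro σ hσ
      change l (QuotientGroup.mk (c σ)) ^ n = 1
      rw [← map_pow, ← QuotientGroup.mk_pow, hχU _ (hUn _)]
    · filter_upwards [hUopen] with σ hσ
      exact hχU _ hσ
    · intro v hv ι' σ hσH hτ
      obtain ⟨hσH, hσL⟩ := hσH
      have hσ := (hL σ).mpr hσL
      obtain ⟨τ, hτ⟩ := hτ
      obtain ⟨g, hg⟩ := exists_aut_of_embeddings (k := k)
        (ι ⟨v, hv⟩ : kb →+* AlgebraicClosure (v.adicCompletion k))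
        (ι' : kb →+* AlgebraicClosure (v.adicCompletion k)) (by
          intro a
          exact ((ι ⟨v, hv⟩).commutes a).trans (ι'.commutes a).symm)
      have hg' : ∀ x, ι ⟨v, hv⟩ (g x) = ι' x := hg
      have h1 : ∀ x, ι ⟨v, hv⟩ ((g * σ * g⁻¹) x) = τ (ι ⟨v, hv⟩ x) := by
        intro x
        obtain ⟨y, rfl⟩ := g.surjective x
        have : (g * σ * g⁻¹) (g y) = g (σ y) := by
          change g (σ (g⁻¹ (g y))) = _
          congr 2
          exact g.symm_apply_apply y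
        rw [this, hg', hτ, hg']
      have hσH' : g * σ * g⁻¹ ∈ H₀ := hnorm.conj_mem σ hσH g
      have hσ' : FixMu n (g * σ * g⁻¹) := by
        intro ζ hζ
        change g (σ (g⁻¹ ζ)) = ζ
        rw [hσ (g⁻¹ ζ) (by rw [← map_pow, hζ, map_one])]
        exact g.apply_symm_apply ζ
      have h2 := hb ⟨v, hv⟩ _ τ h1
      obtain ⟨y, hy⟩ := hTate1 n hn _ hσH' hσ' (b ⟨v, hv⟩)
      have h3 : c (g * σ * g⁻¹) = (y⁻¹) ^ n := by
        rw [hy, ← mul_assoc, mul_comm (c _), mul_assoc] at h2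
        have h4 : c (g * σ * g⁻¹) * y ^ n = 1 := mul_eq_left.mp h2
        rw [inv_pow]; exact eq_inv_of_mul_eq_one_left h4
      have h5 : c (g * σ) = c (g * σ * g⁻¹ * g) := by rw [inv_mul_cancel_right]
      obtain ⟨z, hz⟩ := hTate1 n hn _ hσH' hσ' (c g)
      rw [hc, hc, hz, h3] at h5
      have h6 : ρ g (c σ) = (y⁻¹ * z) ^ n := by
        apply mul_left_cancel (a := c g)
        rw [h5, mul_pow]
        rw [mul_left_comm]
      have h7 : c σ = (ρ g⁻¹ (y⁻¹ * z)) ^ n := by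
        rw [← map_pow, ← h6, ← hρmul, inv_mul_cancel, hρ1]
      change l (QuotientGroup.mk (c σ)) = 1
      rw [h7]
      exact hχU _ (hUn _)
  -- step 2
  have step2 : ∀ n : ℕ, 1 ≤ n → ∀ σ ∈ H₀, ∀ τ ∈ H₀, ∀ i j : ℕ,
      (∀ ζ : kb, ζ ^ n = 1 → σ ζ = ζ ^ i) →
      (∀ ζ : kb, ζ ^ n = 1 → τ ζ = ζ ^ j) → ∃ y, c σ * c τ ^ (i ^ w) = c τ * c σ ^ (j ^ w) * y ^ n := by
    intro n hn σ hσH τ hτH i j hi hj
    have hκH : σ * τ * σ⁻¹ * τ⁻¹ ∈ H₀ :=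
      H₀.mul_mem (H₀.mul_mem (H₀.mul_mem hσH hτH) (H₀.inv_mem hσH)) (H₀.inv_mem hτH)
    have hκ : FixMu n (σ * τ * σ⁻¹ * τ⁻¹) := by
      intro ζ hζ
      have hcomm : ∀ ξ : kb, ξ ^ n = 1 → σ (τ ξ) = τ (σ ξ) := by
        intro ξ hξ
        rw [hj ξ hξ, hi ξ hξ, map_pow, map_pow, hi ξ hξ, hj ξ hξ, ← pow_mul, ← pow_mul, mul_comm]
      change σ (τ (σ⁻¹ (τ⁻¹ ζ))) = ζ
      rw [hcomm _ (by rw [← map_pow, ← map_pow, hζ, map_one, map_one])]
      have h1 : σ (σ⁻¹ (τ⁻¹ ζ)) = τ⁻¹ ζ := σ.apply_symm_apply _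
      rw [h1]
      exact τ.apply_symm_apply ζ
    obtain ⟨y1, hy1⟩ := step1 n hn _ hκH hκ
    have h1 : σ * τ = (σ * τ * σ⁻¹ * τ⁻¹) * (τ * σ) := by group
    have h2 := hc (σ * τ * σ⁻¹ * τ⁻¹) (τ * σ)
    rw [← h1] at h2
    obtain ⟨y2, hy2⟩ := hTate1 n hn _ hκH hκ (c (τ * σ))
    rw [hy2, ← hy1, hc, hc] at h2
    obtain ⟨y3, hy3⟩ := hTate n hn σ hσH i hi (c τ)
    obtain ⟨y4, hy4⟩ := hTate n hn τ hτH j hj (c σ)
    rw [hy3, hy4] at h2
    refine ⟨y1 * y4 * y2 * y3⁻¹, ?_⟩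
    rw [mul_pow, mul_pow, mul_pow, inv_pow]
    have h3 : c σ * c τ ^ i ^ w = (c σ * (c τ ^ i ^ w * y3 ^ n)) * (y3 ^ n)⁻¹ := by
      rw [← mul_assoc, mul_inv_cancel_right]
    rw [h3, h2]
    simp only [mul_assoc, mul_comm, mul_left_comm]
  -- elements killed by the local exponents are trivial
  have key : ∀ (v : {v : HeightOneSpectrum (𝓞 k) // v ∉ S}) (x : A),
      (∀ τ ∈ H₀, ∀ τ' : Gal(AlgebraicClosure (v.1.adicCompletion k)/v.1.adicCompletion k),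
        (∀ x, ι v (τ x) = τ' (ι v x)) → ∀ n : ℕ, 1 ≤ n → ∀ j : ℕ,
        (∀ ζ : kb, ζ ^ n = 1 → τ ζ = ζ ^ j) → ∃ y, x ^ (j ^ w) = x * y ^ n) → x = 1 := by
    intro v x hx
    apply hdiv
    apply exists_pow_all
    intro ℓ hℓ u
    have : Fact ℓ.Prime := ⟨hℓ⟩
    obtain ⟨t, τ₁', ζ', hζ', hζ''⟩ := exists_cyclo v.1 ℓ (m * w) (Nat.mul_pos hm hw)
    obtain ⟨τ₁, hτ₁⟩ := exists_restrict (ι v) τ₁'
    have hℓt : 1 ≤ ℓ ^ t := Nat.one_le_pow _ _ hℓ.pos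
    obtain ⟨ζ, hζ⟩ : ∃ ζ : kb, ι v ζ = ζ' := by
      obtain ⟨β, -, hβ⟩ := root_mem (ι v : kb →+* AlgebraicClosure (v.1.adicCompletion k))
        (p := Polynomial.X ^ (ℓ ^ t) - 1) (x := ζ')
        (by
          have := Polynomial.X_pow_sub_C_ne_zero (R := kb) (n := ℓ ^ t) (by omega) 1
          simpa using this) (by simp [hζ'])
      exact ⟨β, hβ⟩
    have hζ1 : ζ ^ (ℓ ^ t) = 1 := by
      apply (ι v).toRingHom.injective
      change ι v (ζ ^ (ℓ ^ t)) = ι v 1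
      rw [map_pow, hζ, hζ', map_one]
    have hτw : ∀ (m : ℕ) (x : kb), ι v ((τ₁ ^ m) x) = (τ₁' ^ m) (ι v x) := by
      intro m
      induction m with
      | zero => intro x; rfl
      | succ m ih =>
        intro x
        rw [pow_succ, pow_succ]
        change ι v ((τ₁ ^ m) (τ₁ x)) = (τ₁' ^ m) (τ₁' (ι v x))
        rw [ih, hτ₁]
    obtain ⟨τ, hτdef⟩ : ∃ τ, τ = τ₁ ^ m := ⟨_, rfl⟩
    obtain ⟨τ', hτ'def⟩ : ∃ τ', τ' = τ₁' ^ m := ⟨_, rfl⟩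
    have hτ : ∀ x, ι v (τ x) = τ' (ι v x) := by
      intro x; rw [hτdef, hτ'def]; exact hτw m x
    have hτH : τ ∈ H₀ := by rw [hτdef]; exact hmH τ₁
    have hne : (τ ^ w) ζ ≠ ζ := by
      intro h
      apply hζ''
      rw [← hζ, ← hτw, pow_mul, ← hτdef, h]
    refine exists_pow_of_zpow htf hℓ (t := t) (fun N hN => ?_) u
    have hℓN : 1 ≤ ℓ ^ N := Nat.one_le_pow _ _ hℓ.pos
    obtain ⟨j, hj⟩ := hj (ℓ ^ N) hℓN τ
    obtain ⟨y, hy⟩ := hx τ hτH τ' hτ (ℓ ^ N) hℓN j hj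
    refine ⟨(j : ℤ) ^ w - 1, ?_, y, ?_⟩
    · rintro ⟨q, hq⟩
      apply hne
      have hτm : ∀ m : ℕ, (τ ^ m) ζ = ζ ^ (j ^ m) := by
        intro m
        induction m with
        | zero => rw [pow_zero, pow_zero, pow_one]; rfl
        | succ m ih =>
          rw [pow_succ']
          change τ ((τ ^ m) ζ) = _
          rw [ih, map_pow, hj ζ (by
            obtain ⟨r, rfl⟩ := Nat.exists_eq_add_of_le hN
            rw [pow_add, pow_mul, hζ1, one_pow]), ← pow_mul]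
          ring_nf
      rw [hτm]
      have h0 : ζ ≠ 0 := by
        rintro rfl
        rw [zero_pow (by omega)] at hζ1
        exact zero_ne_one hζ1
      have h1 : ζ ^ (((j ^ w : ℕ) : ℤ) - 1) = 1 := by
        rw [show ((j ^ w : ℕ) : ℤ) - 1 = ((ℓ ^ t : ℕ) : ℤ) * q by push_cast; push_cast at hq; exact hq,
          zpow_mul, zpow_natCast, hζ1, one_zpow]
      rw [zpow_sub₀ h0, zpow_one, zpow_natCast, div_eq_one_iff_eq h0] at h1
      exact h1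
    · rw [zpow_sub, zpow_one, eq_mul_inv_iff_mul_eq, mul_comm, ← hy, ← zpow_natCast]
      push_cast; rfl
  have hb1 : ∀ σ ∈ H₀, c σ = 1 := by
    intro σ hσH
    apply key v₀
    intro τ hτH τ' hτ n hn j hjτ
    have h1 : c τ = 1 := by
      have := hb v₀ τ τ' hτ
      rwa [hv₀, map_one, mul_one] at this
    obtain ⟨i, hi⟩ := hj n hn σ
    obtain ⟨y, hy⟩ := step2 n hn σ hσH τ hτH i j hi hjτ
    rw [h1, one_pow, mul_one, one_mul] at hy
    exact ⟨y⁻¹, by rw [inv_pow, eq_mul_inv_iff_mul_eq]; exact hy.symm⟩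
  -- an element fixed by the decomposition group is trivial
  have key' : ∀ (v : {v : HeightOneSpectrum (𝓞 k) // v ∉ S}) (x : A),
      (∀ τ ∈ H₀, ∀ τ' : Gal(AlgebraicClosure (v.1.adicCompletion k)/v.1.adicCompletion k),
        (∀ x, ι v (τ x) = τ' (ι v x)) → ρ τ x = x) → x = 1 := by
    intro v x hx
    apply key v
    intro τ hτH τ' hτ n hn j hjτ
    obtain ⟨y, hy⟩ := hTate n hn τ hτH j hjτ x
    rw [hx τ hτH τ' hτ] at hy
    exact ⟨y⁻¹, by rw [inv_pow, eq_mul_inv_iff_mul_eq]; exact hy.symm⟩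
  refine ⟨fun v => key' v _ fun τ hτH τ' hτ => ?_, fun σ => key' v₀ _ fun τ hτH τ' hτ => ?_⟩
  · have h1 := hb v τ τ' hτ
    rwa [hb1 τ hτH, one_mul] at h1
  · have h1 : τ * σ = σ * (σ⁻¹ * τ * σ) := by group
    have h2 : σ⁻¹ * τ * σ ∈ H₀ := by
      have := hnorm.conj_mem τ hτH σ⁻¹
      rwa [inv_inv] at this
    have h3 := hc τ σ
    rw [h1, hc, hb1 _ h2, map_one, mul_one, hb1 τ hτH, one_mul] at h3
    exact h3.symm

end Pool.Agent.Lib.MP_2f3286_ag
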