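import Mathlib
import Pool.Agent.Lib.MP_2f3286_ag.Section

open IsDedekindDomain NumberField

namespace Pool.Agent.Lib.MP_2f3286_ag

/-- The Kummer classes of a locally geometric section along units (extracted from helper96's
`rank_one_core`). -/
theorem exists_classes {k : Type*} [Field k] [NumberField k]
    {K : Type*} [Field K] [Algebra k K]
    (R : Subalgebra k K) {I : Type*} (f : I → Rˣ)
    {M : Type*} [Field M] [Algebra K M] [Algebra (AlgebraicClosure k) M] [Algebra k M]
    [IsScalarTower k K M] [IsScalarTower k (AlgebraicClosure k) M]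
    (T : I → ℕ → M)
    (hT : ∀ i n, 1 ≤ n → T i n ^ n = algebraMap K M ((f i : Rˣ) : R))
    (hT' : ∀ i n m, 1 ≤ n → 1 ≤ m → T i (n * m) ^ m = T i n)
    (s : Gal(AlgebraicClosure k/k) →* Gal(M/K)) (hs : Continuous s)
    (hsec : ∀ σ a, s σ (algebraMap (AlgebraicClosure k) M a) =
      algebraMap (AlgebraicClosure k) M (σ a))
    (S : Finset (HeightOneSpectrum (𝓞 k)))
    (y : ∀ v : HeightOneSpectrum (𝓞 k), I → v.adicCompletion k)
    (hloc : ∀ v ∉ S,
      ∃ ι : AlgebraicClosure k →ₐ[k] AlgebraicClosure (v.adicCompletion k),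
      ∃ u : I → ℕ → AlgebraicClosure (v.adicCompletion k),
        (∀ i n, 1 ≤ n → u i n ^ n = algebraMap _ _ (y v i)) ∧
        ∀ (σ : Gal(AlgebraicClosure k/k)) (τ : Gal(AlgebraicClosure (v.adicCompletion k)/
          v.adicCompletion k)), (∀ a, ι (σ a) = τ (ι a)) → ∀ i n, 1 ≤ n →
          ∀ ζ : AlgebraicClosure k, s σ (T i n) = algebraMap _ M ζ * T i n →
            τ (u i n) = ι ζ * u i n) :
    ∃ e : I → ℕ → kˣ,
      (∀ i n m, 1 ≤ n → 1 ≤ m → ∃ w : kˣ, e i (n * m) = e i n * w ^ n) ∧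
      ∀ v ∉ S, ∀ i n, 1 ≤ n → ∃ w : v.adicCompletion k,
        algebraMap k (v.adicCompletion k) (e i n) * w ^ n = y v i := by
  classical
  have hf0 : ∀ i, (((f i : Rˣ) : R) : K) ≠ 0 := by
    intro i h
    have h1 : ((f i : Rˣ) : R) = 0 := Subtype.ext h
    exact (f i).ne_zero h1
  have hT0 : ∀ i n, 1 ≤ n → T i n ≠ 0 := by
    intro i n hn h
    have := hT i n hn
    rw [h, zero_pow (by omega)] at this
    exact hf0 i ((map_eq_zero _).mp this.symm)
  have hk := fun i n (hn : 1 ≤ n) => exists_kummer s hs hsec hn (hf0 i) (hT i n hn)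
  choose! c z e hc hz he using hk
  -- invariance
  have hinv : ∀ i n, 1 ≤ n → ∀ u : AlgebraicClosure k,
      (∀ σ : Gal(AlgebraicClosure k/k), σ u = (c i n σ : AlgebraicClosure k) * u) →
      ∃ w : k, u = z i n * algebraMap k (AlgebraicClosure k) w := by
    intro i n hn u hu
    obtain ⟨w, hw⟩ := mem_of_fixed (F := k) (Fb := AlgebraicClosure k)
      (y := u / (z i n : AlgebraicClosure k)) (by
        intro σ
        rw [map_div₀, hu, ← hz i n hn σ]
        rw [mul_div_mul_left _ _ (c i n σ).ne_zero])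
    exact ⟨w, by rw [hw, mul_div_cancel₀ _ (z i n).ne_zero]⟩
  have hcuniq : ∀ i n, 1 ≤ n → ∀ (σ : Gal(AlgebraicClosure k/k)) (ζ : AlgebraicClosure k),
      s σ (T i n) = algebraMap (AlgebraicClosure k) M ζ * T i n → ζ = c i n σ := by
    intro i n hn σ ζ hζ
    apply (algebraMap (AlgebraicClosure k) M).injective
    apply mul_right_cancel₀ (hT0 i n hn)
    rw [← hζ, hc i n hn σ]
  have hcpow : ∀ i n m, 1 ≤ n → 1 ≤ m → ∀ σ, (c i (n * m) σ) ^ m = c i n σ := by
    intro i n m hn hm σ
    have hnm : 1 ≤ n * m := Nat.mul_pos hn hm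
    ext
    apply hcuniq i n hn σ
    rw [Units.val_pow_eq_pow_val, map_pow, ← hT' i n m hn hm, ← mul_pow,
      ← hc i (n * m) hnm σ, map_pow]
  have hcompat : ∀ i n m, 1 ≤ n → 1 ≤ m → ∃ w : kˣ, e i (n * m) = e i n * w ^ n := by
    intro i n m hn hm
    have hnm : 1 ≤ n * m := Nat.mul_pos hn hm
    obtain ⟨w, hw⟩ := hinv i n hn ((z i (n * m) : AlgebraicClosure k) ^ m) (by
      intro σ
      rw [map_pow, ← hz i (n * m) hnm σ, mul_pow, ← Units.val_pow_eq_pow_val,
        hcpow i n m hn hm σ])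
    have hw0 : w ≠ 0 := by
      rintro rfl
      rw [map_zero, mul_zero] at hw
      exact pow_ne_zero m (z i (n * m)).ne_zero hw
    refine ⟨Units.mk0 w hw0, ?_⟩
    ext
    apply (algebraMap k (AlgebraicClosure k)).injective
    rw [← he i (n * m) hnm, mul_comm n m, pow_mul, mul_comm m n, hw, mul_pow,
      he i n hn, Units.val_mul, map_mul, Units.val_pow_eq_pow_val, Units.val_mk0, map_pow]
  refine ⟨e, hcompat, ?_⟩
  · intro v hv i n hn
    obtain ⟨ι, u, hu1, hu3⟩ := hloc v hv
    have : CharZero (v.adicCompletion k) := charZero_of_injective_algebraMap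
      (algebraMap k (v.adicCompletion k)).injective
    obtain ⟨w, hw⟩ := mem_of_fixed (F := v.adicCompletion k)
      (Fb := AlgebraicClosure (v.adicCompletion k)) (y := u i n / ι (z i n)) (by
        intro τ
        obtain ⟨σ, hσ⟩ := exists_restrict ι τ
        rw [map_div₀, hu3 σ τ hσ i n hn _ (hc i n hn σ), ← hσ, ← hz i n hn σ, map_mul]
        rw [mul_div_mul_left]
        rw [map_ne_zero]; exact (c i n σ).ne_zero)
    refine ⟨w, ?_⟩
    apply (algebraMap (v.adicCompletion k) (AlgebraicClosure (v.adicCompletion k))).injective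
    rw [← hu1 i n hn, map_mul, map_pow, hw, div_pow, ← map_pow, he i n hn, ι.commutes,
      ← IsScalarTower.algebraMap_apply, mul_div_cancel₀]
    rw [map_ne_zero]; exact (e i n).ne_zero

end Pool.Agent.Lib.MP_2f3286_ag
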