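import Mathlib
import Pool.Agent.Lib.MP_2f3286_ag.Aux2

open IsDedekindDomain NumberField Polynomial

namespace Pool.Agent.Lib.MP_2f3286_ag

variable {k : Type*} [Field k] [NumberField k]
    {K : Type*} [Field K] [Algebra k K]
    {M : Type*} [Field M] [Algebra K M] [Algebra.IsAlgebraic K M]
    [Algebra (AlgebraicClosure k) M] [Algebra k M]
    [IsScalarTower k K M] [IsScalarTower k (AlgebraicClosure k) M]

/-- stage 2: values of units -/
theorem unit_values (htr : Algebra.trdeg k K = 1) (B : Subalgebra k M)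
    (s : Gal(AlgebraicClosure k/k) →* Gal(M/K)) (hs : Continuous s)
    (hsec : ∀ σ a, s σ (algebraMap (AlgebraicClosure k) M a) =
      algebraMap (AlgebraicClosure k) M (σ a))
    (hBk : ∀ a : AlgebraicClosure k, algebraMap (AlgebraicClosure k) M a ∈ B)
    (hBs : ∀ σ, ∀ b ∈ B, s σ b ∈ B)
    (hBroot : ∀ (c : M) (n : ℕ), 1 ≤ n → c ^ n ∈ B → c ∈ B)
    (S : Finset (HeightOneSpectrum (𝓞 k)))
    (ι : ∀ v : {v : HeightOneSpectrum (𝓞 k) // v ∉ S},
      AlgebraicClosure k →ₐ[k] AlgebraicClosure (v.1.adicCompletion k))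
    (φ : ∀ v : {v : HeightOneSpectrum (𝓞 k) // v ∉ S},
      B →+* AlgebraicClosure (v.1.adicCompletion k))
    (hφ : ∀ v, Resp s (v.1.adicCompletion k) (ι v : _ →+* AlgebraicClosure (v.1.adicCompletion k))
      (φ v))
    (h : B) (hh : h ≠ 0) (hsh : ∀ σ, s σ (h : M) = h) (hφh : ∀ v, φ v h = 0)
    (b : M) (hb0 : b ≠ 0) (hbB : b ∈ B) (hbB' : b⁻¹ ∈ B)
    (hroots : ∀ n : ℕ, 1 ≤ n → ∃ c : M, c ^ n = b) :
    ∃ (L : IntermediateField k (AlgebraicClosure k)) (T : ℕ → M) (y : ℕ → AlgebraicClosure k),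
      FiniteDimensional k L ∧ IsVal s L T y ∧ T 0 = 0 ∧ T 1 = b ∧ (∀ n, 1 ≤ n → T n ^ n = b) ∧
      ∀ v, ∀ ρ : Gal(AlgebraicClosure k/k), ∀ b' : B, (b' : M) = s ρ b → φ v b' = ι v (ρ (y 1)) := by
  classical
  obtain ⟨T, hT1, hTn, hTc⟩ := exists_roots_compatible hroots
  have hTB : ∀ n, 1 ≤ n → T n ∈ B := fun n hn => hBroot _ n hn (by rw [hTn n hn]; exact hbB)
  -- a version indexed by all naturals
  let T' : ℕ → B := fun n => if hn : 1 ≤ n then ⟨T n, hTB n hn⟩ else 0
  have hT' : ∀ n, 1 ≤ n → (T' n : M) = T n := by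
    intro n hn; simp only [T', dif_pos hn]
  have hT'n : ∀ n, 1 ≤ n → T' n ^ n = T' 1 := by
    intro n hn
    apply Subtype.ext
    rw [SubmonoidClass.coe_pow, hT' n hn, hT' 1 le_rfl, hTn n hn, hT1]
  have hT'c : ∀ n m, 1 ≤ n → 1 ≤ m → T' (n * m) ^ m = T' n := by
    intro n m hn hm
    apply Subtype.ext
    rw [SubmonoidClass.coe_pow, hT' _ (Nat.mul_pos hn hm), hT' n hn, hTc n m hn hm]
  have hbne : ∀ {Ω : Type _} [Field Ω] (x : B →+* Ω), x (T' 1) ≠ 0 := by
    intro Ω _ x h0
    have h1 : T' 1 * ⟨b⁻¹, hbB'⟩ = 1 := by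
      apply Subtype.ext
      rw [MulMemClass.coe_mul, hT' 1 le_rfl, hT1]
      exact mul_inv_cancel₀ hb0
    have h2 := congrArg x h1
    rw [map_mul, h0, zero_mul, map_one] at h2
    exact zero_ne_one h2
  obtain ⟨Q, hQ0, r, hQr⟩ := exists_poly_mul (trdeg_top htr) B h hh (T' 1)
  set kb := AlgebraicClosure k with hkb
  let A : Finset kb := (Q.map (algebraMap k kb)).roots.toFinset
  have hQm : Q.map (algebraMap k kb) ≠ 0 := by
    rw [Polynomial.map_ne_zero_iff (algebraMap k kb).injective]; exact hQ0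
  obtain ⟨L, hL, hLn, hLb, hLA⟩ := exists_level s hs
    (Algebra.IsAlgebraic.isAlgebraic (R := K) b).isIntegral A
  have hLnf : NumberField L := NumberField.of_module_finite k L
  let J := {β : Lˣ // (Q.map (algebraMap k kb)).IsRoot (β : L)}
  have hJfin : Finite J := by
    have h1 : Function.Injective (fun β : J => (⟨((β.1 : L) : kb), by
      simp only [A, Multiset.mem_toFinset]
      rw [mem_roots hQm]; exact β.2⟩ : A)) := by
      intro β β' hββ
      have h2 := congrArg Subtype.val hββ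
      apply Subtype.ext
      apply Units.ext
      exact Subtype.ext h2
    exact Finite.of_injective _ h1
  have : Fintype J := Fintype.ofFinite J
  obtain ⟨y, hy⟩ := exists_val (B := B) s hs hsec hBk L T' (by rw [hT' 1 le_rfl, hT1]; exact hb0)
    (fun n hn => (Algebra.IsAlgebraic.isAlgebraic (R := K) (T' n : M)).isIntegral) hT'n hT'c
    (by rw [hT' 1 le_rfl, hT1]; exact hLb) (fun β : J => β.1) (finite_above (F := L) S).toFinset (by
      intro w hw
      simp only [Set.Finite.mem_toFinset, Set.mem_ofPred_eq, not_exists, not_and] at hw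
      obtain ⟨v, hv⟩ := exists_below (L := k) w
      have hvS : v ∉ S := fun hvS => hw v hvS hv
      obtain ⟨j, hj1, hj2, ρ, hρ⟩ := exists_pair_L s L v w (ι ⟨v, hvS⟩) (φ ⟨v, hvS⟩) (hφ ⟨v, hvS⟩)
      have hR := hj1.translate hsec hBs ρ
      refine ⟨_, _, hR, fun x => hρ x, ?_⟩
      set ι'' := ((j.comp (ι ⟨v, hvS⟩ : kb →+* _)).comp (ρ : kb →+* kb)) with hι''
      set φ'' := ((j.comp (φ ⟨v, hvS⟩)).comp ((s ρ : M →+* M).restrict B B (hBs ρ))) with hφ''
      have hφ''h : φ'' h = 0 := by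
        have h1 : (s ρ : M →+* M).restrict B B (hBs ρ) h = h := by
          apply Subtype.ext
          exact hsh ρ
        change j (φ ⟨v, hvS⟩ ((s ρ : M →+* M).restrict B B (hBs ρ) h)) = 0
        rw [h1, hφh, map_zero]
      have h3 : (Q.map (algebraMap k kb)).eval₂ ι'' (φ'' (T' 1)) = 0 := by
        rw [eval₂_map]
        have h4 : ι''.comp (algebraMap k kb) = φ''.comp (algebraMap k B) := by
          ext a
          refine (hR.1 (algebraMap k kb a) (algebraMap k B a) ?_).symm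
          change algebraMap k M a = algebraMap kb M (algebraMap k kb a)
          rw [← IsScalarTower.algebraMap_apply]
        rw [h4, ← hom_eval₂]
        have h5 := congrArg φ'' hQr
        rw [map_mul, hφ''h, zero_mul, aeval_def] at h5
        exact h5
      obtain ⟨β, hβ1, hβ2⟩ := root_mem ι'' hQm h3
      have hβA : β ∈ A := by
        simp only [A, Multiset.mem_toFinset]
        rw [mem_roots hQm]; exact hβ1
      have hβL := hLA β hβA
      have hβ0 : β ≠ 0 := by
        rintro rfl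
        rw [map_zero] at hβ2
        exact hbne φ'' hβ2.symm
      refine ⟨⟨Units.mk0 ⟨β, hβL⟩ (fun h => hβ0 (congrArg Subtype.val h)), hβ1⟩, ?_⟩
      exact hβ2.symm)
  have hval : ∀ v, ∀ ρ : Gal(kb/k), ∀ b' : B, (b' : M) = s ρ b → φ v b' = ι v (ρ (y 1)) := by
    intro v ρ b' hb'
    obtain ⟨w, hw⟩ := exists_prime_over (F := k) (E := L) v.1
    have hR := (hφ v).translate hsec hBs ρ
    obtain ⟨j, hj1, hj2, -⟩ := exists_pair_L s L v.1 w ((ι v).comp (ρ : kb →ₐ[k] kb))
      ((φ v).comp ((s ρ : M →+* M).restrict B B (hBs ρ))) hR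
    have : CharZero (w.adicCompletion L) := charZero_of_injective_algebraMap
      (algebraMap L (w.adicCompletion L)).injective
    have h1 := hy.eq hBk T' (fun n => rfl) hT'n hj1 hj2 (hbne _)
      (fun z hz0 hz => eq_one_of_divisible w hz0 hz)
    have h2 := j.injective h1
    have h3 : (s ρ : M →+* M).restrict B B (hBs ρ) (T' 1) = b' := by
      apply Subtype.ext
      rw [hb', ← hT1, ← hT' 1 le_rfl]
      rfl
    rw [← h3]
    exact h2
  refine ⟨L, fun n => (T' n : M), y, hL, hy, ?_, (hT' 1 le_rfl).trans hT1, fun n hn => ?_, hval⟩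
  · simp [T']
  · change (T' n : M) ^ n = b
    rw [hT' n hn, hTn n hn]

end Pool.Agent.Lib.MP_2f3286_ag
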