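import Mathlib

/-!
# Homomorphisms of the integral closure in an iterated Kummer tower are determined by their values
on units.
-/

open Polynomial IntermediateField

namespace Pool.Agent.Lib.MP_2f3286_ag

section
variable {R K M kb : Type*} [CommRing R] [Field K] [Field M] [Field kb]
  [Algebra R K] [Algebra R M] [Algebra K M] [IsScalarTower R K M] [Algebra kb M] [CharZero M]

/-- If all roots in `M` of the minimal polynomial of a unit `c` over `E` are multiples of `c` by
constants, then the coefficients of an integral element of `E(c)` are integral. -/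
theorem coeff_integral (hkb : ∀ a : kb, IsIntegral R (algebraMap kb M a))
    (E : IntermediateField K M) (c : M) (hc0 : c ≠ 0) (hc' : IsIntegral R c⁻¹)
    (hint : IsIntegral E c)
    (hsp : ((minpoly E c).map (algebraMap E M)).Splits)
    (hrt : ∀ r : M, aeval r (minpoly E c) = 0 → ∃ ζ : kb, r = algebraMap kb M ζ * c)
    (q : E[X]) (hq : q.natDegree < (minpoly E c).natDegree)
    (hb : IsIntegral R (aeval c q)) (j : ℕ) : IsIntegral R ((q.coeff j : E) : M) := by
  classical
  have hchar : CharZero E := by
    constructor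
    intro a b hab
    have := congrArg (algebraMap E M) hab
    simpa using this
  have hpirr : Irreducible (minpoly E c) := minpoly.irreducible hint
  have hsep : (minpoly E c).Separable := hpirr.separable
  have hcard := card_rootSet_eq_natDegree hsep hsp
  set d := (minpoly E c).natDegree with hd
  obtain ⟨e⟩ : Nonempty (Fin d ≃ (minpoly E c).rootSet M) :=
    ⟨(Fintype.equivFinOfCardEq hcard).symm⟩
  have hroot : ∀ i, aeval ((e i : M)) (minpoly E c) = 0 := fun i =>
    (mem_rootSet.mp (e i).2).2
  choose ζ hζ using fun i => hrt _ (hroot i)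
  have hζinj : Function.Injective ζ := by
    intro i i' h
    apply e.injective
    apply Subtype.ext
    rw [hζ i, hζ i', h]
  -- conjugates are integral
  have hconj : ∀ i, IsIntegral R (aeval ((e i : M)) q) := by
    intro i
    obtain ⟨P, hPm, hP⟩ := hb
    refine ⟨P, hPm, ?_⟩
    -- the polynomial `P(q(X))` over `E`
    have hRE : ∀ x : R, algebraMap R M x ∈ E := fun x => by
      rw [IsScalarTower.algebraMap_apply R K M]; exact E.algebraMap_mem _
    let ρ : R →+* E := (algebraMap R M).codRestrict E.toSubring hRE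
    have hρ : ∀ x, ((ρ x : E) : M) = algebraMap R M x := fun x => rfl
    have hρ' : (algebraMap E M).comp ρ = algebraMap R M := rfl
    have hcomp : ∀ x : M, eval₂ (algebraMap R M) (aeval x q) P = aeval x ((P.map ρ).comp q) := by
      intro x
      rw [aeval_comp, aeval_def (aeval x q), eval₂_map, hρ']
    rw [hcomp]
    have h0 : aeval c ((P.map ρ).comp q) = 0 := by rw [← hcomp]; exact hP
    obtain ⟨Q, hQ⟩ := minpoly.dvd E c h0
    rw [hQ, map_mul, hroot i, zero_mul]
  -- the Vandermonde matrix
  by_cases hj : j < d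
  · let V : Matrix (Fin d) (Fin d) kb := Matrix.vandermonde ζ
    have hV : IsUnit V.det := isUnit_iff_ne_zero.mpr (Matrix.det_vandermonde_ne_zero_iff.mpr hζinj)
    have hWV : V⁻¹ * V = 1 := Matrix.nonsing_inv_mul V hV
    have key : ∑ i, algebraMap kb M (V⁻¹ ⟨j, hj⟩ i) * aeval ((e i : M)) q =
        ((q.coeff j : E) : M) * c ^ j := by
      have h1 : ∀ i, aeval ((e i : M)) q =
          ∑ l : Fin d, algebraMap kb M (V i l) * (((q.coeff l : E) : M) * c ^ (l : ℕ)) := by
        intro i
        rw [aeval_eq_sum_range' hq, Finset.sum_range]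
        refine Finset.sum_congr rfl fun l _ => ?_
        rw [hζ i, mul_pow, ← map_pow]
        change ((q.coeff l : E) : M) * _ = algebraMap kb M (ζ i ^ (l : ℕ)) * _
        ring
      simp only [h1, Finset.mul_sum]
      rw [Finset.sum_comm]
      have h2 : ∀ l : Fin d, ∑ i, algebraMap kb M (V⁻¹ ⟨j, hj⟩ i) *
          (algebraMap kb M (V i l) * (((q.coeff l : E) : M) * c ^ (l : ℕ))) =
          algebraMap kb M ((1 : Matrix (Fin d) (Fin d) kb) ⟨j, hj⟩ l) *
            (((q.coeff l : E) : M) * c ^ (l : ℕ)) := by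
        intro l
        rw [← hWV, Matrix.mul_apply, map_sum, Finset.sum_mul]
        refine Finset.sum_congr rfl fun i _ => ?_
        rw [map_mul, mul_assoc]
      simp only [h2]
      rw [Finset.sum_eq_single ⟨j, hj⟩]
      · rw [Matrix.one_apply_eq, map_one, one_mul]
      · intro l _ hl
        rw [Matrix.one_apply_ne' hl, map_zero, zero_mul]
      · intro h; exact absurd (Finset.mem_univ _) h
    have h3 : IsIntegral R (((q.coeff j : E) : M) * c ^ j) := by
      rw [← key]
      exact IsIntegral.sum _ fun i _ => (hkb _).mul (hconj i)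
    have h4 : ((q.coeff j : E) : M) = ((q.coeff j : E) : M) * c ^ j * (c⁻¹) ^ j := by
      rw [mul_assoc, ← mul_pow, mul_inv_cancel₀ hc0, one_pow, mul_one]
    rw [h4]
    exact h3.mul (hc'.pow j)
  · rw [coeff_eq_zero_of_natDegree_lt (by omega)]
    exact isIntegral_zero

/-- Two homomorphisms from the integral closure that agree on `E` and on a unit `c` whose conjugates
over `E` are multiples of `c` by constants, agree on `E(c)`. -/
theorem agree_adjoin {F : Type*} [Field F] (hkb : ∀ a : kb, IsIntegral R (algebraMap kb M a))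
    (Ψ₁ Ψ₂ : integralClosure R M →+* F)
    (E : IntermediateField K M) (hE : ∀ b : integralClosure R M, (b : M) ∈ E → Ψ₁ b = Ψ₂ b)
    (c : integralClosure R M) (hc0 : (c : M) ≠ 0) (hc' : IsIntegral R (c : M)⁻¹)
    (hcc : Ψ₁ c = Ψ₂ c)
    (hint : IsIntegral E (c : M))
    (hsp : ((minpoly E (c : M)).map (algebraMap E M)).Splits)
    (hrt : ∀ r : M, aeval r (minpoly E (c : M)) = 0 → ∃ ζ : kb, r = algebraMap kb M ζ * c) :
    ∀ b : integralClosure R M, (b : M) ∈ (E⟮(c : M)⟯.restrictScalars K) → Ψ₁ b = Ψ₂ b := by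
  classical
  intro b hb
  have hb' : (b : M) ∈ E⟮(c : M)⟯ := hb
  have hb2 : (b : M) ∈ E⟮(c : M)⟯.toSubalgebra := hb'
  rw [adjoin_simple_toSubalgebra_of_isAlgebraic hint.isAlgebraic,
    Algebra.adjoin_singleton_eq_range_aeval] at hb2
  obtain ⟨q₀, hq₀⟩ := hb2
  have hpm : (minpoly E (c : M)).Monic := minpoly.monic hint
  have hp1 : (minpoly E (c : M)) ≠ 1 := minpoly.ne_one _ _
  set q := q₀ %ₘ (minpoly E (c : M)) with hq
  have hqc : aeval (c : M) q = b := by
    rw [hq, aeval_modByMonic_eq_self_of_root (minpoly.aeval E (c : M))]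
    exact hq₀
  have hqd : q.natDegree < (minpoly E (c : M)).natDegree :=
    natDegree_modByMonic_lt _ hpm hp1
  have hcoef := fun j => coeff_integral hkb E (c : M) hc0 hc' hint hsp hrt q hqd
    (by rw [hqc]; exact b.2) j
  let a : ℕ → integralClosure R M := fun j => ⟨((q.coeff j : E) : M), hcoef j⟩
  have hba : b = ∑ j ∈ Finset.range (minpoly E (c : M)).natDegree, a j * c ^ j := by
    apply Subtype.ext
    rw [AddSubmonoidClass.coe_finsetSum, ← hqc, aeval_eq_sum_range' hqd]
    rfl
  rw [hba, map_sum, map_sum]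
  refine Finset.sum_congr rfl fun j _ => ?_
  rw [map_mul, map_mul, map_pow, map_pow, hcc, hE (a j) (q.coeff j).2]

/-- Two homomorphisms of the integral closure which agree on the base ring and on all units agree,
when `M` is obtained from `K` by adjoining constants and, repeatedly, roots of units. -/
theorem eq_of_agree {F : Type*} [Field F] [Algebra.IsAlgebraic K M] [IsAlgClosed kb]
    {k : Type*} [Field k] [Algebra k kb] [Algebra.IsAlgebraic k kb] [Algebra k K] [Algebra k M]
    [IsScalarTower k K M] [IsScalarTower k kb M]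
    (hkb : ∀ a : kb, IsIntegral R (algebraMap kb M a))
    (hRK : ∀ x : K, IsIntegral R x → ∃ r : R, algebraMap R K r = x)
    (hmin : ∀ E : IntermediateField K M, (∀ a, algebraMap kb M a ∈ E) →
      (∀ b : M, ∀ n : ℕ, 1 ≤ n → b ≠ 0 → IsIntegral R b → IsIntegral R b⁻¹ → b ^ n ∈ E → b ∈ E) →
      E = ⊤)
    (Ψ₁ Ψ₂ : integralClosure R M →+* F)
    (hR : ∀ r : R, Ψ₁ (algebraMap R _ r) = Ψ₂ (algebraMap R _ r))
    (hu : ∀ b : integralClosure R M, (b : M) ≠ 0 → IsIntegral R (b : M)⁻¹ → Ψ₁ b = Ψ₂ b) :
    Ψ₁ = Ψ₂ := by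
  classical
  let P : Set (IntermediateField K M) :=
    {E | ∀ b : integralClosure R M, (b : M) ∈ E → Ψ₁ b = Ψ₂ b}
  have hbot : (⊥ : IntermediateField K M) ∈ P := by
    intro b hb
    obtain ⟨x, hx⟩ := IntermediateField.mem_bot.mp hb
    have h1 : IsIntegral R x := by
      have h2 : IsIntegral R (algebraMap K M x) := by rw [hx]; exact b.2
      exact (isIntegral_algebraMap_iff (algebraMap K M).injective).mp h2
    obtain ⟨r, hr⟩ := hRK x h1
    have h3 : b = algebraMap R _ r := by
      apply Subtype.ext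
      rw [← hx, ← hr]
      exact (IsScalarTower.algebraMap_apply R K M r).symm
    rw [h3]; exact hR r
  obtain ⟨E, -, hE⟩ := zorn_le_nonempty₀ P (by
    intro C hC hCc E₀ hE₀
    refine ⟨sSup C, ?_, fun E hE => le_sSup hE⟩
    intro b hb
    have hdir : DirectedOn (· ≤ ·) C := hCc.directedOn
    have hne : C.Nonempty := ⟨E₀, hE₀⟩
    have hmem : ∃ E ∈ C, (b : M) ∈ E := by
      have h1 : sSup C = ⨆ E : C, (E : IntermediateField K M) := sSup_eq_iSup' C
      rw [h1] at hb
      have hne' : Nonempty C := hne.to_subtype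
      have h2 := coe_iSup_of_directed (t := fun E : C => (E : IntermediateField K M))
        (hdir.directed_val)
      have h3 : (b : M) ∈ ((⨆ E : C, (E : IntermediateField K M) : IntermediateField K M) : Set M) := hb
      rw [h2] at h3
      obtain ⟨E, hE⟩ := Set.mem_iUnion.mp h3
      exact ⟨E, E.2, hE⟩
    obtain ⟨E, hEC, hbE⟩ := hmem
    exact hC hEC b hbE) ⊥ hbot
  have hEP : ∀ b : integralClosure R M, (b : M) ∈ E → Ψ₁ b = Ψ₂ b := hE.prop
  have hstep : ∀ c : integralClosure R M, (c : M) ≠ 0 → IsIntegral R (c : M)⁻¹ →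
      ((minpoly E (c : M)).map (algebraMap E M)).Splits →
      (∀ r : M, aeval r (minpoly E (c : M)) = 0 → ∃ ζ : kb, r = algebraMap kb M ζ * c) →
      (c : M) ∈ E := by
    intro c hc0 hc' hsp hrt
    have hint : IsIntegral E (c : M) :=
      (Algebra.IsAlgebraic.isAlgebraic (R := K) (c : M)).isIntegral.tower_top
    have h1 := agree_adjoin hkb Ψ₁ Ψ₂ E hEP c hc0 hc' (hu c hc0 hc') hint hsp hrt
    have h2 : E ≤ E⟮(c : M)⟯.restrictScalars K := by
      intro x hx
      exact (E⟮(c : M)⟯).algebraMap_mem ⟨x, hx⟩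
    have h3 := hE.le_of_ge h1 h2
    exact h3 (mem_adjoin_simple_self E (c : M))
  have hkE : ∀ a, algebraMap kb M a ∈ E := by
    intro a
    by_cases ha : a = 0
    · rw [ha, map_zero]; exact zero_mem _
    have ha' : algebraMap kb M a ≠ 0 := by rw [_root_.map_ne_zero]; exact ha
    have h1 : IsIntegral k a := (Algebra.IsAlgebraic.isAlgebraic (R := k) a).isIntegral
    have hdvd : minpoly E (algebraMap kb M a) ∣ ((minpoly k a).map (algebraMap k K)).map (algebraMap K E) := by
      apply minpoly.dvd
      rw [aeval_map_algebraMap, aeval_map_algebraMap, aeval_algebraMap_apply, minpoly.aeval, map_zero]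
    have h2 : ((((minpoly k a).map (algebraMap k K)).map (algebraMap K E)).map (algebraMap E M)) =
        ((minpoly k a).map (algebraMap k kb)).map (algebraMap kb M) := by
      rw [Polynomial.map_map, Polynomial.map_map, Polynomial.map_map]
      congr 1
      ext x
      change algebraMap K M (algebraMap k K x) = _
      rw [← IsScalarTower.algebraMap_apply]
      exact IsScalarTower.algebraMap_apply k kb M x
    have h0 : (minpoly k a).map (algebraMap k kb) ≠ 0 := by
      rw [Polynomial.map_ne_zero_iff (algebraMap k kb).injective]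
      exact minpoly.ne_zero h1
    refine hstep ⟨algebraMap kb M a, hkb a⟩ ha' (by rw [← map_inv₀]; exact hkb _) ?_ ?_
    · refine Splits.of_dvd (g := ((((minpoly k a).map (algebraMap k K)).map (algebraMap K E)).map (algebraMap E M))) ?_ ?_
        (Polynomial.map_dvd _ hdvd)
      · rw [h2]; exact (IsAlgClosed.splits _).map _
      · rw [h2, Polynomial.map_ne_zero_iff (algebraMap kb M).injective]
        exact h0
    · intro r hr
      have h3 : (((minpoly k a).map (algebraMap k kb)).map (algebraMap kb M)).IsRoot r := by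
        rw [← h2]
        refine IsRoot.dvd ?_ (Polynomial.map_dvd (algebraMap E M) hdvd)
        rw [IsRoot, eval_map_algebraMap]
        exact hr
      obtain ⟨r', hr'⟩ := (IsAlgClosed.splits _).mem_range_of_isRoot h0 h3
      refine ⟨r' / a, ?_⟩
      rw [← hr', map_div₀, div_mul_cancel₀ _ ha']
  have hrE : ∀ b : M, ∀ n : ℕ, 1 ≤ n → b ≠ 0 → IsIntegral R b → IsIntegral R b⁻¹ → b ^ n ∈ E →
      b ∈ E := by
    intro b n hn hb0 hb hb' hbn
    have hcharkb : CharZero kb := by
      constructor
      intro x y hxy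
      have := congrArg (algebraMap kb M) hxy
      simpa using this
    have hdvd : minpoly E b ∣ X ^ n - C (⟨b ^ n, hbn⟩ : E) := by
      apply minpoly.dvd
      rw [map_sub, map_pow, aeval_X, aeval_C]
      exact sub_self _
    have h2 : (X ^ n - C (⟨b ^ n, hbn⟩ : E)).map (algebraMap E M) = X ^ n - C (b ^ n) := by
      rw [Polynomial.map_sub, Polynomial.map_pow, map_X, map_C]
      rfl
    have : NeZero (n : kb) := ⟨Nat.cast_ne_zero.mpr (by omega)⟩
    obtain ⟨ζ, hζ⟩ := HasEnoughRootsOfUnity.exists_primitiveRoot kb n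
    have hζ' : IsPrimitiveRoot (algebraMap kb M ζ) n := hζ.map_of_injective (algebraMap kb M).injective
    refine hstep ⟨b, hb⟩ hb0 hb' ?_ ?_
    · refine Splits.of_dvd (g := (X ^ n - C (⟨b ^ n, hbn⟩ : E)).map (algebraMap E M)) ?_ ?_
        (Polynomial.map_dvd _ hdvd)
      · rw [h2]; exact X_pow_sub_C_splits_of_isPrimitiveRoot hζ' rfl
      · rw [h2]; exact X_pow_sub_C_ne_zero (by omega) _
    · intro r hr
      have h3 : (X ^ n - C (b ^ n) : M[X]).IsRoot r := by
        rw [← h2]
        refine IsRoot.dvd ?_ (Polynomial.map_dvd (algebraMap E M) hdvd)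
        rw [IsRoot, eval_map_algebraMap]
        exact hr
      have h4 : r ^ n = b ^ n := by
        have := h3
        rw [IsRoot, eval_sub, eval_pow, eval_X, eval_C, sub_eq_zero] at this
        exact this
      have h5 : ((X ^ n - 1 : kb[X]).map (algebraMap kb M)).IsRoot (r / b) := by
        rw [Polynomial.map_sub, Polynomial.map_pow, map_X, Polynomial.map_one, IsRoot, eval_sub,
          eval_pow, eval_X, eval_one, div_pow, h4, div_self (pow_ne_zero n hb0), sub_self]
      obtain ⟨r', hr'⟩ := (IsAlgClosed.splits (X ^ n - 1 : kb[X])).mem_range_of_isRoot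
        (X_pow_sub_C_ne_zero (by omega) (1 : kb)) h5
      refine ⟨r', ?_⟩
      rw [hr', div_mul_cancel₀ _ hb0]
  have htop : E = ⊤ := hmin E hkE hrE
  ext b
  exact hEP b (by rw [htop]; exact mem_top)

end

end Pool.Agent.Lib.MP_2f3286_ag
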