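import Mathlib
import Pool.Agent.Lib.MP_2f3286_ag.Assemble
import Pool.Agent.Lib.MP_2f3286_ag.Iter

/-!
# Selmer sections over rings of unit rank at most one: the common core of two hand-ins
-/

open IsDedekindDomain NumberField

namespace Pool.Agent.Lib.MP_2f3286_ag

/-- `Respects s F ι φ`, for a homomorphism `φ` from a subring `B` of `M` to `Fb`, an algebraic
closure of `F`, and an embedding `ι : kb → Fb`: `φ` extends `ι` and intertwines the action on `B` of
`Gal(Fb/F)` through the section `s` with the Galois action, i.e. over `F` the section `s` is the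
section of the point `φ` (as far as it acts on `B`). -/
def Respects {k K M kb : Type*} [Field k] [Field kb] [Algebra k kb] [Field K] [Field M]
    [Algebra K M] [Algebra kb M] {C : Type*} [SetLike C M] [SubringClass C M] {B : C}
    (s : Gal(kb/k) →* Gal(M/K)) (F : Type*) {Fb : Type*} [Field F] [Field Fb] [Algebra F Fb]
    (ι : kb →+* Fb) (φ : B →+* Fb) : Prop :=
  (∀ (a : kb) (b : B), (b : M) = algebraMap kb M a → φ b = ι a) ∧
  ∀ (σ : Gal(kb/k)) (τ : Gal(Fb/F)), (∀ a, ι (σ a) = τ (ι a)) →
    ∀ b b' : B, (b' : M) = s σ b → φ b' = τ (φ b)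

/-- The subring of `M` generated by the units of the integral closure of `R` in `M`. -/
def unitRing (R M : Type*) [CommRing R] [Field M] [Algebra R M] : Subring M :=
  Subring.closure {b : M | IsIntegral R b ∧ IsIntegral R b⁻¹}

/-- `M` is obtained from `K` by adjoining `kb` and, repeatedly, roots of units of the integral
closure of `R`: no proper subfield of `M` containing `K` and `kb` is closed under roots of units. -/
def IsKummerTower (R K M kb : Type*) [CommRing R] [Field K] [Field M] [Field kb] [Algebra R M]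
    [Algebra K M] [Algebra kb M] : Prop :=
  ∀ E : IntermediateField K M, (∀ a : kb, algebraMap kb M a ∈ E) →
    (∀ b : M, ∀ n : ℕ, 1 ≤ n → b ≠ 0 → IsIntegral R b → IsIntegral R b⁻¹ → b ^ n ∈ E → b ∈ E) →
    E = ⊤

universe u in
theorem selmer_core {k : Type u} [Field k] [NumberField k]
    {K : Type*} [Field K] [Algebra k K] (htr : Algebra.trdeg k K = 1)
    (R : Subalgebra k K) (f g : Rˣ)
    (hind : ∀ p q : ℤ, (∃ c : k, ((f ^ p * g ^ q : Rˣ) : R) = algebraMap k R c) → p = 0 ∧ q = 0)
    {M : Type*} [Field M] [Algebra K M] [Algebra.IsAlgebraic K M]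
    [Algebra (AlgebraicClosure k) M] [Algebra k M]
    [IsScalarTower k K M] [IsScalarTower k (AlgebraicClosure k) M]
    (hroots : ∀ b : M, b ≠ 0 → IsIntegral R b → IsIntegral R b⁻¹ → ∀ n : ℕ, 1 ≤ n → ∃ c : M, c ^ n = b)
    (s : Gal(AlgebraicClosure k/k) →* Gal(M/K)) (hs : Continuous s)
    (hsec : ∀ σ a, s σ (algebraMap (AlgebraicClosure k) M a) =
      algebraMap (AlgebraicClosure k) M (σ a))
    (S : Finset (HeightOneSpectrum (𝓞 k)))
    (hrank : Fintype.card (InfinitePlace k) + S.card ≤ 2 ∨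
      ∃ ε : kˣ, ∀ (c : M) (n : ℕ), 1 ≤ n → (c ^ n = algebraMap R M f ∨ c ^ n = algebraMap R M g) →
        ∃ ζ : kˣ, IsOfFinOrder ζ ∧ ∃ j : ℤ, ∃ z : AlgebraicClosure k,
          z ^ n = algebraMap k (AlgebraicClosure k) ((ζ * ε ^ j : kˣ) : k) ∧
          ∀ σ, s σ c * algebraMap (AlgebraicClosure k) M z =
            algebraMap (AlgebraicClosure k) M (σ z) * c)
    (ι : ∀ v : {v : HeightOneSpectrum (𝓞 k) // v ∉ S},
      AlgebraicClosure k →ₐ[k] AlgebraicClosure (v.1.adicCompletion k))
    (φ : ∀ v : {v : HeightOneSpectrum (𝓞 k) // v ∉ S},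
      integralClosure R M →+* AlgebraicClosure (v.1.adicCompletion k))
    (hφ : ∀ v, Respects s (v.1.adicCompletion k) (ι v : _ →+* AlgebraicClosure (v.1.adicCompletion k)) (φ v))
    (hfg : ∀ v, ∃ y z : v.1.adicCompletion k, Valued.v y = 1 ∧ Valued.v z = 1 ∧
      φ v (algebraMap R (integralClosure R M) f) = algebraMap _ _ y ∧
      φ v (algebraMap R (integralClosure R M) g) = algebraMap _ _ z) :
    (∃ ψ : unitRing R M →+* AlgebraicClosure k, Respects s k (RingHom.id _) ψ ∧
      (∀ v, ∀ c : unitRing R M, ∀ b : integralClosure R M, (b : M) = c → φ v b = ι v (ψ c)) ∧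
      ∀ ψ' : unitRing R M →+* AlgebraicClosure k, Respects s k (RingHom.id _) ψ' → ψ' = ψ) ∧
    ((∀ x : K, IsIntegral R x → x ∈ R) → (∀ r : R, algebraMap R M r ∈ unitRing R M) →
      IsKummerTower R K M (AlgebraicClosure k) →
      ∃ Ψ : integralClosure R M →+* AlgebraicClosure k, Respects s k (RingHom.id _) Ψ ∧
        (∃ x : R →ₐ[k] k, ∀ r, Ψ (algebraMap R _ r) = algebraMap k _ (x r)) ∧
        (∀ v b, φ v b = ι v (Ψ b)) ∧
        ∀ Ψ' : integralClosure R M →+* AlgebraicClosure k,
          Respects s k (RingHom.id _) Ψ' → Ψ' = Ψ) := by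
  classical
  have htow : IsScalarTower R K M := inferInstance
  have htow' : IsScalarTower k R M := IsScalarTower.of_algebraMap_eq fun x => by
    rw [IsScalarTower.algebraMap_apply k K M]; rfl
  -- basic facts about the integral closure
  have hRM : ∀ r : R, algebraMap R M r = algebraMap K M (r : K) := fun r => rfl
  have hBk : ∀ a : AlgebraicClosure k, IsIntegral R (algebraMap (AlgebraicClosure k) M a) := by
    intro a
    have h1 : IsIntegral k a := Algebra.IsIntegral.isIntegral a
    have h2 : IsIntegral k (algebraMap (AlgebraicClosure k) M a) := h1.algebraMap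
    exact h2.tower_top
  have hBs : ∀ σ, ∀ b : M, IsIntegral R b → IsIntegral R (s σ b) := by
    intro σ b hb
    exact hb.map (((s σ).toAlgHom.restrictScalars R : M →ₐ[R] M))
  have hBroot : ∀ (c : M) (n : ℕ), 1 ≤ n → IsIntegral R (c ^ n) → IsIntegral R c :=
    fun c n hn h => h.of_pow hn
  have hsK : ∀ σ, ∀ r : R, s σ (algebraMap R M r) = algebraMap R M r := by
    intro σ r
    rw [hRM, AlgEquiv.commutes]
  let B : Subalgebra k M := (integralClosure R M).restrictScalars k
  let e : B →+* integralClosure R M :=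
    { toFun := fun x => ⟨x.1, x.2⟩
      map_one' := rfl
      map_mul' := fun _ _ => rfl
      map_zero' := rfl
      map_add' := fun _ _ => rfl }
  have hφ' : ∀ v, Resp s (v.1.adicCompletion k)
      (ι v : _ →+* AlgebraicClosure (v.1.adicCompletion k)) ((φ v).comp e) := by
    intro v
    exact ⟨fun a b hab => (hφ v).1 a (e b) hab, fun σ τ h b b' hb => (hφ v).2 σ τ h (e b) (e b') hb⟩
  have hchar : ∀ v : HeightOneSpectrum (𝓞 k), CharZero (v.adicCompletion k) := fun v =>
    charZero_of_injective_algebraMap (algebraMap k (v.adicCompletion k)).injective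
  -- values on `R`
  have hR : ∀ v : {v : HeightOneSpectrum (𝓞 k) // v ∉ S}, ∀ r : R, ∃ y : v.1.adicCompletion k,
      algebraMap _ (AlgebraicClosure (v.1.adicCompletion k)) y =
        ((φ v).comp (algebraMap R (integralClosure R M))) r := by
    intro v r
    have := hchar v.1
    apply mem_of_fixed
    intro τ
    obtain ⟨σ, hσ⟩ := exists_restrict (ι v) τ
    refine ((hφ v).2 σ τ hσ _ _ ?_).symm
    exact (hsK σ r).symm
  have hx : ∀ v : {v : HeightOneSpectrum (𝓞 k) // v ∉ S}, ∃ x : R →ₐ[k] v.1.adicCompletion k,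
      ∀ r, algebraMap _ (AlgebraicClosure (v.1.adicCompletion k)) (x r) =
        φ v (algebraMap R (integralClosure R M) r) := by
    intro v
    obtain ⟨x, hx⟩ := exists_descent _ (hR v)
    refine ⟨{ x with commutes' := fun a => ?_ }, hx⟩
    apply (algebraMap _ (AlgebraicClosure (v.1.adicCompletion k))).injective
    change algebraMap _ _ (x (algebraMap k R a)) = _
    rw [hx]
    change φ v (algebraMap R (integralClosure R M) (algebraMap k R a)) = _
    rw [(hφ v).1 (algebraMap k _ a) _ ?_]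
    · change ι v (algebraMap k _ a) = _
      rw [AlgHom.commutes]
      rfl
    · change algebraMap R M (algebraMap k R a) = _
      rw [← IsScalarTower.algebraMap_apply, ← IsScalarTower.algebraMap_apply]
  choose x hx using hx
  -- roots of f and g
  have hunit : ∀ u : Rˣ, algebraMap R M u ≠ 0 ∧ IsIntegral R (algebraMap R M u) ∧
      IsIntegral R (algebraMap R M u)⁻¹ := by
    intro u
    have h0 : (((u : R)) : K) ≠ 0 := fun h => u.ne_zero (Subtype.ext h)
    have h1 : algebraMap R M u ≠ 0 := by rw [hRM, map_ne_zero]; exact h0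
    refine ⟨h1, isIntegral_algebraMap, ?_⟩
    have h2 : (algebraMap R M u)⁻¹ = algebraMap R M ((u⁻¹ : Rˣ) : R) :=
      inv_eq_of_mul_eq_one_right (by rw [← map_mul, Units.mul_inv, map_one])
    rw [h2]; exact isIntegral_algebraMap
  let F : Fin 2 → Rˣ := ![f, g]
  have hFroots : ∀ i : Fin 2, ∀ n : ℕ, 1 ≤ n → ∃ c : M, c ^ n = algebraMap R M (F i) := by
    intro i
    obtain ⟨h1, h2, h3⟩ := hunit (F i)
    exact hroots _ h1 h2 h3
  choose T hT1 hTn hTc using fun i => exists_roots_compatible (hFroots i)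
  have hTint : ∀ i n, 1 ≤ n → T i n ∈ integralClosure R M := fun i n hn =>
    hBroot _ n hn (by rw [hTn i n hn]; exact isIntegral_algebraMap)
  have hval1 : ∀ v : {v : HeightOneSpectrum (𝓞 k) // v ∉ S}, ∀ i, Valued.v (x v (F i)) = 1 := by
    intro v i
    obtain ⟨y, z, hy, hz, hyf, hzg⟩ := hfg v
    have hinj := (algebraMap (v.1.adicCompletion k) (AlgebraicClosure (v.1.adicCompletion k))).injective
    fin_cases i
    · have h1 : x v f = y := hinj (by rw [hx, hyf])
      change Valued.v (x v f) = 1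
      rw [h1, hy]
    · have h1 : x v g = z := hinj (by rw [hx, hzg])
      change Valued.v (x v g) = 1
      rw [h1, hz]
  -- stage 1
  obtain ⟨a, ha, -⟩ := rank_one_core htr R F 0 1 hind T hTn hTc s hs hsec S
    (fun v i => if hv : v ∉ S then x ⟨v, hv⟩ (F i) else 1)
    (fun v hv i => by simp only [dif_pos hv]; exact hval1 ⟨v, hv⟩ i)
    (fun v hv => by
      refine ⟨ι ⟨v, hv⟩, fun i n => if h : T i n ∈ integralClosure R M then φ ⟨v, hv⟩ ⟨T i n, h⟩ else 0,
        fun i n hn => ?_, fun σ τ hστ i n hn ζ hζ => ?_⟩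
      · beta_reduce
        rw [dif_pos hv, dif_pos (hTint i n hn), ← map_pow]
        refine Eq.trans ?_ (hx ⟨v, hv⟩ (F i)).symm
        congr 1
        apply Subtype.ext
        exact hTn i n hn
      · beta_reduce
        rw [dif_pos (hTint i n hn)]
        have h1 := (hφ ⟨v, hv⟩).2 σ τ hστ ⟨T i n, hTint i n hn⟩
          ((⟨algebraMap (AlgebraicClosure k) M ζ, hBk ζ⟩ : integralClosure R M) * ⟨T i n, hTint i n hn⟩) (by
            rw [hζ]; rfl)
        rw [← h1, map_mul, (hφ ⟨v, hv⟩).1 ζ ⟨algebraMap (AlgebraicClosure k) M ζ, hBk ζ⟩ rfl]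
        rfl)
    ⟨S, fun v hv => ⟨x ⟨v, hv⟩, fun i => by simp only [dif_pos hv]⟩⟩
    (by
      rcases hrank with h | ⟨ε, h⟩
      · exact Or.inl h
      · refine Or.inr ⟨ε, fun i n hn => h (T i n) n hn ?_⟩
        have h1 := hTn i n hn
        fin_cases i
        · exact Or.inl h1
        · exact Or.inr h1)
  -- the function `f - a` vanishes at all the local points
  have hfa : ∀ v : {v : HeightOneSpectrum (𝓞 k) // v ∉ S},
      x v f = algebraMap k (v.1.adicCompletion k) (a 0) := by
    intro v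
    have h1 := ha v.1 v.2 0
    simp only [dif_pos v.2] at h1
    exact h1
  let h : B := ⟨algebraMap R M ((f : R) - algebraMap k R (a 0)), isIntegral_algebraMap⟩
  have hh : h ≠ 0 := by
    intro h0
    have h1 : algebraMap R M ((f : R) - algebraMap k R (a 0)) = 0 := congrArg Subtype.val h0
    rw [hRM, map_eq_zero] at h1
    have h2 : (f : R) = algebraMap k R (a 0) := sub_eq_zero.mp (Subtype.ext h1)
    have h3 := hind 1 0 ⟨a 0, by simpa using h2⟩
    exact one_ne_zero h3.1
  have hφh : ∀ v, ((φ v).comp e) h = 0 := by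
    intro v
    change φ v (algebraMap R (integralClosure R M) ((f : R) - algebraMap k R (a 0))) = 0
    rw [← hx, map_sub, hfa, AlgHom.commutes, sub_self, map_zero]
  -- stage 2
  have hunits := fun (b : M) (hb0 : b ≠ 0) (hb : IsIntegral R b) (hb' : IsIntegral R b⁻¹) =>
    unit_values htr B s hs hsec hBk hBs hBroot S ι (fun v => (φ v).comp e) hφ' h hh
      (fun σ => hsK σ _) hφh b hb0 hb hb' (hroots b hb0 hb hb')
  -- stage 3
  obtain ⟨v₀, hv₀⟩ := exists_notMem S
  let P : M → AlgebraicClosure k → Prop := fun c a => ∀ v, ∀ ρ : Gal(AlgebraicClosure k/k),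
    ∀ b' : integralClosure R M, (b' : M) = s ρ c → φ v b' = ι v (ρ a)
  have hPadd : ∀ c c' a a', IsIntegral R c → IsIntegral R c' → P c a → P c' a' →
      P (c + c') (a + a') := by
    intro c c' a a' hc hc' h1 h2 v ρ b' hb'
    have h3 : b' = ⟨s ρ c, hBs ρ c hc⟩ + ⟨s ρ c', hBs ρ c' hc'⟩ := by
      apply Subtype.ext
      rw [hb', map_add]; rfl
    rw [h3, map_add, h1 v ρ _ rfl, h2 v ρ _ rfl, map_add, map_add]
  have hPmul : ∀ c c' a a', IsIntegral R c → IsIntegral R c' → P c a → P c' a' →
      P (c * c') (a * a') := by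
    intro c c' a a' hc hc' h1 h2 v ρ b' hb'
    have h3 : b' = ⟨s ρ c, hBs ρ c hc⟩ * ⟨s ρ c', hBs ρ c' hc'⟩ := by
      apply Subtype.ext
      rw [hb', map_mul]; rfl
    rw [h3, map_mul, h1 v ρ _ rfl, h2 v ρ _ rfl, map_mul, map_mul]
  have hPneg : ∀ c a, IsIntegral R c → P c a → P (-c) (-a) := by
    intro c a hc h1 v ρ b' hb'
    have h3 : b' = -⟨s ρ c, hBs ρ c hc⟩ := by
      apply Subtype.ext
      rw [hb', map_neg]; rfl
    rw [h3, map_neg, h1 v ρ _ rfl, map_neg, map_neg]
  have hPk : ∀ a : AlgebraicClosure k, P (algebraMap _ M a) a := by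
    intro a v ρ b' hb'
    exact (hφ v).1 (ρ a) b' (by rw [hb', hsec])
  have hP0 : P 0 0 := by
    have := hPk 0
    rwa [map_zero] at this
  have hP1 : P 1 1 := by
    have := hPk 1
    rwa [map_one] at this
  have hPuniq : ∀ c a a', IsIntegral R c → P c a → P c a' → a = a' := by
    intro c a a' hc h1 h2
    apply (ι ⟨v₀, hv₀⟩).toRingHom.injective
    have h3 := h1 ⟨v₀, hv₀⟩ 1 ⟨c, hc⟩ (by rw [map_one]; rfl)
    have h4 := h2 ⟨v₀, hv₀⟩ 1 ⟨c, hc⟩ (by rw [map_one]; rfl)
    exact h3.symm.trans h4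
  have hP : ∀ c ∈ unitRing R M, IsIntegral R c ∧ ∃ a, P c a := by
    intro c hc
    induction hc using Subring.closure_induction with
    | mem b hb =>
      refine ⟨hb.1, ?_⟩
      by_cases hb0 : b = 0
      · subst hb0
        exact ⟨0, hP0⟩
      · obtain ⟨L, T, y, -, -, -, -, -, hy⟩ := hunits b hb0 hb.1 hb.2
        exact ⟨y 1, fun v ρ b' hb' => hy v ρ ⟨b'.1, b'.2⟩ hb'⟩
    | zero => exact ⟨isIntegral_zero, 0, hP0⟩
    | one => exact ⟨isIntegral_one, 1, hP1⟩
    | add c c' _ _ h1 h2 =>
      obtain ⟨h1, a, h1'⟩ := h1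
      obtain ⟨h2, a', h2'⟩ := h2
      exact ⟨h1.add h2, a + a', hPadd c c' a a' h1 h2 h1' h2'⟩
    | neg c _ h1 =>
      obtain ⟨h1, a, h1'⟩ := h1
      exact ⟨h1.neg, -a, hPneg c a h1 h1'⟩
    | mul c c' _ _ h1 h2 =>
      obtain ⟨h1, a, h1'⟩ := h1
      obtain ⟨h2, a', h2'⟩ := h2
      exact ⟨h1.mul h2, a * a', hPmul c c' a a' h1 h2 h1' h2'⟩
  choose ψ₀ hψ₀ using fun c : unitRing R M => (hP c c.2).2
  have hint : ∀ c : unitRing R M, IsIntegral R (c : M) := fun c => (hP c c.2).1
  let ψ : unitRing R M →+* AlgebraicClosure k :=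
    { toFun := ψ₀
      map_one' := hPuniq 1 _ _ isIntegral_one (hψ₀ 1) hP1
      map_mul' := fun c c' => hPuniq (c * c') _ _ ((hint c).mul (hint c')) (hψ₀ (c * c'))
        (hPmul c c' _ _ (hint c) (hint c') (hψ₀ c) (hψ₀ c'))
      map_zero' := hPuniq 0 _ _ isIntegral_zero (hψ₀ 0) hP0
      map_add' := fun c c' => hPuniq (c + c') _ _ ((hint c).add (hint c')) (hψ₀ (c + c'))
        (hPadd c c' _ _ (hint c) (hint c') (hψ₀ c) (hψ₀ c')) }
  have hψ : ∀ c : unitRing R M, P c (ψ c) := hψ₀
  have part1 : Respects s k (RingHom.id _) ψ ∧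
      (∀ v, ∀ c : unitRing R M, ∀ b : integralClosure R M, (b : M) = c → φ v b = ι v (ψ c)) ∧
      ∀ ψ' : unitRing R M →+* AlgebraicClosure k, Respects s k (RingHom.id _) ψ' → ψ' = ψ := by
   refine ⟨⟨fun a c hc => ?_, fun σ τ hστ c c' hc => ?_⟩, fun v c b hb => ?_, fun ψ' hψ' => ?_⟩
   · refine hPuniq c _ _ (hint c) (hψ c) ?_
     rw [hc]; exact hPk a
   · have hτ : ∀ a, τ a = σ a := fun a => (hστ a).symm
     rw [hτ]
     refine hPuniq c' _ _ (hint c') (hψ c') ?_
     intro v ρ b' hb'
     have h1 := hψ c v (ρ * σ) b' (by rw [hb', hc, map_mul]; rfl)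
     exact h1
   · have h1 := hψ c v 1 b (by rw [map_one]; exact hb)
     exact h1
   · -- uniqueness
     have hkU : ∀ a : AlgebraicClosure k, algebraMap _ M a ∈ unitRing R M := by
       intro a
       refine Subring.subset_closure ⟨hBk a, ?_⟩
       rw [← map_inv₀]; exact hBk a⁻¹
     have key : ∀ c (hc : c ∈ unitRing R M), ψ' ⟨c, hc⟩ = ψ ⟨c, hc⟩ := by
       intro c hc
       induction hc using Subring.closure_induction with
       | mem b hb =>
         by_cases hb0 : b = 0
         · subst hb0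
           have h0 : (⟨0, Subring.subset_closure hb⟩ : unitRing R M) = 0 := rfl
           rw [h0, map_zero, map_zero]
         · obtain ⟨L, T, y, hL, hTy, hT0, hT1', hTn', hy⟩ := hunits b hb0 hb.1 hb.2
           have hLnf : NumberField L := NumberField.of_module_finite k L
           have hTU : ∀ n, T n ∈ unitRing R M := by
             intro n
             rcases Nat.eq_zero_or_pos n with rfl | hn
             · rw [hT0]; exact zero_mem _
             · refine Subring.subset_closure ⟨hBroot _ n hn (by rw [hTn' n hn]; exact hb.1),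
                 hBroot _ n hn (by rw [inv_pow, hTn' n hn]; exact hb.2)⟩
           have hRL : Resp s L (RingHom.id (AlgebraicClosure k)) ψ' := by
             refine ⟨hψ'.1, fun σ τ hστ c c' hc => ?_⟩
             have h1 := hψ'.2 σ σ (fun a => rfl) c c' hc
             rw [h1]
             exact hστ _
           obtain ⟨w, -⟩ := exists_prime_over (F := k) (E := L) v₀
           have h2 := hTy.eq (B := unitRing R M) hkU (fun n => ⟨T n, hTU n⟩) (fun n => rfl)
             (fun n hn => by
               apply Subtype.ext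
               rw [SubmonoidClass.coe_pow]
               change T n ^ n = T 1
               rw [hTn' n hn, hT1'])
             (F := L) (Fb := AlgebraicClosure k) (ι := RingHom.id _) (φ := ψ') hRL
             (fun x => ⟨x, rfl⟩) (by
               intro h0
               have h3 : (⟨T 1, hTU 1⟩ : unitRing R M) *
                   ⟨b⁻¹, Subring.subset_closure ⟨hb.2, by rw [inv_inv]; exact hb.1⟩⟩ = 1 := by
                 apply Subtype.ext
                 change T 1 * b⁻¹ = 1
                 rw [hT1', mul_inv_cancel₀ hb0]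
               have h4 := congrArg ψ' h3
               rw [map_mul, h0, zero_mul, map_one] at h4
               exact zero_ne_one h4)
             (by
               intro z hz0 hz
               have h5 := eq_one_of_divisible w (y := algebraMap L (w.adicCompletion L) z)
                 (by rw [map_ne_zero]; exact hz0) (fun n hn => by
                   obtain ⟨z', hz'⟩ := hz n hn
                   exact ⟨algebraMap L _ z', by rw [← map_pow, hz']⟩)
               rw [← map_one (algebraMap L (w.adicCompletion L))] at h5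
               exact (algebraMap L (w.adicCompletion L)).injective h5)
           have h6 : ψ ⟨b, Subring.subset_closure hb⟩ = y 1 :=
             hPuniq b _ _ hb.1 (hψ ⟨b, Subring.subset_closure hb⟩)
               (fun v ρ b' hb' => hy v ρ ⟨b'.1, b'.2⟩ hb')
           rw [h6]
           have h7 : (⟨b, Subring.subset_closure hb⟩ : unitRing R M) = ⟨T 1, hTU 1⟩ :=
             Subtype.ext hT1'.symm
           rw [h7]
           exact h2
       | zero =>
         exact (map_zero ψ').trans (map_zero ψ).symm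
       | one =>
         exact (map_one ψ').trans (map_one ψ).symm
       | add c c' hc hc' h1 h2 =>
         have h3 : (⟨c + c', add_mem hc hc'⟩ : unitRing R M) = ⟨c, hc⟩ + ⟨c', hc'⟩ := rfl
         rw [h3, map_add, map_add, h1, h2]
       | neg c hc h1 =>
         have h3 : (⟨-c, neg_mem hc⟩ : unitRing R M) = -⟨c, hc⟩ := rfl
         rw [h3, map_neg, map_neg, h1]
       | mul c c' hc hc' h1 h2 =>
         have h3 : (⟨c * c', mul_mem hc hc'⟩ : unitRing R M) = ⟨c, hc⟩ * ⟨c', hc'⟩ := rfl
         rw [h3, map_mul, map_mul, h1, h2]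
     ext c
     exact key c c.2
  obtain ⟨hp1, hp2, hp3⟩ := part1
  refine ⟨⟨ψ, hp1, hp2, hp3⟩, fun hRn hRU hmin => ?_⟩
  -- stage 4: extension to the whole integral closure
  have hBU : ∀ b : integralClosure R M, (b : M) ≠ 0 → IsIntegral R (b : M)⁻¹ →
      (b : M) ∈ unitRing R M := fun b _ hb' => Subring.subset_closure ⟨b.2, hb'⟩
  have hUs : ∀ σ, ∀ c ∈ unitRing R M, s σ c ∈ unitRing R M := by
    intro σ c hc
    induction hc using Subring.closure_induction with
    | mem b hb =>
      refine Subring.subset_closure ⟨hBs σ b hb.1, ?_⟩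
      rw [← map_inv₀]; exact hBs σ _ hb.2
    | zero => rw [map_zero]; exact zero_mem _
    | one => rw [map_one]; exact one_mem _
    | add c c' _ _ h1 h2 => rw [map_add]; exact add_mem h1 h2
    | neg c _ h1 => rw [map_neg]; exact neg_mem h1
    | mul c c' _ _ h1 h2 => rw [map_mul]; exact mul_mem h1 h2
  let θ : R →+* AlgebraicClosure k := ψ.comp
    ((algebraMap R M).codRestrict (unitRing R M) hRU)
  have hθ : ∀ v r, φ v (algebraMap R (integralClosure R M) r) = ι v (θ r) := fun v r =>
    hp2 v ⟨algebraMap R M r, hRU r⟩ _ rfl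
  have hval : ∀ v, ∀ b : integralClosure R M, ∃ β : AlgebraicClosure k, ι v β = φ v b := by
    intro v b
    obtain ⟨Q, hQm, hQ⟩ := b.2
    have h1 : Q.eval₂ (algebraMap R (integralClosure R M)) b = 0 := by
      apply Subtype.val_injective
      have h2 := Polynomial.hom_eval₂ Q (algebraMap R (integralClosure R M))
        (integralClosure R M).subtype b
      refine h2.trans ?_
      exact hQ
    have h2 := congrArg (φ v) h1
    rw [Polynomial.hom_eval₂, map_zero] at h2
    have h3 : (φ v).comp (algebraMap R (integralClosure R M)) = ((ι v : _ →+* _)).comp θ := by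
      ext r
      exact hθ v r
    rw [h3, ← Polynomial.eval₂_map] at h2
    obtain ⟨β, -, hβ⟩ := root_mem _ (hQm.map θ).ne_zero h2
    exact ⟨β, hβ⟩
  have hdesc : ∀ v, ∃ Ψ : integralClosure R M →+* AlgebraicClosure k, ∀ b, φ v b = ι v (Ψ b) := by
    intro v
    let _ : Algebra (AlgebraicClosure k) (AlgebraicClosure (v.1.adicCompletion k)) :=
      (ι v).toRingHom.toAlgebra
    obtain ⟨Ψ, hΨ⟩ := exists_descent (F := AlgebraicClosure k) (φ v) (hval v)
    exact ⟨Ψ, fun b => (hΨ b).symm⟩
  have huniq : ∀ {F : Type u} [Field F] (Ψ₁ Ψ₂ : integralClosure R M →+* F),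
      (∀ b : integralClosure R M, (b : M) ∈ unitRing R M → Ψ₁ b = Ψ₂ b) → Ψ₁ = Ψ₂ := by
    intro F _ Ψ₁ Ψ₂ h
    have : CharZero M := charZero_of_injective_algebraMap (algebraMap k M).injective
    exact eq_of_agree (k := k) (kb := AlgebraicClosure k) (K := K) hBk
      (fun x hx => ⟨⟨x, hRn x hx⟩, rfl⟩) hmin Ψ₁ Ψ₂ (fun r => h _ (hRU r))
      (fun b hb0 hb' => h b (hBU b hb0 hb'))
  obtain ⟨Ψ, hΨ⟩ := hdesc ⟨v₀, hv₀⟩
  have hΨψ : ∀ b : integralClosure R M, ∀ c : unitRing R M, (b : M) = c → Ψ b = ψ c := by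
    intro b c hbc
    apply (ι ⟨v₀, hv₀⟩).toRingHom.injective
    change ι ⟨v₀, hv₀⟩ (Ψ b) = ι ⟨v₀, hv₀⟩ (ψ c)
    rw [← hΨ, hp2 ⟨v₀, hv₀⟩ c b hbc]
  have hΨR : Respects s k (RingHom.id _) Ψ := by
   refine ⟨?_, ?_⟩
   · intro a b hb
     have h1 : (b : M) ∈ unitRing R M := by
       rw [hb]
       refine Subring.subset_closure ⟨hBk a, ?_⟩
       rw [← map_inv₀]; exact hBk a⁻¹
     rw [hΨψ b ⟨b, h1⟩ rfl]
     exact hp1.1 a ⟨b, h1⟩ hb
   · intro σ τ hστ b b' hbb'
     have hτ : τ = σ := by
       ext a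
       exact (hστ a).symm
     rw [hτ]
     -- `Ψ ∘ s σ` and `σ ∘ Ψ`
     let sσ : integralClosure R M →+* integralClosure R M :=
       { toFun := fun b => ⟨s σ b, hBs σ b b.2⟩
         map_one' := Subtype.ext (map_one _)
         map_mul' := fun _ _ => Subtype.ext (map_mul _ _ _)
         map_zero' := Subtype.ext (map_zero _)
         map_add' := fun _ _ => Subtype.ext (map_add _ _ _) }
     have h1 : Ψ.comp sσ = (σ : AlgebraicClosure k →+* AlgebraicClosure k).comp Ψ := by
       apply huniq
       intro b hb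
       have h2 : s σ b ∈ unitRing R M := hUs σ b hb
       change Ψ (sσ b) = σ (Ψ b)
       rw [hΨψ b ⟨b, hb⟩ rfl, hΨψ (sσ b) ⟨s σ b, h2⟩ rfl]
       exact hp1.2 σ σ (fun a => rfl) ⟨b, hb⟩ ⟨s σ b, h2⟩ rfl
     have h3 : b' = sσ b := Subtype.ext hbb'
     rw [h3]
     exact congrArg (fun f => f b) h1
  refine ⟨Ψ, hΨR, ?_, ?_, ?_⟩
  · have h1 : ∀ r : R, ∃ y : k, algebraMap k (AlgebraicClosure k) y =
        (Ψ.comp (algebraMap R (integralClosure R M))) r := by
      intro r
      apply mem_of_fixed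
      intro τ
      refine (hΨR.2 τ τ (fun a => rfl) _ _ ?_).symm
      exact (hsK τ r).symm
    obtain ⟨x, hx⟩ := exists_descent _ h1
    refine ⟨{ x with commutes' := fun a => ?_ }, fun r => (hx r).symm⟩
    apply (algebraMap k (AlgebraicClosure k)).injective
    change algebraMap _ _ (x (algebraMap k R a)) = _
    rw [hx]
    change Ψ (algebraMap R (integralClosure R M) (algebraMap k R a)) = _
    rw [hΨR.1 (algebraMap k _ a) _ ?_]
    · rfl
    · change algebraMap R M (algebraMap k R a) = _
      rw [← IsScalarTower.algebraMap_apply, ← IsScalarTower.algebraMap_apply]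
  · intro v b
    have h1 : φ v = (ι v : _ →+* _).comp Ψ := by
      apply huniq
      intro b hb
      change φ v b = ι v (Ψ b)
      rw [hp2 v ⟨b, hb⟩ b rfl, hΨψ b ⟨b, hb⟩ rfl]
    exact congrArg (fun f => f b) h1
  · intro Ψ' hΨ'
    apply huniq
    intro b hb
    have hUB : ∀ c : unitRing R M, IsIntegral R (c : M) := hint
    let j : unitRing R M →+* integralClosure R M :=
      { toFun := fun c => ⟨c, hUB c⟩
        map_one' := rfl
        map_mul' := fun _ _ => rfl
        map_zero' := rfl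
        map_add' := fun _ _ => rfl }
    have h1 : Ψ'.comp j = ψ := by
      apply hp3
      exact ⟨fun a c hc => hΨ'.1 a (j c) hc, fun σ τ hστ c c' hc => hΨ'.2 σ τ hστ (j c) (j c') hc⟩
    have h2 : Ψ' b = (Ψ'.comp j) ⟨b, hb⟩ := rfl
    rw [h2, h1, hΨψ b ⟨b, hb⟩ rfl]

end Pool.Agent.Lib.MP_2f3286_ag
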