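import Mathlib
import Pool.Agent.Lib.MP_2f3286_ag.SelmerCore

/-!
# Locally geometric sections: the values on the units that are divisible in `M`
-/

open IsDedekindDomain NumberField Polynomial IntermediateField

namespace Pool.Agent.Lib.MP_2f3286_ag

/-- `b` is a unit of the integral closure of `R` in `M` (or `0`) that has `n`-th roots in `M` for
all `n`. -/
def IsDivUnit (R : Type*) {M : Type*} [CommRing R] [Field M] [Algebra R M] (b : M) : Prop :=
  IsIntegral R b ∧ IsIntegral R b⁻¹ ∧ ∀ n : ℕ, 1 ≤ n → ∃ c : M, c ^ n = b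

/-- The subring of `M` generated by the units of the integral closure of `R` in `M` that have
`n`-th roots in `M` for all `n`. -/
def divUnitRing (R M : Type*) [CommRing R] [Field M] [Algebra R M] : Subring M :=
  Subring.closure {b : M | IsDivUnit R b}

/-- `M` is obtained from `K` by adjoining `kb` and, repeatedly, roots of units of the integral
closure of `R` that are divisible in `M`: no proper subfield `E` of `M` containing `K` and `kb` is
closed under roots in `M` of such units. -/
def IsDivTower (R K M kb : Type*) [CommRing R] [Field K] [Field M] [Field kb] [Algebra R M]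
    [Algebra K M] [Algebra kb M] : Prop :=
  ∀ E : IntermediateField K M, (∀ a : kb, algebraMap kb M a ∈ E) →
    (∀ b : M, ∀ n : ℕ, 1 ≤ n → b ≠ 0 → IsDivUnit R b → b ^ n ∈ E → b ∈ E) → E = ⊤

theorem IsDivUnit.inv {R M : Type*} [CommRing R] [Field M] [Algebra R M] {b : M}
    (h : IsDivUnit R b) : IsDivUnit R b⁻¹ := by
  refine ⟨h.2.1, by rw [inv_inv]; exact h.1, fun n hn => ?_⟩
  obtain ⟨c, hc⟩ := h.2.2 n hn
  exact ⟨c⁻¹, by rw [inv_pow, hc]⟩

theorem IsDivUnit.of_pow {R M kb : Type*} [CommRing R] [Field M] [Algebra R M] [Field kb]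
    [IsAlgClosed kb] [Algebra kb M] {c : M} (hc0 : c ≠ 0) {n : ℕ} (hn : 1 ≤ n)
    (h : IsDivUnit R (c ^ n)) : IsDivUnit R c := by
  refine ⟨h.1.of_pow hn, IsIntegral.of_pow hn (by rw [inv_pow]; exact h.2.1), fun m hm => ?_⟩
  obtain ⟨d, hd⟩ := h.2.2 (n * m) (Nat.mul_pos hn hm)
  have h1 : (d ^ m / c) ^ n = 1 := by
    rw [div_pow, ← pow_mul, mul_comm m n, hd, div_self (pow_ne_zero n hc0)]
  obtain ⟨ζ, hζ⟩ := root_of_unity_mem kb M hn h1
  obtain ⟨ξ, hξ⟩ := IsAlgClosed.exists_pow_nat_eq ζ hm
  have hζ0 : ζ ≠ 0 := by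
    rintro rfl
    rw [map_zero] at hζ
    rw [← hζ, zero_pow (by omega)] at h1
    exact zero_ne_one h1
  refine ⟨d / algebraMap kb M ξ, ?_⟩
  rw [div_pow, ← map_pow, hξ, hζ]
  have h2 : d ^ m / c ≠ 0 := by rw [← hζ, _root_.map_ne_zero]; exact hζ0
  have h3 : d ^ m ≠ 0 := fun h => h2 (by rw [h, zero_div])
  field_simp

theorem IsDivUnit.const {R M kb : Type*} [CommRing R] [Field M] [Algebra R M] [Field kb]
    [IsAlgClosed kb] [Algebra kb M] (hBk : ∀ a : kb, IsIntegral R (algebraMap kb M a)) (a : kb) :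
    IsDivUnit R (algebraMap kb M a) := by
  refine ⟨hBk a, by rw [← map_inv₀]; exact hBk _, fun n hn => ?_⟩
  obtain ⟨c, hc⟩ := IsAlgClosed.exists_pow_nat_eq a hn
  exact ⟨algebraMap kb M c, by rw [← map_pow, hc]⟩

section

variable {R K M kb : Type*} [CommRing R] [Field K] [Field M] [Field kb] [Algebra R K]
  [Algebra R M] [Algebra K M] [IsScalarTower R K M] [Algebra kb M] [CharZero M]

/-- Two homomorphisms of the integral closure which agree on the base ring and on all units agree,
when `M` is obtained from `K` by adjoining constants and, repeatedly, roots of units. -/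
theorem eq_of_agree_div {F : Type*} [Field F] [Algebra.IsAlgebraic K M] [IsAlgClosed kb]
    {k : Type*} [Field k] [Algebra k kb] [Algebra.IsAlgebraic k kb] [Algebra k K] [Algebra k M]
    [IsScalarTower k K M] [IsScalarTower k kb M]
    (hkb : ∀ a : kb, IsIntegral R (algebraMap kb M a))
    (hRK : ∀ x : K, IsIntegral R x → ∃ r : R, algebraMap R K r = x)
    (D : M → Prop) (hDk : ∀ a : kb, D (algebraMap kb M a)) (hD' : ∀ b, D b → IsIntegral R b⁻¹)
    (hmin : ∀ E : IntermediateField K M, (∀ a, algebraMap kb M a ∈ E) →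
      (∀ b : M, ∀ n : ℕ, 1 ≤ n → b ≠ 0 → IsIntegral R b → D b → b ^ n ∈ E → b ∈ E) →
      E = ⊤)
    (Ψ₁ Ψ₂ : integralClosure R M →+* F)
    (hR : ∀ r : R, Ψ₁ (algebraMap R _ r) = Ψ₂ (algebraMap R _ r))
    (hu : ∀ b : integralClosure R M, (b : M) ≠ 0 → D (b : M) → Ψ₁ b = Ψ₂ b) :
    Ψ₁ = Ψ₂ := by
  classical
  let P : Set (IntermediateField K M) :=
    {E | ∀ b : integralClosure R M, (b : M) ∈ E → Ψ₁ b = Ψ₂ b}
  have hbot : (⊥ : IntermediateField K M) ∈ P := by
    intro b hb
    obtain ⟨x, hx⟩ := IntermediateField.mem_bot.mp hb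
    have h1 : IsIntegral R x := by
      have h2 : IsIntegral R (algebraMap K M x) := by rw [hx]; exact b.2
      exact (isIntegral_algebraMap_iff (algebraMap K M).injective).mp h2
    obtain ⟨r, hr⟩ := hRK x h1
    have h3 : b = algebraMap R _ r := by
      apply Subtype.ext
      rw [← hx, ← hr]
      exact (IsScalarTower.algebraMap_apply R K M r).symm
    rw [h3]; exact hR r
  obtain ⟨E, -, hE⟩ := zorn_le_nonempty₀ P (by
    intro C hC hCc E₀ hE₀
    refine ⟨sSup C, ?_, fun E hE => le_sSup hE⟩
    intro b hb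
    have hdir : DirectedOn (· ≤ ·) C := hCc.directedOn
    have hne : C.Nonempty := ⟨E₀, hE₀⟩
    have hmem : ∃ E ∈ C, (b : M) ∈ E := by
      have h1 : sSup C = ⨆ E : C, (E : IntermediateField K M) := sSup_eq_iSup' C
      rw [h1] at hb
      have hne' : Nonempty C := hne.to_subtype
      have h2 := coe_iSup_of_directed (t := fun E : C => (E : IntermediateField K M))
        (hdir.directed_val)
      have h3 : (b : M) ∈ ((⨆ E : C, (E : IntermediateField K M) : IntermediateField K M) : Set M) := hb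
      rw [h2] at h3
      obtain ⟨E, hE⟩ := Set.mem_iUnion.mp h3
      exact ⟨E, E.2, hE⟩
    obtain ⟨E, hEC, hbE⟩ := hmem
    exact hC hEC b hbE) ⊥ hbot
  have hEP : ∀ b : integralClosure R M, (b : M) ∈ E → Ψ₁ b = Ψ₂ b := hE.prop
  have hstep : ∀ c : integralClosure R M, (c : M) ≠ 0 → D (c : M) →
      ((minpoly E (c : M)).map (algebraMap E M)).Splits →
      (∀ r : M, aeval r (minpoly E (c : M)) = 0 → ∃ ζ : kb, r = algebraMap kb M ζ * c) →
      (c : M) ∈ E := by
    intro c hc0 hDc hsp hrt
    have hc' := hD' _ hDc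
    have hint : IsIntegral E (c : M) :=
      (Algebra.IsAlgebraic.isAlgebraic (R := K) (c : M)).isIntegral.tower_top
    have h1 := agree_adjoin hkb Ψ₁ Ψ₂ E hEP c hc0 hc' (hu c hc0 hDc) hint hsp hrt
    have h2 : E ≤ E⟮(c : M)⟯.restrictScalars K := by
      intro x hx
      exact (E⟮(c : M)⟯).algebraMap_mem ⟨x, hx⟩
    have h3 := hE.le_of_ge h1 h2
    exact h3 (mem_adjoin_simple_self E (c : M))
  have hkE : ∀ a, algebraMap kb M a ∈ E := by
    intro a
    by_cases ha : a = 0
    · rw [ha, map_zero]; exact zero_mem _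
    have ha' : algebraMap kb M a ≠ 0 := by rw [_root_.map_ne_zero]; exact ha
    have h1 : IsIntegral k a := (Algebra.IsAlgebraic.isAlgebraic (R := k) a).isIntegral
    have hdvd : minpoly E (algebraMap kb M a) ∣ ((minpoly k a).map (algebraMap k K)).map (algebraMap K E) := by
      apply minpoly.dvd
      rw [aeval_map_algebraMap, aeval_map_algebraMap, aeval_algebraMap_apply, minpoly.aeval, map_zero]
    have h2 : ((((minpoly k a).map (algebraMap k K)).map (algebraMap K E)).map (algebraMap E M)) =
        ((minpoly k a).map (algebraMap k kb)).map (algebraMap kb M) := by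
      rw [Polynomial.map_map, Polynomial.map_map, Polynomial.map_map]
      congr 1
      ext x
      change algebraMap K M (algebraMap k K x) = _
      rw [← IsScalarTower.algebraMap_apply]
      exact IsScalarTower.algebraMap_apply k kb M x
    have h0 : (minpoly k a).map (algebraMap k kb) ≠ 0 := by
      rw [Polynomial.map_ne_zero_iff (algebraMap k kb).injective]
      exact minpoly.ne_zero h1
    refine hstep ⟨algebraMap kb M a, hkb a⟩ ha' (hDk a) ?_ ?_
    · refine Splits.of_dvd (g := ((((minpoly k a).map (algebraMap k K)).map (algebraMap K E)).map (algebraMap E M))) ?_ ?_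
        (Polynomial.map_dvd _ hdvd)
      · rw [h2]; exact (IsAlgClosed.splits _).map _
      · rw [h2, Polynomial.map_ne_zero_iff (algebraMap kb M).injective]
        exact h0
    · intro r hr
      have h3 : (((minpoly k a).map (algebraMap k kb)).map (algebraMap kb M)).IsRoot r := by
        rw [← h2]
        refine IsRoot.dvd ?_ (Polynomial.map_dvd (algebraMap E M) hdvd)
        rw [IsRoot, eval_map_algebraMap]
        exact hr
      obtain ⟨r', hr'⟩ := (IsAlgClosed.splits _).mem_range_of_isRoot h0 h3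
      refine ⟨r' / a, ?_⟩
      rw [← hr', map_div₀, div_mul_cancel₀ _ ha']
  have hrE : ∀ b : M, ∀ n : ℕ, 1 ≤ n → b ≠ 0 → IsIntegral R b → D b → b ^ n ∈ E →
      b ∈ E := by
    intro b n hn hb0 hb hb' hbn
    have hcharkb : CharZero kb := by
      constructor
      intro x y hxy
      have := congrArg (algebraMap kb M) hxy
      simpa using this
    have hdvd : minpoly E b ∣ X ^ n - C (⟨b ^ n, hbn⟩ : E) := by
      apply minpoly.dvd
      rw [map_sub, map_pow, aeval_X, aeval_C]
      exact sub_self _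
    have h2 : (X ^ n - C (⟨b ^ n, hbn⟩ : E)).map (algebraMap E M) = X ^ n - C (b ^ n) := by
      rw [Polynomial.map_sub, Polynomial.map_pow, map_X, map_C]
      rfl
    have : NeZero (n : kb) := ⟨Nat.cast_ne_zero.mpr (by omega)⟩
    obtain ⟨ζ, hζ⟩ := HasEnoughRootsOfUnity.exists_primitiveRoot kb n
    have hζ' : IsPrimitiveRoot (algebraMap kb M ζ) n := hζ.map_of_injective (algebraMap kb M).injective
    refine hstep ⟨b, hb⟩ hb0 hb' ?_ ?_
    · refine Splits.of_dvd (g := (X ^ n - C (⟨b ^ n, hbn⟩ : E)).map (algebraMap E M)) ?_ ?_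
        (Polynomial.map_dvd _ hdvd)
      · rw [h2]; exact X_pow_sub_C_splits_of_isPrimitiveRoot hζ' rfl
      · rw [h2]; exact X_pow_sub_C_ne_zero (by omega) _
    · intro r hr
      have h3 : (X ^ n - C (b ^ n) : M[X]).IsRoot r := by
        rw [← h2]
        refine IsRoot.dvd ?_ (Polynomial.map_dvd (algebraMap E M) hdvd)
        rw [IsRoot, eval_map_algebraMap]
        exact hr
      have h4 : r ^ n = b ^ n := by
        have := h3
        rw [IsRoot, eval_sub, eval_pow, eval_X, eval_C, sub_eq_zero] at this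
        exact this
      have h5 : ((X ^ n - 1 : kb[X]).map (algebraMap kb M)).IsRoot (r / b) := by
        rw [Polynomial.map_sub, Polynomial.map_pow, map_X, Polynomial.map_one, IsRoot, eval_sub,
          eval_pow, eval_X, eval_one, div_pow, h4, div_self (pow_ne_zero n hb0), sub_self]
      obtain ⟨r', hr'⟩ := (IsAlgClosed.splits (X ^ n - 1 : kb[X])).mem_range_of_isRoot
        (X_pow_sub_C_ne_zero (by omega) (1 : kb)) h5
      refine ⟨r', ?_⟩
      rw [hr', div_mul_cancel₀ _ hb0]
  have htop : E = ⊤ := hmin E hkE hrE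
  ext b
  exact hEP b (by rw [htop]; exact mem_top)

end

universe u in
/-- Stages 2 to 4 of `selmer_core`: a function `h₀` in `R`, not zero, vanishes at all the local
points. -/
theorem core_div {k : Type u} [Field k] [NumberField k]
    {K : Type*} [Field K] [Algebra k K] (htr : Algebra.trdeg k K = 1)
    (R : Subalgebra k K)
    {M : Type*} [Field M] [Algebra K M] [Algebra.IsAlgebraic K M]
    [Algebra (AlgebraicClosure k) M] [Algebra k M]
    [IsScalarTower k K M] [IsScalarTower k (AlgebraicClosure k) M]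
    (s : Gal(AlgebraicClosure k/k) →* Gal(M/K)) (hs : Continuous s)
    (hsec : ∀ σ a, s σ (algebraMap (AlgebraicClosure k) M a) =
      algebraMap (AlgebraicClosure k) M (σ a))
    (S : Finset (HeightOneSpectrum (𝓞 k)))
    (ι : ∀ v : {v : HeightOneSpectrum (𝓞 k) // v ∉ S},
      AlgebraicClosure k →ₐ[k] AlgebraicClosure (v.1.adicCompletion k))
    (φ : ∀ v : {v : HeightOneSpectrum (𝓞 k) // v ∉ S},
      integralClosure R M →+* AlgebraicClosure (v.1.adicCompletion k))
    (hφ : ∀ v, Respects s (v.1.adicCompletion k) (ι v : _ →+* AlgebraicClosure (v.1.adicCompletion k)) (φ v))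
    (h₀ : R) (hh₀ : h₀ ≠ 0) (hvan : ∀ v, φ v (algebraMap R (integralClosure R M) h₀) = 0) :
    (∃ ψ : divUnitRing R M →+* AlgebraicClosure k, Respects s k (RingHom.id _) ψ ∧
      (∀ v, ∀ c : divUnitRing R M, ∀ b : integralClosure R M, (b : M) = c → φ v b = ι v (ψ c)) ∧
      ∀ ψ' : divUnitRing R M →+* AlgebraicClosure k, Respects s k (RingHom.id _) ψ' → ψ' = ψ) ∧
    ((∀ x : K, IsIntegral R x → x ∈ R) → (∀ r : R, algebraMap R M r ∈ divUnitRing R M) →
      IsDivTower R K M (AlgebraicClosure k) →
      ∃ Ψ : integralClosure R M →+* AlgebraicClosure k, Respects s k (RingHom.id _) Ψ ∧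
        (∃ x : R →ₐ[k] k, ∀ r, Ψ (algebraMap R _ r) = algebraMap k _ (x r)) ∧
        (∀ v b, φ v b = ι v (Ψ b)) ∧
        ∀ Ψ' : integralClosure R M →+* AlgebraicClosure k,
          Respects s k (RingHom.id _) Ψ' → Ψ' = Ψ) := by
  classical
  have htow : IsScalarTower R K M := inferInstance
  have htow' : IsScalarTower k R M := IsScalarTower.of_algebraMap_eq fun x => by
    rw [IsScalarTower.algebraMap_apply k K M]; rfl
  -- basic facts about the integral closure
  have hRM : ∀ r : R, algebraMap R M r = algebraMap K M (r : K) := fun r => rfl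
  have hBk : ∀ a : AlgebraicClosure k, IsIntegral R (algebraMap (AlgebraicClosure k) M a) := by
    intro a
    have h1 : IsIntegral k a := Algebra.IsIntegral.isIntegral a
    have h2 : IsIntegral k (algebraMap (AlgebraicClosure k) M a) := h1.algebraMap
    exact h2.tower_top
  have hBs : ∀ σ, ∀ b : M, IsIntegral R b → IsIntegral R (s σ b) := by
    intro σ b hb
    exact hb.map (((s σ).toAlgHom.restrictScalars R : M →ₐ[R] M))
  have hBroot : ∀ (c : M) (n : ℕ), 1 ≤ n → IsIntegral R (c ^ n) → IsIntegral R c :=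
    fun c n hn h => h.of_pow hn
  have hsK : ∀ σ, ∀ r : R, s σ (algebraMap R M r) = algebraMap R M r := by
    intro σ r
    rw [hRM, AlgEquiv.commutes]
  let B : Subalgebra k M := (integralClosure R M).restrictScalars k
  let e : B →+* integralClosure R M :=
    { toFun := fun x => ⟨x.1, x.2⟩
      map_one' := rfl
      map_mul' := fun _ _ => rfl
      map_zero' := rfl
      map_add' := fun _ _ => rfl }
  have hφ' : ∀ v, Resp s (v.1.adicCompletion k)
      (ι v : _ →+* AlgebraicClosure (v.1.adicCompletion k)) ((φ v).comp e) := by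
    intro v
    exact ⟨fun a b hab => (hφ v).1 a (e b) hab, fun σ τ h b b' hb => (hφ v).2 σ τ h (e b) (e b') hb⟩
  have hchar : ∀ v : HeightOneSpectrum (𝓞 k), CharZero (v.adicCompletion k) := fun v =>
    charZero_of_injective_algebraMap (algebraMap k (v.adicCompletion k)).injective
  -- values on `R`
  have hR : ∀ v : {v : HeightOneSpectrum (𝓞 k) // v ∉ S}, ∀ r : R, ∃ y : v.1.adicCompletion k,
      algebraMap _ (AlgebraicClosure (v.1.adicCompletion k)) y =
        ((φ v).comp (algebraMap R (integralClosure R M))) r := by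
    intro v r
    have := hchar v.1
    apply mem_of_fixed
    intro τ
    obtain ⟨σ, hσ⟩ := exists_restrict (ι v) τ
    refine ((hφ v).2 σ τ hσ _ _ ?_).symm
    exact (hsK σ r).symm
  have hx : ∀ v : {v : HeightOneSpectrum (𝓞 k) // v ∉ S}, ∃ x : R →ₐ[k] v.1.adicCompletion k,
      ∀ r, algebraMap _ (AlgebraicClosure (v.1.adicCompletion k)) (x r) =
        φ v (algebraMap R (integralClosure R M) r) := by
    intro v
    obtain ⟨x, hx⟩ := exists_descent _ (hR v)
    refine ⟨{ x with commutes' := fun a => ?_ }, hx⟩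
    apply (algebraMap _ (AlgebraicClosure (v.1.adicCompletion k))).injective
    change algebraMap _ _ (x (algebraMap k R a)) = _
    rw [hx]
    change φ v (algebraMap R (integralClosure R M) (algebraMap k R a)) = _
    rw [(hφ v).1 (algebraMap k _ a) _ ?_]
    · change ι v (algebraMap k _ a) = _
      rw [AlgHom.commutes]
      rfl
    · change algebraMap R M (algebraMap k R a) = _
      rw [← IsScalarTower.algebraMap_apply, ← IsScalarTower.algebraMap_apply]
  choose x hx using hx
  let h : B := ⟨algebraMap R M h₀, isIntegral_algebraMap⟩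
  have hh : h ≠ 0 := by
    intro h0
    have h1 : algebraMap R M h₀ = 0 := congrArg Subtype.val h0
    rw [hRM, map_eq_zero] at h1
    exact hh₀ (Subtype.ext h1)
  have hφh : ∀ v, ((φ v).comp e) h = 0 := fun v => hvan v
  -- stage 2
  have hunits := fun (b : M) (hb0 : b ≠ 0) (hb : IsDivUnit R b) =>
    unit_values htr B s hs hsec hBk hBs hBroot S ι (fun v => (φ v).comp e) hφ' h hh
      (fun σ => hsK σ _) hφh b hb0 hb.1 hb.2.1 hb.2.2
  -- stage 3
  obtain ⟨v₀, hv₀⟩ := exists_notMem S
  let P : M → AlgebraicClosure k → Prop := fun c a => ∀ v, ∀ ρ : Gal(AlgebraicClosure k/k),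
    ∀ b' : integralClosure R M, (b' : M) = s ρ c → φ v b' = ι v (ρ a)
  have hPadd : ∀ c c' a a', IsIntegral R c → IsIntegral R c' → P c a → P c' a' →
      P (c + c') (a + a') := by
    intro c c' a a' hc hc' h1 h2 v ρ b' hb'
    have h3 : b' = ⟨s ρ c, hBs ρ c hc⟩ + ⟨s ρ c', hBs ρ c' hc'⟩ := by
      apply Subtype.ext
      rw [hb', map_add]; rfl
    rw [h3, map_add, h1 v ρ _ rfl, h2 v ρ _ rfl, map_add, map_add]
  have hPmul : ∀ c c' a a', IsIntegral R c → IsIntegral R c' → P c a → P c' a' →
      P (c * c') (a * a') := by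
    intro c c' a a' hc hc' h1 h2 v ρ b' hb'
    have h3 : b' = ⟨s ρ c, hBs ρ c hc⟩ * ⟨s ρ c', hBs ρ c' hc'⟩ := by
      apply Subtype.ext
      rw [hb', map_mul]; rfl
    rw [h3, map_mul, h1 v ρ _ rfl, h2 v ρ _ rfl, map_mul, map_mul]
  have hPneg : ∀ c a, IsIntegral R c → P c a → P (-c) (-a) := by
    intro c a hc h1 v ρ b' hb'
    have h3 : b' = -⟨s ρ c, hBs ρ c hc⟩ := by
      apply Subtype.ext
      rw [hb', map_neg]; rfl
    rw [h3, map_neg, h1 v ρ _ rfl, map_neg, map_neg]
  have hPk : ∀ a : AlgebraicClosure k, P (algebraMap _ M a) a := by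
    intro a v ρ b' hb'
    exact (hφ v).1 (ρ a) b' (by rw [hb', hsec])
  have hP0 : P 0 0 := by
    have := hPk 0
    rwa [map_zero] at this
  have hP1 : P 1 1 := by
    have := hPk 1
    rwa [map_one] at this
  have hPuniq : ∀ c a a', IsIntegral R c → P c a → P c a' → a = a' := by
    intro c a a' hc h1 h2
    apply (ι ⟨v₀, hv₀⟩).toRingHom.injective
    have h3 := h1 ⟨v₀, hv₀⟩ 1 ⟨c, hc⟩ (by rw [map_one]; rfl)
    have h4 := h2 ⟨v₀, hv₀⟩ 1 ⟨c, hc⟩ (by rw [map_one]; rfl)
    exact h3.symm.trans h4
  have hP : ∀ c ∈ divUnitRing R M, IsIntegral R c ∧ ∃ a, P c a := by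
    intro c hc
    induction hc using Subring.closure_induction with
    | mem b hb =>
      refine ⟨hb.1, ?_⟩
      by_cases hb0 : b = 0
      · subst hb0
        exact ⟨0, hP0⟩
      · obtain ⟨L, T, y, -, -, -, -, -, hy⟩ := hunits b hb0 hb
        exact ⟨y 1, fun v ρ b' hb' => hy v ρ ⟨b'.1, b'.2⟩ hb'⟩
    | zero => exact ⟨isIntegral_zero, 0, hP0⟩
    | one => exact ⟨isIntegral_one, 1, hP1⟩
    | add c c' _ _ h1 h2 =>
      obtain ⟨h1, a, h1'⟩ := h1
      obtain ⟨h2, a', h2'⟩ := h2
      exact ⟨h1.add h2, a + a', hPadd c c' a a' h1 h2 h1' h2'⟩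
    | neg c _ h1 =>
      obtain ⟨h1, a, h1'⟩ := h1
      exact ⟨h1.neg, -a, hPneg c a h1 h1'⟩
    | mul c c' _ _ h1 h2 =>
      obtain ⟨h1, a, h1'⟩ := h1
      obtain ⟨h2, a', h2'⟩ := h2
      exact ⟨h1.mul h2, a * a', hPmul c c' a a' h1 h2 h1' h2'⟩
  choose ψ₀ hψ₀ using fun c : divUnitRing R M => (hP c c.2).2
  have hint : ∀ c : divUnitRing R M, IsIntegral R (c : M) := fun c => (hP c c.2).1
  let ψ : divUnitRing R M →+* AlgebraicClosure k :=
    { toFun := ψ₀
      map_one' := hPuniq 1 _ _ isIntegral_one (hψ₀ 1) hP1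
      map_mul' := fun c c' => hPuniq (c * c') _ _ ((hint c).mul (hint c')) (hψ₀ (c * c'))
        (hPmul c c' _ _ (hint c) (hint c') (hψ₀ c) (hψ₀ c'))
      map_zero' := hPuniq 0 _ _ isIntegral_zero (hψ₀ 0) hP0
      map_add' := fun c c' => hPuniq (c + c') _ _ ((hint c).add (hint c')) (hψ₀ (c + c'))
        (hPadd c c' _ _ (hint c) (hint c') (hψ₀ c) (hψ₀ c')) }
  have hψ : ∀ c : divUnitRing R M, P c (ψ c) := hψ₀
  have part1 : Respects s k (RingHom.id _) ψ ∧
      (∀ v, ∀ c : divUnitRing R M, ∀ b : integralClosure R M, (b : M) = c → φ v b = ι v (ψ c)) ∧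
      ∀ ψ' : divUnitRing R M →+* AlgebraicClosure k, Respects s k (RingHom.id _) ψ' → ψ' = ψ := by
   refine ⟨⟨fun a c hc => ?_, fun σ τ hστ c c' hc => ?_⟩, fun v c b hb => ?_, fun ψ' hψ' => ?_⟩
   · refine hPuniq c _ _ (hint c) (hψ c) ?_
     rw [hc]; exact hPk a
   · have hτ : ∀ a, τ a = σ a := fun a => (hστ a).symm
     rw [hτ]
     refine hPuniq c' _ _ (hint c') (hψ c') ?_
     intro v ρ b' hb'
     have h1 := hψ c v (ρ * σ) b' (by rw [hb', hc, map_mul]; rfl)
     exact h1
   · have h1 := hψ c v 1 b (by rw [map_one]; exact hb)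
     exact h1
   · -- uniqueness
     have hkU : ∀ a : AlgebraicClosure k, algebraMap _ M a ∈ divUnitRing R M := by
       intro a
       exact Subring.subset_closure (IsDivUnit.const hBk a)
     have key : ∀ c (hc : c ∈ divUnitRing R M), ψ' ⟨c, hc⟩ = ψ ⟨c, hc⟩ := by
       intro c hc
       induction hc using Subring.closure_induction with
       | mem b hb =>
         by_cases hb0 : b = 0
         · subst hb0
           have h0 : (⟨0, Subring.subset_closure hb⟩ : divUnitRing R M) = 0 := rfl
           rw [h0, map_zero, map_zero]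
         · obtain ⟨L, T, y, hL, hTy, hT0, hT1', hTn', hy⟩ := hunits b hb0 hb
           have hLnf : NumberField L := NumberField.of_module_finite k L
           have hTU : ∀ n, T n ∈ divUnitRing R M := by
             intro n
             rcases Nat.eq_zero_or_pos n with rfl | hn
             · rw [hT0]; exact zero_mem _
             · refine Subring.subset_closure (IsDivUnit.of_pow (kb := AlgebraicClosure k) ?_ hn
                 (by rw [hTn' n hn]; exact hb))
               intro h0
               have h1 := hTn' n hn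
               rw [h0, zero_pow (by omega)] at h1
               exact hb0 h1.symm
           have hRL : Resp s L (RingHom.id (AlgebraicClosure k)) ψ' := by
             refine ⟨hψ'.1, fun σ τ hστ c c' hc => ?_⟩
             have h1 := hψ'.2 σ σ (fun a => rfl) c c' hc
             rw [h1]
             exact hστ _
           obtain ⟨w, -⟩ := exists_prime_over (F := k) (E := L) v₀
           have h2 := hTy.eq (B := divUnitRing R M) hkU (fun n => ⟨T n, hTU n⟩) (fun n => rfl)
             (fun n hn => by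
               apply Subtype.ext
               rw [SubmonoidClass.coe_pow]
               change T n ^ n = T 1
               rw [hTn' n hn, hT1'])
             (F := L) (Fb := AlgebraicClosure k) (ι := RingHom.id _) (φ := ψ') hRL
             (fun x => ⟨x, rfl⟩) (by
               intro h0
               have h3 : (⟨T 1, hTU 1⟩ : divUnitRing R M) *
                   ⟨b⁻¹, Subring.subset_closure hb.inv⟩ = 1 := by
                 apply Subtype.ext
                 change T 1 * b⁻¹ = 1
                 rw [hT1', mul_inv_cancel₀ hb0]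
               have h4 := congrArg ψ' h3
               rw [map_mul, h0, zero_mul, map_one] at h4
               exact zero_ne_one h4)
             (by
               intro z hz0 hz
               have h5 := eq_one_of_divisible w (y := algebraMap L (w.adicCompletion L) z)
                 (by rw [_root_.map_ne_zero]; exact hz0) (fun n hn => by
                   obtain ⟨z', hz'⟩ := hz n hn
                   exact ⟨algebraMap L _ z', by rw [← map_pow, hz']⟩)
               rw [← map_one (algebraMap L (w.adicCompletion L))] at h5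
               exact (algebraMap L (w.adicCompletion L)).injective h5)
           have h6 : ψ ⟨b, Subring.subset_closure hb⟩ = y 1 :=
             hPuniq b _ _ hb.1 (hψ ⟨b, Subring.subset_closure hb⟩)
               (fun v ρ b' hb' => hy v ρ ⟨b'.1, b'.2⟩ hb')
           rw [h6]
           have h7 : (⟨b, Subring.subset_closure hb⟩ : divUnitRing R M) = ⟨T 1, hTU 1⟩ :=
             Subtype.ext hT1'.symm
           rw [h7]
           exact h2
       | zero =>
         exact (map_zero ψ').trans (map_zero ψ).symm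
       | one =>
         exact (map_one ψ').trans (map_one ψ).symm
       | add c c' hc hc' h1 h2 =>
         have h3 : (⟨c + c', add_mem hc hc'⟩ : divUnitRing R M) = ⟨c, hc⟩ + ⟨c', hc'⟩ := rfl
         rw [h3, map_add, map_add, h1, h2]
       | neg c hc h1 =>
         have h3 : (⟨-c, neg_mem hc⟩ : divUnitRing R M) = -⟨c, hc⟩ := rfl
         rw [h3, map_neg, map_neg, h1]
       | mul c c' hc hc' h1 h2 =>
         have h3 : (⟨c * c', mul_mem hc hc'⟩ : divUnitRing R M) = ⟨c, hc⟩ * ⟨c', hc'⟩ := rfl
         rw [h3, map_mul, map_mul, h1, h2]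
     ext c
     exact key c c.2
  obtain ⟨hp1, hp2, hp3⟩ := part1
  refine ⟨⟨ψ, hp1, hp2, hp3⟩, fun hRn hRU hmin => ?_⟩
  -- stage 4: extension to the whole integral closure
  have hBU : ∀ b : integralClosure R M, (b : M) ≠ 0 → IsDivUnit R (b : M) →
      (b : M) ∈ divUnitRing R M := fun b _ hb' => Subring.subset_closure hb'
  have hUs : ∀ σ, ∀ c ∈ divUnitRing R M, s σ c ∈ divUnitRing R M := by
    intro σ c hc
    induction hc using Subring.closure_induction with
    | mem b hb =>
      refine Subring.subset_closure ⟨hBs σ b hb.1, ?_, fun n hn => ?_⟩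
      · rw [← map_inv₀]; exact hBs σ _ hb.2.1
      · obtain ⟨c, hc⟩ := hb.2.2 n hn
        exact ⟨s σ c, by rw [← map_pow, hc]⟩
    | zero => rw [map_zero]; exact zero_mem _
    | one => rw [map_one]; exact one_mem _
    | add c c' _ _ h1 h2 => rw [map_add]; exact add_mem h1 h2
    | neg c _ h1 => rw [map_neg]; exact neg_mem h1
    | mul c c' _ _ h1 h2 => rw [map_mul]; exact mul_mem h1 h2
  let θ : R →+* AlgebraicClosure k := ψ.comp
    ((algebraMap R M).codRestrict (divUnitRing R M) hRU)
  have hθ : ∀ v r, φ v (algebraMap R (integralClosure R M) r) = ι v (θ r) := fun v r =>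
    hp2 v ⟨algebraMap R M r, hRU r⟩ _ rfl
  have hval : ∀ v, ∀ b : integralClosure R M, ∃ β : AlgebraicClosure k, ι v β = φ v b := by
    intro v b
    obtain ⟨Q, hQm, hQ⟩ := b.2
    have h1 : Q.eval₂ (algebraMap R (integralClosure R M)) b = 0 := by
      apply Subtype.val_injective
      have h2 := Polynomial.hom_eval₂ Q (algebraMap R (integralClosure R M))
        (integralClosure R M).subtype b
      refine h2.trans ?_
      exact hQ
    have h2 := congrArg (φ v) h1
    rw [Polynomial.hom_eval₂, map_zero] at h2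
    have h3 : (φ v).comp (algebraMap R (integralClosure R M)) = ((ι v : _ →+* _)).comp θ := by
      ext r
      exact hθ v r
    rw [h3, ← Polynomial.eval₂_map] at h2
    obtain ⟨β, -, hβ⟩ := root_mem _ (hQm.map θ).ne_zero h2
    exact ⟨β, hβ⟩
  have hdesc : ∀ v, ∃ Ψ : integralClosure R M →+* AlgebraicClosure k, ∀ b, φ v b = ι v (Ψ b) := by
    intro v
    let _ : Algebra (AlgebraicClosure k) (AlgebraicClosure (v.1.adicCompletion k)) :=
      (ι v).toRingHom.toAlgebra
    obtain ⟨Ψ, hΨ⟩ := exists_descent (F := AlgebraicClosure k) (φ v) (hval v)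
    exact ⟨Ψ, fun b => (hΨ b).symm⟩
  have huniq : ∀ {F : Type u} [Field F] (Ψ₁ Ψ₂ : integralClosure R M →+* F),
      (∀ b : integralClosure R M, (b : M) ∈ divUnitRing R M → Ψ₁ b = Ψ₂ b) → Ψ₁ = Ψ₂ := by
    intro F _ Ψ₁ Ψ₂ h
    have : CharZero M := charZero_of_injective_algebraMap (algebraMap k M).injective
    exact eq_of_agree_div (k := k) (kb := AlgebraicClosure k) (K := K) hBk
      (fun x hx => ⟨⟨x, hRn x hx⟩, rfl⟩) (IsDivUnit R) (IsDivUnit.const hBk)
      (fun b hb => hb.2.1) (fun E h1 h2 => hmin E h1 fun b n hn hb0 hb hbn =>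
        h2 b n hn hb0 hb.1 hb hbn) Ψ₁ Ψ₂ (fun r => h _ (hRU r))
      (fun b hb0 hb' => h b (hBU b hb0 hb'))
  obtain ⟨Ψ, hΨ⟩ := hdesc ⟨v₀, hv₀⟩
  have hΨψ : ∀ b : integralClosure R M, ∀ c : divUnitRing R M, (b : M) = c → Ψ b = ψ c := by
    intro b c hbc
    apply (ι ⟨v₀, hv₀⟩).toRingHom.injective
    change ι ⟨v₀, hv₀⟩ (Ψ b) = ι ⟨v₀, hv₀⟩ (ψ c)
    rw [← hΨ, hp2 ⟨v₀, hv₀⟩ c b hbc]
  have hΨR : Respects s k (RingHom.id _) Ψ := by
   refine ⟨?_, ?_⟩
   · intro a b hb
     have h1 : (b : M) ∈ divUnitRing R M := by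
       rw [hb]
       exact Subring.subset_closure (IsDivUnit.const hBk a)
     rw [hΨψ b ⟨b, h1⟩ rfl]
     exact hp1.1 a ⟨b, h1⟩ hb
   · intro σ τ hστ b b' hbb'
     have hτ : τ = σ := by
       ext a
       exact (hστ a).symm
     rw [hτ]
     -- `Ψ ∘ s σ` and `σ ∘ Ψ`
     let sσ : integralClosure R M →+* integralClosure R M :=
       { toFun := fun b => ⟨s σ b, hBs σ b b.2⟩
         map_one' := Subtype.ext (map_one _)
         map_mul' := fun _ _ => Subtype.ext (map_mul _ _ _)
         map_zero' := Subtype.ext (map_zero _)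
         map_add' := fun _ _ => Subtype.ext (map_add _ _ _) }
     have h1 : Ψ.comp sσ = (σ : AlgebraicClosure k →+* AlgebraicClosure k).comp Ψ := by
       apply huniq
       intro b hb
       have h2 : s σ b ∈ divUnitRing R M := hUs σ b hb
       change Ψ (sσ b) = σ (Ψ b)
       rw [hΨψ b ⟨b, hb⟩ rfl, hΨψ (sσ b) ⟨s σ b, h2⟩ rfl]
       exact hp1.2 σ σ (fun a => rfl) ⟨b, hb⟩ ⟨s σ b, h2⟩ rfl
     have h3 : b' = sσ b := Subtype.ext hbb'
     rw [h3]
     exact congrArg (fun f => f b) h1
  refine ⟨Ψ, hΨR, ?_, ?_, ?_⟩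
  · have h1 : ∀ r : R, ∃ y : k, algebraMap k (AlgebraicClosure k) y =
        (Ψ.comp (algebraMap R (integralClosure R M))) r := by
      intro r
      apply mem_of_fixed
      intro τ
      refine (hΨR.2 τ τ (fun a => rfl) _ _ ?_).symm
      exact (hsK τ r).symm
    obtain ⟨x, hx⟩ := exists_descent _ h1
    refine ⟨{ x with commutes' := fun a => ?_ }, fun r => (hx r).symm⟩
    apply (algebraMap k (AlgebraicClosure k)).injective
    change algebraMap _ _ (x (algebraMap k R a)) = _
    rw [hx]
    change Ψ (algebraMap R (integralClosure R M) (algebraMap k R a)) = _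
    rw [hΨR.1 (algebraMap k _ a) _ ?_]
    · rfl
    · change algebraMap R M (algebraMap k R a) = _
      rw [← IsScalarTower.algebraMap_apply, ← IsScalarTower.algebraMap_apply]
  · intro v b
    have h1 : φ v = (ι v : _ →+* _).comp Ψ := by
      apply huniq
      intro b hb
      change φ v b = ι v (Ψ b)
      rw [hp2 v ⟨b, hb⟩ b rfl, hΨψ b ⟨b, hb⟩ rfl]
    exact congrArg (fun f => f b) h1
  · intro Ψ' hΨ'
    apply huniq
    intro b hb
    have hUB : ∀ c : divUnitRing R M, IsIntegral R (c : M) := hint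
    let j : divUnitRing R M →+* integralClosure R M :=
      { toFun := fun c => ⟨c, hUB c⟩
        map_one' := rfl
        map_mul' := fun _ _ => rfl
        map_zero' := rfl
        map_add' := fun _ _ => rfl }
    have h1 : Ψ'.comp j = ψ := by
      apply hp3
      exact ⟨fun a c hc => hΨ'.1 a (j c) hc, fun σ τ hστ c c' hc => hΨ'.2 σ τ hστ (j c) (j c') hc⟩
    have h2 : Ψ' b = (Ψ'.comp j) ⟨b, hb⟩ := rfl
    rw [h2, h1, hΨψ b ⟨b, hb⟩ rfl]

end Pool.Agent.Lib.MP_2f3286_ag
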