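import Mathlib
import Pool.Agent.Lib.MP_2f3286_ag.LG
import Pool.Agent.Lib.MP_2f3286_ag.Key

/-!
# Norms of integral-valued elements of the profinite completion of the multiplicative group
of a number field, down to a subfield
-/

open IsDedekindDomain NumberField WithZero

namespace Pool.Agent.Lib.MP_2f3286_ag

variable {k : Type*} [Field k] [NumberField k]

/-- A compatible system of classes modulo `n`-th powers, which at every place outside `S` comes from
an element of the completion, is, up to `n`-th powers, a fixed element times an `S`-unit. -/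
theorem exists_alpha (S : Finset (HeightOneSpectrum (𝓞 k))) (G : ℕ → kˣ)
    (hcompat : ∀ n m, 1 ≤ n → 1 ≤ m → ∃ y : kˣ, G (n * m) = G n * y ^ n)
    (y : ∀ v : HeightOneSpectrum (𝓞 k), v.adicCompletion k)
    (T : Finset (HeightOneSpectrum (𝓞 k))) (hy0 : ∀ v ∉ S, y v ≠ 0)
    (hy1 : ∀ v ∉ T, Valued.v (y v) = 1)
    (hloc : ∀ v ∉ S, ∀ n, 1 ≤ n → ∃ w : v.adicCompletion k,
      algebraMap k (v.adicCompletion k) (G n) * w ^ n = y v) :
    ∃ α : kˣ, ∀ n, 1 ≤ n → ∃ e ∈ (placesOf S).Γ, ∃ β : kˣ, G n = α * e * β ^ n := by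
  classical
  have hh : 0 < classNumber k := classNumber_pos k
  choose π hπ hπ' using exists_pi (k := k)
  have hπ0 : ∀ v, π v ≠ 0 := by
    intro v h0
    have := hπ v
    rw [h0, map_zero] at this
    exact exp_ne_zero this.symm
  -- the valuation form of the local condition
  have hloc' : ∀ v ∉ S, ∀ n, 1 ≤ n → ∃ g : ℤᵐ⁰, g ≠ 0 ∧
      v.valuation k (G n : k) * g ^ n = Valued.v (y v) := by
    intro v hv n hn
    obtain ⟨w, hw⟩ := hloc v hv n hn
    refine ⟨Valued.v w, ?_, ?_⟩
    · rw [Valuation.ne_zero_iff]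
      rintro rfl
      rw [zero_pow (by omega), mul_zero] at hw
      exact hy0 v hv hw.symm
    · rw [← hw, map_mul, map_pow, val_alg]
  have hl := fun v (hv : v ∉ S) => hloc' v hv (classNumber k) hh
  choose! g hg0 hg using hl
  have hfin := finite_val_ne_one (G (classNumber k)).ne_zero
  let U : Finset (HeightOneSpectrum (𝓞 k)) := (T ∪ hfin.toFinset) \ S
  have hgU : ∀ v ∉ S, v ∉ U → g v = 1 := by
    intro v hvS hvU
    have h1 : v ∉ T ∧ v.valuation k (G (classNumber k) : k) = 1 := by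
      simp only [U, Finset.mem_sdiff, Finset.mem_union, Set.Finite.mem_toFinset,
        Set.mem_ofPred_eq, not_and, not_not] at hvU
      constructor
      · intro hT; exact hvS (hvU (Or.inl hT))
      · by_contra hne
        exact hvS (hvU (Or.inr hne))
    have h2 := hg v hvS
    rw [h1.2, hy1 v h1.1, one_mul] at h2
    exact (pow_eq_one_iff_of_nonneg zero_le hh.ne').mp h2
  obtain ⟨α, hαdef⟩ : ∃ α : kˣ, α = G (classNumber k) *
    ∏ v ∈ U, (Units.mk0 (π v) (hπ0 v)) ^ (-(log (g v))) := ⟨_, rfl⟩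
  have hα : ∀ v ∉ S, v.valuation k (α : k) = Valued.v (y v) := by
    intro v hvS
    rw [← hg v hvS]
    simp only [hαdef, Units.val_mul, map_mul, Units.coe_prod, Units.val_zpow_eq_zpow_val,
      Units.val_mk0, map_prod, map_zpow₀]
    congr 1
    by_cases hvT : v ∈ U
    · rw [Finset.prod_eq_single v]
      · rw [hπ, ← exp_zsmul]
        conv_rhs => rw [← exp_log (hg0 v hvS), ← exp_nsmul]
        congr 1
        simp only [smul_eq_mul, nsmul_eq_mul]
        ring
      · intro b _ hb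
        rw [hπ' b v hb.symm, one_zpow]
      · intro h; exact absurd hvT h
    · rw [hgU v hvS hvT, one_pow]
      refine Finset.prod_eq_one fun b hb => ?_
      have : v ≠ b := by rintro rfl; exact hvT hb
      rw [hπ' b v this, one_zpow]
  refine ⟨α, fun n hn => ?_⟩
  have hnh : 1 ≤ n * classNumber k := Nat.mul_pos hn hh
  obtain ⟨e, he, β, hβ⟩ := exists_sunit S n hn (G (n * classNumber k) * α⁻¹) (by
      intro v hv
      obtain ⟨w, hw0, hw⟩ := hloc' v hv _ hnh
      refine ⟨w⁻¹, ?_⟩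
      have hG0 : v.valuation k (G (n * classNumber k) : k) ≠ 0 :=
        (Valuation.ne_zero_iff _).mpr (G _).ne_zero
      rw [Units.val_mul, map_mul, Units.val_inv_eq_inv_val, map_inv₀, hα v hv, ← hw,
        mul_inv, ← mul_assoc, mul_inv_cancel₀ hG0, one_mul, inv_pow])
  obtain ⟨u, hu⟩ := hcompat n (classNumber k) hn hh
  refine ⟨e, he, β * u⁻¹, ?_⟩
  have h2 : G n = α * (G (n * classNumber k) * α⁻¹) * (u ^ n)⁻¹ := by
    rw [hu, mul_comm α, inv_mul_cancel_right, mul_inv_cancel_right]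
  rw [h2, hβ, mul_pow, inv_pow]
  simp only [mul_assoc]

/-- The norm of an `S`-unit is an `S`-unit. -/
theorem norm_mem_Γ {F : Type*} [Field F] [NumberField F] [Algebra F k]
    (S : Finset (HeightOneSpectrum (𝓞 k))) (S₀ : Finset (HeightOneSpectrum (𝓞 F)))
    (hS : ∀ v : HeightOneSpectrum (𝓞 k), v ∈ S → ∃ w ∈ S₀, v.asIdeal.LiesOver w.asIdeal)
    {e : kˣ} (he : e ∈ (placesOf S).Γ) :
    Units.map (Algebra.norm F) e ∈ (placesOf S₀).Γ := by
  classical
  -- integrality
  have key : ∀ x : k, (∀ v ∉ S, v.valuation k x ≤ 1) → ∀ w : HeightOneSpectrum (𝓞 F), w ∉ S₀ →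
      w.valuation F (Algebra.norm F x) ≤ 1 := by
    intro x hx w hw
    -- an element of `F` in a high power of the primes of `S₀` and prime to `w`
    obtain ⟨m, hm⟩ : ∃ m : ℕ, ∀ v ∈ S, v.valuation k x ≤ exp (m : ℤ) := by
      refine ⟨∑ v ∈ S, (log (v.valuation k x)).natAbs, fun v hv => ?_⟩
      rcases eq_or_ne (v.valuation k x) 0 with h0 | h0
      · rw [h0]; exact zero_le
      · rw [← exp_log h0, exp_le_exp]
        have h1 : (log (v.valuation k x)).natAbs ≤ ∑ v ∈ S, (log (v.valuation k x)).natAbs :=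
          Finset.single_le_sum (f := fun v => (log (v.valuation k x)).natAbs)
            (fun _ _ => Nat.zero_le _) hv
        have h2 := Int.le_natAbs (a := log (v.valuation k x))
        have h3 : ((log (v.valuation k x)).natAbs : ℤ) ≤ ((∑ v ∈ S, (log (v.valuation k x)).natAbs : ℕ) : ℤ) := by
          exact_mod_cast h1
        exact h2.trans h3
    obtain ⟨M, hM1, hM2⟩ : ∃ M : 𝓞 F, M ∉ w.asIdeal ∧ ∀ w' ∈ S₀, M ∈ w'.asIdeal ^ m := by
      by_contra hcon
      push Not at hcon
      have h1 : ∏ w' ∈ S₀, w'.asIdeal ^ m ≤ w.asIdeal := by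
        intro a ha
        by_contra haw
        obtain ⟨w', hw', hna⟩ := hcon a haw
        apply hna
        exact (Ideal.prod_le_inf.trans (Finset.inf_le hw')) ha
      obtain ⟨w', hw', hle⟩ := (w.isPrime.prod_le).mp h1
      have h2 := w.isPrime.le_of_pow_le hle
      have h3 := w'.isMaximal.eq_of_le w.isPrime.ne_top h2
      apply hw
      have h4 : w = w' := HeightOneSpectrum.ext h3.symm
      rw [h4]; exact hw'
    have hMk : ∀ v : HeightOneSpectrum (𝓞 k), v.valuation k (algebraMap F k (M : F) * x) ≤ 1 := by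
      intro v
      rw [map_mul]
      have hM' : algebraMap F k (M : F) = algebraMap (𝓞 k) k (algebraMap (𝓞 F) (𝓞 k) M) := rfl
      by_cases hv : v ∈ S
      · obtain ⟨w', hw', hl⟩ := hS v hv
        have h1 : algebraMap (𝓞 F) (𝓞 k) M ∈ v.asIdeal ^ m := by
          have h2 : (w'.asIdeal ^ m).map (algebraMap (𝓞 F) (𝓞 k)) ≤ v.asIdeal ^ m := by
            rw [Ideal.map_pow]
            apply Ideal.pow_right_mono
            rw [Ideal.map_le_iff_le_comap]
            exact hl.over.le
          exact h2 (Ideal.mem_map_of_mem _ (hM2 w' hw'))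
        rw [← v.intValuation_le_pow_iff_mem, ← HeightOneSpectrum.valuation_of_algebraMap (K := k)] at h1
        calc _ ≤ exp (-(m : ℤ)) * exp (m : ℤ) := mul_le_mul' h1 (hm v hv)
          _ = 1 := by rw [← exp_add, neg_add_cancel, exp_zero]
      · refine mul_le_one' ?_ (hx v hv)
        rw [hM']; exact v.valuation_le_one _
    obtain ⟨r, hr⟩ := HeightOneSpectrum.mem_integers_of_valuation_le_one k _ hMk
    have h5 : IsIntegral ℤ (Algebra.norm F (algebraMap F k (M : F) * x)) := by
      apply Algebra.isIntegral_norm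
      rw [← hr]
      exact r.2
    have h6 : w.valuation F (Algebra.norm F (algebraMap F k (M : F) * x)) ≤ 1 :=
      w.valuation_le_one (⟨_, h5⟩ : 𝓞 F)
    rw [map_mul, Algebra.norm_algebraMap, map_mul, map_pow] at h6
    have h7 : w.valuation F (M : F) = 1 :=
      (HeightOneSpectrum.valuation_eq_one_iff_notMem (K := F) w).mpr hM1
    rwa [h7, one_pow, one_mul] at h6
  rw [Places.mem_Γ] at he ⊢
  refine ⟨fun w hw => key (e : k) he.1 w hw, fun w hw => ?_⟩
  rw [← map_inv]
  exact key ((e⁻¹ : kˣ) : k) he.2 w hw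

/-- structure of the `S₀`-units: a rank one group, or torsion -/
theorem exists_gen {F : Type*} [Field F] [NumberField F] (S₀ : Finset (HeightOneSpectrum (𝓞 F)))
    (hS : Fintype.card (InfinitePlace F) + S₀.card ≤ 2) :
    ∃ ε : Fˣ, (Fintype.card (InfinitePlace F) + S₀.card ≤ 1 → ε = 1) ∧
      ∀ x ∈ (placesOf S₀).Γ, ∃ ζ : Fˣ, IsOfFinOrder ζ ∧ ∃ j : ℤ, x = ζ * ε ^ j := by
  classical
  have hW : Fintype.card (InfinitePlace F ⊕ {v // v ∈ S₀}) ≤ 2 := by
    rw [Fintype.card_sum, Fintype.card_coe]; exact hS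
  have htors : ∀ ζ ∈ (placesOf S₀).K0, IsOfFinOrder ζ := by
    intro ζ hζ
    by_contra hinf
    have h1 : Set.MapsTo (fun n : ℕ => ζ ^ n) Set.univ {ζ : Fˣ | ζ ∈ (placesOf S₀).K0} :=
      fun n _ => pow_mem hζ n
    obtain ⟨a, -, b, -, hab, heq⟩ := Set.Infinite.exists_ne_map_eq_of_mapsTo
      Set.infinite_univ h1 (K0_finite S₀)
    exact hab (injective_pow_iff_not_isOfFinOrder.mpr hinf heq)
  rcases (placesOf S₀).structure_units hW with h | ⟨w₁, w₂, hne, -, ε, -, -, hgen⟩
  · exact ⟨1, fun _ => rfl, fun x hx => ⟨x, htors x ⟨hx, h x hx⟩, 0, by simp⟩⟩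
  · refine ⟨ε, fun h1 => ?_, fun x hx => ?_⟩
    · exfalso
      have h2 : Fintype.card (InfinitePlace F ⊕ {v // v ∈ S₀}) ≤ 1 := by
        rw [Fintype.card_sum, Fintype.card_coe]; exact h1
      exact hne ((Fintype.card_le_one_iff.mp h2) w₁ w₂)
    · obtain ⟨ζ, hζ, j, hj⟩ := hgen x hx
      exact ⟨ζ, htors ζ hζ, j, hj⟩

end Pool.Agent.Lib.MP_2f3286_ag
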