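import Mathlib
import Pool.Agent.Lib.MP_2f3286_ag.Key

/-!
# A linear relation between rank-one profinite classes forces one of them to be rational
-/

open IsDedekindDomain NumberField WithZero

namespace Pool.Agent.Lib.MP_2f3286_ag

variable {E : Type*} [Field E] [NumberField E]

/-- two classes with rational ratio: the local elements have the same ratio -/
theorem ratio_eq (T : Finset (HeightOneSpectrum (𝓞 E))) {g g' : ℕ → Eˣ} {ρ : Eˣ}
    (h : ∀ n, 1 ≤ n → ∃ z : Eˣ, g n = ρ * g' n * z ^ n) {W : HeightOneSpectrum (𝓞 E)}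
    {Q Q' : W.adicCompletion E} (hQ : Q ≠ 0) (hQ' : Q' ≠ 0)
    (hloc : ∀ n, 1 ≤ n → ∃ z : W.adicCompletion E, algebraMap E (W.adicCompletion E) (g n) * z ^ n = Q)
    (hloc' : ∀ n, 1 ≤ n → ∃ z : W.adicCompletion E,
      algebraMap E (W.adicCompletion E) (g' n) * z ^ n = Q') :
    Q = algebraMap E (W.adicCompletion E) ρ * Q' := by
  have hρ0 : algebraMap E (W.adicCompletion E) ρ ≠ 0 := by
    rw [map_ne_zero]; exact ρ.ne_zero
  have h1 : Q / (algebraMap E (W.adicCompletion E) ρ * Q') = 1 := by
    apply eq_one_of_divisible W (div_ne_zero hQ (mul_ne_zero hρ0 hQ'))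
    intro n hn
    obtain ⟨z, hz⟩ := h n hn
    obtain ⟨z₁, hz₁⟩ := hloc n hn
    obtain ⟨z₂, hz₂⟩ := hloc' n hn
    have hg'0 : algebraMap E (W.adicCompletion E) (g' n) ≠ 0 := by
      rw [map_ne_zero]; exact (g' n).ne_zero
    have hz₂0 : z₂ ≠ 0 := by
      rintro rfl
      rw [zero_pow (by omega), mul_zero] at hz₂
      exact hQ' hz₂.symm
    refine ⟨algebraMap E (W.adicCompletion E) z * z₁ / z₂, ?_⟩
    rw [← hz₁, ← hz₂, hz, Units.val_mul, Units.val_mul, Units.val_pow_eq_pow_val, map_mul, map_mul,
      map_pow, div_pow, mul_pow]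
    field_simp
  rwa [div_eq_one_iff_eq (mul_ne_zero hρ0 hQ')] at h1

theorem exists_rational {I : Type*} (g : I → ℕ → Eˣ) (r : I → Eˣ) (ε : Eˣ)
    (hcompat : ∀ i, ∀ n m, 1 ≤ n → 1 ≤ m → ∃ y : Eˣ, g i (n * m) = g i n * y ^ n)
    (hform : ∀ i, ∀ n, 1 ≤ n → ∃ ζ : Eˣ, IsOfFinOrder ζ ∧ ∃ j : ℤ, ∃ y : Eˣ,
      g i n = r i * (ζ * ε ^ j * y ^ n))
    (T : Finset (HeightOneSpectrum (𝓞 E)))
    (Q : ∀ W : HeightOneSpectrum (𝓞 E), I → W.adicCompletion E)
    (hQ : ∀ W ∉ T, ∀ i, Q W i ≠ 0)
    (hloc : ∀ W ∉ T, ∀ i, ∀ n, 1 ≤ n → ∃ z : W.adicCompletion E,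
      algebraMap E (W.adicCompletion E) (g i n) * z ^ n = Q W i) (lam₀ : Eˣ) :
    ∀ (N : ℕ) (A : Finset I) (lam : I → Eˣ), A.card ≤ N →
      (∀ W ∉ T, ∑ i ∈ A, algebraMap E (W.adicCompletion E) (lam i) * Q W i +
        algebraMap E (W.adicCompletion E) lam₀ = 0) →
      ∃ i ∈ A, ∃ ρ : Eˣ, ∀ n, 1 ≤ n → ∃ z : Eˣ, g i n = ρ * z ^ n := by
  classical
  intro N
  induction N with
  | zero =>
    intro A lam hA hrel
    exfalso
    obtain ⟨W, hW⟩ := exists_notMem T
    have h1 := hrel W hW
    have h2 : A = ∅ := Finset.card_eq_zero.mp (Nat.le_zero.mp hA)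
    rw [h2, Finset.sum_empty, zero_add, map_eq_zero] at h1
    exact lam₀.ne_zero h1
  | succ N ih =>
    intro A lam hA hrel
    let T' : Finset (HeightOneSpectrum (𝓞 E)) := T ∪ (finite_val_ne_one ε.ne_zero).toFinset
    have hT' : ∀ W ∉ T', W ∉ T ∧ W.valuation E (ε : E) = 1 := by
      intro W hW
      simp only [T', Finset.mem_union, Set.Finite.mem_toFinset, Set.mem_ofPred_eq, not_or,
        not_not] at hW
      exact hW
    let c : Option I → Eˣ := fun α => α.elim lam₀ fun i => lam i * r i
    let G : Option I → ℕ → Eˣ := fun α n => α.elim 1 fun i => g i n * (r i)⁻¹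
    let y : ∀ W : HeightOneSpectrum (𝓞 E), Option I → W.adicCompletion E :=
      fun W α => α.elim 1 fun i => Q W i * algebraMap E (W.adicCompletion E) ((r i)⁻¹ : Eˣ)
    have hGform : ∀ α : Option I, ∀ n, 1 ≤ n → ∃ ζ : Eˣ, IsOfFinOrder ζ ∧ ∃ j : ℤ, ∃ y : Eˣ,
        G α n = ζ * ε ^ j * y ^ n := by
      intro α n hn
      cases α with
      | none => exact ⟨1, IsOfFinOrder.one, 0, 1, by simp [G]⟩
      | some i =>
        obtain ⟨ζ, hζ, j, y, hy⟩ := hform i n hn
        refine ⟨ζ, hζ, j, y, ?_⟩
        change g i n * (r i)⁻¹ = _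
        rw [hy, mul_comm, inv_mul_cancel_left]
    have hGloc : ∀ W ∉ T, ∀ α : Option I, ∀ n, 1 ≤ n → ∃ z : W.adicCompletion E,
        algebraMap E (W.adicCompletion E) (G α n) * z ^ n = y W α := by
      intro W hW α n hn
      cases α with
      | none => exact ⟨1, by simp [G, y]⟩
      | some i =>
        obtain ⟨z, hz⟩ := hloc W hW i n hn
        refine ⟨z, ?_⟩
        change algebraMap E (W.adicCompletion E) ((g i n * (r i)⁻¹ : Eˣ) : E) * z ^ n = Q W i * _
        rw [← hz, Units.val_mul, map_mul]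
        ring
    have hy1 : ∀ W ∉ T', ∀ α : Option I, Valued.v (y W α) = 1 := by
      intro W hW α
      obtain ⟨hWT, hWε⟩ := hT' W hW
      have hy0 : y W α ≠ 0 := by
        cases α with
        | none => exact one_ne_zero
        | some i =>
          change Q W i * _ ≠ 0
          refine mul_ne_zero (hQ W hWT i) ?_
          rw [map_ne_zero]; exact Units.ne_zero _
      refine eq_one_of_pow ((Valuation.ne_zero_iff _).mpr hy0) fun n hn => ?_
      obtain ⟨ζ, hζ, j, u, hu⟩ := hGform α n hn
      obtain ⟨z, hz⟩ := hGloc W hWT α n hn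
      refine ⟨Valued.v (algebraMap E (W.adicCompletion E) u * z), ?_⟩
      rw [← hz, hu, map_mul, map_mul, map_pow, val_alg, val_alg, Units.val_mul, Units.val_mul,
        map_mul, map_mul, val_of_finOrder hζ, Units.val_zpow_eq_zpow_val, map_zpow₀, hWε, one_zpow,
        Units.val_pow_eq_pow_val, map_pow, one_mul, one_mul, mul_pow]
    obtain ⟨α, hα, α', hα', hne, γ, hγ⟩ := key_lemma (k := E) (Finset.insertNone A)
      ⟨none, by simp⟩ c ε G
      (by
        intro α _ n m hn hm
        cases α with
        | none => exact ⟨1, by simp [G]⟩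
        | some i =>
          obtain ⟨y, hy⟩ := hcompat i n m hn hm
          refine ⟨y, ?_⟩
          change g i (n * m) * (r i)⁻¹ = g i n * (r i)⁻¹ * y ^ n
          rw [hy, mul_right_comm])
      (fun α _ n hn => hGform α n hn) T' y (fun W hW α _ => hy1 W hW α)
      (fun W hW α _ n hn => hGloc W (hT' W hW).1 α n hn)
      (by
        intro W hW
        have h1 := hrel W (hT' W hW).1
        rw [Finset.sum_insertNone]
        have h2 : ∑ i ∈ A, algebraMap E (W.adicCompletion E) ((c (some i) : Eˣ) : E) * y W (some i) =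
            ∑ i ∈ A, algebraMap E (W.adicCompletion E) (lam i) * Q W i := by
          refine Finset.sum_congr rfl fun i _ => ?_
          change algebraMap E (W.adicCompletion E) ((lam i * r i : Eˣ) : E) *
            (Q W i * algebraMap E (W.adicCompletion E) ((r i)⁻¹ : Eˣ)) = _
          have h3 : algebraMap E (W.adicCompletion E) (r i) ≠ 0 := by
            rw [map_ne_zero]; exact Units.ne_zero _
          rw [Units.val_mul, map_mul, Units.val_inv_eq_inv_val, map_inv₀]
          field_simp
        rw [h2]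
        change algebraMap E (W.adicCompletion E) lam₀ * 1 + _ = 0
        rw [mul_one, add_comm]
        exact h1)
    -- case analysis
    have hmem : ∀ i : I, some i ∈ Finset.insertNone A → i ∈ A := fun i hi => by simpa using hi
    cases α with
    | none =>
      cases α' with
      | none => exact absurd rfl hne
      | some i =>
        refine ⟨i, hmem i hα', r i * γ⁻¹, fun n hn => ?_⟩
        obtain ⟨z, hz⟩ := hγ n hn
        refine ⟨z⁻¹, ?_⟩
        change 1 = γ * (g i n * (r i)⁻¹) * z ^ n at hz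
        have h1 : g i n = r i * γ⁻¹ * (γ * (g i n * (r i)⁻¹) * z ^ n) * (z ^ n)⁻¹ := by
          have h2 : r i * γ⁻¹ * (γ * (g i n * (r i)⁻¹) * z ^ n) * (z ^ n)⁻¹ =
              g i n * (r i * (r i)⁻¹) * (γ * γ⁻¹) * (z ^ n * (z ^ n)⁻¹) := by
            simp only [mul_comm, mul_left_comm, mul_assoc]
          rw [h2]; simp
        rw [← hz, mul_one] at h1
        rw [inv_pow]
        exact h1
    | some i =>
      cases α' with
      | none =>
        refine ⟨i, hmem i hα, r i * γ, fun n hn => ?_⟩
        obtain ⟨z, hz⟩ := hγ n hn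
        refine ⟨z, ?_⟩
        change g i n * (r i)⁻¹ = γ * 1 * z ^ n at hz
        rw [mul_one, mul_inv_eq_iff_eq_mul] at hz
        rw [hz, mul_comm (r i), mul_right_comm]
      | some i' =>
        have hii : i ≠ i' := fun h => hne (by rw [h])
        have hiA := hmem i hα
        have hiA' := hmem i' hα'
        obtain ⟨ρ, hρ⟩ : ∃ ρ : Eˣ, ∀ n, 1 ≤ n → ∃ z : Eˣ, g i n = ρ * g i' n * z ^ n := by
          refine ⟨γ * r i * (r i')⁻¹, fun n hn => ?_⟩
          obtain ⟨z, hz⟩ := hγ n hn
          refine ⟨z, ?_⟩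
          change g i n * (r i)⁻¹ = γ * (g i' n * (r i')⁻¹) * z ^ n at hz
          rw [mul_inv_eq_iff_eq_mul] at hz
          rw [hz]
          simp only [mul_comm, mul_left_comm, mul_assoc]
        have hQQ : ∀ W ∉ T, Q W i = algebraMap E (W.adicCompletion E) ρ * Q W i' := fun W hW =>
          ratio_eq T hρ (hQ W hW i) (hQ W hW i') (hloc W hW i) (hloc W hW i')
        have hiA'' : i' ∈ A.erase i := Finset.mem_erase.mpr ⟨hii.symm, hiA'⟩
        have hsum : ∀ W ∉ T, (∑ j ∈ (A.erase i).erase i', algebraMap E (W.adicCompletion E) (lam j) * Q W j) +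
            algebraMap E (W.adicCompletion E) ((lam i : E) * ρ + lam i') * Q W i' +
            algebraMap E (W.adicCompletion E) lam₀ = 0 := by
          intro W hW
          have h1 := hrel W hW
          rw [← Finset.add_sum_erase A _ hiA, ← Finset.add_sum_erase (A.erase i) _ hiA'', hQQ W hW] at h1
          rw [← h1, map_add, map_mul]
          ring
        have hcard : (A.erase i).card ≤ N := by
          rw [Finset.card_erase_of_mem hiA]; omega
        by_cases h0 : (lam i : E) * ρ + lam i' = 0
        · obtain ⟨j, hj, h⟩ := ih ((A.erase i).erase i') lam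
            ((Finset.card_erase_le).trans hcard) (by
              intro W hW
              have h1 := hsum W hW
              rwa [h0, map_zero, zero_mul, add_zero] at h1)
          exact ⟨j, Finset.mem_of_mem_erase (Finset.mem_of_mem_erase hj), h⟩
        · obtain ⟨j, hj, h⟩ := ih (A.erase i) (Function.update lam i' (Units.mk0 _ h0)) hcard (by
              intro W hW
              have h1 := hsum W hW
              rw [← Finset.add_sum_erase (A.erase i) _ hiA'', Function.update_self, Units.val_mk0]
              have h2 : ∑ j ∈ (A.erase i).erase i', algebraMap E (W.adicCompletion E)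
                  (Function.update lam i' (Units.mk0 _ h0) j) * Q W j =
                  ∑ j ∈ (A.erase i).erase i', algebraMap E (W.adicCompletion E) (lam j) * Q W j := by
                refine Finset.sum_congr rfl fun j hj => ?_
                rw [Function.update_of_ne (Finset.ne_of_mem_erase hj)]
              rw [h2, ← h1]
              ring)
          exact ⟨j, Finset.mem_of_mem_erase hj, h⟩

end Pool.Agent.Lib.MP_2f3286_ag
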