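import Mathlib
import Pool.Agent.Lib.MP_2f3286_ag.LG
import Pool.Agent.Lib.MP_2f3286_ag.NormClass
import Pool.Agent.Lib.MP_2f3286_ag.Select
import Pool.Agent.Lib.MP_2f3286_ag.Aux2

/-!
# The norm trick: a family of local elements `t`, such that the norms of `t - c` are rank-one classes
for sufficiently many rational `c`, consists of roots of one polynomial
-/

open IsDedekindDomain NumberField Polynomial

namespace Pool.Agent.Lib.MP_2f3286_ag

section places

variable {F k E : Type*} [Field F] [NumberField F] [Field k] [NumberField k] [Algebra F k]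
  [Field E] [NumberField E] [Algebra F E]

/-- the place of `k` below a place of `E`, along an embedding, and the map of completions -/
theorem exists_place_below (σ : k →ₐ[F] E) (W : HeightOneSpectrum (𝓞 E)) :
    ∃ p : Σ v : HeightOneSpectrum (𝓞 k), (v.adicCompletion k →+* W.adicCompletion E),
      (∀ a : k, p.2 (algebraMap k (p.1.adicCompletion k) a) =
        algebraMap E (W.adicCompletion E) (σ a)) ∧
      ∀ w : HeightOneSpectrum (𝓞 F), p.1.asIdeal.LiesOver w.asIdeal →
        W.asIdeal.LiesOver w.asIdeal := by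
  let _ : Algebra k E := σ.toRingHom.toAlgebra
  have _ : IsScalarTower F k E := IsScalarTower.of_algebraMap_eq fun x => (σ.commutes x).symm
  obtain ⟨v, hv⟩ := exists_below (L := k) W
  obtain ⟨j, hj⟩ := exists_completion_hom v W
  exact ⟨⟨v, j⟩, hj, fun w hw => Ideal.LiesOver.trans W.asIdeal v.asIdeal w.asIdeal⟩

/-- a place of `E` above a place of `k`, and the map of completions -/
theorem exists_place_above [Algebra k E] [IsScalarTower F k E] (v : HeightOneSpectrum (𝓞 k)) :
    ∃ (W : HeightOneSpectrum (𝓞 E)) (j : v.adicCompletion k →+* W.adicCompletion E),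
      (∀ a : k, j (algebraMap k (v.adicCompletion k) a) =
        algebraMap E (W.adicCompletion E) (algebraMap k E a)) ∧
      ∀ w : HeightOneSpectrum (𝓞 F), W.asIdeal.LiesOver w.asIdeal →
        v.asIdeal.LiesOver w.asIdeal := by
  obtain ⟨W, hW⟩ := exists_prime_over (F := k) (E := E) v
  obtain ⟨j, hj⟩ := exists_completion_hom v W
  exact ⟨W, j, hj, fun w hw => Ideal.LiesOver.tower_bot W.asIdeal v.asIdeal w.asIdeal⟩

/-- the norm as a product over the embeddings in a normal extension -/
theorem norm_eq_prod_emb (hE : ∀ x : k, ((minpoly F x).map (algebraMap F E)).Splits) (a : k) :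
    algebraMap F E (Algebra.norm F a) = ∏ σ : k →ₐ[F] E, σ a := by
  apply (algebraMap E (AlgebraicClosure E)).injective
  rw [← IsScalarTower.algebraMap_apply, Algebra.norm_eq_prod_embeddings, map_prod]
  exact (Fintype.prod_equiv (Algebra.IsAlgebraic.algHomEquivAlgHomOfSplits (AlgebraicClosure E) E hE)
    _ _ fun σ => rfl).symm

/-- local elements with classes `G n` at the places of `k` give a local element with class
`N (G n)` at the places of `E` -/
theorem prod_local (hE : ∀ x : k, ((minpoly F x).map (algebraMap F E)).Splits)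
    (S : Finset (HeightOneSpectrum (𝓞 k)))
    (y : ∀ v : HeightOneSpectrum (𝓞 k), v.adicCompletion k) (G : ℕ → kˣ)
    (hG : ∀ v ∉ S, ∀ n, 1 ≤ n → ∃ w : v.adicCompletion k,
      algebraMap k (v.adicCompletion k) (G n) * w ^ n = y v)
    {W : HeightOneSpectrum (𝓞 E)}
    (p : (k →ₐ[F] E) → Σ v : HeightOneSpectrum (𝓞 k), (v.adicCompletion k →+* W.adicCompletion E))
    (hp : ∀ σ a, (p σ).2 (algebraMap k ((p σ).1.adicCompletion k) a) =
        algebraMap E (W.adicCompletion E) (σ a))
    (hpS : ∀ σ, (p σ).1 ∉ S) (n : ℕ) (hn : 1 ≤ n) :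
    ∃ z : W.adicCompletion E, algebraMap E (W.adicCompletion E)
      ((Units.map (algebraMap F E : F →* E) (Units.map (Algebra.norm F) (G n)) : Eˣ) : E) * z ^ n =
        ∏ σ : k →ₐ[F] E, (p σ).2 (y (p σ).1) := by
  choose w hw using fun σ : k →ₐ[F] E => hG (p σ).1 (hpS σ) n hn
  refine ⟨∏ σ : k →ₐ[F] E, (p σ).2 (w σ), ?_⟩
  change algebraMap E (W.adicCompletion E) (algebraMap F E (Algebra.norm F ((G n : kˣ) : k))) * _ = _
  rw [norm_eq_prod_emb hE, map_prod, ← Finset.prod_pow, ← Finset.prod_mul_distrib]
  refine Finset.prod_congr rfl fun σ _ => ?_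
  rw [← hw σ, map_mul, map_pow, hp]

/-- roots over an extension satisfy an equation over the ground field -/
theorem exists_ground_poly [Algebra k E] {χ : E[X]} (hχ : χ ≠ 0) :
    ∃ P : k[X], P ≠ 0 ∧ ∀ (Ω : Type _) [Field Ω] (j : E →+* Ω) (t : Ω), χ.eval₂ j t = 0 →
      P.eval₂ (j.comp (algebraMap k E)) t = 0 := by
  classical
  set Eb := AlgebraicClosure E
  let s : Finset Eb := (χ.map (algebraMap E Eb)).roots.toFinset
  refine ⟨∏ β ∈ s, minpoly k β, ?_, ?_⟩
  · rw [Finset.prod_ne_zero_iff]
    intro β _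
    have : Algebra.IsAlgebraic k Eb := Algebra.IsAlgebraic.trans k E Eb
    exact minpoly.ne_zero (Algebra.IsAlgebraic.isAlgebraic β).isIntegral
  · intro Ω _ j t ht
    let _ : Algebra E Ω := j.toAlgebra
    let i : Eb →ₐ[E] AlgebraicClosure Ω := IsAlgClosed.lift
    have h1 : (χ.map (algebraMap E Eb)).eval₂ (i : Eb →+* AlgebraicClosure Ω)
        (algebraMap Ω _ t) = 0 := by
      rw [eval₂_map]
      have h2 : (i : Eb →+* AlgebraicClosure Ω).comp (algebraMap E Eb) =
          (algebraMap Ω (AlgebraicClosure Ω)).comp j := by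
        refine RingHom.ext fun x => ?_
        change i (algebraMap E Eb x) = _
        rw [AlgHom.commutes, IsScalarTower.algebraMap_apply E Ω (AlgebraicClosure Ω)]
        rfl
      rw [h2, ← hom_eval₂, ht, map_zero]
    have hχ' : χ.map (algebraMap E Eb) ≠ 0 :=
      (Polynomial.map_ne_zero_iff (algebraMap E Eb).injective).mpr hχ
    obtain ⟨β, hβ1, hβ2⟩ := root_mem (i : Eb →+* AlgebraicClosure Ω) hχ' h1
    have hβs : β ∈ s := by
      simp only [s, Multiset.mem_toFinset]
      rw [mem_roots hχ']; exact hβ1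
    apply (algebraMap Ω (AlgebraicClosure Ω)).injective
    rw [hom_eval₂, map_zero, eval₂_finsetProd]
    refine Finset.prod_eq_zero hβs ?_
    rw [← hβ2]
    have h3 := hom_eval₂ (minpoly k β) (algebraMap k Eb) (i : Eb →+* AlgebraicClosure Ω) β
    have h4 : (i : Eb →+* AlgebraicClosure Ω).comp (algebraMap k Eb) =
        (algebraMap Ω (AlgebraicClosure Ω)).comp (j.comp (algebraMap k E)) := by
      refine RingHom.ext fun x => ?_
      change i (algebraMap k Eb x) = _
      rw [IsScalarTower.algebraMap_apply k E Eb, AlgHom.commutes,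
        IsScalarTower.algebraMap_apply E Ω (AlgebraicClosure Ω)]
      rfl
    rw [h4] at h3
    rw [← h3]
    have h5 : eval₂ (algebraMap k Eb) β (minpoly k β) = 0 := minpoly.aeval k β
    rw [h5, map_zero]

end places

end Pool.Agent.Lib.MP_2f3286_ag
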