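import Mathlib
import Pool.Agent.Lib.MP_2f3286_ag.NormPoly

/-!
# The norm trick, main statement
-/

open IsDedekindDomain NumberField Polynomial

namespace Pool.Agent.Lib.MP_2f3286_ag

theorem exists_poly {F k : Type*} [Field F] [NumberField F] [Field k] [NumberField k]
    [Algebra F k] (E : Type*) [Field E] [NumberField E] [Algebra F E] [Algebra k E]
    [IsScalarTower F k E] (hE : ∀ x : k, ((minpoly F x).map (algebraMap F E)).Splits)
    (S₀ : Finset (HeightOneSpectrum (𝓞 F))) (S : Finset (HeightOneSpectrum (𝓞 k)))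
    (hS : ∀ v : HeightOneSpectrum (𝓞 k), v ∈ S ↔ ∃ w ∈ S₀, v.asIdeal.LiesOver w.asIdeal)
    (t : ∀ v : HeightOneSpectrum (𝓞 k), v.adicCompletion k)
    (A : Finset F)
    (hA : (Fintype.card (InfinitePlace F) + S₀.card ≤ 1 ∧ Module.finrank F k ≤ A.card) ∨
      (Fintype.card (InfinitePlace F) + S₀.card ≤ 2 ∧ 2 * Module.finrank F k ≤ A.card))
    (hne : ∀ c ∈ A, ∀ v ∉ S, t v ≠ algebraMap k (v.adicCompletion k) (algebraMap F k c))
    (T : Finset (HeightOneSpectrum (𝓞 k)))
    (hval : ∀ c ∈ A, ∀ v ∉ T, Valued.v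
      (t v - algebraMap k (v.adicCompletion k) (algebraMap F k c)) = 1)
    (G : {c // c ∈ A} → ℕ → kˣ)
    (hcompat : ∀ c n m, 1 ≤ n → 1 ≤ m → ∃ y : kˣ, G c (n * m) = G c n * y ^ n)
    (hG : ∀ c, ∀ v ∉ S, ∀ n, 1 ≤ n → ∃ w : v.adicCompletion k,
      algebraMap k (v.adicCompletion k) (G c n) * w ^ n =
        t v - algebraMap k (v.adicCompletion k) (algebraMap F k c)) :
    ∃ P : k[X], P ≠ 0 ∧ ∀ v ∉ S, P.eval₂ (algebraMap k (v.adicCompletion k)) (t v) = 0 := by
  classical
  set d := Module.finrank F k with hd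
  have hd0 : 0 < d := Module.finrank_pos
  have hemb : Fintype.card (k →ₐ[F] E) = d := AlgHom.card_of_splits F k E hE
  have hA2 : Fintype.card (InfinitePlace F) + S₀.card ≤ 2 := by
    rcases hA with h | h
    · omega
    · exact h.1
  obtain ⟨ε, hε1, hε⟩ := exists_gen S₀ hA2
  let N' : kˣ →* Eˣ := (Units.map (algebraMap F E : F →* E)).comp (Units.map (Algebra.norm F))
  -- the classes of the norms
  have hform : ∀ c : {c // c ∈ A}, ∃ r : Fˣ, ∀ n, 1 ≤ n → ∃ ζ : Fˣ, IsOfFinOrder ζ ∧ ∃ j : ℤ,
      ∃ y : Fˣ, Units.map (Algebra.norm F) (G c n) = r * (ζ * ε ^ j * y ^ n) := by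
    intro c
    obtain ⟨α, hα⟩ := exists_alpha S (G c) (hcompat c)
      (fun v => t v - algebraMap k (v.adicCompletion k) (algebraMap F k c)) T
      (fun v hv => sub_ne_zero.mpr (hne c c.2 v hv)) (fun v hv => hval c c.2 v hv)
      (fun v hv n hn => hG c v hv n hn)
    refine ⟨Units.map (Algebra.norm F) α, fun n hn => ?_⟩
    obtain ⟨e, he, β, hβ⟩ := hα n hn
    obtain ⟨ζ, hζ, j, hj⟩ := hε _ (norm_mem_Γ S S₀ (fun v hv => (hS v).mp hv) he)
    refine ⟨ζ, hζ, j, Units.map (Algebra.norm F) β, ?_⟩
    rw [hβ, map_mul, map_mul, map_pow, hj, mul_assoc]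
  choose r hr using hform
  -- the places of `E`
  let TE : Finset (HeightOneSpectrum (𝓞 E)) := (finite_above (L := F) (F := E) S₀).toFinset
  have hTE : ∀ W : HeightOneSpectrum (𝓞 E), W ∈ TE ↔ ∃ w ∈ S₀, W.asIdeal.LiesOver w.asIdeal := by
    intro W
    simp only [TE, Set.Finite.mem_toFinset, Set.mem_ofPred_eq]
  choose p₀ hp₀ hp₀' using fun (W : HeightOneSpectrum (𝓞 E)) (σ : k →ₐ[F] E) =>
    exists_place_below σ W
  have hp₀S : ∀ W ∉ TE, ∀ σ, (p₀ W σ).1 ∉ S := by
    intro W hW σ hσ
    obtain ⟨w, hw, hl⟩ := (hS _).mp hσ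
    exact hW ((hTE W).mpr ⟨w, hw, hp₀' W σ w hl⟩)
  let τ : ∀ (c : F) (v : HeightOneSpectrum (𝓞 k)), v.adicCompletion k := fun c v =>
    t v - algebraMap k (v.adicCompletion k) (algebraMap F k c)
  let Q : ∀ W : HeightOneSpectrum (𝓞 E), {c // c ∈ A} → W.adicCompletion E := fun W c =>
    ∏ σ : k →ₐ[F] E, (p₀ W σ).2 (τ c (p₀ W σ).1)
  let g : {c // c ∈ A} → ℕ → Eˣ := fun c n => N' (G c n)
  have hgcompat : ∀ c n m, 1 ≤ n → 1 ≤ m → ∃ y : Eˣ, g c (n * m) = g c n * y ^ n := by
    intro c n m hn hm
    obtain ⟨y, hy⟩ := hcompat c n m hn hm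
    refine ⟨N' y, ?_⟩
    change N' (G c (n * m)) = N' (G c n) * _
    rw [hy, map_mul, map_pow]
  have hgform : ∀ c n, 1 ≤ n → ∃ ζ : Eˣ, IsOfFinOrder ζ ∧ ∃ j : ℤ, ∃ y : Eˣ,
      g c n = Units.map (algebraMap F E : F →* E) (r c) *
        (ζ * (Units.map (algebraMap F E : F →* E) ε) ^ j * y ^ n) := by
    intro c n hn
    obtain ⟨ζ, hζ, j, y, hy⟩ := hr c n hn
    refine ⟨Units.map (algebraMap F E : F →* E) ζ, MonoidHom.isOfFinOrder _ hζ, j,
      Units.map (algebraMap F E : F →* E) y, ?_⟩
    change Units.map (algebraMap F E : F →* E) (Units.map (Algebra.norm F) (G c n)) = _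
    rw [hy, map_mul, map_mul, map_mul, map_zpow, map_pow]
  -- the polynomial attached to an admissible family
  have hpoly : ∀ (W : HeightOneSpectrum (𝓞 E))
      (p : (k →ₐ[F] E) → Σ v : HeightOneSpectrum (𝓞 k), (v.adicCompletion k →+* W.adicCompletion E)),
      (∀ σ a, (p σ).2 (algebraMap k ((p σ).1.adicCompletion k) a) =
        algebraMap E (W.adicCompletion E) (σ a)) →
      ∃ P : (W.adicCompletion E)[X], P.Monic ∧ P.degree = d ∧
        (∀ c : F, P.eval ((algebraMap E (W.adicCompletion E)).comp (algebraMap F E) c) =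
          (-1) ^ d * ∏ σ : k →ₐ[F] E, (p σ).2 (τ c (p σ).1)) ∧
        ∀ σ, P.eval ((p σ).2 (t (p σ).1)) = 0 := by
    intro W p hp
    refine ⟨∏ σ : k →ₐ[F] E, (X - C ((p σ).2 (t (p σ).1))),
      monic_prod_of_monic _ _ fun σ _ => monic_X_sub_C _, ?_, fun c => ?_, fun σ => ?_⟩
    · rw [degree_eq_natDegree (monic_prod_of_monic _ _ fun σ _ => monic_X_sub_C _).ne_zero,
        natDegree_prod_of_monic _ _ fun σ _ => monic_X_sub_C _]
      simp [hemb]
    · rw [eval_prod, ← hemb, ← Finset.card_univ, ← Finset.prod_const, ← Finset.prod_mul_distrib]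
      refine Finset.prod_congr rfl fun σ _ => ?_
      have h1 : (p σ).2 (τ c (p σ).1) = (p σ).2 (t (p σ).1) -
          (algebraMap E (W.adicCompletion E)).comp (algebraMap F E) c := by
        change (p σ).2 (t (p σ).1 - algebraMap k _ (algebraMap F k c)) = _
        rw [map_sub, hp, AlgHom.commutes]
        rfl
      rw [eval_sub, eval_X, eval_C, h1]
      ring
    · rw [eval_prod]
      refine Finset.prod_eq_zero (Finset.mem_univ σ) ?_
      simp
  have hprod0 : ∀ (W : HeightOneSpectrum (𝓞 E))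
      (p : (k →ₐ[F] E) → Σ v : HeightOneSpectrum (𝓞 k), (v.adicCompletion k →+* W.adicCompletion E)),
      (∀ σ, (p σ).1 ∉ S) → ∀ c : {c // c ∈ A}, ∏ σ : k →ₐ[F] E, (p σ).2 (τ c (p σ).1) ≠ 0 := by
    intro W p hp c
    rw [Finset.prod_ne_zero_iff]
    intro σ _
    rw [_root_.map_ne_zero]
    exact sub_ne_zero.mpr (hne c c.2 _ (hp σ))
  -- sufficiently many of the norms are rational
  obtain ⟨A', hA', ρ, hρ⟩ : ∃ A' : Finset {c // c ∈ A}, A'.card = d ∧
      ∃ ρ : {c // c ∈ A} → Eˣ, ∀ c ∈ A', ∀ n, 1 ≤ n → ∃ z : Eˣ, g c n = ρ c * z ^ n := by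
    let A₁ : Finset {c // c ∈ A} := Finset.univ.filter
      fun c => ∃ ρ : Eˣ, ∀ n, 1 ≤ n → ∃ z : Eˣ, g c n = ρ * z ^ n
    have hA₁ : d ≤ A₁.card := by
      rcases hA with ⟨h1, h2⟩ | ⟨h1, h2⟩
      · -- rank zero
        have h3 : A₁ = Finset.univ := by
          apply Finset.filter_true_of_mem
          intro c _
          have hε' := hε1 h1
          -- all torsion elements of `F` have a common exponent
          have hfin : {ζ : Fˣ | IsOfFinOrder ζ}.Finite := by
            refine (K0_finite (k := F) S₀).subset fun ζ hζ => ?_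
            exact mem_K0_of_finOrder S₀ hζ
          let m := ∏ ζ ∈ hfin.toFinset, orderOf ζ
          have hm : ∀ ζ : Fˣ, IsOfFinOrder ζ → ζ ^ m = 1 := by
            intro ζ hζ
            apply orderOf_dvd_iff_pow_eq_one.mp
            exact Finset.dvd_prod_of_mem _ (by rw [Set.Finite.mem_toFinset]; exact hζ)
          have hm0 : 1 ≤ m := by
            rw [Nat.one_le_iff_ne_zero, Finset.prod_ne_zero_iff]
            intro ζ hζ
            apply Nat.pos_iff_ne_zero.mp
            rw [Set.Finite.mem_toFinset] at hζ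
            exact IsOfFinOrder.orderOf_pos hζ
          obtain ⟨R, hR⟩ := exists_root (e := fun n => Units.map (Algebra.norm F) (G c n)) (by
              intro n m hn hm
              obtain ⟨y, hy⟩ := hcompat c n m hn hm
              exact ⟨Units.map (Algebra.norm F) y, by rw [hy, map_mul, map_pow]⟩) hm0
            (γ := (r c) ^ m) (by
              intro n hn
              obtain ⟨ζ, hζ, j, y, hy⟩ := hr c n hn
              refine ⟨y ^ m, ?_⟩
              rw [hy, hε', one_zpow, mul_one, mul_pow, mul_pow, hm ζ hζ, one_mul, ← pow_mul,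
                ← pow_mul, mul_comm n m])
          refine ⟨Units.map (algebraMap F E : F →* E) R, fun n hn => ?_⟩
          obtain ⟨z, hz⟩ := hR n hn
          refine ⟨Units.map (algebraMap F E : F →* E) z, ?_⟩
          change Units.map (algebraMap F E : F →* E) (Units.map (Algebra.norm F) (G c n)) = _
          beta_reduce at hz
          rw [hz, map_mul, map_pow]
        rw [h3, Finset.card_univ, Fintype.card_coe]
        exact h2
      · -- rank one
        by_contra hlt
        push Not at hlt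
        have h3 : d + 1 ≤ (Finset.univ \ A₁).card := by
          have h4 := Finset.card_sdiff_add_card_eq_card (Finset.subset_univ A₁)
          rw [Finset.card_univ, Fintype.card_coe] at h4
          omega
        obtain ⟨A₂, hA₂, hcard⟩ := Finset.exists_subset_card_eq h3
        -- the divided difference
        let ν : {c // c ∈ A} → E := fun c => algebraMap F E c
        have hν : Function.Injective ν := fun c c' h =>
          Subtype.ext ((algebraMap F E).injective h)
        have hlam : ∀ c ∈ A₂, ∏ c' ∈ A₂.erase c, (ν c - ν c') ≠ 0 := by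
          intro c _
          rw [Finset.prod_ne_zero_iff]
          intro c' hc'
          rw [sub_ne_zero]
          intro h
          exact (Finset.ne_of_mem_erase hc') (hν h).symm
        let lam : {c // c ∈ A} → Eˣ := fun c =>
          if h : c ∈ A₂ then (Units.mk0 _ (hlam c h))⁻¹ else 1
        obtain ⟨c, hc, hcr⟩ := exists_rational g _ _ hgcompat hgform TE Q
          (fun W hW c => hprod0 W (p₀ W) (hp₀S W hW) c)
          (fun W hW c n hn => prod_local hE S (τ c) (G c) (fun v hv n hn => hG c v hv n hn)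
            (p₀ W) (hp₀ W) (hp₀S W hW) n hn)
          ((-1) * (-1) ^ d) A₂.card A₂ lam le_rfl (by
            intro W hW
            obtain ⟨P, hPm, hPd, hPe, -⟩ := hpoly W (p₀ W) (hp₀ W)
            have h5 := Lagrange.leadingCoeff_eq_sum (s := A₂)
              (v := fun c => algebraMap E (W.adicCompletion E) (ν c)) (by
                intro c _ c' _ h
                exact hν ((algebraMap E (W.adicCompletion E)).injective h)) (P := P) (by
                rw [hcard, hPd]; rfl)
            rw [hPm.leadingCoeff] at h5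
            have h6 : ∑ c ∈ A₂, algebraMap E (W.adicCompletion E) (lam c) * Q W c =
                (-1) ^ d * ∑ c ∈ A₂, P.eval (algebraMap E (W.adicCompletion E) (ν c)) /
                  ∏ c' ∈ A₂.erase c, (algebraMap E (W.adicCompletion E) (ν c) -
                    algebraMap E (W.adicCompletion E) (ν c')) := by
              rw [Finset.mul_sum]
              refine Finset.sum_congr rfl fun c hc => ?_
              have h7 : P.eval (algebraMap E (W.adicCompletion E) (ν c)) = (-1) ^ d * Q W c :=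
                hPe c
              have h8 : ((lam c : Eˣ) : E) = (∏ c' ∈ A₂.erase c, (ν c - ν c'))⁻¹ := by
                simp only [lam, dif_pos hc, Units.val_inv_eq_inv_val, Units.val_mk0]
              rw [h7, h8, map_inv₀, map_prod]
              simp only [map_sub]
              rw [div_eq_mul_inv, ← mul_assoc, ← mul_assoc, ← mul_pow]
              simp only [mul_neg, mul_one, neg_neg, one_pow, one_mul]
              rw [mul_comm]
            rw [h6, ← h5]
            simp)
        have h9 := hA₂ hc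
        rw [Finset.mem_sdiff] at h9
        exact h9.2 (Finset.mem_filter.mpr ⟨Finset.mem_univ _, hcr⟩)
    obtain ⟨A', hA'1, hA'2⟩ := Finset.exists_subset_card_eq hA₁
    refine ⟨A', hA'2, fun c => if h : ∃ ρ : Eˣ, ∀ n, 1 ≤ n → ∃ z : Eˣ, g c n = ρ * z ^ n then
      h.choose else 1, fun c hc n hn => ?_⟩
    have h := (Finset.mem_filter.mp (hA'1 hc)).2
    beta_reduce
    rw [dif_pos h]
    exact h.choose_spec n hn
  -- interpolation
  let ν : {c // c ∈ A} → E := fun c => algebraMap F E c
  have hν : Set.InjOn ν A' := fun c _ c' _ h =>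
    Subtype.ext ((algebraMap F E).injective h)
  let I : E[X] := Lagrange.interpolate A' ν fun c => (-1) ^ d * (ρ c : E)
  have hIdeg : I.degree < d := by
    have := Lagrange.degree_interpolate_lt (r := fun c => (-1) ^ d * (ρ c : E)) hν
    rwa [hA'] at this
  let χ : E[X] := Lagrange.nodal A' ν + I
  have hndeg : (Lagrange.nodal A' ν).degree = d := by
    rw [Lagrange.degree_nodal, hA']
  have hχm : χ.Monic := Lagrange.nodal_monic.add_of_left (by rw [hndeg]; exact hIdeg)
  have hχdeg : χ.degree = d := by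
    rw [Polynomial.degree_add_eq_left_of_degree_lt (by rw [hndeg]; exact hIdeg), hndeg]
  have hχeval : ∀ c ∈ A', χ.eval (ν c) = (-1) ^ d * (ρ c : E) := by
    intro c hc
    have h1 := Lagrange.eval_nodal_at_node (v := ν) hc
    have h2 := Lagrange.eval_interpolate_at_node (r := fun c => (-1) ^ d * (ρ c : E)) hν hc
    change (Lagrange.nodal A' ν + I).eval (ν c) = _
    rw [eval_add, h1, zero_add]
    exact h2
  obtain ⟨P, hP0, hP⟩ := exists_ground_poly (k := k) hχm.ne_zero
  refine ⟨P, hP0, fun v hv => ?_⟩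
  -- a place above `v`
  obtain ⟨W, j₀, hj₀, hW⟩ := exists_place_above (F := F) (E := E) v
  have hWT : W ∉ TE := by
    intro h
    obtain ⟨w, hw, hl⟩ := (hTE W).mp h
    exact hv ((hS v).mpr ⟨w, hw, hW w hl⟩)
  let σ₀ : k →ₐ[F] E := IsScalarTower.toAlgHom F k E
  let p : (k →ₐ[F] E) → Σ v : HeightOneSpectrum (𝓞 k), (v.adicCompletion k →+* W.adicCompletion E) :=
    Function.update (p₀ W) σ₀ ⟨v, j₀⟩
  have hpσ₀ : p σ₀ = ⟨v, j₀⟩ := Function.update_self _ _ _
  have hp : ∀ σ : k →ₐ[F] E, ∀ a : k, (p σ).2 (algebraMap k ((p σ).1.adicCompletion k) a) =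
      algebraMap E (W.adicCompletion E) (σ a) := by
    intro σ
    by_cases h : σ = σ₀
    · subst h
      rw [hpσ₀]
      exact hj₀
    · have h1 : p σ = p₀ W σ := Function.update_of_ne h _ _
      rw [h1]
      exact hp₀ W σ
  have hpS : ∀ σ, (p σ).1 ∉ S := by
    intro σ
    by_cases h : σ = σ₀
    · subst h
      rw [hpσ₀]
      exact hv
    · have h1 : p σ = p₀ W σ := Function.update_of_ne h _ _
      rw [h1]
      exact hp₀S W hWT σ
  obtain ⟨PW, hPm, hPd, hPe, hPr⟩ := hpoly W p hp
  have hPW : PW = χ.map (algebraMap E (W.adicCompletion E)) := by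
    refine Polynomial.eq_of_degree_le_of_eval_index_eq (s := A')
      (v := fun c => algebraMap E (W.adicCompletion E) (ν c)) ?_ ?_ ?_ ?_ ?_
    · intro c hc c' hc' h
      exact hν hc hc' ((algebraMap E (W.adicCompletion E)).injective h)
    · rw [hPd, hA']
    · rw [hPd, degree_map, hχdeg]
    · rw [hPm.leadingCoeff, (hχm.map _).leadingCoeff]
    · intro c hc
      have h1 : PW.eval (algebraMap E (W.adicCompletion E) (ν c)) =
        (-1) ^ d * ∏ σ : k →ₐ[F] E, (p σ).2 (τ c (p σ).1) := hPe c
      rw [h1, eval_map, eval₂_at_apply, hχeval c hc, map_mul, map_pow, map_neg, map_one]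
      congr 1
      have h2 := ratio_eq TE (g := g c) (g' := fun _ => 1) (ρ := ρ c) (by
          intro n hn
          obtain ⟨z, hz⟩ := hρ c hc n hn
          exact ⟨z, by rw [mul_one]; exact hz⟩) (hprod0 W p hpS c)
        (one_ne_zero (α := W.adicCompletion E))
        (fun n hn => prod_local hE S (τ c) (G c) (fun v hv n hn => hG c v hv n hn) p hp hpS n hn)
        (fun n hn => ⟨1, by simp⟩)
      rw [h2, mul_one]
  have h3 := hPr σ₀
  rw [hpσ₀, hPW, eval_map] at h3
  have h4 := hP _ (algebraMap E (W.adicCompletion E)) _ h3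
  apply j₀.injective
  rw [map_zero, hom_eval₂]
  have h5 : j₀.comp (algebraMap k (v.adicCompletion k)) =
      (algebraMap E (W.adicCompletion E)).comp (algebraMap k E) :=
    RingHom.ext fun a => hj₀ a
  rw [h5]
  exact h4

end Pool.Agent.Lib.MP_2f3286_ag
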