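import Mathlib
import Pool.Agent.Lib.MP_2f3286_ag.NormMain
import Pool.Agent.Lib.MP_2f3286_ag.Classes
import Pool.Agent.Lib.MP_2f3286_ag.CoreH
import Pool.Agent.Lib.MP_2f3286_ag.CoreD

/-!
# Adelic sections over arbitrary number fields
-/

open IsDedekindDomain NumberField Polynomial

namespace Pool.Agent.Lib.MP_2f3286_ag

/-- a nonconstant function is transcendental if there is a section -/
theorem transcendental_of_section {k : Type*} [Field k] [NumberField k]
    {K : Type*} [Field K] [Algebra k K] (R : Subalgebra k K) (f : R)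
    (hf : ∀ c : k, f ≠ algebraMap k R c)
    {M : Type*} [Field M] [Algebra K M]
    [Algebra (AlgebraicClosure k) M] [Algebra k M]
    [IsScalarTower k K M] [IsScalarTower k (AlgebraicClosure k) M]
    (s : Gal(AlgebraicClosure k/k) →* Gal(M/K))
    (hsec : ∀ σ a, s σ (algebraMap (AlgebraicClosure k) M a) =
      algebraMap (AlgebraicClosure k) M (σ a))
    {p : k[X]} (hp : p ≠ 0) : aeval f p ≠ 0 := by
  intro h
  have h1 : aeval (algebraMap K M (f : K)) p = 0 := by
    have h2 : aeval (f : K) p = 0 := by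
      have := congrArg (Subtype.val : R → K) h
      rw [ZeroMemClass.coe_zero] at this
      rw [← this]
      exact (aeval_algHom_apply R.val f p)
    rw [aeval_algebraMap_apply, h2, map_zero]
  have h3 : (p.map (algebraMap k (AlgebraicClosure k))).eval₂
      (algebraMap (AlgebraicClosure k) M) (algebraMap K M (f : K)) = 0 := by
    rw [eval₂_map, ← IsScalarTower.algebraMap_eq]
    exact h1
  obtain ⟨β, -, hβ⟩ := root_mem (algebraMap (AlgebraicClosure k) M)
    ((Polynomial.map_ne_zero_iff (algebraMap k (AlgebraicClosure k)).injective).mpr hp) h3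
  obtain ⟨c, hc⟩ := mem_of_fixed (F := k) (Fb := AlgebraicClosure k) (y := β) (by
    intro τ
    apply (algebraMap (AlgebraicClosure k) M).injective
    rw [← hsec, hβ, AlgEquiv.commutes])
  apply hf c
  apply Subtype.ext
  apply (algebraMap K M).injective
  rw [← hβ, ← hc]
  change _ = algebraMap K M (algebraMap k K c)
  rw [← IsScalarTower.algebraMap_apply, ← IsScalarTower.algebraMap_apply]

section

universe u

variable {k : Type u} [Field k] [NumberField k]
    {K : Type*} [Field K] [Algebra k K]
    (R : Subalgebra k K)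
    {M : Type*} [Field M] [Algebra K M]
    [Algebra (AlgebraicClosure k) M] [Algebra k M]
    [IsScalarTower k K M] [IsScalarTower k (AlgebraicClosure k) M]

/-- the local points, as homomorphisms `R → k_v` -/
theorem exists_local_point
    (s : Gal(AlgebraicClosure k/k) →* Gal(M/K))
    (v : HeightOneSpectrum (𝓞 k))
    (ι : AlgebraicClosure k →ₐ[k] AlgebraicClosure (v.adicCompletion k))
    (φ : integralClosure R M →+* AlgebraicClosure (v.adicCompletion k))
    (hφ : Respects s (v.adicCompletion k) (ι : _ →+* AlgebraicClosure (v.adicCompletion k)) φ) :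
    ∃ x : R →ₐ[k] v.adicCompletion k,
      ∀ r, algebraMap _ (AlgebraicClosure (v.adicCompletion k)) (x r) =
        φ (algebraMap R (integralClosure R M) r) := by
  have hRM : ∀ r : R, algebraMap R M r = algebraMap K M (r : K) := fun r => rfl
  have hsK : ∀ σ, ∀ r : R, s σ (algebraMap R M r) = algebraMap R M r := by
    intro σ r
    rw [hRM, AlgEquiv.commutes]
  have hchar : CharZero (v.adicCompletion k) :=
    charZero_of_injective_algebraMap (algebraMap k (v.adicCompletion k)).injective
  have hR : ∀ r : R, ∃ y : v.adicCompletion k,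
      algebraMap _ (AlgebraicClosure (v.adicCompletion k)) y =
        (φ.comp (algebraMap R (integralClosure R M))) r := by
    intro r
    apply mem_of_fixed
    intro τ
    obtain ⟨σ, hσ⟩ := exists_restrict ι τ
    refine (hφ.2 σ τ hσ _ _ ?_).symm
    exact (hsK σ r).symm
  obtain ⟨x, hx⟩ := exists_descent _ hR
  refine ⟨{ x with commutes' := fun a => ?_ }, hx⟩
  apply (algebraMap _ (AlgebraicClosure (v.adicCompletion k))).injective
  change algebraMap _ _ (x (algebraMap k R a)) = _
  rw [hx]
  change φ (algebraMap R (integralClosure R M) (algebraMap k R a)) = _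
  rw [hφ.1 (algebraMap k _ a) _ ?_]
  · change ι (algebraMap k _ a) = _
    rw [AlgHom.commutes]
    rfl
  · have htow' : IsScalarTower k R M := IsScalarTower.of_algebraMap_eq fun x => by
      rw [IsScalarTower.algebraMap_apply k K M]; rfl
    change algebraMap R M (algebraMap k R a) = _
    rw [← IsScalarTower.algebraMap_apply, ← IsScalarTower.algebraMap_apply]

/-- Adelic sections: there is a nonzero function vanishing at all the local points. Here `M` only
has to contain the roots of the functions `f - c`. -/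
theorem exists_vanishing_of_roots {F : Type*} [Field F] [NumberField F] [Algebra F k]
    (f : R) (hf : ∀ c : k, f ≠ algebraMap k R c)
    (S₀ : Finset (HeightOneSpectrum (𝓞 F))) (S : Finset (HeightOneSpectrum (𝓞 k)))
    (hS : ∀ v : HeightOneSpectrum (𝓞 k), v ∈ S ↔ ∃ w ∈ S₀, v.asIdeal.LiesOver w.asIdeal)
    (A : Finset F)
    (hA : (Fintype.card (InfinitePlace F) + S₀.card ≤ 1 ∧ Module.finrank F k ≤ A.card) ∨
      (Fintype.card (InfinitePlace F) + S₀.card ≤ 2 ∧ 2 * Module.finrank F k ≤ A.card))
    (hunit : ∀ c ∈ A, IsUnit (f - algebraMap k R (algebraMap F k c)))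
    (hroots : ∀ c ∈ A, ∀ n : ℕ, 1 ≤ n →
      ∃ b : M, b ^ n = algebraMap R M (f - algebraMap k R (algebraMap F k c)))
    (s : Gal(AlgebraicClosure k/k) →* Gal(M/K)) (hs : Continuous s)
    (hsec : ∀ σ a, s σ (algebraMap (AlgebraicClosure k) M a) =
      algebraMap (AlgebraicClosure k) M (σ a))
    (ι : ∀ v : {v : HeightOneSpectrum (𝓞 k) // v ∉ S},
      AlgebraicClosure k →ₐ[k] AlgebraicClosure (v.1.adicCompletion k))
    (φ : ∀ v : {v : HeightOneSpectrum (𝓞 k) // v ∉ S},
      integralClosure R M →+* AlgebraicClosure (v.1.adicCompletion k))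
    (hφ : ∀ v, Respects s (v.1.adicCompletion k) (ι v : _ →+* AlgebraicClosure (v.1.adicCompletion k)) (φ v))
    (T : Finset (HeightOneSpectrum (𝓞 k)))
    (hint : ∀ v, v.1 ∉ T → ∀ c ∈ A, ∃ y : v.1.adicCompletion k, Valued.v y = 1 ∧
      φ v (algebraMap R (integralClosure R M) (f - algebraMap k R (algebraMap F k c))) =
        algebraMap _ _ y) :
    ∃ h : R, h ≠ 0 ∧ ∀ v, φ v (algebraMap R (integralClosure R M) h) = 0 := by
  classical
  have hRM : ∀ r : R, algebraMap R M r = algebraMap K M (r : K) := fun r => rfl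
  have hBk : ∀ a : AlgebraicClosure k, IsIntegral R (algebraMap (AlgebraicClosure k) M a) := by
    intro a
    have htow' : IsScalarTower k R M := IsScalarTower.of_algebraMap_eq fun x => by
      rw [IsScalarTower.algebraMap_apply k K M]; rfl
    have h1 : IsIntegral k a := Algebra.IsIntegral.isIntegral a
    have h2 : IsIntegral k (algebraMap (AlgebraicClosure k) M a) := h1.algebraMap
    exact h2.tower_top
  choose x hx using fun v => exists_local_point R s v.1 (ι v) (φ v) (hφ v)
  -- the units
  have hunit' : ∀ c : {c // c ∈ A}, ∃ u : Rˣ, (u : R) = f - algebraMap k R (algebraMap F k c) :=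
    fun c => hunit c.1 c.2
  choose U hU using hunit'
  have hUroots : ∀ i : {c // c ∈ A}, ∀ n : ℕ, 1 ≤ n → ∃ c : M, c ^ n = algebraMap R M (U i) := by
    intro i n hn
    rw [hU]
    exact hroots i.1 i.2 n hn
  choose T' hT1 hTn hTc using fun i => exists_roots_compatible (hUroots i)
  have hTint : ∀ i n, 1 ≤ n → T' i n ∈ integralClosure R M := fun i n hn =>
    IsIntegral.of_pow hn (by rw [hTn i n hn]; exact isIntegral_algebraMap)
  -- local values of `f`, by `0` in `S`
  let t : ∀ v : HeightOneSpectrum (𝓞 k), v.adicCompletion k := fun v =>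
    if hv : v ∉ S then x ⟨v, hv⟩ f else 0
  have ht : ∀ v (hv : v ∉ S), t v = x ⟨v, hv⟩ f := fun v hv => dif_pos hv
  have htU : ∀ v (hv : v ∉ S), ∀ c : {c // c ∈ A},
      x ⟨v, hv⟩ (U c) = t v - algebraMap k (v.adicCompletion k) (algebraMap F k c) := by
    intro v hv c
    rw [ht v hv, hU, map_sub, AlgHom.commutes]
  obtain ⟨e, he1, he2⟩ := exists_classes R U T' hTn hTc s hs hsec S
    (fun v c => t v - algebraMap k (v.adicCompletion k) (algebraMap F k c))
    (fun v hv => by
      refine ⟨ι ⟨v, hv⟩, fun i n => if h : T' i n ∈ integralClosure R M then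
        φ ⟨v, hv⟩ ⟨T' i n, h⟩ else 0, fun i n hn => ?_, fun σ τ hστ i n hn ζ hζ => ?_⟩
      · beta_reduce
        rw [dif_pos (hTint i n hn), ← map_pow, ← htU v hv]
        refine Eq.trans ?_ (hx ⟨v, hv⟩ (U i)).symm
        congr 1
        apply Subtype.ext
        exact hTn i n hn
      · beta_reduce
        rw [dif_pos (hTint i n hn)]
        have h1 := (hφ ⟨v, hv⟩).2 σ τ hστ ⟨T' i n, hTint i n hn⟩
          ((⟨algebraMap (AlgebraicClosure k) M ζ, hBk ζ⟩ : integralClosure R M) *
            ⟨T' i n, hTint i n hn⟩) (by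
            rw [hζ]; rfl)
        rw [← h1, map_mul, (hφ ⟨v, hv⟩).1 ζ ⟨algebraMap (AlgebraicClosure k) M ζ, hBk ζ⟩ rfl]
        rfl)
  have hxU : ∀ v i, x v (U i) ≠ 0 := by
    intro v i
    exact ((U i).isUnit.map (x v)).ne_zero
  have hval : ∀ v : {v : HeightOneSpectrum (𝓞 k) // v ∉ S}, v.1 ∉ T → ∀ i,
      Valued.v (x v (U i)) = 1 := by
    intro v hv i
    obtain ⟨y, hy1, hy2⟩ := hint v hv i.1 i.2
    have hinj := (algebraMap (v.1.adicCompletion k) (AlgebraicClosure (v.1.adicCompletion k))).injective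
    have h1 : x v (U i) = y := hinj (by rw [hx, hU, hy2])
    rw [h1, hy1]
  -- the field in which to take the norms
  let E : IntermediateField F (AlgebraicClosure k) :=
    IntermediateField.normalClosure F k (AlgebraicClosure k)
  have hEfin : FiniteDimensional F E := inferInstance
  have hEnf : NumberField E := NumberField.of_module_finite F E
  have hEn : Normal F E := inferInstance
  have hEtow : IsScalarTower F k E := inferInstance
  have hEs : ∀ x : k, ((minpoly F x).map (algebraMap F E)).Splits := by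
    intro x
    have h1 := hEn.splits (algebraMap k E x)
    rwa [minpoly.algebraMap_eq (algebraMap k E).injective] at h1
  obtain ⟨P, hP0, hP⟩ := exists_poly (F := F) (k := k) E hEs S₀ S hS t A hA
    (by
      intro c hc v hv h
      apply hxU ⟨v, hv⟩ ⟨c, hc⟩
      rw [htU v hv, h, sub_self])
    (T ∪ S)
    (by
      intro c hc v hv
      rw [Finset.mem_union, not_or] at hv
      rw [← hval ⟨v, hv.2⟩ hv.1 ⟨c, hc⟩, htU v hv.2])
    e he1 (fun c v hv n hn => he2 v hv c n hn)
  refine ⟨aeval f P, ?_, fun v => ?_⟩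
  · exact transcendental_of_section R f hf s hsec hP0
  · rw [← hx, ← aeval_algHom_apply, aeval_def]
    have h1 := hP v.1 v.2
    rw [ht v.1 v.2] at h1
    rw [h1, map_zero]

/-- Adelic sections: there is a nonzero function vanishing at all the local points. -/
theorem exists_vanishing {F : Type*} [Field F] [NumberField F] [Algebra F k]
    (f : R) (hf : ∀ c : k, f ≠ algebraMap k R c)
    (S₀ : Finset (HeightOneSpectrum (𝓞 F))) (S : Finset (HeightOneSpectrum (𝓞 k)))
    (hS : ∀ v : HeightOneSpectrum (𝓞 k), v ∈ S ↔ ∃ w ∈ S₀, v.asIdeal.LiesOver w.asIdeal)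
    (A : Finset F)
    (hA : (Fintype.card (InfinitePlace F) + S₀.card ≤ 1 ∧ Module.finrank F k ≤ A.card) ∨
      (Fintype.card (InfinitePlace F) + S₀.card ≤ 2 ∧ 2 * Module.finrank F k ≤ A.card))
    (hunit : ∀ c ∈ A, IsUnit (f - algebraMap k R (algebraMap F k c)))
    (hroots : ∀ b : M, b ≠ 0 → IsIntegral R b → IsIntegral R b⁻¹ → ∀ n : ℕ, 1 ≤ n → ∃ c : M, c ^ n = b)
    (s : Gal(AlgebraicClosure k/k) →* Gal(M/K)) (hs : Continuous s)
    (hsec : ∀ σ a, s σ (algebraMap (AlgebraicClosure k) M a) =
      algebraMap (AlgebraicClosure k) M (σ a))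
    (ι : ∀ v : {v : HeightOneSpectrum (𝓞 k) // v ∉ S},
      AlgebraicClosure k →ₐ[k] AlgebraicClosure (v.1.adicCompletion k))
    (φ : ∀ v : {v : HeightOneSpectrum (𝓞 k) // v ∉ S},
      integralClosure R M →+* AlgebraicClosure (v.1.adicCompletion k))
    (hφ : ∀ v, Respects s (v.1.adicCompletion k) (ι v : _ →+* AlgebraicClosure (v.1.adicCompletion k)) (φ v))
    (T : Finset (HeightOneSpectrum (𝓞 k)))
    (hint : ∀ v, v.1 ∉ T → ∀ c ∈ A, ∃ y : v.1.adicCompletion k, Valued.v y = 1 ∧
      φ v (algebraMap R (integralClosure R M) (f - algebraMap k R (algebraMap F k c))) =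
        algebraMap _ _ y) :
    ∃ h : R, h ≠ 0 ∧ ∀ v, φ v (algebraMap R (integralClosure R M) h) = 0 := by
  refine exists_vanishing_of_roots R f hf S₀ S hS A hA hunit (fun c hc => ?_) s hs hsec ι φ hφ T hint
  obtain ⟨u, hu⟩ := hunit c hc
  have h0 : (((u : R)) : K) ≠ 0 := fun h => u.ne_zero (Subtype.ext h)
  have h1 : algebraMap R M u ≠ 0 := by
    change algebraMap K M ((u : R) : K) ≠ 0
    rw [_root_.map_ne_zero]; exact h0
  have h2 : (algebraMap R M u)⁻¹ = algebraMap R M ((u⁻¹ : Rˣ) : R) :=
    inv_eq_of_mul_eq_one_right (by rw [← map_mul, Units.mul_inv, map_one])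
  rw [← hu]
  exact hroots _ h1 isIntegral_algebraMap (by rw [h2]; exact isIntegral_algebraMap)

end

end Pool.Agent.Lib.MP_2f3286_ag
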