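import Mathlib
import Pool.Agent.Lib.MP_2f3286_ag.NormStage

/-!
# Adelic sections over arbitrary number fields are geometric

Every curve over every number field `k` has arbitrarily small open subsets `U` (very affine, with
`f - c` invertible for `[k:ℚ]` rational numbers `c`) such that a section of (a quotient of) the
fundamental group of `U` which is locally geometric at all finite places, and integral at almost all
of them, comes from a rational point, as seen on all divisible units of all covers of `U`, and on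
everything for the Kummer quotients of the fundamental group: the geometrically abelian one obtained
by adjoining all roots of the units of `U`, and the iterated one.
-/

open IsDedekindDomain NumberField

namespace Pool.Agent.Lib.MP_2f3286_ag

universe u in
theorem norm_final {k : Type u} [Field k] [NumberField k]
    {F : Type*} [Field F] [NumberField F] [Algebra F k]
    {K : Type*} [Field K] [Algebra k K] (htr : Algebra.trdeg k K = 1)
    (R : Subalgebra k K) (f : R) (hf : ∀ c : k, f ≠ algebraMap k R c)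
    (S₀ : Finset (HeightOneSpectrum (𝓞 F))) (S : Finset (HeightOneSpectrum (𝓞 k)))
    (hS : ∀ v : HeightOneSpectrum (𝓞 k), v ∈ S ↔ ∃ w ∈ S₀, v.asIdeal.LiesOver w.asIdeal)
    (A : Finset F)
    (hA : (Fintype.card (InfinitePlace F) + S₀.card ≤ 1 ∧ Module.finrank F k ≤ A.card) ∨
      (Fintype.card (InfinitePlace F) + S₀.card ≤ 2 ∧ 2 * Module.finrank F k ≤ A.card))
    (hunit : ∀ c ∈ A, IsUnit (f - algebraMap k R (algebraMap F k c)))
    {M : Type*} [Field M] [Algebra K M] [Algebra.IsAlgebraic K M]
    [Algebra (AlgebraicClosure k) M] [Algebra k M]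
    [IsScalarTower k K M] [IsScalarTower k (AlgebraicClosure k) M]
    (hroots : ∀ c ∈ A, ∀ n : ℕ, 1 ≤ n →
      ∃ b : M, b ^ n = algebraMap R M (f - algebraMap k R (algebraMap F k c)))
    (hRU : ∀ r : R, algebraMap R M r ∈ divUnitRing R M)
    (s : Gal(AlgebraicClosure k/k) →* Gal(M/K)) (hs : Continuous s)
    (hsec : ∀ σ a, s σ (algebraMap (AlgebraicClosure k) M a) =
      algebraMap (AlgebraicClosure k) M (σ a))
    (ι : ∀ v : {v : HeightOneSpectrum (𝓞 k) // v ∉ S},
      AlgebraicClosure k →ₐ[k] AlgebraicClosure (v.1.adicCompletion k))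
    (φ : ∀ v : {v : HeightOneSpectrum (𝓞 k) // v ∉ S},
      integralClosure R M →+* AlgebraicClosure (v.1.adicCompletion k))
    (hφ : ∀ v, Respects s (v.1.adicCompletion k)
      (ι v : _ →+* AlgebraicClosure (v.1.adicCompletion k)) (φ v))
    (T : Finset (HeightOneSpectrum (𝓞 k)))
    (hint : ∀ v, v.1 ∉ T → ∀ c ∈ A, ∃ y : v.1.adicCompletion k, Valued.v y = 1 ∧
      φ v (algebraMap R (integralClosure R M) (f - algebraMap k R (algebraMap F k c))) =
        algebraMap _ _ y) :
    ∃ (x : R →ₐ[k] k) (ψ : divUnitRing R M →+* AlgebraicClosure k),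
      (∀ r, ψ ⟨algebraMap R M r, hRU r⟩ = algebraMap k _ (x r)) ∧
      Respects s k (RingHom.id _) ψ ∧
      (∀ v, ∀ c : divUnitRing R M, ∀ b : integralClosure R M, (b : M) = c → φ v b = ι v (ψ c)) ∧
      (∀ ψ' : divUnitRing R M →+* AlgebraicClosure k, Respects s k (RingHom.id _) ψ' → ψ' = ψ) ∧
      ((∀ y : K, IsIntegral R y → y ∈ R) → IsDivTower R K M (AlgebraicClosure k) →
        ∃ Ψ : integralClosure R M →+* AlgebraicClosure k,
          Respects s k (RingHom.id _) Ψ ∧ (∀ v b, φ v b = ι v (Ψ b)) ∧
          ∀ Ψ' : integralClosure R M →+* AlgebraicClosure k,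
            Respects s k (RingHom.id _) Ψ' → Ψ' = Ψ) := by
  classical
  obtain ⟨h, hh, hφh⟩ := exists_vanishing_of_roots R f hf S₀ S hS A hA hunit hroots s hs hsec
    ι φ hφ T hint
  obtain ⟨⟨ψ, hψ1, hψ2, hψ3⟩, hK⟩ := core_div htr R s hs hsec S ι φ hφ h hh hφh
  have hsK : ∀ σ, ∀ r : R, s σ (algebraMap R M r) = algebraMap R M r := by
    intro σ r
    exact AlgEquiv.commutes (s σ) (r : K)
  have htow' : IsScalarTower k R M := IsScalarTower.of_algebraMap_eq fun x => by
    rw [IsScalarTower.algebraMap_apply k K M]; rfl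
  have hkM : ∀ a : k, algebraMap R M (algebraMap k R a) =
      algebraMap (AlgebraicClosure k) M (algebraMap k _ a) := by
    intro a
    rw [← IsScalarTower.algebraMap_apply, ← IsScalarTower.algebraMap_apply]
  let θ : R →+* AlgebraicClosure k :=
    ψ.comp ((algebraMap R M).codRestrict (divUnitRing R M) hRU)
  obtain ⟨x, hx⟩ := exists_descent (F := k) θ (fun r => mem_of_fixed fun τ =>
    (hψ1.2 τ τ (fun _ => rfl) _ _ (hsK τ r).symm).symm)
  refine ⟨{ x with commutes' := fun a => ?_ }, ψ, fun r => (hx r).symm, hψ1, hψ2, hψ3,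
    fun hRn hmin => ?_⟩
  · apply (algebraMap k (AlgebraicClosure k)).injective
    change algebraMap _ _ (x (algebraMap k R a)) = _
    rw [hx]
    exact hψ1.1 (algebraMap k _ a) _ (hkM a)
  · obtain ⟨Ψ, h1, -, h2, h3⟩ := hK hRn hRU hmin
    exact ⟨Ψ, h1, h2, h3⟩

end Pool.Agent.Lib.MP_2f3286_ag
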