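import Mathlib
import Pool.Agent.Lib.MP_2f3286_ag.NormFinal

/-!
# Adelic sections over arbitrary number fields are geometric

Every curve over every number field `k` has arbitrarily small open subsets `U` (very affine, with
`f - c` invertible for `[k:ℚ]` rational numbers `c`) such that a section of (a quotient of) the
fundamental group of `U` which is locally geometric at all finite places, and integral at almost all
of them, comes from a rational point, as seen on all divisible units of all covers of `U`, and on
everything for the Kummer quotients of the fundamental group: the geometrically abelian one obtained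
by adjoining all roots of the units of `U`, and the iterated one.
-/

open IsDedekindDomain NumberField

namespace Pool.Agent.Results.MP_2f3286_ag.AdelicAllFields

/-- `Respects s F ι φ`, for a homomorphism `φ` from a subring `B` of `M` to `Fb`, an algebraic
closure of `F`, and an embedding `ι : kb → Fb`: `φ` extends `ι` and intertwines the action on `B` of
`Gal(Fb/F)` through the section `s` with the Galois action, i.e. over `F` the section `s` is the
section of the point `φ` (as far as it acts on `B`). -/
def Respects {k K M kb : Type*} [Field k] [Field kb] [Algebra k kb] [Field K] [Field M]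
    [Algebra K M] [Algebra kb M] {C : Type*} [SetLike C M] [SubringClass C M] {B : C}
    (s : Gal(kb/k) →* Gal(M/K)) (F : Type*) {Fb : Type*} [Field F] [Field Fb] [Algebra F Fb]
    (ι : kb →+* Fb) (φ : B →+* Fb) : Prop :=
  (∀ (a : kb) (b : B), (b : M) = algebraMap kb M a → φ b = ι a) ∧
  ∀ (σ : Gal(kb/k)) (τ : Gal(Fb/F)), (∀ a, ι (σ a) = τ (ι a)) →
    ∀ b b' : B, (b' : M) = s σ b → φ b' = τ (φ b)

/-- `b` is a unit of the integral closure of `R` in `M`, or `0`, and has `n`-th roots in `M` for
all `n`. -/
def IsDivUnit (R : Type*) {M : Type*} [CommRing R] [Field M] [Algebra R M] (b : M) : Prop :=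
  IsIntegral R b ∧ IsIntegral R b⁻¹ ∧ ∀ n : ℕ, 1 ≤ n → ∃ c : M, c ^ n = b

/-- The subring of `M` generated by the divisible units. -/
def divUnitRing (R M : Type*) [CommRing R] [Field M] [Algebra R M] : Subring M :=
  Subring.closure {b : M | IsDivUnit R b}

/-- No proper subfield `E` of `M` containing `K` and `kb` is closed under roots in `M` of divisible
units: `M` is obtained from `K` by adjoining `kb` and, repeatedly, roots of divisible units. -/
def IsDivTower (R K M kb : Type*) [CommRing R] [Field K] [Field M] [Field kb] [Algebra R M]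
    [Algebra K M] [Algebra kb M] : Prop :=
  ∀ E : IntermediateField K M, (∀ a : kb, algebraMap kb M a ∈ E) →
    (∀ b : M, ∀ n : ℕ, 1 ≤ n → b ≠ 0 → IsDivUnit R b → b ^ n ∈ E → b ∈ E) → E = ⊤

universe u in
theorem result {k : Type u} [Field k] [NumberField k]
    {F : Type*} [Field F] [NumberField F] [Algebra F k]
    {K : Type*} [Field K] [Algebra k K] (htr : Algebra.trdeg k K = 1)
    (R : Subalgebra k K) (f : R) (hf : ∀ c : k, f ≠ algebraMap k R c)
    (S₀ : Finset (HeightOneSpectrum (𝓞 F))) (S : Finset (HeightOneSpectrum (𝓞 k)))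
    (hS : ∀ v : HeightOneSpectrum (𝓞 k), v ∈ S ↔ ∃ w ∈ S₀, v.asIdeal.LiesOver w.asIdeal)
    (A : Finset F)
    (hA : (Fintype.card (InfinitePlace F) + S₀.card ≤ 1 ∧ Module.finrank F k ≤ A.card) ∨
      (Fintype.card (InfinitePlace F) + S₀.card ≤ 2 ∧ 2 * Module.finrank F k ≤ A.card))
    (hunit : ∀ c ∈ A, IsUnit (f - algebraMap k R (algebraMap F k c)))
    {M : Type*} [Field M] [Algebra K M] [Algebra.IsAlgebraic K M]
    [Algebra (AlgebraicClosure k) M] [Algebra k M]
    [IsScalarTower k K M] [IsScalarTower k (AlgebraicClosure k) M]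
    (hroots : ∀ c ∈ A, ∀ n : ℕ, 1 ≤ n →
      ∃ b : M, b ^ n = algebraMap R M (f - algebraMap k R (algebraMap F k c)))
    (hRU : ∀ r : R, algebraMap R M r ∈ divUnitRing R M)
    (s : Gal(AlgebraicClosure k/k) →* Gal(M/K)) (hs : Continuous s)
    (hsec : ∀ σ a, s σ (algebraMap (AlgebraicClosure k) M a) =
      algebraMap (AlgebraicClosure k) M (σ a))
    (ι : ∀ v : {v : HeightOneSpectrum (𝓞 k) // v ∉ S},
      AlgebraicClosure k →ₐ[k] AlgebraicClosure (v.1.adicCompletion k))
    (φ : ∀ v : {v : HeightOneSpectrum (𝓞 k) // v ∉ S},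
      integralClosure R M →+* AlgebraicClosure (v.1.adicCompletion k))
    (hφ : ∀ v, Respects s (v.1.adicCompletion k)
      (ι v : _ →+* AlgebraicClosure (v.1.adicCompletion k)) (φ v))
    (T : Finset (HeightOneSpectrum (𝓞 k)))
    (hint : ∀ v, v.1 ∉ T → ∀ c ∈ A, ∃ y : v.1.adicCompletion k, Valued.v y = 1 ∧
      φ v (algebraMap R (integralClosure R M) (f - algebraMap k R (algebraMap F k c))) =
        algebraMap _ _ y) :
    ∃ (x : R →ₐ[k] k) (ψ : divUnitRing R M →+* AlgebraicClosure k),
      (∀ r, ψ ⟨algebraMap R M r, hRU r⟩ = algebraMap k _ (x r)) ∧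
      Respects s k (RingHom.id _) ψ ∧
      (∀ v, ∀ c : divUnitRing R M, ∀ b : integralClosure R M, (b : M) = c → φ v b = ι v (ψ c)) ∧
      (∀ ψ' : divUnitRing R M →+* AlgebraicClosure k, Respects s k (RingHom.id _) ψ' → ψ' = ψ) ∧
      ((∀ y : K, IsIntegral R y → y ∈ R) → IsDivTower R K M (AlgebraicClosure k) →
        ∃ Ψ : integralClosure R M →+* AlgebraicClosure k,
          Respects s k (RingHom.id _) Ψ ∧ (∀ v b, φ v b = ι v (Ψ b)) ∧
          ∀ Ψ' : integralClosure R M →+* AlgebraicClosure k,
            Respects s k (RingHom.id _) Ψ' → Ψ' = Ψ) :=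
  Pool.Agent.Lib.MP_2f3286_ag.norm_final htr R f hf S₀ S hS A hA hunit hroots hRU s hs hsec ι φ hφ T
    hint

end Pool.Agent.Results.MP_2f3286_ag.AdelicAllFields
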