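import Mathlib
import Pool.Agent.Lib.MP_2f3286_ag.NormStage
import Pool.Agent.Lib.MP_2f3286_bir.Uniq

/-!
# The birational section conjecture with adelic conditions, over every number field

A section of the absolute Galois group of the function field `K` of a curve over a number field `k`
which at all finite places (or at all places not over a given prime number) comes from local points
that are integral, at almost all places, for a suitable nonempty open subset of the curve, comes from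
exactly one `k`-rational point.
-/

open IsDedekindDomain NumberField
open Pool.Agent.Lib.MP_2f3286_ag
open Pool.Agent.Lib.MP_2f3286_bir

namespace Pool.Agent.Lib.MP_2f3286_ag.BirAdelic

universe u in
theorem bir_adelic {k : Type u} [Field k] [NumberField k]
    {F : Type*} [Field F] [NumberField F] [Algebra F k]
    {K : Type*} [Field K] [Algebra k K] (htr : Algebra.trdeg k K = 1)
    {Ω : Type*} [Field Ω] [Algebra K Ω] [IsAlgClosure K Ω]
    [Algebra (AlgebraicClosure k) Ω] [Algebra k Ω]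
    [IsScalarTower k K Ω] [IsScalarTower k (AlgebraicClosure k) Ω]
    (t : K) (ht : ∀ c : k, t ≠ algebraMap k K c)
    (S₀ : Finset (HeightOneSpectrum (𝓞 F))) (S : Finset (HeightOneSpectrum (𝓞 k)))
    (hS : ∀ v : HeightOneSpectrum (𝓞 k), v ∈ S ↔ ∃ w ∈ S₀, v.asIdeal.LiesOver w.asIdeal)
    (C : Finset F)
    (hC : (Fintype.card (InfinitePlace F) + S₀.card ≤ 1 ∧ Module.finrank F k ≤ C.card) ∨
      (Fintype.card (InfinitePlace F) + S₀.card ≤ 2 ∧ 2 * Module.finrank F k ≤ C.card))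
    (s : Gal(AlgebraicClosure k/k) →* Gal(Ω/K)) (hs : Continuous s)
    (hsec : ∀ σ a, s σ (algebraMap (AlgebraicClosure k) Ω a) =
      algebraMap (AlgebraicClosure k) Ω (σ a))
    (ι : ∀ v : {v : HeightOneSpectrum (𝓞 k) // v ∉ S},
      AlgebraicClosure k →ₐ[k] AlgebraicClosure (v.1.adicCompletion k))
    (A : {v : HeightOneSpectrum (𝓞 k) // v ∉ S} → ValuationSubring Ω)
    (φ : ∀ v : {v : HeightOneSpectrum (𝓞 k) // v ∉ S},
      A v →+* AlgebraicClosure (v.1.adicCompletion k))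
    (hφ : ∀ v, IsPlaceOf s (v.1.adicCompletion k)
      (ι v : _ →+* AlgebraicClosure (v.1.adicCompletion k)) (A v) (φ v))
    (x : ∀ v : {v : HeightOneSpectrum (𝓞 k) // v ∉ S}, v.1.adicCompletion k)
    (hx : ∀ v, ∃ h : algebraMap K Ω t ∈ A v, φ v ⟨algebraMap K Ω t, h⟩ = algebraMap _ _ (x v))
    (hxC : ∀ v, ∀ c ∈ C, x v ≠ algebraMap k (v.1.adicCompletion k) (algebraMap F k c))
    (T : Finset (HeightOneSpectrum (𝓞 k)))
    (hint : ∀ v, v.1 ∉ T → ∀ c ∈ C,
      Valued.v (x v - algebraMap k (v.1.adicCompletion k) (algebraMap F k c)) = 1) :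
    ∃ (A₀ : ValuationSubring Ω) (ψ₀ : A₀ →+* AlgebraicClosure k),
      IsPlaceOf s k (RingHom.id _) A₀ ψ₀ ∧
      (∀ v, A v = A₀ ∧ ∀ (a : A v) (b : A₀), (a : Ω) = b → φ v a = ι v (ψ₀ b)) ∧
      (∀ (f : K) (h : algebraMap K Ω f ∈ A₀),
        ∃ a : k, ψ₀ ⟨algebraMap K Ω f, h⟩ = algebraMap k (AlgebraicClosure k) a) ∧
      ∀ (A₁ : ValuationSubring Ω) (ψ₁ : A₁ →+* AlgebraicClosure k),
        IsPlaceOf s k (RingHom.id _) A₁ ψ₁ →
        A₁ = A₀ ∧ ∀ (a : A₁) (b : A₀), (a : Ω) = b → ψ₁ a = ψ₀ b := by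
  classical
  have hcl : IsAlgClosed Ω := IsAlgClosure.isAlgClosed K
  have halg : Algebra.IsAlgebraic K Ω := IsAlgClosure.isAlgebraic
  let R : Subalgebra k K := Algebra.adjoin k
    (insert t ((fun c : F => (t - algebraMap k K (algebraMap F k c))⁻¹) '' (C : Set F)))
  have htR : t ∈ R := Algebra.subset_adjoin (Set.mem_insert _ _)
  have hcR : ∀ c ∈ C, (t - algebraMap k K (algebraMap F k c))⁻¹ ∈ R := fun c hc =>
    Algebra.subset_adjoin (Set.mem_insert_of_mem _ ⟨c, hc, rfl⟩)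
  -- `R` lies in the valuation rings
  have hkA : ∀ v, ∀ c : k, ∃ h : algebraMap K Ω (algebraMap k K c) ∈ A v,
      φ v ⟨algebraMap K Ω (algebraMap k K c), h⟩ =
        algebraMap _ _ (algebraMap k (v.1.adicCompletion k) c) := by
    intro v c
    obtain ⟨h, h'⟩ := (hφ v).1 (algebraMap k _ c)
    have h1 : algebraMap (AlgebraicClosure k) Ω (algebraMap k _ c) =
        algebraMap K Ω (algebraMap k K c) := by
      rw [← IsScalarTower.algebraMap_apply, ← IsScalarTower.algebraMap_apply]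
    have h2 : algebraMap K Ω (algebraMap k K c) ∈ A v := by rw [← h1]; exact h
    refine ⟨h2, ?_⟩
    have h3 : (⟨algebraMap K Ω (algebraMap k K c), h2⟩ : A v) = ⟨_, h⟩ := Subtype.ext h1.symm
    rw [h3, h']
    change ι v (algebraMap k _ c) = _
    rw [AlgHom.commutes]
    rfl
  have htc : ∀ v, ∀ c : k, ∃ h : algebraMap K Ω (t - algebraMap k K c) ∈ A v,
      φ v ⟨algebraMap K Ω (t - algebraMap k K c), h⟩ =
        algebraMap _ _ (x v - algebraMap k (v.1.adicCompletion k) c) := by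
    intro v c
    obtain ⟨h1, h2⟩ := hx v
    obtain ⟨h3, h4⟩ := hkA v c
    have h5 : algebraMap K Ω (t - algebraMap k K c) ∈ A v := by
      rw [map_sub]; exact sub_mem h1 h3
    refine ⟨h5, ?_⟩
    have h6 : (⟨algebraMap K Ω (t - algebraMap k K c), h5⟩ : A v) =
        ⟨_, h1⟩ - ⟨_, h3⟩ := Subtype.ext (map_sub _ _ _)
    rw [h6, map_sub, h2, h4, map_sub]
  have hRA : ∀ v, ∀ r : K, r ∈ R → algebraMap K Ω r ∈ A v := by
    intro v r hr
    induction hr using Algebra.adjoin_induction with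
    | mem r hr =>
      rcases hr with rfl | ⟨c, hc, rfl⟩
      · exact (hx v).1
      · obtain ⟨h1, h2⟩ := htc v (algebraMap F k c)
        beta_reduce
        rw [map_inv₀]
        refine (hφ v).2.1 _ (?_ : φ v ⟨_, h1⟩ ≠ 0)
        rw [h2, _root_.map_ne_zero]
        exact sub_ne_zero.mpr (hxC v c hc)
    | algebraMap c => exact (hkA v c).1
    | add a b _ _ ha hb => rw [map_add]; exact add_mem ha hb
    | mul a b _ _ ha hb => rw [map_mul]; exact mul_mem ha hb
  have hBA : ∀ v, ∀ b : Ω, IsIntegral R b → b ∈ A v := by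
    intro v b hb
    let g : R →+* A v := ((algebraMap K Ω).comp (algebraMap R K)).codRestrict (A v).toSubring
      (fun r => hRA v r r.2)
    have h1 : IsIntegral (A v) ((RingHom.id Ω) b) := by
      refine IsIntegral.map_of_comp_eq g (RingHom.id Ω) ?_ hb
      ext r
      rfl
    obtain ⟨y, hy⟩ := (IsIntegrallyClosed.isIntegral_iff (R := A v) (K := Ω)).mp h1
    have h2 : (y : Ω) = b := hy
    rw [← h2]
    exact y.2
  let φ' : ∀ v : {v : HeightOneSpectrum (𝓞 k) // v ∉ S},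
      integralClosure R Ω →+* AlgebraicClosure (v.1.adicCompletion k) := fun v =>
    (φ v).comp ((algebraMap (integralClosure R Ω) Ω).codRestrict (A v).toSubring
      (fun b => hBA v b b.2))
  have hφ'1 : ∀ v, ∀ b : integralClosure R Ω, φ' v b = φ v ⟨b, hBA v b b.2⟩ := fun v b => rfl
  have hφ' : ∀ v, Respects s (v.1.adicCompletion k)
      (ι v : _ →+* AlgebraicClosure (v.1.adicCompletion k)) (φ' v) := by
    intro v
    refine ⟨fun a b hab => ?_, fun σ τ hστ b b' hb => ?_⟩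
    · obtain ⟨h, h'⟩ := (hφ v).1 a
      rw [hφ'1, ← h']
      congr 1
      exact Subtype.ext hab
    · obtain ⟨h, h'⟩ := (hφ v).2.2 σ τ hστ ⟨b, hBA v b b.2⟩
      rw [hφ'1, hφ'1, ← h']
      congr 1
      exact Subtype.ext hb
  let f : R := ⟨t, htR⟩
  have hf : ∀ c : k, f ≠ algebraMap k R c := by
    intro c h
    exact ht c (congrArg (Subtype.val : R → K) h)
  have hroots : ∀ b : Ω, b ≠ 0 → IsIntegral R b → IsIntegral R b⁻¹ → ∀ n : ℕ, 1 ≤ n →
      ∃ c : Ω, c ^ n = b := fun b _ _ _ n hn => IsAlgClosed.exists_pow_nat_eq b hn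
  have hunit : ∀ c ∈ C, IsUnit (f - algebraMap k R (algebraMap F k c)) := by
    intro c hc
    refine IsUnit.of_mul_eq_one ⟨_, hcR c hc⟩ ?_
    apply Subtype.ext
    change (t - algebraMap k K (algebraMap F k c)) * (t - algebraMap k K (algebraMap F k c))⁻¹ = 1
    rw [mul_inv_cancel₀]
    exact sub_ne_zero.mpr (ht _)
  obtain ⟨h, hh, hφh⟩ := exists_vanishing R f hf S₀ S hS C hC hunit hroots s hs hsec ι φ' hφ' T (by
    intro v hv c hc
    refine ⟨_, hint v hv c hc, ?_⟩
    obtain ⟨h1, h2⟩ := htc v (algebraMap F k c)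
    rw [← h2]
    rfl)
  obtain ⟨⟨ψ, hψ1, hψ2, -⟩, -⟩ := core_of_vanishing htr R hroots s hs hsec S ι φ' hφ' h hh hφh
  -- the point on the integral closure
  let θ : integralClosure R Ω →+* AlgebraicClosure k :=
    ψ.comp ((algebraMap (integralClosure R Ω) Ω).codRestrict (unitRing R Ω)
      (fun b => mem_unitRing b.2))
  have hθ : Respects s k (RingHom.id _) θ := by
    refine ⟨fun a b hab => hψ1.1 a _ hab, fun σ τ hστ b b' hb => hψ1.2 σ τ hστ _ _ hb⟩
  have htt : Transcendental k ((f : R) : K) := by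
    rintro ⟨p, hp, hpt⟩
    refine transcendental_of_section R f hf s hsec hp ?_
    apply Subtype.ext
    rw [ZeroMemClass.coe_zero, ← hpt]
    exact (Polynomial.aeval_algHom_apply R.val f p).symm
  obtain ⟨v₀, hv₀⟩ := exists_notMem S
  have hV : Nonempty {v : HeightOneSpectrum (𝓞 k) // v ∉ S} := ⟨⟨v₀, hv₀⟩⟩
  obtain ⟨A₀, ψ₀, h1, h2⟩ := place_layer htr s R f htt
    (V := {v : HeightOneSpectrum (𝓞 k) // v ∉ S}) (fun v => v.1) ι A φ hφ θ hθ (by
      intro v b
      refine ⟨hBA v b b.2, ?_⟩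
      exact hψ2 v _ b rfl)
  refine ⟨A₀, ψ₀, h1, h2, fun g hg => ?_, fun A₁ ψ₁ h₁ => place_unique s hs h1 h₁⟩
  obtain ⟨a, ha⟩ := mem_of_fixed (F := k) (Fb := AlgebraicClosure k)
    (y := ψ₀ ⟨algebraMap K Ω g, hg⟩) (by
      intro τ
      obtain ⟨h3, h4⟩ := h1.2.2 τ τ (fun _ => rfl) ⟨algebraMap K Ω g, hg⟩
      rw [← h4]
      congr 1
      apply Subtype.ext
      exact AlgEquiv.commutes (s τ) g)
  exact ⟨a, ha.symm⟩

end Pool.Agent.Lib.MP_2f3286_ag.BirAdelic
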