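import Mathlib

/-!
# Characters of a closed normal subgroup of a profinite group
-/

open scoped commutatorElement

namespace Pool.Agent.Lib.MP_2f3286_ag

theorem exists_char {G kb : Type*} [Group G] [TopologicalSpace G] [IsTopologicalGroup G]
    [CompactSpace G] [TotallyDisconnectedSpace G] [T2Space G] [Field kb] [IsAlgClosed kb]
    [CharZero kb]
    (N : Subgroup G) [N.Normal] (hN : IsClosed (N : Set G)) {n : ℕ} (g : G) (hg : g ∈ N)
    (hng : ¬ ∃ y ∈ N, ∃ z ∈ (⁅N, N⁆ : Subgroup G).topologicalClosure, g = y ^ n * z) :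
    ∃ χ : N →* kbˣ, χ ⟨g, hg⟩ ≠ 1 ∧ (∀ y, χ y ^ n = 1) ∧
      {x : G | ∀ hx : x ∈ N, χ ⟨x, hx⟩ = 1} ∈ nhds (1 : G) := by
  classical
  let D : Subgroup G := (⁅N, N⁆ : Subgroup G).topologicalClosure
  have hDn : D.Normal := Subgroup.is_normal_topologicalClosure _
  have hDc : IsClosed (D : Set G) := Subgroup.isClosed_topologicalClosure _
  have hDN : D ≤ N := Subgroup.topologicalClosure_minimal _ (Subgroup.commutator_le_right _ _) hN
  have hcomm : ∀ x ∈ N, ∀ y ∈ N, ⁅x, y⁆ ∈ D := fun x hx y hy =>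
    Subgroup.le_topologicalClosure _ (Subgroup.commutator_mem_commutator hx hy)
  let q := QuotientGroup.mk' D
  have hq : ∀ x, q x = 1 ↔ x ∈ D := fun x => QuotientGroup.eq_one_iff x
  have hqc : ∀ x ∈ N, ∀ y ∈ N, Commute (q x) (q y) := by
    intro x hx y hy
    rw [← commutatorElement_eq_one_iff_commute, ← map_commutatorElement, hq]
    exact hcomm x hx y hy
  let W : Subgroup G :=
    { carrier := {x | ∃ y ∈ N, q x = q y ^ n}
      one_mem' := ⟨1, one_mem _, by rw [map_one, one_pow]⟩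
      mul_mem' := by
        rintro a b ⟨y, hy, h⟩ ⟨y', hy', h'⟩
        exact ⟨y * y', mul_mem hy hy', by rw [map_mul, map_mul, h, h', (hqc y hy y' hy').mul_pow]⟩
      inv_mem' := by
        rintro a ⟨y, hy, h⟩
        exact ⟨y⁻¹, inv_mem hy, by rw [map_inv, h, map_inv, inv_pow]⟩ }
  have hWmem : ∀ {x}, x ∈ W ↔ ∃ y ∈ N, ∃ z ∈ D, x = y ^ n * z := by
    intro x
    constructor
    · rintro ⟨y, hy, h⟩
      refine ⟨y, hy, (y ^ n)⁻¹ * x, ?_, by rw [mul_inv_cancel_left]⟩
      rw [← hq, map_mul, map_inv, map_pow, h, inv_mul_cancel]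
    · rintro ⟨y, hy, z, hz, rfl⟩
      refine ⟨y, hy, ?_⟩
      rw [map_mul, map_pow, (hq z).mpr hz, mul_one]
  have hDW : D ≤ W := fun z hz => hWmem.mpr ⟨1, one_mem _, z, hz, by rw [one_pow, one_mul]⟩
  have hpowW : ∀ y ∈ N, y ^ n ∈ W := fun y hy => hWmem.mpr ⟨y, hy, 1, one_mem _, by rw [mul_one]⟩
  have hWc : IsClosed (W : Set G) := by
    have h1 : (W : Set G) = (fun p : G × G => p.1 ^ n * p.2) '' ((N : Set G) ×ˢ (D : Set G)) := by
      ext x
      rw [SetLike.mem_coe, hWmem]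
      constructor
      · rintro ⟨y, hy, z, hz, rfl⟩
        exact ⟨(y, z), ⟨hy, hz⟩, rfl⟩
      · rintro ⟨⟨y, z⟩, ⟨hy, hz⟩, rfl⟩
        exact ⟨y, hy, z, hz, rfl⟩
    rw [h1]
    exact ((hN.isCompact.prod hDc.isCompact).image (by fun_prop)).isClosed
  have hgW : g ∉ W := fun h => hng (hWmem.mp h)
  have hopen : IsOpen {x : G | g * x ∉ W} :=
    hWc.isOpen_compl.preimage (by fun_prop : Continuous fun x : G => g * x)
  obtain ⟨O, hO⟩ := ProfiniteGrp.exist_openNormalSubgroup_sub_open_nhds_of_one hopen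
    (by rw [Set.mem_setOf_eq, mul_one]; exact hgW)
  let O' : Subgroup G := O.1.1
  have hO'n : O'.Normal := O.isNormal'
  have hO'o : IsOpen (O' : Set G) := O.1.2
  have hgWO : g ∉ W ⊔ O' := by
    intro h
    obtain ⟨w, hw, o, ho, rfl⟩ := Subgroup.mem_sup_of_normal_right.mp h
    have h1 : w * o * o⁻¹ ∉ W := hO (inv_mem ho : o⁻¹ ∈ O')
    exact h1 (by rw [mul_inv_cancel_right]; exact hw)
  let W' : Subgroup N := (W ⊔ O').subgroupOf N
  have hW'mem : ∀ {x : N}, x ∈ W' ↔ (x : G) ∈ W ⊔ O' := Subgroup.mem_subgroupOf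
  have hcommW' : ∀ x y : N, ⁅x, y⁆ ∈ W' := by
    intro x y
    rw [hW'mem]
    exact Subgroup.mem_sup_left (hDW (hcomm x x.2 y y.2))
  have hW'n : W'.Normal := by
    refine ⟨fun w hw x => ?_⟩
    have h1 : x * w * x⁻¹ = ⁅x, w⁆ * w := by rw [commutatorElement_def]; group
    rw [h1]
    exact mul_mem (hcommW' x w) hw
  let _ : CommGroup (N ⧸ W') :=
    { (inferInstance : Group (N ⧸ W')) with
      mul_comm := by
        intro a b
        obtain ⟨a, rfl⟩ := QuotientGroup.mk_surjective a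
        obtain ⟨b, rfl⟩ := QuotientGroup.mk_surjective b
        have h1 : Commute (QuotientGroup.mk' W' a) (QuotientGroup.mk' W' b) := by
          rw [← commutatorElement_eq_one_iff_commute, ← map_commutatorElement]
          exact (QuotientGroup.eq_one_iff _).mpr (hcommW' a b)
        exact h1 }
  have hNcomp : CompactSpace N := isCompact_iff_compactSpace.mp hN.isCompact
  have hW'o : IsOpen (W' : Set N) := by
    have h1 : O'.subgroupOf N ≤ W' := fun x hx => Subgroup.mem_sup_right (Subgroup.mem_subgroupOf.mp hx)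
    refine Subgroup.isOpen_mono h1 ?_
    exact hO'o.preimage continuous_subtype_val
  have hfin : Finite (N ⧸ W') := Subgroup.quotient_finite_of_isOpen W' hW'o
  have hexp : NeZero ((Monoid.exponent (N ⧸ W') : ℕ) : kb) :=
    ⟨Nat.cast_ne_zero.mpr Monoid.exponent_ne_zero_of_finite⟩
  have hne : (QuotientGroup.mk' W' ⟨g, hg⟩ : N ⧸ W') ≠ 1 := by
    intro h
    exact hgWO (hW'mem.mp ((QuotientGroup.eq_one_iff _).mp h))
  obtain ⟨φ, hφ⟩ := CommGroup.exists_apply_ne_one_of_hasEnoughRootsOfUnity (N ⧸ W') kb hne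
  refine ⟨φ.comp (QuotientGroup.mk' W'), hφ, fun y => ?_, ?_⟩
  · rw [← map_pow, MonoidHom.comp_apply]
    have : QuotientGroup.mk' W' (y ^ n) = 1 :=
      (QuotientGroup.eq_one_iff _).mpr (Subgroup.mem_sup_left (hpowW y y.2))
    rw [this, map_one]
  · refine Filter.mem_of_superset (hO'o.mem_nhds (one_mem _)) ?_
    intro x hx hxN
    have : QuotientGroup.mk' W' ⟨x, hxN⟩ = 1 :=
      (QuotientGroup.eq_one_iff _).mpr (Subgroup.mem_sup_right hx)
    rw [MonoidHom.comp_apply, this, map_one]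

end Pool.Agent.Lib.MP_2f3286_ag
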