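import Mathlib

/-!
# The points of the integral closure in a profinite Galois extension
-/

open scoped Pointwise

namespace Pool.Agent.Lib.MP_2f3286_ag

section

variable {R K M : Type*} [CommRing R] [Field K] [Field M] [Algebra R K] [Algebra K M] [Algebra R M]
  [IsScalarTower R K M]

/-- The action of an automorphism on the integral closure. -/
def actHom (R : Type*) {K M : Type*} [CommRing R] [Field K] [Field M] [Algebra R K] [Algebra K M]
    [Algebra R M] [IsScalarTower R K M] (g : Gal(M/K)) :
    integralClosure R M →+* integralClosure R M where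
  toFun b := ⟨g b, b.2.map ((g.toAlgHom.restrictScalars R : M →ₐ[R] M))⟩
  map_one' := Subtype.ext (map_one g)
  map_mul' _ _ := Subtype.ext (map_mul g _ _)
  map_zero' := Subtype.ext (map_zero g)
  map_add' _ _ := Subtype.ext (map_add g _ _)

@[simp] theorem actHom_coe (g : Gal(M/K)) (b : integralClosure R M) :
    ((actHom R g b : integralClosure R M) : M) = g b := rfl

theorem actHom_one (b : integralClosure R M) : actHom R (1 : Gal(M/K)) b = b := Subtype.ext rfl

theorem actHom_mul (g h : Gal(M/K)) (b : integralClosure R M) :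
    actHom R (g * h) b = actHom R g (actHom R h b) := Subtype.ext rfl

theorem actHom_alg (g : Gal(M/K)) (r : R) :
    actHom R g (algebraMap R (integralClosure R M) r) = algebraMap R _ r := by
  apply Subtype.ext
  change g (algebraMap R M r) = algebraMap R M r
  rw [IsScalarTower.algebraMap_apply R K M, AlgEquiv.commutes]

variable [IsGalois K M] (hRn : ∀ x : K, IsIntegral R x → ∃ r : R, algebraMap R K r = x)
  {k kb : Type*} [Field k] [Field kb] [Algebra k kb] [IsGalois k kb] [IsAlgClosed kb]
  [Algebra kb M]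

include hRn in
/-- Transitivity on primes and surjectivity of the decomposition group. -/
theorem points_aux (Ψ Ψ' : integralClosure R M →+* kb) (hΨ : Function.Surjective Ψ)
    (θ : R → k) (hθ : ∀ r, Ψ (algebraMap R _ r) = algebraMap k kb (θ r))
    (hθ' : ∀ r, Ψ' (algebraMap R _ r) = algebraMap k kb (θ r)) :
    (∀ σ : Gal(kb/k), ∃ g : Gal(M/K), ∀ b, Ψ (actHom R g b) = σ (Ψ b)) ∧
    ∃ g : Gal(M/K), ∀ b, Ψ' b = 0 ↔ Ψ (actHom R g b) = 0 := by
  let actB : MulSemiringAction Gal(M/K) (integralClosure R M) :=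
    { smul := fun g b => actHom R g b
      one_smul := actHom_one
      mul_smul := actHom_mul
      smul_zero := fun g => map_zero _
      smul_add := fun g _ _ => map_add _ _ _
      smul_one := fun g => map_one _
      smul_mul := fun g _ _ => map_mul _ _ _ }
  let _ : TopologicalSpace (integralClosure R M) := ⊥
  have _ : DiscreteTopology (integralClosure R M) := ⟨rfl⟩
  have _ : SMulCommClass Gal(M/K) R (integralClosure R M) := ⟨fun g r b => by
    change actHom R g (r • b) = r • actHom R g b
    rw [Algebra.smul_def, Algebra.smul_def, map_mul, actHom_alg]⟩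
  have _ : ContinuousSMul Gal(M/K) (integralClosure R M) := by
    refine (continuousSMul_iff_stabilizer_isOpen (M := Gal(M/K)) (X := integralClosure R M)).mpr ?_
    intro b
    have h1 := stabilizer_isOpen_of_isIntegral (K := K) (b : M)
    convert h1 using 1
    ext g
    constructor
    · intro h
      exact congrArg Subtype.val h
    · intro h
      exact Subtype.ext h
  have _ : Algebra.IsInvariant R (integralClosure R M) Gal(M/K) := ⟨fun b hb => by
    have h1 : (b : M) ∈ Set.range (algebraMap K M) := by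
      rw [InfiniteGalois.mem_range_algebraMap_iff_fixed]
      exact fun g => congrArg Subtype.val (hb g)
    obtain ⟨x, hx⟩ := h1
    have h2 : IsIntegral R x := by
      rw [← isIntegral_algebraMap_iff (algebraMap K M).injective, hx]
      exact b.2
    obtain ⟨r, hr⟩ := hRn x h2
    refine ⟨r, Subtype.ext ?_⟩
    rw [← hx, ← hr]
    exact IsScalarTower.algebraMap_apply R K M r⟩
  have hprime : (RingHom.ker Ψ).IsPrime := RingHom.ker_isPrime Ψ
  have hprime' : (RingHom.ker Ψ').IsPrime := RingHom.ker_isPrime Ψ'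
  have hunder : (RingHom.ker Ψ).under R = (RingHom.ker Ψ').under R := by
    ext r
    change Ψ (algebraMap R _ r) = 0 ↔ Ψ' (algebraMap R _ r) = 0
    rw [hθ, hθ']
  constructor
  · intro σ
    let e : (integralClosure R M ⧸ RingHom.ker Ψ) ≃+* kb :=
      RingHom.quotientKerEquivOfSurjective hΨ
    have he : ∀ b, e (Ideal.Quotient.mk _ b) = Ψ b := fun b => rfl
    let P : Ideal R := (RingHom.ker Ψ).under R
    have _ : (RingHom.ker Ψ).LiesOver P := ⟨rfl⟩
    let σ' : (integralClosure R M ⧸ RingHom.ker Ψ) ≃ₐ[R ⧸ P] (integralClosure R M ⧸ RingHom.ker Ψ) :=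
      { (e.trans (σ : kb ≃+* kb)).trans e.symm with
        commutes' := by
          intro r
          obtain ⟨r, rfl⟩ := Ideal.Quotient.mk_surjective r
          change e.symm (σ (e (algebraMap _ _ (Ideal.Quotient.mk P r)))) = _
          rw [RingEquiv.symm_apply_eq]
          change σ (Ψ (algebraMap R _ r)) = Ψ (algebraMap R _ r)
          rw [hθ, AlgEquiv.commutes] }
    obtain ⟨g, hg⟩ := Ideal.Quotient.stabilizerHom_surjective_of_profinite (G := Gal(M/K)) P
      (RingHom.ker Ψ) σ'
    refine ⟨g.1, fun b => ?_⟩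
    have h1 := congrArg (fun f => f (Ideal.Quotient.mk _ b)) hg
    have h2 : (Ideal.Quotient.mk (RingHom.ker Ψ) (actHom R g.1 b)) = e.symm (σ (Ψ b)) := h1
    rw [RingEquiv.eq_symm_apply] at h2
    exact h2
  · obtain ⟨g, hg⟩ := Algebra.IsInvariant.exists_smul_of_under_eq_of_profinite (A := R)
      (G := Gal(M/K)) (RingHom.ker Ψ) (RingHom.ker Ψ') hunder
    refine ⟨g⁻¹, fun b => ?_⟩
    have h1 : b ∈ RingHom.ker Ψ' ↔ b ∈ g • RingHom.ker Ψ := by rw [hg]
    rw [RingHom.mem_ker, Ideal.mem_pointwise_smul_iff_inv_smul_mem, RingHom.mem_ker] at h1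
    exact h1

include hRn in
/-- The group of automorphisms over `kb` acts transitively on the `kb`-points over a point. -/
theorem points_trans [Algebra k M] [Algebra k K] [IsScalarTower k K M] [IsScalarTower k kb M]
    (hBk : ∀ a : kb, IsIntegral R (algebraMap kb M a))
    (Ψ Ψ' : integralClosure R M →+* kb)
    (hΨ : ∀ a : kb, Ψ ⟨algebraMap kb M a, hBk a⟩ = a)
    (hΨ' : ∀ a : kb, Ψ' ⟨algebraMap kb M a, hBk a⟩ = a)
    (θ : R → k) (hθ : ∀ r, Ψ (algebraMap R _ r) = algebraMap k kb (θ r))
    (hθ' : ∀ r, Ψ' (algebraMap R _ r) = algebraMap k kb (θ r))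
    (hkR : ∀ a : k, ∃ r : R, algebraMap R M r = algebraMap k M a) :
    ∃ g : Gal(M/K), (∀ a : kb, g (algebraMap kb M a) = algebraMap kb M a) ∧
      ∀ b, Ψ' b = Ψ (actHom R g b) := by
  have hsurj : Function.Surjective Ψ := fun a => ⟨_, hΨ a⟩
  obtain ⟨h1, g, hg⟩ := points_aux hRn Ψ Ψ' hsurj θ hθ hθ'
  -- the automorphism of `kb`
  have hτ : ∃ τ : Gal(kb/k), ∀ b, Ψ (actHom R g b) = τ (Ψ' b) := by
    let F : kb → kb := fun a => Ψ (actHom R g ⟨algebraMap kb M a, hBk a⟩)
    have hF : ∀ b, F (Ψ' b) = Ψ (actHom R g b) := by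
      intro b
      have h2 : Ψ' (⟨algebraMap kb M (Ψ' b), hBk _⟩ - b) = 0 := by
        rw [map_sub, hΨ', sub_self]
      rw [hg, map_sub, map_sub, sub_eq_zero] at h2
      exact h2
    have hFinj : ∀ a a', F a = F a' → a = a' := by
      intro a a' h
      have h2 : Ψ (actHom R g (⟨algebraMap kb M a, hBk a⟩ - ⟨algebraMap kb M a', hBk a'⟩)) = 0 := by
        rw [map_sub, map_sub]
        exact sub_eq_zero.mpr h
      rw [← hg, map_sub, hΨ', hΨ', sub_eq_zero] at h2
      exact h2
    have hFk : ∀ a : k, F (algebraMap k kb a) = algebraMap k kb a := by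
      intro a
      obtain ⟨r, hr⟩ := hkR a
      have h2 : (⟨algebraMap kb M (algebraMap k kb a), hBk _⟩ : integralClosure R M) =
          algebraMap R _ r := by
        apply Subtype.ext
        change algebraMap kb M (algebraMap k kb a) = algebraMap R M r
        rw [hr, ← IsScalarTower.algebraMap_apply]
      change Ψ (actHom R g ⟨algebraMap kb M (algebraMap k kb a), hBk _⟩) = _
      rw [h2, actHom_alg, ← h2, hΨ]
    let F' : kb →ₐ[k] kb :=
      { toFun := F
        map_one' := by rw [← map_one Ψ', hF, map_one, map_one]; exact (map_one Ψ').symm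
        map_mul' := fun a a' => by
          have h2 : F (Ψ' (⟨algebraMap kb M a, hBk a⟩ * ⟨algebraMap kb M a', hBk a'⟩)) =
            F (Ψ' ⟨algebraMap kb M a, hBk a⟩) * F (Ψ' ⟨algebraMap kb M a', hBk a'⟩) := by
              rw [hF, hF, hF, map_mul, map_mul]
          rw [map_mul, hΨ', hΨ'] at h2
          exact h2
        map_zero' := by
          have h2 := hF 0
          rw [map_zero, map_zero, map_zero] at h2
          exact h2
        map_add' := fun a a' => by
          have h2 : F (Ψ' (⟨algebraMap kb M a, hBk a⟩ + ⟨algebraMap kb M a', hBk a'⟩)) =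
            F (Ψ' ⟨algebraMap kb M a, hBk a⟩) + F (Ψ' ⟨algebraMap kb M a', hBk a'⟩) := by
              rw [hF, hF, hF, map_add, map_add]
          rw [map_add, hΨ', hΨ'] at h2
          exact h2
        commutes' := hFk }
    have hbij : Function.Bijective F' := Algebra.IsAlgebraic.algHom_bijective F'
    exact ⟨AlgEquiv.ofBijective F' hbij, fun b => (hF b).symm⟩
  obtain ⟨τ, hτ⟩ := hτ
  obtain ⟨t, ht⟩ := h1 τ⁻¹
  have hfin : ∀ b, Ψ' b = Ψ (actHom R (t * g) b) := by
    intro b
    rw [actHom_mul, ht, hτ]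
    exact (τ.symm_apply_apply _).symm
  refine ⟨t * g, fun a => ?_, hfin⟩
  -- `t * g` preserves `kb`
  have hmem : ∃ a' : kb, (t * g) (algebraMap kb M a) = algebraMap kb M a' := by
    have h2 : IsIntegral k a := Algebra.IsIntegral.isIntegral a
    have h3 : Polynomial.aeval ((t * g) (algebraMap kb M a)) (minpoly k a) = 0 := by
      have h4 : ((t * g : Gal(M/K)).toAlgHom.restrictScalars k : M →ₐ[k] M) (algebraMap kb M a) =
        (t * g) (algebraMap kb M a) := rfl
      rw [← h4, Polynomial.aeval_algHom_apply, Polynomial.aeval_algebraMap_apply, minpoly.aeval,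
        map_zero, map_zero]
    have h5 : (((minpoly k a).map (algebraMap k kb)).map (algebraMap kb M)).IsRoot
        ((t * g) (algebraMap kb M a)) := by
      rw [Polynomial.map_map, ← IsScalarTower.algebraMap_eq, Polynomial.IsRoot,
        Polynomial.eval_map_algebraMap]
      exact h3
    have h0 : (minpoly k a).map (algebraMap k kb) ≠ 0 := by
      rw [Polynomial.map_ne_zero_iff (algebraMap k kb).injective]
      exact minpoly.ne_zero h2
    obtain ⟨r', hr'⟩ := (IsAlgClosed.splits ((minpoly k a).map (algebraMap k kb))).mem_range_of_isRoot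
      h0 h5
    exact ⟨r', hr'.symm⟩
  obtain ⟨a', ha'⟩ := hmem
  have h6 := hfin ⟨algebraMap kb M a, hBk a⟩
  have h7 : actHom R (t * g) ⟨algebraMap kb M a, hBk a⟩ = ⟨algebraMap kb M a', hBk a'⟩ :=
    Subtype.ext ha'
  rw [h7, hΨ, hΨ'] at h6
  rw [ha', h6]

end

end Pool.Agent.Lib.MP_2f3286_ag
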