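import Mathlib

/-!
# Torsion-free nilpotent compact groups and endomorphisms acting as a power on the abelianisation
-/

open Subgroup
open scoped commutatorElement

namespace Pool.Agent.Lib.MP_2f3286_ag

section pure

variable {G : Type*} [Group G]

/-- the centre of a torsion-free nilpotent group is isolated -/
theorem mem_center_of_pow_mem (htf : ∀ (x : G) (n : ℕ), 1 ≤ n → x ^ n = 1 → x = 1)
    [Group.IsNilpotent G] {x : G} {n : ℕ} (hn : 1 ≤ n) (hx : x ^ n ∈ center G) : x ∈ center G := by
  obtain ⟨N, hN⟩ := Group.IsNilpotent.nilpotent G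
  have key : ∀ i, ∀ q ∈ Subgroup.upperCentralSeries G i, Commute x q := by
    intro i
    induction i with
    | zero =>
      intro q hq
      rw [Subgroup.upperCentralSeries_zero, mem_bot] at hq
      rw [hq]; exact Commute.one_right x
    | succ i ih =>
      intro q hq
      have h1 := Subgroup.mem_upperCentralSeries_succ_iff.mp hq x
      have h2 := ih _ h1
      have h3 : q * x * q⁻¹ = ⁅q, x⁆ * x := by rw [commutatorElement_def]; group
      have h4 : (q * x * q⁻¹) ^ n = x ^ n := by
        rw [conj_pow]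
        have := mem_center_iff.mp hx q
        rw [this, mul_inv_cancel_right]
      rw [h3, (h2.symm).mul_pow] at h4
      have h5 : ⁅q, x⁆ ^ n = 1 := by
        exact mul_eq_right.mp h4
      have h6 := htf _ n hn h5
      rw [commutatorElement_eq_one_iff_commute] at h6
      exact h6.symm
  rw [mem_center_iff]
  intro g
  have := key N g (by rw [hN]; exact mem_top g)
  exact this.symm.eq

theorem comm_mul_left {a b q : G} (hb : ⁅b, q⁆ ∈ center G) : ⁅a * b, q⁆ = ⁅a, q⁆ * ⁅b, q⁆ := by
  have h1 : ⁅a * b, q⁆ = a * ⁅b, q⁆ * (q * a⁻¹ * q⁻¹) := by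
    rw [commutatorElement_def, commutatorElement_def]; group
  rw [h1, mem_center_iff.mp hb a, mul_assoc, ← mem_center_iff.mp hb, commutatorElement_def a q]
  group

theorem comm_mul_right {a p q : G} (hq : ⁅a, q⁆ ∈ center G) : ⁅a, p * q⁆ = ⁅a, p⁆ * ⁅a, q⁆ := by
  have h1 : ⁅a, p * q⁆ = a * p * a⁻¹ * (⁅a, q⁆ * p⁻¹) := by
    rw [commutatorElement_def, commutatorElement_def]; group
  rw [h1, ← mem_center_iff.mp hq, commutatorElement_def a p]
  group

theorem comm_pow_left {a q : G} (h : ⁅a, q⁆ ∈ center G) (n : ℕ) : ⁅a ^ n, q⁆ = ⁅a, q⁆ ^ n := by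
  induction n with
  | zero => simp
  | succ n ih => rw [pow_succ, comm_mul_left h, ih, pow_succ]

theorem comm_pow_right {a q : G} (h : ⁅a, q⁆ ∈ center G) (n : ℕ) : ⁅a, q ^ n⁆ = ⁅a, q⁆ ^ n := by
  induction n with
  | zero => simp
  | succ n ih => rw [pow_succ, comm_mul_right h, ih, pow_succ]

end pure

section top

variable {Q : Type*} [Group Q] [TopologicalSpace Q] [IsTopologicalGroup Q]

/-- closed lower central series -/
def cl (Q : Type*) [Group Q] [TopologicalSpace Q] [IsTopologicalGroup Q] (i : ℕ) : Subgroup Q :=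
  (Subgroup.lowerCentralSeries (⊤ : Subgroup Q) i).topologicalClosure

instance cl_normal (i : ℕ) : (cl Q i).Normal := by
  unfold cl
  exact Subgroup.is_normal_topologicalClosure _

theorem cl_closed (i : ℕ) : IsClosed (cl Q i : Set Q) := isClosed_topologicalClosure _

theorem cl_zero : cl Q 0 = ⊤ := by
  rw [eq_top_iff]
  exact le_topologicalClosure _

theorem lcs_le_cl (i : ℕ) : Subgroup.lowerCentralSeries (⊤ : Subgroup Q) i ≤ cl Q i := le_topologicalClosure _

theorem comm_mem_cl {i : ℕ} {x : Q} (hx : x ∈ cl Q i) (q : Q) : ⁅x, q⁆ ∈ cl Q (i + 1) := by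
  have hc : Continuous fun x : Q => ⁅x, q⁆ := by
    simp only [commutatorElement_def]; fun_prop
  have h1 : (cl Q i : Set Q) ⊆ (fun x : Q => ⁅x, q⁆) ⁻¹' (cl Q (i + 1)) := by
    refine closure_minimal ?_ ((cl_closed (i + 1)).preimage hc)
    intro y hy
    exact lcs_le_cl (i + 1) (commutator_mem_commutator hy (mem_top q))
  exact h1 hx

theorem cl_succ_le (i : ℕ) : cl Q (i + 1) ≤ cl Q i :=
  topologicalClosure_mono (Subgroup.lowerCentralSeries_antitone _ (Nat.le_succ i))

/-- the image of `cl (i+1)` is central modulo `cl (i+2)` -/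
theorem mk_mem_center {i : ℕ} {x : Q} (hx : x ∈ cl Q i) :
    (QuotientGroup.mk x : Q ⧸ cl Q (i + 1)) ∈ center (Q ⧸ cl Q (i + 1)) := by
  rw [mem_center_iff]
  intro g
  obtain ⟨g, rfl⟩ := QuotientGroup.mk_surjective g
  rw [← commutatorElement_eq_one_iff_mul_comm]
  have h1 : ⁅(QuotientGroup.mk g : Q ⧸ cl Q (i + 1)), (QuotientGroup.mk x : Q ⧸ cl Q (i + 1))⁆ =
      QuotientGroup.mk ⁅g, x⁆ := rfl
  rw [h1, QuotientGroup.eq_one_iff, ← commutatorElement_inv]
  exact (cl Q (i + 1)).inv_mem (comm_mem_cl hx g)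

variable [CompactSpace Q] [T2Space Q]

/-- An endomorphism acting as `x ↦ x ^ j` modulo `n` on the abelianisation acts as `x ↦ x ^ j^(i+1)`
modulo `n` on the `i`-th graded piece of the closed lower central series. -/
theorem graded (r : Q →* Q) (hr : Continuous r) (n j : ℕ)
    (h0 : ∀ x : Q, ∃ y : Q, ∃ z ∈ cl Q 1, r x = x ^ j * y ^ n * z) (i : ℕ) :
    ∀ x ∈ cl Q i, ∃ y ∈ cl Q i, ∃ z ∈ cl Q (i + 1), r x = x ^ (j ^ (i + 1)) * y ^ n * z := by
  induction i with
  | zero =>
    intro x _
    obtain ⟨y, z, hz, h⟩ := h0 x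
    exact ⟨y, by rw [cl_zero]; exact mem_top y, z, hz, by rw [zero_add, pow_one]; exact h⟩
  | succ i ih =>
    have hcl : IsClosed (cl Q (i + 2) : Set Q) := cl_closed _
    have : T3Space (Q ⧸ cl Q (i + 2)) := inferInstance
    let π : Q →* Q ⧸ cl Q (i + 2) := QuotientGroup.mk' _
    have hπ : Continuous π := QuotientGroup.continuous_mk
    have hπ1 : ∀ x : Q, π x = 1 ↔ x ∈ cl Q (i + 2) := fun x => QuotientGroup.eq_one_iff x
    have hcen : ∀ x ∈ cl Q (i + 1), π x ∈ center (Q ⧸ cl Q (i + 2)) := fun x hx => mk_mem_center hx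
    have hcomm : ∀ x q : Q, π ⁅x, q⁆ = ⁅π x, π q⁆ := fun x q => map_commutatorElement π x q
    have hcen' : ∀ x ∈ cl Q i, ∀ q, ⁅π x, π q⁆ ∈ center (Q ⧸ cl Q (i + 2)) := by
      intro x hx q
      rw [← hcomm]; exact hcen _ (comm_mem_cl hx q)
    -- the target relation as a closed subgroup
    let J := j ^ (i + 1 + 1)
    let T : Subgroup Q :=
      { carrier := {x | x ∈ cl Q (i + 1) ∧ ∃ y ∈ cl Q (i + 1), π (r x) = π x ^ J * π y ^ n}
        one_mem' := ⟨one_mem _, 1, one_mem _, by simp⟩
        mul_mem' := by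
          rintro a b ⟨ha, y, hy, hay⟩ ⟨hb, z, hz, hbz⟩
          refine ⟨mul_mem ha hb, y * z, mul_mem hy hz, ?_⟩
          have c1 : Commute (π a) (π b) := (mem_center_iff.mp (hcen b hb) (π a))
          have c2 : Commute (π y) (π z) := (mem_center_iff.mp (hcen z hz) (π y))
          have c3 : Commute (π y ^ n) (π b ^ J) := by
            have : Commute (π y) (π b) := (mem_center_iff.mp (hcen b hb) (π y))
            exact this.pow_pow n J
          rw [map_mul, map_mul, hay, hbz, map_mul, map_mul, c1.mul_pow, c2.mul_pow]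
          rw [mul_assoc, ← mul_assoc (π y ^ n), c3.eq]
          simp only [mul_assoc]
        inv_mem' := by
          rintro a ⟨ha, y, hy, hay⟩
          refine ⟨inv_mem ha, y⁻¹, inv_mem hy, ?_⟩
          have c3 : Commute (π a ^ J) (π y ^ n) := by
            have : Commute (π a) (π y) := (mem_center_iff.mp (hcen y hy) (π a))
            exact this.pow_pow J n
          rw [map_inv, map_inv, hay, c3.mul_inv, map_inv, map_inv, inv_pow, inv_pow] }
    have hT : IsClosed (T : Set Q) := by
      have hC : IsClosed ((fun y => π y ^ n) '' (cl Q (i + 1) : Set Q)) :=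
        (((cl_closed (i + 1)).isCompact).image (by fun_prop)).isClosed
      have h1 : (T : Set Q) = (cl Q (i + 1) : Set Q) ∩
          (fun x => (π x ^ J)⁻¹ * π (r x)) ⁻¹' ((fun y => π y ^ n) '' (cl Q (i + 1) : Set Q)) := by
        ext x
        constructor
        · rintro ⟨hx, y, hy, h⟩
          exact ⟨hx, y, hy, by change π y ^ n = (π x ^ J)⁻¹ * π (r x); rw [h, inv_mul_cancel_left]⟩
        · rintro ⟨hx, y, hy, h⟩
          refine ⟨hx, y, hy, ?_⟩
          change π y ^ n = (π x ^ J)⁻¹ * π (r x) at h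
          rw [h, mul_inv_cancel_left]
      rw [h1]
      exact (cl_closed _).inter (hC.preimage (by fun_prop))
    have hle : Subgroup.lowerCentralSeries (⊤ : Subgroup Q) (i + 1) ≤ T := by
      rw [Subgroup.lowerCentralSeries_succ, commutator_le]
      intro x hx q _
      have hx' := lcs_le_cl i hx
      refine ⟨comm_mem_cl hx' q, ?_⟩
      obtain ⟨y, hy, z, hz, hxyz⟩ := ih x hx'
      obtain ⟨y1, z1, hz1, hq⟩ := h0 q
      -- `[x, ·]` kills `cl 1`
      have hkill : ∀ z1 ∈ cl Q 1, ⁅π x, π z1⁆ = 1 := by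
        have hsub : (cl Q 1 : Set Q) ⊆ {q : Q | ⁅π x, π q⁆ = 1} := by
          refine closure_minimal ?_ ?_
          · intro q hq
            let β : Q →* Q ⧸ cl Q (i + 2) :=
              { toFun := fun q => ⁅π x, π q⁆
                map_one' := by simp
                map_mul' := fun a b => by
                  rw [map_mul]
                  exact comm_mul_right (hcen' x hx' b) }
            have h2 : Subgroup.lowerCentralSeries (⊤ : Subgroup Q) 1 ≤ β.ker := by
              rw [Subgroup.lowerCentralSeries_succ, commutator_le]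
              intro a _ b _
              rw [MonoidHom.mem_ker, map_commutatorElement, commutatorElement_eq_one_iff_commute]
              exact mem_center_iff.mp (hcen' x hx' b) _
            exact h2 hq
          · have hc : Continuous fun q : Q => ⁅π x, π q⁆ := by
              simp only [commutatorElement_def]; fun_prop
            exact isClosed_eq hc continuous_const
        exact fun z1 hz1 => hsub hz1
      refine ⟨⁅x, y1⁆ ^ (j ^ (i + 1)) * ⁅y, r q⁆,
        mul_mem (pow_mem (comm_mem_cl hx' y1) _) (comm_mem_cl hy _), ?_⟩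
      have e1 : π (r ⁅x, q⁆) = ⁅π x ^ (j ^ (i + 1)) * π y ^ n * π z, π (r q)⁆ := by
        rw [map_commutatorElement, hcomm, hxyz]
        simp only [map_mul, map_pow]
      have hzc : ⁅π z, π (r q)⁆ = 1 := by
        rw [commutatorElement_eq_one_iff_commute]
        exact (mem_center_iff.mp (hcen z hz) (π (r q))).symm
      have hyc := hcen' y hy (r q)
      have hxc := hcen' x hx' (r q)
      have e2 : ⁅π x, π (r q)⁆ = ⁅π x, π q⁆ ^ j * ⁅π x, π y1⁆ ^ n := by
        rw [hq, map_mul, map_mul, map_pow, map_pow, comm_mul_right (by rw [hkill z1 hz1]; exact one_mem _),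
          hkill z1 hz1, mul_one, comm_mul_right, comm_pow_right (hcen' x hx' q),
          comm_pow_right (hcen' x hx' y1)]
        rw [comm_pow_right (hcen' x hx' y1)]
        exact pow_mem (hcen' x hx' y1) n
      rw [e1, comm_mul_left (by rw [hzc]; exact one_mem _), hzc, mul_one,
        comm_mul_left (by rw [comm_pow_left hyc]; exact pow_mem hyc n),
        comm_pow_left hxc, comm_pow_left hyc, e2, hcomm, map_mul, map_pow, hcomm, hcomm]
      have c1 : Commute (⁅π x, π q⁆ ^ j) (⁅π x, π y1⁆ ^ n) := by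
        have : Commute ⁅π x, π q⁆ ⁅π x, π y1⁆ := mem_center_iff.mp (hcen' x hx' y1) _
        exact this.pow_pow _ _
      have c2 : Commute (⁅π x, π y1⁆ ^ (j ^ (i + 1))) ⁅π y, π (r q)⁆ := by
        have : Commute ⁅π x, π y1⁆ ⁅π y, π (r q)⁆ := mem_center_iff.mp hyc _
        exact this.pow_left _
      rw [c1.mul_pow, c2.mul_pow, ← pow_mul, ← pow_mul, ← pow_mul, mul_assoc, mul_comm n,
        show j * j ^ (i + 1) = J by simp only [J]; ring]
    have hle' : cl Q (i + 1) ≤ T := topologicalClosure_minimal _ hle hT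
    intro x hx
    obtain ⟨-, y, hy, hxy⟩ := hle' hx
    refine ⟨y, hy, (x ^ (j ^ (i + 1 + 1)) * y ^ n)⁻¹ * r x, ?_, by rw [mul_inv_cancel_left]⟩
    rw [← hπ1, map_mul, map_inv, map_mul, map_pow, map_pow, hxy, inv_mul_cancel]

end top

end Pool.Agent.Lib.MP_2f3286_ag
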