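import Mathlib
import Pool.Agent.Lib.MP_2f3286_ag.AbStep
import Pool.Agent.Lib.MP_2f3286_ag.Nilp

/-!
# Locally trivial cocycles in torsion-free nilpotent profinite groups of Tate type are trivial
-/

open IsDedekindDomain NumberField Subgroup
open scoped commutatorElement

namespace Pool.Agent.Lib.MP_2f3286_ag

/-- The open normal subgroups form a basis of neighbourhoods of `1`. -/
def SmallNormal (Q : Type*) [Group Q] [TopologicalSpace Q] : Prop :=
  ∀ W ∈ nhds (1 : Q), ∃ U : Subgroup Q, U.Normal ∧ IsOpen (U : Set Q) ∧ (U : Set Q) ⊆ W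

section

variable {Q : Type*} [Group Q] [TopologicalSpace Q] [IsTopologicalGroup Q] [CompactSpace Q]
  [T2Space Q]

theorem eq_one_of_div (hSN : SmallNormal Q) {x : Q} (h : ∀ n : ℕ, 1 ≤ n → ∃ y, y ^ n = x) :
    x = 1 := by
  by_contra hx
  obtain ⟨U, hUn, hUo, hUW⟩ := hSN {x}ᶜ (isOpen_compl_singleton.mem_nhds (fun h => hx h.symm))
  have hfin : Finite (Q ⧸ U) := U.quotient_finite_of_isOpen hUo
  have hfi : U.FiniteIndex := Subgroup.finiteIndex_of_finite_quotient
  obtain ⟨y, hy⟩ := h U.index (Nat.one_le_iff_ne_zero.mpr hfi.index_ne_zero)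
  have h1 : x ∈ U := by rw [← hy]; exact U.pow_index_mem y
  exact hUW h1 rfl

theorem exists_sep (hSN : SmallNormal Q) (A : Subgroup Q) (hA : IsClosed (A : Set Q))
    (hAZ : A ≤ center Q) {n : ℕ} {x : Q} (hx : ¬ ∃ y ∈ A, y ^ n = x) :
    ∃ V : Subgroup Q, V.Normal ∧ IsOpen (V : Set Q) ∧ ∀ y ∈ A, ∀ v ∈ V, v * y ^ n ≠ x := by
  have hC : IsClosed ((fun y => y ^ n) '' (A : Set Q)) :=
    ((hA.isCompact).image (by fun_prop)).isClosed
  have hW : {q : Q | q⁻¹ * x ∉ (fun y => y ^ n) '' (A : Set Q)} ∈ nhds (1 : Q) := by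
    apply IsOpen.mem_nhds
    · exact (hC.isOpen_compl).preimage (by fun_prop : Continuous fun q : Q => q⁻¹ * x)
    · rintro ⟨y, hy, h⟩
      exact hx ⟨y, hy, by simpa using h⟩
  obtain ⟨V, hVn, hVo, hVW⟩ := hSN _ hW
  refine ⟨V, hVn, hVo, fun y hy v hv h => ?_⟩
  exact hVW hv ⟨y, hy, by rw [← h, inv_mul_cancel_left]⟩

end

universe u in
theorem nilp_step {k kb : Type*} [Field k] [NumberField k] [Field kb] [Algebra k kb]
    [IsGalois k kb] [IsAlgClosed kb] (S : Finset (HeightOneSpectrum (𝓞 k)))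
    (ι : ∀ v : {v : HeightOneSpectrum (𝓞 k) // v ∉ S},
      kb →ₐ[k] AlgebraicClosure (v.1.adicCompletion k))
    (H₀ : Subgroup Gal(kb/k)) [H₀.Normal] (hH₀ : IsOpen (H₀ : Set Gal(kb/k)))
    (v₀ : {v : HeightOneSpectrum (𝓞 k) // v ∉ S}) (w : ℕ) :
    ∀ (Q : Type u) [Group Q] [TopologicalSpace Q] [IsTopologicalGroup Q] [CompactSpace Q]
      [T2Space Q] (_ : SmallNormal Q) (_ : ∀ (x : Q) (n : ℕ), 1 ≤ n → x ^ n = 1 → x = 1)
      (_ : Subgroup.lowerCentralSeries (⊤ : Subgroup Q) w = ⊥)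
      (ρ : Gal(kb/k) →* Monoid.End Q) (_ : ∀ σ, Continuous fun x => ρ σ x)
      (c : Gal(kb/k) → Q) (_ : ∀ σ τ, c (σ * τ) = c σ * ρ σ (c τ)) (_ : ContinuousAt c 1)
      (_ : ∀ (n : ℕ), 1 ≤ n → ∀ σ ∈ H₀, ∀ j : ℕ, (∀ ζ : kb, ζ ^ n = 1 → σ ζ = ζ ^ j) →
        ∀ x : Q, ∃ y : Q, ∃ z ∈ cl Q 1, ρ σ x = x ^ j * y ^ n * z)
      (b : {v : HeightOneSpectrum (𝓞 k) // v ∉ S} → Q)
      (_ : ∀ v (σ : Gal(kb/k))
        (τ : Gal(AlgebraicClosure (v.1.adicCompletion k)/v.1.adicCompletion k)),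
        (∀ x, ι v (σ x) = τ (ι v x)) → c σ * ρ σ (b v) = b v)
      (_ : b v₀ = 1), (∀ v, b v = 1) ∧ ∀ σ, c σ = 1 := by
  classical
  induction w with
  | zero =>
    intro Q _ _ _ _ _ _ _ hnil ρ _ c _ _ _ b _ _
    have h1 : ∀ x : Q, x = 1 := by
      intro x
      have h2 : x ∈ Subgroup.lowerCentralSeries (⊤ : Subgroup Q) 0 := mem_top x
      rw [hnil] at h2
      exact h2
    exact ⟨fun v => h1 _, fun σ => h1 _⟩
  | succ w ih =>
    intro Q _ _ _ _ _ hSN htf hnil ρ hρ c hc hc1 hTate b hb hb0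
    have hnorm : H₀.Normal := inferInstance
    have hρ1 : ∀ x : Q, ρ 1 x = x := by intro x; rw [map_one]; rfl
    have hρmul : ∀ σ τ (x : Q), ρ (σ * τ) x = ρ σ (ρ τ x) := by intro σ τ x; rw [map_mul]; rfl
    have hρinv : ∀ σ (x : Q), ρ σ (ρ σ⁻¹ x) = x := by
      intro σ x; rw [← hρmul, mul_inv_cancel, hρ1]
    have hnilQ : Group.IsNilpotent Q := Subgroup.nilpotent_iff_lowerCentralSeries.mpr ⟨w + 1, hnil⟩
    have hcen : ∀ σ, ∀ a ∈ center Q, ρ σ a ∈ center Q := by
      intro σ a ha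
      rw [mem_center_iff]
      intro g
      have h1 := mem_center_iff.mp ha (ρ σ⁻¹ g)
      have h2 := congrArg (ρ σ) h1
      rwa [map_mul, map_mul, hρinv] at h2
    let Cp : ℕ → Gal(kb/k) → ℕ → Prop := fun n σ j => ∀ ζ : kb, ζ ^ n = 1 → σ ζ = ζ ^ j
    let A : Subgroup Q :=
      { carrier := {a | a ∈ center Q ∧ ∀ n : ℕ, 1 ≤ n → ∀ σ ∈ H₀, ∀ j : ℕ, Cp n σ j →
          ∃ y ∈ center Q, ρ σ a = a ^ (j ^ (w + 1)) * y ^ n}
        one_mem' := ⟨one_mem _, fun n hn σ hσ j hj => ⟨1, one_mem _, by simp⟩⟩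
        mul_mem' := by
          rintro a a' ⟨ha, ha1⟩ ⟨ha', ha1'⟩
          refine ⟨mul_mem ha ha', fun n hn σ hσ j hj => ?_⟩
          obtain ⟨y, hy, e1⟩ := ha1 n hn σ hσ j hj
          obtain ⟨y', hy', e2⟩ := ha1' n hn σ hσ j hj
          refine ⟨y * y', mul_mem hy hy', ?_⟩
          have c1 : Commute a a' := mem_center_iff.mp ha' a
          have c2 : Commute y y' := mem_center_iff.mp hy' y
          have c3 : Commute (y ^ n) (a' ^ (j ^ (w + 1))) := by
            have : Commute y a' := mem_center_iff.mp ha' y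
            exact this.pow_pow _ _
          rw [map_mul, e1, e2, c1.mul_pow, c2.mul_pow, mul_assoc, ← mul_assoc (y ^ n), c3.eq]
          simp only [mul_assoc]
        inv_mem' := by
          rintro a ⟨ha, ha1⟩
          refine ⟨inv_mem ha, fun n hn σ hσ j hj => ?_⟩
          obtain ⟨y, hy, e1⟩ := ha1 n hn σ hσ j hj
          refine ⟨y⁻¹, inv_mem hy, ?_⟩
          have c3 : Commute (a ^ (j ^ (w + 1))) (y ^ n) := by
            have : Commute a y := mem_center_iff.mp hy a
            exact this.pow_pow _ _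
          rw [map_inv, e1, c3.mul_inv, inv_pow, inv_pow] }
    have hAZ : A ≤ center Q := fun a ha => ha.1
    have hZcl : IsClosed (center Q : Set Q) := by
      have h1 : (center Q : Set Q) = ⋂ g : Q, {x | g * x = x * g} := by
        ext x
        simp only [SetLike.mem_coe, mem_center_iff, Set.mem_iInter, Set.mem_setOf_eq]
      rw [h1]
      exact isClosed_iInter fun g => isClosed_eq (by fun_prop) (by fun_prop)
    have hAcl : IsClosed (A : Set Q) := by
      have hC : ∀ n : ℕ, IsClosed ((fun y => y ^ n) '' (center Q : Set Q)) := fun n =>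
        ((hZcl.isCompact).image (by fun_prop)).isClosed
      have h1 : (A : Set Q) = (center Q : Set Q) ∩ ⋂ (n : ℕ) (_ : 1 ≤ n) (σ : Gal(kb/k))
          (_ : σ ∈ H₀) (j : ℕ) (_ : Cp n σ j),
          (fun x => (x ^ (j ^ (w + 1)))⁻¹ * ρ σ x) ⁻¹' ((fun y => y ^ n) '' (center Q : Set Q)) := by
        ext x
        simp only [Set.mem_inter_iff, Set.mem_iInter, Set.mem_preimage, Set.mem_image]
        constructor
        · rintro ⟨hx, h⟩
          refine ⟨hx, fun n hn σ hσ j hj => ?_⟩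
          obtain ⟨y, hy, e⟩ := h n hn σ hσ j hj
          exact ⟨y, hy, by rw [e, inv_mul_cancel_left]⟩
        · rintro ⟨hx, h⟩
          refine ⟨hx, fun n hn σ hσ j hj => ?_⟩
          obtain ⟨y, hy, e⟩ := h n hn σ hσ j hj
          exact ⟨y, hy, by rw [e, mul_inv_cancel_left]⟩
      rw [h1]
      refine hZcl.inter ?_
      refine isClosed_iInter fun n => isClosed_iInter fun _ => isClosed_iInter fun σ =>
        isClosed_iInter fun _ => isClosed_iInter fun j => isClosed_iInter fun _ => ?_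
      have := hρ σ
      exact (hC n).preimage (by fun_prop)
    have hAn : A.Normal := by
      refine ⟨fun a ha g => ?_⟩
      have := mem_center_iff.mp (hAZ ha) g
      rw [this, mul_inv_cancel_right]
      exact ha
    -- stability under all of the group
    have hAρ : ∀ g, ∀ a ∈ A, ρ g a ∈ A := by
      rintro g a ⟨ha, ha1⟩
      refine ⟨hcen g a ha, fun n hn σ hσ j hj => ?_⟩
      have h1 : g⁻¹ * σ * g ∈ H₀ := by
        have := hnorm.conj_mem σ hσ g⁻¹
        rwa [inv_inv] at this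
      have h2 : Cp n (g⁻¹ * σ * g) j := by
        intro ζ hζ
        change g⁻¹ (σ (g ζ)) = ζ ^ j
        rw [hj (g ζ) (by rw [← map_pow, hζ, map_one]), ← map_pow]
        exact g.symm_apply_apply _
      obtain ⟨y, hy, e⟩ := ha1 n hn _ h1 j h2
      refine ⟨ρ g y, hcen g y hy, ?_⟩
      have e' : ρ g (ρ (g⁻¹ * σ * g) a) = (ρ g a) ^ (j ^ (w + 1)) * (ρ g y) ^ n := by
        rw [e, map_mul (ρ g), map_pow (ρ g), map_pow (ρ g)]
      rw [← e', ← hρmul, ← hρmul]
      congr 2
      group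
    -- existence of exponents
    have hexj : ∀ n : ℕ, 1 ≤ n → ∀ σ : Gal(kb/k), ∃ j : ℕ, Cp n σ j := by
      intro n hn σ
      have hchar : CharZero kb := charZero_of_injective_algebraMap (algebraMap k kb).injective
      have hne : NeZero n := ⟨by omega⟩
      have hne' : NeZero (n : kb) := ⟨Nat.cast_ne_zero.mpr (by omega)⟩
      obtain ⟨ζ, hζ⟩ := HasEnoughRootsOfUnity.exists_primitiveRoot kb n
      have h1 : (σ ζ) ^ n = 1 := by rw [← map_pow, hζ.pow_eq_one, map_one]
      obtain ⟨j, -, hj⟩ := hζ.eq_pow_of_pow_eq_one h1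
      refine ⟨j, fun ξ hξ => ?_⟩
      obtain ⟨i, -, hi⟩ := hζ.eq_pow_of_pow_eq_one hξ
      rw [← hi, map_pow, ← hj, ← pow_mul, ← pow_mul, mul_comm]
    have hcong : ∀ n m : ℕ, 1 ≤ n → 1 ≤ m → ∀ σ : Gal(kb/k), ∀ j j' : ℕ, Cp n σ j → Cp (n * m) σ j' →
        (n : ℤ) ∣ (j' : ℤ) - j := by
      intro n m hn hm σ j j' hj hj'
      have hchar : CharZero kb := charZero_of_injective_algebraMap (algebraMap k kb).injective
      have hne : NeZero n := ⟨by omega⟩
      have hne' : NeZero (n : kb) := ⟨Nat.cast_ne_zero.mpr (by omega)⟩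
      obtain ⟨ζ, hζ⟩ := HasEnoughRootsOfUnity.exists_primitiveRoot kb n
      have h1 := hj ζ hζ.pow_eq_one
      have h2 := hj' ζ (by rw [pow_mul, hζ.pow_eq_one, one_pow])
      rw [h1] at h2
      have h0 : ζ ≠ 0 := hζ.ne_zero (by omega)
      rw [← hζ.zpow_eq_one_iff_dvd, zpow_sub₀ h0, zpow_natCast, zpow_natCast, ← h2,
        div_self (pow_ne_zero _ h0)]
    -- isolatedness
    have hiso : ∀ a ∈ center Q, ∀ m : ℕ, 1 ≤ m → a ^ m ∈ A → a ∈ A := by
      rintro a ha m hm ⟨-, h⟩
      refine ⟨ha, fun n hn σ hσ j hj => ?_⟩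
      obtain ⟨j', hj'⟩ := hexj (n * m) (Nat.mul_pos hn hm) σ
      obtain ⟨y, hy, e⟩ := h (n * m) (Nat.mul_pos hn hm) σ hσ j' hj'
      have hyc : ∀ g : Q, Commute g y := fun g => mem_center_iff.mp hy g
      have hac : ∀ g : Q, Commute g a := fun g => mem_center_iff.mp ha g
      have e1 : ((a ^ (j' ^ (w + 1)) * y ^ n)⁻¹ * ρ σ a) ^ m = 1 := by
        have hρac : ∀ g : Q, Commute g (ρ σ a) := fun g => mem_center_iff.mp (hcen σ a ha) g
        have c1 : Commute (a ^ (j' ^ (w + 1))) (y ^ n) := (hyc a).pow_pow _ _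
        rw [(hρac _).mul_pow, ← map_pow, e, inv_pow, c1.mul_pow, ← pow_mul, ← pow_mul, ← pow_mul,
          mul_comm m, inv_mul_cancel]
      have e2 := htf _ m hm e1
      have e3 : ρ σ a = a ^ (j' ^ (w + 1)) * y ^ n := by
        rw [inv_mul_eq_one] at e2; exact e2.symm
      obtain ⟨q, hq⟩ : (n : ℤ) ∣ ((j' ^ (w + 1) : ℕ) : ℤ) - ((j ^ (w + 1) : ℕ) : ℤ) := by
        push_cast
        exact (hcong n m hn hm σ j j' hj hj').trans (sub_dvd_pow_sub_pow _ _ _)
      refine ⟨a ^ q * y, mul_mem (zpow_mem ha q) hy, ?_⟩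
      have e4 : a ^ (j' ^ (w + 1)) = a ^ (j ^ (w + 1)) * (a ^ q) ^ n := by
        rw [← zpow_natCast a (j' ^ (w + 1)), ← zpow_natCast a (j ^ (w + 1)), ← zpow_natCast (a ^ q) n,
          ← zpow_mul, ← zpow_add]
        congr 1
        linarith
      rw [e3, e4, ((hyc (a ^ q))).mul_pow, mul_assoc]
    -- the last term of the lower central series
    have hclbot : cl Q (w + 1) = ⊥ := by
      unfold cl
      rw [hnil]
      apply SetLike.ext'
      rw [topologicalClosure_coe, coe_bot, closure_singleton]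
    have hclZ : cl Q w ≤ center Q := by
      intro x hx
      rw [mem_center_iff]
      intro g
      have h1 := comm_mem_cl hx g
      rw [hclbot, mem_bot, commutatorElement_eq_one_iff_mul_comm] at h1
      exact h1.symm
    have hlast : Subgroup.lowerCentralSeries (⊤ : Subgroup Q) w ≤ A := by
      intro x hx
      have hx' := lcs_le_cl w hx
      refine ⟨hclZ hx', fun n hn σ hσ j hj => ?_⟩
      obtain ⟨y, hy, z, hz, e⟩ := graded (ρ σ : Q →* Q) (hρ σ) n j (hTate n hn σ hσ j hj) w x hx'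
      rw [hclbot, mem_bot] at hz
      rw [hz, mul_one] at e
      exact ⟨y, hclZ hy, e⟩
    -- the quotient
    have hAclI : IsClosed (A : Set Q) := hAcl
    have hmk : Continuous (QuotientGroup.mk : Q → Q ⧸ A) := QuotientGroup.continuous_mk
    have hT3 : T3Space (Q ⧸ A) := inferInstance
    have hT2 : T2Space (Q ⧸ A) := inferInstance
    have hSN' : SmallNormal (Q ⧸ A) := by
      intro W hW
      have h1 : (QuotientGroup.mk : Q → Q ⧸ A) ⁻¹' W ∈ nhds (1 : Q) :=
        hmk.continuousAt.preimage_mem_nhds (by exact hW)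
      obtain ⟨U, hUn, hUo, hUW⟩ := hSN _ h1
      refine ⟨U.map (QuotientGroup.mk' A), hUn.map _ (QuotientGroup.mk'_surjective A), ?_, ?_⟩
      · exact QuotientGroup.isOpenMap_coe _ hUo
      · rintro _ ⟨x, hx, rfl⟩
        exact hUW hx
    have htf' : ∀ (x : Q ⧸ A) (n : ℕ), 1 ≤ n → x ^ n = 1 → x = 1 := by
      intro x n hn h
      obtain ⟨x, rfl⟩ := QuotientGroup.mk_surjective x
      rw [← QuotientGroup.mk_pow, QuotientGroup.eq_one_iff] at h
      rw [QuotientGroup.eq_one_iff]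
      exact hiso x (mem_center_of_pow_mem htf hn (hAZ h)) n hn h
    have hnil' : Subgroup.lowerCentralSeries (⊤ : Subgroup (Q ⧸ A)) w = ⊥ := by
      have h1 := Subgroup.map_lowerCentralSeries (⊤ : Subgroup Q) (QuotientGroup.mk' A) w
      rw [Subgroup.map_top_of_surjective _ (QuotientGroup.mk'_surjective A)] at h1
      rw [← h1, Subgroup.map_eq_bot_iff, QuotientGroup.ker_mk']
      exact hlast
    have hcomap : ∀ σ, A ≤ A.comap (ρ σ : Q →* Q) := fun σ a ha => hAρ σ a ha
    let ρ' : Gal(kb/k) →* Monoid.End (Q ⧸ A) :=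
      { toFun := fun σ => QuotientGroup.map A A (ρ σ : Q →* Q) (hcomap σ)
        map_one' := by
          apply MonoidHom.ext
          intro x
          obtain ⟨x, rfl⟩ := QuotientGroup.mk_surjective x
          change (QuotientGroup.mk (ρ 1 x) : Q ⧸ A) = QuotientGroup.mk x
          rw [hρ1]
        map_mul' := by
          intro σ τ
          apply MonoidHom.ext
          intro x
          obtain ⟨x, rfl⟩ := QuotientGroup.mk_surjective x
          change (QuotientGroup.mk (ρ (σ * τ) x) : Q ⧸ A) = QuotientGroup.mk (ρ σ (ρ τ x))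
          rw [hρmul] }
    have hρ'mk : ∀ σ (x : Q), ρ' σ (QuotientGroup.mk x) = QuotientGroup.mk (ρ σ x) := fun σ x => rfl
    have hρ' : ∀ σ, Continuous fun x => ρ' σ x := by
      intro σ
      rw [(QuotientGroup.isQuotientMap_mk A).continuous_iff]
      exact hmk.comp (hρ σ)
    obtain ⟨h1, h2⟩ := ih (Q ⧸ A) hSN' htf' hnil' ρ' hρ' (fun σ => QuotientGroup.mk (c σ))
      (fun σ τ => by rw [hc, QuotientGroup.mk_mul, hρ'mk])
      (hmk.continuousAt.comp hc1)
      (fun n hn σ hσ j hj x => by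
        obtain ⟨x, rfl⟩ := QuotientGroup.mk_surjective x
        obtain ⟨y, z, hz, e⟩ := hTate n hn σ hσ j hj x
        refine ⟨QuotientGroup.mk y, QuotientGroup.mk z, ?_, ?_⟩
        · have h3 : (cl Q 1 : Set Q) ⊆ (QuotientGroup.mk : Q → Q ⧸ A) ⁻¹' (cl (Q ⧸ A) 1) := by
            refine closure_minimal ?_ ((cl_closed 1).preimage hmk)
            intro x hx
            apply lcs_le_cl 1
            have h4 := Subgroup.map_lowerCentralSeries (⊤ : Subgroup Q) (QuotientGroup.mk' A) 1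
            rw [Subgroup.map_top_of_surjective _ (QuotientGroup.mk'_surjective A)] at h4
            rw [← h4]
            exact ⟨x, hx, rfl⟩
          exact h3 hz
        · rw [hρ'mk, e]; rfl)
      (fun v => QuotientGroup.mk (b v))
      (fun v σ τ h => by
        rw [hρ'mk, ← QuotientGroup.mk_mul, hb v σ τ h])
      (by rw [hb0]; rfl)
    have hbA : ∀ v, b v ∈ A := fun v => (QuotientGroup.eq_one_iff _).mp (h1 v)
    have hcA : ∀ σ, c σ ∈ A := fun σ => (QuotientGroup.eq_one_iff _).mp (h2 σ)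
    -- the abelian step
    let _ : CommGroup A := { (inferInstance : Group A) with
      mul_comm := fun a b => Subtype.ext (mem_center_iff.mp (hAZ b.2) a) }
    let ρA : Gal(kb/k) →* Monoid.End A :=
      { toFun := fun σ =>
          { toFun := fun a => ⟨ρ σ a, hAρ σ a a.2⟩
            map_one' := Subtype.ext (map_one (ρ σ))
            map_mul' := fun a b => Subtype.ext (map_mul (ρ σ) _ _) }
        map_one' := by
          apply MonoidHom.ext
          intro a
          exact Subtype.ext (hρ1 a)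
        map_mul' := by
          intro σ τ
          apply MonoidHom.ext
          intro a
          exact Subtype.ext (hρmul σ τ a) }
    obtain ⟨h3, h4⟩ := ab_step S ι H₀ hH₀ ρA (fun σ => (⟨c σ, hcA σ⟩ : A))
      (fun σ τ => Subtype.ext (hc σ τ))
      (fun x n hn h => Subtype.ext (htf x n hn (congrArg Subtype.val h)))
      (w + 1) (by omega)
      (fun n hn σ hσ j hj x => by
        obtain ⟨y, hy, e⟩ := x.2.2 n hn σ hσ j hj
        have hyn : y ^ n ∈ A := by
          have : y ^ n = ((x : Q) ^ (j ^ (w + 1)))⁻¹ * ρ σ x := by rw [e, inv_mul_cancel_left]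
          rw [this]
          exact mul_mem (inv_mem (pow_mem x.2 _)) (hAρ σ x x.2)
        exact ⟨⟨y, hiso y hy n hn hyn⟩, Subtype.ext e⟩)
      (fun n hn x hx => by
        obtain ⟨V, hVn, hVo, hV⟩ := exists_sep hSN A hAcl hAZ (n := n) (x := (x : Q)) (by
          rintro ⟨y, hy, e⟩
          exact hx ⟨⟨y, hy⟩, Subtype.ext e⟩)
        have hfin : Finite (Q ⧸ V) := V.quotient_finite_of_isOpen hVo
        have hfi : V.FiniteIndex := Subgroup.finiteIndex_of_finite_quotient
        refine ⟨V.subgroupOf A ⊔ (powMonoidHom n : A →* A).range, ?_, ?_, ?_, ?_⟩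
        · exact Subgroup.finiteIndex_of_le (H := V.subgroupOf A) le_sup_left
        · intro y
          exact (le_sup_right : (powMonoidHom n : A →* A).range ≤ _) ⟨y, rfl⟩
        · intro h
          rw [Subgroup.mem_sup] at h
          obtain ⟨v, hv, _, ⟨y, rfl⟩, e⟩ := h
          exact hV y y.2 v hv (congrArg Subtype.val e)
        · have h5 : c ⁻¹' (V : Set Q) ∈ nhds (1 : Gal(kb/k)) := by
            apply hc1
            have h6 : c 1 = 1 := by
              have := hc 1 1
              rw [hρ1, mul_one] at this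
              exact (mul_eq_left.mp this.symm)
            rw [h6]
            exact hVo.mem_nhds (one_mem V)
          filter_upwards [h5] with σ hσ
          exact (le_sup_left : V.subgroupOf A ≤ _) hσ)
      (fun x h => Subtype.ext (eq_one_of_div hSN fun n hn => by
        obtain ⟨y, hy⟩ := h n hn
        exact ⟨y, congrArg Subtype.val hy⟩))
      (fun v => (⟨b v, hbA v⟩ : A))
      (fun v σ τ h => Subtype.ext (hb v σ τ h)) v₀ (Subtype.ext hb0)
    exact ⟨fun v => congrArg Subtype.val (h3 v), fun σ => congrArg Subtype.val (h4 σ)⟩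

end Pool.Agent.Lib.MP_2f3286_ag
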