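import Mathlib
import Pool.Agent.Lib.MP_2f3286_ag.NilpStep
import Pool.Agent.Lib.MP_2f3286_ag.Val

/-!
# Locally trivial cocycles in pro-nilpotent geometric Galois groups of Kummer type are trivial
-/

open IsDedekindDomain NumberField Subgroup
open scoped commutatorElement

namespace Pool.Agent.Lib.MP_2f3286_ag

theorem SmallNormal.quotient {Q : Type*} [Group Q] [TopologicalSpace Q] [IsTopologicalGroup Q]
    (hSN : SmallNormal Q) (A : Subgroup Q) [A.Normal] : SmallNormal (Q ⧸ A) := by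
  have hmk : Continuous (QuotientGroup.mk : Q → Q ⧸ A) := QuotientGroup.continuous_mk
  intro W hW
  have h1 : (QuotientGroup.mk : Q → Q ⧸ A) ⁻¹' W ∈ nhds (1 : Q) :=
    hmk.continuousAt.preimage_mem_nhds (by exact hW)
  obtain ⟨U, hUn, hUo, hUW⟩ := hSN _ h1
  refine ⟨U.map (QuotientGroup.mk' A), hUn.map _ (QuotientGroup.mk'_surjective A), ?_, ?_⟩
  · exact QuotientGroup.isOpenMap_coe _ hUo
  · rintro _ ⟨x, hx, rfl⟩
    exact hUW hx

theorem nilp_kill {k K M kb : Type*} [Field k] [NumberField k] [Field kb] [Algebra k kb]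
    [IsGalois k kb] [IsAlgClosed kb] [Field K] [Field M] [Algebra K M] [IsGalois K M]
    [Algebra kb M]
    (s : Gal(kb/k) →* Gal(M/K)) (hs : Continuous s)
    (hsec : ∀ σ a, s σ (algebraMap kb M a) = algebraMap kb M (σ a))
    (S : Finset (HeightOneSpectrum (𝓞 k)))
    (ι : ∀ v : {v : HeightOneSpectrum (𝓞 k) // v ∉ S},
      kb →ₐ[k] AlgebraicClosure (v.1.adicCompletion k))
    (v₀ : {v : HeightOneSpectrum (𝓞 k) // v ∉ S})
    (N : Subgroup Gal(M/K)) [N.Normal] (hNcl : IsClosed (N : Set Gal(M/K)))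
    (hNk : ∀ g ∈ N, ∀ a : kb, g (algebraMap kb M a) = algebraMap kb M a)
    (hres : ∀ g ∈ N, g ≠ 1 → ∃ C : Subgroup Gal(M/K), C.Normal ∧ IsClosed (C : Set Gal(M/K)) ∧
      C ≤ N ∧ g ∉ C ∧ (∀ x ∈ N, ∀ n : ℕ, 1 ≤ n → x ^ n ∈ C → x ∈ C) ∧
      ∃ w : ℕ, N.lowerCentralSeries w ≤ C)
    {I : Type*} [Finite I] (u : I → M) (hu : ∀ g ∈ N, ∀ i, g (u i) = u i)
    (hab : ∀ n : ℕ, 1 ≤ n → ∀ g ∈ N, (∀ i (c : M), c ^ n = u i → g c = c) →
      ∃ y ∈ N, ∃ z ∈ (⁅N, N⁆ : Subgroup Gal(M/K)).topologicalClosure, g = y ^ n * z)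
    (c : Gal(kb/k) → N) (hc : ∀ σ τ, (c (σ * τ) : Gal(M/K)) = c σ * (s σ * c τ * (s σ)⁻¹))
    (hc1 : ContinuousAt c 1)
    (b : {v : HeightOneSpectrum (𝓞 k) // v ∉ S} → N)
    (hb : ∀ v (σ : Gal(kb/k))
      (τ : Gal(AlgebraicClosure (v.1.adicCompletion k)/v.1.adicCompletion k)),
      (∀ x, ι v (σ x) = τ (ι v x)) → (c σ : Gal(M/K)) * (s σ * b v * (s σ)⁻¹) = b v)
    (hb0 : b v₀ = 1) : (∀ v, b v = 1) ∧ ∀ σ, c σ = 1 := by
  classical
  have hNn : N.Normal := inferInstance
  have hcharkb : CharZero kb := charZero_of_injective_algebraMap (algebraMap k kb).injective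
  -- the open normal subgroup over which the units are fixed
  obtain ⟨H₀, hH₀n, hH₀o, hH₀u⟩ : ∃ H₀ : Subgroup Gal(kb/k), H₀.Normal ∧
      IsOpen (H₀ : Set Gal(kb/k)) ∧ ∀ σ ∈ H₀, ∀ i, s σ (u i) = u i := by
    have h1 : ⋂ i, {σ : Gal(kb/k) | s σ (u i) = u i} ∈ nhds (1 : Gal(kb/k)) := by
      rw [Filter.iInter_mem]
      exact fun i => nhds_s s hs (Algebra.IsAlgebraic.isAlgebraic (R := K) (u i)).isIntegral
    obtain ⟨L, hL, hLn, hLU⟩ := (krullTopology_mem_nhds_one_iff_of_normal k kb _).mp h1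
    refine ⟨L.fixingSubgroup, ?_, IntermediateField.fixingSubgroup_isOpen L, fun σ hσ i => ?_⟩
    · have : IsGalois k L := ⟨⟩
      exact (InfiniteGalois.normal_iff_isGalois L).mpr this
    · have := hLU hσ
      rw [Set.mem_iInter] at this
      exact this i
  -- the Tate property
  have hTate : ∀ n : ℕ, 1 ≤ n → ∀ σ ∈ H₀, ∀ j : ℕ, (∀ ζ : kb, ζ ^ n = 1 → σ ζ = ζ ^ j) →
      ∀ x ∈ N, ∃ y ∈ N, ∃ z ∈ (⁅N, N⁆ : Subgroup Gal(M/K)).topologicalClosure,
        s σ * x * (s σ)⁻¹ = x ^ j * y ^ n * z := by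
    intro n hn σ hσ j hj x hx
    obtain ⟨y, hy, z, hz, e⟩ := hab n hn ((x ^ j)⁻¹ * (s σ * x * (s σ)⁻¹))
      (mul_mem (inv_mem (pow_mem hx j)) (hNn.conj_mem x hx (s σ))) (by
        intro i c hci
        by_cases hc0 : c = 0
        · rw [hc0, map_zero]
        -- the element `c' = (s σ)⁻¹ c`
        have hui : u i ≠ 0 := by rw [← hci]; exact pow_ne_zero n hc0
        have hroot : ∀ c₁ : M, c₁ ^ n = u i → ∃ ξ : kb, ξ ^ n = 1 ∧ c₁ = algebraMap kb M ξ * c := by
          intro c₁ hc₁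
          have h1 : (c₁ / c) ^ n = 1 := by rw [div_pow, hc₁, hci, div_self hui]
          obtain ⟨ξ, hξ⟩ := root_of_unity_mem kb M hn h1
          refine ⟨ξ, ?_, by rw [hξ, div_mul_cancel₀ _ hc0]⟩
          apply (algebraMap kb M).injective
          rw [map_pow, hξ, h1, map_one]
        obtain ⟨ζ, hζ, hxc⟩ := hroot (x c) (by rw [← map_pow, hci, hu x hx i])
        obtain ⟨ξ, hξ, hsc⟩ := hroot ((s σ)⁻¹ c) (by
          rw [← map_pow, hci]
          have := hH₀u σ⁻¹ (inv_mem hσ) i
          rwa [map_inv] at this)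
        -- powers of `x`
        have hxj : ∀ m : ℕ, (x ^ m) c = algebraMap kb M (ζ ^ m) * c := by
          intro m
          induction m with
          | zero => rw [pow_zero, pow_zero, map_one, one_mul]; rfl
          | succ m ih =>
            rw [pow_succ', AlgEquiv.mul_apply, ih, map_mul, hNk x hx, hxc, pow_succ, map_mul]
            ring
        have h2 : (s σ * x * (s σ)⁻¹) c = algebraMap kb M (ζ ^ j) * c := by
          rw [AlgEquiv.mul_apply, AlgEquiv.mul_apply, hsc, map_mul, hNk x hx, hxc, map_mul, map_mul,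
            hsec, hsec, hj ζ hζ]
          have h3 : s σ c = algebraMap kb M (σ ξ)⁻¹ * c := by
            have h4 : s σ ((s σ)⁻¹ c) = c := by
              rw [← AlgEquiv.mul_apply, mul_inv_cancel]; rfl
            rw [hsc, map_mul, hsec] at h4
            have hξ0 : σ ξ ≠ 0 := by
              rw [_root_.map_ne_zero]
              rintro rfl
              rw [zero_pow (by omega)] at hξ
              exact zero_ne_one hξ
            have h5 : algebraMap kb M (σ ξ) ≠ 0 := by rw [_root_.map_ne_zero]; exact hξ0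
            rw [map_inv₀, eq_inv_mul_iff_mul_eq₀ h5]
            exact h4
          rw [h3]
          have hξ0 : algebraMap kb M (σ ξ) ≠ 0 := by
            rw [_root_.map_ne_zero, _root_.map_ne_zero]
            rintro rfl
            rw [zero_pow (by omega)] at hξ
            exact zero_ne_one hξ
          rw [map_inv₀]
          field_simp
        rw [AlgEquiv.mul_apply, h2, ← hxj]
        exact (x ^ j).symm_apply_apply c)
    exact ⟨y, hy, z, hz, by rw [mul_assoc (x ^ j), ← e, mul_inv_cancel_left]⟩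
  -- topology of `N`
  have hNc : CompactSpace N := isCompact_iff_compactSpace.mp hNcl.isCompact
  have hSN : SmallNormal N := by
    intro W hW
    rw [nhds_subtype_eq_comap, Filter.mem_comap] at hW
    obtain ⟨W', hW', hWW⟩ := hW
    obtain ⟨E, hE, hEn, hEU⟩ := (krullTopology_mem_nhds_one_iff_of_normal K M _).mp hW'
    have hEg : IsGalois K E := { to_isSeparable := inferInstance, to_normal := hEn }
    have hEnorm : E.fixingSubgroup.Normal := (InfiniteGalois.normal_iff_isGalois E).mpr hEg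
    refine ⟨E.fixingSubgroup.subgroupOf N, inferInstance,
      (IntermediateField.fixingSubgroup_isOpen E).preimage continuous_subtype_val, ?_⟩
    intro x hx
    exact hWW (hEU hx)
  -- conjugation
  let ρ : Gal(kb/k) →* Monoid.End N :=
    { toFun := fun σ =>
        { toFun := fun x => ⟨s σ * x * (s σ)⁻¹, hNn.conj_mem x x.2 (s σ)⟩
          map_one' := Subtype.ext (by simp)
          map_mul' := fun x y => Subtype.ext (by simp [mul_assoc]) }
      map_one' := by
        apply MonoidHom.ext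
        intro x
        apply Subtype.ext
        change s 1 * x * (s 1)⁻¹ = x
        rw [map_one]; simp
      map_mul' := by
        intro σ τ
        apply MonoidHom.ext
        intro x
        apply Subtype.ext
        change s (σ * τ) * x * (s (σ * τ))⁻¹ = s σ * (s τ * x * (s τ)⁻¹) * (s σ)⁻¹
        rw [map_mul]; group }
  have hρ : ∀ σ, Continuous fun x => ρ σ x := by
    intro σ
    refine Continuous.subtype_mk ?_ _
    fun_prop
  -- the main reduction
  have main : ∀ C : Subgroup Gal(M/K), C.Normal → IsClosed (C : Set Gal(M/K)) → C ≤ N →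
      (∀ x ∈ N, ∀ n : ℕ, 1 ≤ n → x ^ n ∈ C → x ∈ C) → (∃ w : ℕ, N.lowerCentralSeries w ≤ C) →
      (∀ v, (b v : Gal(M/K)) ∈ C) ∧ ∀ σ, (c σ : Gal(M/K)) ∈ C := by
    intro C hCn hCcl hCN hCtf ⟨w, hCw⟩
    let C' : Subgroup N := C.subgroupOf N
    have hC'n : C'.Normal := inferInstance
    have hC'cl : IsClosed (C' : Set N) := hCcl.preimage continuous_subtype_val
    have hmk : Continuous (QuotientGroup.mk : N → N ⧸ C') := QuotientGroup.continuous_mk
    have hT3 : T3Space (N ⧸ C') := inferInstance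
    have hT2 : T2Space (N ⧸ C') := inferInstance
    have htf : ∀ (x : N ⧸ C') (n : ℕ), 1 ≤ n → x ^ n = 1 → x = 1 := by
      intro x n hn h
      obtain ⟨x, rfl⟩ := QuotientGroup.mk_surjective x
      rw [← QuotientGroup.mk_pow, QuotientGroup.eq_one_iff] at h
      rw [QuotientGroup.eq_one_iff]
      exact hCtf x x.2 n hn h
    have hnil : Subgroup.lowerCentralSeries (⊤ : Subgroup (N ⧸ C')) w = ⊥ := by
      have h1 := Subgroup.map_lowerCentralSeries (⊤ : Subgroup N) (QuotientGroup.mk' C') w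
      rw [Subgroup.map_top_of_surjective _ (QuotientGroup.mk'_surjective C')] at h1
      rw [← h1, Subgroup.map_eq_bot_iff, QuotientGroup.ker_mk']
      intro x hx
      apply hCw
      rw [← Subgroup.top_subtype_lowerCentralSeries]
      exact ⟨x, hx, rfl⟩
    have hcomap : ∀ σ, C' ≤ C'.comap (ρ σ : N →* N) := fun σ a ha => hCn.conj_mem _ ha (s σ)
    let ρ' : Gal(kb/k) →* Monoid.End (N ⧸ C') :=
      { toFun := fun σ => QuotientGroup.map C' C' (ρ σ : N →* N) (hcomap σ)
        map_one' := by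
          apply MonoidHom.ext
          intro x
          obtain ⟨x, rfl⟩ := QuotientGroup.mk_surjective x
          change (QuotientGroup.mk (ρ 1 x) : N ⧸ C') = QuotientGroup.mk x
          rw [map_one]; rfl
        map_mul' := by
          intro σ τ
          apply MonoidHom.ext
          intro x
          obtain ⟨x, rfl⟩ := QuotientGroup.mk_surjective x
          change (QuotientGroup.mk (ρ (σ * τ) x) : N ⧸ C') = QuotientGroup.mk (ρ σ (ρ τ x))
          rw [map_mul]; rfl }
    have hρ'mk : ∀ σ (x : N), ρ' σ (QuotientGroup.mk x) = QuotientGroup.mk (ρ σ x) := fun σ x => rfl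
    have hρ' : ∀ σ, Continuous fun x => ρ' σ x := by
      intro σ
      rw [(QuotientGroup.isQuotientMap_mk C').continuous_iff]
      exact hmk.comp (hρ σ)
    have hcoc : ∀ σ τ, c (σ * τ) = c σ * ρ σ (c τ) := fun σ τ => Subtype.ext (hc σ τ)
    -- the closed commutator subgroup
    have hcl1 : ∀ z (hz : z ∈ N), z ∈ (⁅N, N⁆ : Subgroup Gal(M/K)).topologicalClosure →
        (QuotientGroup.mk ⟨z, hz⟩ : N ⧸ C') ∈ cl (N ⧸ C') 1 := by
      intro z hz hzc
      let T : Subgroup Gal(M/K) := ((cl (N ⧸ C') 1).comap (QuotientGroup.mk' C')).map N.subtype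
      have hT : IsClosed (T : Set Gal(M/K)) := by
        have h1 : IsClosed ((QuotientGroup.mk : N → N ⧸ C') ⁻¹' (cl (N ⧸ C') 1)) :=
          (cl_closed 1).preimage hmk
        exact hNcl.isClosedEmbedding_subtypeVal.isClosedMap _ h1
      have hle : (⁅N, N⁆ : Subgroup Gal(M/K)) ≤ T := by
        rw [commutator_le]
        intro x hx y hy
        refine ⟨⁅(⟨x, hx⟩ : N), (⟨y, hy⟩ : N)⁆, ?_, rfl⟩
        apply lcs_le_cl 1
        rw [map_commutatorElement]
        exact commutator_mem_commutator (mem_top _) (mem_top _)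
      obtain ⟨z', hz', e⟩ := topologicalClosure_minimal _ hle hT hzc
      have h2 : z' = ⟨z, hz⟩ := Subtype.ext e
      rw [← h2]
      exact hz'
    obtain ⟨h1, h2⟩ := nilp_step S ι H₀ hH₀o v₀ w (N ⧸ C') (hSN.quotient C') htf hnil ρ' hρ'
      (fun σ => QuotientGroup.mk (c σ))
      (fun σ τ => by rw [hcoc, QuotientGroup.mk_mul, hρ'mk])
      (hmk.continuousAt.comp hc1)
      (fun n hn σ hσ j hj x => by
        obtain ⟨x, rfl⟩ := QuotientGroup.mk_surjective x
        obtain ⟨y, hy, z, hz, e⟩ := hTate n hn σ hσ j hj x x.2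
        have hzN : z ∈ N := by
          have : z = ((x : Gal(M/K)) ^ j * y ^ n)⁻¹ * (s σ * x * (s σ)⁻¹) := by
            rw [e, inv_mul_cancel_left]
          rw [this]
          exact mul_mem (inv_mem (mul_mem (pow_mem x.2 j) (pow_mem hy n)))
            (hNn.conj_mem x x.2 (s σ))
        refine ⟨QuotientGroup.mk ⟨y, hy⟩, QuotientGroup.mk ⟨z, hzN⟩, hcl1 z hzN hz, ?_⟩
        rw [hρ'mk, ← QuotientGroup.mk_pow, ← QuotientGroup.mk_pow, ← QuotientGroup.mk_mul,
          ← QuotientGroup.mk_mul]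
        congr 1
        exact Subtype.ext e)
      (fun v => QuotientGroup.mk (b v))
      (fun v σ τ h => by
        rw [hρ'mk, ← QuotientGroup.mk_mul]
        congr 1
        exact Subtype.ext (hb v σ τ h))
      (by rw [hb0]; rfl)
    exact ⟨fun v => (QuotientGroup.eq_one_iff (N := C') (b v)).mp (h1 v),
      fun σ => (QuotientGroup.eq_one_iff (N := C') (c σ)).mp (h2 σ)⟩
  constructor
  · intro v
    by_contra hne
    obtain ⟨C, h1, h2, h3, h4, h5, h6⟩ := hres (b v) (b v).2 (fun h => hne (Subtype.ext h))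
    exact h4 ((main C h1 h2 h3 h5 h6).1 v)
  · intro σ
    by_contra hne
    obtain ⟨C, h1, h2, h3, h4, h5, h6⟩ := hres (c σ) (c σ).2 (fun h => hne (Subtype.ext h))
    exact h4 ((main C h1 h2 h3 h5 h6).2 σ)

end Pool.Agent.Lib.MP_2f3286_ag
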