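import Mathlib
import Pool.Agent.Lib.MP_2f3286_ag.NilpKill
import Pool.Agent.Lib.MP_2f3286_ag.Points
import Pool.Agent.Lib.MP_2f3286_ag.SelmerCore

/-!
# Sections of pro-nilpotent type whose local points all lie over one rational point
-/

open IsDedekindDomain NumberField Subgroup
open scoped commutatorElement

namespace Pool.Agent.Lib.MP_2f3286_ag

/-- The automorphisms of `M` over `K` that are the identity on `kb`. -/
def geomGroup (K M kb : Type*) [Field K] [Field M] [Field kb] [Algebra K M] [Algebra kb M] :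
    Subgroup Gal(M/K) where
  carrier := {g | ∀ a : kb, g (algebraMap kb M a) = algebraMap kb M a}
  one_mem' _ := rfl
  mul_mem' {g h} hg hh a := by
    rw [AlgEquiv.mul_apply, hh a, hg a]
  inv_mem' {g} hg a := by
    have h1 : g⁻¹ (g (algebraMap kb M a)) = algebraMap kb M a := g.symm_apply_apply _
    rwa [hg a] at h1

theorem mem_geomGroup {K M kb : Type*} [Field K] [Field M] [Field kb] [Algebra K M] [Algebra kb M]
    {g : Gal(M/K)} : g ∈ geomGroup K M kb ↔ ∀ a : kb, g (algebraMap kb M a) = algebraMap kb M a :=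
  Iff.rfl

universe u in
theorem nilp_core {k : Type u} [Field k] [NumberField k]
    {K : Type*} [Field K] [Algebra k K]
    (R : Subalgebra k K) (hRn : ∀ x : K, IsIntegral R x → x ∈ R)
    {M : Type*} [Field M] [Algebra K M] [IsGalois K M]
    [Algebra (AlgebraicClosure k) M] [Algebra k M]
    [IsScalarTower k K M] [IsScalarTower k (AlgebraicClosure k) M]
    (hun : ∀ Ψ : integralClosure R M →+* AlgebraicClosure k,
      (∀ (a : AlgebraicClosure k) (b : integralClosure R M), (b : M) = algebraMap _ M a → Ψ b = a) →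
      ∀ g ∈ geomGroup K M (AlgebraicClosure k),
        (∀ b b' : integralClosure R M, (b' : M) = g b → Ψ b' = Ψ b) → g = 1)
    (hres : ∀ g ∈ geomGroup K M (AlgebraicClosure k), g ≠ 1 → ∃ C : Subgroup Gal(M/K),
      C.Normal ∧ IsClosed (C : Set Gal(M/K)) ∧ C ≤ geomGroup K M (AlgebraicClosure k) ∧ g ∉ C ∧
      (∀ x ∈ geomGroup K M (AlgebraicClosure k), ∀ n : ℕ, 1 ≤ n → x ^ n ∈ C → x ∈ C) ∧
      ∃ w : ℕ, (geomGroup K M (AlgebraicClosure k)).lowerCentralSeries w ≤ C)
    {I : Type*} [Finite I] (u : I → M)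
    (hu : ∀ g ∈ geomGroup K M (AlgebraicClosure k), ∀ i, g (u i) = u i)
    (hab : ∀ n : ℕ, 1 ≤ n → ∀ g ∈ geomGroup K M (AlgebraicClosure k),
      (∀ i (c : M), c ^ n = u i → g c = c) → ∃ y ∈ geomGroup K M (AlgebraicClosure k),
        ∃ z ∈ (⁅geomGroup K M (AlgebraicClosure k), geomGroup K M (AlgebraicClosure k)⁆ :
          Subgroup Gal(M/K)).topologicalClosure, g = y ^ n * z)
    (s : Gal(AlgebraicClosure k/k) →* Gal(M/K)) (hs : Continuous s)
    (hsec : ∀ σ a, s σ (algebraMap (AlgebraicClosure k) M a) =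
      algebraMap (AlgebraicClosure k) M (σ a))
    (S : Finset (HeightOneSpectrum (𝓞 k)))
    (ι : ∀ v : {v : HeightOneSpectrum (𝓞 k) // v ∉ S},
      AlgebraicClosure k →ₐ[k] AlgebraicClosure (v.1.adicCompletion k))
    (φ : ∀ v : {v : HeightOneSpectrum (𝓞 k) // v ∉ S},
      integralClosure R M →+* AlgebraicClosure (v.1.adicCompletion k))
    (hφ : ∀ v, Respects s (v.1.adicCompletion k)
      (ι v : _ →+* AlgebraicClosure (v.1.adicCompletion k)) (φ v))
    (θ : R → k) (hθ : ∀ v r, φ v (algebraMap R _ r) = ι v (algebraMap k _ (θ r))) :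
    ∃ Ψ : integralClosure R M →+* AlgebraicClosure k, Respects s k (RingHom.id _) Ψ ∧
      (∀ r, Ψ (algebraMap R _ r) = algebraMap k _ (θ r)) ∧ (∀ v b, φ v b = ι v (Ψ b)) ∧
      ∀ Ψ' : integralClosure R M →+* AlgebraicClosure k, Respects s k (RingHom.id _) Ψ' →
        (∀ r, Ψ' (algebraMap R _ r) = algebraMap k _ (θ r)) → Ψ' = Ψ := by
  classical
  set kb := AlgebraicClosure k with hkbdef
  set N := geomGroup K M kb with hN
  have htow' : IsScalarTower k R M := IsScalarTower.of_algebraMap_eq fun x => by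
    rw [IsScalarTower.algebraMap_apply k K M]; rfl
  have hRM : ∀ r : R, algebraMap R M r = algebraMap K M (r : K) := fun r => rfl
  have hRn' : ∀ x : K, IsIntegral R x → ∃ r : R, algebraMap R K r = x := fun x hx => ⟨⟨x, hRn x hx⟩, rfl⟩
  have hBk : ∀ a : kb, IsIntegral R (algebraMap kb M a) := by
    intro a
    have h1 : IsIntegral k a := Algebra.IsIntegral.isIntegral a
    have h2 : IsIntegral k (algebraMap kb M a) := h1.algebraMap
    exact h2.tower_top
  have hkR : ∀ a : k, ∃ r : R, algebraMap R M r = algebraMap k M a := by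
    intro a
    exact ⟨algebraMap k R a, by rw [← IsScalarTower.algebraMap_apply]⟩
  have hkθ : ∀ v (r : R), φ v (algebraMap R _ r) = ι v (algebraMap k kb (θ r)) := hθ
  -- `N` is closed and normal
  have hNmem : ∀ {g : Gal(M/K)}, g ∈ N ↔ ∀ a : kb, g (algebraMap kb M a) = algebraMap kb M a :=
    Iff.rfl
  have hpres : ∀ (g : Gal(M/K)) (a : kb), ∃ a' : kb, g (algebraMap kb M a) = algebraMap kb M a' := by
    intro g a
    have h2 : IsIntegral k a := Algebra.IsIntegral.isIntegral a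
    have h3 : Polynomial.aeval (g (algebraMap kb M a)) (minpoly k a) = 0 := by
      have h4 : (g.toAlgHom.restrictScalars k : M →ₐ[k] M) (algebraMap kb M a) =
        g (algebraMap kb M a) := rfl
      rw [← h4, Polynomial.aeval_algHom_apply, Polynomial.aeval_algebraMap_apply, minpoly.aeval,
        map_zero, map_zero]
    have h5 : (((minpoly k a).map (algebraMap k kb)).map (algebraMap kb M)).IsRoot
        (g (algebraMap kb M a)) := by
      rw [Polynomial.map_map, ← IsScalarTower.algebraMap_eq, Polynomial.IsRoot,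
        Polynomial.eval_map_algebraMap]
      exact h3
    have h0 : (minpoly k a).map (algebraMap k kb) ≠ 0 := by
      rw [Polynomial.map_ne_zero_iff (algebraMap k kb).injective]
      exact minpoly.ne_zero h2
    obtain ⟨r', hr'⟩ := (IsAlgClosed.splits ((minpoly k a).map (algebraMap k kb))).mem_range_of_isRoot
      h0 h5
    exact ⟨r', hr'.symm⟩
  have hNn : N.Normal := by
    refine ⟨fun n hn g => ?_⟩
    rw [hNmem] at hn ⊢
    intro a
    obtain ⟨a', ha'⟩ := hpres g⁻¹ a
    rw [AlgEquiv.mul_apply, AlgEquiv.mul_apply, ha', hn, ← ha']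
    exact g.apply_symm_apply _
  have hNcl : IsClosed (N : Set Gal(M/K)) := by
    have h1 : (N : Set Gal(M/K)) = ⋂ a : kb, (MulAction.stabilizer Gal(M/K) (algebraMap kb M a) :
        Set Gal(M/K)) := by
      ext g
      rw [Set.mem_iInter]
      exact Iff.rfl
    rw [h1]
    refine isClosed_iInter fun a => ?_
    exact Subgroup.isClosed_of_isOpen _ (stabilizer_isOpen_of_isIntegral (K := K) _)
  -- the section acts on the integral closure
  have hsmem : ∀ (σ : Gal(kb/k)) (g : Gal(M/K)), (∀ a : kb, g (algebraMap kb M a) =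
      algebraMap kb M (σ a)) → g * (s σ)⁻¹ ∈ N := by
    intro σ g hg
    rw [hNmem]
    intro a
    have h1 : (s σ)⁻¹ (algebraMap kb M a) = algebraMap kb M (σ⁻¹ a) := by
      rw [← map_inv]; exact hsec σ⁻¹ a
    rw [AlgEquiv.mul_apply, h1, hg]
    congr 1
    exact σ.apply_symm_apply a
  -- descent of the local points
  have hval : ∀ v, ∀ b : integralClosure R M, ∃ β : kb, ι v β = φ v b := by
    intro v b
    obtain ⟨Q, hQm, hQ⟩ := b.2
    have h1 : Q.eval₂ (algebraMap R (integralClosure R M)) b = 0 := by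
      apply Subtype.val_injective
      have h2 := Polynomial.hom_eval₂ Q (algebraMap R (integralClosure R M))
        (integralClosure R M).subtype b
      refine h2.trans ?_
      exact hQ
    have h2 := congrArg (φ v) h1
    rw [Polynomial.hom_eval₂, map_zero] at h2
    -- `θ` is a ring homomorphism
    have hι : Function.Injective (ι v) := (ι v).toRingHom.injective
    let θ' : R →+* kb :=
      { toFun := fun r => algebraMap k kb (θ r)
        map_one' := hι (by rw [← hθ, map_one, map_one, map_one])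
        map_mul' := fun a b => hι (by rw [map_mul, ← hθ, ← hθ, ← hθ, map_mul, map_mul])
        map_zero' := hι (by rw [← hθ, map_zero, map_zero, map_zero])
        map_add' := fun a b => hι (by rw [map_add, ← hθ, ← hθ, ← hθ, map_add, map_add]) }
    have h3 : (φ v).comp (algebraMap R (integralClosure R M)) = ((ι v : _ →+* _)).comp θ' := by
      ext r
      exact hθ v r
    rw [h3, ← Polynomial.eval₂_map] at h2
    obtain ⟨β, -, hβ⟩ := root_mem _ (hQm.map θ').ne_zero h2
    exact ⟨β, hβ⟩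
  have hdesc : ∀ v, ∃ Ψ : integralClosure R M →+* kb, ∀ b, φ v b = ι v (Ψ b) := by
    intro v
    let _ : Algebra kb (AlgebraicClosure (v.1.adicCompletion k)) := (ι v).toRingHom.toAlgebra
    obtain ⟨Ψ, hΨ⟩ := exists_descent (F := kb) (φ v) (hval v)
    exact ⟨Ψ, fun b => (hΨ b).symm⟩
  choose Ψ hΨ using hdesc
  have hΨk : ∀ v (a : kb), Ψ v ⟨algebraMap kb M a, hBk a⟩ = a := by
    intro v a
    apply (ι v).toRingHom.injective
    change ι v _ = ι v a
    rw [← hΨ]
    exact (hφ v).1 a _ rfl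
  have hΨθ : ∀ v r, Ψ v (algebraMap R _ r) = algebraMap k kb (θ r) := by
    intro v r
    apply (ι v).toRingHom.injective
    change ι v _ = ι v _
    rw [← hΨ, hθ]
  obtain ⟨v₀', hv₀'⟩ := exists_notMem S
  obtain ⟨v₀, hv₀⟩ : ∃ v₀ : {v : HeightOneSpectrum (𝓞 k) // v ∉ S}, v₀ = ⟨v₀', hv₀'⟩ := ⟨_, rfl⟩
  -- freeness
  have hfree : ∀ g ∈ N, (∀ b, Ψ v₀ (actHom R g b) = Ψ v₀ b) → g = 1 := by
    intro g hg h
    refine hun (Ψ v₀) (fun a b hb => ?_) g hg fun b b' hb => ?_
    · have : b = ⟨algebraMap kb M a, hBk a⟩ := Subtype.ext hb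
      rw [this]; exact hΨk v₀ a
    · have : b' = actHom R g b := Subtype.ext hb
      rw [this]; exact h b
  have hfree' : ∀ g h : Gal(M/K), h * g⁻¹ ∈ N →
      (∀ b, Ψ v₀ (actHom R h b) = Ψ v₀ (actHom R g b)) → h = g := by
    intro g h hm he
    have h1 := hfree (h * g⁻¹) hm (by
      intro b
      rw [actHom_mul, he, ← actHom_mul, mul_inv_cancel, actHom_one])
    exact mul_inv_eq_one.mp h1
  -- transitivity
  have htrans : ∀ Ψ' : integralClosure R M →+* kb, (∀ a : kb, Ψ' ⟨algebraMap kb M a, hBk a⟩ = a) →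
      (∀ r, Ψ' (algebraMap R _ r) = algebraMap k kb (θ r)) →
      ∃ g ∈ N, ∀ b, Ψ' b = Ψ v₀ (actHom R g b) := by
    intro Ψ' h1 h2
    obtain ⟨g, hg, hg'⟩ := points_trans hRn' hBk (Ψ v₀) Ψ' (hΨk v₀) h1 θ (hΨθ v₀) h2 hkR
    exact ⟨g, hg, hg'⟩
  choose a haN ha using fun v => htrans (Ψ v) (hΨk v) (hΨθ v)
  have ha0 : a v₀ = 1 := hfree _ (haN v₀) fun b => (ha v₀ b).symm
  -- the cocycle
  have hcex : ∀ σ : Gal(kb/k), ∃ g ∈ N, ∀ b, Ψ v₀ (actHom R (g * s σ) b) = σ (Ψ v₀ b) := by
    intro σ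
    let Ψ' : integralClosure R M →+* kb :=
      ((σ : kb →+* kb).comp (Ψ v₀)).comp (actHom R (s σ)⁻¹)
    have hΨ' : ∀ b, Ψ' b = σ (Ψ v₀ (actHom R (s σ)⁻¹ b)) := fun b => rfl
    obtain ⟨g, hg, hg'⟩ := htrans Ψ' (by
      intro a
      have h1 : actHom R (s σ)⁻¹ ⟨algebraMap kb M a, hBk a⟩ =
          ⟨algebraMap kb M (σ⁻¹ a), hBk _⟩ := by
        apply Subtype.ext
        change (s σ)⁻¹ (algebraMap kb M a) = _
        rw [← map_inv]; exact hsec σ⁻¹ a
      rw [hΨ', h1, hΨk]
      exact σ.apply_symm_apply a) (by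
      intro r
      rw [hΨ', actHom_alg, hΨθ, AlgEquiv.commutes])
    refine ⟨g, hg, fun b => ?_⟩
    rw [actHom_mul, ← hg', hΨ', ← actHom_mul, inv_mul_cancel, actHom_one]
  choose c₀ hc₀N hc₀ using hcex
  let c : Gal(kb/k) → N := fun σ => ⟨c₀ σ, hc₀N σ⟩
  have hNconj : ∀ (σ : Gal(kb/k)) (x : Gal(M/K)), x ∈ N → s σ * x * (s σ)⁻¹ ∈ N :=
    fun σ x hx => hNn.conj_mem x hx (s σ)
  have hcoc : ∀ σ τ, (c (σ * τ) : Gal(M/K)) = c σ * (s σ * c τ * (s σ)⁻¹) := by
    intro σ τ
    change c₀ (σ * τ) = c₀ σ * (s σ * c₀ τ * (s σ)⁻¹)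
    have h1 : c₀ (σ * τ) * s (σ * τ) = c₀ σ * (s σ * c₀ τ * (s σ)⁻¹) * s (σ * τ) := by
      apply hfree'
      · have : c₀ (σ * τ) * s (σ * τ) * (c₀ σ * (s σ * c₀ τ * (s σ)⁻¹) * s (σ * τ))⁻¹ =
            c₀ (σ * τ) * (c₀ σ * (s σ * c₀ τ * (s σ)⁻¹))⁻¹ := by group
        rw [this]
        exact mul_mem (hc₀N _) (inv_mem (mul_mem (hc₀N _) (hNconj _ _ (hc₀N _))))
      · intro b
        rw [hc₀]
        have : c₀ σ * (s σ * c₀ τ * (s σ)⁻¹) * s (σ * τ) = (c₀ σ * s σ) * (c₀ τ * s τ) := by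
          rw [map_mul]; group
        rw [this, actHom_mul, hc₀, hc₀]
        rfl
    exact mul_right_cancel h1
  have hloc : ∀ v (σ : Gal(kb/k))
      (τ : Gal(AlgebraicClosure (v.1.adicCompletion k)/v.1.adicCompletion k)),
      (∀ x, ι v (σ x) = τ (ι v x)) → (c₀ σ) * (s σ * a v * (s σ)⁻¹) = a v := by
    intro v σ τ hστ
    have h0 : ∀ b, Ψ v (actHom R (s σ) b) = σ (Ψ v b) := by
      intro b
      apply (ι v).toRingHom.injective
      change ι v _ = ι v _
      rw [hστ, ← hΨ, ← hΨ]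
      exact (hφ v).2 σ τ hστ b _ rfl
    have h1 : c₀ σ * (s σ * a v * (s σ)⁻¹) * s σ = a v * s σ := by
      apply hfree'
      · have : c₀ σ * (s σ * a v * (s σ)⁻¹) * s σ * (a v * s σ)⁻¹ =
          c₀ σ * (s σ * a v * (s σ)⁻¹) * (a v)⁻¹ := by group
        rw [this]
        exact mul_mem (mul_mem (hc₀N _) (hNconj _ _ (haN v))) (inv_mem (haN v))
      · intro b
        have : c₀ σ * (s σ * a v * (s σ)⁻¹) * s σ = (c₀ σ * s σ) * a v := by group
        rw [this, actHom_mul, hc₀, ← ha, ← h0, ha, ← actHom_mul]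
    exact mul_right_cancel h1
  -- continuity of the cocycle
  have hNc : CompactSpace N := isCompact_iff_compactSpace.mp hNcl.isCompact
  have hc1 : c 1 = 1 := by
    have h1 := hcoc 1 1
    rw [mul_one, map_one] at h1
    simp only [one_mul, inv_one, mul_one] at h1
    exact Subtype.ext (mul_eq_left.mp h1.symm)
  have hcont : ContinuousAt c 1 := by
    rw [ContinuousAt, hc1, Filter.tendsto_def]
    intro W hW
    obtain ⟨W', hW'W, hW'o, h1W'⟩ := mem_nhds_iff.mp hW
    have hK : IsCompact (W'ᶜ : Set N) := hW'o.isClosed_compl.isCompact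
    let O : integralClosure R M → Set N := fun b => {g : N | Ψ v₀ (actHom R (g : Gal(M/K)) b) ≠ Ψ v₀ b}
    have hOo : ∀ b, IsOpen (O b) := by
      intro b
      rw [isOpen_iff_mem_nhds]
      intro g hg
      have h1 : {g' : Gal(M/K) | g' (b : M) = (g : Gal(M/K)) b} ∈ nhds (g : Gal(M/K)) := by
        have h2 : IsOpen (MulAction.stabilizer Gal(M/K) (b : M) : Set Gal(M/K)) :=
          stabilizer_isOpen_of_isIntegral (K := K) _
        have h3 : Continuous fun g' : Gal(M/K) => (g : Gal(M/K))⁻¹ * g' := by fun_prop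
        have h4 := (h2.preimage h3).mem_nhds (x := (g : Gal(M/K))) (by
          change (g : Gal(M/K))⁻¹ * g ∈ MulAction.stabilizer Gal(M/K) (b : M)
          rw [inv_mul_cancel]; exact one_mem _)
        refine Filter.mem_of_superset h4 ?_
        intro g' hg'
        have h5 : ((g : Gal(M/K))⁻¹ * g') (b : M) = b := hg'
        rw [AlgEquiv.mul_apply] at h5
        have h6 := congrArg (g : Gal(M/K)) h5
        have h7 : (g : Gal(M/K)) ((g : Gal(M/K))⁻¹ (g' (b : M))) = g' b :=
          (g : Gal(M/K)).apply_symm_apply _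
        rw [h7] at h6
        exact h6
      have h8 : (Subtype.val : N → Gal(M/K)) ⁻¹' {g' : Gal(M/K) | g' (b : M) = (g : Gal(M/K)) b} ∈
          nhds g := continuous_subtype_val.continuousAt.preimage_mem_nhds h1
      refine Filter.mem_of_superset h8 ?_
      intro g' hg'
      have h9 : actHom R (g' : Gal(M/K)) b = actHom R (g : Gal(M/K)) b := Subtype.ext hg'
      change Ψ v₀ (actHom R (g' : Gal(M/K)) b) ≠ Ψ v₀ b
      rw [h9]; exact hg
    have hcover : (W'ᶜ : Set N) ⊆ ⋃ b, O b := by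
      intro g hg
      rw [Set.mem_iUnion]
      by_contra hcon
      push Not at hcon
      apply hg
      have h1 := hfree g g.2 (fun b => by
        have := hcon b
        simp only [O, Set.mem_setOf_eq, not_not, ne_eq] at this
        exact this)
      have h2 : g = 1 := Subtype.ext h1
      rw [h2]; exact h1W'
    obtain ⟨t, ht⟩ := hK.elim_finite_subcover O hOo hcover
    have h1 : ⋂ b ∈ t, ({σ : Gal(kb/k) | s σ (b : M) = b} ∩ {σ : Gal(kb/k) | σ (Ψ v₀ b) = Ψ v₀ b}) ∈
        nhds (1 : Gal(kb/k)) := by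
      rw [Filter.biInter_finset_mem]
      intro b _
      exact Filter.inter_mem (nhds_s s hs (Algebra.IsAlgebraic.isAlgebraic (R := K) (b : M)).isIntegral)
        (nhds_fix _)
    refine Filter.mem_of_superset h1 ?_
    intro σ hσ
    simp only [Set.mem_iInter] at hσ
    apply hW'W
    by_contra hcon
    have h2 := ht hcon
    simp only [Set.mem_iUnion] at h2
    obtain ⟨b, hb, hOb⟩ := h2
    obtain ⟨h3, h4⟩ := hσ b hb
    apply hOb
    have h5 : actHom R (c₀ σ) b = actHom R (c₀ σ * s σ) b := by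
      rw [actHom_mul]
      congr 1
      exact Subtype.ext h3.symm
    change Ψ v₀ (actHom R (c₀ σ) b) = Ψ v₀ b
    rw [h5, hc₀]
    exact h4
  -- everything is trivial
  have hkill := nilp_kill s hs hsec S ι v₀ N hNcl (fun g hg => hg) hres u hu hab
  obtain ⟨hav, hcv⟩ := hkill c hcoc hcont (fun v => ⟨a v, haN v⟩) hloc (Subtype.ext ha0)
  have ha1 : ∀ v, a v = 1 := fun v => congrArg Subtype.val (hav v)
  have hc1' : ∀ σ, c₀ σ = 1 := fun σ => congrArg Subtype.val (hcv σ)
  have hΨs : ∀ σ b, Ψ v₀ (actHom R (s σ) b) = σ (Ψ v₀ b) := by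
    intro σ b
    rw [← hc₀, hc1', one_mul]
  refine ⟨Ψ v₀, ⟨fun a b hb => ?_, fun σ τ hστ b b' hb => ?_⟩, hΨθ v₀, fun v b => ?_,
    fun Ψ' hΨ' hΨ'θ => ?_⟩
  · have : b = ⟨algebraMap kb M a, hBk a⟩ := Subtype.ext hb
    rw [this]; exact hΨk v₀ a
  · have h1 : τ = σ := by
      ext x; exact (hστ x).symm
    have h2 : b' = actHom R (s σ) b := Subtype.ext hb
    rw [h1, h2, hΨs]
  · rw [hΨ, ha, ha1, actHom_one]
  · -- uniqueness
    obtain ⟨g, hg, hg'⟩ := htrans Ψ' (fun a => hΨ'.1 a _ rfl) hΨ'θ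
    have hcomm : ∀ σ, s σ * g * (s σ)⁻¹ = g := by
      intro σ
      have h1 : s σ * g * (s σ)⁻¹ * s σ = g * s σ := by
        apply hfree'
        · have : s σ * g * (s σ)⁻¹ * s σ * (g * s σ)⁻¹ = (s σ * g * (s σ)⁻¹) * g⁻¹ := by group
          rw [this]
          exact mul_mem (hNconj _ _ hg) (inv_mem hg)
        · intro b
          rw [inv_mul_cancel_right, actHom_mul, hΨs, actHom_mul, ← hg', ← hg']
          exact (hΨ'.2 σ σ (fun x => rfl) b _ rfl).symm
      exact mul_right_cancel h1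
    obtain ⟨v₁', hv₁'⟩ := exists_notMem (insert v₀' S)
    have hv₁S : v₁' ∉ S := fun h => hv₁' (Finset.mem_insert_of_mem h)
    have hne : (⟨v₁', hv₁S⟩ : {v : HeightOneSpectrum (𝓞 k) // v ∉ S}) ≠ v₀ := by
      rw [hv₀]
      intro h
      apply hv₁'
      have h' : v₁' = v₀' := congrArg Subtype.val h
      rw [h']
      exact Finset.mem_insert_self _ _
    obtain ⟨h3, -⟩ := hkill (fun _ => 1) (fun σ τ => by simp) continuousAt_const
      (fun v => if v = v₀ then 1 else ⟨g, hg⟩) (fun v σ τ _ => by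
        by_cases h : v = v₀
        · simp [h]
        · simp only [h, if_false]
          rw [hcomm]
          simp) (by simp)
    have h4 := h3 ⟨v₁', hv₁S⟩
    rw [if_neg hne] at h4
    have h5 : g = 1 := congrArg Subtype.val h4
    ext b
    rw [hg', h5, actHom_one]

end Pool.Agent.Lib.MP_2f3286_ag
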