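import Mathlib
import Pool.Agent.Lib.MP_2f3286_ag.NilpCore

/-!
# Galois extensions of `k(t)` unramified over an open subset of the affine line
-/

open Polynomial IntermediateField

namespace Pool.Agent.Lib.MP_2f3286_ag

/-- The ring `k[t, 1/h]`. -/
def affRing {k K : Type*} [Field k] [Field K] [Algebra k K] (t : K) (h : k[X]) : Subalgebra k K :=
  Algebra.adjoin k {t, (aeval t h)⁻¹}

section

variable {k K M kb : Type*} [Field k] [Field K] [Field M] [Field kb] [Algebra k kb] [Algebra k K]
  [Algebra K M] [Algebra kb M] [Algebra k M] [IsScalarTower k K M] [IsScalarTower k kb M]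

theorem fixed_ratio [IsGalois K M] {t : K} (hK : IntermediateField.adjoin k {t} = ⊤) {z : M}
    (hz : ∀ g ∈ geomGroup K M kb, g z = z) :
    ∃ P Q : kb[X], z = aeval (algebraMap K M t) P / aeval (algebraMap K M t) Q := by
  let E : IntermediateField K M := IntermediateField.adjoin K (Set.range (algebraMap kb M))
  have h1 : z ∈ IntermediateField.fixedField E.fixingSubgroup := by
    rw [IntermediateField.mem_fixedField_iff]
    intro g hg
    apply hz
    intro a
    exact (IntermediateField.mem_fixingSubgroup_iff _ _).mp hg _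
      (IntermediateField.subset_adjoin _ _ ⟨a, rfl⟩)
  rw [InfiniteGalois.fixedField_fixingSubgroup] at h1
  let T := algebraMap K M t
  let L : IntermediateField kb M := IntermediateField.adjoin kb {T}
  have hKL : ∀ x : K, algebraMap K M x ∈ L := by
    intro x
    have hx : x ∈ IntermediateField.adjoin k {t} := by rw [hK]; exact IntermediateField.mem_top
    obtain ⟨r, s, rfl⟩ := (IntermediateField.mem_adjoin_simple_iff k x).mp hx
    have h2 : ∀ p : k[X], algebraMap K M (aeval t p) = aeval T (p.map (algebraMap k kb)) := by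
      intro p
      rw [aeval_map_algebraMap, aeval_algebraMap_apply]
    rw [map_div₀, h2, h2]
    exact (IntermediateField.mem_adjoin_simple_iff kb _).mpr ⟨_, _, rfl⟩
  let L' : IntermediateField K M := L.toSubfield.toIntermediateField hKL
  have h3 : E ≤ L' := by
    rw [IntermediateField.adjoin_le_iff]
    rintro _ ⟨a, rfl⟩
    exact L.algebraMap_mem a
  have h4 : z ∈ L := h3 h1
  exact (IntermediateField.mem_adjoin_simple_iff kb z).mp h4

theorem fixed_rep [IsGalois K M] {t : K} (hK : IntermediateField.adjoin k {t} = ⊤) (a : kb) {z : M}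
    (hz : ∀ g ∈ geomGroup K M kb, g z = z) (hz0 : z ≠ 0) :
    ∃ (m : ℤ) (P Q : kb[X]), P.eval a ≠ 0 ∧ Q.eval a ≠ 0 ∧ aeval (algebraMap K M t) P ≠ 0 ∧
      aeval (algebraMap K M t) Q ≠ 0 ∧
      z = (algebraMap K M t - algebraMap kb M a) ^ m *
        (aeval (algebraMap K M t) P / aeval (algebraMap K M t) Q) := by
  obtain ⟨P₀, Q₀, rfl⟩ := fixed_ratio hK hz
  set T := algebraMap K M t with hT
  have hP0 : aeval T P₀ ≠ 0 := fun h => hz0 (by rw [h, zero_div])
  have hQ0 : aeval T Q₀ ≠ 0 := fun h => hz0 (by rw [h, div_zero])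
  have hP : P₀ ≠ 0 := by rintro rfl; rw [map_zero] at hP0; exact hP0 rfl
  have hQ : Q₀ ≠ 0 := by rintro rfl; rw [map_zero] at hQ0; exact hQ0 rfl
  obtain ⟨P, hP1, hP2⟩ := P₀.exists_eq_pow_rootMultiplicity_mul_and_not_dvd hP a
  obtain ⟨Q, hQ1, hQ2⟩ := Q₀.exists_eq_pow_rootMultiplicity_mul_and_not_dvd hQ a
  set p := rootMultiplicity a P₀
  set q := rootMultiplicity a Q₀
  have e1 : aeval T P₀ = (T - algebraMap kb M a) ^ p * aeval T P := by
    conv_lhs => rw [hP1]
    rw [map_mul, map_pow, map_sub, aeval_X, aeval_C]
  have e2 : aeval T Q₀ = (T - algebraMap kb M a) ^ q * aeval T Q := by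
    conv_lhs => rw [hQ1]
    rw [map_mul, map_pow, map_sub, aeval_X, aeval_C]
  have hP3 : aeval T P ≠ 0 := fun h => hP0 (by rw [e1, h, mul_zero])
  have hQ3 : aeval T Q ≠ 0 := fun h => hQ0 (by rw [e2, h, mul_zero])
  by_cases hTa : T - algebraMap kb M a = 0
  · -- then the exponents vanish
    have hp : p = 0 := by
      by_contra hp
      exact hP0 (by rw [e1, hTa, zero_pow hp, zero_mul])
    have hq : q = 0 := by
      by_contra hq
      exact hQ0 (by rw [e2, hTa, zero_pow hq, zero_mul])
    refine ⟨0, P, Q, ?_, ?_, hP3, hQ3, ?_⟩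
    · rw [Polynomial.dvd_iff_isRoot] at hP2; exact hP2
    · rw [Polynomial.dvd_iff_isRoot] at hQ2; exact hQ2
    · rw [e1, e2, hp, hq, pow_zero, zpow_zero, one_mul, one_mul, one_mul]
  · refine ⟨(p : ℤ) - q, P, Q, ?_, ?_, hP3, hQ3, ?_⟩
    · rw [Polynomial.dvd_iff_isRoot] at hP2; exact hP2
    · rw [Polynomial.dvd_iff_isRoot] at hQ2; exact hQ2
    · rw [e1, e2, zpow_sub₀ hTa, zpow_natCast, zpow_natCast]
      field_simp

/-- fractions of polynomials in `T` over `kb` with denominator a power of `h` -/
def fracRing (kb : Type*) {M : Type*} [Field kb] [Field M] [Algebra kb M] (T : M) (H : kb[X]) :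
    Subring M where
  carrier := {m | ∃ (l : ℕ) (P : kb[X]), m * (aeval T H) ^ l = aeval T P}
  one_mem' := ⟨0, 1, by simp⟩
  zero_mem' := ⟨0, 0, by simp⟩
  mul_mem' := by
    rintro m m' ⟨l, P, h⟩ ⟨l', P', h'⟩
    refine ⟨l + l', P * P', ?_⟩
    rw [map_mul, ← h, ← h', pow_add]; ring
  add_mem' := by
    rintro m m' ⟨l, P, h⟩ ⟨l', P', h'⟩
    refine ⟨l + l', P * H ^ l' + P' * H ^ l, ?_⟩
    rw [map_add, map_mul, map_mul, map_pow, map_pow, ← h, ← h', pow_add]; ring
  neg_mem' := by
    rintro m ⟨l, P, h⟩
    exact ⟨l, -P, by rw [map_neg, ← h]; ring⟩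

theorem affRing_mem {t : K} (ht : Transcendental k t) {h : k[X]} (hh : h ≠ 0)
    (r : affRing t h) : algebraMap K M (r : K) ∈
      (fracRing kb (algebraMap K M t) (h.map (algebraMap k kb)) : Subring M) := by
  have hht : aeval t h ≠ 0 := (transcendental_iff.mp ht h).mt hh
  have h2 : ∀ p : k[X], algebraMap K M (aeval t p) =
      aeval (algebraMap K M t) (p.map (algebraMap k kb)) := by
    intro p
    rw [aeval_map_algebraMap, aeval_algebraMap_apply]
  let A : Subalgebra k K :=
    { (fracRing kb (algebraMap K M t) (h.map (algebraMap k kb))).comap (algebraMap K M) with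
      algebraMap_mem' := fun c => by
        change algebraMap K M (algebraMap k K c) ∈
          (fracRing kb (algebraMap K M t) (h.map (algebraMap k kb)) : Subring M)
        refine ⟨0, C (algebraMap k kb c), ?_⟩
        rw [pow_zero, mul_one, aeval_C, ← IsScalarTower.algebraMap_apply,
          ← IsScalarTower.algebraMap_apply] }
  have h3 : affRing t h ≤ A := by
    refine Algebra.adjoin_le ?_
    rintro x (rfl | rfl)
    · exact ⟨0, X, by simp⟩
    · refine ⟨1, 1, ?_⟩
      rw [map_one, pow_one, ← h2, ← map_mul, inv_mul_cancel₀ hht, map_one]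
  exact h3 r.2

variable [Algebra.IsAlgebraic k kb]

theorem transc_kb {t : K} (ht : Transcendental k t) : Transcendental kb (algebraMap K M t) := by
  intro h
  have h1 : IsAlgebraic k (algebraMap K M t) := h.restrictScalars k
  exact ht ((isAlgebraic_algebraMap_iff (algebraMap K M).injective).mp h1)

theorem int_kb {t : K} {h : k[X]} (a : kb) : IsIntegral (affRing t h) (algebraMap kb M a) := by
  have htow' : IsScalarTower k (affRing t h) M := IsScalarTower.of_algebraMap_eq fun x => by
    rw [IsScalarTower.algebraMap_apply k K M]; rfl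
  have h1 : IsIntegral k a := Algebra.IsIntegral.isIntegral a
  have h2 : IsIntegral k (algebraMap kb M a) := h1.algebraMap
  exact h2.tower_top

/-- constants in the integral closure -/
def kbB (t : K) (h : k[X]) : kb →+* integralClosure (affRing t h) M :=
  (algebraMap kb M).codRestrict (integralClosure (affRing t h) M) int_kb

/-- the coordinate in the integral closure -/
def tB (M : Type*) [Field M] [Algebra K M] (t : K) (h : k[X]) :
    integralClosure (affRing t h) M :=
  algebraMap (affRing t h) _ ⟨t, Algebra.subset_adjoin (by simp)⟩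

theorem tB_coe (t : K) (h : k[X]) : ((tB M t h : integralClosure (affRing t h) M) : M) =
    algebraMap K M t := rfl

/-- polynomials in the integral closure -/
def polyB (t : K) (h : k[X]) : kb[X] →+* integralClosure (affRing t h) M :=
  Polynomial.eval₂RingHom (kbB t h) (tB M t h)

theorem polyB_coe (t : K) (h : k[X]) (P : kb[X]) :
    ((polyB t h P : integralClosure (affRing t h) M) : M) = aeval (algebraMap K M t) P := by
  have h1 := Polynomial.hom_eval₂ P (kbB (M := M) t h) (integralClosure (affRing t h) M).subtype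
    (tB M t h)
  exact h1

theorem point_poly {t : K} {h : k[X]} (Ψ : integralClosure (affRing t h) M →+* kb) (a : kb)
    (h1 : ∀ x, Ψ (kbB t h x) = x) (h2 : Ψ (tB M t h) = a) (P : kb[X]) :
    Ψ (polyB t h P) = P.eval a := by
  change Ψ (Polynomial.eval₂ _ _ P) = _
  rw [Polynomial.hom_eval₂, h2]
  have h3 : Ψ.comp (kbB t h) = RingHom.id kb := RingHom.ext h1
  rw [h3, Polynomial.eval₂_id]

theorem exists_point [IsAlgClosed kb] {t : K} (ht : Transcendental k t) {h : k[X]} (hh : h ≠ 0)
    (a : kb) (ha : aeval a h ≠ 0) :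
    ∃ Ψ : integralClosure (affRing t h) M →+* kb, (∀ x, Ψ (kbB t h x) = x) ∧ Ψ (tB M t h) = a := by
  classical
  set T := algebraMap K M t with hT
  set H := h.map (algebraMap k kb) with hH
  have htr : Transcendental kb T := transc_kb ht
  have hHa : H.eval a ≠ 0 := by rw [hH, eval_map_algebraMap]; exact ha
  have hu0 : T - algebraMap kb M a ≠ 0 := by
    intro h0
    apply htr
    refine ⟨X - C a, X_sub_C_ne_zero a, ?_⟩
    rw [map_sub, aeval_X, aeval_C]; exact h0
  let J : Ideal (integralClosure (affRing t h) M) := Ideal.span {tB M t h - kbB t h a}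
  have hJ : J ≠ ⊤ := by
    intro hJ
    have h1 : (1 : integralClosure (affRing t h) M) ∈ J := by rw [hJ]; exact Submodule.mem_top
    rw [Ideal.mem_span_singleton] at h1
    obtain ⟨b, hb⟩ := h1
    have hb' : (T - algebraMap kb M a) * (b : M) = 1 := (congrArg Subtype.val hb).symm
    have hb0 : (b : M) ≠ 0 := right_ne_zero_of_mul (by rw [hb']; exact one_ne_zero)
    obtain ⟨p, hp, hpb⟩ := b.2
    have hinv : Invertible (b : M) := ⟨T - algebraMap kb M a, hb', by rw [mul_comm]; exact hb'⟩
    have h2 := (Polynomial.eval₂_reverse_eq_zero_iff (algebraMap (affRing t h) M) (b : M) p).mpr hpb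
    have h3 : (⅟(b : M)) = T - algebraMap kb M a := by
      rw [invOf_eq_inv]; exact (eq_inv_of_mul_eq_one_left hb').symm
    rw [h3, ← Polynomial.divX_mul_X_add (reverse p), eval₂_add, eval₂_mul, eval₂_X, eval₂_C,
      coeff_zero_reverse, hp.leadingCoeff, map_one] at h2
    -- the quotient is a fraction
    have hmem : eval₂ (algebraMap (affRing t h) M) (T - algebraMap kb M a) (divX (reverse p)) ∈
        fracRing kb T H := by
      rw [eval₂_eq_sum_range]
      refine Subring.sum_mem _ fun i _ => Subring.mul_mem _ ?_ (Subring.pow_mem _ ?_ _)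
      · exact affRing_mem ht hh _
      · exact ⟨0, X - C a, by simp⟩
    obtain ⟨l, P, hP⟩ := hmem
    have h4 : aeval T (P * (X - C a) + H ^ l) = 0 := by
      rw [map_add, map_mul, map_sub, aeval_X, aeval_C, map_pow, ← hP]
      linear_combination (aeval T H) ^ l * h2
    have h5 := (transcendental_iff.mp htr) _ h4
    have h6 := congrArg (eval a) h5
    rw [eval_add, eval_mul, eval_sub, eval_X, eval_C, sub_self, mul_zero, zero_add, eval_pow,
      eval_zero] at h6
    exact pow_ne_zero l hHa h6
  obtain ⟨Q, hQ, hJQ⟩ := Ideal.exists_le_maximal J hJ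
  let _ : Field (integralClosure (affRing t h) M ⧸ Q) := Ideal.Quotient.field Q
  let _ : Algebra kb (integralClosure (affRing t h) M ⧸ Q) :=
    ((Ideal.Quotient.mk Q).comp (kbB t h)).toAlgebra
  have halg : ∀ x : kb, algebraMap kb (integralClosure (affRing t h) M ⧸ Q) x =
      Ideal.Quotient.mk Q (kbB t h x) := fun x => rfl
  have htQ : Ideal.Quotient.mk Q (tB M t h) = algebraMap kb _ a := by
    rw [halg, Ideal.Quotient.eq]
    exact hJQ (Ideal.subset_span rfl)
  -- the image of the base ring
  have hint : Algebra.IsIntegral kb (integralClosure (affRing t h) M ⧸ Q) := by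
    constructor
    intro x
    obtain ⟨b, rfl⟩ := Ideal.Quotient.mk_surjective x
    obtain ⟨p, hp, hpb⟩ := b.2
    have hpb' : eval₂ (algebraMap (affRing t h) (integralClosure (affRing t h) M)) b p = 0 := by
      apply Subtype.val_injective
      have h2 := Polynomial.hom_eval₂ p (algebraMap (affRing t h) (integralClosure (affRing t h) M))
        (integralClosure (affRing t h) M).subtype b
      exact h2.trans hpb
    -- every element of the base ring is congruent to a constant
    have hR : ∀ r : affRing t h, ∃ y : kb, Ideal.Quotient.mk Q (algebraMap _ _ r) =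
        algebraMap kb (integralClosure (affRing t h) M ⧸ Q) y := by
      intro r
      obtain ⟨l, P, hP⟩ := affRing_mem (M := M) (kb := kb) ht hh r
      have h7 : algebraMap (affRing t h) (integralClosure (affRing t h) M) r * (polyB t h H) ^ l =
          polyB t h P := by
        apply Subtype.ext
        change algebraMap K M r * ((polyB t h H : integralClosure (affRing t h) M) : M) ^ l =
          ((polyB t h P : integralClosure (affRing t h) M) : M)
        rw [polyB_coe, polyB_coe]; exact hP
      have h8 : ∀ P : kb[X], Ideal.Quotient.mk Q (polyB t h P) = algebraMap kb _ (P.eval a) := by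
        intro P
        change Ideal.Quotient.mk Q (Polynomial.eval₂ _ _ P) = _
        rw [Polynomial.hom_eval₂, htQ]
        change eval₂ (algebraMap kb _) (algebraMap kb _ a) P = _
        rw [eval₂_at_apply]
      have h9 := congrArg (Ideal.Quotient.mk Q) h7
      rw [map_mul, map_pow, h8, h8] at h9
      refine ⟨P.eval a / (H.eval a) ^ l, ?_⟩
      rw [map_div₀, map_pow, eq_div_iff (pow_ne_zero l (by rw [_root_.map_ne_zero]; exact hHa))]
      exact h9
    choose e he using hR
    have hinj := (algebraMap kb (integralClosure (affRing t h) M ⧸ Q)).injective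
    let e' : affRing t h →+* kb :=
      { toFun := e
        map_one' := hinj (by rw [← he, map_one, map_one, map_one])
        map_mul' := fun a b => hinj (by rw [map_mul, ← he, ← he, ← he, map_mul, map_mul])
        map_zero' := hinj (by rw [← he, map_zero, map_zero, map_zero])
        map_add' := fun a b => hinj (by rw [map_add, ← he, ← he, ← he, map_add, map_add]) }
    refine ⟨p.map e', hp.map e', ?_⟩
    rw [eval₂_map]
    have h10 : (algebraMap kb (integralClosure (affRing t h) M ⧸ Q)).comp e' =
        (Ideal.Quotient.mk Q).comp (algebraMap (affRing t h) (integralClosure (affRing t h) M)) := by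
      ext r
      exact (he r).symm
    rw [h10, ← Polynomial.hom_eval₂, hpb', map_zero]
  have hbij := IsAlgClosed.algebraMap_bijective_of_isIntegral (k := kb)
    (K := integralClosure (affRing t h) M ⧸ Q)
  let E := RingEquiv.ofBijective _ hbij
  have hE : ∀ x, E.symm (algebraMap kb _ x) = x := fun x => E.symm_apply_apply x
  refine ⟨(E.symm : _ →+* kb).comp (Ideal.Quotient.mk Q), fun x => ?_, ?_⟩
  · change E.symm (Ideal.Quotient.mk Q (kbB t h x)) = x
    rw [← halg, hE]
  · change E.symm (Ideal.Quotient.mk Q (tB M t h)) = a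
    rw [htQ, hE]

end

end Pool.Agent.Lib.MP_2f3286_ag
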