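import Mathlib
import Pool.Agent.Lib.MP_2f3286_ag.G0
import Pool.Agent.Lib.MP_2f3286_ag.Kummer

/-!
# Ramification and fixed points
-/

open Polynomial IntermediateField
open scoped Pointwise

namespace Pool.Agent.Lib.MP_2f3286_ag

section

variable {R K M kb : Type*} [CommRing R] [Field K] [Field M] [Algebra R K] [Algebra K M]
  [Algebra R M] [IsScalarTower R K M] [IsGalois K M] [Field kb] [Algebra kb M]

/-- A closed group of automorphisms over `kb` acts transitively on the `kb`-points that agree on the
fixed elements. -/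
theorem points_closed (V : Subgroup Gal(M/K)) (hV : IsClosed (V : Set Gal(M/K)))
    (hVk : V ≤ geomGroup K M kb)
    (Ψ Ψ' : integralClosure R M →+* kb) (κ : kb → integralClosure R M)
    (hκ : ∀ a, (κ a : M) = algebraMap kb M a)
    (hΨ : ∀ a, Ψ (κ a) = a) (hΨ' : ∀ a, Ψ' (κ a) = a)
    (h : ∀ b, (∀ g ∈ V, actHom R g b = b) → Ψ b = Ψ' b) :
    ∃ g ∈ V, ∀ b, Ψ' b = Ψ (actHom R g b) := by
  let actB : MulSemiringAction V (integralClosure R M) :=
    { smul := fun g b => actHom R (g : Gal(M/K)) b
      one_smul := actHom_one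
      mul_smul := fun g h => actHom_mul (g : Gal(M/K)) h
      smul_zero := fun g => map_zero _
      smul_add := fun g _ _ => map_add _ _ _
      smul_one := fun g => map_one _
      smul_mul := fun g _ _ => map_mul _ _ _ }
  let _ : TopologicalSpace (integralClosure R M) := ⊥
  have _ : DiscreteTopology (integralClosure R M) := ⟨rfl⟩
  have hcomp : CompactSpace V := isCompact_iff_compactSpace.mp hV.isCompact
  have hcs : @ContinuousSMul V (integralClosure R M) actB.toSMul inferInstance inferInstance := by
    refine (continuousSMul_iff_stabilizer_isOpen (M := V) (X := integralClosure R M)).mpr ?_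
    intro b
    have h1 := stabilizer_isOpen_of_isIntegral (K := K) (b : M)
    have h2 := h1.preimage (continuous_subtype_val : Continuous (Subtype.val : V → Gal(M/K)))
    convert h2 using 1
    ext g
    constructor
    · intro h
      exact congrArg Subtype.val h
    · intro h
      exact Subtype.ext h
  let A : Subring (integralClosure R M) := FixedPoints.subring (integralClosure R M) V
  have hinv : Algebra.IsInvariant A (integralClosure R M) V := ⟨fun b hb => ⟨⟨b, hb⟩, rfl⟩⟩
  have hprime : (RingHom.ker Ψ).IsPrime := RingHom.ker_isPrime Ψ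
  have hprime' : (RingHom.ker Ψ').IsPrime := RingHom.ker_isPrime Ψ'
  have hunder : (RingHom.ker Ψ).under A = (RingHom.ker Ψ').under A := by
    ext r
    change Ψ (r : integralClosure R M) = 0 ↔ Ψ' (r : integralClosure R M) = 0
    rw [h r (fun g hg => r.2 ⟨g, hg⟩)]
  have htd : TotallyDisconnectedSpace V := inferInstance
  have hcomm : SMulCommClass V A (integralClosure R M) := ⟨fun g r b => by
    change g • ((r : integralClosure R M) * b) = (r : integralClosure R M) * (g • b)
    rw [smul_mul']
    congr 1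
    exact r.2 g⟩
  obtain ⟨g, hg⟩ := Algebra.IsInvariant.exists_smul_of_under_eq_of_profinite (A := A)
      (G := V) (RingHom.ker Ψ) (RingHom.ker Ψ') hunder
  refine ⟨(g⁻¹ : V), (g⁻¹ : V).2, fun b => ?_⟩
  have h1 : b - κ (Ψ' b) ∈ RingHom.ker Ψ' := by
    rw [RingHom.mem_ker, map_sub, hΨ', sub_self]
  rw [hg, Ideal.mem_pointwise_smul_iff_inv_smul_mem, RingHom.mem_ker] at h1
  replace h1 : Ψ (actHom R ((g⁻¹ : V) : Gal(M/K)) (b - κ (Ψ' b))) = 0 := h1
  rw [map_sub, map_sub, sub_eq_zero] at h1
  have h2 : actHom R ((g⁻¹ : V) : Gal(M/K)) (κ (Ψ' b)) = κ (Ψ' b) := by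
    apply Subtype.ext
    rw [actHom_coe, hκ]
    exact hVk (g⁻¹ : V).2 _
  rw [h2, hΨ] at h1
  exact h1.symm

end

section

variable {k K M kb : Type*} [Field k] [Field K] [Field M] [Field kb] [Algebra k kb] [Algebra k K]
  [Algebra K M] [Algebra kb M] [Algebra k M] [IsScalarTower k K M] [IsScalarTower k kb M]

theorem geom_aeval {t : K} {g : Gal(M/K)} (hg : g ∈ geomGroup K M kb) (P : kb[X]) :
    g (aeval (algebraMap K M t) P) = aeval (algebraMap K M t) P := by
  rw [aeval_eq_sum_range, map_sum]
  refine Finset.sum_congr rfl fun i _ => ?_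
  rw [Algebra.smul_def, map_mul, map_pow, AlgEquiv.commutes, hg]

theorem ord_unique [Algebra.IsAlgebraic k kb] {t : K} (ht : Transcendental k t) (a : kb)
    {m m' : ℤ} {P Q P' Q' : kb[X]}
    (hP : P.eval a ≠ 0) (hQ : Q.eval a ≠ 0) (hP' : P'.eval a ≠ 0) (hQ' : Q'.eval a ≠ 0)
    (h : (algebraMap K M t - algebraMap kb M a) ^ m * aeval (algebraMap K M t) P *
        aeval (algebraMap K M t) Q' =
      (algebraMap K M t - algebraMap kb M a) ^ m' * aeval (algebraMap K M t) P' *
        aeval (algebraMap K M t) Q) : m = m' := by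
  have htr : Transcendental kb (algebraMap K M t) := transc_kb ht
  have hinj : Function.Injective (aeval (algebraMap K M t) : kb[X] →ₐ[kb] M) :=
    transcendental_iff_injective.mp htr
  have hX : aeval (algebraMap K M t) (X - C a) = algebraMap K M t - algebraMap kb M a := by
    rw [map_sub, aeval_X, aeval_C]
  have hX0 : algebraMap K M t - algebraMap kb M a ≠ 0 := by
    rw [← hX]
    intro h0
    have := hinj (h0.trans (map_zero _).symm)
    exact X_sub_C_ne_zero a this
  wlog hle : m ≤ m' generalizing m m' P Q P' Q'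
  · exact (this hP' hQ' hP hQ h.symm (le_of_not_ge hle)).symm
  obtain ⟨d, rfl⟩ := Int.le.dest hle
  rw [zpow_add₀ hX0, zpow_natCast, mul_assoc, mul_assoc, mul_assoc] at h
  have h1 := mul_left_cancel₀ (zpow_ne_zero m hX0) h
  rw [← hX, ← map_mul, ← map_pow, ← map_mul, ← map_mul] at h1
  have h2 := congrArg (eval a) (hinj h1)
  rw [eval_mul, eval_mul, eval_pow, eval_sub, eval_X, eval_C, sub_self] at h2
  rcases Nat.eq_zero_or_pos d with hd | hd
  · rw [hd]; simp
  · rw [zero_pow hd.ne', zero_mul] at h2
    exact absurd h2 (mul_ne_zero hP hQ')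

/-- a point kills elements of positive order -/
theorem point_ord [Algebra.IsAlgebraic k kb] {t : K} (ht : Transcendental k t) {h : k[X]}
    (Ψ : integralClosure (affRing t h) M →+* kb) (a : kb)
    (h1 : ∀ x, Ψ (kbB t h x) = x) (h2 : Ψ (tB M t h) = a) {b : integralClosure (affRing t h) M}
    {μ : ℤ} (hμ : μ ≠ 0) {P Q : kb[X]} (hP : P.eval a ≠ 0) (hQ : Q.eval a ≠ 0)
    (hb : (b : M) * aeval (algebraMap K M t) Q =
      (algebraMap K M t - algebraMap kb M a) ^ μ * aeval (algebraMap K M t) P) : Ψ b = 0 := by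
  have htr : Transcendental kb (algebraMap K M t) := transc_kb ht
  have hX : aeval (algebraMap K M t) (X - C a) = algebraMap K M t - algebraMap kb M a := by
    rw [map_sub, aeval_X, aeval_C]
  have hX0 : algebraMap K M t - algebraMap kb M a ≠ 0 := by
    rw [← hX]
    intro h0
    have := transcendental_iff_injective.mp htr (h0.trans (map_zero _).symm)
    exact X_sub_C_ne_zero a this
  rcases lt_or_gt_of_ne hμ with hneg | hpos
  · exfalso
    obtain ⟨d, hd⟩ := Int.exists_eq_neg_ofNat hneg.le
    have hd0 : d ≠ 0 := by rintro rfl; exact hμ (by rw [hd]; simp)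
    rw [hd, zpow_neg, zpow_natCast] at hb
    have h3 : b * polyB t h (Q * (X - C a) ^ d) = polyB t h P := by
      apply Subtype.ext
      change (b : M) * ((polyB t h (Q * (X - C a) ^ d) : integralClosure (affRing t h) M) : M) =
        ((polyB t h P : integralClosure (affRing t h) M) : M)
      rw [polyB_coe, polyB_coe, map_mul, map_pow, hX, ← mul_assoc, hb]
      rw [mul_comm _ (aeval _ P), mul_assoc, inv_mul_cancel₀ (pow_ne_zero d hX0), mul_one]
    have h4 := congrArg Ψ h3
    rw [map_mul, point_poly Ψ a h1 h2, point_poly Ψ a h1 h2, eval_mul, eval_pow, eval_sub, eval_X,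
      eval_C, sub_self, zero_pow hd0, mul_zero, mul_zero] at h4
    exact hP h4.symm
  · obtain ⟨d, hd⟩ := Int.eq_ofNat_of_zero_le hpos.le
    have hd0 : d ≠ 0 := by rintro rfl; exact hμ (by rw [hd]; simp)
    rw [hd, zpow_natCast] at hb
    have h3 : b * polyB t h Q = polyB t h ((X - C a) ^ d * P) := by
      apply Subtype.ext
      change (b : M) * ((polyB t h Q : integralClosure (affRing t h) M) : M) =
        ((polyB t h ((X - C a) ^ d * P) : integralClosure (affRing t h) M) : M)
      rw [polyB_coe, polyB_coe, map_mul, map_pow, hX, hb]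
    have h4 := congrArg Ψ h3
    rw [map_mul, point_poly Ψ a h1 h2, point_poly Ψ a h1 h2, eval_mul, eval_pow, eval_sub, eval_X,
      eval_C, sub_self, zero_pow hd0, zero_mul] at h4
    exact (mul_eq_zero.mp h4).resolve_right hQ

end

end Pool.Agent.Lib.MP_2f3286_ag
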