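import Mathlib
import Pool.Agent.Lib.MP_2f3286_ag.G0Ram

/-!
# Unramified covers of an open subset of the affine line: orders are divisible
-/

open Polynomial IntermediateField

namespace Pool.Agent.Lib.MP_2f3286_ag

section eigen

variable {kb B : Type*} [Field kb] [CommRing B]

theorem eigen_one (κ : kb →+* B) (γ : B →+* B) (hγκ : ∀ a, γ (κ a) = κ a) {e : ℕ}
    {ζ : kb} (hζ : ζ ≠ 0) (he : ζ ^ e = 1) (b : B) (hb : γ^[e] b = b) (i : ℕ) :
    γ (∑ j ∈ Finset.range e, κ (ζ⁻¹) ^ (i * j) * γ^[j] b) =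
      κ ζ ^ i * ∑ j ∈ Finset.range e, κ (ζ⁻¹) ^ (i * j) * γ^[j] b := by
  have hz : κ ζ * κ (ζ⁻¹) = 1 := by rw [← map_mul, mul_inv_cancel₀ hζ, map_one]
  have he' : κ (ζ⁻¹) ^ (i * e) = 1 := by
    rw [mul_comm, pow_mul, ← map_pow, inv_pow, he, inv_one, map_one, one_pow]
  have h1 := Finset.sum_range_succ' (fun j => κ ζ ^ i * (κ (ζ⁻¹) ^ (i * j) * γ^[j] b)) e
  rw [Finset.sum_range_succ] at h1
  simp only [he', hb, mul_zero, pow_zero, one_mul, Function.iterate_zero, id_eq] at h1
  have h2 := add_right_cancel h1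
  rw [Finset.mul_sum, h2, map_sum]
  refine Finset.sum_congr rfl fun j _ => ?_
  rw [map_mul, map_pow, hγκ, Function.iterate_succ_apply', mul_add, mul_one, pow_add]
  have hz' : (κ ζ * κ (ζ⁻¹)) ^ i = 1 := by rw [hz, one_pow]
  linear_combination -(κ (ζ⁻¹) ^ (i * j)) * γ (γ^[j] b) * hz'

theorem eigen_sum (κ : kb →+* B) (γ : B →+* B) {e : ℕ} (he0 : 0 < e)
    {ζ : kb} (hζ : IsPrimitiveRoot ζ e) (b : B) :
    ∑ i ∈ Finset.range e, ∑ j ∈ Finset.range e, κ (ζ⁻¹) ^ (i * j) * γ^[j] b = e * b := by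
  rw [Finset.sum_comm]
  have h1 : ∀ j ∈ Finset.range e, ∑ i ∈ Finset.range e, κ (ζ⁻¹) ^ (i * j) * γ^[j] b =
      if j = 0 then (e : B) * b else 0 := by
    intro j hj
    rw [← Finset.sum_mul]
    split_ifs with h0
    · subst h0
      simp
    · have h2 : ζ⁻¹ ^ j ≠ 1 := by
        rw [inv_pow]
        intro h3
        exact hζ.pow_ne_one_of_pos_of_lt h0 (Finset.mem_range.mp hj) (inv_eq_one.mp h3)
      have h3 : ∑ i ∈ Finset.range e, (ζ⁻¹ ^ j) ^ i = 0 := by
        have h4 := geom_sum_mul (ζ⁻¹ ^ j) e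
        have h5 : (ζ⁻¹ ^ j) ^ e = 1 := by
          rw [← pow_mul, mul_comm j e, pow_mul, inv_pow ζ e, hζ.pow_eq_one, inv_one, one_pow]
        rw [h5, sub_self] at h4
        exact (mul_eq_zero.mp h4).resolve_right (sub_ne_zero.mpr h2)
      have h4 : ∑ i ∈ Finset.range e, κ (ζ⁻¹) ^ (i * j) = 0 := by
        rw [← map_zero κ, ← h3, map_sum]
        refine Finset.sum_congr rfl fun i _ => ?_
        rw [map_pow, map_pow, ← pow_mul, mul_comm i j]
      rw [h4, zero_mul]
  rw [Finset.sum_congr rfl h1, Finset.sum_ite_eq' ]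
  rw [if_pos (Finset.mem_range.mpr he0)]

end eigen

theorem geomGroup_closed {K M kb : Type*} [Field K] [Field M] [Field kb] [Algebra K M]
    [IsGalois K M] [Algebra kb M] : IsClosed (geomGroup K M kb : Set Gal(M/K)) := by
  have h1 : (geomGroup K M kb : Set Gal(M/K)) =
      ⋂ a : kb, (MulAction.stabilizer Gal(M/K) (algebraMap kb M a) : Set Gal(M/K)) := by
    ext g
    rw [Set.mem_iInter]
    exact Iff.rfl
  rw [h1]
  refine isClosed_iInter fun a => ?_
  exact Subgroup.isClosed_of_isOpen _ (stabilizer_isOpen_of_isIntegral (K := K) _)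

theorem actHom_iter {R K M : Type*} [CommRing R] [Field K] [Field M] [Algebra R K] [Algebra K M]
    [Algebra R M] [IsScalarTower R K M] (g : Gal(M/K)) (j : ℕ) (b : integralClosure R M) :
    (actHom R g)^[j] b = actHom R (g ^ j) b := by
  induction j with
  | zero => rw [Function.iterate_zero, pow_zero, actHom_one]; rfl
  | succ j ih => rw [Function.iterate_succ_apply', ih, ← actHom_mul, pow_succ']

section

variable {k K M kb : Type*} [Field k] [Field K] [Field M] [Field kb] [Algebra k kb] [Algebra k K]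
  [Algebra K M] [Algebra kb M] [Algebra k M] [IsScalarTower k K M] [IsScalarTower k kb M]

theorem zpow_eigen {K M kb : Type*} [Field K] [Field M] [Field kb] [Algebra K M] [Algebra kb M]
    {g : Gal(M/K)} (hg : g ∈ geomGroup K M kb) {x : M} {z : kbˣ}
    (h : g x = algebraMap kb M z * x) (l : ℤ) :
    (g ^ l) x = algebraMap kb M ((z ^ l : kbˣ) : kb) * x := by
  have hNm : ∀ {g : Gal(M/K)}, g ∈ geomGroup K M kb →
      ∀ a : kb, g (algebraMap kb M a) = algebraMap kb M a := fun hg => hg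
  have hnat : ∀ l : ℕ, (g ^ l) x = algebraMap kb M ((z ^ l : kbˣ) : kb) * x := by
    intro l
    induction l with
    | zero => simp
    | succ l ih =>
      rw [pow_succ, AlgEquiv.mul_apply, h, map_mul, hNm (pow_mem hg l), ih, pow_succ,
        Units.val_mul, map_mul]
      ring
  obtain ⟨l, rfl | rfl⟩ := l.eq_nat_or_neg
  · rw [zpow_natCast, zpow_natCast]; exact hnat l
  · have h1 : (g ^ (-(l : ℤ))) ((g ^ l) x) = x := by
      rw [← AlgEquiv.mul_apply, ← zpow_natCast, ← zpow_add, neg_add_cancel, zpow_zero]; rfl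
    rw [hnat, map_mul, hNm (zpow_mem hg _)] at h1
    have h2 : algebraMap kb M ((z ^ (-(l : ℤ)) : kbˣ) : kb) *
        algebraMap kb M ((z ^ l : kbˣ) : kb) = 1 := by
      rw [← map_mul, ← Units.val_mul, ← zpow_natCast, ← zpow_add, neg_add_cancel, zpow_zero,
        Units.val_one, map_one]
    calc (g ^ (-(l : ℤ))) x = algebraMap kb M ((z ^ (-(l : ℤ)) : kbˣ) : kb) *
          (algebraMap kb M ((z ^ l : kbˣ) : kb) * (g ^ (-(l : ℤ))) x) := by
            rw [← mul_assoc, h2, one_mul]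
      _ = _ := by rw [h1]

theorem ram [IsGalois K M] [IsAlgClosed kb] [CharZero kb] [Algebra.IsAlgebraic k kb] {t : K}
    (ht : Transcendental k t)
    (hK : IntermediateField.adjoin k {t} = ⊤) {h : k[X]} (hh : h ≠ 0)
    (hun : ∀ Ψ : integralClosure (affRing t h) M →+* kb,
      (∀ (a : kb) (b : integralClosure (affRing t h) M), (b : M) = algebraMap _ M a → Ψ b = a) →
      ∀ g ∈ geomGroup K M kb,
        (∀ b b' : integralClosure (affRing t h) M, (b' : M) = g b → Ψ b' = Ψ b) → g = 1)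
    {n : ℕ} (hn : 1 ≤ n) {c : M} {P : kb[X]} (hP : P ≠ 0)
    (hc : c ^ n = aeval (algebraMap K M t) P) (a : kb) (ha : aeval a h ≠ 0) :
    n ∣ P.rootMultiplicity a := by
  classical
  have htr : Transcendental kb (algebraMap K M t) := transc_kb ht
  have hinj : Function.Injective (aeval (algebraMap K M t) : kb[X] →ₐ[kb] M) :=
    transcendental_iff_injective.mp htr
  have hPT : aeval (algebraMap K M t) P ≠ 0 := fun h0 => hP (hinj (h0.trans (map_zero _).symm))
  have hc0 : c ≠ 0 := by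
    rintro rfl
    rw [zero_pow (by omega)] at hc
    exact hPT hc.symm
  have hinjk := (algebraMap kb M).injective
  have hNm : ∀ {g : Gal(M/K)}, g ∈ geomGroup K M kb →
      ∀ a : kb, g (algebraMap kb M a) = algebraMap kb M a := fun hg => hg
  have hX : aeval (algebraMap K M t) (X - C a) = algebraMap K M t - algebraMap kb M a := by
    rw [map_sub, aeval_X, aeval_C]
  have hX0 : algebraMap K M t - algebraMap kb M a ≠ 0 := by
    rw [← hX]
    intro h0
    exact X_sub_C_ne_zero a (hinj (h0.trans (map_zero _).symm))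
  -- the group of multipliers
  let H : Subgroup kbˣ :=
    { carrier := {ζ | ∃ g ∈ geomGroup K M kb, g c = algebraMap kb M ζ * c}
      one_mem' := ⟨1, one_mem _, by simp⟩
      mul_mem' := by
        rintro x y ⟨g, hg, hgc⟩ ⟨g', hg', hgc'⟩
        refine ⟨g * g', mul_mem hg hg', ?_⟩
        rw [AlgEquiv.mul_apply, hgc', map_mul, hNm hg, hgc, Units.val_mul, map_mul]; ring
      inv_mem' := by
        rintro x ⟨g, hg, hgc⟩
        refine ⟨g⁻¹, inv_mem hg, ?_⟩
        have h1 : g⁻¹ (g c) = c := g.symm_apply_apply _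
        rw [hgc, map_mul, hNm (inv_mem hg)] at h1
        have h2 : algebraMap kb M ((x⁻¹ : kbˣ) : kb) * algebraMap kb M (x : kb) = 1 := by
          rw [← map_mul, ← Units.val_mul, inv_mul_cancel, Units.val_one, map_one]
        calc g⁻¹ c = algebraMap kb M ((x⁻¹ : kbˣ) : kb) * (algebraMap kb M (x : kb) * g⁻¹ c) := by
              rw [← mul_assoc, h2, one_mul]
          _ = _ := by rw [h1] }
  have hHmem : ∀ {ζ : kbˣ}, ζ ∈ H ↔ ∃ g ∈ geomGroup K M kb, g c = algebraMap kb M ζ * c := Iff.rfl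
  have hcn : ∀ g ∈ geomGroup K M kb, g c ^ n = c ^ n := by
    intro g hg
    rw [← map_pow, hc, geom_aeval hg]
  have hHn : ∀ ζ ∈ H, ζ ^ n = 1 := by
    rintro ζ ⟨g, hg, hgc⟩
    have h1 := hcn g hg
    rw [hgc, mul_pow] at h1
    have h2 : algebraMap kb M ζ ^ n = 1 := mul_right_cancel₀ (pow_ne_zero n hc0) (by rw [h1, one_mul])
    ext
    apply hinjk
    rw [Units.val_pow_eq_pow_val, map_pow, h2, Units.val_one, map_one]
  have hNe : NeZero n := ⟨by omega⟩
  have hHfin : Finite H := by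
    have hle : H ≤ rootsOfUnity n kb := fun ζ hζ => by
      rw [mem_rootsOfUnity]; exact hHn ζ hζ
    exact Finite.of_injective _ (Subgroup.inclusion_injective hle)
  have hHcyc : IsCyclic H := inferInstance
  obtain ⟨⟨ζ, hζH⟩, hζ⟩ := IsCyclic.exists_generator (α := H)
  have hζ' : ∀ x ∈ H, ∃ l : ℤ, ζ ^ l = x := by
    intro x hx
    obtain ⟨l, hl⟩ := Subgroup.mem_zpowers_iff.mp (hζ ⟨x, hx⟩)
    exact ⟨l, congrArg Subtype.val hl⟩
  have hmult : ∀ g ∈ geomGroup K M kb, ∃ l : ℤ, g c = algebraMap kb M ((ζ ^ l : kbˣ) : kb) * c := by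
    intro g hg
    have h1 : (g c / c) ^ n = 1 := by
      rw [div_pow, hcn g hg, div_self (pow_ne_zero n hc0)]
    obtain ⟨z, hz⟩ := root_of_unity_mem kb M (by omega) h1
    have hz0 : z ≠ 0 := by
      rintro rfl
      rw [map_zero] at hz
      rw [← hz, zero_pow (by omega)] at h1
      exact zero_ne_one h1
    have h2 : g c = algebraMap kb M z * c := by rw [hz, div_mul_cancel₀ _ hc0]
    obtain ⟨l, hl⟩ := hζ' (Units.mk0 z hz0) ⟨g, hg, h2⟩
    exact ⟨l, by rw [hl]; exact h2⟩
  obtain ⟨g₀, hg₀, hg₀c⟩ := hHmem.mp hζH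
  set e := orderOf ζ with he
  have he0 : 0 < e := by
    rw [he, orderOf_pos_iff, isOfFinOrder_iff_pow_eq_one]
    exact ⟨n, by omega, hHn ζ hζH⟩
  have hen : e ∣ n := orderOf_dvd_of_pow_eq_one (hHn ζ hζH)
  obtain ⟨f, hf⟩ := hen
  have hζprim : IsPrimitiveRoot (ζ : kb) e := by
    rw [IsPrimitiveRoot.coe_units_iff]; exact IsPrimitiveRoot.orderOf ζ
  -- `w = c ^ e` is invariant
  have hpow : ∀ (l : ℤ), ((ζ ^ l : kbˣ) : kb) ^ e = 1 := by
    intro l
    rw [← Units.val_pow_eq_pow_val, ← zpow_natCast, ← zpow_mul, mul_comm, zpow_mul, zpow_natCast,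
      he, pow_orderOf_eq_one, one_zpow, Units.val_one]
  have hw : ∀ g ∈ geomGroup K M kb, g (c ^ e) = c ^ e := by
    intro g hg
    obtain ⟨l, hl⟩ := hmult g hg
    rw [map_pow, hl, mul_pow, ← map_pow, hpow, map_one, one_mul]
  obtain ⟨m', P', Q', hP'a, hQ'a, hP'0, hQ'0, hw'⟩ := fixed_rep hK a hw (pow_ne_zero e hc0)
  -- compare orders
  obtain ⟨P₁, hP₁, hP₁a⟩ := P.exists_eq_pow_rootMultiplicity_mul_and_not_dvd hP a
  rw [Polynomial.dvd_iff_isRoot] at hP₁a
  have hcmp : ((P.rootMultiplicity a : ℕ) : ℤ) = m' * f := by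
    refine ord_unique (M := M) (P := P₁) (Q := 1) (P' := P' ^ f) (Q' := Q' ^ f) ht a hP₁a
      (by rw [eval_one]; exact one_ne_zero) (by rw [eval_pow]; exact pow_ne_zero f hP'a)
      (by rw [eval_pow]; exact pow_ne_zero f hQ'a) ?_
    have h1 : aeval (algebraMap K M t) P =
        (algebraMap K M t - algebraMap kb M a) ^ (P.rootMultiplicity a) *
          aeval (algebraMap K M t) P₁ := by
      conv_lhs => rw [hP₁]
      rw [map_mul, map_pow, hX]
    rw [zpow_natCast, ← h1, ← hc, hf, pow_mul, hw', zpow_mul, zpow_natCast, map_pow, map_pow,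
      map_one, mul_one, mul_pow, div_pow, mul_assoc, div_mul_cancel₀]
    exact pow_ne_zero f hQ'0
  -- it suffices that `e ∣ m'`
  suffices hdiv : (e : ℤ) ∣ m' by
    have h1 : ((n : ℕ) : ℤ) ∣ ((P.rootMultiplicity a : ℕ) : ℤ) := by
      rw [hcmp, hf]
      push_cast
      exact mul_dvd_mul_right hdiv _
    exact_mod_cast h1
  by_contra hndiv
  -- a point over `a`
  obtain ⟨Ψ, hΨ1, hΨ2⟩ := exists_point (M := M) ht hh a ha
  have hg : g₀ ^ m' ∈ geomGroup K M kb := zpow_mem hg₀ m'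
  have hg₀z : ∀ l : ℤ, (g₀ ^ l) c = algebraMap kb M ((ζ ^ l : kbˣ) : kb) * c :=
    zpow_eigen hg₀ hg₀c
  let V : Subgroup Gal(M/K) := geomGroup K M kb ⊓ MulAction.stabilizer Gal(M/K) c
  have hVcl : IsClosed (V : Set Gal(M/K)) := by
    rw [Subgroup.coe_inf]
    exact geomGroup_closed.inter
      (Subgroup.isClosed_of_isOpen _ (stabilizer_isOpen_of_isIntegral (K := K) _))
  have hVmem : ∀ {v : Gal(M/K)}, v ∈ V ↔ v ∈ geomGroup K M kb ∧ v c = c := by
    intro v
    rw [Subgroup.mem_inf]; rfl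
  have hVconj : ∀ v ∈ V, ∀ l : ℤ, g₀ ^ (-l) * v * g₀ ^ l ∈ V := by
    intro v hv l
    rw [hVmem] at hv ⊢
    refine ⟨mul_mem (mul_mem (zpow_mem hg₀ _) hv.1) (zpow_mem hg₀ _), ?_⟩
    rw [AlgEquiv.mul_apply, AlgEquiv.mul_apply, hg₀z, map_mul, hNm hv.1, hv.2, map_mul,
      hNm (zpow_mem hg₀ _), hg₀z, ← mul_assoc, ← map_mul, ← Units.val_mul, ← zpow_add,
      add_neg_cancel, zpow_zero, Units.val_one, map_one, one_mul]
  have he₀V : g₀ ^ e ∈ V := by
    rw [hVmem]
    refine ⟨pow_mem hg₀ e, ?_⟩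
    have := hg₀z e
    rw [zpow_natCast, zpow_natCast, he, pow_orderOf_eq_one, Units.val_one, map_one, one_mul] at this
    exact this
  have key : ∀ b, (∀ v ∈ V, actHom (affRing t h) v b = b) →
      Ψ b = (Ψ.comp (actHom (affRing t h) (g₀ ^ m'))) b := by
    intro b hb
    have hb' : (actHom (affRing t h) g₀)^[e] b = b := by rw [actHom_iter]; exact hb _ he₀V
    have hκ : ∀ (g : Gal(M/K)), g ∈ geomGroup K M kb → ∀ x : kb,
        actHom (affRing t h) g (kbB t h x) = kbB t h x := fun g hg x => Subtype.ext (hNm hg x)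
    have hζe : (ζ : kb) ^ e = 1 := hζprim.pow_eq_one
    obtain ⟨S, hS⟩ : ∃ S : ℕ → integralClosure (affRing t h) M, ∀ i, S i =
        ∑ j ∈ Finset.range e, kbB t h ((ζ : kb)⁻¹) ^ (i * j) * (actHom (affRing t h) g₀)^[j] b :=
      ⟨_, fun _ => rfl⟩
    have hS1 : ∀ i, actHom (affRing t h) g₀ (S i) = kbB t h (ζ : kb) ^ i * S i := by
      intro i
      rw [hS]
      exact eigen_one (kbB t h) (actHom (affRing t h) g₀) (hκ g₀ hg₀) ζ.ne_zero hζe b hb' i
    have hS2 : ∑ i ∈ Finset.range e, S i = e * b := by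
      have := eigen_sum (kbB (M := M) t h) (actHom (affRing t h) g₀) he0 hζprim b
      rw [← this]
      exact Finset.sum_congr rfl fun i _ => hS i
    have hSV : ∀ v ∈ V, ∀ i, v (S i : M) = S i := by
      intro v hv i
      have h1 : actHom (affRing t h) v (S i) = S i := by
        rw [hS, map_sum]
        refine Finset.sum_congr rfl fun j _ => ?_
        rw [map_mul, map_pow, hκ v (hVmem.mp hv).1, actHom_iter, ← actHom_mul]
        have h2 : v * g₀ ^ j = g₀ ^ j * (g₀ ^ (-(j : ℤ)) * v * g₀ ^ (j : ℤ)) := by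
          rw [zpow_neg, zpow_natCast]; group
        rw [h2, actHom_mul, hb _ (hVconj v hv j)]
      exact congrArg Subtype.val h1
    have hS3 : ∀ i, ∀ l : ℤ, (g₀ ^ l) (S i : M) =
        algebraMap kb M (((ζ ^ i) ^ l : kbˣ) : kb) * S i := by
      intro i
      refine zpow_eigen hg₀ ?_
      have := congrArg Subtype.val (hS1 i)
      rw [Units.val_pow_eq_pow_val, map_pow]
      exact this
    have hS4 : ∀ i, ∀ g ∈ geomGroup K M kb, ∃ l : ℤ,
        g c = algebraMap kb M ((ζ ^ l : kbˣ) : kb) * c ∧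
        g (S i : M) = algebraMap kb M (((ζ ^ i) ^ l : kbˣ) : kb) * S i := by
      intro i g hg
      obtain ⟨l, hl⟩ := hmult g hg
      refine ⟨l, hl, ?_⟩
      have hv : g₀ ^ (-l) * g ∈ V := by
        rw [hVmem]
        refine ⟨mul_mem (zpow_mem hg₀ _) hg, ?_⟩
        rw [AlgEquiv.mul_apply, hl, map_mul, hNm (zpow_mem hg₀ _), hg₀z, ← mul_assoc, ← map_mul,
          ← Units.val_mul, ← zpow_add, add_neg_cancel, zpow_zero, Units.val_one, map_one, one_mul]
      have h1 : g = g₀ ^ l * (g₀ ^ (-l) * g) := by rw [zpow_neg]; group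
      conv_lhs => rw [h1]
      rw [AlgEquiv.mul_apply, hSV _ hv, hS3]
    have hS5 : ∀ i : ℕ, ¬ ((e : ℤ) ∣ (i : ℤ) * m') → Ψ (S i) = 0 := by
      intro i hi
      by_cases hs0 : (S i : M) = 0
      · have : S i = 0 := Subtype.ext hs0
        rw [this, map_zero]
      · have hr : ∀ g ∈ geomGroup K M kb, g ((S i : M) / c ^ i) = (S i : M) / c ^ i := by
          intro g hg
          obtain ⟨l, hl1, hl2⟩ := hS4 i g hg
          rw [map_div₀, map_pow, hl1, hl2, mul_pow, ← map_pow, ← Units.val_pow_eq_pow_val]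
          have h1 : (ζ ^ i) ^ l = (ζ ^ l) ^ i := by
            rw [← zpow_natCast, ← zpow_natCast, ← zpow_mul, ← zpow_mul, mul_comm]
          rw [h1, mul_div_mul_left]
          rw [_root_.map_ne_zero]
          exact Units.ne_zero _
        obtain ⟨m'', P'', Q'', hP''a, hQ''a, hP''0, hQ''0, hr'⟩ := fixed_rep hK a hr
          (div_ne_zero hs0 (pow_ne_zero i hc0))
        have hμ : (i : ℤ) * m' + e * m'' ≠ 0 := by
          intro h0
          apply hi
          refine ⟨-m'', ?_⟩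
          linear_combination h0
        have hz : Ψ (S i ^ e) = 0 := by
          refine point_ord ht Ψ a hΨ1 hΨ2 hμ (P := P' ^ i * P'' ^ e) (Q := Q' ^ i * Q'' ^ e) ?_ ?_ ?_
          · rw [eval_mul, eval_pow, eval_pow]
            exact mul_ne_zero (pow_ne_zero _ hP'a) (pow_ne_zero _ hP''a)
          · rw [eval_mul, eval_pow, eval_pow]
            exact mul_ne_zero (pow_ne_zero _ hQ'a) (pow_ne_zero _ hQ''a)
          · have h1 : ((S i ^ e : integralClosure (affRing t h) M) : M) =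
                (c ^ e) ^ i * ((S i : M) / c ^ i) ^ e := by
              rw [SubmonoidClass.coe_pow, div_pow, ← pow_mul, ← pow_mul, mul_comm e i,
                mul_div_cancel₀]
              exact pow_ne_zero _ hc0
            rw [h1, hw', hr', mul_pow, mul_pow, div_pow, div_pow, map_mul, map_mul, map_pow, map_pow,
              map_pow, map_pow, zpow_add₀ hX0, mul_comm (i : ℤ) m', mul_comm (e : ℤ) m'', zpow_mul,
              zpow_mul, zpow_natCast, zpow_natCast]
            field_simp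
        rw [map_pow] at hz
        exact pow_eq_zero_iff he0.ne' |>.mp hz
    have hS6 : ∀ i, Ψ (actHom (affRing t h) (g₀ ^ m') (S i)) = Ψ (S i) := by
      intro i
      have h1 : actHom (affRing t h) (g₀ ^ m') (S i) =
          kbB t h (((ζ ^ i) ^ m' : kbˣ) : kb) * S i := Subtype.ext (hS3 i m')
      rw [h1, map_mul, hΨ1]
      by_cases hi : (e : ℤ) ∣ (i : ℤ) * m'
      · have h2 : (ζ ^ i) ^ m' = 1 := by
          rw [← zpow_natCast, ← zpow_mul]
          exact orderOf_dvd_iff_zpow_eq_one.mp hi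
        rw [h2, Units.val_one, one_mul]
      · rw [hS5 i hi, mul_zero]
    have h1 : (e : kb) * Ψ b = e * (Ψ.comp (actHom (affRing t h) (g₀ ^ m'))) b := by
      have h2 := congrArg Ψ hS2
      have h3 := congrArg (fun x => Ψ (actHom (affRing t h) (g₀ ^ m') x)) hS2
      simp only [map_sum, map_mul, map_natCast] at h2 h3
      rw [RingHom.comp_apply, ← h2, ← h3]
      exact Finset.sum_congr rfl fun i _ => (hS6 i).symm
    exact mul_left_cancel₀ (Nat.cast_ne_zero.mpr he0.ne') h1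
  obtain ⟨v, hv, hv'⟩ := points_closed V hVcl (fun v hv => (hVmem.mp hv).1) Ψ
    (Ψ.comp (actHom (affRing t h) (g₀ ^ m'))) (kbB t h) (fun a => rfl) hΨ1 (fun x => by
      rw [RingHom.comp_apply]
      have : actHom (affRing t h) (g₀ ^ m') (kbB t h x) = kbB t h x := by
        apply Subtype.ext
        exact hNm hg x
      rw [this, hΨ1]) key
  have hfin : g₀ ^ m' * v⁻¹ = 1 := by
    refine hun Ψ (fun x b hb => ?_) _ (mul_mem hg (inv_mem (hVmem.mp hv).1)) fun b b' hb => ?_
    · have : b = kbB t h x := Subtype.ext hb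
      rw [this, hΨ1]
    · have h1 : b' = actHom (affRing t h) (g₀ ^ m' * v⁻¹) b := Subtype.ext hb
      rw [h1, actHom_mul]
      have h2 := hv' (actHom (affRing t h) v⁻¹ b)
      rw [RingHom.comp_apply, ← actHom_mul, ← actHom_mul, mul_inv_cancel, actHom_one] at h2
      rw [← actHom_mul, h2]
  have hgv : g₀ ^ m' = v := by rw [← mul_inv_eq_one]; exact hfin
  have h1 := hg₀z m'
  rw [hgv, (hVmem.mp hv).2] at h1
  have h2 : algebraMap kb M ((ζ ^ m' : kbˣ) : kb) = 1 := by
    have : algebraMap kb M ((ζ ^ m' : kbˣ) : kb) * c = 1 * c := by rw [← h1, one_mul]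
    exact mul_right_cancel₀ hc0 this
  have h3 : ζ ^ m' = 1 := by
    ext
    apply hinjk
    rw [h2, Units.val_one, map_one]
  exact hndiv (orderOf_dvd_iff_zpow_eq_one.mpr h3)

end

end Pool.Agent.Lib.MP_2f3286_ag
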