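import Mathlib
import Pool.Agent.Lib.MP_2f3286_ag.CharN
import Pool.Agent.Lib.MP_2f3286_ag.G0Ram2

/-!
# The abelianisation of the geometric group, for an open subset of the affine line
-/

open Polynomial IntermediateField
open scoped commutatorElement

namespace Pool.Agent.Lib.MP_2f3286_ag

/-- Kummer theory: a continuous character of a closed group of automorphisms is the character of
a root. -/
theorem exists_kummer_char {K M kb : Type*} [Field K] [Field M] [Field kb] [Algebra K M]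
    [Algebra kb M] [IsGalois K M] (N : Subgroup Gal(M/K)) (hNk : N ≤ geomGroup K M kb)
    (χ : N →* kbˣ)
    (hχ : {x : Gal(M/K) | ∀ hx : x ∈ N, χ ⟨x, hx⟩ = 1} ∈ nhds (1 : Gal(M/K)))
    (hN : IsClosed (N : Set Gal(M/K))) :
    ∃ z : M, z ≠ 0 ∧ ∀ g : N, (g : Gal(M/K)) z = algebraMap kb M (χ g : kb) * z := by
  let E : IntermediateField K M := IntermediateField.fixedField N
  have hEN : E.fixingSubgroup = N := InfiniteGalois.fixingSubgroup_fixedField ⟨N, hN⟩
  let ρ : Gal(M/E) →* N := (Subgroup.inclusion hEN.le).comp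
    ((IntermediateField.fixingSubgroupEquiv E).symm : Gal(M/E) →* E.fixingSubgroup)
  have hρ : ∀ (σ : Gal(M/E)) (x : M), ((ρ σ : N) : Gal(M/K)) x = σ x := fun σ x => rfl
  let c : Gal(M/E) → Mˣ := fun σ => Units.map (algebraMap kb M).toMonoidHom (χ (ρ σ))
  have hcval : ∀ σ, (c σ : M) = algebraMap kb M (χ (ρ σ) : kb) := fun σ => rfl
  have hfix : ∀ (σ : Gal(M/E)) (a : kb), σ (algebraMap kb M a) = algebraMap kb M a := by
    intro σ a
    rw [← hρ]
    exact hNk (ρ σ).2 a
  obtain ⟨z, hz⟩ := hilbert90 E M c (fun σ τ => by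
    rw [hcval, hcval, hcval, hfix, map_mul, map_mul, Units.val_mul, map_mul]) (by
    obtain ⟨L, hLfin, hL⟩ := (krullTopology_mem_nhds_one_iff K M _).mp hχ
    obtain ⟨s, hs⟩ : L.FG := IntermediateField.essFiniteType_iff.mp inferInstance
    have h1 : ⋂ x ∈ s, {σ : Gal(M/E) | σ x = x} ∈ nhds (1 : Gal(M/E)) := by
      rw [Filter.biInter_finset_mem]
      intro x _
      have h2 : IsOpen (MulAction.stabilizer Gal(M/E) (x : M) : Set Gal(M/E)) :=
        stabilizer_isOpen_of_isIntegral (K := E) _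
      exact h2.mem_nhds (one_mem _)
    refine Filter.mem_of_superset h1 ?_
    intro σ hσ
    simp only [Set.mem_iInter, Set.mem_setOf_eq] at hσ
    have h3 : ((ρ σ : N) : Gal(M/K)) ∈ L.fixingSubgroup := by
      rw [← hs, IntermediateField.mem_fixingSubgroup_iff]
      intro x hx
      induction hx using IntermediateField.adjoin_induction with
      | mem x hx => exact hσ x hx
      | algebraMap x => exact AlgEquiv.commutes _ _
      | add x y _ _ hx hy => rw [map_add, hx, hy]
      | mul x y _ _ hx hy => rw [map_mul, hx, hy]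
      | inv x _ hx => rw [map_inv₀, hx]
    have h4 := hL h3 (ρ σ).2
    change c σ = 1
    ext
    rw [hcval]
    have h5 : χ (ρ σ) = 1 := h4
    rw [h5, Units.val_one, map_one, Units.val_one])
  refine ⟨z, z.ne_zero, fun g => ?_⟩
  have hgE : (g : Gal(M/K)) ∈ E.fixingSubgroup := by rw [hEN]; exact g.2
  have h1 := hz (IntermediateField.fixingSubgroupEquiv E ⟨g, hgE⟩)
  have h2 : ρ (IntermediateField.fixingSubgroupEquiv E ⟨g, hgE⟩) = g := by
    apply Subtype.ext
    ext x
    rw [hρ]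
    rfl
  rw [hcval, h2] at h1
  rw [h1]
  rfl

section

variable {k K M kb : Type*} [Field k] [Field K] [Field M] [Field kb] [Algebra k kb] [Algebra k K]
  [Algebra K M] [Algebra kb M] [Algebra k M] [IsScalarTower k K M] [IsScalarTower k kb M]

theorem ab_gen [IsGalois K M] [IsAlgClosed kb] [CharZero kb] [Algebra.IsAlgebraic k kb] {t : K}
    (ht : Transcendental k t)
    (hK : IntermediateField.adjoin k {t} = ⊤) {h : k[X]} (hh : h ≠ 0)
    (hun : ∀ Ψ : integralClosure (affRing t h) M →+* kb,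
      (∀ (a : kb) (b : integralClosure (affRing t h) M), (b : M) = algebraMap _ M a → Ψ b = a) →
      ∀ g ∈ geomGroup K M kb,
        (∀ b b' : integralClosure (affRing t h) M, (b' : M) = g b → Ψ b' = Ψ b) → g = 1)
    (hNn : (geomGroup K M kb).Normal)
    (hroots : ∀ a : kb, aeval a h = 0 → ∀ n : ℕ, 1 ≤ n →
      ∃ c : M, c ^ n = algebraMap K M t - algebraMap kb M a)
    {n : ℕ} (hn : 1 ≤ n) {g : Gal(M/K)} (hg : g ∈ geomGroup K M kb)
    (hgr : ∀ a : kb, aeval a h = 0 → ∀ c : M,
      c ^ n = algebraMap K M t - algebraMap kb M a → g c = c) :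
    ∃ y ∈ geomGroup K M kb, ∃ z ∈ (⁅geomGroup K M kb, geomGroup K M kb⁆ :
      Subgroup Gal(M/K)).topologicalClosure, g = y ^ n * z := by
  classical
  by_contra hcon
  obtain ⟨χ, hχg, hχn, hχo⟩ := exists_char (kb := kb) (geomGroup K M kb) geomGroup_closed g hg hcon
  obtain ⟨z, hz0, hz⟩ := exists_kummer_char (geomGroup K M kb) le_rfl χ hχo geomGroup_closed
  have hNm : ∀ {g : Gal(M/K)}, g ∈ geomGroup K M kb →
      ∀ a : kb, g (algebraMap kb M a) = algebraMap kb M a := fun hg => hg
  have hinjk := (algebraMap kb M).injective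
  have hzn : ∀ g ∈ geomGroup K M kb, g (z ^ n) = z ^ n := by
    intro g hg
    rw [map_pow, hz ⟨g, hg⟩, mul_pow, ← map_pow, ← Units.val_pow_eq_pow_val, hχn, Units.val_one,
      map_one, one_mul]
  obtain ⟨A, B, hAB⟩ := fixed_ratio hK hzn
  have hA0 : aeval (algebraMap K M t) A ≠ 0 := by
    intro h0
    rw [h0, zero_div] at hAB
    exact pow_ne_zero n hz0 hAB
  have hB0 : aeval (algebraMap K M t) B ≠ 0 := by
    intro h0
    rw [h0, div_zero] at hAB
    exact pow_ne_zero n hz0 hAB
  obtain ⟨c, hcdef⟩ : ∃ c, c = z * aeval (algebraMap K M t) B := ⟨_, rfl⟩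
  obtain ⟨P, hPdef⟩ : ∃ P, P = A * B ^ (n - 1) := ⟨_, rfl⟩
  have hP0' : aeval (algebraMap K M t) P ≠ 0 := by
    rw [hPdef, map_mul, map_pow]
    exact mul_ne_zero hA0 (pow_ne_zero _ hB0)
  have hP : P ≠ 0 := by
    rintro h0
    exact hP0' (by rw [h0, map_zero])
  have hc : c ^ n = aeval (algebraMap K M t) P := by
    rw [hcdef, hPdef, mul_pow, hAB, map_mul, map_pow]
    obtain ⟨m, rfl⟩ : ∃ m, n = m + 1 := ⟨n - 1, by omega⟩
    rw [Nat.add_sub_cancel, pow_succ]
    field_simp
  have hc0 : c ≠ 0 := by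
    rw [hcdef]; exact mul_ne_zero hz0 hB0
  have hgc : g c = algebraMap kb M (χ ⟨g, hg⟩ : kb) * c := by
    have h1 := hz ⟨g, hg⟩
    rw [hcdef, map_mul, geom_aeval hg]
    change g z * _ = _
    rw [show g z = _ from h1]
    ring
  -- the other root
  have hr : ∀ a : kb, ∃ r : M, r ^ n = (algebraMap K M t - algebraMap kb M a) ^
      (P.rootMultiplicity a) ∧ g r = r := by
    intro a
    by_cases ha : aeval a h = 0
    · obtain ⟨r, hr⟩ := hroots a ha n hn
      refine ⟨r ^ P.rootMultiplicity a, ?_, ?_⟩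
      · rw [← pow_mul, mul_comm, pow_mul, hr]
      · rw [map_pow, hgr a ha r hr]
    · obtain ⟨m, hm⟩ := ram ht hK hh hun hn hP hc a ha
      refine ⟨(algebraMap K M t - algebraMap kb M a) ^ m, ?_, ?_⟩
      · rw [hm, ← pow_mul, mul_comm m n]
      · rw [map_pow, map_sub, hNm hg, AlgEquiv.commutes]
  choose r hr1 hr2 using hr
  obtain ⟨δ, hδ⟩ := IsAlgClosed.exists_pow_nat_eq P.leadingCoeff (n := n) (by omega)
  obtain ⟨c', hc'def⟩ : ∃ c', c' = algebraMap kb M δ * ∏ a ∈ P.roots.toFinset, r a := ⟨_, rfl⟩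
  have hc' : c' ^ n = aeval (algebraMap K M t) P := by
    have h1 : P = C P.leadingCoeff * ∏ a ∈ P.roots.toFinset, (X - C a) ^ P.rootMultiplicity a := by
      rw [← prod_multiset_root_eq_finset_root]
      exact (IsAlgClosed.splits P).eq_prod_roots
    conv_rhs => rw [h1]
    rw [hc'def, mul_pow, ← map_pow, hδ, ← Finset.prod_pow, map_mul, aeval_C, map_prod]
    congr 1
    refine Finset.prod_congr rfl fun a _ => ?_
    rw [hr1, map_pow, map_sub, aeval_X, aeval_C]
  have hc'0 : c' ≠ 0 := by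
    rintro h0
    rw [h0, zero_pow (by omega)] at hc'
    exact hP0' hc'.symm
  have hgc' : g c' = c' := by
    rw [hc'def, map_mul, map_prod, hNm hg]
    congr 1
    exact Finset.prod_congr rfl fun a _ => hr2 a
  have h1 : (c / c') ^ n = 1 := by
    rw [div_pow, hc, hc', div_self hP0']
  obtain ⟨ξ, hξ⟩ := root_of_unity_mem kb M (by omega) h1
  have h2 : g c = c := by
    have h3 : c = algebraMap kb M ξ * c' := by rw [hξ, div_mul_cancel₀ _ hc'0]
    rw [h3, map_mul, hNm hg, hgc']
  rw [h2] at hgc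
  apply hχg
  ext
  apply hinjk
  rw [Units.val_one, map_one]
  exact mul_right_cancel₀ hc0 (by rw [one_mul]; exact hgc.symm)

end

end Pool.Agent.Lib.MP_2f3286_ag
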