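import Mathlib
import Pool.Agent.Lib.MP_2f3286_ag.G0
import Pool.Agent.Lib.MP_2f3286_ag.CoreD

/-!
# The ring `k[t, 1/h]` is integrally closed and generated by divisible units
-/

open Polynomial IntermediateField

namespace Pool.Agent.Lib.MP_2f3286_ag

section

variable {k K : Type*} [Field k] [Field K] [Algebra k K]

theorem affRing_rep {t : K} (ht : Transcendental k t) {h : k[X]} (hh : h ≠ 0) (r : affRing t h) :
    ∃ (l : ℕ) (P : k[X]), (r : K) * (aeval t h) ^ l = aeval t P := by
  have h1 := affRing_mem (k := k) (K := K) (M := K) (kb := k) ht hh r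
  obtain ⟨l, P, hP⟩ := h1
  refine ⟨l, P, ?_⟩
  have h2 : h.map (algebraMap k k) = h := by
    rw [Algebra.algebraMap_self, Polynomial.map_id]
  rw [h2] at hP
  exact hP

theorem affRing_const {t : K} (ht : Transcendental k t) {h : k[X]} (hh : h ≠ 0)
    (hdeg : h.degree = 0) {u : affRing t h} (hu : IsUnit u) :
    ∃ c : k, (u : K) = algebraMap k K c := by
  obtain ⟨v, huv⟩ := hu.exists_right_inv
  have hinj : Function.Injective (aeval t : k[X] →ₐ[k] K) := transcendental_iff_injective.mp ht
  obtain ⟨l, P, hP⟩ := affRing_rep ht hh u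
  obtain ⟨l', P', hP'⟩ := affRing_rep ht hh v
  have h1 : P * P' = h ^ (l + l') := by
    apply hinj
    have h2 : (u : K) * (v : K) = 1 := congrArg Subtype.val huv
    rw [map_mul, ← hP, ← hP', map_pow, pow_add]
    linear_combination (aeval t h) ^ l * (aeval t h) ^ l' * h2
  have h2 : P.degree = 0 := by
    rw [← isUnit_iff_degree_eq_zero] at hdeg ⊢
    exact isUnit_of_mul_isUnit_left (h1 ▸ hdeg.pow _)
  have hPc : aeval t P = algebraMap k K (P.coeff 0) := by
    conv_lhs => rw [eq_C_of_degree_eq_zero h2]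
    rw [aeval_C]
  have hhc : aeval t h = algebraMap k K (h.coeff 0) := by
    conv_lhs => rw [eq_C_of_degree_eq_zero hdeg]
    rw [aeval_C]
  rw [hPc, hhc, ← map_pow] at hP
  have h3 : algebraMap k K (h.coeff 0 ^ l) ≠ 0 := by
    rw [_root_.map_ne_zero]
    apply pow_ne_zero
    intro h0
    exact hh (by rw [eq_C_of_degree_eq_zero hdeg, h0, C_0])
  refine ⟨P.coeff 0 / h.coeff 0 ^ l, ?_⟩
  rw [map_div₀, eq_div_iff h3, hP]

theorem affRing_int {t : K} (ht : Transcendental k t) (hK : IntermediateField.adjoin k {t} = ⊤)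
    {h : k[X]} (hh : h ≠ 0) (x : K) (hx : IsIntegral (affRing t h) x) : x ∈ affRing t h := by
  classical
  have hinj : Function.Injective (aeval t : k[X] →ₐ[k] K) := transcendental_iff_injective.mp ht
  have hne : ∀ {p : k[X]}, p ≠ 0 → aeval t p ≠ 0 := fun hp h0 => hp (hinj (h0.trans (map_zero _).symm))
  have htmem : t ∈ affRing t h := Algebra.subset_adjoin (by simp)
  have hpoly : ∀ p : k[X], aeval t p ∈ affRing t h := by
    intro p
    exact aeval_mem_adjoin_singleton k t |> (Algebra.adjoin_mono (by simp) : _ ≤ affRing t h)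
  have hinvmem : (aeval t h)⁻¹ ∈ affRing t h := Algebra.subset_adjoin (by simp)
  have hx' : x ∈ IntermediateField.adjoin k {t} := by rw [hK]; exact IntermediateField.mem_top
  obtain ⟨A₀, B₀, hAB₀⟩ := (IntermediateField.mem_adjoin_simple_iff k x).mp hx'
  by_cases hB₀ : B₀ = 0
  · rw [hB₀, map_zero, div_zero] at hAB₀
    rw [hAB₀]; exact zero_mem _
  -- reduced fraction
  obtain ⟨A, B, hcop, hxAB, hB0⟩ : ∃ A B : k[X], IsCoprime A B ∧ x * aeval t B = aeval t A ∧ B ≠ 0 := by
    obtain ⟨g, u, v, A, B, hg, hA, hB, hg0⟩ : ∃ g u v A B : k[X], g = A₀ * u + B₀ * v ∧ A₀ = g * A ∧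
        B₀ = g * B ∧ g ≠ 0 := by
      obtain ⟨A, hA⟩ := EuclideanDomain.gcd_dvd_left A₀ B₀
      obtain ⟨B, hB⟩ := EuclideanDomain.gcd_dvd_right A₀ B₀
      exact ⟨EuclideanDomain.gcd A₀ B₀, _, _, A, B, EuclideanDomain.gcd_eq_gcd_ab A₀ B₀, hA, hB,
        fun h0 => hB₀ (EuclideanDomain.gcd_eq_zero_iff.mp h0).2⟩
    have hB0 : B ≠ 0 := by rintro rfl; exact hB₀ (by rw [hB, mul_zero])
    refine ⟨A, B, ⟨u, v, ?_⟩, ?_, hB0⟩
    · apply mul_left_cancel₀ hg0
      rw [hA, hB] at hg
      linear_combination -hg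
    · have h2 : aeval t g ≠ 0 := hne hg0
      have h3 : aeval t B ≠ 0 := hne hB0
      rw [hAB₀, hA, hB, map_mul, map_mul]
      field_simp
  -- the monic equation
  obtain ⟨p, hp, hpx⟩ := hx
  have hrep := fun i => affRing_rep ht hh (p.coeff i)
  choose l P hlP using hrep
  obtain ⟨L, hL⟩ : ∃ L, L = ∑ i ∈ Finset.range (p.natDegree + 1), l i := ⟨_, rfl⟩
  have hlL : ∀ i ∈ Finset.range (p.natDegree + 1), l i ≤ L := by
    intro i hi
    rw [hL]
    exact Finset.single_le_sum (f := l) (fun _ _ => Nat.zero_le _) hi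
  have hco : ∀ i ∈ Finset.range (p.natDegree + 1),
      (p.coeff i : K) * (aeval t h) ^ L = aeval t (P i * h ^ (L - l i)) := by
    intro i hi
    rw [map_mul, map_pow, ← hlP, mul_assoc, ← pow_add, Nat.add_sub_cancel' (hlL i hi)]
  have hsum : ∑ i ∈ Finset.range (p.natDegree + 1),
      (P i * h ^ (L - l i)) * A ^ i * B ^ (p.natDegree - i) = 0 := by
    apply hinj
    rw [map_zero, map_sum]
    rw [eval₂_eq_sum_range] at hpx
    have h1 := congrArg (fun y => y * ((aeval t h) ^ L * (aeval t B) ^ p.natDegree)) hpx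
    simp only [zero_mul, Finset.sum_mul] at h1
    rw [← h1]
    refine Finset.sum_congr rfl fun i hi => ?_
    have h2 : (aeval t B) ^ p.natDegree = (aeval t B) ^ i * (aeval t B) ^ (p.natDegree - i) := by
      rw [← pow_add, Nat.add_sub_cancel' (Nat.lt_succ_iff.mp (Finset.mem_range.mp hi))]
    have h3 : algebraMap (affRing t h) K (p.coeff i) = (p.coeff i : K) := rfl
    rw [map_mul, map_mul, ← hco i hi, map_pow, map_pow, ← hxAB, h2, h3, mul_pow]
    ring
  have hdvd : B ∣ h ^ L := by
    rw [Finset.sum_range_succ] at hsum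
    have h1 : P p.natDegree * h ^ (L - l p.natDegree) = h ^ L := by
      apply hinj
      rw [← hco _ (Finset.self_mem_range_succ _), hp.coeff_natDegree, map_pow]
      exact one_mul _
    rw [h1, Nat.sub_self, pow_zero, mul_one] at hsum
    have h2 : B ∣ h ^ L * A ^ p.natDegree := by
      rw [← dvd_add_right (a := B) (b := ∑ x ∈ Finset.range p.natDegree,
        P x * h ^ (L - l x) * A ^ x * B ^ (p.natDegree - x)), hsum]
      · exact dvd_zero _
      · refine Finset.dvd_sum fun i hi => ?_
        refine Dvd.dvd.mul_left (dvd_pow_self _ ?_) _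
        have := Finset.mem_range.mp hi
        omega
    exact (hcop.symm.pow_right).dvd_of_dvd_mul_right h2
  obtain ⟨D, hD⟩ := hdvd
  have hh0 : aeval t h ≠ 0 := hne hh
  have hfin : x = aeval t (A * D) * ((aeval t h)⁻¹) ^ L := by
    have h1 : aeval t B ≠ 0 := hne hB0
    have h2 : (aeval t h) ^ L = aeval t B * aeval t D := by rw [← map_pow, hD, map_mul]
    rw [map_mul, ← hxAB, inv_pow, h2]
    have h3 : aeval t D ≠ 0 := by
      intro h0
      rw [h0, mul_zero] at h2
      exact pow_ne_zero L hh0 h2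
    field_simp
  rw [hfin]
  exact mul_mem (hpoly _) (pow_mem hinvmem L)

end

section

variable {k K M kb : Type*} [Field k] [Field K] [Field M] [Field kb] [Algebra k kb] [Algebra k K]
  [Algebra K M] [Algebra kb M] [Algebra k M] [IsScalarTower k K M] [IsScalarTower k kb M]

theorem affRing_unit [Algebra.IsAlgebraic k kb] {t : K} (ht : Transcendental k t) {h : k[X]}
    (hh : h ≠ 0)
    (hroots : ∀ a : kb, aeval a h = 0 → ∀ n : ℕ, 1 ≤ n →
      ∃ c : M, c ^ n = algebraMap K M t - algebraMap kb M a) (a : kb) (ha : aeval a h = 0) :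
    IsDivUnit (affRing t h) (algebraMap K M t - algebraMap kb M a) := by
  have htr : Transcendental kb (algebraMap K M t) := transc_kb ht
  have hX : aeval (algebraMap K M t) (X - C a) = algebraMap K M t - algebraMap kb M a := by
    rw [map_sub, aeval_X, aeval_C]
  refine ⟨?_, ?_, hroots a ha⟩
  · exact (tB M t h - kbB t h a : integralClosure (affRing t h) M).2
  · obtain ⟨q, hq⟩ : (X - C a) ∣ h.map (algebraMap k kb) := by
      rw [Polynomial.dvd_iff_isRoot, IsRoot, eval_map_algebraMap]; exact ha
    have hH : aeval (algebraMap K M t) (h.map (algebraMap k kb)) = algebraMap K M (aeval t h) := by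
      rw [aeval_map_algebraMap, aeval_algebraMap_apply]
    have hh0 : algebraMap K M (aeval t h) ≠ 0 := by
      rw [_root_.map_ne_zero]
      exact (transcendental_iff.mp ht h).mt hh
    have h1 : (algebraMap K M t - algebraMap kb M a) * aeval (algebraMap K M t) q =
        algebraMap K M (aeval t h) := by
      rw [← hH, hq, map_mul, hX]
    have h2 : (algebraMap K M t - algebraMap kb M a)⁻¹ =
        aeval (algebraMap K M t) q * algebraMap K M (aeval t h)⁻¹ := by
      have h3 : algebraMap K M t - algebraMap kb M a ≠ 0 := by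
        intro h0
        rw [h0, zero_mul] at h1
        exact hh0 h1.symm
      rw [map_inv₀, ← h1]
      have h4 : aeval (algebraMap K M t) q ≠ 0 := by
        intro h0
        rw [h0, mul_zero] at h1
        exact hh0 h1.symm
      field_simp
    rw [h2]
    refine IsIntegral.mul ?_ ?_
    · rw [← polyB_coe (M := M) t h q]
      exact (polyB t h q : integralClosure (affRing t h) M).2
    · have : algebraMap K M (aeval t h)⁻¹ = algebraMap (affRing t h) M
          ⟨(aeval t h)⁻¹, Algebra.subset_adjoin (by simp)⟩ := rfl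
      rw [this]
      exact isIntegral_algebraMap

theorem root_of_poly [IsAlgClosed kb] {t : K} {h : k[X]}
    (hroots : ∀ a : kb, aeval a h = 0 → ∀ n : ℕ, 1 ≤ n →
      ∃ c : M, c ^ n = algebraMap K M t - algebraMap kb M a) {n : ℕ} (hn : 1 ≤ n) (P : kb[X])
    (hP : ∀ a : kb, P.eval a = 0 → aeval a h = 0) :
    ∃ b : M, b ^ n = aeval (algebraMap K M t) P := by
  have h1 : ∀ m : Multiset kb, (∀ a ∈ m, aeval a h = 0) →
      ∃ b : M, b ^ n = aeval (algebraMap K M t) (m.map (X - C ·)).prod := by
    intro m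
    induction m using Multiset.induction with
    | empty => intro _; exact ⟨1, by simp⟩
    | cons a m ih =>
      intro hm
      obtain ⟨b, hb⟩ := ih fun x hx => hm x (Multiset.mem_cons_of_mem hx)
      obtain ⟨c, hc⟩ := hroots a (hm a (Multiset.mem_cons_self a m)) n hn
      refine ⟨c * b, ?_⟩
      rw [mul_pow, hc, hb, Multiset.map_cons, Multiset.prod_cons, map_mul, map_sub, aeval_X, aeval_C]
  by_cases hP0 : P = 0
  · exact ⟨0, by rw [hP0, map_zero, zero_pow (by omega)]⟩
  obtain ⟨b, hb⟩ := h1 P.roots fun a ha => hP a ((mem_roots hP0).mp ha)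
  obtain ⟨δ, hδ⟩ := IsAlgClosed.exists_pow_nat_eq P.leadingCoeff (n := n) (by omega)
  refine ⟨algebraMap kb M δ * b, ?_⟩
  conv_rhs => rw [(IsAlgClosed.splits P).eq_prod_roots]
  rw [mul_pow, hb, ← map_pow, hδ, map_mul, aeval_C]

theorem affRing_unit_root [IsAlgClosed kb] [Algebra.IsAlgebraic k kb] {t : K}
    (ht : Transcendental k t) {h : k[X]} (hh : h ≠ 0)
    (hroots : ∀ a : kb, aeval a h = 0 → ∀ n : ℕ, 1 ≤ n →
      ∃ c : M, c ^ n = algebraMap K M t - algebraMap kb M a) {n : ℕ} (hn : 1 ≤ n)
    {u : affRing t h} (hu : IsUnit u) :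
    ∃ b : M, b ^ n = algebraMap (affRing t h) M u := by
  obtain ⟨v, huv⟩ := hu.exists_right_inv
  have hinj : Function.Injective (aeval t : k[X] →ₐ[k] K) := transcendental_iff_injective.mp ht
  obtain ⟨l, P, hP⟩ := affRing_rep ht hh u
  obtain ⟨l', P', hP'⟩ := affRing_rep ht hh v
  have h1 : P * P' = h ^ (l + l') := by
    apply hinj
    have h2 : (u : K) * (v : K) = 1 := congrArg Subtype.val huv
    rw [map_mul, ← hP, ← hP', map_pow, pow_add]
    linear_combination (aeval t h) ^ l * (aeval t h) ^ l' * h2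
  have h2 : ∀ p : k[X], aeval (algebraMap K M t) (p.map (algebraMap k kb)) =
      algebraMap K M (aeval t p) := by
    intro p
    rw [aeval_map_algebraMap, aeval_algebraMap_apply]
  obtain ⟨b, hb⟩ := root_of_poly (M := M) hroots hn (P.map (algebraMap k kb)) (by
    intro a ha
    have h3 := congrArg (fun p => (p.map (algebraMap k kb)).eval a) h1
    simp only [Polynomial.map_mul, Polynomial.map_pow, eval_mul, eval_pow, ha, zero_mul] at h3
    rw [eval_map_algebraMap] at h3
    exact eq_zero_of_pow_eq_zero h3.symm)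
  obtain ⟨c, hc⟩ := root_of_poly (M := M) hroots hn (h.map (algebraMap k kb)) (by
    intro a ha
    rw [eval_map_algebraMap] at ha
    exact ha)
  have hh0 : algebraMap K M (aeval t h) ≠ 0 := by
    rw [_root_.map_ne_zero]
    exact (transcendental_iff.mp ht h).mt hh
  refine ⟨b / c ^ l, ?_⟩
  rw [div_pow, hb, ← pow_mul, mul_comm l n, pow_mul, hc, h2, h2, ← hP, map_mul, map_pow]
  rw [mul_div_cancel_right₀]
  · rfl
  · exact pow_ne_zero l hh0

theorem affRing_div [IsAlgClosed kb] [Algebra.IsAlgebraic k kb] {t : K} (ht : Transcendental k t)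
    {h : k[X]} (hh : h ≠ 0) (hdeg : h.degree ≠ 0)
    (hroots : ∀ a : kb, aeval a h = 0 → ∀ n : ℕ, 1 ≤ n →
      ∃ c : M, c ^ n = algebraMap K M t - algebraMap kb M a) (r : affRing t h) :
    algebraMap (affRing t h) M r ∈ divUnitRing (affRing t h) M := by
  classical
  have hconst : ∀ a : kb, algebraMap kb M a ∈ divUnitRing (affRing t h) M := fun a =>
    Subring.subset_closure (IsDivUnit.const (fun a => int_kb a) a)
  have hta : ∀ a : kb, aeval a h = 0 → algebraMap K M t - algebraMap kb M a ∈
      divUnitRing (affRing t h) M := fun a ha =>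
    Subring.subset_closure (affRing_unit ht hh hroots a ha)
  have hta' : ∀ a : kb, aeval a h = 0 → (algebraMap K M t - algebraMap kb M a)⁻¹ ∈
      divUnitRing (affRing t h) M := fun a ha =>
    Subring.subset_closure (affRing_unit ht hh hroots a ha).inv
  have hH0 : h.map (algebraMap k kb) ≠ 0 := by
    rw [Polynomial.map_ne_zero_iff (algebraMap k kb).injective]; exact hh
  have hroot : ∀ a ∈ (h.map (algebraMap k kb)).roots, aeval a h = 0 := by
    intro a ha
    have := (mem_roots hH0).mp ha
    rw [IsRoot, eval_map_algebraMap] at this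
    exact this
  have htmem : algebraMap K M t ∈ divUnitRing (affRing t h) M := by
    obtain ⟨a, ha⟩ := IsAlgClosed.exists_root (h.map (algebraMap k kb)) (by rw [degree_map]; exact hdeg)
    rw [IsRoot, eval_map_algebraMap] at ha
    have := add_mem (hta a ha) (hconst a)
    rwa [sub_add_cancel] at this
  have hhinv : algebraMap K M (aeval t h)⁻¹ ∈ divUnitRing (affRing t h) M := by
    have h1 := (IsAlgClosed.splits (h.map (algebraMap k kb))).eq_prod_roots
    have h2 : aeval (algebraMap K M t) (h.map (algebraMap k kb)) = algebraMap K M (aeval t h) := by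
      rw [aeval_map_algebraMap, aeval_algebraMap_apply]
    rw [map_inv₀, ← h2, h1, map_mul, mul_inv, aeval_C, ← map_inv₀, map_multiset_prod,
      Multiset.map_map, ← Multiset.prod_map_inv']
    refine mul_mem (hconst _) (multiset_prod_mem _ ?_)
    intro x hx
    rw [Multiset.map_map, Multiset.mem_map] at hx
    obtain ⟨a, ha, rfl⟩ := hx
    simp only [Function.comp_apply, map_sub, aeval_X, aeval_C]
    exact hta' a (hroot a ha)
  let A : Subalgebra k K :=
    { (divUnitRing (affRing t h) M).comap (algebraMap K M) with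
      algebraMap_mem' := fun c => by
        change algebraMap K M (algebraMap k K c) ∈ divUnitRing (affRing t h) M
        rw [← IsScalarTower.algebraMap_apply, IsScalarTower.algebraMap_apply k kb M]
        exact hconst _ }
  have h3 : affRing t h ≤ A := by
    refine Algebra.adjoin_le ?_
    rintro x (rfl | rfl)
    · exact htmem
    · exact hhinv
  exact h3 r.2

end

end Pool.Agent.Lib.MP_2f3286_ag
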