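import Mathlib
import Pool.Agent.Lib.MP_2f3286_ag.NilpCore
import Pool.Agent.Lib.MP_2f3286_ag.NormFinal
import Pool.Agent.Lib.MP_2f3286_ag.G0Ab
import Pool.Agent.Lib.MP_2f3286_ag.G0Div

/-!
# Adelic sections of the geometrically pronilpotent fundamental group of an open subset of the
affine line
-/

open IsDedekindDomain NumberField Polynomial
open scoped commutatorElement

namespace Pool.Agent.Lib.MP_2f3286_ag

theorem trdeg_simple {k K : Type*} [Field k] [Field K] [Algebra k K] {t : K}
    (ht : Transcendental k t) (hK : IntermediateField.adjoin k {t} = ⊤) : Algebra.trdeg k K = 1 := by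
  have h1 : IsTranscendenceBasis k (Subtype.val : ({t} : Set K) → K) := by
    rw [isTranscendenceBasis_iff_algebraicIndependent_isAlgebraic]
    refine ⟨algebraicIndependent_unique_type_iff.mpr ht, ?_⟩
    rw [Subtype.range_val]
    constructor
    intro x
    have hx : x ∈ IntermediateField.adjoin k {t} := by rw [hK]; exact IntermediateField.mem_top
    obtain ⟨r, s, rfl⟩ := (IntermediateField.mem_adjoin_simple_iff k x).mp hx
    have h2 : ∀ p : k[X], IsAlgebraic (Algebra.adjoin k {t}) (aeval t p) := fun p =>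
      isAlgebraic_algebraMap (⟨aeval t p, aeval_mem_adjoin_singleton k t⟩ : Algebra.adjoin k {t})
    rw [div_eq_mul_inv]
    exact (h2 r).mul (h2 s).inv
  rw [← h1.cardinalMk_eq_trdeg]
  simp

theorem geomGroup_normal {k K M kb : Type*} [Field k] [Field K] [Field M] [Field kb] [Algebra k kb]
    [Algebra k K] [Algebra K M] [Algebra kb M] [Algebra k M] [IsScalarTower k K M]
    [IsScalarTower k kb M] [IsAlgClosed kb] [Algebra.IsAlgebraic k kb] :
    (geomGroup K M kb).Normal := by
  have hpres : ∀ (g : Gal(M/K)) (a : kb), ∃ a' : kb, g (algebraMap kb M a) = algebraMap kb M a' := by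
    intro g a
    have h2 : IsIntegral k a := Algebra.IsIntegral.isIntegral a
    have h3 : Polynomial.aeval (g (algebraMap kb M a)) (minpoly k a) = 0 := by
      have h4 : (g.toAlgHom.restrictScalars k : M →ₐ[k] M) (algebraMap kb M a) =
        g (algebraMap kb M a) := rfl
      rw [← h4, Polynomial.aeval_algHom_apply, Polynomial.aeval_algebraMap_apply, minpoly.aeval,
        map_zero, map_zero]
    have h5 : (((minpoly k a).map (algebraMap k kb)).map (algebraMap kb M)).IsRoot
        (g (algebraMap kb M a)) := by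
      rw [Polynomial.map_map, ← IsScalarTower.algebraMap_eq, Polynomial.IsRoot,
        Polynomial.eval_map_algebraMap]
      exact h3
    have h0 : (minpoly k a).map (algebraMap k kb) ≠ 0 := by
      rw [Polynomial.map_ne_zero_iff (algebraMap k kb).injective]
      exact minpoly.ne_zero h2
    obtain ⟨r', hr'⟩ := (IsAlgClosed.splits ((minpoly k a).map (algebraMap k kb))).mem_range_of_isRoot
      h0 h5
    exact ⟨r', hr'.symm⟩
  refine ⟨fun n hn g => ?_⟩
  rw [mem_geomGroup] at hn ⊢
  intro a
  obtain ⟨a', ha'⟩ := hpres g⁻¹ a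
  rw [AlgEquiv.mul_apply, AlgEquiv.mul_apply, ha', hn, ← ha']
  exact g.apply_symm_apply _

universe u in
/-- From the units to the whole integral closure, for geometrically pronilpotent covers of open
subsets of the affine line. -/
theorem nilp_of_psi {k : Type u} [Field k] [NumberField k]
    {K : Type*} [Field K] [Algebra k K] (t : K) (ht : Transcendental k t)
    (hK : IntermediateField.adjoin k {t} = ⊤) (h : k[X]) (hh : h ≠ 0) (hdeg : h.degree ≠ 0)
    {M : Type*} [Field M] [Algebra K M] [IsGalois K M]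
    [Algebra (AlgebraicClosure k) M] [Algebra k M]
    [IsScalarTower k K M] [IsScalarTower k (AlgebraicClosure k) M]
    (hroots : ∀ a : AlgebraicClosure k, aeval a h = 0 → ∀ n : ℕ, 1 ≤ n →
      ∃ b : M, b ^ n = algebraMap K M t - algebraMap _ M a)
    (hun : ∀ Ψ : integralClosure (affRing t h) M →+* AlgebraicClosure k,
      (∀ (a : AlgebraicClosure k) (b : integralClosure (affRing t h) M),
        (b : M) = algebraMap _ M a → Ψ b = a) →
      ∀ g ∈ geomGroup K M (AlgebraicClosure k),
        (∀ b b' : integralClosure (affRing t h) M, (b' : M) = g b → Ψ b' = Ψ b) → g = 1)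
    (hres : ∀ g ∈ geomGroup K M (AlgebraicClosure k), g ≠ 1 → ∃ C : Subgroup Gal(M/K),
      C.Normal ∧ IsClosed (C : Set Gal(M/K)) ∧ C ≤ geomGroup K M (AlgebraicClosure k) ∧ g ∉ C ∧
      (∀ x ∈ geomGroup K M (AlgebraicClosure k), ∀ n : ℕ, 1 ≤ n → x ^ n ∈ C → x ∈ C) ∧
      ∃ w : ℕ, (geomGroup K M (AlgebraicClosure k)).lowerCentralSeries w ≤ C)
    (s : Gal(AlgebraicClosure k/k) →* Gal(M/K)) (hs : Continuous s)
    (hsec : ∀ σ a, s σ (algebraMap (AlgebraicClosure k) M a) =
      algebraMap (AlgebraicClosure k) M (σ a))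
    (S : Finset (HeightOneSpectrum (𝓞 k)))
    (ι : ∀ v : {v : HeightOneSpectrum (𝓞 k) // v ∉ S},
      AlgebraicClosure k →ₐ[k] AlgebraicClosure (v.1.adicCompletion k))
    (φ : ∀ v : {v : HeightOneSpectrum (𝓞 k) // v ∉ S},
      integralClosure (affRing t h) M →+* AlgebraicClosure (v.1.adicCompletion k))
    (hφ : ∀ v, Respects s (v.1.adicCompletion k)
      (ι v : _ →+* AlgebraicClosure (v.1.adicCompletion k)) (φ v))
    (ψ : divUnitRing (affRing t h) M →+* AlgebraicClosure k)
    (hψs : Respects s k (RingHom.id _) ψ)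
    (hψφ : ∀ v, ∀ c : divUnitRing (affRing t h) M, ∀ b : integralClosure (affRing t h) M,
      (b : M) = c → φ v b = ι v (ψ c))
    (hψu : ∀ ψ' : divUnitRing (affRing t h) M →+* AlgebraicClosure k,
      Respects s k (RingHom.id _) ψ' → ψ' = ψ) :
    ∃ (x : affRing t h →ₐ[k] k) (Ψ : integralClosure (affRing t h) M →+* AlgebraicClosure k),
      (∀ r, Ψ (algebraMap _ _ r) = algebraMap k _ (x r)) ∧
      Respects s k (RingHom.id _) Ψ ∧ (∀ v b, φ v b = ι v (Ψ b)) ∧
      ∀ Ψ' : integralClosure (affRing t h) M →+* AlgebraicClosure k,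
        Respects s k (RingHom.id _) Ψ' → Ψ' = Ψ := by
  classical
  have htow' : IsScalarTower k (affRing t h) M := IsScalarTower.of_algebraMap_eq fun x => by
    rw [IsScalarTower.algebraMap_apply k K M]; rfl
  have hRU : ∀ r : affRing t h, algebraMap (affRing t h) M r ∈ divUnitRing (affRing t h) M :=
    affRing_div ht hh hdeg hroots
  have hRn := affRing_int ht hK hh
  have hsK : ∀ σ, ∀ r : affRing t h, s σ (algebraMap (affRing t h) M r) =
      algebraMap (affRing t h) M r := by
    intro σ r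
    exact AlgEquiv.commutes (s σ) (r : K)
  have hkM : ∀ a : k, algebraMap (affRing t h) M (algebraMap k (affRing t h) a) =
      algebraMap (AlgebraicClosure k) M (algebraMap k _ a) := by
    intro a
    rw [← IsScalarTower.algebraMap_apply, ← IsScalarTower.algebraMap_apply]
  let θ : affRing t h →+* AlgebraicClosure k :=
    ψ.comp ((algebraMap (affRing t h) M).codRestrict (divUnitRing (affRing t h) M) hRU)
  obtain ⟨x, hx⟩ := exists_descent (F := k) θ (fun r => mem_of_fixed fun τ =>
    (hψs.2 τ τ (fun _ => rfl) _ _ (hsK τ r).symm).symm)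
  have hψx : ∀ r, ψ ⟨algebraMap (affRing t h) M r, hRU r⟩ = algebraMap k _ (x r) :=
    fun r => (hx r).symm
  let I : Type u := {a : AlgebraicClosure k // aeval a h = 0}
  have hI : Finite I := by
    have h1 : (h.map (algebraMap k (AlgebraicClosure k))) ≠ 0 := by
      rw [Polynomial.map_ne_zero_iff (algebraMap k _).injective]; exact hh
    have h2 : Set.Finite {a : AlgebraicClosure k | aeval a h = 0} := by
      refine Set.Finite.subset (h.map (algebraMap k (AlgebraicClosure k))).roots.toFinset.finite_toSet ?_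
      intro a ha
      rw [Finset.mem_coe, Multiset.mem_toFinset, mem_roots h1, IsRoot, eval_map_algebraMap]
      exact ha
    exact h2.to_subtype
  obtain ⟨Ψ, hΨ1, hΨ2, hΨ3, hΨ4⟩ := nilp_core (affRing t h) hRn hun hres (I := I)
    (fun i => algebraMap K M t - algebraMap (AlgebraicClosure k) M i.1) (by
      intro g hg i
      rw [map_sub, AlgEquiv.commutes]
      congr 1
      exact hg i.1) (by
      intro n hn g hg hgi
      exact ab_gen ht hK hh hun (geomGroup_normal (k := k)) hroots hn hg
        (fun a ha c hc => hgi ⟨a, ha⟩ c hc)) s hs hsec S ι φ hφ x (by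
      intro v r
      rw [hψφ v ⟨algebraMap (affRing t h) M r, hRU r⟩ _ rfl, hψx])
  refine ⟨{ x with commutes' := fun a => ?_ }, Ψ, hΨ2, hΨ1, hΨ3, ?_⟩
  · apply (algebraMap k (AlgebraicClosure k)).injective
    change algebraMap _ _ (x (algebraMap k (affRing t h) a)) = _
    rw [hx]
    exact hψs.1 (algebraMap k _ a) _ (hkM a)
  · intro Ψ' hΨ'
    refine hΨ4 Ψ' hΨ' ?_
    have hle : ∀ c : M, c ∈ divUnitRing (affRing t h) M → c ∈ (integralClosure (affRing t h) M) := by
      intro c hc
      have h1 : divUnitRing (affRing t h) M ≤ (integralClosure (affRing t h) M).toSubring := by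
        rw [divUnitRing, Subring.closure_le]
        intro b hb
        exact hb.1
      exact h1 hc
    let inc : divUnitRing (affRing t h) M →+* integralClosure (affRing t h) M :=
      { toFun := fun c => ⟨c, hle c c.2⟩
        map_one' := rfl
        map_mul' := fun _ _ => rfl
        map_zero' := rfl
        map_add' := fun _ _ => rfl }
    have h2 : Ψ'.comp inc = ψ := by
      refine hψu _ ⟨fun a b hb => ?_, fun σ τ hστ b b' hb => ?_⟩
      · exact hΨ'.1 a (inc b) hb
      · exact hΨ'.2 σ τ hστ (inc b) (inc b') hb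
    intro r
    have h3 := congrArg (fun ψ => ψ ⟨algebraMap (affRing t h) M r, hRU r⟩) h2
    simp only [hψx] at h3
    exact h3

/-- the value of `h` at a point is not zero -/
theorem eval_ne_zero {k K : Type*} [Field k] [Field K] [Algebra k K] {t : K}
    (ht : Transcendental k t) {h : k[X]} (hh : h ≠ 0) (x : affRing t h →ₐ[k] k) :
    h.eval (x ⟨t, Algebra.subset_adjoin (by simp)⟩) ≠ 0 := by
  have hinj : Function.Injective (aeval t : k[X] →ₐ[k] K) := transcendental_iff_injective.mp ht
  have hht : aeval t h ≠ 0 := fun h0 => hh (hinj (h0.trans (map_zero _).symm))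
  have htR : t ∈ affRing t h := Algebra.subset_adjoin (by simp)
  have hhR : (aeval t h)⁻¹ ∈ affRing t h := Algebra.subset_adjoin (by simp)
  have hpoly : aeval t h ∈ affRing t h :=
    aeval_mem_adjoin_singleton k t |> (Algebra.adjoin_mono (by simp) : _ ≤ affRing t h)
  have h1 : x ⟨aeval t h, hpoly⟩ = h.eval (x ⟨t, htR⟩) := by
    have h2 : (⟨aeval t h, hpoly⟩ : affRing t h) = aeval (⟨t, htR⟩ : affRing t h) h := by
      apply Subtype.ext
      change aeval t h = ((affRing t h).val (aeval (⟨t, htR⟩ : affRing t h) h))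
      rw [← aeval_algHom_apply]
      rfl
    rw [h2, ← aeval_algHom_apply, coe_aeval_eq_eval]
  intro h0
  have h3 : (⟨aeval t h, hpoly⟩ : affRing t h) * ⟨(aeval t h)⁻¹, hhR⟩ = 1 := by
    apply Subtype.ext
    exact mul_inv_cancel₀ hht
  have h4 := congrArg x h3
  rw [map_mul, h1, h0, zero_mul, map_one] at h4
  exact zero_ne_one h4

universe u in
theorem nilp_final {k : Type u} [Field k] [NumberField k]
    {F : Type*} [Field F] [NumberField F] [Algebra F k]
    {K : Type*} [Field K] [Algebra k K] (t : K) (ht : Transcendental k t)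
    (hK : IntermediateField.adjoin k {t} = ⊤) (h : k[X]) (hh : h ≠ 0)
    (f : affRing t h) (hf : ∀ c : k, f ≠ algebraMap k (affRing t h) c)
    (S₀ : Finset (HeightOneSpectrum (𝓞 F))) (S : Finset (HeightOneSpectrum (𝓞 k)))
    (hS : ∀ v : HeightOneSpectrum (𝓞 k), v ∈ S ↔ ∃ w ∈ S₀, v.asIdeal.LiesOver w.asIdeal)
    (A : Finset F)
    (hA : (Fintype.card (InfinitePlace F) + S₀.card ≤ 1 ∧ Module.finrank F k ≤ A.card) ∨
      (Fintype.card (InfinitePlace F) + S₀.card ≤ 2 ∧ 2 * Module.finrank F k ≤ A.card))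
    (hunit : ∀ c ∈ A, IsUnit (f - algebraMap k (affRing t h) (algebraMap F k c)))
    {M : Type*} [Field M] [Algebra K M] [IsGalois K M]
    [Algebra (AlgebraicClosure k) M] [Algebra k M]
    [IsScalarTower k K M] [IsScalarTower k (AlgebraicClosure k) M]
    (hroots : ∀ a : AlgebraicClosure k, aeval a h = 0 → ∀ n : ℕ, 1 ≤ n →
      ∃ b : M, b ^ n = algebraMap K M t - algebraMap _ M a)
    (hun : ∀ Ψ : integralClosure (affRing t h) M →+* AlgebraicClosure k,
      (∀ (a : AlgebraicClosure k) (b : integralClosure (affRing t h) M),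
        (b : M) = algebraMap _ M a → Ψ b = a) →
      ∀ g ∈ geomGroup K M (AlgebraicClosure k),
        (∀ b b' : integralClosure (affRing t h) M, (b' : M) = g b → Ψ b' = Ψ b) → g = 1)
    (hres : ∀ g ∈ geomGroup K M (AlgebraicClosure k), g ≠ 1 → ∃ C : Subgroup Gal(M/K),
      C.Normal ∧ IsClosed (C : Set Gal(M/K)) ∧ C ≤ geomGroup K M (AlgebraicClosure k) ∧ g ∉ C ∧
      (∀ x ∈ geomGroup K M (AlgebraicClosure k), ∀ n : ℕ, 1 ≤ n → x ^ n ∈ C → x ∈ C) ∧
      ∃ w : ℕ, (geomGroup K M (AlgebraicClosure k)).lowerCentralSeries w ≤ C)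
    (s : Gal(AlgebraicClosure k/k) →* Gal(M/K)) (hs : Continuous s)
    (hsec : ∀ σ a, s σ (algebraMap (AlgebraicClosure k) M a) =
      algebraMap (AlgebraicClosure k) M (σ a))
    (ι : ∀ v : {v : HeightOneSpectrum (𝓞 k) // v ∉ S},
      AlgebraicClosure k →ₐ[k] AlgebraicClosure (v.1.adicCompletion k))
    (φ : ∀ v : {v : HeightOneSpectrum (𝓞 k) // v ∉ S},
      integralClosure (affRing t h) M →+* AlgebraicClosure (v.1.adicCompletion k))
    (hφ : ∀ v, Respects s (v.1.adicCompletion k)
      (ι v : _ →+* AlgebraicClosure (v.1.adicCompletion k)) (φ v))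
    (T : Finset (HeightOneSpectrum (𝓞 k)))
    (hint : ∀ v, v.1 ∉ T → ∀ c ∈ A, ∃ y : v.1.adicCompletion k, Valued.v y = 1 ∧
      φ v (algebraMap (affRing t h) _ (f - algebraMap k (affRing t h) (algebraMap F k c))) =
        algebraMap _ _ y) :
    ∃ (x : k) (Ψ : integralClosure (affRing t h) M →+* AlgebraicClosure k),
      h.eval x ≠ 0 ∧ (∀ b : integralClosure (affRing t h) M, (b : M) = algebraMap K M t →
        Ψ b = algebraMap k _ x) ∧
      Respects s k (RingHom.id _) Ψ ∧ (∀ v b, φ v b = ι v (Ψ b)) ∧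
      ∀ Ψ' : integralClosure (affRing t h) M →+* AlgebraicClosure k,
        Respects s k (RingHom.id _) Ψ' → Ψ' = Ψ := by
  classical
  have hAne : A.Nonempty := by
    rw [← Finset.card_pos]
    have : FiniteDimensional F k := Module.Finite.of_restrictScalars_finite ℚ F k
    have h1 : 0 < Module.finrank F k := Module.finrank_pos
    rcases hA with h | h <;> omega
  have hdeg : h.degree ≠ 0 := by
    obtain ⟨c, hc⟩ := hAne
    intro h0
    obtain ⟨d, hd⟩ := affRing_const ht hh h0 (hunit c hc)
    apply hf (d + algebraMap F k c)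
    apply Subtype.ext
    change (f : K) = algebraMap k K (d + algebraMap F k c)
    rw [map_add, ← hd]
    change (f : K) = (f : K) - algebraMap k K (algebraMap F k c) + algebraMap k K (algebraMap F k c)
    rw [sub_add_cancel]
  have hRU : ∀ r : affRing t h, algebraMap (affRing t h) M r ∈ divUnitRing (affRing t h) M :=
    affRing_div ht hh hdeg hroots
  obtain ⟨-, ψ, -, hψs, hψφ, hψu, -⟩ := norm_final (trdeg_simple ht hK) (affRing t h) f hf S₀ S hS
    A hA hunit (M := M) (fun c hc n hn => affRing_unit_root ht hh hroots hn (hunit c hc))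
    hRU s hs hsec ι φ hφ T hint
  obtain ⟨x, Ψ, h1, h2, h3, h4⟩ := nilp_of_psi t ht hK h hh hdeg hroots hun hres s hs hsec S ι φ hφ
    ψ hψs hψφ hψu
  refine ⟨_, Ψ, eval_ne_zero ht hh x, ?_, h2, h3, h4⟩
  intro b hb
  have h5 : b = algebraMap (affRing t h) _ ⟨t, Algebra.subset_adjoin (by simp)⟩ := Subtype.ext hb
  rw [h5, h1]

universe u in
theorem nilp_selmer {k : Type u} [Field k] [NumberField k]
    {K : Type*} [Field K] [Algebra k K] (t : K) (ht : Transcendental k t)
    (hK : IntermediateField.adjoin k {t} = ⊤) (h : k[X]) (hh : h ≠ 0)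
    (f g : (affRing t h)ˣ)
    (hind : ∀ p q : ℤ, (∃ c : k, ((f ^ p * g ^ q : (affRing t h)ˣ) : affRing t h) =
      algebraMap k (affRing t h) c) → p = 0 ∧ q = 0)
    {M : Type*} [Field M] [Algebra K M] [IsGalois K M]
    [Algebra (AlgebraicClosure k) M] [Algebra k M]
    [IsScalarTower k K M] [IsScalarTower k (AlgebraicClosure k) M]
    (hroots : ∀ a : AlgebraicClosure k, aeval a h = 0 → ∀ n : ℕ, 1 ≤ n →
      ∃ b : M, b ^ n = algebraMap K M t - algebraMap _ M a)
    (hun : ∀ Ψ : integralClosure (affRing t h) M →+* AlgebraicClosure k,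
      (∀ (a : AlgebraicClosure k) (b : integralClosure (affRing t h) M),
        (b : M) = algebraMap _ M a → Ψ b = a) →
      ∀ g ∈ geomGroup K M (AlgebraicClosure k),
        (∀ b b' : integralClosure (affRing t h) M, (b' : M) = g b → Ψ b' = Ψ b) → g = 1)
    (hres : ∀ g ∈ geomGroup K M (AlgebraicClosure k), g ≠ 1 → ∃ C : Subgroup Gal(M/K),
      C.Normal ∧ IsClosed (C : Set Gal(M/K)) ∧ C ≤ geomGroup K M (AlgebraicClosure k) ∧ g ∉ C ∧
      (∀ x ∈ geomGroup K M (AlgebraicClosure k), ∀ n : ℕ, 1 ≤ n → x ^ n ∈ C → x ∈ C) ∧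
      ∃ w : ℕ, (geomGroup K M (AlgebraicClosure k)).lowerCentralSeries w ≤ C)
    (s : Gal(AlgebraicClosure k/k) →* Gal(M/K)) (hs : Continuous s)
    (hsec : ∀ σ a, s σ (algebraMap (AlgebraicClosure k) M a) =
      algebraMap (AlgebraicClosure k) M (σ a))
    (S : Finset (HeightOneSpectrum (𝓞 k)))
    (ι : ∀ v : {v : HeightOneSpectrum (𝓞 k) // v ∉ S},
      AlgebraicClosure k →ₐ[k] AlgebraicClosure (v.1.adicCompletion k))
    (φ : ∀ v : {v : HeightOneSpectrum (𝓞 k) // v ∉ S},
      integralClosure (affRing t h) M →+* AlgebraicClosure (v.1.adicCompletion k))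
    (hφ : ∀ v, Respects s (v.1.adicCompletion k)
      (ι v : _ →+* AlgebraicClosure (v.1.adicCompletion k)) (φ v))
    (ψ : divUnitRing (affRing t h) M →+* AlgebraicClosure k)
    (hψs : Respects s k (RingHom.id _) ψ)
    (hψφ : ∀ v, ∀ c : divUnitRing (affRing t h) M, ∀ b : integralClosure (affRing t h) M,
      (b : M) = c → φ v b = ι v (ψ c))
    (hψu : ∀ ψ' : divUnitRing (affRing t h) M →+* AlgebraicClosure k,
      Respects s k (RingHom.id _) ψ' → ψ' = ψ) :
    ∃ (x : affRing t h →ₐ[k] k) (Ψ : integralClosure (affRing t h) M →+* AlgebraicClosure k),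
      (∀ r, Ψ (algebraMap _ _ r) = algebraMap k _ (x r)) ∧
      Respects s k (RingHom.id _) Ψ ∧ (∀ v b, φ v b = ι v (Ψ b)) ∧
      ∀ Ψ' : integralClosure (affRing t h) M →+* AlgebraicClosure k,
        Respects s k (RingHom.id _) Ψ' → Ψ' = Ψ := by
  have hdeg : h.degree ≠ 0 := by
    intro h0
    obtain ⟨d, hd⟩ := affRing_const ht hh h0 f.isUnit
    have h1 := (hind 1 0 ⟨d, by
      rw [zpow_one, zpow_zero, mul_one]
      exact Subtype.ext hd⟩).1
    exact one_ne_zero h1
  exact nilp_of_psi t ht hK h hh hdeg hroots hun hres s hs hsec S ι φ hφ ψ hψs hψφ hψu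

end Pool.Agent.Lib.MP_2f3286_ag
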