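import Mathlib
import Pool.Agent.Lib.MP_2f3286_ag.CoreD

/-!
# Selmer sections over rings of unit rank at most one: divisible units, almost integral sections
-/

open IsDedekindDomain NumberField WithZero

namespace Pool.Agent.Lib.MP_2f3286_ag

/-- An element of `k` with prescribed valuations, up to the power `classNumber k`. -/
theorem exists_alpha_div {k : Type*} [Field k] [NumberField k] (S : Finset (HeightOneSpectrum (𝓞 k)))
    (y : ∀ v : HeightOneSpectrum (𝓞 k), v.adicCompletion k) (hy0 : ∀ v ∉ S, y v ≠ 0)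
    (hfin : {v : HeightOneSpectrum (𝓞 k) | v ∉ S ∧ Valued.v (y v) ≠ 1}.Finite) :
    ∃ α : kˣ, ∀ v ∉ S, v.valuation k (α : k) = Valued.v (y v) ^ classNumber k := by
  classical
  choose π hπ hπ' using exists_pi (k := k)
  have hπ0 : ∀ v, π v ≠ 0 := by
    intro v h0
    have := hπ v
    rw [h0, map_zero] at this
    exact exp_ne_zero this.symm
  let m : HeightOneSpectrum (𝓞 k) → ℤ := fun v => log (Valued.v (y v))
  have hm : ∀ v ∉ S, Valued.v (y v) = exp (m v) := by
    intro v hv
    rw [exp_log]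
    rw [Valuation.ne_zero_iff]; exact hy0 v hv
  let α : kˣ := ∏ v ∈ hfin.toFinset, (Units.mk0 (π v) (hπ0 v)) ^ (-(m v))
  have hα : (α : k) = ∏ v ∈ hfin.toFinset, (π v) ^ (-(m v)) := by
    simp only [α]
    rw [Units.coe_prod]
    refine Finset.prod_congr rfl fun v _ => ?_
    rw [Units.val_zpow_eq_zpow_val, Units.val_mk0]
  refine ⟨α, fun v hv => ?_⟩
  rw [hα, map_prod]
  have h1 : ∀ v' ∈ hfin.toFinset, v' ≠ v → v.valuation k ((π v') ^ (-(m v'))) = 1 := by
    intro v' _ hne
    rw [map_zpow₀, hπ' v' v hne.symm, one_zpow]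
  by_cases hvT : v ∈ hfin.toFinset
  · rw [Finset.prod_eq_single_of_mem v hvT fun v' hv' hne => h1 v' hv' hne]
    rw [map_zpow₀, hπ, hm v hv, ← exp_zsmul, ← exp_nsmul]
    congr 1
    rw [smul_eq_mul, nsmul_eq_mul]; ring
  · rw [Finset.prod_eq_one fun v' hv' => h1 v' hv' (fun h => hvT (h ▸ hv'))]
    have h2 : Valued.v (y v) = 1 := by
      by_contra h
      exact hvT ((Set.Finite.mem_toFinset hfin).mpr ⟨hv, h⟩)
    rw [h2, one_pow]

theorem agree_local {k : Type*} [Field k] [NumberField k]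
    {K : Type*} [Field K] [Algebra k K] (R : Subalgebra k K)
    {M : Type*} [Field M] [Algebra K M] [Algebra (AlgebraicClosure k) M] [Algebra k M]
    [IsScalarTower k K M] [IsScalarTower k (AlgebraicClosure k) M]
    (s : Gal(AlgebraicClosure k/k) →* Gal(M/K))
    (v : HeightOneSpectrum (𝓞 k)) (ι : AlgebraicClosure k →ₐ[k] AlgebraicClosure (v.adicCompletion k))
    (φ : integralClosure R M →+* AlgebraicClosure (v.adicCompletion k))
    (hφ : Respects s (v.adicCompletion k) (ι : _ →+* AlgebraicClosure (v.adicCompletion k)) φ)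
    (ψ : divUnitRing R M →+* AlgebraicClosure k) (hψ : Respects s k (RingHom.id _) ψ)
    (f : Rˣ) (hf : ∀ n : ℕ, 1 ≤ n → ∃ c : M, c ^ n = algebraMap R M f)
    (c : divUnitRing R M) (hc : (c : M) = algebraMap R M f) :
    φ (algebraMap R (integralClosure R M) f) = ι (ψ c) := by
  have hRM : ∀ r : R, algebraMap R M r = algebraMap K M (r : K) := fun r => rfl
  have hsK : ∀ σ, ∀ r : R, s σ (algebraMap R M r) = algebraMap R M r := by
    intro σ r
    rw [hRM, AlgEquiv.commutes]
  have hBk : ∀ a : AlgebraicClosure k, IsIntegral R (algebraMap (AlgebraicClosure k) M a) := by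
    intro a
    have htow' : IsScalarTower k R M := IsScalarTower.of_algebraMap_eq fun x => by
      rw [IsScalarTower.algebraMap_apply k K M]; rfl
    have h1 : IsIntegral k a := Algebra.IsIntegral.isIntegral a
    have h2 : IsIntegral k (algebraMap (AlgebraicClosure k) M a) := h1.algebraMap
    exact h2.tower_top
  have hf0 : algebraMap R M f ≠ 0 := by
    rw [hRM, _root_.map_ne_zero]
    exact fun h => f.ne_zero (Subtype.ext h)
  have hfdiv : IsDivUnit R (algebraMap R M f) := by
    refine ⟨isIntegral_algebraMap, ?_, hf⟩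
    have h2 : (algebraMap R M f)⁻¹ = algebraMap R M ((f⁻¹ : Rˣ) : R) :=
      inv_eq_of_mul_eq_one_right (by rw [← map_mul, Units.mul_inv, map_one])
    rw [h2]; exact isIntegral_algebraMap
  choose! T hT using hf
  have hT0 : ∀ n, 1 ≤ n → T n ≠ 0 := by
    intro n hn h
    have := hT n hn
    rw [h, zero_pow (by omega)] at this
    exact hf0 this.symm
  have hTd : ∀ n, 1 ≤ n → IsDivUnit R (T n) := fun n hn =>
    IsDivUnit.of_pow (kb := AlgebraicClosure k) (hT0 n hn) hn (by rw [hT n hn]; exact hfdiv)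
  have hψ0 : ∀ n (hn : 1 ≤ n), ψ ⟨T n, Subring.subset_closure (hTd n hn)⟩ ≠ 0 := by
    intro n hn h0
    have h3 : (⟨T n, Subring.subset_closure (hTd n hn)⟩ : divUnitRing R M) *
        ⟨(T n)⁻¹, Subring.subset_closure (hTd n hn).inv⟩ = 1 := by
      apply Subtype.ext
      change T n * (T n)⁻¹ = 1
      rw [mul_inv_cancel₀ (hT0 n hn)]
    have h4 := congrArg ψ h3
    rw [map_mul, h0, zero_mul, map_one] at h4
    exact zero_ne_one h4
  have hchar : CharZero (v.adicCompletion k) :=
    charZero_of_injective_algebraMap (algebraMap k (v.adicCompletion k)).injective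
  have hw : ∀ n (hn : 1 ≤ n), ∃ w : v.adicCompletion k,
      algebraMap _ (AlgebraicClosure (v.adicCompletion k)) w =
        φ ⟨T n, (hTd n hn).1⟩ / ι (ψ ⟨T n, Subring.subset_closure (hTd n hn)⟩) := by
    intro n hn
    apply mem_of_fixed
    intro τ
    obtain ⟨σ, hσ⟩ := exists_restrict ι τ
    have h1 : (s σ (T n) / T n) ^ n = 1 := by
      rw [div_pow, ← map_pow, hT n hn, hsK, div_self hf0]
    obtain ⟨ζ, hζ⟩ := root_of_unity_mem (AlgebraicClosure k) M hn h1
    have hζ' : s σ (T n) = algebraMap (AlgebraicClosure k) M ζ * T n := by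
      rw [hζ, div_mul_cancel₀ _ (hT0 n hn)]
    have hζ0 : ζ ≠ 0 := by
      rintro rfl
      rw [map_zero] at hζ
      rw [← hζ, zero_pow (by omega)] at h1
      exact zero_ne_one h1
    have h2 : τ (φ ⟨T n, (hTd n hn).1⟩) = ι ζ * φ ⟨T n, (hTd n hn).1⟩ := by
      have h3 := hφ.2 σ τ hσ ⟨T n, (hTd n hn).1⟩
        (⟨algebraMap (AlgebraicClosure k) M ζ, hBk ζ⟩ * ⟨T n, (hTd n hn).1⟩) (by rw [hζ']; rfl)
      rw [← h3, map_mul, hφ.1 ζ ⟨algebraMap (AlgebraicClosure k) M ζ, hBk ζ⟩ rfl]
      rfl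
    have h4 : σ (ψ ⟨T n, Subring.subset_closure (hTd n hn)⟩) =
        ζ * ψ ⟨T n, Subring.subset_closure (hTd n hn)⟩ := by
      have h5 := hψ.2 σ σ (fun a => rfl) ⟨T n, Subring.subset_closure (hTd n hn)⟩
        (⟨algebraMap (AlgebraicClosure k) M ζ, Subring.subset_closure (IsDivUnit.const hBk ζ)⟩ *
          ⟨T n, Subring.subset_closure (hTd n hn)⟩) (by rw [hζ']; rfl)
      rw [← h5, map_mul, hψ.1 ζ ⟨algebraMap (AlgebraicClosure k) M ζ,
        Subring.subset_closure (IsDivUnit.const hBk ζ)⟩ rfl]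
      rfl
    rw [map_div₀, h2, ← hσ, h4, map_mul, mul_div_mul_left]
    rw [_root_.map_ne_zero]; exact hζ0
  obtain ⟨w, hw1⟩ := hw 1 le_rfl
  have e1 : (⟨T 1, (hTd 1 le_rfl).1⟩ : integralClosure R M) = algebraMap R (integralClosure R M) f := by
    apply Subtype.ext
    have := hT 1 le_rfl
    rw [pow_one] at this
    exact this
  have e2 : (⟨T 1, Subring.subset_closure (hTd 1 le_rfl)⟩ : divUnitRing R M) = c := by
    apply Subtype.ext
    have := hT 1 le_rfl
    rw [pow_one] at this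
    rw [hc]; exact this
  have hψc : ι (ψ c) ≠ 0 := by
    rw [_root_.map_ne_zero, ← e2]; exact hψ0 1 le_rfl
  rw [e1, e2] at hw1
  have hw0 : w ≠ 0 := by
    rintro rfl
    rw [map_zero, eq_comm, div_eq_zero_iff] at hw1
    rcases hw1 with h1 | h1
    · have h3 : algebraMap R (integralClosure R M) f *
          algebraMap R (integralClosure R M) ((f⁻¹ : Rˣ) : R) = 1 := by
        rw [← map_mul, Units.mul_inv, map_one]
      have h4 := congrArg φ h3
      rw [map_mul, h1, zero_mul, map_one] at h4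
      exact zero_ne_one h4
    · exact hψc h1
  have hw2 : w = 1 := by
    apply eq_one_of_divisible v hw0
    intro n hn
    obtain ⟨z, hz⟩ := hw n hn
    refine ⟨z, (algebraMap (v.adicCompletion k) (AlgebraicClosure (v.adicCompletion k))).injective ?_⟩
    rw [map_pow, hz, hw1, div_pow, ← map_pow, ← map_pow, ← map_pow]
    congr 2
    · apply Subtype.ext
      exact hT n hn
    · congr 1
      apply Subtype.ext
      rw [SubmonoidClass.coe_pow, hc]
      exact hT n hn
  rw [hw2, map_one, eq_comm, div_eq_one_iff_eq hψc] at hw1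
  exact hw1

/-- All local points lie in the zero set of one function. -/
theorem exists_vanishing_div {k : Type*} [Field k] [NumberField k]
    {K : Type*} [Field K] [Algebra k K] (htr : Algebra.trdeg k K = 1)
    (R : Subalgebra k K) (f g : Rˣ)
    (hind : ∀ p q : ℤ, (∃ c : k, ((f ^ p * g ^ q : Rˣ) : R) = algebraMap k R c) → p = 0 ∧ q = 0)
    {M : Type*} [Field M] [Algebra K M] [Algebra.IsAlgebraic K M]
    [Algebra (AlgebraicClosure k) M] [Algebra k M]
    [IsScalarTower k K M] [IsScalarTower k (AlgebraicClosure k) M]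
    (hdiv : ∀ n : ℕ, 1 ≤ n → (∃ c : M, c ^ n = algebraMap R M f) ∧ ∃ c : M, c ^ n = algebraMap R M g)
    (s : Gal(AlgebraicClosure k/k) →* Gal(M/K)) (hs : Continuous s)
    (hsec : ∀ σ a, s σ (algebraMap (AlgebraicClosure k) M a) =
      algebraMap (AlgebraicClosure k) M (σ a))
    (S : Finset (HeightOneSpectrum (𝓞 k)))
    (ι : ∀ v : {v : HeightOneSpectrum (𝓞 k) // v ∉ S},
      AlgebraicClosure k →ₐ[k] AlgebraicClosure (v.1.adicCompletion k))
    (φ : ∀ v : {v : HeightOneSpectrum (𝓞 k) // v ∉ S},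
      integralClosure R M →+* AlgebraicClosure (v.1.adicCompletion k))
    (hφ : ∀ v, Respects s (v.1.adicCompletion k) (ι v : _ →+* AlgebraicClosure (v.1.adicCompletion k)) (φ v))
    (x : ∀ v : {v : HeightOneSpectrum (𝓞 k) // v ∉ S}, R →ₐ[k] v.1.adicCompletion k)
    (hx : ∀ v r, algebraMap _ (AlgebraicClosure (v.1.adicCompletion k)) (x v r) =
        φ v (algebraMap R (integralClosure R M) r))
    (N : ℕ) (hN : 1 ≤ N) (α β : kˣ)
    (hα : ∀ v, v.1.valuation k (α : k) = Valued.v (x v f) ^ N)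
    (hβ : ∀ v, v.1.valuation k (β : k) = Valued.v (x v g) ^ N)
    (hrank : Fintype.card (InfinitePlace k) + S.card ≤ 2 ∨
      (N = 1 ∧ ∃ ε : kˣ, ∀ (c : M) (n : ℕ), 1 ≤ n → ∀ γ : kˣ,
        (c ^ n = algebraMap R M f ∧ γ = α ∨ c ^ n = algebraMap R M g ∧ γ = β) →
        ∃ ζ : kˣ, IsOfFinOrder ζ ∧ ∃ j : ℤ, ∃ z : AlgebraicClosure k,
          z ^ n = algebraMap k (AlgebraicClosure k) ((γ * ζ * ε ^ j : kˣ) : k) ∧
          ∀ σ, s σ c * algebraMap (AlgebraicClosure k) M z =
            algebraMap (AlgebraicClosure k) M (σ z) * c)) :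
    ∃ a : kˣ, ∀ v, x v f ^ N = algebraMap k (v.1.adicCompletion k) (a : k) := by
  classical
  have htow' : IsScalarTower k R M := IsScalarTower.of_algebraMap_eq fun x => by
    rw [IsScalarTower.algebraMap_apply k K M]; rfl
  have hRM : ∀ r : R, algebraMap R M r = algebraMap K M (r : K) := fun r => rfl
  have hsK : ∀ σ, ∀ r : R, s σ (algebraMap R M r) = algebraMap R M r := by
    intro σ r
    rw [hRM, AlgEquiv.commutes]
  have hBk : ∀ a : AlgebraicClosure k, IsIntegral R (algebraMap (AlgebraicClosure k) M a) := by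
    intro a
    have h1 : IsIntegral k a := Algebra.IsIntegral.isIntegral a
    have h2 : IsIntegral k (algebraMap (AlgebraicClosure k) M a) := h1.algebraMap
    exact h2.tower_top
  have hkM : ∀ a : k, algebraMap R M (algebraMap k R a) =
      algebraMap (AlgebraicClosure k) M (algebraMap k _ a) := by
    intro a
    rw [← IsScalarTower.algebraMap_apply, ← IsScalarTower.algebraMap_apply]
  let cα : Rˣ := Units.map (algebraMap k R).toMonoidHom α
  let cβ : Rˣ := Units.map (algebraMap k R).toMonoidHom β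
  have hcα : ((cα : Rˣ) : R) = algebraMap k R α := rfl
  have hcβ : ((cβ : Rˣ) : R) = algebraMap k R β := rfl
  let F₀ : Fin 2 → Rˣ := ![f, g]
  let γ₀ : Fin 2 → kˣ := ![α, β]
  let F : Fin 2 → Rˣ := fun i => F₀ i ^ N * (Units.map (algebraMap k R).toMonoidHom (γ₀ i))⁻¹
  have hF₀div : ∀ i n, 1 ≤ n → ∃ c : M, c ^ n = algebraMap R M (F₀ i) := by
    intro i n hn
    fin_cases i
    · exact (hdiv n hn).1
    · exact (hdiv n hn).2
  have hunit0 : ∀ u : Rˣ, algebraMap R M u ≠ 0 := by
    intro u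
    rw [hRM, _root_.map_ne_zero]
    exact fun h => u.ne_zero (Subtype.ext h)
  have hγM : ∀ i, algebraMap R M ((Units.map (algebraMap k R).toMonoidHom (γ₀ i) : Rˣ) : R) =
      algebraMap (AlgebraicClosure k) M (algebraMap k _ (γ₀ i : k)) := fun i => hkM _
  have hFM : ∀ i, algebraMap R M (F i) = (algebraMap R M (F₀ i)) ^ N *
      (algebraMap (AlgebraicClosure k) M (algebraMap k _ (γ₀ i : k)))⁻¹ := by
    intro i
    rw [← hγM, eq_mul_inv_iff_mul_eq₀ (hunit0 _), ← map_mul, ← map_pow]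
    congr 1
    rw [← Units.val_mul, inv_mul_cancel_right, Units.val_pow_eq_pow_val]
  have hFroots : ∀ i : Fin 2, ∀ n : ℕ, 1 ≤ n → ∃ c : M, c ^ n = algebraMap R M (F i) := by
    intro i n hn
    obtain ⟨c, hc⟩ := hF₀div i n hn
    obtain ⟨a, ha⟩ := IsAlgClosed.exists_pow_nat_eq (algebraMap k (AlgebraicClosure k) (γ₀ i : k)) hn
    refine ⟨c ^ N * (algebraMap (AlgebraicClosure k) M a)⁻¹, ?_⟩
    rw [hFM, mul_pow, inv_pow, ← map_pow, ha, ← pow_mul, mul_comm N n, pow_mul, hc]
  choose T hT1 hTn hTc using fun i => exists_roots_compatible (hFroots i)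
  have hTint : ∀ i n, 1 ≤ n → T i n ∈ integralClosure R M := fun i n hn => by
    refine IsIntegral.of_pow hn ?_
    rw [hTn i n hn]; exact isIntegral_algebraMap
  have hxF : ∀ v i, x v (F i) = x v (F₀ i) ^ N *
      (algebraMap k (v.1.adicCompletion k) (γ₀ i : k))⁻¹ := by
    intro v i
    have h0 : algebraMap k (v.1.adicCompletion k) (γ₀ i : k) ≠ 0 := by
      rw [_root_.map_ne_zero]; exact (γ₀ i).ne_zero
    rw [eq_mul_inv_iff_mul_eq₀ h0]
    have h1 : algebraMap k (v.1.adicCompletion k) (γ₀ i : k) =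
        x v ((Units.map (algebraMap k R).toMonoidHom (γ₀ i) : Rˣ) : R) := by
      exact ((x v).commutes _).symm
    rw [h1, ← map_mul, ← map_pow]
    congr 1
    rw [← Units.val_mul, inv_mul_cancel_right, Units.val_pow_eq_pow_val]
  have hval1 : ∀ v : {v : HeightOneSpectrum (𝓞 k) // v ∉ S}, ∀ i, Valued.v (x v (F i)) = 1 := by
    intro v i
    rw [hxF, map_mul, map_pow, map_inv₀, val_alg]
    have h1 : Valued.v (x v (F₀ i)) ^ N = v.1.valuation k (γ₀ i : k) := by
      fin_cases i
      · exact (hα v).symm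
      · exact (hβ v).symm
    rw [h1, mul_inv_cancel₀]
    rw [Valuation.ne_zero_iff]; exact (γ₀ i).ne_zero
  have hind' : ∀ p q : ℤ, (∃ c : k, ((F 0 ^ p * F 1 ^ q : Rˣ) : R) = algebraMap k R c) →
      p = 0 ∧ q = 0 := by
    rintro p q ⟨c, hc⟩
    have h1 : f ^ ((N : ℤ) * p) * g ^ ((N : ℤ) * q) =
        (F 0 ^ p * F 1 ^ q) * Units.map (algebraMap k R).toMonoidHom (α ^ p * β ^ q) := by
      change _ = (f ^ N * (cα)⁻¹) ^ p * (g ^ N * (cβ)⁻¹) ^ q * _
      rw [map_mul, map_zpow, map_zpow]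
      change _ = (f ^ N * (cα)⁻¹) ^ p * (g ^ N * (cβ)⁻¹) ^ q * (cα ^ p * cβ ^ q)
      rw [mul_zpow, mul_zpow, inv_zpow, inv_zpow, zpow_mul, zpow_mul, zpow_natCast, zpow_natCast]
      have : ∀ a b c d : Rˣ, a * b = a * c⁻¹ * (b * d⁻¹) * (c * d) := by
        intro a b c d
        rw [mul_mul_mul_comm a c⁻¹ b d⁻¹, ← mul_inv, inv_mul_cancel_right]
      exact this _ _ _ _
    have h2 := hind (N * p) (N * q) ⟨c * ((α ^ p * β ^ q : kˣ) : k), by
      rw [h1, Units.val_mul, hc]
      exact (map_mul (algebraMap k R) _ _).symm⟩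
    have hN0 : (N : ℤ) ≠ 0 := by exact_mod_cast (by omega : N ≠ 0)
    exact ⟨(mul_eq_zero.mp h2.1).resolve_left hN0, (mul_eq_zero.mp h2.2).resolve_left hN0⟩
  obtain ⟨a, ha, -⟩ := rank_one_core htr R F 0 1 hind' T hTn hTc s hs hsec S
    (fun v i => if hv : v ∉ S then x ⟨v, hv⟩ (F i) else 1)
    (fun v hv i => by simp only [dif_pos hv]; exact hval1 ⟨v, hv⟩ i)
    (fun v hv => by
      refine ⟨ι ⟨v, hv⟩, fun i n => if h : T i n ∈ integralClosure R M then φ ⟨v, hv⟩ ⟨T i n, h⟩ else 0,
        fun i n hn => ?_, fun σ τ hστ i n hn ζ hζ => ?_⟩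
      · beta_reduce
        rw [dif_pos hv, dif_pos (hTint i n hn), ← map_pow]
        refine Eq.trans ?_ (hx ⟨v, hv⟩ (F i)).symm
        congr 1
        apply Subtype.ext
        exact hTn i n hn
      · beta_reduce
        rw [dif_pos (hTint i n hn)]
        have h1 := (hφ ⟨v, hv⟩).2 σ τ hστ ⟨T i n, hTint i n hn⟩
          ((⟨algebraMap (AlgebraicClosure k) M ζ, hBk ζ⟩ : integralClosure R M) * ⟨T i n, hTint i n hn⟩) (by
            rw [hζ]; rfl)
        rw [← h1, map_mul, (hφ ⟨v, hv⟩).1 ζ ⟨algebraMap (AlgebraicClosure k) M ζ, hBk ζ⟩ rfl]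
        rfl)
    ⟨S, fun v hv => ⟨x ⟨v, hv⟩, fun i => by simp only [dif_pos hv]⟩⟩
    (by
      rcases hrank with h | ⟨hN1, ε, h⟩
      · exact Or.inl h
      · refine Or.inr ⟨ε, fun i n hn => ?_⟩
        obtain ⟨a, ha⟩ := IsAlgClosed.exists_pow_nat_eq
          (algebraMap k (AlgebraicClosure k) (γ₀ i : k)) hn
        have ha0 : a ≠ 0 := by
          rintro rfl
          rw [zero_pow (by omega), eq_comm, _root_.map_eq_zero] at ha
          exact (γ₀ i).ne_zero ha
        have haM : algebraMap (AlgebraicClosure k) M a ≠ 0 := by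
          rw [_root_.map_ne_zero]; exact ha0
        have h1 : (T i n * algebraMap (AlgebraicClosure k) M a) ^ n = algebraMap R M (F₀ i) := by
          rw [mul_pow, hTn i n hn, hFM, ← map_pow (algebraMap (AlgebraicClosure k) M) a n, ha, hN1,
            pow_one, inv_mul_cancel_right₀]
          rw [_root_.map_ne_zero, _root_.map_ne_zero]; exact (γ₀ i).ne_zero
        obtain ⟨ζ, hζ, j, z, hz1, hz2⟩ := h (T i n * algebraMap (AlgebraicClosure k) M a) n hn
            (γ₀ i) (by
          rcases Fin.exists_fin_two.mp ⟨i, rfl⟩ with h2 | h2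
          · subst h2
            exact Or.inl ⟨h1, rfl⟩
          · subst h2
            exact Or.inr ⟨h1, rfl⟩)
        refine ⟨ζ, hζ, j, z / a, ?_, fun σ => ?_⟩
        · rw [div_pow, hz1, ha, ← map_div₀]
          congr 1
          rw [Units.val_mul, Units.val_mul, Units.val_mul]
          have := (γ₀ i).ne_zero
          field_simp
        · have h2 := hz2 σ
          rw [map_mul, hsec] at h2
          have hσa : algebraMap (AlgebraicClosure k) M (σ a) ≠ 0 := by
            rw [_root_.map_ne_zero, _root_.map_ne_zero]; exact ha0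
          rw [map_div₀, map_div₀, map_div₀, mul_div_assoc', div_mul_eq_mul_div,
            div_eq_div_iff haM hσa]
          linear_combination h2)
  refine ⟨a 0 * α, fun v => ?_⟩
  have h1 := ha v.1 v.2 0
  simp only [dif_pos v.2] at h1
  have h2 : x v (F 0) = algebraMap k (v.1.adicCompletion k) (a 0) := h1
  rw [hxF, mul_inv_eq_iff_eq_mul₀ (by rw [_root_.map_ne_zero]; exact (γ₀ 0).ne_zero)] at h2
  rw [Units.val_mul, map_mul]
  exact h2

universe u in
/-- The common core: two independent units of `R` with all roots in `M`, a locally geometric section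
that is integral at almost all places, and a ring of integers of unit rank at most one. -/
theorem selmer_div {k : Type u} [Field k] [NumberField k]
    {K : Type*} [Field K] [Algebra k K] (htr : Algebra.trdeg k K = 1)
    (R : Subalgebra k K) (f g : Rˣ)
    (hind : ∀ p q : ℤ, (∃ c : k, ((f ^ p * g ^ q : Rˣ) : R) = algebraMap k R c) → p = 0 ∧ q = 0)
    {M : Type*} [Field M] [Algebra K M] [Algebra.IsAlgebraic K M]
    [Algebra (AlgebraicClosure k) M] [Algebra k M]
    [IsScalarTower k K M] [IsScalarTower k (AlgebraicClosure k) M]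
    (hdiv : ∀ n : ℕ, 1 ≤ n → (∃ c : M, c ^ n = algebraMap R M f) ∧ ∃ c : M, c ^ n = algebraMap R M g)
    (s : Gal(AlgebraicClosure k/k) →* Gal(M/K)) (hs : Continuous s)
    (hsec : ∀ σ a, s σ (algebraMap (AlgebraicClosure k) M a) =
      algebraMap (AlgebraicClosure k) M (σ a))
    (S : Finset (HeightOneSpectrum (𝓞 k)))
    (hrank : Fintype.card (InfinitePlace k) + S.card ≤ 2 ∨
      ∃ ε : kˣ, ∀ h : Rˣ, h = f ∨ h = g → ∃ α : kˣ, ∀ (c : M) (n : ℕ), 1 ≤ n →
        c ^ n = algebraMap R M h →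
        ∃ ζ : kˣ, IsOfFinOrder ζ ∧ ∃ j : ℤ, ∃ z : AlgebraicClosure k,
          z ^ n = algebraMap k (AlgebraicClosure k) ((α * ζ * ε ^ j : kˣ) : k) ∧
          ∀ σ, s σ c * algebraMap (AlgebraicClosure k) M z =
            algebraMap (AlgebraicClosure k) M (σ z) * c)
    (ι : ∀ v : {v : HeightOneSpectrum (𝓞 k) // v ∉ S},
      AlgebraicClosure k →ₐ[k] AlgebraicClosure (v.1.adicCompletion k))
    (φ : ∀ v : {v : HeightOneSpectrum (𝓞 k) // v ∉ S},
      integralClosure R M →+* AlgebraicClosure (v.1.adicCompletion k))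
    (hφ : ∀ v, Respects s (v.1.adicCompletion k) (ι v : _ →+* AlgebraicClosure (v.1.adicCompletion k)) (φ v))
    (hfg : {v : {v : HeightOneSpectrum (𝓞 k) // v ∉ S} | ¬ ∃ y z : v.1.adicCompletion k,
      Valued.v y = 1 ∧ Valued.v z = 1 ∧
      φ v (algebraMap R (integralClosure R M) f) = algebraMap _ _ y ∧
      φ v (algebraMap R (integralClosure R M) g) = algebraMap _ _ z}.Finite) :
    (∃ ψ : divUnitRing R M →+* AlgebraicClosure k, Respects s k (RingHom.id _) ψ ∧
      (∀ v, ∀ c : divUnitRing R M, ∀ b : integralClosure R M, (b : M) = c → φ v b = ι v (ψ c)) ∧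
      ∀ ψ' : divUnitRing R M →+* AlgebraicClosure k, Respects s k (RingHom.id _) ψ' → ψ' = ψ) ∧
    ((∀ x : K, IsIntegral R x → x ∈ R) → (∀ r : R, algebraMap R M r ∈ divUnitRing R M) →
      IsDivTower R K M (AlgebraicClosure k) →
      ∃ Ψ : integralClosure R M →+* AlgebraicClosure k, Respects s k (RingHom.id _) Ψ ∧
        (∃ x : R →ₐ[k] k, ∀ r, Ψ (algebraMap R _ r) = algebraMap k _ (x r)) ∧
        (∀ v b, φ v b = ι v (Ψ b)) ∧
        ∀ Ψ' : integralClosure R M →+* AlgebraicClosure k,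
          Respects s k (RingHom.id _) Ψ' → Ψ' = Ψ) := by
  classical
  have htow' : IsScalarTower k R M := IsScalarTower.of_algebraMap_eq fun x => by
    rw [IsScalarTower.algebraMap_apply k K M]; rfl
  have hRM : ∀ r : R, algebraMap R M r = algebraMap K M (r : K) := fun r => rfl
  have hsK : ∀ σ, ∀ r : R, s σ (algebraMap R M r) = algebraMap R M r := by
    intro σ r
    rw [hRM, AlgEquiv.commutes]
  have hchar : ∀ v : HeightOneSpectrum (𝓞 k), CharZero (v.adicCompletion k) := fun v =>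
    charZero_of_injective_algebraMap (algebraMap k (v.adicCompletion k)).injective
  have hR : ∀ v : {v : HeightOneSpectrum (𝓞 k) // v ∉ S}, ∀ r : R, ∃ y : v.1.adicCompletion k,
      algebraMap _ (AlgebraicClosure (v.1.adicCompletion k)) y =
        ((φ v).comp (algebraMap R (integralClosure R M))) r := by
    intro v r
    have := hchar v.1
    apply mem_of_fixed
    intro τ
    obtain ⟨σ, hσ⟩ := exists_restrict (ι v) τ
    refine ((hφ v).2 σ τ hσ _ _ ?_).symm
    exact (hsK σ r).symm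
  have hx : ∀ v : {v : HeightOneSpectrum (𝓞 k) // v ∉ S}, ∃ x : R →ₐ[k] v.1.adicCompletion k,
      ∀ r, algebraMap _ (AlgebraicClosure (v.1.adicCompletion k)) (x r) =
        φ v (algebraMap R (integralClosure R M) r) := by
    intro v
    obtain ⟨x, hx⟩ := exists_descent _ (hR v)
    refine ⟨{ x with commutes' := fun a => ?_ }, hx⟩
    apply (algebraMap _ (AlgebraicClosure (v.1.adicCompletion k))).injective
    change algebraMap _ _ (x (algebraMap k R a)) = _
    rw [hx]
    change φ v (algebraMap R (integralClosure R M) (algebraMap k R a)) = _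
    rw [(hφ v).1 (algebraMap k _ a) _ ?_]
    · change ι v (algebraMap k _ a) = _
      rw [AlgHom.commutes]
      rfl
    · change algebraMap R M (algebraMap k R a) = _
      rw [← IsScalarTower.algebraMap_apply, ← IsScalarTower.algebraMap_apply]
  choose x hx using hx
  have hxu : ∀ v (u : Rˣ), x v u ≠ 0 := fun v u => (u.isUnit.map (x v)).ne_zero
  -- the function `f ^ N - a`
  have hvan : ∀ (N : ℕ) (a : kˣ), 1 ≤ N → (f : R) ^ N - algebraMap k R a ≠ 0 := by
    intro N a hN h
    have h3 := (hind N 0 ⟨a, by simpa using sub_eq_zero.mp h⟩).1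
    omega
  have hvan' : ∀ (N : ℕ) (a : kˣ) (v), x v f ^ N = algebraMap k (v.1.adicCompletion k) (a : k) →
      φ v (algebraMap R (integralClosure R M) ((f : R) ^ N - algebraMap k R a)) = 0 := by
    intro N a v h
    rw [← hx, map_sub, map_pow, h, AlgHom.commutes, sub_self, map_zero]
  have hfin : ∀ u : Rˣ, (u = f ∨ u = g) →
      {v : {v : HeightOneSpectrum (𝓞 k) // v ∉ S} | Valued.v (x v u) ≠ 1}.Finite := by
    intro u hu
    refine hfg.subset fun v hv => ?_
    rintro ⟨y, z, hy, hz, hyf, hzg⟩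
    have hinj := (algebraMap (v.1.adicCompletion k) (AlgebraicClosure (v.1.adicCompletion k))).injective
    apply hv
    rcases hu with rfl | rfl
    · have h1 : x v u = y := hinj (by rw [hx, hyf])
      rw [h1, hy]
    · have h1 : x v u = z := hinj (by rw [hx, hzg])
      rw [h1, hz]
  rcases hrank with hr | ⟨ε, hε⟩
  · -- rank at most one
    have hal : ∀ u : Rˣ, (u = f ∨ u = g) → ∃ α : kˣ, ∀ v : {v : HeightOneSpectrum (𝓞 k) // v ∉ S},
        v.1.valuation k (α : k) = Valued.v (x v u) ^ classNumber k := by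
      intro u hu
      obtain ⟨α, hα⟩ := exists_alpha_div S (fun v => if hv : v ∉ S then x ⟨v, hv⟩ u else 1)
        (fun v hv => by simp only [dif_pos hv]; exact hxu ⟨v, hv⟩ u) (by
          refine ((hfin u hu).image Subtype.val).subset ?_
          rintro v ⟨hv, h⟩
          simp only [dif_pos hv] at h
          exact ⟨⟨v, hv⟩, h, rfl⟩)
      refine ⟨α, fun v => ?_⟩
      rw [hα v.1 v.2]
      simp only [dif_pos v.2]
    obtain ⟨α, hα⟩ := hal f (Or.inl rfl)
    obtain ⟨β, hβ⟩ := hal g (Or.inr rfl)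
    have hh : 1 ≤ classNumber k := classNumber_pos k
    obtain ⟨a, ha⟩ := exists_vanishing_div htr R f g hind hdiv s hs hsec S ι φ hφ x hx
      (classNumber k) hh α β hα hβ (Or.inl hr)
    exact core_div htr R s hs hsec S ι φ hφ _ (hvan _ a hh) (fun v => hvan' _ a v (ha v))
  · -- rank one classes: enlarge `S`
    obtain ⟨α, hα⟩ := hε f (Or.inl rfl)
    obtain ⟨β, hβ⟩ := hε g (Or.inr rfl)
    let S' : Finset (HeightOneSpectrum (𝓞 k)) := S ∪
      ((hfin f (Or.inl rfl)).toFinset.image Subtype.val ∪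
        (hfin g (Or.inr rfl)).toFinset.image Subtype.val) ∪
      ((finite_val_ne_one α.ne_zero).toFinset ∪ (finite_val_ne_one β.ne_zero).toFinset)
    have hS' : ∀ v ∉ S', ∃ hv : v ∉ S, Valued.v (x ⟨v, hv⟩ f) = 1 ∧ Valued.v (x ⟨v, hv⟩ g) = 1 ∧
        v.valuation k (α : k) = 1 ∧ v.valuation k (β : k) = 1 := by
      intro v hv
      simp only [S', Finset.mem_union, Finset.mem_image, Set.Finite.mem_toFinset,
        Set.mem_ofPred_eq, not_or, not_exists, not_and, not_not] at hv
      obtain ⟨⟨h1, h2, h3⟩, h4, h5⟩ := hv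
      refine ⟨h1, ?_, ?_, h4, h5⟩
      · by_contra h; exact h2 ⟨v, h1⟩ h rfl
      · by_contra h; exact h3 ⟨v, h1⟩ h rfl
    let j : {v : HeightOneSpectrum (𝓞 k) // v ∉ S'} → {v : HeightOneSpectrum (𝓞 k) // v ∉ S} :=
      fun v => ⟨v.1, (hS' v.1 v.2).1⟩
    obtain ⟨a, ha⟩ := exists_vanishing_div htr R f g hind hdiv s hs hsec S' (fun v => ι (j v))
      (fun v => φ (j v)) (fun v => hφ (j v)) (fun v => x (j v)) (fun v => hx (j v)) 1 le_rfl α β
      (fun v => by
        obtain ⟨h0, h1, -, h3, -⟩ := hS' v.1 v.2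
        rw [h3, pow_one]; exact h1.symm)
      (fun v => by
        obtain ⟨h0, -, h2, -, h4⟩ := hS' v.1 v.2
        rw [h4, pow_one]; exact h2.symm)
      (Or.inr ⟨rfl, ε, fun c n hn γ hγ => by
        rcases hγ with ⟨h1, rfl⟩ | ⟨h1, rfl⟩
        · exact hα c n hn h1
        · exact hβ c n hn h1⟩)
    obtain ⟨⟨ψ, hψ, hψφ, -⟩, -⟩ := core_div htr R s hs hsec S' (fun v => ι (j v))
      (fun v => φ (j v)) (fun v => hφ (j v)) _ (hvan 1 a le_rfl)
      (fun v => hvan' 1 a (j v) (ha v))
    have hfU : algebraMap R M f ∈ divUnitRing R M := by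
      refine Subring.subset_closure ⟨isIntegral_algebraMap, ?_, fun n hn => (hdiv n hn).1⟩
      have h2 : (algebraMap R M f)⁻¹ = algebraMap R M ((f⁻¹ : Rˣ) : R) :=
        inv_eq_of_mul_eq_one_right (by rw [← map_mul, Units.mul_inv, map_one])
      rw [h2]; exact isIntegral_algebraMap
    have hψf : ψ ⟨algebraMap R M f, hfU⟩ = algebraMap k _ (a : k) := by
      obtain ⟨v, hv⟩ := exists_notMem S'
      apply (ι (j ⟨v, hv⟩)).toRingHom.injective
      have h1 := hψφ ⟨v, hv⟩ ⟨algebraMap R M f, hfU⟩ (algebraMap R (integralClosure R M) f) rfl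
      have h2 := hx (j ⟨v, hv⟩) f
      have h3 := ha ⟨v, hv⟩
      rw [pow_one] at h3
      change ι (j ⟨v, hv⟩) _ = ι (j ⟨v, hv⟩) _
      rw [← h1, ← h2, h3, AlgHom.commutes, ← IsScalarTower.algebraMap_apply]
    have hall : ∀ v : {v : HeightOneSpectrum (𝓞 k) // v ∉ S},
        x v f ^ 1 = algebraMap k (v.1.adicCompletion k) (a : k) := by
      intro v
      have h1 := agree_local R s v.1 (ι v) (φ v) (hφ v) ψ hψ f (fun n hn => (hdiv n hn).1)
        ⟨algebraMap R M f, hfU⟩ rfl
      apply (algebraMap (v.1.adicCompletion k) (AlgebraicClosure (v.1.adicCompletion k))).injective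
      rw [pow_one, hx, h1, hψf, AlgHom.commutes, ← IsScalarTower.algebraMap_apply]
    exact core_div htr R s hs hsec S ι φ hφ _ (hvan 1 a le_rfl) (fun v => hvan' 1 a v (hall v))

end Pool.Agent.Lib.MP_2f3286_ag
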