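import Mathlib
import Pool.Agent.Lib.MP_2f3286_ag.Top.Assembly

/-!
# Sections of curves with two independent maps to an elliptic curve of rank one

Let `W` be an elliptic curve over a number field `k` with `W(k)` of rank one and Tate-Shafarevich
group of finite exponent, `K` the function field of a curve with two maps to `W` that are
independent modulo constants. A section of `Gal(M/K) → Gal(kbar/k)` which at the finite places comes
from local points has all its values along the points of `W` over `K` given by one homomorphism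
`W(K) → W(k)`; if `M` is algebraically closed, it is the section of exactly one `k`-rational place.
-/

open IsDedekindDomain NumberField WeierstrassCurve WeierstrassCurve.Affine
open Pool.Agent.Lib.MP_2f3286_ag.Sel

namespace Pool.Agent.Lib.MP_2f3286_ag.SelmerEllipticOld

open scoped Classical in
universe u in
theorem result {k : Type u} [Field k] [NumberField k]
    -- an elliptic curve of rank one, with Tate-Shafarevich group (off `S`) killed by `m`
    (W : WeierstrassCurve k) [W.IsShortNF] [W.IsElliptic]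
    (P : (W⁄k).Point) (hP : ∀ n : ℕ, n ≠ 0 → n • P ≠ 0)
    (hrk : ∀ Q : (W⁄k).Point, ∃ a : ℤ, IsOfFinAddOrder (Q - a • P))
    (S : Finset (HeightOneSpectrum (𝓞 k))) (m : ℕ) (hm : 1 ≤ m) (hsha : ShaKilledBy W S m)
    -- a function field with two independent points
    {K : Type*} [Field K] [Algebra k K] (htr : Algebra.trdeg k K = 1)
    (η₁ η₂ : (W⁄K).Point)
    (hind : ∀ a b : ℤ, (∃ Q : (W⁄k).Point, a • η₁ + b • η₂ = Point.baseChange k K Q) →
      a = 0 ∧ b = 0)
    -- an algebraic extension in which all points over `K` are divisible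
    {M : Type*} [Field M] [Algebra K M] [Algebra.IsAlgebraic K M]
    [Algebra (AlgebraicClosure k) M] [Algebra k M] [IsScalarTower k K M]
    [IsScalarTower k (AlgebraicClosure k) M]
    (hdiv : ∀ (η : (W⁄K).Point) (n : ℕ), 1 ≤ n →
      ∃ T : (W⁄M).Point, n • T = Point.baseChange K M η)
    -- a section with local points outside `S`
    (s : Gal(AlgebraicClosure k/k) →* Gal(M/K)) (hs : Continuous s)
    (hsec : ∀ σ a, s σ (algebraMap (AlgebraicClosure k) M a) =
      algebraMap (AlgebraicClosure k) M (σ a))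
    (ι : ∀ v : {v : HeightOneSpectrum (𝓞 k) // v ∉ S},
      AlgebraicClosure k →ₐ[k] AlgebraicClosure (v.1.adicCompletion k))
    (A : {v : HeightOneSpectrum (𝓞 k) // v ∉ S} → ValuationSubring M)
    (φ : ∀ v : {v : HeightOneSpectrum (𝓞 k) // v ∉ S},
      A v →+* AlgebraicClosure (v.1.adicCompletion k))
    (hφ : ∀ v, IsPlaceOf s (v.1.adicCompletion k)
      (ι v : _ →+* AlgebraicClosure (v.1.adicCompletion k)) (A v) (φ v)) :
    ∃ Ψ : (W⁄K).Point →+ (W⁄k).Point,
      (∀ v η, HasValue (A v) (φ v) η (Point.baseChange k (v.1.adicCompletion k) (Ψ η))) ∧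
      (∀ η (n : ℕ), 1 ≤ n → SameClass s n η (Ψ η)) ∧
      (∀ η R, (∀ n : ℕ, 1 ≤ n → SameClass s n η R) → R = Ψ η) ∧
      (∀ (I : Type) [Fintype I] (ξ : I → (W⁄K).Point), OnClosure ξ (fun i => Ψ (ξ i))) ∧
      (IsAlgClosed M → ∃ (A₀ : ValuationSubring M) (ψ₀ : A₀ →+* AlgebraicClosure k),
        IsPlaceOf s k (RingHom.id _) A₀ ψ₀ ∧
        (∀ v, A v = A₀ ∧ ∀ (a : A v) (b : A₀), (a : M) = b → φ v a = ι v (ψ₀ b)) ∧
        (∀ (f : K) (h : algebraMap K M f ∈ A₀),
          ∃ a : k, ψ₀ ⟨algebraMap K M f, h⟩ = algebraMap k (AlgebraicClosure k) a) ∧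
        ∀ (A₁ : ValuationSubring M) (ψ₁ : A₁ →+* AlgebraicClosure k),
          IsPlaceOf s k (RingHom.id _) A₁ ψ₁ →
          A₁ = A₀ ∧ ∀ (a : A₁) (b : A₀), (a : M) = b → ψ₁ a = ψ₀ b) :=
  Pool.Agent.Lib.MP_2f3286_ag.Top.assembly W htr η₁ η₂ hind s hs hsec S ι A φ hφ P hP hrk m hm hsha
    hdiv

end Pool.Agent.Lib.MP_2f3286_ag.SelmerEllipticOld
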