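import Mathlib
import Pool.Agent.Lib.MP_2f3286_ag.SFull.Final

/-!
# Sections of the full fundamental group of a curve with two independent maps to an elliptic curve

Let `W` be an elliptic curve over a number field `k` with `W(k)` of rank one and Tate-Shafarevich
group of finite exponent, `K` the function field of a curve with two maps to `W` that are
independent modulo constants, `U` the proper curve or an affine open part of it: the places at which
the functions in `R` are finite. A section of the fundamental group of `U` which at the finite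
places comes from local points of `U` is the section of a closed point of `U`, and the values of all
maps to `W` at this point are rational and equal to the values at all the local points.
-/

open IsDedekindDomain NumberField WeierstrassCurve WeierstrassCurve.Affine
open Pool.Agent.Lib.MP_2f3286_ag.Sel Pool.Agent.Lib.MP_2f3286_ag.Pt

namespace Pool.Agent.Lib.MP_2f3286_ag.SelmerFullOld

open scoped Classical in
universe u in
theorem selmer_full_old {k : Type u} [Field k] [NumberField k]
    -- an elliptic curve of rank one, with Tate-Shafarevich group (off `S`) killed by `m`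
    (W : WeierstrassCurve k) [W.IsShortNF] [W.IsElliptic]
    (P : (W⁄k).Point) (hP : ∀ n : ℕ, n ≠ 0 → n • P ≠ 0)
    (hrk : ∀ Q : (W⁄k).Point, ∃ a : ℤ, IsOfFinAddOrder (Q - a • P))
    (S : Finset (HeightOneSpectrum (𝓞 k))) (m : ℕ) (hm : 1 ≤ m) (hsha : ShaKilledBy W S m)
    -- the function field of a curve with two independent points
    {K : Type*} [Field K] [Algebra k K] (hK : (⊤ : IntermediateField k K).FG)
    (htr : Algebra.trdeg k K = 1) (η₁ η₂ : (W⁄K).Point)
    (hind : ∀ a b : ℤ, (∃ Q : (W⁄k).Point, a • η₁ + b • η₂ = Point.baseChange k K Q) →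
      a = 0 ∧ b = 0)
    -- the curve `U`: the places at which the functions in `R` are finite (all places if `R = k`)
    (R : Subalgebra k K) (hR : R.FG)
    -- the maximal unramified extension of `K` over `U`, with Galois group the fundamental group
    {M : Type*} [Field M] [Algebra K M] [IsGalois K M]
    [Algebra (AlgebraicClosure k) M] [Algebra k M] [IsScalarTower k K M]
    [IsScalarTower k (AlgebraicClosure k) M]
    (hM : IsMaxUnramOver R K M (AlgebraicClosure k))
    -- a section with local points in `U` outside `S`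
    (s : Gal(AlgebraicClosure k/k) →* Gal(M/K)) (hs : Continuous s)
    (hsec : ∀ σ a, s σ (algebraMap (AlgebraicClosure k) M a) =
      algebraMap (AlgebraicClosure k) M (σ a))
    (ι : ∀ v : {v : HeightOneSpectrum (𝓞 k) // v ∉ S},
      AlgebraicClosure k →ₐ[k] AlgebraicClosure (v.1.adicCompletion k))
    (A : {v : HeightOneSpectrum (𝓞 k) // v ∉ S} → ValuationSubring M)
    (φ : ∀ v : {v : HeightOneSpectrum (𝓞 k) // v ∉ S},
      A v →+* AlgebraicClosure (v.1.adicCompletion k))
    (hφ : ∀ v, IsPlaceOf s (v.1.adicCompletion k)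
      (ι v : _ →+* AlgebraicClosure (v.1.adicCompletion k)) (A v) (φ v))
    (hA : ∀ v (r : R), algebraMap K M r ∈ A v) :
    ∃ (Ψ : (W⁄K).Point →+ (W⁄k).Point) (A₀ : ValuationSubring M)
      (ψ₀ : A₀ →+* AlgebraicClosure k),
      -- the points of `W` over `K` have the rational values `Ψ` at all the places
      (∀ v η, HasValue (A v) (φ v) η (Point.baseChange k (v.1.adicCompletion k) (Ψ η))) ∧
      (∀ η, HasValue A₀ ψ₀ η (Ψ η)) ∧
      -- `s` is the section of the place, which lies on `U`
      (∀ r : R, algebraMap K M r ∈ A₀) ∧ IsSectionAt s A₀ ψ₀ ∧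
      -- it is the only such place over its restriction to `K`
      (∀ (A₁ : ValuationSubring M) (ψ₁ : A₁ →+* AlgebraicClosure k),
        IsSectionAt s A₁ ψ₁ →
        (∀ (f : K) (h : algebraMap K M f ∈ A₀), ∃ h' : algebraMap K M f ∈ A₁,
          ψ₁ ⟨_, h'⟩ = ψ₀ ⟨_, h⟩) →
        A₁ = A₀ ∧ ∀ (a : A₁) (b : A₀), (a : M) = b → ψ₁ a = ψ₀ b) ∧
      -- if the maps to `W` separate it from the other places, it is rational
      ((∀ (A₁ : ValuationSubring M) (ψ₁ : A₁ →+* AlgebraicClosure k),
          (∀ a, ∃ h : algebraMap (AlgebraicClosure k) M a ∈ A₁, ψ₁ ⟨_, h⟩ = a) →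
          (∀ x : A₁, ψ₁ x ≠ 0 → (x : M)⁻¹ ∈ A₁) → (∀ η, HasValue A₁ ψ₁ η (Ψ η)) →
          ∀ (f : K) (h : algebraMap K M f ∈ A₀), ∃ h' : algebraMap K M f ∈ A₁,
            ψ₁ ⟨_, h'⟩ = ψ₀ ⟨_, h⟩) →
        IsPlaceOf s k (RingHom.id _) A₀ ψ₀) :=
  Pool.Agent.Lib.MP_2f3286_ag.SFull.sel_full W P hP hrk S m hm hsha hK htr η₁ η₂ hind R hR hM s hs
    hsec ι A φ hφ hA

end Pool.Agent.Lib.MP_2f3286_ag.SelmerFullOld
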